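import Mathlib

namespace Pool.Agent.V11105.EP

open Finset Filter Topology

noncomputable section

def S (y : ℕ → ℝ) (k : ℕ) : ℝ := ∑ i ∈ range k, y i
def Q (y : ℕ → ℝ) (k : ℕ) : ℝ := ∑ i ∈ range k, (y i)^2
def P (y : ℕ → ℝ) (k : ℕ) : ℝ := ∏ i ∈ range k, y i
def E (y : ℕ → ℝ) (k : ℕ) : ℝ := ((S y k)^2 - Q y k)/2

lemma S_zero (y : ℕ → ℝ) : S y 0 = 0 := by simp [S]
lemma Q_zero (y : ℕ → ℝ) : Q y 0 = 0 := by simp [Q]
lemma P_zero (y : ℕ → ℝ) : P y 0 = 1 := by simp [P]
lemma E_zero (y : ℕ → ℝ) : E y 0 = 0 := by simp [E, S, Q]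
lemma S_succ (y : ℕ → ℝ) (k : ℕ) : S y (k+1) = S y k + y k := by simp [S, sum_range_succ]
lemma Q_succ (y : ℕ → ℝ) (k : ℕ) : Q y (k+1) = Q y k + (y k)^2 := by simp [Q, sum_range_succ]
lemma P_succ (y : ℕ → ℝ) (k : ℕ) : P y (k+1) = P y k * y k := by simp [P, prod_range_succ]
lemma E_succ (y : ℕ → ℝ) (k : ℕ) : E y (k+1) = E y k + y k * S y k := by
  simp only [E, S_succ, Q_succ]; ring
lemma S_one (y : ℕ → ℝ) : S y 1 = y 0 := by simp [S]
lemma P_one (y : ℕ → ℝ) : P y 1 = y 0 := by simp [P]
lemma E_one (y : ℕ → ℝ) : E y 1 = 0 := by rw [E_succ, E_zero, S_zero]; ring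

lemma cont_S (k : ℕ) : Continuous (fun y : ℕ → ℝ => S y k) := by
  unfold S; exact continuous_finsetSum _ (fun i _ => continuous_apply i)
lemma cont_Q (k : ℕ) : Continuous (fun y : ℕ → ℝ => Q y k) := by
  unfold Q; exact continuous_finsetSum _ (fun i _ => (continuous_apply i).pow 2)
lemma cont_P (k : ℕ) : Continuous (fun y : ℕ → ℝ => P y k) := by
  unfold P; exact continuous_finsetProd _ (fun i _ => continuous_apply i)
lemma cont_E (k : ℕ) : Continuous (fun y : ℕ → ℝ => E y k) := by
  unfold E; exact (((cont_S k).pow 2).sub (cont_Q k)).div_const 2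

def W (n : ℕ) : Set (ℕ → ℝ) :=
  {y | (∀ i, 0 ≤ y i ∧ y i ≤ 1) ∧ (∀ i, i+1 < n → y (i+1) ≤ y i) ∧ E y n = 1 ∧
    ∀ k, 1 ≤ k → k < n → P y k + E y k ≤ 1}

lemma isCompact_W (n : ℕ) : IsCompact (W n) := by
  have hK : IsCompact (Set.pi Set.univ (fun _ : ℕ => Set.Icc (0:ℝ) 1)) :=
    isCompact_univ_pi (fun _ => isCompact_Icc)
  refine hK.of_isClosed_subset ?_ ?_
  · have : W n = (⋂ i, {y : ℕ → ℝ | 0 ≤ y i} ∩ {y | y i ≤ 1}) ∩
        (⋂ i, ⋂ (_ : i+1 < n), {y : ℕ → ℝ | y (i+1) ≤ y i}) ∩ {y | E y n = 1} ∩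
        (⋂ k, ⋂ (_ : 1 ≤ k), ⋂ (_ : k < n), {y : ℕ → ℝ | P y k + E y k ≤ 1}) := by
      ext y
      simp only [W, Set.mem_ofPred_eq, Set.mem_inter_iff, Set.mem_iInter]
      tauto
    rw [this]
    refine IsClosed.inter (IsClosed.inter (IsClosed.inter ?_ ?_) ?_) ?_
    · exact isClosed_iInter fun i => (isClosed_le continuous_const (continuous_apply i)).inter
        (isClosed_le (continuous_apply i) continuous_const)
    · exact isClosed_iInter fun i => isClosed_iInter fun _ =>
        isClosed_le (continuous_apply _) (continuous_apply _)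
    · exact isClosed_eq (cont_E n) continuous_const
    · exact isClosed_iInter fun k => isClosed_iInter fun _ => isClosed_iInter fun _ =>
        isClosed_le ((cont_P k).add (cont_E k)) continuous_const
  · intro y hy i _
    exact ⟨(hy.1 i).1, (hy.1 i).2⟩

section basic
variable {n : ℕ} {y : ℕ → ℝ} (hy : y ∈ W n)
include hy

lemma y_nonneg (i : ℕ) : 0 ≤ y i := (hy.1 i).1
lemma y_le_one (i : ℕ) : y i ≤ 1 := (hy.1 i).2

lemma S_nonneg (k : ℕ) : 0 ≤ S y k := sum_nonneg (fun i _ => y_nonneg hy i)
lemma P_nonneg (k : ℕ) : 0 ≤ P y k := prod_nonneg (fun i _ => y_nonneg hy i)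

lemma E_mono_succ (k : ℕ) : E y k ≤ E y (k+1) := by
  rw [E_succ]
  have := mul_nonneg (y_nonneg hy k) (S_nonneg hy k)
  linarith

lemma E_mono : Monotone (E y) := monotone_nat_of_le_succ (E_mono_succ hy)

lemma S_mono : Monotone (S y) := monotone_nat_of_le_succ (fun k => by
  rw [S_succ]; linarith [y_nonneg hy k])

lemma E_le_one {k : ℕ} (hk : k ≤ n) : E y k ≤ 1 := by
  have := E_mono hy hk
  rw [hy.2.2.1] at this
  exact this

lemma anti {i j : ℕ} (hij : i ≤ j) (hj : j < n) : y j ≤ y i := by
  induction j, hij using Nat.le_induction with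
  | base => exact le_refl _
  | succ j hij ih =>
    exact (hy.2.1 j hj).trans (ih (by omega))

lemma y_pos {i : ℕ} (hi : i < n) : 0 < y i := by
  -- minimal k with E y k = 1
  have hex : ∃ k, E y k = 1 := ⟨n, hy.2.2.1⟩
  classical
  set k := Nat.find hex with hk
  have hk1 : E y k = 1 := Nat.find_spec hex
  have hkn : k ≤ n := Nat.find_min' hex hy.2.2.1
  have hk2 : 2 ≤ k := by
    by_contra hlt
    have : k = 0 ∨ k = 1 := by omega
    rcases this with h | h
    · rw [h, E_zero] at hk1; norm_num at hk1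
    · rw [h, E_one] at hk1; norm_num at hk1
  have hkey : y (k-1) ≠ 0 := by
    intro h0
    have : E y (k-1+1) = E y (k-1) + y (k-1) * S y (k-1) := E_succ y (k-1)
    rw [h0, zero_mul, add_zero, show k-1+1 = k by omega, hk1] at this
    exact Nat.find_min hex (show k-1 < k by omega) this.symm
  have hkn' : k = n := by
    by_contra hne
    have hlt : k < n := by omega
    have h1 := hy.2.2.2 k (by omega) hlt
    rw [hk1] at h1
    have h2 : P y k = 0 := le_antisymm (by linarith) (P_nonneg hy k)
    unfold P at h2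
    rw [prod_eq_zero_iff] at h2
    obtain ⟨j, hj, hj0⟩ := h2
    rw [mem_range] at hj
    have h3 := anti hy (show j ≤ k-1 by omega) (by omega)
    have h4 := y_nonneg hy (k-1)
    exact hkey (by linarith)
  have h5 : 0 < y (n-1) := by
    rw [← hkn']
    exact lt_of_le_of_ne (y_nonneg hy _) (Ne.symm hkey)
  exact lt_of_lt_of_le h5 (anti hy (by omega) (by omega))

lemma P_le_y0 {k : ℕ} (hk : 1 ≤ k) : P y k ≤ y 0 := by
  induction k, hk using Nat.le_induction with
  | base => rw [P_one]
  | succ k hk ih =>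
    rw [P_succ]
    calc P y k * y k ≤ P y k * 1 := mul_le_mul_of_nonneg_left (y_le_one hy k) (P_nonneg hy k)
      _ = P y k := mul_one _
      _ ≤ y 0 := ih

lemma lemA {m : ℕ} (hm : 2 ≤ m) (hmn : m < n) (ht : P y m + E y m = 1) : y m < y (m-1) := by
  by_contra hnot
  have hle : y m ≤ y (m-1) := anti hy (by omega) hmn
  have heq : y m = y (m-1) := le_antisymm hle (not_lt.mp hnot)
  have hE : E y (m+1) ≤ 1 := E_le_one hy (by omega)
  rw [E_succ] at hE
  have h1 : y m * S y m ≤ P y m := by linarith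
  have h2 : P y m = P y (m-1) * y (m-1) := by
    conv_lhs => rw [show m = m-1+1 by omega]
    rw [P_succ]
  rw [h2, ← heq, mul_comm] at h1
  have hpos : 0 < y m := y_pos hy hmn
  have h3 : S y m ≤ P y (m-1) := le_of_mul_le_mul_right h1 hpos
  have h4 : P y (m-1) ≤ y 0 := P_le_y0 hy (by omega)
  have h5 : S y m = S y (m-1) + y (m-1) := by
    conv_lhs => rw [show m = m-1+1 by omega]
    rw [S_succ]
  have h6 : y 0 ≤ S y (m-1) := by
    have := S_mono hy (show 1 ≤ m-1 by omega)
    rwa [S_one] at this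
  have h7 : 0 < y (m-1) := y_pos hy (by omega)
  linarith

end basic

lemma sum_upd (F : ℝ → ℝ) (y : ℕ → ℝ) (p : ℕ) (c : ℝ) {j : ℕ} (hp : p < j) :
    ∑ i ∈ range j, F (Function.update y p c i) = ∑ i ∈ range j, F (y i) - F (y p) + F c := by
  have hmem : p ∈ range j := mem_range.mpr hp
  rw [← add_sum_erase _ _ hmem, ← add_sum_erase (range j) (fun i => F (y i)) hmem]
  have : ∑ i ∈ (range j).erase p, F (Function.update y p c i) = ∑ i ∈ (range j).erase p, F (y i) := by
    refine sum_congr rfl (fun i hi => ?_)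
    rw [Function.update_of_ne (ne_of_mem_erase hi)]
  rw [this, Function.update_self]
  ring

lemma sum_upd_ge (F : ℝ → ℝ) (y : ℕ → ℝ) (p : ℕ) (c : ℝ) {j : ℕ} (hp : j ≤ p) :
    ∑ i ∈ range j, F (Function.update y p c i) = ∑ i ∈ range j, F (y i) := by
  refine sum_congr rfl (fun i hi => ?_)
  rw [mem_range] at hi
  rw [Function.update_of_ne (by omega)]

lemma prod_upd (y : ℕ → ℝ) (p : ℕ) (c : ℝ) {j : ℕ} (hp : p < j) :
    P (Function.update y p c) j * y p = P y j * c := by
  unfold P
  have hmem : p ∈ range j := mem_range.mpr hp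
  rw [← mul_prod_erase _ _ hmem, ← mul_prod_erase (range j) (fun i => y i) hmem]
  have : ∏ i ∈ (range j).erase p, (Function.update y p c i) = ∏ i ∈ (range j).erase p, (y i) := by
    refine prod_congr rfl (fun i hi => ?_)
    rw [Function.update_of_ne (ne_of_mem_erase hi)]
  rw [this, Function.update_self]
  ring

lemma prod_upd_ge (y : ℕ → ℝ) (p : ℕ) (c : ℝ) {j : ℕ} (hp : j ≤ p) :
    P (Function.update y p c) j = P y j := by
  unfold P
  refine prod_congr rfl (fun i hi => ?_)
  rw [mem_range] at hi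
  rw [Function.update_of_ne (by omega)]

/-- two-coordinate change -/
def Y (y : ℕ → ℝ) (p q : ℕ) (a' b' : ℝ) : ℕ → ℝ := Function.update (Function.update y p a') q b'

lemma Y_low (y : ℕ → ℝ) {p q : ℕ} (a' b' : ℝ) {j : ℕ} (hj : j ≤ p) (hpq : p < q) :
    P (Y y p q a' b') j = P y j ∧ E (Y y p q a' b') j = E y j := by
  constructor
  · unfold Y; rw [prod_upd_ge _ _ _ (by omega), prod_upd_ge _ _ _ hj]
  · unfold Y E S Q
    rw [sum_upd_ge (fun t => t) _ _ _ (show j ≤ q by omega), sum_upd_ge (fun t => t) _ _ _ hj,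
      sum_upd_ge (fun t => t^2) _ _ _ (show j ≤ q by omega), sum_upd_ge (fun t => t^2) _ _ _ hj]

lemma Y_high_P (y : ℕ → ℝ) {p q : ℕ} (a' b' : ℝ) {j : ℕ} (hpq : p < q) (hj : q < j) :
    P (Y y p q a' b') j * (y p * y q) = P y j * (a' * b') := by
  have h1 := prod_upd (Function.update y p a') q b' hj
  rw [Function.update_of_ne (show q ≠ p by omega)] at h1
  have h2 := prod_upd y p a' (show p < j by omega)
  unfold Y
  calc P (Function.update (Function.update y p a') q b') j * (y p * y q)
      = (P (Function.update (Function.update y p a') q b') j * y q) * y p := by ring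
    _ = (P (Function.update y p a') j * y p) * b' := by rw [h1]; ring
    _ = P y j * (a' * b') := by rw [h2]; ring

lemma Y_high_E (y : ℕ → ℝ) {p q : ℕ} (a' b' : ℝ) {j : ℕ} (hpq : p < q) (hj : q < j) :
    E (Y y p q a' b') j = E y j + (S y j - y p - y q) * (a' + b' - y p - y q)
      + (a' * b' - y p * y q) := by
  unfold Y E S Q
  rw [sum_upd (fun t => t) _ _ _ hj, sum_upd (fun t => t) _ _ _ (show p < j by omega),
      sum_upd (fun t => t^2) _ _ _ hj, sum_upd (fun t => t^2) _ _ _ (show p < j by omega),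
      Function.update_of_ne (show q ≠ p by omega)]
  ring


/-- algebra of the change -/
lemma alg {a b R ε : ℝ} (hb : 0 < b) (hab : b ≤ a) (hR : 0 < R) (hε : 0 < ε) :
    let b' := (a+R)*(b+R)/(a+ε+R) - R
    b' ≤ b ∧ 0 ≤ (a+ε) + b' - a - b ∧ (a+ε)*b' < a*b ∧
      (a+ε)*b' - a*b = - R * ((a+ε) + b' - a - b) := by
  intro b'
  have hA : 0 < a + ε + R := by linarith
  have hb' : (b' + R) * (a+ε+R) = (a+R)*(b+R) := by
    simp only [b']
    rw [sub_add_cancel, div_mul_cancel₀ _ hA.ne']
  have hrel : (a+ε)*b' - a*b = - R * ((a+ε) + b' - a - b) := by nlinarith [hb']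
  have h1 : b' ≤ b := by
    by_contra h
    push Not at h
    have : (b + R) * (a+ε+R) < (b'+R)*(a+ε+R) := by
      apply mul_lt_mul_of_pos_right _ hA; linarith
    rw [hb'] at this
    have h2 : 0 < (b+R)*ε := by positivity
    nlinarith
  have h3 : 0 < (a+ε) + b' - a - b := by
    by_contra h
    push Not at h
    have h4 : b' ≤ b - ε := by linarith
    have h5 : (b'+R)*(a+ε+R) ≤ (b - ε + R)*(a+ε+R) := by
      apply mul_le_mul_of_nonneg_right _ hA.le; linarith
    rw [hb'] at h5
    have h6 : 0 < ε * ε := by positivity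
    have h7 : 0 ≤ ε * (a - b) := by
      apply mul_nonneg hε.le; linarith
    nlinarith
  refine ⟨h1, h3.le, ?_, hrel⟩
  have : 0 < R * ((a+ε) + b' - a - b) := mul_pos hR h3
  linarith

lemma improve {n : ℕ} (hn : 3 ≤ n) {y : ℕ → ℝ} (hy : y ∈ W n)
    (hs : ∃ k, 1 ≤ k ∧ k < n ∧ P y k + E y k < 1) : ∃ y' ∈ W n, P y' n < P y n := by
  classical
  -- largest strict index
  obtain ⟨k, hk1, hkn, hks, hmax⟩ : ∃ k, 1 ≤ k ∧ k < n ∧ P y k + E y k < 1 ∧
      ∀ j, k < j → j < n → P y j + E y j = 1 := by
    set T := (Finset.Ico 1 n).filter (fun k => P y k + E y k < 1) with hT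
    have hne : T.Nonempty := by
      obtain ⟨k, h1, h2, h3⟩ := hs
      exact ⟨k, by rw [hT, mem_filter, mem_Ico]; exact ⟨⟨h1, h2⟩, h3⟩⟩
    have hmem : T.max' hne ∈ (Finset.Ico 1 n).filter (fun k => P y k + E y k < 1) := T.max'_mem hne
    rw [mem_filter, mem_Ico] at hmem
    refine ⟨T.max' hne, hmem.1.1, hmem.1.2, hmem.2, ?_⟩
    intro j hj hjn
    by_contra hcon
    have hlt : P y j + E y j < 1 := lt_of_le_of_ne (hy.2.2.2 j (by omega) hjn) hcon
    have : j ∈ T := by rw [hT, mem_filter, mem_Ico]; exact ⟨⟨by omega, hjn⟩, hlt⟩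
    have := T.le_max' j this
    omega
  -- block start
  have hex : ∃ i, y i = y (k-1) := ⟨k-1, rfl⟩
  set p := Nat.find hex with hp
  have hpy : y p = y (k-1) := Nat.find_spec hex
  have hpk : p ≤ k-1 := Nat.find_min' hex rfl
  have hpmin : ∀ i, i < p → y i ≠ y (k-1) := fun i hi => Nat.find_min hex hi
  have hpq : p < k := by omega
  -- strict constraints
  have F2 : ∀ j, p < j → j ≤ k → P y j + E y j < 1 := by
    intro j hpj hjk
    rcases Nat.lt_or_ge j k with hlt | hge
    · by_contra hcon
      have htight : P y j + E y j = 1 :=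
        le_antisymm (hy.2.2.2 j (by omega) (by omega)) (not_lt.mp hcon)
      have e1 : y (k-1) ≤ y j := anti hy (by omega) (by omega)
      have e2 : y (j-1) ≤ y p := anti hy (by omega) (by omega)
      rcases Nat.lt_or_ge j 2 with h2 | h2
      · have hj1 : j = 1 := by omega
        subst hj1
        have hp0 : p = 0 := by omega
        rw [P_one, E_one, add_zero] at htight
        rw [hp0] at hpy
        have hy1 : y 1 = 1 := by
          have a1 : y (k-1) ≤ y 1 := anti hy (by omega) (by omega)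
          have a2 := y_le_one hy 1
          linarith
        have hE2 : E y 2 = 1 := by
          rw [E_succ, E_one, S_one, htight, hy1]; ring
        have hE3 : E y 3 ≤ 1 := E_le_one hy hn
        rw [E_succ, hE2] at hE3
        have a3 : 0 < y 2 := y_pos hy (by omega)
        have a4 : 0 < S y 2 := by
          rw [S_succ, S_one, htight, hy1]; norm_num
        have := mul_pos a3 a4
        linarith
      · have := lemA hy h2 (by omega) htight
        linarith
    · have : j = k := by omega
      rw [this]; exact hks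
  have F3 : 0 < p → y p < y (p-1) := by
    intro h0
    have h1 : y p ≤ y (p-1) := anti hy (by omega) (by omega)
    have h2 := hpmin (p-1) (by omega)
    exact lt_of_le_of_ne h1 (by rw [hpy]; exact fun h => h2 h.symm)
  have F4 : k + 1 < n → y (k+1) < y k := by
    intro h
    have := lemA hy (show 2 ≤ k+1 by omega) h (hmax (k+1) (by omega) h)
    simpa using this
  have hyp1 : y p < 1 := by
    rcases Nat.eq_zero_or_pos p with h0 | h0
    · have := F2 1 (by omega) (by omega)
      rw [P_one, E_one, add_zero] at this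
      rw [h0]; exact this
    · exact lt_of_lt_of_le (F3 h0) (y_le_one hy _)
  have hapos : 0 < y p := y_pos hy (by omega)
  have hbpos : 0 < y k := y_pos hy hkn
  have hab : y k ≤ y p := anti hy (by omega) hkn
  set R := S y n - y p - y k with hR
  have hRpos : 0 < R := by
    -- another index r
    obtain ⟨r, hrn, hrp, hrk⟩ : ∃ r, r < n ∧ r ≠ p ∧ r ≠ k := by
      by_cases h0 : p = 0
      · by_cases h1 : k = 1
        · exact ⟨2, by omega, by omega, by omega⟩
        · exact ⟨1, by omega, by omega, by omega⟩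
      · exact ⟨0, by omega, by omega, by omega⟩
    have hsub : ({p, k, r} : Finset ℕ) ⊆ range n := by
      intro i hi
      simp only [mem_insert, mem_singleton] at hi
      rw [mem_range]
      rcases hi with h | h | h <;> omega
    have hle : ∑ i ∈ ({p, k, r} : Finset ℕ), y i ≤ S y n :=
      sum_le_sum_of_subset_of_nonneg hsub (fun i _ _ => y_nonneg hy i)
    rw [sum_insert (by simp; constructor <;> omega), sum_insert (by simp; omega), sum_singleton] at hle
    have := y_pos hy hrn
    rw [hR]; linarith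
  -- the path
  let b' : ℝ → ℝ := fun ε => (y p+R)*(y k+R)/(y p+ε+R) - R
  let Z : ℝ → (ℕ → ℝ) := fun ε => Y y p k (y p + ε) (b' ε)
  have hb'c : ContinuousAt b' 0 := by
    have : y p + 0 + R ≠ 0 := by linarith [hapos, hRpos]
    have h1 : ContinuousAt (fun ε : ℝ => y p + ε + R) 0 := by fun_prop
    exact (continuousAt_const.div h1 this).sub continuousAt_const
  have hb'0 : b' 0 = y k := by
    have : y p + R ≠ 0 := by linarith [hapos, hRpos]
    simp only [b', add_zero]
    field_simp
    ring
  have hZ0 : Z 0 = y := by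
    funext i
    simp only [Z, Y, hb'0, add_zero]
    rw [Function.update_eq_self, Function.update_eq_self]
  have hZc : ContinuousAt Z 0 := by
    rw [continuousAt_pi]
    intro i
    by_cases hik : i = k
    · have : (fun ε => Z ε i) = b' := by
        funext ε; simp only [Z, Y]; rw [hik, Function.update_self]
      rw [this]; exact hb'c
    · by_cases hip : i = p
      · have : (fun ε => Z ε i) = fun ε => y p + ε := by
          funext ε; simp only [Z, Y]; rw [Function.update_of_ne hik, hip, Function.update_self]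
        rw [this]; fun_prop
      · have : (fun ε => Z ε i) = fun _ => y i := by
          funext ε; simp only [Z, Y]; rw [Function.update_of_ne hik, Function.update_of_ne hip]
        rw [this]; exact continuousAt_const
  -- eventually conditions
  have e1 : ∀ᶠ ε in 𝓝 (0:ℝ), ∀ j ∈ Finset.range (n+1), (p < j → j ≤ k → P (Z ε) j + E (Z ε) j < 1) := by
    rw [Filter.eventually_all_finset]
    intro j _
    by_cases hj : p < j ∧ j ≤ k
    · have hc : ContinuousAt (fun ε => P (Z ε) j + E (Z ε) j) 0 := by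
        have hcc : Continuous (fun y : ℕ → ℝ => P y j + E y j) := (cont_P j).add (cont_E j)
        exact hcc.continuousAt.comp hZc
      have hv : (fun ε => P (Z ε) j + E (Z ε) j) 0 < 1 := by
        simp only [hZ0]; exact F2 j hj.1 hj.2
      filter_upwards [hc.eventually_lt continuousAt_const hv] with ε hε _ _
      exact hε
    · refine Filter.Eventually.of_forall (fun ε h1 h2 => absurd ⟨h1, h2⟩ hj)
  have e2 : ∀ᶠ ε in 𝓝 (0:ℝ), 0 < b' ε := by
    have : (0:ℝ) < b' 0 := by rw [hb'0]; exact hbpos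
    exact continuousAt_const.eventually_lt hb'c this
  have e3 : ∀ᶠ ε in 𝓝 (0:ℝ), y p + ε < 1 := by
    have hc : ContinuousAt (fun ε : ℝ => y p + ε) 0 := by fun_prop
    exact hc.eventually_lt continuousAt_const (by simpa using hyp1)
  have e4 : ∀ᶠ ε in 𝓝 (0:ℝ), (0 < p → y p + ε < y (p-1)) := by
    by_cases h0 : 0 < p
    · have hc : ContinuousAt (fun ε : ℝ => y p + ε) 0 := by fun_prop
      filter_upwards [hc.eventually_lt continuousAt_const (show (fun ε : ℝ => y p + ε) 0 < y (p-1) by
        simpa using F3 h0)] with ε hε _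
      exact hε
    · exact Filter.Eventually.of_forall (fun ε h => absurd h h0)
  have e5 : ∀ᶠ ε in 𝓝 (0:ℝ), (k+1 < n → y (k+1) < b' ε) := by
    by_cases h0 : k+1 < n
    · filter_upwards [continuousAt_const.eventually_lt hb'c (show y (k+1) < b' 0 by
        rw [hb'0]; exact F4 h0)] with ε hε _
      exact hε
    · exact Filter.Eventually.of_forall (fun ε h => absurd h h0)
  have eall : ∀ᶠ ε in 𝓝[>] (0:ℝ), (0 < ε ∧ (∀ j ∈ Finset.range (n+1), (p < j → j ≤ k → P (Z ε) j + E (Z ε) j < 1))
      ∧ 0 < b' ε ∧ y p + ε < 1 ∧ (0 < p → y p + ε < y (p-1)) ∧ (k+1 < n → y (k+1) < b' ε)) := by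
    filter_upwards [self_mem_nhdsWithin, nhdsWithin_le_nhds e1, nhdsWithin_le_nhds e2,
      nhdsWithin_le_nhds e3, nhdsWithin_le_nhds e4, nhdsWithin_le_nhds e5] with ε h0 h1 h2 h3 h4 h5
    exact ⟨h0, h1, h2, h3, h4, h5⟩
  obtain ⟨ε, hε, g1, g2, g3, g4, g5⟩ := eall.exists
  obtain ⟨c1, c2, c3, c4⟩ := alg hbpos hab hRpos hε
  change b' ε ≤ y k at c1
  change 0 ≤ (y p + ε) + b' ε - y p - y k at c2
  change (y p + ε) * b' ε < y p * y k at c3
  change (y p + ε) * b' ε - y p * y k = -R * ((y p + ε) + b' ε - y p - y k) at c4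
  have Zk : Z ε k = b' ε := by simp only [Z, Y]; rw [Function.update_self]
  have Zp : Z ε p = y p + ε := by
    simp only [Z, Y]; rw [Function.update_of_ne (by omega), Function.update_self]
  have Zo : ∀ i, i ≠ k → i ≠ p → Z ε i = y i := by
    intro i h1 h2
    simp only [Z, Y]; rw [Function.update_of_ne h1, Function.update_of_ne h2]
  have hPle : ∀ j, k < j → P (Z ε) j ≤ P y j ∧ (0 < P y j → P (Z ε) j < P y j) := by
    intro j hj
    have h := Y_high_P y (y p + ε) (b' ε) hpq hj
    change P (Z ε) j * (y p * y k) = P y j * ((y p + ε) * b' ε) at h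
    have hab0 : 0 < y p * y k := mul_pos hapos hbpos
    constructor
    · have : P (Z ε) j * (y p * y k) ≤ P y j * (y p * y k) := by
        rw [h]; exact mul_le_mul_of_nonneg_left c3.le (P_nonneg hy j)
      exact le_of_mul_le_mul_right this hab0
    · intro hpos
      have : P (Z ε) j * (y p * y k) < P y j * (y p * y k) := by
        rw [h]; exact mul_lt_mul_of_pos_left c3 hpos
      exact lt_of_mul_lt_mul_right this hab0.le
  have hEf : ∀ j, k < j → E (Z ε) j = E y j + (S y j - S y n) * ((y p + ε) + b' ε - y p - y k) := by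
    intro j hj
    have h := Y_high_E y (y p + ε) (b' ε) hpq hj
    change E (Z ε) j = _ at h
    rw [h, c4, hR]
    ring
  refine ⟨Z ε, ⟨?_, ?_, ?_, ?_⟩, ?_⟩
  · intro i
    by_cases hik : i = k
    · rw [hik, Zk]
      exact ⟨g2.le, c1.trans (y_le_one hy k)⟩
    · by_cases hip : i = p
      · rw [hip, Zp]
        exact ⟨by linarith, g3.le⟩
      · rw [Zo i hik hip]
        exact hy.1 i
  · intro i hi
    by_cases h1 : i + 1 = k
    · rw [h1, Zk]
      by_cases h2 : i = p
      · rw [h2, Zp]; linarith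
      · rw [Zo i (by omega) h2]
        have := hy.2.1 i hi
        rw [h1] at this
        linarith
    · by_cases h2 : i = k
      · rw [h2, Zk, Zo (k+1) (by omega) (by omega)]
        exact (g5 (by omega)).le
      · by_cases h3 : i + 1 = p
        · rw [h3, Zp, Zo i h2 (by omega)]
          have := g4 (by omega)
          rw [show p - 1 = i by omega] at this
          exact this.le
        · rw [Zo (i+1) h1 h3]
          by_cases h4 : i = p
          · rw [h4, Zp]
            have := hy.2.1 i hi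
            rw [h4] at this
            linarith
          · rw [Zo i h2 h4]
            exact hy.2.1 i hi
  · rw [hEf n hkn, sub_self, zero_mul, add_zero]
    exact hy.2.2.1
  · intro j hj1 hjn
    rcases Nat.lt_or_ge k j with h | h
    · have a1 := (hPle j h).1
      have a2 := hEf j h
      have a3 : S y j - S y n ≤ 0 := by linarith [S_mono hy hjn.le]
      have a4 := hy.2.2.2 j hj1 hjn
      have a5 := mul_nonpos_of_nonpos_of_nonneg a3 c2
      linarith
    · rcases Nat.lt_or_ge p j with h' | h'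
      · exact (g1 j (by rw [mem_range]; omega) h' h).le
      · have := Y_low y (y p + ε) (b' ε) h' hpq
        change P (Z ε) j = P y j ∧ E (Z ε) j = E y j at this
        rw [this.1, this.2]
        exact hy.2.2.2 j hj1 hjn
  · refine (hPle n hkn).2 ?_
    unfold P
    exact prod_pos (fun i hi => y_pos hy (mem_range.mp hi))

end

end Pool.Agent.V11105.EP
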