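import Mathlib

/-! The Heisenberg group, its integer lattice, the Heisenberg nilmanifold and its nilflows. -/

set_option autoImplicit false
open MeasureTheory Filter Topology

namespace Pool.Agent.V11105.HeisBase

/-- The real Heisenberg group: the triple `(x, y, z)` stands for the upper triangular unipotent
matrix with rows `(1, x, z)`, `(0, 1, y)`, `(0, 0, 1)`. -/
def Heis : Type := ℝ × ℝ × ℝ

/-- The element with coordinates `x`, `y`, `z`. -/
def el (x y z : ℝ) : Heis := (x, y, z)

instance : TopologicalSpace Heis := inferInstanceAs (TopologicalSpace (ℝ × ℝ × ℝ))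
instance : T2Space Heis := inferInstanceAs (T2Space (ℝ × ℝ × ℝ))
instance : LocallyCompactSpace Heis := inferInstanceAs (LocallyCompactSpace (ℝ × ℝ × ℝ))
instance : SecondCountableTopology Heis := inferInstanceAs (SecondCountableTopology (ℝ × ℝ × ℝ))
instance : MeasurableSpace Heis := inferInstanceAs (MeasurableSpace (ℝ × ℝ × ℝ))
instance : BorelSpace Heis := inferInstanceAs (BorelSpace (ℝ × ℝ × ℝ))

/-- Multiplication of matrices. -/
instance : Mul Heis := ⟨fun g h => el (g.1 + h.1) (g.2.1 + h.2.1) (g.2.2 + h.2.2 + g.1 * h.2.1)⟩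
instance : One Heis := ⟨el 0 0 0⟩
instance : Inv Heis := ⟨fun g => el (-g.1) (-g.2.1) (-g.2.2 + g.1 * g.2.1)⟩

lemma mul_el (x y z x' y' z' : ℝ) :
    el x y z * el x' y' z' = el (x + x') (y + y') (z + z' + x * y') := rfl
lemma one_el : (1 : Heis) = el 0 0 0 := rfl
lemma inv_el (x y z : ℝ) : (el x y z)⁻¹ = el (-x) (-y) (-z + x * y) := rfl
lemma el_inj {x y z x' y' z' : ℝ} : el x y z = el x' y' z' ↔ x = x' ∧ y = y' ∧ z = z' := by
  constructor
  · intro h
    exact ⟨congrArg (fun g : Heis => g.1) h, congrArg (fun g : Heis => g.2.1) h,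
      congrArg (fun g : Heis => g.2.2) h⟩
  · rintro ⟨rfl, rfl, rfl⟩
    rfl

/-- The group law of the Heisenberg group. -/
instance : Group Heis :=
  Group.ofLeftAxioms
    (by
      rintro ⟨a, b, c⟩ ⟨a', b', c'⟩ ⟨a'', b'', c''⟩
      show el a b c * el a' b' c' * el a'' b'' c'' = el a b c * (el a' b' c' * el a'' b'' c'')
      simp only [mul_el, el_inj]
      exact ⟨by ring, by ring, by ring⟩)
    (by
      rintro ⟨a, b, c⟩
      show el 0 0 0 * el a b c = el a b c
      simp only [mul_el, el_inj]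
      exact ⟨by ring, by ring, by ring⟩)
    (by
      rintro ⟨a, b, c⟩
      show (el a b c)⁻¹ * el a b c = el 0 0 0
      simp only [inv_el, mul_el, el_inj]
      exact ⟨by ring, by ring, by ring⟩)

lemma continuous_el {X : Type*} [TopologicalSpace X] {f g h : X → ℝ} (hf : Continuous f)
    (hg : Continuous g) (hh : Continuous h) : Continuous fun p => el (f p) (g p) (h p) :=
  hf.prodMk (hg.prodMk hh)

lemma continuous_c1 : Continuous fun g : Heis => g.1 := continuous_fst
lemma continuous_c2 : Continuous fun g : Heis => g.2.1 := continuous_fst.comp continuous_snd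
lemma continuous_c3 : Continuous fun g : Heis => g.2.2 := continuous_snd.comp continuous_snd

instance : IsTopologicalGroup Heis where
  continuous_mul := by
    have a1 := continuous_c1.comp (continuous_fst : Continuous fun p : Heis × Heis => p.1)
    have a2 := continuous_c2.comp (continuous_fst : Continuous fun p : Heis × Heis => p.1)
    have a3 := continuous_c3.comp (continuous_fst : Continuous fun p : Heis × Heis => p.1)
    have b1 := continuous_c1.comp (continuous_snd : Continuous fun p : Heis × Heis => p.2)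
    have b2 := continuous_c2.comp (continuous_snd : Continuous fun p : Heis × Heis => p.2)
    have b3 := continuous_c3.comp (continuous_snd : Continuous fun p : Heis × Heis => p.2)
    exact continuous_el (a1.add b1) (a2.add b2) ((a3.add b3).add (a1.mul b2))
  continuous_inv := by
    exact continuous_el continuous_c1.neg continuous_c2.neg
      (continuous_c3.neg.add (continuous_c1.mul continuous_c2))

/-- The integer lattice of the Heisenberg group. -/
def Gam : Subgroup Heis where
  carrier := {g | ∃ a b c : ℤ, g = el a b c}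
  mul_mem' := by
    rintro _ _ ⟨a, b, c, rfl⟩ ⟨a', b', c', rfl⟩
    refine ⟨a + a', b + b', c + c' + a * b', ?_⟩
    rw [mul_el, el_inj]
    push_cast
    exact ⟨rfl, rfl, rfl⟩
  one_mem' := ⟨0, 0, 0, by rw [one_el, el_inj]; simp⟩
  inv_mem' := by
    rintro _ ⟨a, b, c, rfl⟩
    refine ⟨-a, -b, -c + a * b, ?_⟩
    rw [inv_el, el_inj]
    push_cast
    exact ⟨rfl, rfl, rfl⟩

lemma mem_Gam (a b c : ℤ) : el a b c ∈ Gam := ⟨a, b, c, rfl⟩

/-- The Heisenberg nilmanifold `Γ \ G`: the orbits of `Γ` acting on `G` by left multiplication. -/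
abbrev M : Type := Quotient (MulAction.orbitRel Gam Heis)

/-- The projection `G → Γ \ G`. -/
def mk (g : Heis) : M := Quotient.mk (MulAction.orbitRel Gam Heis) g

instance : MeasurableSpace M := borel M
instance : BorelSpace M := ⟨rfl⟩

lemma mk_eq_iff (g h : Heis) : mk g = mk h ↔ ∃ a b c : ℤ, g = el a b c * h := by
  unfold mk
  rw [Quotient.eq, MulAction.orbitRel_apply, MulAction.mem_orbit_iff]
  constructor
  · rintro ⟨⟨γ, a, b, c, hγ⟩, h1⟩
    refine ⟨a, b, c, ?_⟩
    rw [← h1, ← hγ]
    rfl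
  · rintro ⟨a, b, c, h1⟩
    exact ⟨⟨el a b c, mem_Gam a b c⟩, h1.symm⟩

lemma mk_gam_mul (a b c : ℤ) (g : Heis) : mk (el a b c * g) = mk g :=
  (mk_eq_iff _ _).2 ⟨a, b, c, rfl⟩

instance : ContinuousConstSMul Gam Heis := ⟨fun γ => by
  show Continuous fun g : Heis => (γ : Heis) * g
  exact continuous_const.mul continuous_id⟩

lemma isOpenQuotientMap_mk : IsOpenQuotientMap mk :=
  MulAction.isOpenQuotientMap_quotientMk (Γ := Gam) (T := Heis)

lemma continuous_mk : Continuous mk := isOpenQuotientMap_mk.continuous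
lemma surjective_mk : Function.Surjective mk := isOpenQuotientMap_mk.surjective

lemma tendsto_cofinite : Tendsto (Gam.subtype) cofinite (cocompact Heis) := by
  rw [tendsto_cofinite_cocompact_iff]
  intro K hK
  obtain ⟨R1, hR1⟩ := (hK.image continuous_c1).isBounded.exists_norm_le
  obtain ⟨R2, hR2⟩ := (hK.image continuous_c2).isBounded.exists_norm_le
  obtain ⟨R3, hR3⟩ := (hK.image continuous_c3).isBounded.exists_norm_le
  have hfin : ((Set.Icc (-⌈R1⌉) ⌈R1⌉ ×ˢ Set.Icc (-⌈R2⌉) ⌈R2⌉ ×ˢ Set.Icc (-⌈R3⌉) ⌈R3⌉ :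
      Set (ℤ × ℤ × ℤ))).Finite :=
    (Set.finite_Icc _ _).prod ((Set.finite_Icc _ _).prod (Set.finite_Icc _ _))
  refine (hfin.image fun t : ℤ × ℤ × ℤ =>
    (⟨el t.1 t.2.1 t.2.2, mem_Gam t.1 t.2.1 t.2.2⟩ : Gam)).subset ?_
  have key : ∀ (R : ℝ) (n : ℤ), ‖(n : ℝ)‖ ≤ R → n ∈ Set.Icc (-⌈R⌉) ⌈R⌉ := by
    intro R n h
    rw [Real.norm_eq_abs, abs_le] at h
    constructor
    · have h1 : (-⌈R⌉ : ℝ) ≤ n := by linarith [Int.le_ceil R, h.1]
      exact_mod_cast h1
    · have h1 : (n : ℝ) ≤ ⌈R⌉ := by linarith [Int.le_ceil R, h.2]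
      exact_mod_cast h1
  rintro ⟨γ, a, b, c, hγ⟩ hmem
  subst hγ
  refine ⟨(a, b, c), ⟨?_, ?_, ?_⟩, rfl⟩
  · exact key R1 a (hR1 _ ⟨_, hmem, rfl⟩)
  · exact key R2 b (hR2 _ ⟨_, hmem, rfl⟩)
  · exact key R3 c (hR3 _ ⟨_, hmem, rfl⟩)

instance : ProperlyDiscontinuousSMul Gam Heis :=
  Gam.properlyDiscontinuousSMul_of_tendsto_cofinite tendsto_cofinite

instance : T2Space M := t2Space_of_properlyDiscontinuousSMul_of_t2Space
instance : SecondCountableTopology M := ContinuousConstSMul.secondCountableTopology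

lemma exists_rep (p : M) : ∃ x ∈ Set.Ico (0 : ℝ) 1, ∃ y ∈ Set.Ico (0 : ℝ) 1,
    ∃ z ∈ Set.Ico (0 : ℝ) 1, p = mk (el x y z) := by
  obtain ⟨⟨x, y, z⟩, rfl⟩ := surjective_mk p
  set z' : ℝ := z + (-⌊x⌋ : ℤ) * y with hz'
  refine ⟨Int.fract x, ⟨Int.fract_nonneg x, Int.fract_lt_one x⟩, Int.fract y,
    ⟨Int.fract_nonneg y, Int.fract_lt_one y⟩, Int.fract z', ⟨Int.fract_nonneg z',
    Int.fract_lt_one z'⟩, ?_⟩
  symm
  show mk (el (Int.fract x) (Int.fract y) (Int.fract z')) = mk (el x y z)
  rw [mk_eq_iff]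
  refine ⟨-⌊x⌋, -⌊y⌋, -⌊z'⌋, ?_⟩
  rw [mul_el, el_inj]
  unfold Int.fract
  push_cast
  refine ⟨by ring, by ring, ?_⟩
  rw [hz']
  push_cast
  ring

instance : CompactSpace M := by
  have h : IsCompact ((fun t : ℝ × ℝ × ℝ => mk (el t.1 t.2.1 t.2.2)) ''
      (Set.Icc (0 : ℝ) 1 ×ˢ Set.Icc (0 : ℝ) 1 ×ˢ Set.Icc (0 : ℝ) 1)) := by
    refine (isCompact_Icc.prod (isCompact_Icc.prod isCompact_Icc)).image ?_
    exact continuous_mk.comp (continuous_el continuous_fst (continuous_fst.comp continuous_snd)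
      (continuous_snd.comp continuous_snd))
  refine ⟨h.of_isClosed_subset isClosed_univ ?_⟩
  intro p _
  obtain ⟨x, hx, y, hy, z, hz, rfl⟩ := exists_rep p
  exact ⟨(x, y, z), ⟨Set.Ico_subset_Icc_self hx, Set.Ico_subset_Icc_self hy,
    Set.Ico_subset_Icc_self hz⟩, rfl⟩

instance : TopologicalSpace.MetrizableSpace M := TopologicalSpace.metrizableSpace_of_t3_secondCountable M

/-- Right multiplication by `h` on `Γ \ G`. -/
def rmul (h : Heis) : M → M :=
  Quotient.map (fun g : Heis => g * h) (by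
    intro g g' hg
    rw [← Quotient.eq_iff_equiv] at hg ⊢
    obtain ⟨a, b, c, habc⟩ := (mk_eq_iff g g').1 hg
    exact (mk_eq_iff _ _).2 ⟨a, b, c, by rw [habc, mul_assoc]⟩)

lemma rmul_mk (h g : Heis) : rmul h (mk g) = mk (g * h) := rfl

lemma rmul_rmul (h h' : Heis) (p : M) : rmul h (rmul h' p) = rmul (h' * h) p := by
  obtain ⟨g, rfl⟩ := surjective_mk p
  rw [rmul_mk, rmul_mk, rmul_mk, mul_assoc]

lemma rmul_one (p : M) : rmul 1 p = p := by
  obtain ⟨g, rfl⟩ := surjective_mk p
  rw [rmul_mk, mul_one]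

lemma continuous_rmul_uncurry : Continuous fun t : M × Heis => rmul t.2 t.1 := by
  have hq : IsOpenQuotientMap (Prod.map mk (id : Heis → Heis)) :=
    isOpenQuotientMap_mk.prodMap IsOpenQuotientMap.id
  rw [hq.isQuotientMap.continuous_iff]
  have : (fun t : M × Heis => rmul t.2 t.1) ∘ Prod.map mk (id : Heis → Heis)
      = fun t : Heis × Heis => mk (t.1 * t.2) := by
    ext ⟨g, h⟩
    rfl
  rw [this]
  exact continuous_mk.comp continuous_mul

lemma continuous_rmul (h : Heis) : Continuous (rmul h) :=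
  continuous_rmul_uncurry.comp (continuous_id.prodMk continuous_const)

/-- The one-parameter subgroup `t ↦ exp (t X)`, where `X` is the element of the Lie algebra with
coordinates `(a, b, c)`: the strictly upper triangular matrix with rows `(0, a, c)`, `(0, 0, b)`,
`(0, 0, 0)`. -/
noncomputable def expo (a b c t : ℝ) : Heis := el (t * a) (t * b) (t * c + t ^ 2 * (a * b) / 2)

/-- The nilflow `φ_t (Γ g) = Γ g exp (t X)`, `X = (a, b, c)`. -/
noncomputable def nilflow (a b c t : ℝ) : M → M := rmul (expo a b c t)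

lemma expo_mul (a b c s t : ℝ) : expo a b c s * expo a b c t = expo a b c (s + t) := by
  unfold expo
  rw [mul_el, el_inj]
  exact ⟨by ring, by ring, by ring⟩

lemma nilflow_add (a b c s t : ℝ) (p : M) :
    nilflow a b c s (nilflow a b c t p) = nilflow a b c (t + s) p := by
  unfold nilflow
  rw [rmul_rmul, expo_mul]

lemma nilflow_zero (a b c : ℝ) (p : M) : nilflow a b c 0 p = p := by
  unfold nilflow
  have : expo a b c 0 = 1 := by
    unfold expo
    rw [one_el, el_inj]
    simp
  rw [this, rmul_one]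

lemma continuous_expo (a b c : ℝ) : Continuous (expo a b c) := by
  unfold expo
  exact continuous_el (by fun_prop) (by fun_prop) (by fun_prop)

lemma continuous_nilflow_uncurry (a b c : ℝ) :
    Continuous fun t : M × ℝ => nilflow a b c t.2 t.1 :=
  continuous_rmul_uncurry.comp (continuous_fst.prodMk ((continuous_expo a b c).comp continuous_snd))

lemma continuous_nilflow (a b c t : ℝ) : Continuous (nilflow a b c t) := continuous_rmul _

/-- The Haar probability measure on `Γ \ G`: the image of Lebesgue measure on the unit cube `(0,1]³`, a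
fundamental domain of `Γ`. -/
noncomputable def haarM : Measure M :=
  Measure.map (fun t : ℝ × ℝ × ℝ => mk (el t.1 t.2.1 t.2.2))
    (volume.restrict (Set.Ioc (0 : ℝ) 1 ×ˢ Set.Ioc (0 : ℝ) 1 ×ˢ Set.Ioc (0 : ℝ) 1))

lemma continuous_par : Continuous fun t : ℝ × ℝ × ℝ => mk (el t.1 t.2.1 t.2.2) :=
  continuous_mk.comp (continuous_el continuous_fst (continuous_fst.comp continuous_snd)
      (continuous_snd.comp continuous_snd))

instance : IsProbabilityMeasure haarM := by
  constructor
  unfold haarM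
  rw [Measure.map_apply continuous_par.measurable MeasurableSet.univ, Set.preimage_univ,
    Measure.restrict_apply MeasurableSet.univ, Set.univ_inter, Measure.volume_eq_prod,
    Measure.prod_prod, Measure.volume_eq_prod, Measure.prod_prod, Real.volume_Ioc]
  simp

end Pool.Agent.V11105.HeisBase
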