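import Mathlib
import Pool.Agent.V11105.HeisBase

/-! Integration on the Heisenberg nilmanifold and invariance of the Haar measure. -/

set_option autoImplicit false
open MeasureTheory Filter Topology

namespace Pool.Agent.V11105.HeisInt

open HeisBase

lemma integral_haarM {E : Type*} [NormedAddCommGroup E] [NormedSpace ℝ E] (F : M → E)
    (hF : Continuous F) :
    ∫ p, F p ∂haarM = ∫ x in (0 : ℝ)..1, ∫ y in (0 : ℝ)..1, ∫ z in (0 : ℝ)..1, F (mk (el x y z)) := by
  have hG : Continuous fun t : ℝ × ℝ × ℝ => F (mk (el t.1 t.2.1 t.2.2)) := hF.comp continuous_par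
  unfold haarM
  rw [integral_map continuous_par.measurable.aemeasurable
    (hF.aestronglyMeasurable)]
  have hint : IntegrableOn (fun t : ℝ × ℝ × ℝ => F (mk (el t.1 t.2.1 t.2.2)))
      (Set.Ioc (0 : ℝ) 1 ×ˢ Set.Ioc (0 : ℝ) 1 ×ˢ Set.Ioc (0 : ℝ) 1) volume := by
    have h1 : IntegrableOn (fun t : ℝ × ℝ × ℝ => F (mk (el t.1 t.2.1 t.2.2)))
      (Set.Icc (0 : ℝ) 1 ×ˢ Set.Icc (0 : ℝ) 1 ×ˢ Set.Icc (0 : ℝ) 1) volume :=
      hG.continuousOn.integrableOn_compact (isCompact_Icc.prod (isCompact_Icc.prod isCompact_Icc))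
    exact h1.mono_set (Set.prod_mono Set.Ioc_subset_Icc_self
      (Set.prod_mono Set.Ioc_subset_Icc_self Set.Ioc_subset_Icc_self))
  rw [Measure.volume_eq_prod, ← Measure.prod_restrict]
  rw [Measure.volume_eq_prod] at hint
  unfold IntegrableOn at hint
  rw [← Measure.prod_restrict] at hint
  rw [integral_prod _ hint, intervalIntegral.integral_of_le zero_le_one]
  refine integral_congr_ae (Eventually.of_forall fun x => ?_)
  show ∫ w, F (mk (el x w.1 w.2)) ∂((volume : Measure (ℝ × ℝ)).restrict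
    (Set.Ioc (0 : ℝ) 1 ×ˢ Set.Ioc (0 : ℝ) 1))
    = ∫ y in (0 : ℝ)..1, ∫ z in (0 : ℝ)..1, F (mk (el x y z))
  have hGx : Continuous fun w : ℝ × ℝ => F (mk (el x w.1 w.2)) :=
    hG.comp (continuous_const.prodMk continuous_id)
  have hint2 : IntegrableOn (fun w : ℝ × ℝ => F (mk (el x w.1 w.2)))
      (Set.Ioc (0 : ℝ) 1 ×ˢ Set.Ioc (0 : ℝ) 1) volume :=
    (hGx.continuousOn.integrableOn_compact (isCompact_Icc.prod isCompact_Icc)).mono_set
      (Set.prod_mono Set.Ioc_subset_Icc_self Set.Ioc_subset_Icc_self)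
  rw [Measure.volume_eq_prod, ← Measure.prod_restrict]
  rw [Measure.volume_eq_prod] at hint2
  unfold IntegrableOn at hint2
  rw [← Measure.prod_restrict] at hint2
  rw [integral_prod _ hint2, intervalIntegral.integral_of_le zero_le_one]
  refine integral_congr_ae (Eventually.of_forall fun y => ?_)
  show ∫ z in Set.Ioc (0 : ℝ) 1, F (mk (el x y z)) = ∫ z in (0 : ℝ)..1, F (mk (el x y z))
  rw [intervalIntegral.integral_of_le zero_le_one]

lemma mk_z_add_one (x y z : ℝ) : mk (el x y (z + 1)) = mk (el x y z) := by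
  rw [mk_eq_iff]
  refine ⟨0, 0, 1, ?_⟩
  rw [mul_el, el_inj]
  push_cast
  exact ⟨by ring, by ring, by ring⟩

lemma mk_y_add_one (x y z : ℝ) : mk (el x (y + 1) z) = mk (el x y z) := by
  rw [mk_eq_iff]
  refine ⟨0, 1, 0, ?_⟩
  rw [mul_el, el_inj]
  push_cast
  exact ⟨by ring, by ring, by ring⟩

lemma mk_x_add_one (x y z : ℝ) : mk (el (x + 1) y z) = mk (el x y (z - y)) := by
  rw [mk_eq_iff]
  refine ⟨1, 0, 0, ?_⟩
  rw [mul_el, el_inj]
  push_cast
  exact ⟨by ring, by ring, by ring⟩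

lemma periodic_shift {E : Type*} [NormedAddCommGroup E] [NormedSpace ℝ E] {f : ℝ → E}
    (hf : Function.Periodic f 1) (c : ℝ) : ∫ z in (0 : ℝ)..1, f (z + c) = ∫ z in (0 : ℝ)..1, f z := by
  rw [intervalIntegral.integral_comp_add_right, zero_add, add_comm 1 c]
  have := hf.intervalIntegral_add_eq c 0
  rw [this, zero_add]

lemma integral_rmul {E : Type*} [NormedAddCommGroup E] [NormedSpace ℝ E] (F : M → E)
    (hF : Continuous F) (h : Heis) : ∫ p, F (rmul h p) ∂haarM = ∫ p, F p ∂haarM := by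
  obtain ⟨a, b, c, rfl⟩ : ∃ a b c : ℝ, h = el a b c := ⟨h.1, h.2.1, h.2.2, rfl⟩
  rw [integral_haarM (fun p => F (rmul (el a b c) p)) (hF.comp (continuous_rmul _)),
    integral_haarM F hF]
  set A : ℝ → ℝ → E := fun x y => ∫ z in (0 : ℝ)..1, F (mk (el x y z)) with hA
  have hz : ∀ x y, Function.Periodic (fun z => F (mk (el x y z))) 1 := by
    intro x y z
    show F (mk (el x y (z + 1))) = F (mk (el x y z))
    rw [mk_z_add_one]
  have h1 : ∀ x y, ∫ z in (0 : ℝ)..1, F (rmul (el a b c) (mk (el x y z))) = A (x + a) (y + b) := by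
    intro x y
    have e : ∀ z, F (rmul (el a b c) (mk (el x y z))) = F (mk (el (x + a) (y + b) (z + (c + x * b)))) := by
      intro z
      rw [rmul_mk, mul_el, add_assoc]
    simp_rw [e]
    exact periodic_shift (hz (x + a) (y + b)) (c + x * b)
  have hAy : ∀ x, Function.Periodic (A x) 1 := by
    intro x y
    show ∫ z in (0 : ℝ)..1, F (mk (el x (y + 1) z)) = ∫ z in (0 : ℝ)..1, F (mk (el x y z))
    simp_rw [mk_y_add_one]
  have hAx : ∀ x y, A (x + 1) y = A x y := by
    intro x y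
    show ∫ z in (0 : ℝ)..1, F (mk (el (x + 1) y z)) = ∫ z in (0 : ℝ)..1, F (mk (el x y z))
    simp_rw [mk_x_add_one]
    exact periodic_shift (hz x y) (-y)
  simp_rw [h1]
  have h2 : ∀ x, ∫ y in (0 : ℝ)..1, A (x + a) (y + b) = ∫ y in (0 : ℝ)..1, A (x + a) y := fun x =>
    periodic_shift (hAy (x + a)) b
  simp_rw [h2]
  have hB : Function.Periodic (fun x => ∫ y in (0 : ℝ)..1, A x y) 1 := by
    intro x
    show ∫ y in (0 : ℝ)..1, A (x + 1) y = ∫ y in (0 : ℝ)..1, A x y
    simp_rw [hAx]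
  exact periodic_shift hB a

lemma map_rmul_haarM (h : Heis) : Measure.map (rmul h) haarM = haarM := by
  have hm := (continuous_rmul h).measurable
  have : IsProbabilityMeasure (Measure.map (rmul h) haarM) :=
    Measure.isProbabilityMeasure_map hm.aemeasurable
  refine ext_of_forall_integral_eq_of_IsFiniteMeasure fun f => ?_
  rw [integral_map hm.aemeasurable f.continuous.aestronglyMeasurable]
  exact integral_rmul f f.continuous h

/-- The Haar measure is invariant under every nilflow. -/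
lemma map_nilflow_haarM (a b c t : ℝ) : Measure.map (nilflow a b c t) haarM = haarM :=
  map_rmul_haarM _

end Pool.Agent.V11105.HeisInt
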