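import Mathlib
import Pool.Agent.V11105.HeisInt

/-! The torus factor of the Heisenberg nilmanifold. -/

set_option autoImplicit false
open MeasureTheory Filter Topology

namespace Pool.Agent.V11105.HeisTorus

open HeisBase

/-- The two-torus. -/
abbrev T2 : Type := UnitAddCircle × UnitAddCircle

lemma dense_line (θ : ℝ) (hθ : Irrational θ) :
    DenseRange (fun t : ℝ => (((t : UnitAddCircle), ((θ * t : ℝ) : UnitAddCircle)) : T2)) := by
  have hd : DenseRange (fun n : ℤ => n • (θ : UnitAddCircle)) :=
    (AddCircle.denseRange_zsmul_coe_iff (a := θ) (p := 1)).2 (by simpa using hθ)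
  rintro ⟨a, b⟩
  obtain ⟨u, rfl⟩ := QuotientAddGroup.mk_surjective a
  have hcont : Continuous (fun w : UnitAddCircle => (((u : UnitAddCircle),
      ((θ * u : ℝ) : UnitAddCircle) + w) : T2)) := by fun_prop
  have h1 : b - ((θ * u : ℝ) : UnitAddCircle) ∈ closure (Set.range (fun n : ℤ => n • (θ : UnitAddCircle))) :=
    hd _
  have h2 := map_mem_closure (t := Set.range (fun t : ℝ => (((t : UnitAddCircle),
    ((θ * t : ℝ) : UnitAddCircle)) : T2))) hcont h1 (by
      rintro _ ⟨n, rfl⟩
      refine ⟨u + n, ?_⟩
      show (((u + n : ℝ) : UnitAddCircle), ((θ * (u + n) : ℝ) : UnitAddCircle))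
        = ((u : UnitAddCircle), ((θ * u : ℝ) : UnitAddCircle) + n • (θ : UnitAddCircle))
      have e1 : ((u + n : ℝ) : UnitAddCircle) = (u : UnitAddCircle) := by
        rw [AddCircle.coe_add]
        have : ((n : ℝ) : UnitAddCircle) = 0 := by
          rw [AddCircle.coe_eq_zero_iff]
          exact ⟨n, by simp⟩
        rw [this, add_zero]
      have e2 : ((θ * (u + n) : ℝ) : UnitAddCircle)
          = ((θ * u : ℝ) : UnitAddCircle) + n • (θ : UnitAddCircle) := by
        rw [mul_add, AddCircle.coe_add, mul_comm θ (n : ℝ), ← zsmul_eq_mul, AddCircle.coe_zsmul]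
      rw [e1, e2])
  have e3 : (((u : UnitAddCircle), ((θ * u : ℝ) : UnitAddCircle) + (b - ((θ * u : ℝ) : UnitAddCircle))) : T2)
      = ((u : UnitAddCircle), b) := by
    rw [add_sub_cancel]
  rw [e3] at h2
  exact h2

lemma torus_unique (θ : ℝ) (hθ : Irrational θ) (ν : Measure T2) [IsProbabilityMeasure ν]
    (hν : ∀ t : ℝ, Measure.map (fun w : T2 => w + ((t : UnitAddCircle),
      ((θ * t : ℝ) : UnitAddCircle))) ν = ν) : ν = volume := by
  have hint : ∀ (f : BoundedContinuousFunction T2 ℝ) (s : T2), ∫ w, f (w + s) ∂ν = ∫ w, f w ∂ν := by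
    intro f s
    set g : T2 → ℝ := fun s => ∫ w, f (w + s) ∂ν with hg
    have hcont : Continuous g := by
      refine continuous_of_dominated (bound := fun _ => ‖f‖) ?_ ?_ ?_ ?_
      · intro s
        exact (f.continuous.comp (continuous_id.add continuous_const)).aestronglyMeasurable
      · intro s
        exact Eventually.of_forall fun x => f.norm_coe_le_norm _
      · exact integrable_const _
      · exact Eventually.of_forall fun x => f.continuous.comp (continuous_const.add continuous_id)
    have hg0 : g 0 = ∫ w, f w ∂ν := by simp [hg]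
    have hline : ∀ t : ℝ, g (((t : UnitAddCircle), ((θ * t : ℝ) : UnitAddCircle)) : T2) = g 0 := by
      intro t
      have h1 : ∫ w, f w ∂(Measure.map (fun w : T2 => w + ((t : UnitAddCircle),
          ((θ * t : ℝ) : UnitAddCircle))) ν) = ∫ w, f w ∂ν := by rw [hν t]
      rw [integral_map (by fun_prop) f.continuous.aestronglyMeasurable] at h1
      rw [hg0, ← h1]
    have hall : g = fun _ => g 0 := by
      refine (dense_line θ hθ).equalizer hcont continuous_const ?_
      ext t
      exact hline t
    rw [← hg0]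
    exact congrFun hall s
  have hinv : ∀ s : T2, Measure.map (fun w => s + w) ν = ν := by
    intro s
    have : IsFiniteMeasure (Measure.map (fun w => s + w) ν) := by infer_instance
    refine ext_of_forall_integral_eq_of_IsFiniteMeasure (fun f => ?_)
    rw [integral_map (by fun_prop) f.continuous.aestronglyMeasurable]
    rw [← hint f s]
    congr 1
    ext x
    rw [add_comm]
  have : ν.IsAddLeftInvariant := ⟨hinv⟩
  have : (volume : Measure T2).IsAddHaarMeasure := by
    rw [Measure.volume_eq_prod]
    infer_instance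
  have h := Measure.isAddLeftInvariant_eq_smul ν (volume : Measure T2)
  have hvol : (volume : Measure T2) Set.univ = 1 := by
    rw [Measure.volume_eq_prod, ← Set.univ_prod_univ, Measure.prod_prod, UnitAddCircle.measure_univ,
      one_mul]
  have h1 : (ν.addHaarScalarFactor volume : ENNReal) = 1 := by
    have h2 : ν Set.univ = 1 := measure_univ
    rw [h] at h2
    rw [Measure.smul_apply, hvol] at h2
    simpa using h2
  have h3 : ν.addHaarScalarFactor volume = 1 := by exact_mod_cast h1
  rw [h, h3, one_smul]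

/-- The projection of the nilmanifold onto the two-torus. -/
def proj : M → T2 :=
  Quotient.lift (fun g : Heis => (((g.1 : ℝ) : UnitAddCircle), ((g.2.1 : ℝ) : UnitAddCircle))) (by
    intro g g' hg
    rw [← Quotient.eq_iff_equiv] at hg
    obtain ⟨a, b, c, rfl⟩ := (mk_eq_iff g g').1 hg
    have e : ∀ (n : ℤ) (u : ℝ), ((n + u : ℝ) : UnitAddCircle) = (u : UnitAddCircle) := by
      intro n u
      rw [AddCircle.coe_add]
      have : ((n : ℝ) : UnitAddCircle) = 0 := by
        rw [AddCircle.coe_eq_zero_iff]
        exact ⟨n, by simp⟩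
      rw [this, zero_add]
    exact Prod.ext (e a _) (e b _))

lemma proj_mk (g : Heis) : proj (mk g) = (((g.1 : ℝ) : UnitAddCircle), ((g.2.1 : ℝ) : UnitAddCircle)) :=
  rfl

lemma continuous_proj : Continuous proj := by
  rw [isOpenQuotientMap_mk.isQuotientMap.continuous_iff]
  exact ((AddCircle.continuous_mk' 1).comp continuous_c1).prodMk
    ((AddCircle.continuous_mk' 1).comp continuous_c2)

lemma surjective_proj : Function.Surjective proj := by
  rintro ⟨a, b⟩
  obtain ⟨u, rfl⟩ := QuotientAddGroup.mk_surjective a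
  obtain ⟨v, rfl⟩ := QuotientAddGroup.mk_surjective b
  exact ⟨mk (el u v 0), rfl⟩

lemma proj_rmul (a b c : ℝ) (p : M) :
    proj (rmul (el a b c) p) = proj p + ((a : UnitAddCircle), (b : UnitAddCircle)) := by
  obtain ⟨g, rfl⟩ := surjective_mk p
  rfl

/-- The central rotation. -/
def cen (s : ℝ) : M → M := rmul (el 0 0 s)

lemma cen_mk (s x y z : ℝ) : cen s (mk (el x y z)) = mk (el x y (z + s)) := by
  unfold cen
  rw [rmul_mk, mul_el, add_zero, add_zero, mul_zero, add_zero]

lemma eq_cen_of_proj_eq {p q : M} (h : proj p = proj q) : ∃ s : ℝ, p = cen s q := by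
  obtain ⟨⟨x, y, z⟩, rfl⟩ := surjective_mk p
  obtain ⟨⟨x', y', z'⟩, rfl⟩ := surjective_mk q
  have h1 : ((x : ℝ) : UnitAddCircle) = (x' : ℝ) := congrArg Prod.fst h
  have h2 : ((y : ℝ) : UnitAddCircle) = (y' : ℝ) := congrArg Prod.snd h
  have key : ∀ u v : ℝ, (u : UnitAddCircle) = (v : UnitAddCircle) → ∃ n : ℤ, u = n + v := by
    intro u v huv
    have h3 : ((u - v : ℝ) : UnitAddCircle) = 0 := by rw [AddCircle.coe_sub, huv, sub_self]
    rw [AddCircle.coe_eq_zero_iff] at h3
    obtain ⟨n, hn⟩ := h3
    refine ⟨n, ?_⟩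
    rw [zsmul_eq_mul, mul_one] at hn
    linarith
  obtain ⟨a, ha⟩ := key _ _ h1
  obtain ⟨b, hb⟩ := key _ _ h2
  refine ⟨z - z' - a * y', ?_⟩
  show mk (el x y z) = cen _ (mk (el x' y' z'))
  rw [cen_mk, mk_eq_iff]
  refine ⟨a, b, 0, ?_⟩
  rw [mul_el, el_inj]
  push_cast
  exact ⟨ha, hb, by ring⟩

/-- A continuous function which is invariant under the central rotations comes from the torus. -/
lemma exists_descent {E : Type*} [TopologicalSpace E] (K : C(M, E))
    (hK : ∀ s p, K (cen s p) = K p) : ∃ H : C(T2, E), ∀ p, H (proj p) = K p := by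
  have hq : Topology.IsQuotientMap (⟨proj, continuous_proj⟩ : C(M, T2)) :=
    (continuous_proj.isClosedMap).isQuotientMap continuous_proj surjective_proj
  have hf : Function.FactorsThrough K (⟨proj, continuous_proj⟩ : C(M, T2)) := by
    intro p q hpq
    obtain ⟨s, rfl⟩ := eq_cen_of_proj_eq hpq
    exact hK s q
  refine ⟨hq.lift K hf, fun p => ?_⟩
  have := congrArg (fun F : C(M, E) => F p) (hq.lift_comp K hf)
  exact this

/-- An invariant probability measure of the nilflow projects to Haar measure on the torus. -/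
lemma integral_proj (θ : ℝ) (hθ : Irrational θ) (ν : Measure M) [IsProbabilityMeasure ν]
    (hν : ∀ t, Measure.map (nilflow 1 θ 0 t) ν = ν) {E : Type*} [NormedAddCommGroup E]
    [NormedSpace ℝ E] (H : T2 → E) (hH : Continuous H) :
    ∫ p, H (proj p) ∂ν = ∫ w, H w := by
  have hm := continuous_proj.measurable
  have : IsProbabilityMeasure (Measure.map proj ν) := Measure.isProbabilityMeasure_map hm.aemeasurable
  have h1 : Measure.map proj ν = volume := by
    refine torus_unique θ hθ _ fun t => ?_
    rw [Measure.map_map (by fun_prop) hm]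
    have h2 : (fun w : T2 => w + ((t : UnitAddCircle), ((θ * t : ℝ) : UnitAddCircle))) ∘ proj
        = proj ∘ nilflow 1 θ 0 t := by
      ext1 p
      show proj p + _ = proj (nilflow 1 θ 0 t p)
      unfold nilflow expo
      rw [proj_rmul, mul_one, mul_comm θ t]
    rw [h2, ← Measure.map_map hm (continuous_nilflow 1 θ 0 t).measurable, hν t]
  rw [← h1, integral_map hm.aemeasurable hH.aestronglyMeasurable]

end Pool.Agent.V11105.HeisTorus
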