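import Mathlib
import Pool.Agent.V11105.HeisTorus

/-! Unique ergodicity of the Heisenberg nilflows `exp t(1, θ, 0)` with irrational `θ`. -/

set_option autoImplicit false
open MeasureTheory Filter Topology

namespace Pool.Agent.V11105.HeisUE

open HeisBase HeisTorus

lemma continuous_cen_uncurry : Continuous fun t : ℝ × M => cen t.1 t.2 := by
  unfold cen
  exact continuous_rmul_uncurry.comp (continuous_snd.prodMk
    (continuous_el continuous_const continuous_const continuous_fst))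

lemma continuous_cen (s : ℝ) : Continuous (cen s) := continuous_rmul _

lemma cen_cen (s r : ℝ) (p : M) : cen s (cen r p) = cen (r + s) p := by
  unfold cen
  rw [rmul_rmul, mul_el]
  congr 2 <;> ring

lemma nilflow_cen (a b c t s : ℝ) (p : M) : nilflow a b c t (cen s p) = cen s (nilflow a b c t p) := by
  unfold nilflow cen expo
  rw [rmul_rmul, rmul_rmul, mul_el, mul_el]
  congr 2 <;> ring

lemma nilflow_R (θ t r : ℝ) (p : M) :
    nilflow 1 θ 0 t (rmul (el 0 r 0) p) = cen (-(t * r)) (rmul (el 0 r 0) (nilflow 1 θ 0 t p)) := by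
  unfold nilflow cen expo
  rw [rmul_rmul, rmul_rmul, rmul_rmul, mul_el, mul_el, mul_el]
  congr 2 <;> ring

lemma cen_add_one (s : ℝ) (p : M) : cen (s + 1) p = cen s p := by
  obtain ⟨⟨x, y, z⟩, rfl⟩ := surjective_mk p
  show cen (s + 1) (mk (el x y z)) = cen s (mk (el x y z))
  rw [cen_mk, cen_mk, ← add_assoc, HeisInt.mk_z_add_one]

/-- `F` has central character `k`. -/
def HasChar (k : ℤ) (F : M → ℂ) : Prop :=
  ∀ (s : ℝ) (p : M), F (cen s p) = fourier k (s : UnitAddCircle) * F p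

lemma fourier_mul_conj (k : ℤ) (x : UnitAddCircle) :
    fourier k x * (starRingEnd ℂ) (fourier k x) = 1 := by
  rw [Complex.mul_conj, Complex.normSq_eq_norm_sq]
  have : ‖fourier k x‖ = 1 := by
    rw [fourier_apply]
    exact Circle.norm_coe _
  rw [this]
  simp

section corr

variable (θ : ℝ) (hθ : Irrational θ) (ν : Measure M) [IsProbabilityMeasure ν]
  (hν : ∀ t, Measure.map (nilflow 1 θ 0 t) ν = ν)

include hθ hν

lemma integral_comp_R (K : C(M, ℂ)) (hK : ∀ s p, K (cen s p) = K p) (r : ℝ) :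
    ∫ p, K (rmul (el 0 r 0) p) ∂ν = ∫ p, K p ∂ν := by
  obtain ⟨H, hH⟩ := exists_descent K hK
  have h1 : ∫ p, K p ∂ν = ∫ w, H w := by
    rw [← integral_proj θ hθ ν hν H H.continuous]
    simp_rw [hH]
  have h2 : ∫ p, K (rmul (el 0 r 0) p) ∂ν
      = ∫ w, H (w + (((0 : ℝ) : UnitAddCircle), ((r : ℝ) : UnitAddCircle))) := by
    rw [← integral_proj θ hθ ν hν
      (fun w => H (w + (((0 : ℝ) : UnitAddCircle), ((r : ℝ) : UnitAddCircle))))
      (H.continuous.comp (by fun_prop))]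
    refine integral_congr_ae (Eventually.of_forall fun p => ?_)
    show K (rmul (el 0 r 0) p) = H (proj p + _)
    rw [← hH, proj_rmul]
  have : (volume : Measure T2).IsAddHaarMeasure := by
    rw [Measure.volume_eq_prod]
    infer_instance
  rw [h1, h2, integral_add_right_eq_self]

lemma corr_le (k : ℤ) (hk : k ≠ 0) (F : C(M, ℂ)) (hF : HasChar k F) (t : ℝ) (ht : t ≠ 0) (δ : ℝ)
    (hδ : ∀ p, ‖F (rmul (el 0 (1 / (2 * k * t)) 0) p) - F p‖ ≤ δ) :
    ‖∫ p, F (nilflow 1 θ 0 t p) * (starRingEnd ℂ) (F p) ∂ν‖ ≤ ‖F‖ * δ := by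
  set r : ℝ := 1 / (2 * k * t) with hr
  have hk' : (k : ℝ) ≠ 0 := by exact_mod_cast hk
  set R : M → M := rmul (el 0 r 0) with hR
  have hRc : Continuous R := continuous_rmul _
  have hφ : Continuous (nilflow 1 θ 0 t) := continuous_nilflow 1 θ 0 t
  set K : C(M, ℂ) := ⟨fun p => F (nilflow 1 θ 0 t p) * (starRingEnd ℂ) (F p),
    (F.continuous.comp hφ).mul (Complex.continuous_conj.comp F.continuous)⟩ with hKdef
  have hKapp : ∀ p, K p = F (nilflow 1 θ 0 t p) * (starRingEnd ℂ) (F p) := fun p => rfl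
  have hKc : ∀ s p, K (cen s p) = K p := by
    intro s p
    rw [hKapp, hKapp, nilflow_cen, hF, hF, map_mul]
    have := fourier_mul_conj k (s : UnitAddCircle)
    linear_combination (F (nilflow 1 θ 0 t p) * (starRingEnd ℂ) (F p)) * this
  have h1 := integral_comp_R θ hθ ν hν K hKc r
  have h2 : ∀ p, K (R p) = -(F (R (nilflow 1 θ 0 t p)) * (starRingEnd ℂ) (F (R p))) := by
    intro p
    rw [hKapp, hR, nilflow_R, hF]
    have h3 : fourier k ((-(t * r) : ℝ) : UnitAddCircle) = -1 := by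
      rw [fourier_coe_apply]
      have h4 : 2 * (Real.pi : ℂ) * Complex.I * (k : ℂ) * ((-(t * r) : ℝ) : ℂ) / ((1 : ℝ) : ℂ)
          = -(Real.pi * Complex.I) := by
        have h5 : (k : ℝ) * (t * r) = 1 / 2 := by
          rw [hr]
          field_simp
        have h6 : (k : ℂ) * ((t : ℂ) * (r : ℂ)) = 1 / 2 := by
          have h7 := congrArg (fun u : ℝ => (u : ℂ)) h5
          simpa using h7
        push_cast
        linear_combination (-2 * (Real.pi : ℂ) * Complex.I) * h6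
      rw [h4, Complex.exp_neg, Complex.exp_pi_mul_I]
      norm_num
    rw [h3]
    ring
  have hnF : ∀ p, ‖F p‖ ≤ ‖F‖ := fun p => F.norm_coe_le_norm p
  have hcontA : Continuous fun p => F (R (nilflow 1 θ 0 t p)) * (starRingEnd ℂ) (F (R p)) :=
    (F.continuous.comp (hRc.comp hφ)).mul (Complex.continuous_conj.comp (F.continuous.comp hRc))
  have hiA : Integrable (fun p => F (R (nilflow 1 θ 0 t p)) * (starRingEnd ℂ) (F (R p))) ν :=
    hcontA.integrable_of_hasCompactSupport (HasCompactSupport.of_compactSpace _)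
  have hiK : Integrable K ν :=
    K.continuous.integrable_of_hasCompactSupport (HasCompactSupport.of_compactSpace _)
  have h3 : 2 * ∫ p, K p ∂ν = ∫ p, (K p - F (R (nilflow 1 θ 0 t p)) * (starRingEnd ℂ) (F (R p))) ∂ν := by
    rw [integral_sub hiK hiA]
    have h4 : ∫ p, K (R p) ∂ν = -∫ p, F (R (nilflow 1 θ 0 t p)) * (starRingEnd ℂ) (F (R p)) ∂ν := by
      simp_rw [h2]
      rw [integral_neg]
    rw [h1] at h4
    linear_combination h4
  have h4 : ‖∫ p, (K p - F (R (nilflow 1 θ 0 t p)) * (starRingEnd ℂ) (F (R p))) ∂ν‖ ≤ 2 * (‖F‖ * δ) := by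
    have h5 : ∀ p, ‖K p - F (R (nilflow 1 θ 0 t p)) * (starRingEnd ℂ) (F (R p))‖ ≤ 2 * (‖F‖ * δ) := by
      intro p
      rw [hKapp]
      have h6 : F (nilflow 1 θ 0 t p) * (starRingEnd ℂ) (F p)
          - F (R (nilflow 1 θ 0 t p)) * (starRingEnd ℂ) (F (R p))
          = -(F (nilflow 1 θ 0 t p) * (starRingEnd ℂ) (F (R p) - F p))
            - (F (R (nilflow 1 θ 0 t p)) - F (nilflow 1 θ 0 t p)) * (starRingEnd ℂ) (F (R p)) := by
        rw [map_sub]
        ring
      rw [h6]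
      refine (norm_sub_le _ _).trans ?_
      rw [norm_neg, norm_mul, norm_mul, RCLike.norm_conj, RCLike.norm_conj]
      have h7 := hδ p
      have h8 := hδ (nilflow 1 θ 0 t p)
      have h9 := hnF (nilflow 1 θ 0 t p)
      have h10 := hnF (R p)
      have hδ0 : 0 ≤ δ := (norm_nonneg _).trans h7
      have h11 := mul_le_mul h9 h7 (norm_nonneg _) (norm_nonneg F)
      have h12 := mul_le_mul h8 h10 (norm_nonneg _) hδ0
      linarith
    have h6 := norm_integral_le_of_norm_le_const (μ := ν) (Eventually.of_forall h5)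
    simpa using h6
  rw [← h3, norm_mul] at h4
  have h5 : ‖(2 : ℂ)‖ = 2 := by simp
  rw [h5] at h4
  have h6 : ‖∫ p, K p ∂ν‖ ≤ ‖F‖ * δ := by linarith
  exact h6

lemma corr_small (k : ℤ) (hk : k ≠ 0) (F : C(M, ℂ)) (hF : HasChar k F) (ε : ℝ) (hε : 0 < ε) :
    ∃ T : ℝ, 0 < T ∧ ∀ t, T ≤ t →
      ‖∫ p, F (nilflow 1 θ 0 t p) * (starRingEnd ℂ) (F p) ∂ν‖ ≤ ε := by
  have hk' : (k : ℝ) ≠ 0 := by exact_mod_cast hk
  set Wf : C(ℝ × M, ℂ) := ⟨fun t => F (rmul (el 0 t.1 0) t.2),
    F.continuous.comp (continuous_rmul_uncurry.comp (continuous_snd.prodMk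
      (continuous_el continuous_const continuous_fst continuous_const)))⟩ with hWf
  have hW : Continuous (fun r : ℝ => Wf.curry r) := Wf.curry.continuous
  have hW0 : Wf.curry 0 = F := by
    ext p
    show F (rmul (el 0 0 0) p) = F p
    have := rmul_one p
    rw [one_el] at this
    rw [this]
  have hlim : Tendsto (fun t : ℝ => 1 / (2 * (k : ℝ) * t)) atTop (𝓝 0) := by
    have h1 : Tendsto (fun t : ℝ => (1 / (2 * (k : ℝ))) * t⁻¹) atTop (𝓝 ((1 / (2 * (k : ℝ))) * 0)) :=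
      tendsto_inv_atTop_zero.const_mul _
    rw [mul_zero] at h1
    refine h1.congr fun t => ?_
    rw [one_div, one_div, mul_inv (2 * (k : ℝ)) t]
  have h2 : Tendsto (fun t : ℝ => ‖F‖ * ‖Wf.curry (1 / (2 * (k : ℝ) * t)) - F‖) atTop (𝓝 0) := by
    have h3 : Tendsto (fun t : ℝ => Wf.curry (1 / (2 * (k : ℝ) * t)) - F) atTop (𝓝 (F - F)) := by
      have h4 := (hW.tendsto 0).comp hlim
      rw [hW0] at h4
      exact h4.sub_const F
    rw [sub_self] at h3
    have h5 := (h3.norm).const_mul ‖F‖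
    rw [norm_zero, mul_zero] at h5
    exact h5
  have h3 := (h2.eventually (ge_mem_nhds hε)).and (eventually_gt_atTop 0)
  obtain ⟨T, hT⟩ := (h3.exists_forall_of_atTop)
  refine ⟨max T 1, lt_of_lt_of_le one_pos (le_max_right _ _), fun t ht => ?_⟩
  obtain ⟨h4, h5⟩ := hT t ((le_max_left _ _).trans ht)
  refine (corr_le θ hθ ν hν k hk F hF t h5.ne' (‖Wf.curry (1 / (2 * (k : ℝ) * t)) - F‖) ?_).trans h4
  intro p
  exact (Wf.curry (1 / (2 * (k : ℝ) * t)) - F).norm_coe_le_norm p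

lemma integral_char_eq_zero (k : ℤ) (hk : k ≠ 0) (F : C(M, ℂ)) (hF : HasChar k F) :
    ∫ p, F p ∂ν = 0 := by
  have hcomp : ∀ (t : ℝ) (G : C(M, ℂ)), ∫ p, G (nilflow 1 θ 0 t p) ∂ν = ∫ p, G p ∂ν := by
    intro t G
    conv_rhs => rw [← hν t]
    rw [integral_map (continuous_nilflow 1 θ 0 t).measurable.aemeasurable
      G.continuous.aestronglyMeasurable]
  have hint : ∀ G : M → ℂ, Continuous G → Integrable G ν := fun G hG =>
    hG.integrable_of_hasCompactSupport (HasCompactSupport.of_compactSpace _)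
  -- main estimate
  have key : ∀ (ε : ℝ), 0 < ε → ∀ m : ℕ, 1 ≤ m →
      (m : ℝ) ^ 2 * ‖∫ p, F p ∂ν‖ ^ 2 ≤ m * ‖F‖ ^ 2 + (m : ℝ) ^ 2 * ε := by
    intro ε hε m hm
    obtain ⟨T, hT0, hT⟩ := corr_small θ hθ ν hν k hk F hF ε hε
    set Fi : ℕ → C(M, ℂ) := fun i => ⟨fun p => F (nilflow 1 θ 0 (i * T) p),
      F.continuous.comp (continuous_nilflow 1 θ 0 (i * T))⟩ with hFi
    set S : C(M, ℂ) := ∑ i ∈ Finset.range m, Fi i with hS
    have hSapp : ∀ p, S p = ∑ i ∈ Finset.range m, Fi i p := by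
      intro p
      rw [hS]
      simp
    have hSint : ∫ p, S p ∂ν = m * ∫ p, F p ∂ν := by
      simp_rw [hSapp]
      rw [integral_finsetSum _ (fun i _ => hint _ (Fi i).continuous)]
      have : ∀ i ∈ Finset.range m, ∫ p, Fi i p ∂ν = ∫ p, F p ∂ν := fun i _ => hcomp (i * T) F
      rw [Finset.sum_congr rfl this]
      simp
    -- Jensen
    have hJ : ‖∫ p, S p ∂ν‖ ^ 2 ≤ ∫ p, ‖S p‖ ^ 2 ∂ν := by
      set c : ℝ := ∫ p, ‖S p‖ ∂ν with hc
      have h1 : ‖∫ p, S p ∂ν‖ ≤ c := norm_integral_le_integral_norm _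
      have hn : Integrable (fun p => ‖S p‖) ν := (hint _ S.continuous).norm
      have hn2 : Integrable (fun p => ‖S p‖ ^ 2) ν :=
        (S.continuous.norm.pow 2).integrable_of_hasCompactSupport (HasCompactSupport.of_compactSpace _)
      have h2 : 0 ≤ ∫ p, (‖S p‖ - c) ^ 2 ∂ν := integral_nonneg fun p => sq_nonneg _
      have h3 : ∫ p, (‖S p‖ - c) ^ 2 ∂ν = ∫ p, ‖S p‖ ^ 2 ∂ν - c ^ 2 := by
        have e : ∀ p, (‖S p‖ - c) ^ 2 = (‖S p‖ ^ 2 - (2 * c) * ‖S p‖) + c ^ 2 := fun p => by ring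
        simp_rw [e]
        have e2 : ∫ p, ((‖S p‖ ^ 2 - (2 * c) * ‖S p‖) + c ^ 2) ∂ν
            = ∫ p, (‖S p‖ ^ 2 - (2 * c) * ‖S p‖) ∂ν + ∫ _p, c ^ 2 ∂ν :=
          integral_add (hn2.sub (hn.const_mul _)) (integrable_const _)
        have e3 : ∫ p, (‖S p‖ ^ 2 - (2 * c) * ‖S p‖) ∂ν
            = ∫ p, ‖S p‖ ^ 2 ∂ν - ∫ p, (2 * c) * ‖S p‖ ∂ν :=
          integral_sub hn2 (hn.const_mul _)
        rw [e2, e3, integral_const_mul, ← hc]
        simp
        ring
      have h4 : ‖∫ p, S p ∂ν‖ ^ 2 ≤ c ^ 2 := pow_le_pow_left₀ (norm_nonneg _) h1 2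
      linarith
    -- expansion
    have hE : ∫ p, ‖S p‖ ^ 2 ∂ν ≤ m * ‖F‖ ^ 2 + (m : ℝ) ^ 2 * ε := by
      have hcx : (((∫ p, ‖S p‖ ^ 2 ∂ν : ℝ)) : ℂ)
          = ∑ i ∈ Finset.range m, ∑ j ∈ Finset.range m,
            ∫ p, Fi i p * (starRingEnd ℂ) (Fi j p) ∂ν := by
        rw [← integral_complex_ofReal]
        have e : ∀ p, ((‖S p‖ ^ 2 : ℝ) : ℂ)
            = ∑ i ∈ Finset.range m, ∑ j ∈ Finset.range m, Fi i p * (starRingEnd ℂ) (Fi j p) := by
          intro p
          rw [Complex.ofReal_pow, ← Complex.mul_conj', hSapp, map_sum, Finset.sum_mul_sum]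
        simp_rw [e]
        rw [integral_finsetSum]
        · refine Finset.sum_congr rfl fun i _ => ?_
          rw [integral_finsetSum]
          intro j _
          exact hint _ ((Fi i).continuous.mul (Complex.continuous_conj.comp (Fi j).continuous))
        · intro i _
          exact hint _ (continuous_finset_sum _ fun j _ =>
            (Fi i).continuous.mul (Complex.continuous_conj.comp (Fi j).continuous))
      have hreal : ∫ p, ‖S p‖ ^ 2 ∂ν ≤ ∑ i ∈ Finset.range m, ∑ j ∈ Finset.range m,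
            ‖∫ p, Fi i p * (starRingEnd ℂ) (Fi j p) ∂ν‖ := by
        have h0 : 0 ≤ ∫ p, ‖S p‖ ^ 2 ∂ν := integral_nonneg fun p => by positivity
        have h1 : ‖(((∫ p, ‖S p‖ ^ 2 ∂ν : ℝ)) : ℂ)‖ = ∫ p, ‖S p‖ ^ 2 ∂ν := by
          rw [Complex.norm_real, Real.norm_of_nonneg h0]
        rw [← h1, hcx]
        exact (norm_sum_le _ _).trans (Finset.sum_le_sum fun i _ => norm_sum_le _ _)
      have hlt : ∀ i j : ℕ, j < i → ‖∫ p, Fi i p * (starRingEnd ℂ) (Fi j p) ∂ν‖ ≤ ε := by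
        intro i j hij
        have h1 : ∫ p, Fi i p * (starRingEnd ℂ) (Fi j p) ∂ν
            = ∫ p, F (nilflow 1 θ 0 (((i : ℝ) - j) * T) p) * (starRingEnd ℂ) (F p) ∂ν := by
          have h0 := hcomp (j * T) ⟨fun p => F (nilflow 1 θ 0 (((i : ℝ) - j) * T) p)
            * (starRingEnd ℂ) (F p), (F.continuous.comp (continuous_nilflow _ _ _ _)).mul
            (Complex.continuous_conj.comp F.continuous)⟩
          refine Eq.trans ?_ h0
          refine integral_congr_ae (Eventually.of_forall fun p => ?_)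
          show F (nilflow 1 θ 0 (i * T) p) * (starRingEnd ℂ) (F (nilflow 1 θ 0 (j * T) p))
            = F (nilflow 1 θ 0 (((i : ℝ) - j) * T) (nilflow 1 θ 0 (j * T) p))
              * (starRingEnd ℂ) (F (nilflow 1 θ 0 (j * T) p))
          rw [nilflow_add]
          congr 3
          ring_nf
        rw [h1]
        refine hT _ ?_
        have h2 : (1 : ℝ) ≤ (i : ℝ) - j := by
          have : (j : ℝ) + 1 ≤ i := by exact_mod_cast hij
          linarith
        nlinarith
      have hgt : ∀ i j : ℕ, i < j → ‖∫ p, Fi i p * (starRingEnd ℂ) (Fi j p) ∂ν‖ ≤ ε := by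
        intro i j hij
        have h1 : ∫ p, Fi i p * (starRingEnd ℂ) (Fi j p) ∂ν
            = (starRingEnd ℂ) (∫ p, Fi j p * (starRingEnd ℂ) (Fi i p) ∂ν) := by
          rw [← integral_conj]
          refine integral_congr_ae (Eventually.of_forall fun p => ?_)
          show Fi i p * (starRingEnd ℂ) (Fi j p) = (starRingEnd ℂ) (Fi j p * (starRingEnd ℂ) (Fi i p))
          rw [map_mul, Complex.conj_conj, mul_comm]
        rw [h1, RCLike.norm_conj]
        exact hlt j i hij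
      have hdiag : ∀ i : ℕ, ‖∫ p, Fi i p * (starRingEnd ℂ) (Fi i p) ∂ν‖ ≤ ‖F‖ ^ 2 := by
        intro i
        have h1 : ∀ p, ‖Fi i p * (starRingEnd ℂ) (Fi i p)‖ ≤ ‖F‖ ^ 2 := by
          intro p
          rw [norm_mul, RCLike.norm_conj, ← pow_two]
          exact pow_le_pow_left₀ (norm_nonneg _) (F.norm_coe_le_norm _) 2
        have h2 := norm_integral_le_of_norm_le_const (μ := ν) (Eventually.of_forall h1)
        simpa using h2
      refine hreal.trans ?_
      have hterm : ∀ i ∈ Finset.range m, ∀ j ∈ Finset.range m,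
          ‖∫ p, Fi i p * (starRingEnd ℂ) (Fi j p) ∂ν‖ ≤ (if i = j then ‖F‖ ^ 2 else 0) + ε := by
        intro i _ j _
        rcases lt_trichotomy i j with h | h | h
        · rw [if_neg h.ne, zero_add]
          exact hgt i j h
        · subst h
          rw [if_pos rfl]
          linarith [hdiag i]
        · rw [if_neg h.ne', zero_add]
          exact hlt i j h
      refine (Finset.sum_le_sum fun i hi => Finset.sum_le_sum fun j hj => hterm i hi j hj).trans ?_
      refine le_of_eq ?_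
      have e1 : ∀ i ∈ Finset.range m, ∑ j ∈ Finset.range m, ((if i = j then ‖F‖ ^ 2 else 0) + ε)
          = ‖F‖ ^ 2 + m * ε := by
        intro i hi
        rw [Finset.sum_add_distrib, Finset.sum_ite_eq, if_pos hi]
        simp
      rw [Finset.sum_congr rfl e1]
      simp
      ring
    have h5 := hJ.trans hE
    rw [hSint, norm_mul, mul_pow] at h5
    simpa using h5
  -- conclusion
  by_contra hne
  have hpos : 0 < ‖∫ p, F p ∂ν‖ ^ 2 := by
    have := norm_pos_iff.2 hne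
    positivity
  set I2 := ‖∫ p, F p ∂ν‖ ^ 2 with hI2
  obtain ⟨m, hm⟩ := exists_nat_gt (2 * ‖F‖ ^ 2 / I2)
  have hm0 : (0 : ℝ) ≤ 2 * ‖F‖ ^ 2 / I2 := by positivity
  have hm1 : (0 : ℝ) < m := lt_of_le_of_lt hm0 hm
  have hm2 : 1 ≤ m := by exact_mod_cast (Nat.pos_of_ne_zero (by rintro rfl; simp at hm1))
  have h1 := key (I2 / 2) (by positivity) m hm2
  have h2 : 2 * ‖F‖ ^ 2 < m * I2 := by rwa [div_lt_iff₀ hpos] at hm
  nlinarith

end corr

end Pool.Agent.V11105.HeisUE
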