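import Mathlib
import Pool.Agent.V11105.HeisUE

/-! Unique ergodicity of the Heisenberg nilflows, conclusion. -/

set_option autoImplicit false
open MeasureTheory Filter Topology

namespace Pool.Agent.V11105.HeisUE2

open HeisBase HeisTorus HeisUE

lemma fourier_add_right (n : ℤ) (x y : UnitAddCircle) :
    (fourier n (x + y) : ℂ) = fourier n x * fourier n y := by
  rw [fourier_apply, fourier_apply, fourier_apply, smul_add, AddCircle.toCircle_add, Circle.coe_mul]

/-- The Fourier coefficient of `F` along the centre. -/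
noncomputable def coeffC (k : ℤ) (F : C(M, ℂ)) (p : M) : ℂ :=
  ∫ s in (0 : ℝ)..1, fourier (-k) (s : UnitAddCircle) * F (cen s p)

lemma continuous_coeffC (k : ℤ) (F : C(M, ℂ)) : Continuous (coeffC k F) := by
  unfold coeffC
  refine intervalIntegral.continuous_parametric_intervalIntegral_of_continuous' ?_ 0 1
  have h1 : Continuous fun t : M × ℝ => (fourier (-k) ((t.2 : ℝ) : UnitAddCircle) : ℂ) :=
    (fourier (-k)).continuous.comp ((AddCircle.continuous_mk' 1).comp continuous_snd)
  have h2 : Continuous fun t : M × ℝ => F (cen t.2 t.1) :=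
    F.continuous.comp (continuous_cen_uncurry.comp (continuous_snd.prodMk continuous_fst))
  exact h1.mul h2

lemma coeffC_cen (k : ℤ) (F : C(M, ℂ)) : HasChar k (coeffC k F) := by
  intro r p
  unfold coeffC
  set f : ℝ → ℂ := fun s => fourier (-k) ((s - r : ℝ) : UnitAddCircle) * F (cen s p) with hf
  have hper : Function.Periodic f 1 := by
    intro s
    show fourier (-k) ((s + 1 - r : ℝ) : UnitAddCircle) * F (cen (s + 1) p)
      = fourier (-k) ((s - r : ℝ) : UnitAddCircle) * F (cen s p)
    have e : ((s + 1 - r : ℝ) : UnitAddCircle) = ((s - r : ℝ) : UnitAddCircle) := by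
      have : s + 1 - r = (s - r) + 1 := by ring
      rw [this, AddCircle.coe_add, AddCircle.coe_period, add_zero]
    rw [e, cen_add_one]
  have h1 : ∀ s : ℝ, fourier (-k) (s : UnitAddCircle) * F (cen s (cen r p)) = f (s + r) := by
    intro s
    show _ = fourier (-k) ((s + r - r : ℝ) : UnitAddCircle) * F (cen (s + r) p)
    rw [cen_cen, add_sub_cancel_right, add_comm r s]
  simp_rw [h1]
  rw [HeisInt.periodic_shift hper r, ← intervalIntegral.integral_const_mul]
  refine intervalIntegral.integral_congr fun s _ => ?_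
  show fourier (-k) ((s - r : ℝ) : UnitAddCircle) * F (cen s p)
    = fourier k (r : UnitAddCircle) * (fourier (-k) (s : UnitAddCircle) * F (cen s p))
  have h2 : ((s - r : ℝ) : UnitAddCircle) = (s : UnitAddCircle) + (-(r : UnitAddCircle)) := by
    rw [AddCircle.coe_sub, sub_eq_add_neg]
  have h3 : (fourier (-k) (-(r : UnitAddCircle)) : ℂ) = fourier k (r : UnitAddCircle) := by
    rw [fourier_apply, fourier_apply]
    congr 2
    rw [smul_neg, neg_smul, neg_neg]
  rw [h2, fourier_add_right, h3]
  ring

lemma fourier_mul_self (k : ℤ) (x : UnitAddCircle) : (fourier (-k) x : ℂ) * fourier k x = 1 := by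
  rw [← fourier_add, neg_add_cancel, fourier_zero]

section main

variable (θ : ℝ) (hθ : Irrational θ) (ν : Measure M) [IsProbabilityMeasure ν]
  (hν : ∀ t, Measure.map (nilflow 1 θ 0 t) ν = ν)

/-- The average along the centre, as a function on the circle. -/
noncomputable def orb (F : C(M, ℂ)) : C(UnitAddCircle, ℂ) where
  toFun := Quotient.lift (fun s : ℝ => ∫ p, F (cen s p) ∂ν) (by
    intro s s' h
    have h' : (s : UnitAddCircle) = (s' : UnitAddCircle) := Quotient.sound h
    have h3 : ((s - s' : ℝ) : UnitAddCircle) = 0 := by rw [AddCircle.coe_sub, h', sub_self]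
    rw [AddCircle.coe_eq_zero_iff] at h3
    obtain ⟨n, hn⟩ := h3
    have hs : s = s' + n := by
      rw [zsmul_eq_mul, mul_one] at hn
      linarith
    have hper : ∀ p, Function.Periodic (fun s : ℝ => F (cen s p)) 1 := fun p s => by
      show F (cen (s + 1) p) = F (cen s p)
      rw [cen_add_one]
    refine integral_congr_ae (Eventually.of_forall fun p => ?_)
    have := (hper p).int_mul n s'
    rw [mul_one] at this
    rw [hs]
    exact this)
  continuous_toFun := by
    refine Continuous.quotient_lift ?_ _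
    refine continuous_of_dominated (bound := fun _ => ‖F‖) ?_ ?_ ?_ ?_
    · intro s
      exact (F.continuous.comp (continuous_cen s)).aestronglyMeasurable
    · intro s
      exact Eventually.of_forall fun p => F.norm_coe_le_norm _
    · exact integrable_const _
    · exact Eventually.of_forall fun p => F.continuous.comp
        (continuous_cen_uncurry.comp (continuous_id.prodMk continuous_const))

lemma orb_coe (F : C(M, ℂ)) (s : ℝ) : orb ν F (s : UnitAddCircle) = ∫ p, F (cen s p) ∂ν := rfl

lemma fourierCoeff_orb (F : C(M, ℂ)) (k : ℤ) :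
    fourierCoeff (orb ν F) k = ∫ p, coeffC k F p ∂ν := by
  rw [fourierCoeff_eq_intervalIntegral _ k 0, zero_add, div_one, one_smul]
  have h1 : ∀ s : ℝ, (fourier (-k) (s : UnitAddCircle) : ℂ) • orb ν F (s : UnitAddCircle)
      = ∫ p, fourier (-k) (s : UnitAddCircle) * F (cen s p) ∂ν := by
    intro s
    rw [orb_coe, smul_eq_mul, integral_const_mul]
  simp_rw [h1]
  unfold coeffC
  rw [intervalIntegral.integral_of_le zero_le_one]
  simp_rw [intervalIntegral.integral_of_le zero_le_one]
  refine integral_integral_swap ?_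
  have hc : Continuous fun t : ℝ × M => (fourier (-k) ((t.1 : ℝ) : UnitAddCircle) : ℂ) * F (cen t.1 t.2) :=
    ((fourier (-k)).continuous.comp ((AddCircle.continuous_mk' 1).comp continuous_fst)).mul
      (F.continuous.comp continuous_cen_uncurry)
  refine Integrable.of_bound hc.aestronglyMeasurable ‖F‖ (Eventually.of_forall fun t => ?_)
  show ‖(fourier (-k) ((t.1 : ℝ) : UnitAddCircle) : ℂ) * F (cen t.1 t.2)‖ ≤ ‖F‖
  rw [norm_mul]
  have : ‖(fourier (-k) ((t.1 : ℝ) : UnitAddCircle) : ℂ)‖ = 1 := by
    rw [fourier_apply]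
    exact Circle.norm_coe _
  rw [this, one_mul]
  exact F.norm_coe_le_norm _

include hθ hν

lemma integral_eq (F : C(M, ℂ)) : ∫ p, F p ∂ν = ∫ p, coeffC 0 F p ∂ν := by
  have hz : ∀ k : ℤ, k ≠ 0 → fourierCoeff (orb ν F) k = 0 := by
    intro k hk
    rw [fourierCoeff_orb]
    exact integral_char_eq_zero θ hθ ν hν k hk ⟨coeffC k F, continuous_coeffC k F⟩ (coeffC_cen k F)
  have hsum : Summable (fourierCoeff (orb ν F)) := by
    refine summable_of_ne_finset_zero (s := {0}) fun k hk => hz k ?_
    simpa using hk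
  have h1 := hasSum_fourier_series_of_summable hsum
  have h2 : HasSum (fun i => fourierCoeff (orb ν F) i • (fourier i : C(UnitAddCircle, ℂ)))
      (fourierCoeff (orb ν F) 0 • (fourier 0 : C(UnitAddCircle, ℂ))) := by
    refine hasSum_single 0 fun k hk => ?_
    rw [hz k hk]
    exact zero_smul ℂ (fourier k : C(UnitAddCircle, ℂ))
  have h3 := h1.unique h2
  have h4 := congrArg (fun G : C(UnitAddCircle, ℂ) => G ((0 : ℝ) : UnitAddCircle)) h3
  simp only [ContinuousMap.smul_apply, fourier_zero, smul_eq_mul, mul_one] at h4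
  rw [orb_coe, fourierCoeff_orb] at h4
  rw [← h4]
  refine integral_congr_ae (Eventually.of_forall fun p => ?_)
  show F p = F (cen 0 p)
  congr 1
  unfold cen
  have := rmul_one p
  rw [one_el] at this
  rw [this]

end main

/-- **Unique ergodicity.** The Haar measure is the only invariant probability measure of the
nilflow generated by `(1, θ, 0)`, `θ` irrational. -/
theorem unique_ergodic (θ : ℝ) (hθ : Irrational θ) (ν : Measure M) [IsProbabilityMeasure ν]
    (hν : ∀ t, Measure.map (nilflow 1 θ 0 t) ν = ν) : ν = haarM := by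
  have hμ : ∀ t, Measure.map (nilflow 1 θ 0 t) haarM = haarM := fun t =>
    HeisInt.map_nilflow_haarM 1 θ 0 t
  refine ext_of_forall_integral_eq_of_IsFiniteMeasure fun f => ?_
  set F : C(M, ℂ) := ⟨fun p => ((f p : ℝ) : ℂ), Complex.continuous_ofReal.comp f.continuous⟩ with hF
  set F0 : C(M, ℂ) := ⟨coeffC 0 F, continuous_coeffC 0 F⟩ with hF0
  have hinv : ∀ s p, F0 (cen s p) = F0 p := by
    intro s p
    have := coeffC_cen 0 F s p
    rw [fourier_zero, one_mul] at this
    exact this
  obtain ⟨H, hH⟩ := exists_descent F0 hinv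
  have h1 : ∀ (ρ : Measure M) [IsProbabilityMeasure ρ], (∀ t, Measure.map (nilflow 1 θ 0 t) ρ = ρ) →
      ∫ p, F p ∂ρ = ∫ w, H w := by
    intro ρ _ hρ
    rw [integral_eq θ hθ ρ hρ F, ← integral_proj θ hθ ρ hρ H H.continuous]
    refine integral_congr_ae (Eventually.of_forall fun p => ?_)
    exact (hH p).symm
  have h2 : ∫ p, F p ∂ν = ∫ p, F p ∂haarM := by rw [h1 ν hν, h1 haarM hμ]
  have h3 : ∀ (ρ : Measure M), ∫ p, F p ∂ρ = ((∫ p, f p ∂ρ : ℝ) : ℂ) := fun ρ =>
    integral_complex_ofReal
  rw [h3, h3] at h2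
  exact_mod_cast h2

end Pool.Agent.V11105.HeisUE2
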