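import Mathlib

/-! Smooth periodic step functions and very well approximable numbers. -/

set_option autoImplicit false
open MeasureTheory Filter Topology

namespace Pool.Agent.V11105.LiouStep

/-- A smooth `1`-periodic step function. -/
noncomputable def stp (η s : ℝ) : ℝ :=
  Real.smoothTransition ((Real.sin (2 * Real.pi * s) + η) / (2 * η))

lemma contDiff_stp (η : ℝ) : ContDiff ℝ (⊤ : ℕ∞) (stp η) := by
  unfold stp
  exact Real.smoothTransition.contDiff.comp
    ((((Real.contDiff_sin.of_le le_top).comp (contDiff_const.mul contDiff_id)).add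
      contDiff_const).div_const _)

lemma periodic_stp (η : ℝ) : Function.Periodic (stp η) 1 := by
  intro s
  unfold stp
  have : 2 * Real.pi * (s + 1) = 2 * Real.pi * s + 2 * Real.pi := by ring
  rw [this, Real.sin_add_two_pi]

lemma stp_nonneg (η s : ℝ) : 0 ≤ stp η s := Real.smoothTransition.nonneg _
lemma stp_le_one (η s : ℝ) : stp η s ≤ 1 := Real.smoothTransition.le_one _

lemma stp_eq_one {η s : ℝ} (h0 : 0 < η) (h : η ≤ Real.sin (2 * Real.pi * s)) : stp η s = 1 := by
  unfold stp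
  refine Real.smoothTransition.one_of_one_le ?_
  rw [le_div_iff₀ (by positivity)]
  linarith

lemma stp_eq_zero {η s : ℝ} (h0 : 0 < η) (h : Real.sin (2 * Real.pi * s) ≤ -η) : stp η s = 0 := by
  unfold stp
  refine Real.smoothTransition.zero_of_nonpos ?_
  exact div_nonpos_of_nonpos_of_nonneg (by linarith) (by positivity)

lemma sin_half (s : ℝ) : Real.sin (2 * Real.pi * (s + 1 / 2)) = - Real.sin (2 * Real.pi * s) := by
  have : 2 * Real.pi * (s + 1 / 2) = 2 * Real.pi * s + Real.pi := by ring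
  rw [this, Real.sin_add_pi]

lemma ae_sin_ne_zero : ∀ᵐ s : ℝ, Real.sin (2 * Real.pi * s) ≠ 0 := by
  have h : {s : ℝ | ¬ Real.sin (2 * Real.pi * s) ≠ 0} ⊆ Set.range (fun n : ℤ => (n : ℝ) / 2) := by
    intro s hs
    have hs' : Real.sin (2 * Real.pi * s) = 0 := by
      by_contra h
      exact hs h
    rw [Real.sin_eq_zero_iff] at hs'
    obtain ⟨n, hn⟩ := hs'
    refine ⟨n, ?_⟩
    show (n : ℝ) / 2 = s
    have hpi := Real.pi_pos
    have : (n : ℝ) = 2 * s := by
      have h2 : Real.pi * ((n : ℝ) - 2 * s) = 0 := by linarith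
      rcases mul_eq_zero.1 h2 with h3 | h3
      · exact absurd h3 hpi.ne'
      · linarith
    rw [this]
    ring
  rw [ae_iff]
  exact measure_mono_null h ((Set.countable_range _).measure_zero _)

/-- For every `N` and `ε` there is a step function whose multiple by `N` is integer valued up to
`ε` in mean, and which jumps by one under the half-turn with large probability. -/
lemma exists_step (N : ℕ) (ε : ℝ) (hε : 0 < ε) : ∃ η : ℝ, 0 < η ∧
    ∫ s in (0 : ℝ)..1, ‖Complex.exp (2 * Real.pi * Complex.I * ((N * stp η s : ℝ) : ℂ)) - 1‖ ≤ ε ∧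
    3 / 4 ≤ ∫ s in (0 : ℝ)..1, |stp η (s + 1 / 2) - stp η s| := by
  have hcont : ∀ η, Continuous (stp η) := fun η => (contDiff_stp η).continuous
  have hev : ∀ s : ℝ, Real.sin (2 * Real.pi * s) ≠ 0 →
      ∀ᶠ n : ℕ in atTop, 1 / ((n : ℝ) + 1) < |Real.sin (2 * Real.pi * s)| := by
    intro s hs
    exact (tendsto_one_div_add_atTop_nhds_zero_nat (𝕜 := ℝ)).eventually (gt_mem_nhds (abs_pos.2 hs))
  have hexpc : ∀ η, Continuous fun s : ℝ =>
      ‖Complex.exp (2 * Real.pi * Complex.I * ((N * stp η s : ℝ) : ℂ)) - 1‖ := by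
    intro η
    have := hcont η
    fun_prop
  have h1 : Tendsto (fun n : ℕ => ∫ s in (0 : ℝ)..1,
      ‖Complex.exp (2 * Real.pi * Complex.I * ((N * stp (1 / ((n : ℝ) + 1)) s : ℝ) : ℂ)) - 1‖) atTop
      (𝓝 (∫ _s in (0 : ℝ)..1, (0 : ℝ))) := by
    refine intervalIntegral.tendsto_integral_filter_of_dominated_convergence (fun _ => (2 : ℝ)) ?_ ?_
      ?_ ?_
    · exact Eventually.of_forall fun n => (hexpc _).aestronglyMeasurable
    · refine Eventually.of_forall fun n => Eventually.of_forall fun s _ => ?_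
      rw [norm_norm]
      refine (norm_sub_le _ _).trans ?_
      have : ‖Complex.exp (2 * Real.pi * Complex.I * ((N * stp (1 / ((n : ℝ) + 1)) s : ℝ) : ℂ))‖ = 1 := by
        rw [Complex.norm_exp]
        simp
      rw [this]
      simp
      norm_num
    · exact intervalIntegrable_const
    · filter_upwards [ae_sin_ne_zero] with s hs _
      refine tendsto_const_nhds.congr' ?_
      filter_upwards [hev s hs] with n hn
      have h0 : (0 : ℝ) < 1 / ((n : ℝ) + 1) := by positivity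
      have hst : ∃ m : ℕ, (N * stp (1 / ((n : ℝ) + 1)) s : ℝ) = m := by
        rcases le_total 0 (Real.sin (2 * Real.pi * s)) with h | h
        · rw [abs_of_nonneg h] at hn
          exact ⟨N, by rw [stp_eq_one h0 hn.le, mul_one]⟩
        · rw [abs_of_nonpos h] at hn
          exact ⟨0, by rw [stp_eq_zero h0 (by linarith)]; simp⟩
      obtain ⟨m, hm⟩ := hst
      rw [hm]
      have : Complex.exp (2 * Real.pi * Complex.I * ((m : ℝ) : ℂ)) = 1 := by
        rw [Complex.exp_eq_one_iff]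
        exact ⟨m, by push_cast; ring⟩
      rw [this, sub_self, norm_zero]
  have h2 : Tendsto (fun n : ℕ => ∫ s in (0 : ℝ)..1,
      |stp (1 / ((n : ℝ) + 1)) (s + 1 / 2) - stp (1 / ((n : ℝ) + 1)) s|) atTop
      (𝓝 (∫ _s in (0 : ℝ)..1, (1 : ℝ))) := by
    refine intervalIntegral.tendsto_integral_filter_of_dominated_convergence (fun _ => (1 : ℝ)) ?_ ?_
      ?_ ?_
    · refine Eventually.of_forall fun n => ?_
      have := hcont (1 / ((n : ℝ) + 1))
      have h3 : Continuous fun s : ℝ =>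
        |stp (1 / ((n : ℝ) + 1)) (s + 1 / 2) - stp (1 / ((n : ℝ) + 1)) s| := by fun_prop
      exact h3.aestronglyMeasurable
    · refine Eventually.of_forall fun n => Eventually.of_forall fun s _ => ?_
      rw [Real.norm_eq_abs, abs_abs, abs_le]
      constructor <;> linarith [stp_nonneg (1 / ((n : ℝ) + 1)) (s + 1 / 2),
        stp_le_one (1 / ((n : ℝ) + 1)) (s + 1 / 2), stp_nonneg (1 / ((n : ℝ) + 1)) s,
        stp_le_one (1 / ((n : ℝ) + 1)) s]
    · exact intervalIntegrable_const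
    · filter_upwards [ae_sin_ne_zero] with s hs _
      refine tendsto_const_nhds.congr' ?_
      filter_upwards [hev s hs] with n hn
      have h0 : (0 : ℝ) < 1 / ((n : ℝ) + 1) := by positivity
      rcases le_total 0 (Real.sin (2 * Real.pi * s)) with h | h
      · rw [abs_of_nonneg h] at hn
        rw [stp_eq_one h0 hn.le, stp_eq_zero h0 (by rw [sin_half]; linarith)]
        norm_num
      · rw [abs_of_nonpos h] at hn
        rw [stp_eq_zero h0 (show Real.sin (2 * Real.pi * s) ≤ _ by linarith),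
          stp_eq_one h0 (by rw [sin_half]; linarith)]
        norm_num
  rw [intervalIntegral.integral_const, smul_zero] at h1
  rw [intervalIntegral.integral_const] at h2
  have e2 : ((1 : ℝ) - 0) • (1 : ℝ) = 1 := by simp
  rw [e2] at h2
  have h3 := (h1.eventually (ge_mem_nhds hε)).and
    (h2.eventually (le_mem_nhds (show (3 / 4 : ℝ) < 1 by norm_num)))
  obtain ⟨n, hn1, hn2⟩ := h3.exists
  exact ⟨1 / ((n : ℝ) + 1), by positivity, hn1, hn2⟩

/-- Derivatives of smooth periodic functions are bounded. -/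
lemma exists_bound (w : ℝ → ℝ) (hw : ContDiff ℝ (⊤ : ℕ∞) w) (hp : Function.Periodic w 1) (n : ℕ) :
    ∃ C : ℝ, ∀ s, ‖iteratedFDeriv ℝ n w s‖ ≤ C := by
  have hper : Function.Periodic (fun s => ‖iteratedFDeriv ℝ n w s‖) 1 := by
    intro s
    show ‖iteratedFDeriv ℝ n w (s + 1)‖ = ‖iteratedFDeriv ℝ n w s‖
    rw [← iteratedFDeriv_comp_add_right]
    have : (fun z => w (z + 1)) = w := funext hp
    rw [this]
  have hc : Continuous fun s => ‖iteratedFDeriv ℝ n w s‖ :=
    (hw.continuous_iteratedFDeriv (by exact_mod_cast le_top)).norm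
  obtain ⟨C, hC⟩ := (isCompact_Icc (a := (0 : ℝ)) (b := 1)).bddAbove_image hc.continuousOn
  refine ⟨C, fun s => ?_⟩
  obtain ⟨y, hy, hy2⟩ := hper.exists_mem_Ico₀ one_pos s
  have hy3 : ‖iteratedFDeriv ℝ n w s‖ = ‖iteratedFDeriv ℝ n w y‖ := hy2
  rw [hy3]
  exact hC ⟨y, Set.Ico_subset_Icc_self hy, rfl⟩

lemma exists_bound_le (w : ℝ → ℝ) (hw : ContDiff ℝ (⊤ : ℕ∞) w) (hp : Function.Periodic w 1)
    (m : ℕ) : ∃ C : ℝ, 1 ≤ C ∧ ∀ n ≤ m, ∀ s, ‖iteratedFDeriv ℝ n w s‖ ≤ C := by
  induction m with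
  | zero =>
    obtain ⟨C, hC⟩ := exists_bound w hw hp 0
    refine ⟨max 1 C, le_max_left _ _, fun n hn s => ?_⟩
    rw [Nat.le_zero.1 hn]
    exact (hC s).trans (le_max_right _ _)
  | succ m ih =>
    obtain ⟨C, h1, hC⟩ := ih
    obtain ⟨C', hC'⟩ := exists_bound w hw hp (m + 1)
    refine ⟨max C C', h1.trans (le_max_left _ _), fun n hn s => ?_⟩
    rcases Nat.le_succ_iff.1 hn with h | h
    · exact (hC n h s).trans (le_max_left _ _)
    · rw [h]
      exact (hC' s).trans (le_max_right _ _)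

/-- Very well approximable irrational numbers. -/
lemma exists_liouville (η : ℕ → ℤ → ℤ → ℝ) (hη : ∀ k p q, 0 < η k p q) :
    ∃ θ : ℝ, Irrational θ ∧ ∀ k : ℕ, ∀ ε : ℝ, 0 < ε → ∃ p q : ℤ, 0 < q ∧
      0 < |(q : ℝ) * θ - p| ∧ |(q : ℝ) * θ - p| < ε * η k p q := by
  set U : ℕ → Set ℝ := fun i => {θ | ∃ p q : ℤ, 0 < q ∧ 0 < |(q : ℝ) * θ - p| ∧
    |(q : ℝ) * θ - p| < 1 / ((Nat.unpair i).2 + 1) * η (Nat.unpair i).1 p q} with hU
  have hopen : ∀ i, IsOpen (U i) := by
    intro i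
    have : U i = ⋃ (p : ℤ) (q : ℤ) (_ : 0 < q), {θ : ℝ | 0 < |(q : ℝ) * θ - p|} ∩
        {θ : ℝ | |(q : ℝ) * θ - p| < 1 / ((Nat.unpair i).2 + 1) * η (Nat.unpair i).1 p q} := by
      ext θ
      simp only [hU, Set.mem_iUnion, Set.mem_inter_iff, Set.mem_ofPred_eq, exists_prop]
    rw [this]
    refine isOpen_iUnion fun p => isOpen_iUnion fun q => isOpen_iUnion fun _ => ?_
    exact (isOpen_lt continuous_const (by fun_prop)).inter (isOpen_lt (by fun_prop) continuous_const)
  have hdense : ∀ i, Dense (U i) := by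
    intro i
    rw [Metric.dense_iff]
    intro x r hr
    obtain ⟨y, hy1, hy2⟩ := exists_rat_btwn (show x - r / 2 < x by linarith)
    have hq : (0 : ℝ) < (y.den : ℝ) := by exact_mod_cast y.den_pos
    have hyeq : (y : ℝ) * (y.den : ℝ) = y.num := by
      exact_mod_cast Rat.mul_den_eq_num y
    set c : ℝ := 1 / ((Nat.unpair i).2 + 1) * η (Nat.unpair i).1 y.num (y.den : ℤ) with hc
    have hc0 : 0 < c := mul_pos (by positivity) (hη _ _ _)
    set t : ℝ := min (r / 4) (c / (2 * y.den)) with ht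
    have ht0 : 0 < t := lt_min (by linarith) (by positivity)
    refine ⟨(y : ℝ) + t, ?_, y.num, (y.den : ℤ), by exact_mod_cast y.den_pos, ?_, ?_⟩
    · rw [Metric.mem_ball, Real.dist_eq, abs_lt]
      have := min_le_left (r / 4) (c / (2 * y.den))
      constructor <;> linarith
    · have : (((y.den : ℤ)) : ℝ) * ((y : ℝ) + t) - y.num = y.den * t := by
        push_cast
        linear_combination hyeq
      rw [this, abs_of_pos (by positivity)]
      positivity
    · have : (((y.den : ℤ)) : ℝ) * ((y : ℝ) + t) - y.num = y.den * t := by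
        push_cast
        linear_combination hyeq
      rw [this, abs_of_pos (by positivity), ← hc]
      have h1 : t ≤ c / (2 * y.den) := min_le_right _ _
      calc (y.den : ℝ) * t ≤ y.den * (c / (2 * y.den)) := mul_le_mul_of_nonneg_left h1 hq.le
        _ = c / 2 := by field_simp
        _ < c := by linarith
  have hD : Dense (⋂ i, U i) := dense_iInter_of_isOpen_nat hopen hdense
  have hG : IsGδ (⋂ i, U i) := IsGδ.iInter_of_isOpen hopen
  have hI := Dense.inter_of_Gδ hG IsGδ.setOfPred_irrational hD dense_irrational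
  obtain ⟨θ, hθ1, hθ2⟩ := hI.nonempty
  refine ⟨θ, hθ2, fun k ε hε => ?_⟩
  obtain ⟨m, hm⟩ := exists_nat_gt (1 / ε)
  have h1 := Set.mem_iInter.1 hθ1 (Nat.pair k m)
  obtain ⟨p, q, hq, h2, h3⟩ := h1
  rw [Nat.unpair_pair] at h3
  refine ⟨p, q, hq, h2, h3.trans_le ?_⟩
  refine mul_le_mul_of_nonneg_right ?_ (hη _ _ _).le
  show 1 / ((m : ℝ) + 1) ≤ ε
  rw [div_le_iff₀ (by positivity)]
  rw [div_lt_iff₀ hε] at hm
  nlinarith

/-- The sequence of approximations. -/
lemma exists_seq (η : ℕ → ℤ → ℤ → ℝ) (hη : ∀ k p q, 0 < η k p q) :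
    ∃ (θ : ℝ) (p q : ℕ → ℤ), Irrational θ ∧ (∀ k, 0 < q k) ∧
      (∀ k, 0 < |(q k : ℝ) * θ - p k|) ∧
      (∀ k, |(q k : ℝ) * θ - p k| < η k (p k) (q k)) ∧
      (∀ k, |(q (k + 1) : ℝ) * θ - p (k + 1)|
        < |(q k : ℝ) * θ - p k| * η (k + 1) (p (k + 1)) (q (k + 1))) := by
  obtain ⟨θ, hirr, hθ⟩ := exists_liouville η hη
  have hstep : ∀ (k : ℕ) (d : ℝ), 0 < d → ∃ r : ℤ × ℤ, 0 < r.2 ∧ 0 < |(r.2 : ℝ) * θ - r.1| ∧
      |(r.2 : ℝ) * θ - r.1| < min 1 d * η k r.1 r.2 := by
    intro k d hd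
    obtain ⟨p, q, h1, h2, h3⟩ := hθ k (min 1 d) (lt_min one_pos hd)
    exact ⟨(p, q), h1, h2, h3⟩
  choose! f hf1 hf2 hf3 using hstep
  let g : ℕ → ℤ × ℤ := fun n => Nat.rec (f 0 1) (fun k r => f (k + 1) |(r.2 : ℝ) * θ - r.1|) n
  have g0 : g 0 = f 0 1 := rfl
  have gs : ∀ k, g (k + 1) = f (k + 1) |((g k).2 : ℝ) * θ - (g k).1| := fun k => rfl
  have hpos : ∀ k, 0 < |((g k).2 : ℝ) * θ - (g k).1| := by
    intro k
    induction k with
    | zero => rw [g0]; exact hf2 0 1 one_pos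
    | succ k ih => rw [gs]; exact hf2 (k + 1) _ ih
  refine ⟨θ, fun k => (g k).1, fun k => (g k).2, hirr, ?_, hpos, ?_, ?_⟩
  · intro k
    rcases k with _ | k
    · show 0 < (g 0).2
      rw [g0]; exact hf1 0 1 one_pos
    · show 0 < (g (k + 1)).2
      rw [gs]; exact hf1 (k + 1) _ (hpos k)
  · intro k
    rcases k with _ | k
    · show |((g 0).2 : ℝ) * θ - (g 0).1| < η 0 (g 0).1 (g 0).2
      rw [g0]
      have := hf3 0 1 one_pos
      rwa [min_self, one_mul] at this
    · show |((g (k + 1)).2 : ℝ) * θ - (g (k + 1)).1| < η (k + 1) (g (k + 1)).1 (g (k + 1)).2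
      rw [gs]
      refine (hf3 (k + 1) _ (hpos k)).trans_le ?_
      have := mul_le_mul_of_nonneg_right (min_le_left 1 |((g k).2 : ℝ) * θ - (g k).1|)
        (hη (k + 1) (f (k + 1) |((g k).2 : ℝ) * θ - (g k).1|).1
          (f (k + 1) |((g k).2 : ℝ) * θ - (g k).1|).2).le
      rwa [one_mul] at this
  · intro k
    show |((g (k + 1)).2 : ℝ) * θ - (g (k + 1)).1|
      < |((g k).2 : ℝ) * θ - (g k).1| * η (k + 1) (g (k + 1)).1 (g (k + 1)).2
    rw [gs]
    refine (hf3 (k + 1) _ (hpos k)).trans_le ?_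
    exact mul_le_mul_of_nonneg_right (min_le_right 1 |((g k).2 : ℝ) * θ - (g k).1|)
        (hη (k + 1) (f (k + 1) |((g k).2 : ℝ) * θ - (g k).1|).1
          (f (k + 1) |((g k).2 : ℝ) * θ - (g k).1|).2).le

end Pool.Agent.V11105.LiouStep
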