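import Mathlib
import Pool.Agent.V11105.HeisUE2
import Pool.Agent.V11105.LiouStep

/-! Functions on the Heisenberg nilmanifold of the form `w (q y - p x)`. -/

set_option autoImplicit false
open MeasureTheory Filter Topology

namespace Pool.Agent.V11105.HeisLin

open HeisBase

lemma periodic_int {E : Type*} {w : ℝ → E} (hw : Function.Periodic w 1) (s : ℝ) (n : ℤ) :
    w (s + n) = w s := by
  have := hw.int_mul n s
  rwa [mul_one] at this

/-- The function `w (q y - p x)` on the nilmanifold. -/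
def linM {E : Type*} (w : ℝ → E) (hw : Function.Periodic w 1) (p q : ℤ) : M → E :=
  Quotient.lift (fun g : Heis => w (q * g.2.1 - p * g.1)) (by
    intro g g' hg
    rw [← Quotient.eq_iff_equiv] at hg
    obtain ⟨a, b, c, rfl⟩ := (mk_eq_iff g g').1 hg
    show w (q * ((b : ℝ) + g'.2.1) - p * ((a : ℝ) + g'.1)) = w (q * g'.2.1 - p * g'.1)
    have : (q : ℝ) * ((b : ℝ) + g'.2.1) - p * ((a : ℝ) + g'.1)
        = (q * g'.2.1 - p * g'.1) + ((q * b - p * a : ℤ) : ℝ) := by
      push_cast
      ring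
    rw [this, periodic_int hw])

variable {E : Type*}

lemma linM_mk (w : ℝ → E) (hw : Function.Periodic w 1) (p q : ℤ) (x y z : ℝ) :
    linM w hw p q (mk (el x y z)) = w (q * y - p * x) := rfl

lemma linM_nilflow (w : ℝ → E) (hw : Function.Periodic w 1) (p q : ℤ) (θ t x y z : ℝ) :
    linM w hw p q (nilflow 1 θ 0 t (mk (el x y z))) = w (q * y - p * x + t * (q * θ - p)) := by
  unfold nilflow expo
  rw [rmul_mk, mul_el, linM_mk]
  congr 1
  ring

lemma continuous_linM [TopologicalSpace E] (w : ℝ → E) (hw : Function.Periodic w 1) (p q : ℤ)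
    (hc : Continuous w) : Continuous (linM w hw p q) := by
  rw [isOpenQuotientMap_mk.isQuotientMap.continuous_iff]
  exact hc.comp ((continuous_const.mul continuous_c2).sub (continuous_const.mul continuous_c1))

lemma integral_linM [NormedAddCommGroup E] [NormedSpace ℝ E] [CompleteSpace E] (w : ℝ → E)
    (hw : Function.Periodic w 1) (p q : ℤ) (hc : Continuous w) (hq : 0 < q) :
    ∫ P, linM w hw p q P ∂haarM = ∫ s in (0 : ℝ)..1, w s := by
  rw [HeisInt.integral_haarM _ (continuous_linM w hw p q hc)]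
  have hq' : (0 : ℝ) < q := by exact_mod_cast hq
  have h1 : ∀ x : ℝ, ∫ y in (0 : ℝ)..1, ∫ _z in (0 : ℝ)..1, w (q * y - p * x)
      = ∫ s in (0 : ℝ)..1, w s := by
    intro x
    have h2 : ∀ y : ℝ, ∫ _z in (0 : ℝ)..1, w (q * y - p * x) = w ((q : ℝ) * y + (-(p * x))) := by
      intro y
      rw [intervalIntegral.integral_const, sub_zero, one_smul, sub_eq_add_neg]
    simp_rw [h2]
    rw [intervalIntegral.integral_comp_mul_add _ hq'.ne']
    have h3 := hw.intervalIntegral_add_zsmul_eq q (-(p * x)) (fun t₁ t₂ => hc.intervalIntegrable t₁ t₂)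
    have e1 : (q : ℝ) * 0 + -(p * x) = -(p * x) := by ring
    have e2 : (q : ℝ) * 1 + -(p * x) = -(p * x) + q • (1 : ℝ) := by
      rw [zsmul_eq_mul]
      ring
    have h4 := hw.intervalIntegral_add_eq (-(p * x)) 0
    rw [zero_add] at h4
    rw [e1, e2, h3, h4, ← Int.cast_smul_eq_zsmul ℝ, smul_smul, inv_mul_cancel₀ hq'.ne', one_smul]
  have h5 : ∀ x : ℝ, ∫ y in (0 : ℝ)..1, ∫ z in (0 : ℝ)..1, linM w hw p q (mk (el x y z))
      = ∫ s in (0 : ℝ)..1, w s := h1
  simp_rw [h5]
  rw [intervalIntegral.integral_const, sub_zero, one_smul]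

end Pool.Agent.V11105.HeisLin
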