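import Mathlib
import Pool.Agent.V11105.HeisLin

/-! The time change. -/

set_option autoImplicit false
open MeasureTheory Filter Topology

namespace Pool.Agent.V11105.HeisTC

open HeisBase HeisLin LiouStep

/-- the step functions -/
noncomputable def ww (e : ℕ → ℝ) (k : ℕ) (s : ℝ) : ℝ := ((8 ^ (k + 1) : ℕ) : ℝ) * stp (e k) s

lemma contDiff_ww (e : ℕ → ℝ) (k : ℕ) : ContDiff ℝ (⊤ : ℕ∞) (ww e k) :=
  contDiff_const.mul (contDiff_stp _)

lemma periodic_ww (e : ℕ → ℝ) (k : ℕ) : Function.Periodic (ww e k) 1 := by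
  intro s
  unfold ww
  rw [periodic_stp]

/-- their derivatives -/
noncomputable def vv (e : ℕ → ℝ) (k : ℕ) : ℝ → ℝ := deriv (ww e k)

lemma contDiff_vv (e : ℕ → ℝ) (k : ℕ) : ContDiff ℝ (⊤ : ℕ∞) (vv e k) :=
  (contDiff_infty_iff_deriv.1 (contDiff_ww e k)).2

lemma hasDerivAt_ww (e : ℕ → ℝ) (k : ℕ) (s : ℝ) : HasDerivAt (ww e k) (vv e k s) s :=
  ((contDiff_infty_iff_deriv.1 (contDiff_ww e k)).1 s).hasDerivAt

lemma periodic_vv (e : ℕ → ℝ) (k : ℕ) : Function.Periodic (vv e k) 1 := by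
  intro s
  unfold vv
  have h := deriv_comp_add_const (ww e k) 1 s
  rw [← h]
  congr 1
  exact funext (periodic_ww e k)

/-- The data of the construction. -/
structure Dat where
  θ : ℝ
  p : ℕ → ℤ
  q : ℕ → ℤ
  e : ℕ → ℝ
  B : ℕ → ℝ
  irr : Irrational θ
  q_pos : ∀ k, 0 < q k
  e_pos : ∀ k, 0 < e k
  e_exp : ∀ k, ∫ s in (0 : ℝ)..1, ‖Complex.exp (2 * Real.pi * Complex.I
    * ((ww e k s : ℝ) : ℂ)) - 1‖ ≤ (1 / 2) ^ k
  e_jump : ∀ k, 3 / 4 ≤ ∫ s in (0 : ℝ)..1, |stp (e k) (s + 1 / 2) - stp (e k) s|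
  B_ge : ∀ k, (8 : ℝ) ^ (k + 1) ≤ B k
  B_bd : ∀ k, ∀ n ≤ k, ∀ s, ‖iteratedFDeriv ℝ n (vv e k) s‖ ≤ B k
  d_pos : ∀ k, 0 < |(q k : ℝ) * θ - p k|
  d_lt : ∀ k, |(q k : ℝ) * θ - p k|
    < (1 / 2) ^ k / (1000 * B k * (1 + |(p k : ℝ)| + |(q k : ℝ)|) ^ k)
  d_step : ∀ k, |(q (k + 1) : ℝ) * θ - p (k + 1)| < |(q k : ℝ) * θ - p k| *
    ((1 / 2) ^ (k + 1) / (1000 * B (k + 1) * (1 + |(p (k + 1) : ℝ)| + |(q (k + 1) : ℝ)|) ^ (k + 1)))

lemma nonempty_dat : Nonempty Dat := by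
  have h1 : ∀ k : ℕ, ∃ η : ℝ, 0 < η ∧
      ∫ s in (0 : ℝ)..1, ‖Complex.exp (2 * Real.pi * Complex.I
        * (((((8 ^ (k + 1) : ℕ)) : ℝ) * stp η s : ℝ) : ℂ)) - 1‖ ≤ (1 / 2) ^ k ∧
      3 / 4 ≤ ∫ s in (0 : ℝ)..1, |stp η (s + 1 / 2) - stp η s| := fun k =>
    exists_step (8 ^ (k + 1)) ((1 / 2) ^ k) (by positivity)
  choose e he1 he2 he3 using h1
  have h2 : ∀ k : ℕ, ∃ C : ℝ, 1 ≤ C ∧ ∀ n ≤ k, ∀ s, ‖iteratedFDeriv ℝ n (vv e k) s‖ ≤ C := fun k =>
    exists_bound_le (vv e k) (contDiff_vv e k) (periodic_vv e k) k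
  choose C hC1 hC2 using h2
  set B : ℕ → ℝ := fun k => max (C k) ((8 : ℝ) ^ (k + 1)) with hB
  have hBpos : ∀ k, 0 < B k := fun k => lt_of_lt_of_le (by positivity) (le_max_right _ _)
  obtain ⟨θ, p, q, hirr, hq, hd, hlt, hst⟩ := exists_seq
    (fun k p q => (1 / 2) ^ k / (1000 * B k * (1 + |(p : ℝ)| + |(q : ℝ)|) ^ k))
    (fun k p q => by
      have := hBpos k
      positivity)
  exact ⟨⟨θ, p, q, e, B, hirr, hq, he1, he2, he3, fun k => le_max_right _ _,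
    fun k n hn s => (hC2 k n hn s).trans (le_max_left _ _), hd, hlt, hst⟩⟩

variable (D : Dat)

/-- The small denominators. -/
def dl (k : ℕ) : ℝ := (D.q k : ℝ) * D.θ - D.p k

lemma B_pos (k : ℕ) : 0 < D.B k := lt_of_lt_of_le (by positivity) (D.B_ge k)

lemma dl_lt (k : ℕ) : |dl D k| * D.B k * (1 + |(D.p k : ℝ)| + |(D.q k : ℝ)|) ^ k
    ≤ (1 / 2) ^ k / 1000 := by
  have h := (D.d_lt k).le
  have hB := B_pos D k
  have hpos : 0 < 1000 * D.B k * (1 + |(D.p k : ℝ)| + |(D.q k : ℝ)|) ^ k := by positivity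
  rw [le_div_iff₀ hpos] at h
  have : |dl D k| = |(D.q k : ℝ) * D.θ - D.p k| := rfl
  rw [this]
  linarith

lemma one_le_Q (k : ℕ) : 1 ≤ (1 + |(D.p k : ℝ)| + |(D.q k : ℝ)|) := by
  have := abs_nonneg (D.p k : ℝ)
  have := abs_nonneg (D.q k : ℝ)
  linarith

lemma dl_B (k : ℕ) : |dl D k| * D.B k ≤ (1 / 2) ^ k / 1000 := by
  have h := dl_lt D k
  have h1 : (1 : ℝ) ≤ (1 + |(D.p k : ℝ)| + |(D.q k : ℝ)|) ^ k := one_le_pow₀ (one_le_Q D k)
  have h2 : 0 ≤ |dl D k| * D.B k := mul_nonneg (abs_nonneg _) (B_pos D k).le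
  nlinarith

lemma dl_step (k : ℕ) : |dl D (k + 1)| * D.B (k + 1) ≤ |dl D k| * ((1 / 2) ^ (k + 1) / 1000) := by
  have h := (D.d_step k).le
  have hB := B_pos D (k + 1)
  have hQ : (1 : ℝ) ≤ (1 + |(D.p (k + 1) : ℝ)| + |(D.q (k + 1) : ℝ)|) ^ (k + 1) :=
    one_le_pow₀ (one_le_Q D (k + 1))
  have h1 : |dl D (k + 1)| * D.B (k + 1) ≤ |dl D k| *
    ((1 / 2) ^ (k + 1) / (1000 * D.B (k + 1) * (1 + |(D.p (k + 1) : ℝ)|
      + |(D.q (k + 1) : ℝ)|) ^ (k + 1))) * D.B (k + 1) :=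
    mul_le_mul_of_nonneg_right h hB.le
  refine h1.trans ?_
  rw [mul_assoc]
  refine mul_le_mul_of_nonneg_left ?_ (abs_nonneg _)
  rw [div_mul_eq_mul_div, div_le_div_iff₀ (by positivity) (by norm_num)]
  have h2 : (0 : ℝ) ≤ (1 / 2) ^ (k + 1) * D.B (k + 1) * 1000 := by positivity
  nlinarith

lemma dl_anti (k : ℕ) : |dl D (k + 1)| ≤ |dl D k| := by
  have h := dl_step D k
  have hB : 1 ≤ D.B (k + 1) := by
    refine le_trans ?_ (D.B_ge (k + 1))
    exact one_le_pow₀ (by norm_num)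
  have h1 : |dl D (k + 1)| ≤ |dl D (k + 1)| * D.B (k + 1) := le_mul_of_one_le_right (abs_nonneg _) hB
  have h2 : (1 / 2 : ℝ) ^ (k + 1) / 1000 ≤ 1 := by
    have : (1 / 2 : ℝ) ^ (k + 1) ≤ 1 := pow_le_one₀ (by norm_num) (by norm_num)
    linarith
  have h3 : |dl D k| * ((1 / 2) ^ (k + 1) / 1000) ≤ |dl D k| := mul_le_of_le_one_right (abs_nonneg _) h2
  linarith

lemma dl_antitone {j k : ℕ} (h : j ≤ k) : |dl D k| ≤ |dl D j| := by
  induction k, h using Nat.le_induction with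
  | base => exact le_rfl
  | succ k _ ih => exact (dl_anti D k).trans ih

lemma dl_tail {j k : ℕ} (h : k < j) : |dl D j| * D.B j ≤ |dl D k| * ((1 / 2) ^ j / 1000) := by
  obtain ⟨i, rfl⟩ : ∃ i, j = i + 1 := ⟨j - 1, by omega⟩
  refine (dl_step D i).trans ?_
  exact mul_le_mul_of_nonneg_right (dl_antitone D (by omega)) (by positivity)

lemma abs_vv_le (k : ℕ) (s : ℝ) : |vv D.e k s| ≤ D.B k := by
  have h := D.B_bd k 0 (Nat.zero_le _) s
  rwa [norm_iteratedFDeriv_zero] at h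

lemma ww_nonneg (k : ℕ) (s : ℝ) : 0 ≤ ww D.e k s := by
  unfold ww
  exact mul_nonneg (by positivity) (stp_nonneg _ _)

lemma ww_le (k : ℕ) (s : ℝ) : ww D.e k s ≤ 8 ^ (k + 1) := by
  unfold ww
  have := stp_le_one (D.e k) s
  have h0 : (0 : ℝ) ≤ ((8 ^ (k + 1) : ℕ) : ℝ) := by positivity
  calc ((8 ^ (k + 1) : ℕ) : ℝ) * stp (D.e k) s ≤ ((8 ^ (k + 1) : ℕ) : ℝ) * 1 :=
        mul_le_mul_of_nonneg_left this h0
    _ = 8 ^ (k + 1) := by push_cast; ring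

/-- The increments of `w_k` along the flow. -/
lemma ww_sub_le (k : ℕ) (s r : ℝ) : |ww D.e k (s + r) - ww D.e k s| ≤ |r| * D.B k := by
  have h := Convex.norm_image_sub_le_of_norm_deriv_le (f := ww D.e k) (C := D.B k)
    (s := Set.univ) (x := s) (y := s + r) (fun x _ => (hasDerivAt_ww D.e k x).differentiableAt)
    (fun x _ => abs_vv_le D k x) convex_univ (Set.mem_univ _) (Set.mem_univ _)
  rw [Real.norm_eq_abs, Real.norm_eq_abs, add_sub_cancel_left, mul_comm] at h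
  exact h

/-- The term of index `k` of the speed. -/
noncomputable def tm (k : ℕ) : M → ℝ := fun P => dl D k * linM (vv D.e k) (periodic_vv D.e k) (D.p k) (D.q k) P

/-- The function `u_k`. -/
noncomputable def uu (k : ℕ) : M → ℝ := linM (ww D.e k) (periodic_ww D.e k) (D.p k) (D.q k)

lemma abs_tm_le (k : ℕ) (P : M) : |tm D k P| ≤ (1 / 2) ^ k / 1000 := by
  obtain ⟨⟨x, y, z⟩, rfl⟩ := surjective_mk P
  have h : tm D k (mk (el x y z)) = dl D k * vv D.e k (D.q k * y - D.p k * x) := rfl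
  show |tm D k (mk (el x y z))| ≤ _
  rw [h, abs_mul]
  exact (mul_le_mul_of_nonneg_left (abs_vv_le D k _) (abs_nonneg _)).trans (dl_B D k)

lemma summable_geo : Summable fun k : ℕ => (1 / 2 : ℝ) ^ k / 1000 :=
  (summable_geometric_of_lt_one (by norm_num) (by norm_num)).div_const _

lemma tsum_geo : ∑' k : ℕ, (1 / 2 : ℝ) ^ k / 1000 = 1 / 500 := by
  rw [tsum_div_const, tsum_geometric_of_lt_one (by norm_num) (by norm_num)]
  norm_num

lemma summable_tm (P : M) : Summable fun k => tm D k P :=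
  Summable.of_norm_bounded summable_geo fun k => abs_tm_le D k P

/-- The function `α`, inverse of the speed of the time change. -/
noncomputable def al (P : M) : ℝ := 1 + ∑' k, tm D k P

lemma abs_tsum_tm_le (P : M) : |∑' k, tm D k P| ≤ 1 / 500 := by
  rw [← tsum_geo, ← Real.norm_eq_abs]
  exact tsum_of_norm_bounded summable_geo.hasSum fun k => abs_tm_le D k P

lemma continuous_tm (k : ℕ) : Continuous (tm D k) :=
  continuous_const.mul (continuous_linM _ _ _ _ (contDiff_vv D.e k).continuous)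

lemma continuous_al : Continuous (al D) := by
  unfold al
  refine continuous_const.add (continuous_tsum (continuous_tm D) summable_geo fun k P => ?_)
  exact abs_tm_le D k P

lemma al_bounds (P : M) : 499 / 500 ≤ al D P ∧ al D P ≤ 501 / 500 := by
  have h := abs_tsum_tm_le D P
  rw [abs_le] at h
  unfold al
  constructor <;> linarith [h.1, h.2]

/-- Smoothness of `α`. -/
lemma contDiff_al : ContDiff ℝ (⊤ : ℕ∞) fun t : ℝ × ℝ × ℝ => al D (mk (el t.1 t.2.1 t.2.2)) := by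
  unfold al
  refine contDiff_const.add ?_
  set L : ℕ → (ℝ × ℝ × ℝ) →L[ℝ] ℝ := fun k =>
    (D.q k : ℝ) • ((ContinuousLinearMap.fst ℝ ℝ ℝ).comp (ContinuousLinearMap.snd ℝ ℝ (ℝ × ℝ)))
      - (D.p k : ℝ) • (ContinuousLinearMap.fst ℝ ℝ (ℝ × ℝ)) with hL
  have hLapp : ∀ k (t : ℝ × ℝ × ℝ), L k t = D.q k * t.2.1 - D.p k * t.1 := fun k t => rfl
  have hLn : ∀ k, ‖L k‖ ≤ 1 + |(D.p k : ℝ)| + |(D.q k : ℝ)| := by
    intro k
    refine ContinuousLinearMap.opNorm_le_bound _ (by positivity) fun t => ?_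
    rw [hLapp, Real.norm_eq_abs]
    have h1 : |t.2.1| ≤ ‖t‖ := (norm_fst_le t.2).trans (norm_snd_le t)
    have h2 : |t.1| ≤ ‖t‖ := norm_fst_le t
    have h3 : |(D.q k : ℝ) * t.2.1 - D.p k * t.1| ≤ |(D.q k : ℝ)| * |t.2.1| + |(D.p k : ℝ)| * |t.1| := by
      rw [← abs_mul, ← abs_mul]
      exact abs_sub _ _
    have h4 := mul_le_mul_of_nonneg_left h1 (abs_nonneg (D.q k : ℝ))
    have h5 := mul_le_mul_of_nonneg_left h2 (abs_nonneg (D.p k : ℝ))
    have h6 := norm_nonneg t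
    nlinarith
  have hfun : (fun t : ℝ × ℝ × ℝ => ∑' k, tm D k (mk (el t.1 t.2.1 t.2.2)))
      = fun t => ∑' k, dl D k * vv D.e k (L k t) := rfl
  rw [hfun]
  refine contDiff_tsum_of_eventually (v := fun _ k => (1 / 2 : ℝ) ^ k / 1000) ?_ (fun n _ => summable_geo)
    fun n _ => ?_
  · intro k
    exact contDiff_const.mul ((contDiff_vv D.e k).comp (L k).contDiff)
  · have hfin : ∀ᶠ k : ℕ in cofinite, n ≤ k := by
      rw [Nat.cofinite_eq_atTop]
      exact eventually_ge_atTop n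
    filter_upwards [hfin] with k hk t
    have h1 : (fun t => dl D k * vv D.e k (L k t)) = fun t => dl D k • (vv D.e k ∘ L k) t := rfl
    rw [h1]
    have hcd : ContDiff ℝ (⊤ : ℕ∞) (vv D.e k ∘ L k) := (contDiff_vv D.e k).comp (L k).contDiff
    have h2 : iteratedFDeriv ℝ n (fun t => dl D k • (vv D.e k ∘ L k) t) t
        = dl D k • iteratedFDeriv ℝ n (vv D.e k ∘ L k) t :=
      iteratedFDeriv_const_smul_apply' (hcd.contDiffAt.of_le (by exact_mod_cast le_top))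
    rw [h2, norm_smul, Real.norm_eq_abs,
      (L k).iteratedFDeriv_comp_right (n := (⊤ : ℕ∞)) (contDiff_vv D.e k) t (by exact_mod_cast le_top)]
    have h3 := ContinuousMultilinearMap.norm_compContinuousLinearMap_le
      (iteratedFDeriv ℝ n (vv D.e k) (L k t)) (fun _ : Fin n => L k)
    rw [Finset.prod_const, Finset.card_univ, Fintype.card_fin] at h3
    have h4 := D.B_bd k n hk (L k t)
    have hQ := one_le_Q D k
    have h5 : ‖L k‖ ^ n ≤ (1 + |(D.p k : ℝ)| + |(D.q k : ℝ)|) ^ k :=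
      (pow_le_pow_left₀ (norm_nonneg _) (hLn k) n).trans (pow_le_pow_right₀ hQ hk)
    have h6 : ‖(iteratedFDeriv ℝ n (vv D.e k) (L k t)).compContinuousLinearMap fun _ : Fin n => L k‖
        ≤ D.B k * (1 + |(D.p k : ℝ)| + |(D.q k : ℝ)|) ^ k :=
      h3.trans (mul_le_mul h4 h5 (by positivity) (B_pos D k).le)
    refine (mul_le_mul_of_nonneg_left h6 (abs_nonneg _)).trans ?_
    rw [← mul_assoc]
    exact dl_lt D k

end Pool.Agent.V11105.HeisTC
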