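import Mathlib
import Pool.Agent.V11105.HeisTC

/-! The cocycle of the time change and its eigenfunction. -/

set_option autoImplicit false
open MeasureTheory Filter Topology

namespace Pool.Agent.V11105.HeisTC2

open HeisBase HeisLin LiouStep HeisTC HeisTorus

variable (D : Dat)

/-- the nilflow -/
noncomputable def fl (t : ℝ) : M → M := nilflow 1 D.θ 0 t

lemma uu_sub (k : ℕ) (t : ℝ) (P : M) :
    ∃ s : ℝ, uu D k P = ww D.e k s ∧ uu D k (fl D t P) = ww D.e k (s + t * dl D k) ∧
      ∀ r, tm D k (fl D r P) = dl D k * vv D.e k (s + r * dl D k) := by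
  obtain ⟨⟨x, y, z⟩, rfl⟩ := surjective_mk P
  refine ⟨D.q k * y - D.p k * x, rfl, ?_, fun r => ?_⟩
  · exact linM_nilflow (ww D.e k) (periodic_ww D.e k) (D.p k) (D.q k) D.θ t x y z
  · have := linM_nilflow (vv D.e k) (periodic_vv D.e k) (D.p k) (D.q k) D.θ r x y z
    show dl D k * linM (vv D.e k) (periodic_vv D.e k) (D.p k) (D.q k)
      (nilflow 1 D.θ 0 r (mk (el x y z))) = _
    rw [this]
    rfl

lemma abs_uu_sub_le (k : ℕ) (t : ℝ) (P : M) :
    |uu D k (fl D t P) - uu D k P| ≤ |t| * (|dl D k| * D.B k) := by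
  obtain ⟨s, h1, h2, -⟩ := uu_sub D k t P
  rw [h1, h2]
  refine (ww_sub_le D k s _).trans ?_
  rw [abs_mul, mul_assoc]

lemma summable_uu_sub (t : ℝ) (P : M) : Summable fun k => uu D k (fl D t P) - uu D k P := by
  refine Summable.of_norm_bounded (summable_geo.mul_left |t|) fun k => ?_
  exact (abs_uu_sub_le D k t P).trans (mul_le_mul_of_nonneg_left (dl_B D k) (abs_nonneg _))

lemma continuous_fl_time (P : M) : Continuous fun r : ℝ => fl D r P :=
  (continuous_nilflow_uncurry 1 D.θ 0).comp (continuous_const.prodMk continuous_id)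

lemma integral_tm (k : ℕ) (t : ℝ) (P : M) :
    ∫ r in (0 : ℝ)..t, tm D k (fl D r P) = uu D k (fl D t P) - uu D k P := by
  obtain ⟨s, h1, h2, h3⟩ := uu_sub D k t P
  rw [h1, h2]
  simp_rw [h3]
  have hder : ∀ r : ℝ, HasDerivAt (fun r => ww D.e k (s + r * dl D k))
      (dl D k * vv D.e k (s + r * dl D k)) r := by
    intro r
    have h4 : HasDerivAt (fun r : ℝ => s + r * dl D k) (dl D k) r := by
      simpa using ((hasDerivAt_id r).mul_const (dl D k)).const_add s
    have h5 := (hasDerivAt_ww D.e k (s + r * dl D k)).comp r h4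
    rw [mul_comm]
    exact h5
  have hcont : Continuous fun r : ℝ => dl D k * vv D.e k (s + r * dl D k) :=
    continuous_const.mul ((contDiff_vv D.e k).continuous.comp (by fun_prop))
  rw [intervalIntegral.integral_eq_sub_of_hasDerivAt (fun r _ => hder r)
    (hcont.intervalIntegrable _ _)]
  simp

/-- The cocycle formula. -/
lemma integral_al (t : ℝ) (P : M) :
    ∫ r in (0 : ℝ)..t, al D (fl D r P) = t + ∑' k, (uu D k (fl D t P) - uu D k P) := by
  unfold al
  set f : ℕ → C(ℝ, ℝ) := fun k => ⟨fun r => tm D k (fl D r P),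
    (continuous_tm D k).comp (continuous_fl_time D P)⟩ with hf
  have hsum : Summable fun k => ‖(f k).restrict (⟨Set.uIcc 0 t, isCompact_uIcc⟩ : TopologicalSpace.Compacts ℝ)‖ := by
    refine Summable.of_nonneg_of_le (fun k => norm_nonneg _) (fun k => ?_) summable_geo
    refine (ContinuousMap.norm_le _ (by positivity)).2 fun r => ?_
    exact abs_tm_le D k _
  have h := intervalIntegral.hasSum_intervalIntegral_of_summable_norm hsum
  have h1 : ∫ r in (0 : ℝ)..t, ∑' k, (f k) r = ∑' k, (uu D k (fl D t P) - uu D k P) := by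
    rw [← h.tsum_eq]
    exact tsum_congr fun k => integral_tm D k t P
  have hc : Continuous fun r : ℝ => ∑' k, tm D k (fl D r P) := by
    have h2 := (continuous_al D).comp (continuous_fl_time D P)
    have h3 : (fun r : ℝ => ∑' k, tm D k (fl D r P)) = fun r => al D (fl D r P) - 1 := by
      ext r
      unfold al
      ring
    rw [h3]
    exact h2.sub continuous_const
  rw [intervalIntegral.integral_add (by simp) (hc.intervalIntegrable _ _)]
  have h2 : ∫ r in (0 : ℝ)..t, ∑' k, tm D k (fl D r P) = ∑' k, (uu D k (fl D t P) - uu D k P) := h1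
  rw [h2]
  simp

/-- The approximate eigenfunctions. -/
noncomputable def FF (n : ℕ) (P : M) : ℂ :=
  fourier 1 (proj P).1 * ∏ k ∈ Finset.range n, Complex.exp (2 * Real.pi * Complex.I * ((uu D k P : ℝ) : ℂ))

lemma continuous_uu (k : ℕ) : Continuous (uu D k) :=
  continuous_linM _ _ _ _ (contDiff_ww D.e k).continuous

lemma continuous_FF (n : ℕ) : Continuous (FF D n) := by
  unfold FF
  have h1 : Continuous fun P : M => (fourier 1 (proj P).1 : ℂ) :=
    (fourier 1).continuous.comp (continuous_fst.comp continuous_proj)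
  refine h1.mul (continuous_finsetProd _ fun k _ => ?_)
  have := continuous_uu D k
  fun_prop

lemma norm_exp_one (u : ℝ) : ‖Complex.exp (2 * Real.pi * Complex.I * ((u : ℝ) : ℂ))‖ = 1 := by
  rw [Complex.norm_exp]
  simp

lemma norm_FF (n : ℕ) (P : M) : ‖FF D n P‖ = 1 := by
  unfold FF
  rw [norm_mul, norm_prod, Finset.prod_eq_one fun k _ => norm_exp_one _, fourier_apply,
    Circle.norm_coe, one_mul]

lemma FF_succ (n : ℕ) (P : M) :
    FF D (n + 1) P = FF D n P * Complex.exp (2 * Real.pi * Complex.I * ((uu D n P : ℝ) : ℂ)) := by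
  unfold FF
  rw [Finset.prod_range_succ]
  ring

lemma FF_fl (n : ℕ) (t : ℝ) (P : M) :
    FF D n (fl D t P) = FF D n P * Complex.exp (2 * Real.pi * Complex.I *
      ((t + ∑ k ∈ Finset.range n, (uu D k (fl D t P) - uu D k P) : ℝ) : ℂ)) := by
  induction n with
  | zero =>
    unfold FF
    simp only [Finset.range_zero, Finset.prod_empty, Finset.sum_empty, mul_one, add_zero]
    have h1 : (proj (fl D t P)).1 = (proj P).1 + ((t : ℝ) : UnitAddCircle) := by
      unfold fl nilflow expo
      rw [proj_rmul, mul_one]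
      rfl
    rw [h1, HeisUE2.fourier_add_right, fourier_coe_apply]
    congr 2
    push_cast
    ring
  | succ n ih =>
    rw [FF_succ, FF_succ, ih, Finset.sum_range_succ]
    set S : ℝ := ∑ k ∈ Finset.range n, (uu D k (fl D t P) - uu D k P) with hS
    have e : Complex.exp (2 * Real.pi * Complex.I * ((t + S : ℝ) : ℂ))
        * Complex.exp (2 * Real.pi * Complex.I * ((uu D n (fl D t P) : ℝ) : ℂ))
        = Complex.exp (2 * Real.pi * Complex.I * ((uu D n P : ℝ) : ℂ))
        * Complex.exp (2 * Real.pi * Complex.I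
          * ((t + (S + (uu D n (fl D t P) - uu D n P)) : ℝ) : ℂ)) := by
      rw [← Complex.exp_add, ← Complex.exp_add]
      congr 1
      push_cast
      ring
    linear_combination (FF D n P) * e

/-- The set on which the approximate eigenfunctions converge. -/
def Om : Set M := {P | ∃ c : ℂ, Tendsto (fun n => FF D n P) atTop (𝓝 c)}

lemma measurableSet_Om : MeasurableSet (Om D) :=
  measurableSet_exists_tendsto fun n => (continuous_FF D n).measurable

lemma tendsto_FF_fl (t : ℝ) (P : M) (c : ℂ) (h : Tendsto (fun n => FF D n P) atTop (𝓝 c)) :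
    Tendsto (fun n => FF D n (fl D t P)) atTop (𝓝 (c * Complex.exp (2 * Real.pi * Complex.I *
      ((∫ r in (0 : ℝ)..t, al D (fl D r P) : ℝ) : ℂ)))) := by
  simp_rw [FF_fl D]
  refine h.mul ?_
  have h1 : Tendsto (fun n => t + ∑ k ∈ Finset.range n, (uu D k (fl D t P) - uu D k P)) atTop
      (𝓝 (∫ r in (0 : ℝ)..t, al D (fl D r P))) := by
    rw [integral_al]
    exact ((summable_uu_sub D t P).hasSum.tendsto_sum_nat).const_add t
  have h2 : Continuous fun u : ℝ => Complex.exp (2 * Real.pi * Complex.I * ((u : ℝ) : ℂ)) := by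
    fun_prop
  exact (h2.tendsto _).comp h1

/-- The set has full measure. -/
lemma ae_mem_Om : ∀ᵐ P ∂haarM, P ∈ Om D := by
  have hc : ∀ k : ℕ, Continuous fun P : M =>
      ‖Complex.exp (2 * Real.pi * Complex.I * ((uu D k P : ℝ) : ℂ)) - 1‖ := by
    intro k
    have := continuous_uu D k
    fun_prop
  have hint : ∀ k : ℕ, ∫ P, ‖Complex.exp (2 * Real.pi * Complex.I * ((uu D k P : ℝ) : ℂ)) - 1‖ ∂haarM
      ≤ (1 / 2) ^ k := by
    intro k
    have hper : Function.Periodic (fun s : ℝ =>
        ‖Complex.exp (2 * Real.pi * Complex.I * ((ww D.e k s : ℝ) : ℂ)) - 1‖) 1 := by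
      intro s
      show ‖Complex.exp (2 * Real.pi * Complex.I * ((ww D.e k (s + 1) : ℝ) : ℂ)) - 1‖ = _
      rw [periodic_ww]
    have hcs : Continuous (fun s : ℝ =>
        ‖Complex.exp (2 * Real.pi * Complex.I * ((ww D.e k s : ℝ) : ℂ)) - 1‖) := by
      have := (contDiff_ww D.e k).continuous
      fun_prop
    have h1 := integral_linM _ hper (D.p k) (D.q k) hcs (D.q_pos k)
    have h2 : ∫ P, ‖Complex.exp (2 * Real.pi * Complex.I * ((uu D k P : ℝ) : ℂ)) - 1‖ ∂haarM
        = ∫ P, linM _ hper (D.p k) (D.q k) P ∂haarM := by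
      refine integral_congr_ae (Eventually.of_forall fun P => ?_)
      obtain ⟨⟨x, y, z⟩, rfl⟩ := surjective_mk P
      rfl
    rw [h2, h1]
    exact D.e_exp k
  have hsum : ∑' k : ℕ, ∫⁻ P, ENNReal.ofReal
      ‖Complex.exp (2 * Real.pi * Complex.I * ((uu D k P : ℝ) : ℂ)) - 1‖ ∂haarM ≠ ⊤ := by
    have hle : ∀ k : ℕ, ∫⁻ P, ENNReal.ofReal
        ‖Complex.exp (2 * Real.pi * Complex.I * ((uu D k P : ℝ) : ℂ)) - 1‖ ∂haarM
        ≤ ENNReal.ofReal ((1 / 2) ^ k) := by
      intro k
      rw [← ofReal_integral_eq_lintegral_ofReal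
        ((hc k).integrable_of_hasCompactSupport (HasCompactSupport.of_compactSpace _))
        (Eventually.of_forall fun P => norm_nonneg _)]
      exact ENNReal.ofReal_le_ofReal (hint k)
    refine ne_top_of_le_ne_top ?_ (ENNReal.tsum_le_tsum hle)
    rw [← ENNReal.ofReal_tsum_of_nonneg (fun k => by positivity)
      (summable_geometric_of_lt_one (by norm_num) (by norm_num))]
    exact ENNReal.ofReal_ne_top
  rw [← lintegral_tsum (fun k => (hc k).measurable.ennreal_ofReal.aemeasurable)] at hsum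
  have h1 := ae_lt_top' (AEMeasurable.tsum fun k =>
      (hc k).measurable.ennreal_ofReal.aemeasurable) hsum
  filter_upwards [h1] with P hP
  have hs : Summable fun k : ℕ =>
      ‖Complex.exp (2 * Real.pi * Complex.I * ((uu D k P : ℝ) : ℂ)) - 1‖ := by
    have h2 := ENNReal.summable_toReal hP.ne
    refine h2.congr fun k => ?_
    rw [ENNReal.toReal_ofReal (norm_nonneg _)]
  have hcau : CauchySeq fun n => FF D n P := by
    refine cauchySeq_of_summable_dist ?_
    refine hs.congr fun n => ?_
    rw [dist_comm, dist_eq_norm, FF_succ]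
    have : FF D n P * Complex.exp (2 * Real.pi * Complex.I * ((uu D n P : ℝ) : ℂ)) - FF D n P
        = FF D n P * (Complex.exp (2 * Real.pi * Complex.I * ((uu D n P : ℝ) : ℂ)) - 1) := by ring
    rw [this, norm_mul, norm_FF, one_mul]
  exact cauchySeq_tendsto_of_complete hcau

end Pool.Agent.V11105.HeisTC2
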