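import Mathlib
import Pool.Agent.V11105.HeisTC2

/-! Measurable non-triviality of the time change. -/

set_option autoImplicit false
open MeasureTheory Filter Topology

namespace Pool.Agent.V11105.HeisTC3

open HeisBase HeisLin LiouStep HeisTC HeisTC2

variable (D : Dat)

lemma periodic_jpw (k : ℕ) :
    Function.Periodic (fun s => |stp (D.e k) (s + 1 / 2) - stp (D.e k) s|) 1 := by
  intro s
  show |stp (D.e k) (s + 1 + 1 / 2) - stp (D.e k) (s + 1)| = |stp (D.e k) (s + 1 / 2) - stp (D.e k) s|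
  rw [periodic_stp, show s + 1 + 1 / 2 = s + 1 / 2 + 1 by ring, periodic_stp]

/-- The jump function of index `k`. -/
noncomputable def jp (k : ℕ) : M → ℝ :=
  linM (fun s => |stp (D.e k) (s + 1 / 2) - stp (D.e k) s|) (periodic_jpw D k) (D.p k) (D.q k)

lemma continuous_jpw (k : ℕ) :
    Continuous (fun s => |stp (D.e k) (s + 1 / 2) - stp (D.e k) s|) := by
  have := (contDiff_stp (D.e k)).continuous
  fun_prop

lemma integral_jp (k : ℕ) : 3 / 4 ≤ ∫ P, jp D k P ∂haarM := by
  have h := integral_linM _ (periodic_jpw D k) (D.p k) (D.q k) (continuous_jpw D k) (D.q_pos k)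
  unfold jp
  rw [h]
  exact D.e_jump k

lemma continuous_jp (k : ℕ) : Continuous (jp D k) := continuous_linM _ _ _ _ (continuous_jpw D k)

lemma jp_bounds (k : ℕ) (P : M) : 0 ≤ jp D k P ∧ jp D k P ≤ 1 := by
  obtain ⟨⟨x, y, z⟩, rfl⟩ := surjective_mk P
  have h : jp D k (mk (el x y z)) = |stp (D.e k) (D.q k * y - D.p k * x + 1 / 2)
    - stp (D.e k) (D.q k * y - D.p k * x)| := rfl
  show 0 ≤ jp D k (mk (el x y z)) ∧ jp D k (mk (el x y z)) ≤ 1
  rw [h]
  refine ⟨abs_nonneg _, ?_⟩
  rw [abs_le]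
  constructor <;> linarith [stp_nonneg (D.e k) (D.q k * y - D.p k * x + 1 / 2),
    stp_le_one (D.e k) (D.q k * y - D.p k * x + 1 / 2), stp_nonneg (D.e k) (D.q k * y - D.p k * x),
    stp_le_one (D.e k) (D.q k * y - D.p k * x)]

/-- The critical times. -/
noncomputable def tk (k : ℕ) : ℝ := 1 / (2 * dl D k)

lemma dl_ne (k : ℕ) : dl D k ≠ 0 := abs_pos.1 (D.d_pos k)

lemma tk_mul (k : ℕ) : tk D k * dl D k = 1 / 2 := by
  unfold tk
  have := dl_ne D k
  field_simp

lemma uu_tk (k : ℕ) (P : M) : |uu D k (fl D (tk D k) P) - uu D k P| = 8 ^ (k + 1) * jp D k P := by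
  obtain ⟨⟨x, y, z⟩, rfl⟩ := surjective_mk P
  have h1 : uu D k (fl D (tk D k) (mk (el x y z)))
      = ww D.e k (D.q k * y - D.p k * x + tk D k * dl D k) :=
    linM_nilflow (ww D.e k) (periodic_ww D.e k) (D.p k) (D.q k) D.θ (tk D k) x y z
  have h2 : uu D k (mk (el x y z)) = ww D.e k (D.q k * y - D.p k * x) := rfl
  have h3 : jp D k (mk (el x y z)) = |stp (D.e k) (D.q k * y - D.p k * x + 1 / 2)
    - stp (D.e k) (D.q k * y - D.p k * x)| := rfl
  show |uu D k (fl D (tk D k) (mk (el x y z))) - uu D k (mk (el x y z))|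
    = 8 ^ (k + 1) * jp D k (mk (el x y z))
  rw [h1, h2, h3, tk_mul]
  unfold ww
  rw [← mul_sub, abs_mul]
  congr 1
  push_cast
  exact abs_of_pos (by positivity)

lemma abs_uu_le (k : ℕ) (t : ℝ) (P : M) : |uu D k (fl D t P) - uu D k P| ≤ 8 ^ (k + 1) := by
  obtain ⟨s, h1, h2, -⟩ := uu_sub D k t P
  rw [h1, h2, abs_le]
  constructor <;> linarith [ww_nonneg D k s, ww_nonneg D k (s + t * dl D k), ww_le D k s,
    ww_le D k (s + t * dl D k)]

lemma sum_low (k : ℕ) (t : ℝ) (P : M) :
    |∑ j ∈ Finset.range k, (uu D j (fl D t P) - uu D j P)| ≤ 8 ^ (k + 1) / 7 := by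
  have h : ∑ j ∈ Finset.range k, (8 : ℝ) ^ (j + 1) ≤ 8 ^ (k + 1) / 7 := by
    induction k with
    | zero => norm_num
    | succ k ih =>
      rw [Finset.sum_range_succ]
      have : (8 : ℝ) ^ (k + 1 + 1) = 8 * 8 ^ (k + 1) := by ring
      rw [this]
      linarith
  exact (Finset.abs_sum_le_sum_abs _ _).trans
    ((Finset.sum_le_sum fun j _ => abs_uu_le D j t P).trans h)

lemma sum_high (k : ℕ) (P : M) :
    |∑' j, (uu D (j + (k + 1)) (fl D (tk D k) P) - uu D (j + (k + 1)) P)| ≤ 1 := by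
  have hb : ∀ j, ‖uu D (j + (k + 1)) (fl D (tk D k) P) - uu D (j + (k + 1)) P‖
      ≤ (1 / 2 : ℝ) ^ j / 1000 := by
    intro j
    rw [Real.norm_eq_abs]
    refine (abs_uu_sub_le D _ _ P).trans ?_
    have h1 := dl_tail D (j := j + (k + 1)) (k := k) (by omega)
    have h2 : |tk D k| * |dl D k| = 1 / 2 := by
      rw [← abs_mul, tk_mul]
      norm_num
    have h3 : |tk D k| * (|dl D (j + (k + 1))| * D.B (j + (k + 1)))
        ≤ |tk D k| * (|dl D k| * ((1 / 2) ^ (j + (k + 1)) / 1000)) :=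
      mul_le_mul_of_nonneg_left h1 (abs_nonneg _)
    rw [← mul_assoc |tk D k| |dl D k|, h2] at h3
    refine h3.trans ?_
    have h4 : (1 / 2 : ℝ) ^ (j + (k + 1)) ≤ (1 / 2) ^ j :=
      pow_le_pow_of_le_one (by norm_num) (by norm_num) (by omega)
    have h5 : (0 : ℝ) ≤ (1 / 2) ^ j := by positivity
    linarith
  have h := tsum_of_norm_bounded summable_geo.hasSum hb
  rw [tsum_geo, Real.norm_eq_abs] at h
  linarith

/-- The cocycle at the critical times. -/
lemma cocycle_tk (c : ℝ) (k : ℕ) (P : M) :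
    ∃ L H : ℝ, |L| ≤ 8 ^ (k + 1) / 7 ∧ |H| ≤ 1 ∧
      ∫ r in (0 : ℝ)..tk D k, (al D (fl D r P) - c)
        = (1 - c) * tk D k + L + (uu D k (fl D (tk D k) P) - uu D k P) + H := by
  refine ⟨∑ j ∈ Finset.range k, (uu D j (fl D (tk D k) P) - uu D j P),
    ∑' j, (uu D (j + (k + 1)) (fl D (tk D k) P) - uu D (j + (k + 1)) P),
    sum_low D k _ P, sum_high D k P, ?_⟩
  have hc : Continuous fun r : ℝ => al D (fl D r P) := (continuous_al D).comp (continuous_fl_time D P)
  rw [intervalIntegral.integral_sub (hc.intervalIntegrable _ _) (by simp), integral_al,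
    intervalIntegral.integral_const, ← (summable_uu_sub D (tk D k) P).sum_add_tsum_nat_add (k + 1),
    Finset.sum_range_succ, smul_eq_mul]
  ring

lemma tk_large (k : ℕ) : 8 ^ (k + 1) * 500 ≤ |tk D k| * (1 / 2) ^ k := by
  have h1 := dl_B D k
  have h2 : |tk D k| * |dl D k| = 1 / 2 := by
    rw [← abs_mul, tk_mul]
    norm_num
  have h3 := D.B_ge k
  have h4 : |dl D k| * 8 ^ (k + 1) ≤ (1 / 2) ^ k / 1000 :=
    (mul_le_mul_of_nonneg_left h3 (abs_nonneg _)).trans h1
  have h5 := mul_le_mul_of_nonneg_left h4 (abs_nonneg (tk D k))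
  have h6 : |tk D k| * (|dl D k| * 8 ^ (k + 1)) = 8 ^ (k + 1) / 2 := by
    rw [← mul_assoc, h2]
    ring
  rw [h6] at h5
  linarith

/-- `α` is not measurably cohomologous to a constant. -/
theorem not_trivial (c : ℝ) (u : M → ℝ) (hu : Measurable u)
    (h : ∀ t : ℝ, ∀ᵐ P ∂haarM, u (fl D t P) - u P = ∫ r in (0 : ℝ)..t, (al D (fl D r P) - c)) :
    False := by
  -- a bound for `u` off a small set
  obtain ⟨K, hK⟩ : ∃ K : ℕ, 15 / 16 < haarM.real {P | |u P| ≤ K} := by
    have hmono : Monotone fun K : ℕ => {P : M | |u P| ≤ K} := by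
      intro a b hab P hP
      have : (a : ℝ) ≤ b := by exact_mod_cast hab
      exact le_trans hP this
    have hU : (⋃ K : ℕ, {P : M | |u P| ≤ K}) = Set.univ := by
      rw [Set.eq_univ_iff_forall]
      intro P
      obtain ⟨K, hK⟩ := exists_nat_ge |u P|
      exact Set.mem_iUnion.2 ⟨K, hK⟩
    have h1 := tendsto_measure_iUnion_atTop (μ := haarM) hmono
    rw [hU, measure_univ] at h1
    have h2 := (ENNReal.tendsto_toReal ENNReal.one_ne_top).comp h1
    rw [ENNReal.toReal_one] at h2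
    exact (h2.eventually (lt_mem_nhds (show (15 / 16 : ℝ) < 1 by norm_num))).exists
  set S : Set M := {P | |u P| ≤ K} with hS
  have hSm : MeasurableSet S := measurableSet_le hu.abs measurable_const
  -- the good set at time `t`
  have hgood : ∀ t : ℝ, ∃ G : Set M, MeasurableSet G ∧ 7 / 8 ≤ haarM.real G ∧
      ∀ P ∈ G, |u (fl D t P) - u P| ≤ 2 * K := by
    intro t
    have hfm : Measurable (fl D t) := (continuous_nilflow 1 D.θ 0 t).measurable
    refine ⟨S ∩ fl D t ⁻¹' S, hSm.inter (hfm hSm), ?_, ?_⟩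
    · have h1 : haarM (fl D t ⁻¹' S) = haarM S := by
        have h2 := HeisInt.map_nilflow_haarM 1 D.θ 0 t
        have h3 : Measure.map (fl D t) haarM S = haarM S := by
          show Measure.map (nilflow 1 D.θ 0 t) haarM S = haarM S
          rw [h2]
        rwa [Measure.map_apply hfm hSm] at h3
      have h2 : haarM.real (fl D t ⁻¹' S) = haarM.real S := by
        unfold Measure.real
        rw [h1]
      have h3 := measureReal_union_add_inter (μ := haarM) (s := S) (hfm hSm)
      have h4 : haarM.real (S ∪ fl D t ⁻¹' S) ≤ 1 := by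
        have := measureReal_mono (μ := haarM) (Set.subset_univ (S ∪ fl D t ⁻¹' S))
        simpa using this
      linarith
    · rintro P ⟨h1, h2⟩
      have h1' : |u P| ≤ K := h1
      have h2' : |u (fl D t P)| ≤ K := h2
      rw [abs_le] at *
      constructor <;> linarith [h1'.1, h1'.2, h2'.1, h2'.2]
  -- the good set at time `tk`
  have hgood2 : ∀ k : ℕ, ∃ G : Set M, MeasurableSet G ∧ 7 / 8 ≤ haarM.real G ∧
      ∀ P ∈ G, |∫ r in (0 : ℝ)..tk D k, (al D (fl D r P) - c)| ≤ 2 * K := by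
    intro k
    obtain ⟨G, hG1, hG2, hG3⟩ := hgood (tk D k)
    obtain ⟨N, hN1, hN2, hN3⟩ := exists_measurable_superset_of_null
      (show haarM {P | ¬ (u (fl D (tk D k) P) - u P = ∫ r in (0 : ℝ)..tk D k, (al D (fl D r P) - c))} = 0
        from h (tk D k))
    refine ⟨G \ N, hG1.diff hN2, ?_, ?_⟩
    · have : haarM.real (G \ N) = haarM.real G := by
        unfold Measure.real
        rw [measure_sdiff_null hN3]
      rw [this]
      exact hG2
    · rintro P ⟨h1, h2⟩
      have h3 : u (fl D (tk D k) P) - u P = ∫ r in (0 : ℝ)..tk D k, (al D (fl D r P) - c) := by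
        by_contra h4
        exact h2 (hN1 h4)
      rw [← h3]
      exact hG3 P h1
  have h8 : Tendsto (fun k : ℕ => (8 : ℝ) ^ (k + 1)) atTop atTop :=
    (tendsto_pow_atTop_atTop_of_one_lt (by norm_num)).comp (tendsto_add_atTop_nat 1)
  by_cases hc : c = 1
  · -- mean one
    obtain ⟨k, hk⟩ := (h8.eventually (eventually_ge_atTop (10 * (2 * K + 1 : ℝ)))).exists
    obtain ⟨G, hG1, hG2, hG3⟩ := hgood2 k
    have hjp : ∀ P ∈ G, jp D k P ≤ 1 / 4 := by
      intro P hP
      obtain ⟨L, H, hL, hH, hLH⟩ := cocycle_tk D c k P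
      have h1 := hG3 P hP
      rw [hLH, hc] at h1
      have h2 := uu_tk D k P
      have h3 : |uu D k (fl D (tk D k) P) - uu D k P| ≤ 2 * K + 8 ^ (k + 1) / 7 + 1 := by
        rw [abs_le] at *
        constructor <;> linarith [h1.1, h1.2, hL.1, hL.2, hH.1, hH.2]
      rw [h2] at h3
      have h4 : (0 : ℝ) < 8 ^ (k + 1) := by positivity
      by_contra h5
      push Not at h5
      nlinarith
    have hint : ∫ P, jp D k P ∂haarM ≤ 1 / 4 + 1 / 8 := by
      have hi : Integrable (jp D k) haarM :=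
        (continuous_jp D k).integrable_of_hasCompactSupport (HasCompactSupport.of_compactSpace _)
      rw [← integral_add_compl hG1 hi]
      have h1 : ∫ P in G, jp D k P ∂haarM ≤ 1 / 4 := by
        have h2 : ∫ P in G, jp D k P ∂haarM ≤ ∫ _P in G, (1 / 4 : ℝ) ∂haarM :=
          setIntegral_mono_on hi.integrableOn (integrable_const _).integrableOn hG1 hjp
        rw [setIntegral_const, smul_eq_mul] at h2
        have h3 : haarM.real G ≤ 1 := by
          have := measureReal_mono (μ := haarM) (Set.subset_univ G)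
          simpa using this
        linarith
      have h2 : ∫ P in Gᶜ, jp D k P ∂haarM ≤ 1 / 8 := by
        have h3 : ∫ P in Gᶜ, jp D k P ∂haarM ≤ ∫ _P in Gᶜ, (1 : ℝ) ∂haarM :=
          setIntegral_mono_on hi.integrableOn (integrable_const _).integrableOn hG1.compl
            (fun P _ => (jp_bounds D k P).2)
        rw [setIntegral_const, smul_eq_mul, mul_one] at h3
        have h4 : haarM.real Gᶜ = 1 - haarM.real G := by
          rw [measureReal_compl hG1]
          simp
        linarith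
      linarith
    have := integral_jp D k
    linarith
  · -- other means
    have hc' : 0 < |1 - c| := abs_pos.2 (sub_ne_zero.2 (Ne.symm hc))
    have h2pow : Tendsto (fun k : ℕ => (2 : ℝ) ^ k) atTop atTop :=
      tendsto_pow_atTop_atTop_of_one_lt (by norm_num)
    obtain ⟨k, hk1, hk2⟩ := ((h8.eventually (eventually_ge_atTop (10 * (2 * K + 1 : ℝ)))).and
      (h2pow.eventually (eventually_ge_atTop (1 / |1 - c|)))).exists
    obtain ⟨G, hG1, hG2, hG3⟩ := hgood2 k
    have hne : G.Nonempty := by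
      rcases Set.eq_empty_or_nonempty G with h1 | h1
      · rw [h1] at hG2
        simp at hG2
        norm_num at hG2
      · exact h1
    obtain ⟨P, hP⟩ := hne
    obtain ⟨L, H, hL, hH, hLH⟩ := cocycle_tk D c k P
    have h1 := hG3 P hP
    rw [hLH] at h1
    have h2 := abs_uu_le D k (tk D k) P
    have h3 := tk_large D k
    have h4 : |1 - c| * |tk D k| ≤ 2 * K + 8 ^ (k + 1) / 7 + 8 ^ (k + 1) + 1 := by
      rw [← abs_mul]
      rw [abs_le] at *
      constructor <;> linarith [h1.1, h1.2, hL.1, hL.2, hH.1, hH.2, h2.1, h2.2]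
    have h5 : (1 : ℝ) ≤ |1 - c| * 2 ^ k := by
      rw [div_le_iff₀ hc'] at hk2
      linarith
    have h6 : (2 : ℝ) ^ k * (1 / 2) ^ k = 1 := by
      rw [← mul_pow]
      norm_num
    have h7 : 8 ^ (k + 1) * 500 ≤ |1 - c| * |tk D k| := by
      have e1 : |1 - c| * |tk D k| = (|1 - c| * 2 ^ k) * (|tk D k| * (1 / 2) ^ k) := by
        calc |1 - c| * |tk D k| = |1 - c| * |tk D k| * (2 ^ k * (1 / 2) ^ k) := by rw [h6, mul_one]
          _ = _ := by ring
      rw [e1]
      have h8' : (0 : ℝ) ≤ |tk D k| * (1 / 2) ^ k := by positivity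
      nlinarith
    have h9 : (0 : ℝ) < 8 ^ (k + 1) := by positivity
    linarith

end Pool.Agent.V11105.HeisTC3
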