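import Mathlib
import Pool.Agent.V11105.HeisTC3

/-! The eigenfunction obstructs (weak) mixing. -/

set_option autoImplicit false
open MeasureTheory Filter Topology

namespace Pool.Agent.V11105.HeisTC4

open HeisBase HeisLin LiouStep HeisTC HeisTC2

variable (D : Dat)

open Classical in
/-- The eigenfunction. -/
noncomputable def gg (P : M) : ℂ := if h : P ∈ Om D then h.choose else 0

lemma tendsto_gg {P : M} (h : P ∈ Om D) : Tendsto (fun n => FF D n P) atTop (𝓝 (gg D P)) := by
  unfold gg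
  rw [dif_pos h]
  exact h.choose_spec

lemma measurable_gg : Measurable (gg D) := by
  refine measurable_of_tendsto_metrizable (f := fun n => (Om D).indicator (FF D n))
    (fun n => (continuous_FF D n).measurable.indicator (measurableSet_Om D)) ?_
  rw [tendsto_pi_nhds]
  intro P
  by_cases h : P ∈ Om D
  · simp_rw [Set.indicator_of_mem h]
    exact tendsto_gg D h
  · simp_rw [Set.indicator_of_notMem h]
    unfold gg
    rw [dif_neg h]
    exact tendsto_const_nhds

lemma norm_gg {P : M} (h : P ∈ Om D) : ‖gg D P‖ = 1 := by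
  have h1 := (tendsto_gg D h).norm
  simp_rw [norm_FF] at h1
  exact (tendsto_nhds_unique h1 tendsto_const_nhds)

lemma fl_mem {P : M} (h : P ∈ Om D) (t : ℝ) : fl D t P ∈ Om D :=
  ⟨_, tendsto_FF_fl D t P _ (tendsto_gg D h)⟩

lemma gg_fl {P : M} (h : P ∈ Om D) (t : ℝ) :
    gg D (fl D t P) = gg D P * Complex.exp (2 * Real.pi * Complex.I *
      ((∫ r in (0 : ℝ)..t, al D (fl D r P) : ℝ) : ℂ)) :=
  tendsto_nhds_unique (tendsto_gg D (fl_mem D h t)) (tendsto_FF_fl D t P _ (tendsto_gg D h))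

lemma norm_exp_sub (u : ℝ) : ‖Complex.exp (2 * Real.pi * Complex.I * ((u : ℝ) : ℂ)) - 1‖ ≤ 7 * |u| := by
  have h := Real.norm_exp_I_mul_ofReal_sub_one_le (x := 2 * Real.pi * u)
  have e : Complex.exp (2 * Real.pi * Complex.I * ((u : ℝ) : ℂ))
      = Complex.exp (Complex.I * ((2 * Real.pi * u : ℝ) : ℂ)) := by
    congr 1
    push_cast
    ring
  rw [e]
  refine h.trans ?_
  rw [Real.norm_eq_abs, abs_mul, abs_of_pos (by positivity : (0 : ℝ) < 2 * Real.pi)]
  have := Real.pi_lt_d2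
  exact mul_le_mul_of_nonneg_right (by linarith) (abs_nonneg _)

/-- The four directions. -/
noncomputable def dir (i : Fin 4) : ℂ := ![1, -1, Complex.I, -Complex.I] i

lemma norm_dir (i : Fin 4) : ‖dir i‖ = 1 := by
  unfold dir
  fin_cases i <;> simp

lemma exists_dir (w : ℂ) (hw : ‖w‖ = 1) : ∃ i, ‖w - dir i‖ < 4 / 5 := by
  by_contra hcon
  push Not at hcon
  have hn : w.re ^ 2 + w.im ^ 2 = 1 := by
    have h := Complex.sq_norm w
    rw [hw, Complex.normSq_apply] at h
    nlinarith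
  have key : ∀ z : ℂ, 4 / 5 ≤ ‖z‖ → 16 / 25 ≤ z.re ^ 2 + z.im ^ 2 := by
    intro z hz
    have h := Complex.sq_norm z
    rw [Complex.normSq_apply] at h
    nlinarith
  have h0 := key _ (hcon 0)
  have h1 := key _ (hcon 1)
  have h2 := key _ (hcon 2)
  have h3 := key _ (hcon 3)
  simp [dir] at h0 h1 h2 h3
  have a1 : w.re ≤ 17 / 25 := by nlinarith
  have a2 : -(17 / 25) ≤ w.re := by nlinarith
  have a3 : w.im ≤ 17 / 25 := by nlinarith
  have a4 : -(17 / 25) ≤ w.im := by nlinarith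
  nlinarith

/-- The set where the eigenfunction is close to the direction `i`. -/
def AA (i : Fin 4) : Set M := {P | P ∈ Om D ∧ ‖gg D P - dir i‖ < 4 / 5}

/-- The set where the eigenfunction is close to the opposite of the direction `i`. -/
def BB (i : Fin 4) : Set M := {P | P ∈ Om D ∧ ‖gg D P + dir i‖ < 41 / 50}

lemma measurableSet_AA (i : Fin 4) : MeasurableSet (AA D i) :=
  (measurableSet_Om D).inter
    (measurableSet_lt ((measurable_gg D).sub_const _).norm measurable_const)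

lemma measurableSet_BB (i : Fin 4) : MeasurableSet (BB D i) :=
  (measurableSet_Om D).inter
    (measurableSet_lt ((measurable_gg D).add_const _).norm measurable_const)

lemma exists_AA_pos : ∃ i, 0 < haarM (AA D i) := by
  by_contra hcon
  push Not at hcon
  have h0 : haarM (⋃ i, AA D i) = 0 := by
    rw [measure_iUnion_null_iff]
    intro i
    exact le_antisymm (hcon i) bot_le
  have h1 : Om D ⊆ ⋃ i, AA D i := by
    intro P hP
    obtain ⟨i, hi⟩ := exists_dir _ (norm_gg D hP)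
    exact Set.mem_iUnion.2 ⟨i, hP, hi⟩
  have h2 : haarM (Om D) = 0 := measure_mono_null h1 h0
  have h3 : haarM (Om D) = 1 := by
    rw [← prob_compl_eq_zero_iff (measurableSet_Om D)]
    exact ae_mem_Om D
  rw [h3] at h2
  exact one_ne_zero h2

lemma integral_half (t : ℝ) (ht : 0 ≤ t) (P : M) :
    499 / 500 * t ≤ ∫ r in (0 : ℝ)..t, al D (fl D r P) ∧
      ∫ r in (0 : ℝ)..t, al D (fl D r P) ≤ 501 / 500 * t := by
  have hc : Continuous fun r : ℝ => al D (fl D r P) := (continuous_al D).comp (continuous_fl_time D P)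
  have e1 : ∀ c : ℝ, ∫ _r in (0 : ℝ)..t, c = c * t := by
    intro c
    rw [intervalIntegral.integral_const, smul_eq_mul]
    ring
  constructor
  · rw [← e1]
    exact intervalIntegral.integral_mono_on ht (by simp) (hc.intervalIntegrable _ _)
      fun r _ => (al_bounds D _).1
  · rw [← e1 (501 / 500)]
    exact intervalIntegral.integral_mono_on ht (hc.intervalIntegrable _ _) (by simp)
      fun r _ => (al_bounds D _).2

lemma AA_subset (i : Fin 4) : AA D i ⊆ fl D (1 / 2) ⁻¹' BB D i := by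
  rintro P ⟨hP, hd⟩
  refine ⟨fl_mem D hP _, ?_⟩
  rw [gg_fl D hP]
  set I0 : ℝ := ∫ r in (0 : ℝ)..(1 / 2), al D (fl D r P) with hI0
  obtain ⟨h1, h2⟩ := integral_half D (1 / 2) (by norm_num) P
  rw [← hI0] at h1 h2
  have e1 : Complex.exp (2 * Real.pi * Complex.I * ((I0 : ℝ) : ℂ))
      = - Complex.exp (2 * Real.pi * Complex.I * ((I0 - 1 / 2 : ℝ) : ℂ)) := by
    have : 2 * Real.pi * Complex.I * ((I0 : ℝ) : ℂ)
        = 2 * Real.pi * Complex.I * ((I0 - 1 / 2 : ℝ) : ℂ) + Real.pi * Complex.I := by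
      push_cast
      ring
    rw [this, Complex.exp_add, Complex.exp_pi_mul_I]
    ring
  rw [e1]
  have h3 := norm_exp_sub (I0 - 1 / 2)
  have h4 : |I0 - 1 / 2| ≤ 1 / 1000 := by
    rw [abs_le]
    constructor <;> linarith
  set z : ℂ := Complex.exp (2 * Real.pi * Complex.I * ((I0 - 1 / 2 : ℝ) : ℂ)) with hz
  have e2 : gg D P * -z + dir i = -(gg D P * (z - 1)) - (gg D P - dir i) := by ring
  rw [e2]
  refine lt_of_le_of_lt (norm_sub_le _ _) ?_
  rw [norm_neg, norm_mul, norm_gg D hP, one_mul]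
  linarith

lemma BB_pos (i : Fin 4) (h : 0 < haarM (AA D i)) : 0 < haarM (BB D i) := by
  have hfm : Measurable (fl D (1 / 2)) := (continuous_nilflow 1 D.θ 0 (1 / 2)).measurable
  have h1 : haarM (fl D (1 / 2) ⁻¹' BB D i) = haarM (BB D i) := by
    have h2 := HeisInt.map_nilflow_haarM 1 D.θ 0 (1 / 2)
    have h3 : Measure.map (fl D (1 / 2)) haarM (BB D i) = haarM (BB D i) := by
      show Measure.map (nilflow 1 D.θ 0 (1 / 2)) haarM (BB D i) = haarM (BB D i)
      rw [h2]
    rwa [Measure.map_apply hfm (measurableSet_BB D i)] at h3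
  rw [← h1]
  exact lt_of_lt_of_le h (measure_mono (AA_subset D i))

lemma exp_nat (n : ℕ) (s : ℝ) : Complex.exp (2 * Real.pi * Complex.I * ((s : ℝ) : ℂ))
    = Complex.exp (2 * Real.pi * Complex.I * ((s - n : ℝ) : ℂ)) := by
  have : 2 * Real.pi * Complex.I * ((s : ℝ) : ℂ)
      = 2 * Real.pi * Complex.I * ((s - n : ℝ) : ℂ) + n * (2 * Real.pi * Complex.I) := by
    push_cast
    ring
  rw [this, Complex.exp_add, Complex.exp_nat_mul_two_pi_mul_I, mul_one]

lemma avoid (i : Fin 4) (n : ℕ) (s : ℝ) (h1 : (n : ℝ) ≤ s) (h2 : s ≤ n + 1 / 40) (P : M)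
    (hP : P ∈ AA D i) (σ : ℝ) (hσ : ∫ r in (0 : ℝ)..σ, al D (fl D r P) = s) :
    fl D σ P ∉ BB D i := by
  rintro ⟨-, hB⟩
  obtain ⟨hO, hA⟩ := hP
  rw [gg_fl D hO, hσ, exp_nat n s] at hB
  have h3 := norm_exp_sub (s - n)
  rw [abs_of_nonneg (by linarith)] at h3
  set z : ℂ := Complex.exp (2 * Real.pi * Complex.I * ((s - n : ℝ) : ℂ)) with hz
  have e2 : 2 * dir i = (gg D P * z + dir i) - gg D P * (z - 1) - (gg D P - dir i) := by ring
  have h4 : ‖2 * dir i‖ = 2 := by
    rw [norm_mul, norm_dir]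
    simp
  have h5 : ‖2 * dir i‖ ≤ ‖gg D P * z + dir i‖ + ‖gg D P * (z - 1)‖ + ‖gg D P - dir i‖ := by
    rw [e2]
    exact (norm_sub_le _ _).trans (add_le_add (norm_sub_le _ _) le_rfl)
  rw [norm_mul (gg D P) (z - 1), norm_gg D hO, one_mul] at h5
  linarith

/-- The two sets. -/
theorem exists_sets : ∃ A B : Set M, MeasurableSet A ∧ MeasurableSet B ∧ 0 < haarM A ∧ 0 < haarM B ∧
    ∀ (n : ℕ) (s : ℝ), (n : ℝ) ≤ s → s ≤ n + 1 / 40 → ∀ P ∈ A, ∀ σ : ℝ,
      ∫ r in (0 : ℝ)..σ, al D (fl D r P) = s → fl D σ P ∉ B := by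
  obtain ⟨i, hi⟩ := exists_AA_pos D
  exact ⟨AA D i, BB D i, measurableSet_AA D i, measurableSet_BB D i, hi, BB_pos D i hi,
    avoid D i⟩

/-- The time change is defined for all times. -/
theorem exists_time (t : ℝ) (P : M) : ∃ s : ℝ, ∫ r in (0 : ℝ)..s, al D (fl D r P) = t := by
  have hc : Continuous fun r : ℝ => al D (fl D r P) := (continuous_al D).comp (continuous_fl_time D P)
  have hcont : Continuous fun s : ℝ => ∫ r in (0 : ℝ)..s, al D (fl D r P) :=
    intervalIntegral.continuous_primitive (fun a b => hc.intervalIntegrable a b) 0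
  refine hcont.surjective ?_ ?_ t
  · refine tendsto_atTop_mono' atTop ?_ (tendsto_id.const_mul_atTop (show (0 : ℝ) < 499 / 500 by norm_num))
    filter_upwards [eventually_ge_atTop (0 : ℝ)] with s hs
    exact (integral_half D s hs P).1
  · refine tendsto_atBot_mono' atBot ?_ (tendsto_id.const_mul_atBot (show (0 : ℝ) < 499 / 500 by norm_num))
    filter_upwards [eventually_le_atBot (0 : ℝ)] with s hs
    have h1 : ∫ r in (0 : ℝ)..s, al D (fl D r P) = - ∫ r in s..(0 : ℝ), al D (fl D r P) :=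
      intervalIntegral.integral_symm _ _
    have h2 : ∫ _r in s..(0 : ℝ), (499 / 500 : ℝ) ≤ ∫ r in s..(0 : ℝ), al D (fl D r P) :=
      intervalIntegral.integral_mono_on hs (by simp) (hc.intervalIntegrable _ _)
        fun r _ => (al_bounds D _).1
    rw [intervalIntegral.integral_const, smul_eq_mul] at h2
    show _ ≤ 499 / 500 * s
    rw [h1]
    linarith

end Pool.Agent.V11105.HeisTC4
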