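import Mathlib

/-! Unique ergodicity of an irrational rotation of the circle `ℝ / ℤ`. -/

set_option autoImplicit false
open MeasureTheory

namespace Pool.Agent.V11105.IetRotation

lemma integral_shift_const (q : ℝ) (hq : Irrational q) (ν : Measure UnitAddCircle)
    [IsFiniteMeasure ν] (hν : Measure.map (fun y => y + (q : UnitAddCircle)) ν = ν)
    (f : BoundedContinuousFunction UnitAddCircle ℝ) (s : UnitAddCircle) :
    ∫ x, f (x + s) ∂ν = ∫ x, f x ∂ν := by
  set g : UnitAddCircle → ℝ := fun s => ∫ x, f (x + s) ∂ν with hg
  have hcont : Continuous g := by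
    refine continuous_of_dominated (bound := fun _ => ‖f‖) ?_ ?_ ?_ ?_
    · intro s
      exact (f.continuous.comp (continuous_id.add continuous_const)).aestronglyMeasurable
    · intro s
      exact Filter.Eventually.of_forall fun x => f.norm_coe_le_norm _
    · exact integrable_const _
    · exact Filter.Eventually.of_forall fun x =>
        f.continuous.comp (continuous_const.add continuous_id)
  have hstep : ∀ s, g (s + (q : UnitAddCircle)) = g s := by
    intro s
    have h1 : ∫ x, f (x + s) ∂ν = ∫ x, f (x + s) ∂(Measure.map (fun y => y + (q : UnitAddCircle)) ν) := by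
      rw [hν]
    have h2 : ∫ x, f (x + s) ∂(Measure.map (fun y => y + (q : UnitAddCircle)) ν)
        = ∫ x, f ((x + (q : UnitAddCircle)) + s) ∂ν := by
      rw [integral_map (by fun_prop)]
      exact (f.continuous.comp (continuous_id.add continuous_const)).aestronglyMeasurable
    show ∫ x, f (x + (s + (q : UnitAddCircle))) ∂ν = ∫ x, f (x + s) ∂ν
    rw [h1, h2]
    congr 1
    ext x
    congr 1
    abel
  have hz : ∀ n : ℤ, g (n • (q : UnitAddCircle)) = g 0 := by
    intro n
    induction n using Int.induction_on with
    | zero => simp
    | succ i ih => rw [add_smul, one_smul, hstep, ih]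
    | pred i ih =>
      rw [← hstep, sub_smul, one_smul, sub_add_cancel, ih]
  have hdense : DenseRange (fun n : ℤ => n • (q : UnitAddCircle)) := by
    have := (AddCircle.denseRange_zsmul_coe_iff (a := q) (p := 1)).2 (by simpa using hq)
    exact this
  have hall : g = fun _ => g 0 := by
    refine hdense.equalizer hcont continuous_const ?_
    ext n
    exact hz n
  have h0 : g 0 = ∫ x, f x ∂ν := by simp [hg]
  rw [← h0]
  exact congrFun hall s

theorem eq_smul_volume (q : ℝ) (hq : Irrational q) (ν : Measure UnitAddCircle)
    [IsFiniteMeasure ν] (hν : Measure.map (fun y => y + (q : UnitAddCircle)) ν = ν) :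
    ν = ν Set.univ • (volume : Measure UnitAddCircle) := by
  have hinv : ∀ s : UnitAddCircle, Measure.map (fun y => s + y) ν = ν := by
    intro s
    haveI : IsFiniteMeasure (Measure.map (fun y => s + y) ν) := by infer_instance
    refine ext_of_forall_integral_eq_of_IsFiniteMeasure (fun f => ?_)
    rw [integral_map (by fun_prop) f.continuous.aestronglyMeasurable]
    rw [← integral_shift_const q hq ν hν f s]
    congr 1
    ext x
    rw [add_comm]
  haveI : ν.IsAddLeftInvariant := ⟨hinv⟩
  have h := Measure.isAddLeftInvariant_eq_smul ν (volume : Measure UnitAddCircle)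
  have h1 : ν Set.univ = (ν.addHaarScalarFactor volume : ENNReal) := by
    conv_lhs => rw [h]
    simp
  rw [h1]
  exact h

end Pool.Agent.V11105.IetRotation
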