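import Mathlib
import Pool.Agent.V11105.IetRotation

/-! A two-storey tower over an irrational rotation, written as an exchange of four intervals. -/

set_option autoImplicit false
open MeasureTheory Set

namespace Pool.Agent.V11105.IetTower

/-- The section of the projection from the line to the circle with values in `[p, p+1)`. -/
noncomputable def sec (p : ℝ) (y : UnitAddCircle) : ℝ :=
  (AddCircle.measurableEquivIco (1 : ℝ) p y : Set.Ico p (p + 1)).1

lemma measurable_sec (p : ℝ) : Measurable (sec p) :=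
  measurable_subtype_coe.comp (AddCircle.measurableEquivIco (1 : ℝ) p).measurable

lemma sec_mem (p : ℝ) (y : UnitAddCircle) : sec p y ∈ Ico p (p + 1) :=
  (AddCircle.measurableEquivIco (1 : ℝ) p y : Set.Ico p (p + 1)).2

lemma coe_sec (p : ℝ) (y : UnitAddCircle) : ((sec p y : ℝ) : UnitAddCircle) = y := by
  have := (AddCircle.equivIco (1 : ℝ) p).symm_apply_apply y
  exact this

lemma sec_coe (p : ℝ) {x : ℝ} (hx : x ∈ Ico p (p + 1)) : sec p (x : UnitAddCircle) = x := by
  have := AddCircle.equivIco_coe_eq (p := (1 : ℝ)) (a := p) hx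
  show ((AddCircle.equivIco (1 : ℝ) p (x : UnitAddCircle) : Set.Ico p (p + 1)) : ℝ) = x
  rw [this]

theorem unique_invariant (p q : ℝ) (hp : 0 < p) (hq : 0 < q) (hpq : p + q = 1)
    (hirr : Irrational q) (T : ℝ → ℝ) (hTm : Measurable T)
    (hT1 : ∀ x, 0 ≤ x → x < p → T x = x + 1)
    (hT2 : ∀ x, p ≤ x → x < 2 * p → T x = x - p)
    (hT3 : ∀ x, 2 * p ≤ x → x < 1 + p → T x = x + q)
    (hT4 : ∀ x, 1 + p ≤ x → x < 2 → T x = x - 1) :
    ∃! μ : Measure ℝ, IsProbabilityMeasure μ ∧ μ ((Ico (0 : ℝ) 2)ᶜ) = 0 ∧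
      Measure.map T μ = μ := by
  -- basic facts
  have hB : ∀ x ∈ Ico p (p + 1), T x ∈ Ico (0 : ℝ) 2 \ Ico p (p + 1) := by
    intro x hx
    rcases lt_or_ge x (2 * p) with h | h
    · rw [hT2 x hx.1 h]
      refine ⟨⟨by linarith [hx.1], by linarith⟩, fun h' => ?_⟩
      linarith [h'.1]
    · rw [hT3 x h (by linarith [hx.2])]
      refine ⟨⟨by linarith [hx.1], by linarith [hx.2]⟩, fun h' => ?_⟩
      linarith [h'.2]
  have hA : ∀ x ∈ Ico (0 : ℝ) 2 \ Ico p (p + 1), T x ∈ Ico p (p + 1) := by
    intro x hx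
    rcases lt_or_ge x p with h | h
    · rw [hT1 x hx.1.1 h]
      exact ⟨by linarith [hx.1.1], by linarith⟩
    · have h2 : 1 + p ≤ x := by
        by_contra h3
        exact hx.2 ⟨h, by linarith⟩
      rw [hT4 x h2 hx.1.2]
      exact ⟨by linarith, by linarith [hx.1.2]⟩
  have hone : ((1 : ℝ) : UnitAddCircle) = 0 := AddCircle.coe_period 1
  have hcA : ∀ x ∈ Ico (0 : ℝ) 2 \ Ico p (p + 1), ((T x : ℝ) : UnitAddCircle) = x := by
    intro x hx
    rcases lt_or_ge x p with h | h
    · rw [hT1 x hx.1.1 h, AddCircle.coe_add, hone, add_zero]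
    · have h2 : 1 + p ≤ x := by
        by_contra h3
        exact hx.2 ⟨h, by linarith⟩
      rw [hT4 x h2 hx.1.2, AddCircle.coe_sub, hone, sub_zero]
  have hcB : ∀ x ∈ Ico p (p + 1), ((T x : ℝ) : UnitAddCircle) = (x : UnitAddCircle) + (q : UnitAddCircle) := by
    intro x hx
    rcases lt_or_ge x (2 * p) with h | h
    · rw [hT2 x hx.1 h]
      have : x - p = x + q - 1 := by linarith
      rw [this, AddCircle.coe_sub, hone, sub_zero, AddCircle.coe_add]
    · rw [hT3 x h (by linarith [hx.2]), AddCircle.coe_add]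
  have hTT : ∀ x ∈ Ico p (p + 1), T (T x) ∈ Ico p (p + 1) := fun x hx => hA _ (hB x hx)
  have hcTT : ∀ x ∈ Ico p (p + 1), ((T (T x) : ℝ) : UnitAddCircle) = (x : UnitAddCircle) + (q : UnitAddCircle) :=
    fun x hx => by rw [hcA _ (hB x hx), hcB x hx]
  have hsecTT : ∀ y : UnitAddCircle, T (T (sec p y)) = sec p (y + (q : UnitAddCircle)) := by
    intro y
    have h1 := hcTT _ (sec_mem p y)
    rw [coe_sec] at h1
    rw [← h1, sec_coe p (hTT _ (sec_mem p y))]
  have hsub : Ico p (p + 1) ⊆ Ico (0 : ℝ) 2 := by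
    intro x hx
    exact ⟨by linarith [hx.1], by linarith [hx.2]⟩
  set ν₀ : Measure UnitAddCircle := (2 : ENNReal)⁻¹ • volume with hν₀
  have hν₀u : ν₀ univ = (2 : ENNReal)⁻¹ := by
    rw [hν₀, Measure.smul_apply, UnitAddCircle.measure_univ, smul_eq_mul, mul_one]
  have hν₀q : Measure.map (fun y : UnitAddCircle => y + (q : UnitAddCircle)) ν₀ = ν₀ := by
    rw [hν₀, Measure.map_smul]
    congr 1
    exact (measurePreserving_add_right volume (q : UnitAddCircle)).map_eq
  set m : Measure ℝ := Measure.map (sec p) ν₀ with hm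
  have hsm := measurable_sec p
  refine ⟨m + Measure.map T m, ⟨?_, ?_, ?_⟩, ?_⟩
  · constructor
    rw [Measure.add_apply, Measure.map_apply hTm MeasurableSet.univ, preimage_univ, hm,
      Measure.map_apply hsm MeasurableSet.univ, preimage_univ, hν₀u, ENNReal.inv_two_add_inv_two]
  · have hms : MeasurableSet ((Ico (0 : ℝ) 2)ᶜ) := measurableSet_Ico.compl
    rw [Measure.add_apply, Measure.map_apply hTm hms, hm, Measure.map_apply hsm hms,
      Measure.map_apply hsm (hTm hms)]
    have e1 : sec p ⁻¹' (Ico (0 : ℝ) 2)ᶜ = ∅ := by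
      ext y
      simp only [mem_preimage, mem_compl_iff, mem_empty_iff_false, iff_false, not_not]
      exact hsub (sec_mem p y)
    have e2 : sec p ⁻¹' (T ⁻¹' (Ico (0 : ℝ) 2)ᶜ) = ∅ := by
      ext y
      simp only [mem_preimage, mem_compl_iff, mem_empty_iff_false, iff_false, not_not]
      exact (hB _ (sec_mem p y)).1
    rw [e1, e2]
    simp
  · rw [Measure.map_add _ _ hTm, Measure.map_map hTm hTm, add_comm]
    congr 1
    rw [hm, Measure.map_map (hTm.comp hTm) hsm]
    have : (T ∘ T) ∘ sec p = sec p ∘ (fun y : UnitAddCircle => y + (q : UnitAddCircle)) := by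
      ext y
      exact hsecTT y
    rw [this, ← Measure.map_map hsm (by fun_prop), hν₀q]
  · rintro μ ⟨hμp, hμs, hμT⟩
    set B : Set ℝ := Ico p (p + 1) with hBdef
    have hBm : MeasurableSet B := measurableSet_Ico
    have hae : ∀ᵐ x ∂μ, x ∈ Ico (0 : ℝ) 2 := by
      rw [ae_iff]; exact hμs
    have hTB : μ.restrict (T ⁻¹' B) = μ.restrict Bᶜ := by
      refine Measure.restrict_congr_set ?_
      filter_upwards [hae] with x hx
      apply propext
      constructor
      · intro h h'
        exact (hB x h').2 h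
      · intro h
        exact hA x ⟨hx, h⟩
    have hTBc : μ.restrict (T ⁻¹' Bᶜ) = μ.restrict B := by
      refine Measure.restrict_congr_set ?_
      filter_upwards [hae] with x hx
      apply propext
      constructor
      · intro h
        by_contra h'
        exact h (hA x ⟨hx, h'⟩)
      · intro h
        exact (hB x h).2
    have h1 : μ.restrict B = Measure.map T (μ.restrict Bᶜ) := by
      conv_lhs => rw [← hμT]
      rw [Measure.restrict_map hTm hBm, hTB]
    have h2 : μ.restrict Bᶜ = Measure.map T (μ.restrict B) := by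
      conv_lhs => rw [← hμT]
      rw [Measure.restrict_map hTm hBm.compl, hTBc]
    set ν : Measure UnitAddCircle := Measure.map (fun x : ℝ => (x : UnitAddCircle)) (μ.restrict B) with hν
    have hcm : Measurable (fun x : ℝ => (x : UnitAddCircle)) := AddCircle.measurable_mk'
    have hνq : Measure.map (fun y => y + (q : UnitAddCircle)) ν = ν := by
      have e3 : ν = Measure.map (fun x : ℝ => ((T (T x) : ℝ) : UnitAddCircle)) (μ.restrict B) := by
        conv_lhs => rw [hν, h1, h2]
        rw [Measure.map_map hTm hTm, Measure.map_map hcm (hTm.comp hTm)]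
        rfl
      rw [hν, Measure.map_map (by fun_prop) hcm, ← hν, e3]
      refine Measure.map_congr ?_
      filter_upwards [ae_restrict_mem hBm] with x hx
      exact (hcTT x hx).symm
    have hνe := IetRotation.eq_smul_volume q hirr ν hνq
    have hνu : ν univ = μ B := by
      rw [hν, Measure.map_apply hcm MeasurableSet.univ, preimage_univ, Measure.restrict_apply MeasurableSet.univ,
        univ_inter]
    have hBc : μ Bᶜ = μ B := by
      have : (μ.restrict Bᶜ) univ = (Measure.map T (μ.restrict B)) univ := by rw [← h2]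
      rw [Measure.map_apply hTm MeasurableSet.univ, preimage_univ, Measure.restrict_apply MeasurableSet.univ,
        Measure.restrict_apply MeasurableSet.univ, univ_inter, univ_inter] at this
      exact this
    have hBhalf : μ B = (2 : ENNReal)⁻¹ := by
      have h3 : μ B + μ Bᶜ = 1 := by
        rw [measure_add_measure_compl hBm]; exact measure_univ
      rw [hBc, ← two_mul] at h3
      exact ENNReal.eq_inv_of_mul_eq_one_left (by rw [mul_comm]; exact h3)
    have hνeq : ν = ν₀ := by rw [hνe, hνu, hBhalf]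
    have hrec : μ.restrict B = m := by
      rw [hm, ← hνeq, hν, Measure.map_map hsm hcm]
      conv_lhs => rw [← Measure.map_id (μ := μ.restrict B)]
      refine Measure.map_congr ?_
      filter_upwards [ae_restrict_mem hBm] with x hx
      exact (sec_coe p hx).symm
    rw [← hrec, ← h2]
    exact (Measure.restrict_add_restrict_compl hBm).symm

end Pool.Agent.V11105.IetTower
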