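import Mathlib

set_option autoImplicit false
set_option maxHeartbeats 4000000

namespace Pool.Agent.V11105.BT

open Finset

/-- parameters -/
structure Par (α β : ℝ) : Prop where
  b1 : 1 < β
  a0 : 0 ≤ α
  ab : α + β ≤ 2

/-- the map -/
noncomputable def T (α β : ℝ) (x : ℝ) : ℝ := Int.fract (β * x + α)

/-- the critical point -/
noncomputable def cc (α β : ℝ) : ℝ := (1 - α) / β

variable {α β : ℝ}

theorem T_nonneg (x : ℝ) : 0 ≤ T α β x := Int.fract_nonneg _
theorem T_lt (x : ℝ) : T α β x < 1 := Int.fract_lt_one _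

theorem cc_mul (h : Par α β) : β * cc α β = 1 - α := by
  have := h.b1
  unfold cc
  field_simp

theorem cc_pos (h : Par α β) : 0 < cc α β := by
  have := h.b1
  have := h.ab
  unfold cc
  apply div_pos <;> linarith

theorem cc_lt (h : Par α β) : cc α β < 1 := by
  have := h.b1
  have := h.a0
  unfold cc
  rw [div_lt_one (by linarith)]
  linarith

theorem T_lo (h : Par α β) {x : ℝ} (h0 : 0 ≤ x) (hx : x < cc α β) : T α β x = β * x + α := by
  have hb := h.b1
  have ha := h.a0
  have hc := cc_mul h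
  unfold T
  rw [Int.fract_eq_self]
  constructor
  · positivity
  · nlinarith

theorem T_hi (h : Par α β) {x : ℝ} (hx : cc α β ≤ x) (h1 : x < 1) : T α β x = β * x + α - 1 := by
  have hb := h.b1
  have ha := h.a0
  have hab := h.ab
  have hc := cc_mul h
  unfold T
  rw [Int.fract_eq_iff]
  refine ⟨by nlinarith, by nlinarith, 1, by push_cast; ring⟩

theorem T_cc (h : Par α β) : T α β (cc α β) = 0 := by
  rw [T_hi h le_rfl (cc_lt h), cc_mul h]
  ring

/-- lower branch preimage -/
theorem pre_lo (h : Par α β) {y : ℝ} (h0 : α ≤ y) (h1 : y < 1) :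
    0 ≤ (y - α) / β ∧ (y - α) / β < cc α β ∧ T α β ((y - α) / β) = y := by
  have hb : 0 < β := by linarith [h.b1]
  have a1 : 0 ≤ (y - α) / β := div_nonneg (by linarith) hb.le
  have a2 : (y - α) / β < cc α β := by
    unfold cc
    exact div_lt_div_of_pos_right (by linarith) hb
  refine ⟨a1, a2, ?_⟩
  rw [T_lo h a1 a2]
  field_simp
  ring

/-- upper branch preimage -/
theorem pre_hi (h : Par α β) {y : ℝ} (h0 : 0 ≤ y) (h1 : y < α + β - 1) :
    cc α β ≤ (y + 1 - α) / β ∧ (y + 1 - α) / β < 1 ∧ T α β ((y + 1 - α) / β) = y := by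
  have hb : 0 < β := by linarith [h.b1]
  have a1 : cc α β ≤ (y + 1 - α) / β := by
    unfold cc
    exact div_le_div_of_nonneg_right (by linarith) hb.le
  have a2 : (y + 1 - α) / β < 1 := by
    rw [div_lt_one hb]
    linarith
  refine ⟨a1, a2, ?_⟩
  rw [T_hi h a1 a2]
  field_simp
  ring

/-- every point has a preimage in `(0,1)` -/
theorem pre_any (h : Par α β) {y : ℝ} (h0 : 0 ≤ y) (h1 : y < 1) :
    ∃ x, 0 < x ∧ x < 1 ∧ T α β x = y := by
  have hb := h.b1
  have hc := cc_pos h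
  have hc1 := cc_lt h
  rcases lt_or_ge α y with hy | hy
  · obtain ⟨a, b, c⟩ := pre_lo h hy.le h1
    refine ⟨_, ?_, by linarith, c⟩
    apply div_pos <;> linarith
  · obtain ⟨a, b, c⟩ := pre_hi h h0 (by linarith : y < α + β - 1)
    exact ⟨_, by linarith, b, c⟩

/-- transitivity on intervals -/
def Trans (α β : ℝ) : Prop := ∀ a b a' b' : ℝ, 0 ≤ a → a < b → b ≤ 1 → 0 ≤ a' → a' < b' → b' ≤ 1 →
  ∃ n : ℕ, ∃ x, a < x ∧ x < b ∧ a' < (T α β)^[n] x ∧ (T α β)^[n] x < b'

end Pool.Agent.V11105.BT
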