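import Pool.Agent.V11105.BTb

set_option autoImplicit false
set_option maxHeartbeats 4000000

namespace Pool.Agent.V11105.BT

open Finset

variable {α β : ℝ}

section Dset

/-- distance to the next point of `D` -/
noncomputable def nx (D : Finset ℝ) (v : ℝ) (y : ℝ) : ℝ :=
  open Classical in
  if h : (D.filter (fun d => y < d)).Nonempty then (D.filter (fun d => y < d)).min' h - y
  else 1 - y + v

/-- distance to the previous point of `D` -/
noncomputable def pv (D : Finset ℝ) (u : ℝ) (y : ℝ) : ℝ :=
  open Classical in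
  if h : (D.filter (fun d => d ≤ y)).Nonempty then y - (D.filter (fun d => d ≤ y)).max' h
  else 1 - u + y

theorem nx_eq (D : Finset ℝ) (v y d' : ℝ) (h1 : d' ∈ D) (h2 : y < d')
    (h3 : ∀ d ∈ D, y < d → d' ≤ d) : nx D v y = d' - y := by
  classical
  unfold nx
  have hm : d' ∈ D.filter (fun d => y < d) := by simp [h1, h2]
  rw [dif_pos ⟨d', hm⟩]
  congr 1
  apply le_antisymm
  · exact Finset.min'_le _ _ (by convert hm)
  · apply Finset.le_min'
    intro d hd
    simp only [mem_filter] at hd
    exact h3 d hd.1 hd.2

theorem nx_top (D : Finset ℝ) (v y : ℝ) (h3 : ∀ d ∈ D, d ≤ y) : nx D v y = 1 - y + v := by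
  classical
  unfold nx
  rw [dif_neg]
  rintro ⟨d, hd⟩
  simp only [mem_filter] at hd
  have := h3 d hd.1
  linarith [hd.2]

theorem pv_eq (D : Finset ℝ) (u y d' : ℝ) (h1 : d' ∈ D) (h2 : d' ≤ y)
    (h3 : ∀ d ∈ D, d ≤ y → d ≤ d') : pv D u y = y - d' := by
  classical
  unfold pv
  have hm : d' ∈ D.filter (fun d => d ≤ y) := by simp [h1, h2]
  rw [dif_pos ⟨d', hm⟩]
  congr 1
  apply le_antisymm
  · apply Finset.max'_le
    intro d hd
    simp only [mem_filter] at hd
    exact h3 d hd.1 hd.2
  · exact Finset.le_max' _ _ (by convert hm)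

theorem pv_bot (D : Finset ℝ) (u y : ℝ) (h3 : ∀ d ∈ D, y < d) : pv D u y = 1 - u + y := by
  classical
  unfold pv
  rw [dif_neg]
  rintro ⟨d, hd⟩
  simp only [mem_filter] at hd
  have := h3 d hd.1
  linarith [hd.2]

theorem exists_next (D : Finset ℝ) (y : ℝ) (h : ∃ d ∈ D, y < d) :
    ∃ d' ∈ D, y < d' ∧ ∀ d ∈ D, y < d → d' ≤ d := by
  classical
  obtain ⟨d, hd, hyd⟩ := h
  have hne : (D.filter (fun d => y < d)).Nonempty := ⟨d, by simp [hd, hyd]⟩
  have hm := Finset.min'_mem _ hne
  simp only [mem_filter] at hm
  exact ⟨_, hm.1, hm.2, fun d hd hyd => Finset.min'_le _ _ (by simp [hd, hyd])⟩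

theorem exists_prev (D : Finset ℝ) (y : ℝ) (h : ∃ d ∈ D, d ≤ y) :
    ∃ d' ∈ D, d' ≤ y ∧ ∀ d ∈ D, d ≤ y → d ≤ d' := by
  classical
  obtain ⟨d, hd, hyd⟩ := h
  have hne : (D.filter (fun d => d ≤ y)).Nonempty := ⟨d, by simp [hd, hyd]⟩
  have hm := Finset.max'_mem _ hne
  simp only [mem_filter] at hm
  exact ⟨_, hm.1, hm.2, fun d hd hyd => Finset.le_max' _ _ (by simp [hd, hyd])⟩

theorem final_D (h : Par α β) (htr : Trans α β) (D : Finset ℝ) (hne : D.Nonempty)
    (h01 : ∀ d ∈ D, 0 < d ∧ d < 1)
    (hP : ∀ x, 0 < x → x < 1 → (T α β x ∈ D ↔ x ∈ D))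
    (hinj : ∀ x ∈ D, ∀ y ∈ D, T α β x = T α β y → x = y) :
    ∃ q : ℕ, 1 ≤ q ∧ β ^ q = 2 ∧ (T α β)^[q] α = α := by
  have hb := h.b1
  have ha := h.a0
  have hab := h.ab
  have hbpos : 0 < β := by linarith
  have hc0 := cc_pos h
  have hc1 := cc_lt h
  have hcm := cc_mul h
  -- branch preimages lie in D
  have preLo : ∀ d ∈ D, α < d → (d - α) / β ∈ D := by
    intro d hd had
    obtain ⟨a1, a2, a3⟩ := pre_lo h had.le (h01 d hd).2
    have a4 : 0 < (d - α) / β := div_pos (by linarith) hbpos
    rw [← hP _ a4 (by linarith), a3]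
    exact hd
  have preHi : ∀ d ∈ D, d < α + β - 1 → (d + 1 - α) / β ∈ D := by
    intro d hd had
    obtain ⟨a1, a2, a3⟩ := pre_hi h (h01 d hd).1.le had
    rw [← hP _ (by linarith) a2, a3]
    exact hd
  have hTD : ∀ d ∈ D, T α β d ∈ D := fun d hd => (hP d (h01 d hd).1 (h01 d hd).2).2 hd
  have F1 : ∀ d ∈ D, ¬ (α < d ∧ d < α + β - 1) := by
    rintro d hd ⟨h1, h2⟩
    obtain ⟨a1, a2, a3⟩ := pre_lo h h1.le (h01 d hd).2
    obtain ⟨b1, b2, b3⟩ := pre_hi h (h01 d hd).1.le h2
    have := hinj _ (preLo d hd h1) _ (preHi d hd h2) (by rw [a3, b3])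
    linarith
  have F2 : cc α β ∉ D := by
    intro hc
    have := hTD _ hc
    rw [T_cc h] at this
    exact lt_irrefl _ (h01 0 this).1
  set v := D.min' hne with hv
  set u := D.max' hne with hu
  have hvD : v ∈ D := Finset.min'_mem _ _
  have huD : u ∈ D := Finset.max'_mem _ _
  have hvle : ∀ d ∈ D, v ≤ d := fun d hd => Finset.min'_le _ _ hd
  have hule : ∀ d ∈ D, d ≤ u := fun d hd => Finset.le_max' _ _ hd
  have hv01 := h01 v hvD
  have hu01 := h01 u huD
  have F3 : v < cc α β := by
    rcases lt_trichotomy v (cc α β) with hlt | heq | hgt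
    · exact hlt
    · exact absurd (heq ▸ hvD) F2
    · exfalso
      have h1 := hvle _ (hTD v hvD)
      rw [T_hi h hgt.le hv01.2] at h1
      nlinarith
  have F4 : cc α β < u := by
    rcases lt_trichotomy u (cc α β) with hlt | heq | hgt
    · exfalso
      have h1 := hule _ (hTD u huD)
      rw [T_lo h hu01.1.le hlt] at h1
      nlinarith
    · exact absurd (heq ▸ huD) F2
    · exact hgt
  have hTu : T α β u = β * u + α - 1 := T_hi h F4.le hu01.2
  have hTv : T α β v = β * v + α := T_lo h hv01.1.le F3
  have F5a : T α β u ≤ α := by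
    by_contra hcon
    push Not at hcon
    exact F1 _ (hTD u huD) ⟨hcon, by rw [hTu]; nlinarith⟩
  have F5b : α + β - 1 ≤ T α β v := by
    by_contra hcon
    push Not at hcon
    exact F1 _ (hTD v hvD) ⟨by rw [hTv]; nlinarith, hcon⟩
  have F6 : ∀ d ∈ D, T α β u < d → T α β v ≤ d := by
    intro d hd h1
    by_contra hcon
    push Not at hcon
    rcases lt_or_ge α d with h2 | h2
    · have := hvle _ (preLo d hd h2)
      rw [le_div_iff₀ hbpos] at this
      rw [hTv] at hcon
      linarith
    · have := hule _ (preHi d hd (by linarith))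
      rw [div_le_iff₀ hbpos] at this
      rw [hTu] at h1
      linarith
  -- next-point function
  have F8 : ∀ y, 0 ≤ y → y < u → nx D v (T α β y) = β * nx D v y := by
    intro y hy0 hyu
    obtain ⟨d', hd', hyd', hmin⟩ := exists_next D y ⟨u, huD, hyu⟩
    rw [nx_eq D v y d' hd' hyd' hmin]
    have hd01 := h01 d' hd'
    rcases lt_trichotomy d' (cc α β) with hlt | heq | hgt
    · have e1 : T α β y = β * y + α := T_lo h hy0 (by linarith)
      have e2 : T α β d' = β * d' + α := T_lo h hd01.1.le hlt
      rw [nx_eq D v (T α β y) (T α β d') (hTD d' hd') (by rw [e1, e2]; nlinarith), e1, e2]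
      · ring
      · intro d hd hyd
        by_contra hcon
        push Not at hcon
        rw [e1] at hyd
        rw [e2] at hcon
        have hx := preLo d hd (by nlinarith)
        have h1 : y < (d - α) / β := by rw [lt_div_iff₀ hbpos]; linarith
        have h2 := hmin _ hx h1
        rw [le_div_iff₀ hbpos] at h2
        linarith
    · exact absurd (heq ▸ hd') F2
    · rcases lt_or_ge y (cc α β) with hyc | hyc
      · have e1 : T α β y = β * y + α := T_lo h hy0 hyc
        have e2 : T α β d' = β * d' + α - 1 := T_hi h hgt.le hd01.2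
        have e3 : v = T α β d' := by
          apply le_antisymm (hvle _ (hTD d' hd'))
          by_contra hcon
          push Not at hcon
          rw [e2] at hcon
          have hx := preHi v hvD (by nlinarith)
          obtain ⟨b1, b2, b3⟩ := pre_hi h hv01.1.le (by nlinarith : v < α + β - 1)
          have h2 := hmin _ hx (by linarith)
          rw [le_div_iff₀ hbpos] at h2
          linarith
        rw [nx_top]
        · rw [e1]
          rw [e2] at e3
          rw [e3]
          ring
        · intro d hd
          by_contra hcon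
          push Not at hcon
          rw [e1] at hcon
          have hx := preLo d hd (by nlinarith)
          obtain ⟨b1, b2, b3⟩ := pre_lo h (by nlinarith : α ≤ d) (h01 d hd).2
          have h1 : y < (d - α) / β := by rw [lt_div_iff₀ hbpos]; linarith
          have h2 := hmin _ hx h1
          linarith
      · have e1 : T α β y = β * y + α - 1 := T_hi h hyc (by linarith)
        have e2 : T α β d' = β * d' + α - 1 := T_hi h hgt.le hd01.2
        rw [nx_eq D v (T α β y) (T α β d') (hTD d' hd') (by rw [e1, e2]; nlinarith), e1, e2]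
        · ring
        · intro d hd hyd
          by_contra hcon
          push Not at hcon
          rw [e1] at hyd
          rw [e2] at hcon
          have hx := preHi d hd (by nlinarith)
          have h1 : y < (d + 1 - α) / β := by rw [lt_div_iff₀ hbpos]; linarith
          have h2 := hmin _ hx h1
          rw [le_div_iff₀ hbpos] at h2
          linarith
  have F9' : ∀ z, T α β u ≤ z → z < T α β v → nx D v z = T α β v - z := by
    intro z h1 h2
    apply nx_eq D v z _ (hTD v hvD) h2
    intro d hd hzd
    exact F6 d hd (by linarith)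
  have F9 : ∀ y, u ≤ y → y < 1 → nx D v (T α β y) = T α β v - T α β y := by
    intro y h1 h2
    have e1 : T α β y = β * y + α - 1 := T_hi h (by linarith) h2
    apply F9'
    · rw [e1, hTu]; nlinarith
    · rw [e1]; nlinarith
  have F11' : ∀ z, T α β u ≤ z → z < T α β v → pv D u z = z - T α β u := by
    intro z h1 h2
    apply pv_eq D u z _ (hTD u huD) h1
    intro d hd hzd
    by_contra hcon
    push Not at hcon
    have := F6 d hd hcon
    linarith
  have F10 : ∀ y, v ≤ y → y < 1 → pv D u (T α β y) = β * pv D u y := by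
    intro y hvy hy1
    obtain ⟨d', hd', hyd', hmax⟩ := exists_prev D y ⟨v, hvD, hvy⟩
    rw [pv_eq D u y d' hd' hyd' hmax]
    have hd01 := h01 d' hd'
    rcases lt_or_ge y (cc α β) with hyc | hyc
    · have e1 : T α β y = β * y + α := T_lo h (by linarith) hyc
      have e2 : T α β d' = β * d' + α := T_lo h hd01.1.le (by linarith)
      rw [pv_eq D u (T α β y) (T α β d') (hTD d' hd') (by rw [e1, e2]; nlinarith), e1, e2]
      · ring
      · intro d hd hyd
        by_contra hcon
        push Not at hcon
        rw [e1] at hyd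
        rw [e2] at hcon
        have hx := preLo d hd (by nlinarith)
        have h1 : (d - α) / β ≤ y := by rw [div_le_iff₀ hbpos]; linarith
        have h2 := hmax _ hx h1
        rw [div_le_iff₀ hbpos] at h2
        linarith
    · rcases lt_trichotomy d' (cc α β) with hlt | heq | hgt
      · have e1 : T α β y = β * y + α - 1 := T_hi h hyc hy1
        have e2 : T α β d' = β * d' + α := T_lo h hd01.1.le hlt
        have e3 : u = T α β d' := by
          apply le_antisymm _ (hule _ (hTD d' hd'))
          by_contra hcon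
          push Not at hcon
          rw [e2] at hcon
          have hx := preLo u huD (by nlinarith)
          obtain ⟨b1, b2, b3⟩ := pre_lo h (by nlinarith : α ≤ u) hu01.2
          have h2 := hmax _ hx (by linarith)
          rw [div_le_iff₀ hbpos] at h2
          linarith
        rw [pv_bot]
        · rw [e1]
          rw [e2] at e3
          rw [e3]
          ring
        · intro d hd
          by_contra hcon
          push Not at hcon
          rw [e1] at hcon
          have hx := preHi d hd (by nlinarith)
          obtain ⟨b1, b2, b3⟩ := pre_hi h (h01 d hd).1.le (by nlinarith : d < α + β - 1)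
          have h1 : (d + 1 - α) / β ≤ y := by rw [div_le_iff₀ hbpos]; linarith
          have h2 := hmax _ hx h1
          linarith
      · exact absurd (heq ▸ hd') F2
      · have e1 : T α β y = β * y + α - 1 := T_hi h hyc hy1
        have e2 : T α β d' = β * d' + α - 1 := T_hi h hgt.le hd01.2
        rw [pv_eq D u (T α β y) (T α β d') (hTD d' hd') (by rw [e1, e2]; nlinarith), e1, e2]
        · ring
        · intro d hd hyd
          by_contra hcon
          push Not at hcon
          rw [e1] at hyd
          rw [e2] at hcon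
          have hx := preHi d hd (by nlinarith)
          have h1 : (d + 1 - α) / β ≤ y := by rw [div_le_iff₀ hbpos]; linarith
          have h2 := hmax _ hx h1
          rw [div_le_iff₀ hbpos] at h2
          linarith
  have F11 : ∀ y, 0 ≤ y → y < v → pv D u (T α β y) = T α β y - T α β u := by
    intro y h1 h2
    have e1 : T α β y = β * y + α := T_lo h h1 (by linarith)
    apply F11'
    · rw [e1]; nlinarith
    · rw [e1, hTv]; nlinarith
  have pvnn : ∀ y, 0 ≤ y → 0 ≤ pv D u y := by
    intro y hy
    by_cases hex : ∃ d ∈ D, d ≤ y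
    · obtain ⟨d', hd', hyd', hmax⟩ := exists_prev D y hex
      rw [pv_eq D u y d' hd' hyd' hmax]; linarith
    · push Not at hex
      rw [pv_bot D u y hex]; linarith
  have nxnn : ∀ y, y < 1 → 0 ≤ nx D v y ∧ (0 ≤ y → nx D v y ≤ 2) := by
    intro y hy
    by_cases hex : ∃ d ∈ D, y < d
    · obtain ⟨d', hd', hyd', hmin⟩ := exists_next D y hex
      rw [nx_eq D v y d' hd' hyd' hmin]
      have := h01 d' hd'
      exact ⟨by linarith, fun _ => by linarith⟩
    · push Not at hex
      rw [nx_top D v y hex]
      exact ⟨by linarith, fun _ => by linarith⟩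
  have hiter : ∀ (n : ℕ) (x : ℝ), 0 ≤ x → x < 1 → 0 ≤ (T α β)^[n] x ∧ (T α β)^[n] x < 1 := by
    intro n x h0 h1
    rcases Nat.eq_zero_or_pos n with hn | hn
    · subst hn; exact ⟨h0, h1⟩
    · obtain ⟨m, rfl⟩ : ∃ m, n = m + 1 := ⟨n - 1, by omega⟩
      rw [Function.iterate_succ_apply']
      exact ⟨T_nonneg _, T_lt _⟩
  have hTu0 : 0 ≤ T α β u := T_nonneg _
  have hTv1 : T α β v < 1 := T_lt _
  have F12 : T α β u = α := by
    apply le_antisymm F5a
    by_contra hcon
    push Not at hcon
    have hback : ∀ (n : ℕ) (x : ℝ), 0 ≤ x → x < 1 →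
        pv D u ((T α β)^[n] x) < α - T α β u → pv D u x < α - T α β u := by
      intro n
      induction n with
      | zero => intro x _ _ hx; exact hx
      | succ n ih =>
        intro x h0 h1 hx
        rw [Function.iterate_succ_apply'] at hx
        obtain ⟨b0, b1⟩ := hiter n x h0 h1
        apply ih x h0 h1
        rcases lt_or_ge ((T α β)^[n] x) v with h2 | h2
        · exfalso
          rw [F11 _ b0 h2, T_lo h b0 (by linarith)] at hx
          nlinarith
        · rw [F10 _ h2 b1] at hx
          have := pvnn _ b0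
          nlinarith
    obtain ⟨n, x, hx1, hx2, hx3, hx4⟩ := htr α (α + β - 1) (T α β u) α ha (by linarith)
      (by linarith) hTu0 hcon (by linarith)
    have h1 := hback n x (by linarith) (by linarith) (by
      rw [F11' _ hx3.le (by linarith)]
      linarith)
    rw [F11' x (by linarith) (by linarith)] at h1
    linarith
  have F13 : T α β v = α + β - 1 := by
    apply le_antisymm _ F5b
    by_contra hcon
    push Not at hcon
    have hback : ∀ (n : ℕ) (x : ℝ), 0 ≤ x → x < 1 →
        nx D v ((T α β)^[n] x) < T α β v - (α + β - 1) → nx D v x < T α β v - (α + β - 1) := by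
      intro n
      induction n with
      | zero => intro x _ _ hx; exact hx
      | succ n ih =>
        intro x h0 h1 hx
        rw [Function.iterate_succ_apply'] at hx
        obtain ⟨b0, b1⟩ := hiter n x h0 h1
        apply ih x h0 h1
        rcases lt_or_ge ((T α β)^[n] x) u with h2 | h2
        · rw [F8 _ b0 h2] at hx
          have := (nxnn _ b1).1
          nlinarith
        · exfalso
          rw [F9 _ h2 b1, T_hi h (by linarith) b1] at hx
          nlinarith
    obtain ⟨n, x, hx1, hx2, hx3, hx4⟩ := htr α (α + β - 1) (α + β - 1) (T α β v) ha (by linarith)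
      (by linarith) (by linarith) hcon hTv1.le
    have h1 := hback n x (by linarith) (by linarith) (by
      rw [F9' _ (by linarith) hx4]
      linarith)
    rw [F9' x (by linarith) (by linarith)] at h1
    linarith
  -- the cycle
  have hDiter : ∀ n, (T α β)^[n] (T α β u) ∈ D := by
    intro n
    induction n with
    | zero => exact hTD u huD
    | succ n ih => rw [Function.iterate_succ_apply']; exact hTD _ ih
  have hnxTu : nx D v (T α β u) = β - 1 := by
    rw [F9' _ le_rfl (by linarith)]
    linarith
  have hex : ∃ i, (T α β)^[i] (T α β u) = u := by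
    by_contra hcon
    push Not at hcon
    have hgrow : ∀ i, nx D v ((T α β)^[i] (T α β u)) = β ^ i * (β - 1) := by
      intro i
      induction i with
      | zero => simpa using hnxTu
      | succ i ih =>
        rw [Function.iterate_succ_apply']
        have hm := hDiter i
        rw [F8 _ (h01 _ hm).1.le (lt_of_le_of_ne (hule _ hm) (hcon i)), ih]
        ring
    obtain ⟨i, hi⟩ := pow_unbounded_of_one_lt (2 / (β - 1)) hb
    have h1 := hgrow i
    have hm := hDiter i
    have h2 := (nxnn _ (h01 _ hm).2).2 (h01 _ hm).1.le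
    rw [div_lt_iff₀ (by linarith)] at hi
    linarith
  classical
  set i := Nat.find hex with hi
  have hi1 : (T α β)^[i] (T α β u) = u := Nat.find_spec hex
  have hi2 : ∀ j, j < i → (T α β)^[j] (T α β u) ≠ u := fun j hj => Nat.find_min hex hj
  have hgrow : ∀ j, j ≤ i → nx D v ((T α β)^[j] (T α β u)) = β ^ j * (β - 1) := by
    intro j
    induction j with
    | zero => intro _; simpa using hnxTu
    | succ j ih =>
      intro hj
      rw [Function.iterate_succ_apply']
      have hm := hDiter j
      rw [F8 _ (h01 _ hm).1.le (lt_of_le_of_ne (hule _ hm) (hi2 j (by omega))), ih (by omega)]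
      ring
  have h1 := hgrow i le_rfl
  rw [hi1, nx_top D v u hule] at h1
  rw [hTu] at F12
  rw [hTv] at F13
  have eu : β * u = 1 := by linarith
  have ev : β * v = β - 1 := by linarith
  have h2 : β * (1 - u + v) = 2 * (β - 1) := by
    have : β * (1 - u + v) = β - β * u + β * v := by ring
    rw [this, eu, ev]; ring
  rw [h1] at h2
  have h3 : β ^ (i + 1) = 2 := by
    have h4 : (β ^ (i + 1) - 2) * (β - 1) = 0 := by
      rw [pow_succ]; linear_combination h2
    rcases mul_eq_zero.1 h4 with h5 | h5
    · linarith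
    · linarith
  refine ⟨i + 1, by omega, h3, ?_⟩
  rw [Function.iterate_succ_apply']
  have e : T α β u = α := by rw [hTu]; linarith
  rw [e] at hi1
  rw [hi1, e]

end Dset


/-- exceptional parameters -/
def Exc (α β : ℝ) : Prop := ∃ q : ℕ, 1 ≤ q ∧ β ^ q = 2 ∧ (T α β)^[q] α = α

theorem noD_of_not_exc (h : Par α β) (htr : Trans α β) (hx : ¬ Exc α β) : NoD α β := by
  intro D hfin hne h01 hback
  classical
  apply hx
  have hpre : ∀ d : D, ∃ x : D, T α β (x : ℝ) = d := by
    rintro ⟨d, hd⟩
    obtain ⟨x, hx0, hx1, hx⟩ := pre_any h (h01 d hd).1.le (h01 d hd).2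
    exact ⟨⟨x, hback x hx0 hx1 (by rw [hx]; exact hd)⟩, hx⟩
  choose g hg using hpre
  have hginj : Function.Injective g := by
    intro a b hab
    apply Subtype.ext
    rw [← hg a, ← hg b, hab]
  haveI : Finite D := hfin
  have hgsurj : Function.Surjective g := Finite.surjective_of_injective hginj
  have hT : ∀ x ∈ D, T α β x ∈ D := by
    intro x hx
    obtain ⟨d, hd⟩ := hgsurj ⟨x, hx⟩
    have := hg d
    rw [hd] at this
    rw [this]
    exact d.2
  have hTinj : ∀ x ∈ D, ∀ y ∈ D, T α β x = T α β y → x = y := by
    intro x hx y hy hxy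
    obtain ⟨d, hd⟩ := hgsurj ⟨x, hx⟩
    obtain ⟨e, he⟩ := hgsurj ⟨y, hy⟩
    have h1 := hg d
    have h2 := hg e
    rw [hd] at h1
    rw [he] at h2
    have h3 : d = e := by
      apply Subtype.ext
      rw [← h1, ← h2]
      exact hxy
    rw [h3, he] at hd
    exact (congrArg Subtype.val hd).symm
  refine final_D h htr hfin.toFinset ?_ ?_ ?_ ?_
  · simpa using hne
  · intro d hd; exact h01 d (by simpa using hd)
  · intro x h0 h1
    simp only [Set.Finite.mem_toFinset]
    exact ⟨hback x h0 h1, hT x⟩
  · intro x hx y hy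
    exact hTinj x (by simpa using hx) y (by simpa using hy)

end Pool.Agent.V11105.BT
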