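import Pool.Agent.V11105.BT0

set_option autoImplicit false
set_option maxHeartbeats 4000000

namespace Pool.Agent.V11105.BT

variable {α β : ℝ}

theorem img_lo (h : Par α β) {a b : ℝ} (h0 : 0 ≤ a) (hb : b ≤ cc α β) :
    T α β '' Set.Ico a b = Set.Ico (β * a + α) (β * b + α) := by
  have hb' := h.b1
  ext z
  constructor
  · rintro ⟨x, ⟨hx1, hx2⟩, rfl⟩
    rw [T_lo h (by linarith) (by linarith)]
    constructor <;> nlinarith
  · rintro ⟨hz1, hz2⟩
    have e1 : a ≤ (z - α) / β := by rw [le_div_iff₀ (by linarith)]; linarith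
    have e2 : (z - α) / β < b := by rw [div_lt_iff₀ (by linarith)]; linarith
    refine ⟨(z - α) / β, ⟨e1, e2⟩, ?_⟩
    rw [T_lo h (by linarith) (by linarith)]
    field_simp
    ring

theorem img_hi (h : Par α β) {a b : ℝ} (h0 : cc α β ≤ a) (hb : b ≤ 1) :
    T α β '' Set.Ico a b = Set.Ico (β * a + α - 1) (β * b + α - 1) := by
  have hb' := h.b1
  ext z
  constructor
  · rintro ⟨x, ⟨hx1, hx2⟩, rfl⟩
    rw [T_hi h (by linarith) (by linarith)]
    constructor <;> nlinarith
  · rintro ⟨hz1, hz2⟩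
    have e1 : a ≤ (z + 1 - α) / β := by rw [le_div_iff₀ (by linarith)]; linarith
    have e2 : (z + 1 - α) / β < b := by rw [div_lt_iff₀ (by linarith)]; linarith
    refine ⟨(z + 1 - α) / β, ⟨e1, e2⟩, ?_⟩
    rw [T_hi h (by linarith) (by linarith)]
    field_simp
    ring

theorem img_mid (h : Par α β) {a b : ℝ} (h0 : 0 ≤ a) (ha : a ≤ cc α β) (hb : cc α β ≤ b)
    (hb1 : b ≤ 1) :
    T α β '' Set.Ico a b = Set.Ico (β * a + α) 1 ∪ Set.Ico 0 (β * b + α - 1) := by
  rw [← Set.Ico_union_Ico_eq_Ico ha hb, Set.image_union, img_lo h h0 le_rfl, img_hi h le_rfl hb1,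
    cc_mul h]
  have e1 : 1 - α + α = 1 := by ring
  rw [e1, sub_self]

/-- the neighbourhood of the seam -/
def V (ε : ℝ) : Set ℝ := Set.Ico 0 ε ∪ Set.Ico (1 - ε) 1

/-- orbit of the seam neighbourhood -/
def Om (α β ε : ℝ) : ℕ → Set ℝ
  | 0 => V ε
  | k + 1 => V ε ∪ T α β '' Om α β ε k

theorem V_sub_Om (ε : ℝ) (k : ℕ) : V ε ⊆ Om α β ε k := by
  cases k with
  | zero => exact le_rfl
  | succ k => exact Set.subset_union_left

theorem Om_succ_sub (ε : ℝ) (k : ℕ) : Om α β ε k ⊆ Om α β ε (k + 1) := by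
  induction k with
  | zero => exact Set.subset_union_left
  | succ k ih => exact Set.union_subset_union_right _ (Set.image_mono ih)

theorem Om_mono (ε : ℝ) {k l : ℕ} (hkl : k ≤ l) : Om α β ε k ⊆ Om α β ε l := by
  induction l, hkl using Nat.le_induction with
  | base => exact le_rfl
  | succ n _ ih => exact ih.trans (Om_succ_sub ε n)

theorem Om_img (ε : ℝ) (k : ℕ) : T α β '' Om α β ε k ⊆ Om α β ε (k + 1) :=
  Set.subset_union_right

theorem Om_desc (ε : ℝ) (k : ℕ) : ∀ z ∈ Om α β ε k, ∃ j ≤ k, z ∈ (T α β)^[j] '' V ε := by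
  induction k with
  | zero => intro z hz; exact ⟨0, le_rfl, z, hz, rfl⟩
  | succ k ih =>
    rintro z (hz | ⟨x, hx, rfl⟩)
    · exact ⟨0, by omega, z, hz, rfl⟩
    · obtain ⟨j, hj, y, hy, rfl⟩ := ih x hx
      exact ⟨j + 1, by omega, y, hy, Function.iterate_succ_apply' _ _ _⟩

theorem Om_iter (ε : ℝ) (k : ℕ) : ∀ x ∈ V ε, (T α β)^[k] x ∈ Om α β ε k := by
  intro x hx
  induction k with
  | zero => exact hx
  | succ k ih =>
    rw [Function.iterate_succ_apply']
    exact Om_img ε k ⟨_, ih, rfl⟩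

theorem Om_C (h : Par α β) {ε : ℝ} (e0 : 0 < ε) (e1 : ε ≤ 1) (k : ℕ) :
    ∀ z ∈ Om α β ε k, ∃ a b, 0 ≤ a ∧ b ≤ 1 ∧ a ≤ z ∧ z < b ∧ ε ≤ b - a ∧
      Set.Ico a b ⊆ Om α β ε k := by
  have hb' := h.b1
  have ha0 := h.a0
  have hab := h.ab
  have hcm := cc_mul h
  have hV : ∀ k, ∀ z ∈ V ε, ∃ a b, 0 ≤ a ∧ b ≤ 1 ∧ a ≤ z ∧ z < b ∧ ε ≤ b - a ∧
      Set.Ico a b ⊆ Om α β ε k := by
    rintro k z (hz | hz)
    · exact ⟨0, ε, le_rfl, e1, hz.1, hz.2, by linarith,
        Set.subset_union_left.trans (V_sub_Om ε k)⟩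
    · exact ⟨1 - ε, 1, by linarith, le_rfl, hz.1, hz.2, by linarith,
        Set.subset_union_right.trans (V_sub_Om ε k)⟩
  induction k with
  | zero => exact hV 0
  | succ k ih =>
    rintro z (hz | ⟨x, hx, rfl⟩)
    · exact hV (k + 1) z hz
    · obtain ⟨a, b, ha, hb, hax, hxb, hlen, hsub⟩ := ih x hx
      have himg : T α β '' Set.Ico a b ⊆ Om α β ε (k + 1) :=
        (Set.image_mono hsub).trans (Om_img ε k)
      rcases le_or_gt b (cc α β) with hbc | hbc
      · rw [img_lo h ha hbc] at himg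
        refine ⟨β * a + α, β * b + α, by positivity, by nlinarith, ?_, ?_, by nlinarith, himg⟩
        · rw [T_lo h (by linarith) (by linarith)]; nlinarith
        · rw [T_lo h (by linarith) (by linarith)]; nlinarith
      · rcases le_or_gt (cc α β) a with hac | hac
        · rw [img_hi h hac hb] at himg
          refine ⟨β * a + α - 1, β * b + α - 1, by nlinarith, by nlinarith, ?_, ?_, by nlinarith,
            himg⟩
          · rw [T_hi h (by linarith) (by linarith)]; nlinarith
          · rw [T_hi h (by linarith) (by linarith)]; nlinarith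
        · rw [img_mid h ha hac.le hbc.le hb] at himg
          rcases lt_or_ge x (cc α β) with hxc | hxc
          · have eT : T α β x = β * x + α := T_lo h (by linarith) hxc
            rcases le_or_gt ε (1 - (β * a + α)) with hs | hs
            · exact ⟨β * a + α, 1, by positivity, le_rfl, by rw [eT]; nlinarith, T_lt x, hs,
                Set.subset_union_left.trans himg⟩
            · exact hV (k + 1) _ (Or.inr ⟨by rw [eT]; nlinarith, T_lt x⟩)
          · have eT : T α β x = β * x + α - 1 := T_hi h hxc (by linarith)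
            rcases le_or_gt ε (β * b + α - 1) with hs | hs
            · exact ⟨0, β * b + α - 1, le_rfl, by nlinarith, T_nonneg x, by rw [eT]; nlinarith,
                by linarith, Set.subset_union_right.trans himg⟩
            · exact hV (k + 1) _ (Or.inl ⟨T_nonneg x, by rw [eT]; nlinarith⟩)

/-- no finite backward invariant set -/
def NoD (α β : ℝ) : Prop := ∀ D : Set ℝ, D.Finite → D.Nonempty → (∀ d ∈ D, 0 < d ∧ d < 1) →
  (∀ x, 0 < x → x < 1 → T α β x ∈ D → x ∈ D) → False

theorem partI (h : Par α β) (htr : Trans α β) (hN : NoD α β) {ε : ℝ} (e0 : 0 < ε) (e1 : ε ≤ 1) :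
    ∃ k, Set.Ico 0 1 ⊆ Om α β ε k := by
  have hb' := h.b1
  have ha0 := h.a0
  have hab := h.ab
  have hcm := cc_mul h
  set D : Set ℝ := {x | 0 < x ∧ x < 1 ∧ ∀ k : ℕ, ∀ η > 0, ¬ Set.Ioo (x - η) (x + η) ⊆ Om α β ε k}
    with hD
  have hsep : ∀ x ∈ D, ∀ y ∈ D, x < y → ε ≤ y - x := by
    rintro x ⟨hx0, hx1, hx⟩ y ⟨hy0, hy1, hy⟩ hxy
    by_contra hcon
    push Not at hcon
    obtain ⟨n, w, hw0, hw1, hz1, hz2⟩ := htr 0 ε x y le_rfl e0 e1 hx0.le hxy hy1.le
    have hz := Om_iter (α := α) (β := β) ε n w (Or.inl ⟨hw0.le, hw1⟩)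
    obtain ⟨a, b, ha, hb, haz, hzb, hlen, hsub⟩ := Om_C h e0 e1 n _ hz
    rcases lt_or_ge a x with hax | hax
    · refine hx n (min (x - a) (b - x)) (lt_min (by linarith) (by linarith)) ?_
      intro t ht
      apply hsub
      have h1 := min_le_left (x - a) (b - x)
      have h2 := min_le_right (x - a) (b - x)
      exact ⟨by linarith [ht.1], by linarith [ht.2]⟩
    · refine hy n (min (y - a) (b - y)) (lt_min (by linarith) (by linarith)) ?_
      intro t ht
      apply hsub
      have h1 := min_le_left (y - a) (b - y)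
      have h2 := min_le_right (y - a) (b - y)
      exact ⟨by linarith [ht.1], by linarith [ht.2]⟩
  have hfin : D.Finite := by
    have hmap : Set.MapsTo (fun x : ℝ => ⌊x / ε⌋) D (Set.Icc 0 ⌊1 / ε⌋) := by
      rintro x ⟨hx0, hx1, _⟩
      refine ⟨Int.floor_nonneg.2 (by positivity), ?_⟩
      apply Int.floor_le_floor
      exact div_le_div_of_nonneg_right hx1.le e0.le
    refine Set.Finite.of_injOn hmap ?_ (Set.finite_Icc _ _)
    have key : ∀ x ∈ D, ∀ y ∈ D, x < y → ⌊x / ε⌋ ≠ ⌊y / ε⌋ := by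
      intro x hx y hy hxy heq
      have h1 := hsep x hx y hy hxy
      have h2 := Int.abs_sub_lt_one_of_floor_eq_floor heq
      rw [abs_lt] at h2
      have h3 : y / ε - x / ε < 1 := by linarith [h2.1]
      rw [← sub_div, div_lt_one e0] at h3
      linarith
    intro x hx y hy heq
    rcases lt_trichotomy x y with hlt | he | hgt
    · exact absurd heq (key x hx y hy hlt)
    · exact he
    · exact absurd heq.symm (key y hy x hx hgt)
  have hback : ∀ x, 0 < x → x < 1 → T α β x ∈ D → x ∈ D := by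
    rintro x hx0 hx1 ⟨hT0, hT1, hT⟩
    refine ⟨hx0, hx1, ?_⟩
    intro k η hη hsub
    rcases lt_trichotomy x (cc α β) with hlt | heq | hgt
    · set δ := min η (min x (cc α β - x)) with hδ
      have d1 : δ ≤ η := min_le_left _ _
      have d2 : δ ≤ x := (min_le_right _ _).trans (min_le_left _ _)
      have d3 : δ ≤ cc α β - x := (min_le_right _ _).trans (min_le_right _ _)
      have d0 : 0 < δ := lt_min hη (lt_min hx0 (by linarith))
      have eT : T α β x = β * x + α := T_lo h hx0.le hlt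
      refine hT (k + 1) δ d0 ?_
      rintro z ⟨hz1, hz2⟩
      rw [eT] at hz1 hz2
      have hdb : δ < β * δ := by nlinarith
      have f1 : x - δ < (z - α) / β := by rw [lt_div_iff₀ (by linarith)]; linarith
      have f2 : (z - α) / β < x + δ := by rw [div_lt_iff₀ (by linarith)]; linarith
      apply Om_img
      refine ⟨(z - α) / β, hsub ⟨by linarith, by linarith⟩, ?_⟩
      rw [T_lo h (by linarith) (by linarith)]
      field_simp
      ring
    · rw [heq, T_cc h] at hT0
      exact lt_irrefl _ hT0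
    · set δ := min η (min (1 - x) (x - cc α β)) with hδ
      have d1 : δ ≤ η := min_le_left _ _
      have d2 : δ ≤ 1 - x := (min_le_right _ _).trans (min_le_left _ _)
      have d3 : δ ≤ x - cc α β := (min_le_right _ _).trans (min_le_right _ _)
      have d0 : 0 < δ := lt_min hη (lt_min (by linarith) (by linarith))
      have eT : T α β x = β * x + α - 1 := T_hi h hgt.le hx1
      refine hT (k + 1) δ d0 ?_
      rintro z ⟨hz1, hz2⟩
      rw [eT] at hz1 hz2
      have hdb : δ < β * δ := by nlinarith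
      have f1 : x - δ < (z + 1 - α) / β := by rw [lt_div_iff₀ (by linarith)]; linarith
      have f2 : (z + 1 - α) / β < x + δ := by rw [div_lt_iff₀ (by linarith)]; linarith
      apply Om_img
      refine ⟨(z + 1 - α) / β, hsub ⟨by linarith, by linarith⟩, ?_⟩
      rw [T_hi h (by linarith) (by linarith)]
      field_simp
      ring
  have hempty : ∀ x, 0 < x → x < 1 → ∃ k : ℕ, ∃ η > 0, Set.Ioo (x - η) (x + η) ⊆ Om α β ε k := by
    intro x hx0 hx1
    by_contra hcon
    push Not at hcon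
    exact hN D hfin ⟨x, hx0, hx1, fun k η hη => hcon k η hη⟩ (fun d hd => ⟨hd.1, hd.2.1⟩) hback
  have hcomp : ∃ k : ℕ, Set.Icc (0:ℝ) 1 ∩ Set.Ico 0 1 ⊆ Om α β ε k := by
    refine IsCompact.induction_on (isCompact_Icc : IsCompact (Set.Icc (0:ℝ) 1))
      (p := fun s => ∃ k : ℕ, s ∩ Set.Ico 0 1 ⊆ Om α β ε k) ?_ ?_ ?_ ?_
    · exact ⟨0, by simp⟩
    · rintro s t hst ⟨k, hk⟩
      exact ⟨k, (Set.inter_subset_inter_left _ hst).trans hk⟩
    · rintro s t ⟨k, hk⟩ ⟨l, hl⟩
      refine ⟨max k l, ?_⟩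
      rw [Set.union_inter_distrib_right]
      exact Set.union_subset (hk.trans (Om_mono ε (le_max_left _ _)))
        (hl.trans (Om_mono ε (le_max_right _ _)))
    · rintro x ⟨hx0, hx1⟩
      rcases eq_or_lt_of_le hx0 with he | hlt
      · refine ⟨Set.Iio ε, mem_nhdsWithin_of_mem_nhds (Iio_mem_nhds (by linarith)), 0, ?_⟩
        rintro z ⟨hz1, hz2⟩
        exact Or.inl ⟨hz2.1, hz1⟩
      · rcases eq_or_lt_of_le hx1 with he | hlt1
        · refine ⟨Set.Ioi (1 - ε), mem_nhdsWithin_of_mem_nhds (Ioi_mem_nhds (by linarith)), 0, ?_⟩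
          rintro z ⟨hz1, hz2⟩
          exact Or.inr ⟨(le_of_lt hz1), hz2.2⟩
        · obtain ⟨k, η, hη, hk⟩ := hempty x hlt hlt1
          refine ⟨Set.Ioo (x - η) (x + η),
            mem_nhdsWithin_of_mem_nhds (Ioo_mem_nhds (by linarith) (by linarith)), k, ?_⟩
          exact Set.inter_subset_left.trans hk
  obtain ⟨k, hk⟩ := hcomp
  exact ⟨k, fun z hz => hk ⟨⟨hz.1, hz.2.le⟩, hz⟩⟩

end Pool.Agent.V11105.BT
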