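import Pool.Agent.V11105.BTb

set_option autoImplicit false
set_option maxHeartbeats 4000000

namespace Pool.Agent.V11105.BT

variable {α β : ℝ}

/-- `A` reaches `B` -/
def Rch (α β : ℝ) (A B : Set ℝ) : Prop := ∃ n : ℕ, 1 ≤ n ∧ B ⊆ (T α β)^[n] '' A

theorem Rch.trans {A B C : Set ℝ} (h1 : Rch α β A B) (h2 : Rch α β B C) : Rch α β A C := by
  obtain ⟨n, hn, h1⟩ := h1
  obtain ⟨m, hm, h2⟩ := h2
  refine ⟨m + n, by omega, ?_⟩
  rw [Function.iterate_add, Set.image_comp]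
  exact h2.trans (Set.image_mono h1)

theorem Rch.mono {A A' B B' : Set ℝ} (h : Rch α β A B) (hA : A ⊆ A') (hB : B' ⊆ B) :
    Rch α β A' B' := by
  obtain ⟨n, hn, h1⟩ := h
  exact ⟨n, hn, hB.trans (h1.trans (Set.image_mono hA))⟩

theorem J1 (h : Par α β) (m : ℕ) : ∀ a b : ℝ, 0 ≤ a → a < b → b ≤ 1 → 1 < β ^ m * (b - a) →
    ∃ n : ℕ, 1 ≤ n ∧ ∃ l r : ℝ, 0 < l ∧ l ≤ 1 ∧ 0 < r ∧ r ≤ 1 ∧ b - a ≤ l + r ∧
      Set.Ico (1 - l) 1 ⊆ (T α β)^[n] '' Set.Ico a b ∧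
      Set.Ico 0 r ⊆ (T α β)^[n] '' Set.Ico a b := by
  have hb' := h.b1
  have ha0 := h.a0
  have hab := h.ab
  have hcm := cc_mul h
  induction m with
  | zero =>
    intro a b h0 h1 h2 h3
    simp only [pow_zero, one_mul] at h3
    linarith
  | succ m ih =>
    intro a b h0 h1 h2 h3
    rcases le_or_gt b (cc α β) with hbc | hbc
    · obtain ⟨n, hn, l, r, hl0, hl1, hr0, hr1, hlr, hL, hR⟩ := ih (β * a + α) (β * b + α)
        (by positivity) (by nlinarith) (by nlinarith) (by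
          have : β ^ m * (β * b + α - (β * a + α)) = β ^ (m + 1) * (b - a) := by ring
          rw [this]; exact h3)
      refine ⟨n + 1, by omega, l, r, hl0, hl1, hr0, hr1, by nlinarith, ?_, ?_⟩
      · rw [Function.iterate_succ, Set.image_comp, img_lo h h0 hbc]; exact hL
      · rw [Function.iterate_succ, Set.image_comp, img_lo h h0 hbc]; exact hR
    · rcases le_or_gt (cc α β) a with hac | hac
      · obtain ⟨n, hn, l, r, hl0, hl1, hr0, hr1, hlr, hL, hR⟩ :=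
          ih (β * a + α - 1) (β * b + α - 1)
          (by nlinarith) (by nlinarith) (by nlinarith) (by
            have : β ^ m * (β * b + α - 1 - (β * a + α - 1)) = β ^ (m + 1) * (b - a) := by ring
            rw [this]; exact h3)
        refine ⟨n + 1, by omega, l, r, hl0, hl1, hr0, hr1, by nlinarith, ?_, ?_⟩
        · rw [Function.iterate_succ, Set.image_comp, img_hi h hac h2]; exact hL
        · rw [Function.iterate_succ, Set.image_comp, img_hi h hac h2]; exact hR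
      · refine ⟨1, le_rfl, 1 - (β * a + α), β * b + α - 1, by nlinarith, by nlinarith,
          by nlinarith, by nlinarith, by nlinarith, ?_, ?_⟩
        · rw [Function.iterate_one, img_mid h h0 hac.le hbc.le h2, sub_sub_cancel]
          exact Set.subset_union_left
        · rw [Function.iterate_one, img_mid h h0 hac.le hbc.le h2]
          exact Set.subset_union_right

theorem J1' (h : Par α β) (a b : ℝ) (h0 : 0 ≤ a) (hab : a < b) (h1 : b ≤ 1) :
    ∃ n : ℕ, 1 ≤ n ∧ ∃ l r : ℝ, 0 < l ∧ l ≤ 1 ∧ 0 < r ∧ r ≤ 1 ∧ b - a ≤ l + r ∧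
      Set.Ico (1 - l) 1 ⊆ (T α β)^[n] '' Set.Ico a b ∧
      Set.Ico 0 r ⊆ (T α β)^[n] '' Set.Ico a b := by
  obtain ⟨m, hm⟩ := pow_unbounded_of_one_lt (1 / (b - a)) h.b1
  refine J1 h m a b h0 hab h1 ?_
  rwa [div_lt_iff₀ (by linarith)] at hm

theorem Qr (h : Par α β) (N : ℕ) : ∃ x ε : ℝ, 0 ≤ x ∧ x < 1 ∧ 0 < ε ∧ ∀ δ, 0 < δ → δ ≤ ε →
    x + β ^ N * δ ≤ 1 ∧ Set.Ico x (x + β ^ N * δ) ⊆ (T α β)^[N] '' Set.Ico 0 δ := by
  have hb' := h.b1
  have ha0 := h.a0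
  have hab := h.ab
  have hcm := cc_mul h
  induction N with
  | zero =>
    refine ⟨0, 1, le_rfl, one_pos, one_pos, ?_⟩
    intro δ h0 h1
    simp only [pow_zero, one_mul, zero_add, Function.iterate_zero, Set.image_id]
    exact ⟨h1, le_rfl⟩
  | succ N ih =>
    obtain ⟨x, ε, hx0, hx1, hε, hδ⟩ := ih
    have hP : 0 < β ^ N := by positivity
    rcases lt_or_ge x (cc α β) with hxc | hxc
    · refine ⟨β * x + α, min ε ((cc α β - x) / β ^ N), by positivity, by nlinarith,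
        lt_min hε (div_pos (by linarith) hP), ?_⟩
      intro δ h0 h1
      have d1 := h1.trans (min_le_left _ _)
      have d2 := h1.trans (min_le_right _ _)
      rw [le_div_iff₀ hP] at d2
      obtain ⟨e1, e2⟩ := hδ δ h0 d1
      have e3 : x + β ^ N * δ ≤ cc α β := by linarith
      have e4 : β * x + α + β ^ (N + 1) * δ = β * (x + β ^ N * δ) + α := by ring
      rw [e4]
      refine ⟨by nlinarith, ?_⟩
      rw [Function.iterate_succ', Set.image_comp, ← img_lo h hx0 e3]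
      exact Set.image_mono e2
    · refine ⟨β * x + α - 1, ε, by nlinarith, by nlinarith, hε, ?_⟩
      intro δ h0 h1
      obtain ⟨e1, e2⟩ := hδ δ h0 h1
      have e4 : β * x + α - 1 + β ^ (N + 1) * δ = β * (x + β ^ N * δ) + α - 1 := by ring
      rw [e4]
      refine ⟨by nlinarith, ?_⟩
      rw [Function.iterate_succ', Set.image_comp, ← img_hi h hxc e1]
      exact Set.image_mono e2

theorem Ql (h : Par α β) (N : ℕ) : ∃ y ε : ℝ, 0 < y ∧ y ≤ 1 ∧ 0 < ε ∧ ∀ δ, 0 < δ → δ ≤ ε →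
    0 ≤ y - β ^ N * δ ∧ Set.Ico (y - β ^ N * δ) y ⊆ (T α β)^[N] '' Set.Ico (1 - δ) 1 := by
  have hb' := h.b1
  have ha0 := h.a0
  have hab := h.ab
  have hcm := cc_mul h
  induction N with
  | zero =>
    refine ⟨1, 1, one_pos, le_rfl, one_pos, ?_⟩
    intro δ h0 h1
    simp only [pow_zero, one_mul, Function.iterate_zero, Set.image_id]
    exact ⟨by linarith, le_rfl⟩
  | succ N ih =>
    obtain ⟨y, ε, hy0, hy1, hε, hδ⟩ := ih
    have hP : 0 < β ^ N := by positivity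
    rcases le_or_gt y (cc α β) with hyc | hyc
    · refine ⟨β * y + α, ε, by positivity, by nlinarith, hε, ?_⟩
      intro δ h0 h1
      obtain ⟨e1, e2⟩ := hδ δ h0 h1
      have e4 : β * y + α - β ^ (N + 1) * δ = β * (y - β ^ N * δ) + α := by ring
      rw [e4]
      refine ⟨by positivity, ?_⟩
      rw [Function.iterate_succ', Set.image_comp, ← img_lo h e1 hyc]
      exact Set.image_mono e2
    · refine ⟨β * y + α - 1, min ε ((y - cc α β) / β ^ N), by nlinarith, by nlinarith,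
        lt_min hε (div_pos (by linarith) hP), ?_⟩
      intro δ h0 h1
      have d1 := h1.trans (min_le_left _ _)
      have d2 := h1.trans (min_le_right _ _)
      rw [le_div_iff₀ hP] at d2
      obtain ⟨e1, e2⟩ := hδ δ h0 d1
      have e3 : cc α β ≤ y - β ^ N * δ := by linarith
      have e4 : β * y + α - 1 - β ^ (N + 1) * δ = β * (y - β ^ N * δ) + α - 1 := by ring
      rw [e4]
      refine ⟨by nlinarith, ?_⟩
      rw [Function.iterate_succ', Set.image_comp, ← img_hi h e3 hy1]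
      exact Set.image_mono e2

theorem J2 (h : Par α β) : ∃ ε : ℝ, 0 < ε ∧ ε ≤ 1 ∧ ∀ δ, 0 < δ → δ ≤ ε →
    (∃ γ, 2 * δ ≤ γ ∧ γ ≤ 1 ∧ (Rch α β (Set.Ico 0 δ) (Set.Ico 0 γ) ∨
      Rch α β (Set.Ico 0 δ) (Set.Ico (1 - γ) 1))) ∧
    (∃ γ, 2 * δ ≤ γ ∧ γ ≤ 1 ∧ (Rch α β (Set.Ico (1 - δ) 1) (Set.Ico 0 γ) ∨
      Rch α β (Set.Ico (1 - δ) 1) (Set.Ico (1 - γ) 1))) := by
  obtain ⟨N, hN⟩ := pow_unbounded_of_one_lt 4 h.b1
  obtain ⟨x, ε1, hx0, hx1, he1, H1⟩ := Qr h N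
  obtain ⟨y, ε2, hy0, hy1, he2, H2⟩ := Ql h N
  have hP : 0 < β ^ N := by linarith
  refine ⟨min 1 (min ε1 ε2), lt_min one_pos (lt_min he1 he2), min_le_left _ _, ?_⟩
  intro δ h0 h1
  have d1 : δ ≤ ε1 := h1.trans ((min_le_right _ _).trans (min_le_left _ _))
  have d2 : δ ≤ ε2 := h1.trans ((min_le_right _ _).trans (min_le_right _ _))
  have key : ∀ (A : Set ℝ) (a b : ℝ), 0 ≤ a → a < b → b ≤ 1 → 4 * δ ≤ b - a →
      Set.Ico a b ⊆ (T α β)^[N] '' A →
      ∃ γ, 2 * δ ≤ γ ∧ γ ≤ 1 ∧ (Rch α β A (Set.Ico 0 γ) ∨ Rch α β A (Set.Ico (1 - γ) 1)) := by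
    intro A a b ha hab hb hlen hsub
    obtain ⟨n, hn, l, r, hl0, hl1, hr0, hr1, hlr, hL, hR⟩ := J1' h a b ha hab hb
    have hstep : (T α β)^[n] '' Set.Ico a b ⊆ (T α β)^[n + N] '' A := by
      rw [Function.iterate_add, Set.image_comp]
      exact Set.image_mono hsub
    rcases le_or_gt l r with hc | hc
    · exact ⟨r, by linarith, hr1, Or.inl ⟨n + N, by omega, hR.trans hstep⟩⟩
    · exact ⟨l, by linarith, hl1, Or.inr ⟨n + N, by omega, hL.trans hstep⟩⟩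
  obtain ⟨e1, e2⟩ := H1 δ h0 d1
  obtain ⟨f1, f2⟩ := H2 δ h0 d2
  have hpd : 4 * δ ≤ β ^ N * δ := by nlinarith
  exact ⟨key _ x _ hx0 (by linarith) e1 (by linarith) e2,
    key _ _ y f1 (by linarith) hy1 (by linarith) f2⟩

theorem J3 (h : Par α β) : ∃ u w : ℝ, 0 ≤ u ∧ u < w ∧ w ≤ 1 ∧ ∀ a b : ℝ, 0 ≤ a → a < b → b ≤ 1 →
    Rch α β (Set.Ico a b) (Set.Ico u w) := by
  obtain ⟨ε, e0, e1, H⟩ := J2 h
  have hRmono : ∀ γ, ε ≤ γ → Set.Ico (0:ℝ) ε ⊆ Set.Ico 0 γ :=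
    fun γ hγ => Set.Ico_subset_Ico_right hγ
  have hLmono : ∀ γ, ε ≤ γ → Set.Ico (1 - ε) (1:ℝ) ⊆ Set.Ico (1 - γ) 1 :=
    fun γ hγ => Set.Ico_subset_Ico_left (by linarith)
  have hdbl : ∀ m : ℕ, ∀ δ, 0 < δ → δ ≤ ε → ε ≤ 2 ^ m * δ →
      (Rch α β (Set.Ico 0 δ) (Set.Ico 0 ε) ∨ Rch α β (Set.Ico 0 δ) (Set.Ico (1 - ε) 1)) ∧
      (Rch α β (Set.Ico (1 - δ) 1) (Set.Ico 0 ε) ∨
        Rch α β (Set.Ico (1 - δ) 1) (Set.Ico (1 - ε) 1)) := by
    intro m
    induction m with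
    | zero =>
      intro δ h0 h1 h2
      have h2' : ε ≤ δ := by simpa using h2
      have key : ∀ A : Set ℝ, (∃ γ, 2 * δ ≤ γ ∧ γ ≤ 1 ∧ (Rch α β A (Set.Ico 0 γ) ∨
          Rch α β A (Set.Ico (1 - γ) 1))) →
          (Rch α β A (Set.Ico 0 ε) ∨ Rch α β A (Set.Ico (1 - ε) 1)) := by
        rintro A ⟨γ, hγ, _, hr | hl⟩
        · exact Or.inl (hr.mono le_rfl (hRmono γ (by linarith)))
        · exact Or.inr (hl.mono le_rfl (hLmono γ (by linarith)))
      exact ⟨key _ (H δ h0 h1).1, key _ (H δ h0 h1).2⟩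
    | succ m ih =>
      intro δ h0 h1 h2
      have key : ∀ A : Set ℝ, (∃ γ, 2 * δ ≤ γ ∧ γ ≤ 1 ∧ (Rch α β A (Set.Ico 0 γ) ∨
          Rch α β A (Set.Ico (1 - γ) 1))) →
          (Rch α β A (Set.Ico 0 ε) ∨ Rch α β A (Set.Ico (1 - ε) 1)) := by
        rintro A ⟨γ, hγ, _, hr | hl⟩
        · rcases le_or_gt ε γ with hc | hc
          · exact Or.inl (hr.mono le_rfl (hRmono γ hc))
          · have h3 : ε ≤ 2 ^ m * γ := by
              have : (2:ℝ) ^ (m + 1) * δ = 2 ^ m * (2 * δ) := by ring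
              rw [this] at h2
              have h4 : (0:ℝ) < 2 ^ m := by positivity
              nlinarith
            rcases (ih γ (by linarith) hc.le h3).1 with h5 | h5
            · exact Or.inl (hr.trans h5)
            · exact Or.inr (hr.trans h5)
        · rcases le_or_gt ε γ with hc | hc
          · exact Or.inr (hl.mono le_rfl (hLmono γ hc))
          · have h3 : ε ≤ 2 ^ m * γ := by
              have : (2:ℝ) ^ (m + 1) * δ = 2 ^ m * (2 * δ) := by ring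
              rw [this] at h2
              have h4 : (0:ℝ) < 2 ^ m := by positivity
              nlinarith
            rcases (ih γ (by linarith) hc.le h3).2 with h5 | h5
            · exact Or.inl (hl.trans h5)
            · exact Or.inr (hl.trans h5)
      exact ⟨key _ (H δ h0 h1).1, key _ (H δ h0 h1).2⟩
  -- every interval reaches `[0,r)` and then `R ε` or `L ε`
  have hRr : ∀ a b : ℝ, 0 ≤ a → a < b → b ≤ 1 → ∃ r, 0 < r ∧ Rch α β (Set.Ico a b) (Set.Ico 0 r) := by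
    intro a b ha hab hb
    obtain ⟨n, hn, l, r, hl0, hl1, hr0, hr1, hlr, hL, hR⟩ := J1' h a b ha hab hb
    exact ⟨r, hr0, n, hn, hR⟩
  have hG : ∀ r, 0 < r → r ≤ ε →
      (Rch α β (Set.Ico 0 r) (Set.Ico 0 ε) ∨ Rch α β (Set.Ico 0 r) (Set.Ico (1 - ε) 1)) := by
    intro r hr0 hr1
    obtain ⟨m, hm⟩ := pow_unbounded_of_one_lt (ε / r) (by norm_num : (1:ℝ) < 2)
    rw [div_lt_iff₀ hr0] at hm
    exact (hdbl m r hr0 hr1 hm.le).1
  by_cases hA : ∀ a b : ℝ, 0 ≤ a → a < b → b ≤ 1 → Rch α β (Set.Ico a b) (Set.Ico 0 ε)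
  · exact ⟨0, ε, le_rfl, e0, e1, hA⟩
  · push Not at hA
    obtain ⟨a0, b0, ha0, hab0, hb0, hn0⟩ := hA
    refine ⟨1 - ε, 1, by linarith, by linarith, le_rfl, ?_⟩
    intro a b ha hab hb
    obtain ⟨r, hr0, hr⟩ := hRr a0 b0 ha0 hab0 hb0
    have hrε : r < ε := by
      by_contra hcon
      push Not at hcon
      exact hn0 (hr.mono le_rfl (hRmono r hcon))
    have hrL : Rch α β (Set.Ico 0 r) (Set.Ico (1 - ε) 1) := by
      rcases hG r hr0 hrε.le with h5 | h5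
      · exact absurd (hr.trans h5) hn0
      · exact h5
    have hRL : Rch α β (Set.Ico 0 ε) (Set.Ico (1 - ε) 1) :=
      hrL.mono (Set.Ico_subset_Ico_right hrε.le) le_rfl
    obtain ⟨s, hs0, hs⟩ := hRr a b ha hab hb
    rcases le_or_gt ε s with hc | hc
    · exact (hs.mono le_rfl (hRmono s hc)).trans hRL
    · rcases hG s hs0 hc.le with h5 | h5
      · exact (hs.trans h5).trans hRL
      · exact hs.trans h5

theorem partK (h : Par α β) (htr : Trans α β) (hN : NoD α β) {u w : ℝ} (hu : 0 ≤ u) (huw : u < w)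
    (hw : w ≤ 1) : ∃ K : ℕ, ∀ y ∈ Set.Ico (0:ℝ) 1, ∃ j ≤ K, y ∈ (T α β)^[j] '' Set.Ico u w := by
  obtain ⟨n, hn, l, r, hl0, hl1, hr0, hr1, hlr, hL, hR⟩ := J1' h u w hu huw hw
  obtain ⟨k, hk⟩ := partI h htr hN (ε := min l r) (lt_min hl0 hr0) ((min_le_left _ _).trans hl1)
  refine ⟨k + n, ?_⟩
  intro y hy
  obtain ⟨j, hj, hy2⟩ := Om_desc _ k y (hk hy)
  refine ⟨j + n, by omega, ?_⟩
  rw [Function.iterate_add, Set.image_comp]
  refine Set.image_mono ?_ hy2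
  apply Set.union_subset
  · exact (Set.Ico_subset_Ico_right (min_le_right _ _)).trans hR
  · exact (Set.Ico_subset_Ico_left (by have := min_le_left l r; linarith)).trans hL

end Pool.Agent.V11105.BT
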