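import Pool.Agent.V11105.BTc

set_option autoImplicit false
set_option maxHeartbeats 4000000

namespace Pool.Agent.V11105.BT

variable {α β : ℝ}

/-- right-open subset of `[0,1)` -/
def RO (A : Set ℝ) : Prop := ∀ x ∈ A, 0 ≤ x ∧ ∃ b, x < b ∧ b ≤ 1 ∧ Set.Ico x b ⊆ A

theorem RO_img (h : Par α β) {A : Set ℝ} (hA : RO A) : RO (T α β '' A) := by
  have hb' := h.b1
  have ha0 := h.a0
  have hab := h.ab
  have hcm := cc_mul h
  rintro z ⟨x, hx, rfl⟩
  obtain ⟨h0, b, hxb, hb, hsub⟩ := hA x hx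
  refine ⟨T_nonneg x, ?_⟩
  rcases lt_or_ge x (cc α β) with hxc | hxc
  · have m1 := min_le_left b (cc α β)
    have m2 := min_le_right b (cc α β)
    have m3 : x < min b (cc α β) := lt_min hxb hxc
    refine ⟨β * min b (cc α β) + α, ?_, by nlinarith, ?_⟩
    · rw [T_lo h h0 hxc]; nlinarith
    · rw [T_lo h h0 hxc, ← img_lo h h0 m2]
      exact Set.image_mono ((Set.Ico_subset_Ico_right m1).trans hsub)
  · refine ⟨β * b + α - 1, ?_, by nlinarith, ?_⟩
    · rw [T_hi h hxc (by linarith)]; nlinarith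
    · rw [T_hi h hxc (by linarith), ← img_hi h hxc hb]
      exact Set.image_mono hsub

theorem RO_Ico {u w : ℝ} (hu : 0 ≤ u) (hw : w ≤ 1) : RO (Set.Ico u w) := by
  rintro x ⟨h1, h2⟩
  exact ⟨by linarith, w, h2, hw, Set.Ico_subset_Ico_left h1⟩

theorem RO_iter (h : Par α β) {A : Set ℝ} (hA : RO A) (n : ℕ) : RO ((T α β)^[n] '' A) := by
  induction n with
  | zero => simpa using hA
  | succ n ih =>
    rw [Function.iterate_succ', Set.image_comp]
    exact RO_img h ih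

/-- pulling back left germs -/
theorem pull (h : Par α β) {x : ℝ} (h0 : 0 < x) (h1 : x < 1) (hc : x ≠ cc α β) {δ : ℝ}
    (hδ : 0 < δ) : ∃ δ' > 0, ∀ y', T α β x - δ' < y' → y' < T α β x →
      ∃ y, 0 ≤ y ∧ y < 1 ∧ x - δ < y ∧ y < x ∧ T α β y = y' := by
  have hb' := h.b1
  have ha0 := h.a0
  have hab := h.ab
  have hcm := cc_mul h
  have hc0 := cc_pos h
  rcases lt_or_gt_of_ne hc with hlt | hgt
  · have d1 := min_le_left δ x
    have d2 := min_le_right δ x
    have d0 : 0 < min δ x := lt_min hδ h0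
    refine ⟨β * min δ x, by positivity, ?_⟩
    intro y' hy1 hy2
    rw [T_lo h h0.le hlt] at hy1 hy2
    have f1 : x - min δ x < (y' - α) / β := by rw [lt_div_iff₀ (by linarith)]; linarith
    have f2 : (y' - α) / β < x := by rw [div_lt_iff₀ (by linarith)]; linarith
    refine ⟨(y' - α) / β, by linarith, by linarith, by linarith, f2, ?_⟩
    rw [T_lo h (by linarith) (by linarith)]
    field_simp
    ring
  · have d1 := min_le_left δ (x - cc α β)
    have d2 := min_le_right δ (x - cc α β)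
    have d0 : 0 < min δ (x - cc α β) := lt_min hδ (by linarith)
    refine ⟨β * min δ (x - cc α β), by positivity, ?_⟩
    intro y' hy1 hy2
    rw [T_hi h hgt.le h1] at hy1 hy2
    have f1 : x - min δ (x - cc α β) < (y' + 1 - α) / β := by
      rw [lt_div_iff₀ (by linarith)]; linarith
    have f2 : (y' + 1 - α) / β < x := by rw [div_lt_iff₀ (by linarith)]; linarith
    refine ⟨(y' + 1 - α) / β, by linarith, by linarith, by linarith, f2, ?_⟩
    rw [T_hi h (by linarith) (by linarith)]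
    field_simp
    ring

/-- left boundary -/
def LB (A : Set ℝ) : Set ℝ := {x | x ∈ A ∧ 0 < x ∧ ∀ δ > 0, ∃ y, 0 ≤ y ∧ x - δ < y ∧ y < x ∧ y ∉ A}

theorem LB_Ico (u w : ℝ) : LB (Set.Ico u w) ⊆ {u} := by
  rintro x ⟨⟨h1, h2⟩, h0, h3⟩
  by_contra hne
  have hne' : u < x := lt_of_le_of_ne h1 (fun e => hne e.symm)
  obtain ⟨y, hy0, hy1, hy2, hy3⟩ := h3 (x - u) (by linarith)
  exact hy3 ⟨by linarith, by linarith⟩

theorem LB_img (h : Par α β) {A : Set ℝ} (hA : A ⊆ Set.Ico 0 1) :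
    LB (T α β '' A) ⊆ T α β '' LB A ∪ {α} := by
  rintro z ⟨⟨x, hx, rfl⟩, hz0, hz⟩
  have hx01 := hA hx
  rcases eq_or_lt_of_le hx01.1 with he | hx0
  · right
    rw [← he, T_lo h le_rfl (cc_pos h)]
    simp
  · have hc : x ≠ cc α β := by
      intro e
      rw [e, T_cc h] at hz0
      exact lt_irrefl _ hz0
    left
    refine ⟨x, ⟨hx, hx0, ?_⟩, rfl⟩
    intro δ hδ
    obtain ⟨δ', hδ', H⟩ := pull h hx0 hx01.2 hc hδ
    obtain ⟨y', hy0, hy1, hy2, hy3⟩ := hz δ' hδ'
    obtain ⟨y, h1, h2, h3, h4, h5⟩ := H y' hy1 hy2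
    refine ⟨y, h1, h3, h4, ?_⟩
    intro hyA
    exact hy3 ⟨y, hyA, h5⟩

theorem iter_sub {A : Set ℝ} (hA : A ⊆ Set.Ico 0 1) (n : ℕ) :
    (T α β)^[n] '' A ⊆ Set.Ico 0 1 := by
  rcases n with _ | n
  · simpa using hA
  · rw [Function.iterate_succ', Set.image_comp]
    rintro z ⟨x, _, rfl⟩
    exact ⟨T_nonneg x, T_lt x⟩

theorem LB_fin (h : Par α β) {u w : ℝ} (hu : 0 ≤ u) (hw : w ≤ 1) (n : ℕ) :
    (LB ((T α β)^[n] '' Set.Ico u w)).Finite := by
  induction n with
  | zero =>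
    simp only [Function.iterate_zero, Set.image_id]
    exact (Set.finite_singleton u).subset (LB_Ico u w)
  | succ n ih =>
    rw [Function.iterate_succ', Set.image_comp]
    refine ((ih.image _).union (Set.finite_singleton α)).subset (LB_img h ?_)
    exact iter_sub (Set.Ico_subset_Ico hu hw) n

theorem gcd_one (h : Par α β) (htr : Trans α β) (hN : NoD α β) {u w : ℝ} (hu : 0 ≤ u)
    (huw : u < w) (hw : w ≤ 1)
    (hJ : ∀ a b : ℝ, 0 ≤ a → a < b → b ≤ 1 → Rch α β (Set.Ico a b) (Set.Ico u w)) :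
    Nat.setGcd {n | 1 ≤ n ∧ Set.Ico u w ⊆ (T α β)^[n] '' Set.Ico u w} = 1 := by
  classical
  by_contra hp1
  set J := Set.Ico u w with hJdef
  set S : Set ℕ := {n | 1 ≤ n ∧ J ⊆ (T α β)^[n] '' J} with hS
  set p := Nat.setGcd S with hp
  obtain ⟨K, hK⟩ := partK h htr hN hu huw hw
  have hROJ : RO J := RO_Ico hu hw
  -- disjointness
  have hdis : ∀ (m n : ℕ) (x : ℝ), x ∈ (T α β)^[m] '' J → x ∈ (T α β)^[n] '' J →
      (m : ZMod p) = (n : ZMod p) := by
    intro m n x hm hn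
    obtain ⟨hx0, b1, hb1, hb1', hs1⟩ := RO_iter h hROJ m x hm
    obtain ⟨_, b2, hb2, hb2', hs2⟩ := RO_iter h hROJ n x hn
    obtain ⟨k, hk1, hk⟩ := hJ x (min b1 b2) hx0 (lt_min hb1 hb2) ((min_le_left _ _).trans hb1')
    have h1 : k + m ∈ S := by
      refine ⟨by omega, ?_⟩
      rw [Function.iterate_add, Set.image_comp]
      exact hk.trans (Set.image_mono ((Set.Ico_subset_Ico_right (min_le_left _ _)).trans hs1))
    have h2 : k + n ∈ S := by
      refine ⟨by omega, ?_⟩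
      rw [Function.iterate_add, Set.image_comp]
      exact hk.trans (Set.image_mono ((Set.Ico_subset_Ico_right (min_le_right _ _)).trans hs2))
    have h3 := (ZMod.natCast_eq_zero_iff (k + m) p).2 (Nat.setGcd_dvd_of_mem h1)
    have h4 := (ZMod.natCast_eq_zero_iff (k + n) p).2 (Nat.setGcd_dvd_of_mem h2)
    push_cast at h3 h4
    have h5 : (k : ZMod p) + m = k + n := by rw [h3, h4]
    exact add_left_cancel h5
  set lab : ℝ → ZMod p := fun x =>
    if hx : ∃ n : ℕ, x ∈ (T α β)^[n] '' J then ((Classical.choose hx : ℕ) : ZMod p) else 0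
    with hlab
  have lab_eq : ∀ (n : ℕ) (x : ℝ), x ∈ (T α β)^[n] '' J → lab x = (n : ZMod p) := by
    intro n x hx
    have hex : ∃ n : ℕ, x ∈ (T α β)^[n] '' J := ⟨n, hx⟩
    simp only [hlab]
    rw [dif_pos hex]
    exact hdis _ _ x (Classical.choose_spec hex) hx
  have lab_T : ∀ x, 0 ≤ x → x < 1 → lab (T α β x) = lab x + 1 := by
    intro x h0 h1
    obtain ⟨j, _, hj⟩ := hK x ⟨h0, h1⟩
    rw [lab_eq j x hj]
    have : T α β x ∈ (T α β)^[j + 1] '' J := by
      rw [Function.iterate_succ', Set.image_comp]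
      exact ⟨x, hj, rfl⟩
    rw [lab_eq (j + 1) _ this]
    push_cast
    rfl
  set D : Set ℝ := {x | 0 < x ∧ x < 1 ∧ ∀ δ > 0, ∃ y, 0 ≤ y ∧ x - δ < y ∧ y < x ∧ lab y ≠ lab x}
    with hD
  have hfin : D.Finite := by
    have hU : (⋃ j ∈ Finset.range (K + 1), LB ((T α β)^[j] '' J)).Finite := by
      apply Set.Finite.biUnion (Finset.finite_toSet _)
      intro j _
      exact LB_fin h hu hw j
    refine hU.subset ?_
    rintro x ⟨hx0, hx1, hx⟩
    obtain ⟨j, hj, hxj⟩ := hK x ⟨hx0.le, hx1⟩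
    simp only [Set.mem_iUnion, Finset.mem_range]
    refine ⟨j, by omega, hxj, hx0, ?_⟩
    intro δ hδ
    obtain ⟨y, hy0, hy1, hy2, hy3⟩ := hx δ hδ
    refine ⟨y, hy0, hy1, hy2, ?_⟩
    intro hyj
    exact hy3 (by rw [lab_eq j y hyj, lab_eq j x hxj])
  have hback : ∀ x, 0 < x → x < 1 → T α β x ∈ D → x ∈ D := by
    rintro x hx0 hx1 ⟨hT0, hT1, hT⟩
    refine ⟨hx0, hx1, ?_⟩
    intro δ hδ
    have hc : x ≠ cc α β := by
      intro e
      rw [e, T_cc h] at hT0
      exact lt_irrefl _ hT0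
    obtain ⟨δ', hδ', H⟩ := pull h hx0 hx1 hc hδ
    obtain ⟨y', hy0, hy1, hy2, hy3⟩ := hT δ' hδ'
    obtain ⟨y, h1, h2, h3, h4, h5⟩ := H y' hy1 hy2
    refine ⟨y, h1, h3, h4, ?_⟩
    intro he
    apply hy3
    rw [← h5, lab_T y h1 h2, lab_T x hx0.le hx1, he]
  have hDne : D.Nonempty := by
    by_contra hempty
    rw [Set.not_nonempty_iff_eq_empty] at hempty
    have hleft : ∀ x, 0 < x → x < 1 → ∃ δ > 0, ∀ y, 0 ≤ y → x - δ < y → y < x → lab y = lab x := by
      intro x hx0 hx1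
      by_contra hcon
      push Not at hcon
      have : x ∈ D := ⟨hx0, hx1, fun δ hδ => hcon δ hδ⟩
      rw [hempty] at this
      exact this
    have hright : ∀ x, 0 ≤ x → x < 1 → ∃ b, x < b ∧ ∀ y, x ≤ y → y < b → lab y = lab x := by
      intro x hx0 hx1
      obtain ⟨j, hj, hxj⟩ := hK x ⟨hx0, hx1⟩
      obtain ⟨_, b, hb1, _, hs⟩ := RO_iter h hROJ j x hxj
      refine ⟨b, hb1, fun y h1 h2 => ?_⟩
      rw [lab_eq j y (hs ⟨h1, h2⟩), lab_eq j x hxj]
    letI : TopologicalSpace (ZMod p) := ⊥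
    haveI : DiscreteTopology (ZMod p) := ⟨rfl⟩
    have hcont : ContinuousOn lab (Set.Ico 0 1) := by
      rintro x ⟨hx0, hx1⟩
      have hev : ∀ᶠ y in nhdsWithin x (Set.Ico 0 1), lab y = lab x := by
        obtain ⟨b, hb, H⟩ := hright x hx0 hx1
        rcases eq_or_lt_of_le hx0 with he | hlt
        · have hmem : Set.Iio b ∩ Set.Ico 0 1 ∈ nhdsWithin x (Set.Ico 0 1) :=
            Filter.inter_mem (mem_nhdsWithin_of_mem_nhds (Iio_mem_nhds hb)) self_mem_nhdsWithin
          filter_upwards [hmem] with y hy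
          exact H y (by rw [← he]; exact hy.2.1) hy.1
        · obtain ⟨δ, hδ, H'⟩ := hleft x hlt hx1
          have hmem : Set.Ioo (x - δ) b ∩ Set.Ico 0 1 ∈ nhdsWithin x (Set.Ico 0 1) :=
            Filter.inter_mem (mem_nhdsWithin_of_mem_nhds (Ioo_mem_nhds (by linarith) hb))
              self_mem_nhdsWithin
          filter_upwards [hmem] with y hy
          rcases lt_or_ge y x with hyx | hyx
          · exact H' y hy.2.1 hy.1.1 hyx
          · exact H y hyx hy.1.2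
      exact continuousWithinAt_const.congr_of_eventuallyEq hev rfl
    have h1 : lab (T α β 0) = lab 0 :=
      isPreconnected_Ico.constant hcont ⟨T_nonneg 0, T_lt 0⟩ ⟨le_rfl, one_pos⟩
    rw [lab_T 0 le_rfl one_pos] at h1
    have h2 : (1 : ZMod p) = 0 := by
      have := h1
      rwa [add_eq_left] at this
    have h3 : ((1 : ℕ) : ZMod p) = 0 := by rw [Nat.cast_one, h2]
    rw [ZMod.natCast_eq_zero_iff] at h3
    exact hp1 (Nat.dvd_one.1 h3)
  exact hN D hfin hDne (fun d hd => ⟨hd.1, hd.2.1⟩) hback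

theorem leo (h : Par α β) (htr : Trans α β) (hN : NoD α β) :
    ∀ a b : ℝ, 0 ≤ a → a < b → b ≤ 1 →
      ∃ n : ℕ, 1 ≤ n ∧ Set.Ico (0:ℝ) 1 ⊆ (T α β)^[n] '' Set.Ico a b := by
  obtain ⟨u, w, hu, huw, hw, hJ⟩ := J3 h
  obtain ⟨K, hK⟩ := partK h htr hN hu huw hw
  have hg := gcd_one h htr hN hu huw hw hJ
  set J := Set.Ico u w with hJdef
  set S : Set ℕ := {n | 1 ≤ n ∧ J ⊆ (T α β)^[n] '' J} with hS
  obtain ⟨n0, hn0⟩ := Nat.exists_mem_closure_of_ge S
  have hcl : ∀ m ∈ AddSubmonoid.closure S, J ⊆ (T α β)^[m] '' J := by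
    intro m hm
    induction hm using AddSubmonoid.closure_induction with
    | mem x hx => exact hx.2
    | zero => simp
    | add x y _ _ hx hy =>
      rw [Function.iterate_add, Set.image_comp]
      exact hx.trans (Set.image_mono hy)
  have hbig : ∀ m ≥ n0, J ⊆ (T α β)^[m] '' J := by
    intro m hm
    exact hcl m (hn0 m hm (by rw [hg]; exact one_dvd m))
  intro a b ha hab hb
  obtain ⟨k, hk1, hk⟩ := hJ a b ha hab hb
  refine ⟨(n0 + K) + k, by omega, ?_⟩
  rw [Function.iterate_add, Set.image_comp]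
  intro y hy
  apply Set.image_mono hk
  obtain ⟨j, hj, hyj⟩ := hK y hy
  have h1 := hbig (n0 + K - j) (by omega)
  have h2 : n0 + K = j + (n0 + K - j) := by omega
  rw [h2, Function.iterate_add, Set.image_comp]
  exact Set.image_mono h1 hyj

end Pool.Agent.V11105.BT
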