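import Pool.Agent.V11105.BTa
import Pool.Agent.V11105.BTd

set_option autoImplicit false
set_option maxHeartbeats 4000000

namespace Pool.Agent.V11105.BT

variable {α β : ℝ}

theorem iter_form (h : Par α β) (n : ℕ) : ∀ x, 0 ≤ x → x < 1 → ∃ s : Finset ℕ,
    (T α β)^[n] x = β ^ n * x + α * ∑ j ∈ Finset.range n, β ^ j - ∑ j ∈ s, β ^ j := by
  intro x h0 h1
  induction n with
  | zero => exact ⟨∅, by simp⟩
  | succ n ih =>
    obtain ⟨s, hs⟩ := ih
    have hy : 0 ≤ (T α β)^[n] x ∧ (T α β)^[n] x < 1 := by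
      rcases n with _ | n
      · exact ⟨h0, h1⟩
      · rw [Function.iterate_succ_apply']
        exact ⟨T_nonneg _, T_lt _⟩
    rw [Function.iterate_succ_apply']
    have hsum : ∑ j ∈ s.map ⟨Nat.succ, Nat.succ_injective⟩, β ^ j = β * ∑ j ∈ s, β ^ j := by
      rw [Finset.sum_map, Finset.mul_sum]
      apply Finset.sum_congr rfl
      intro j _
      simp only [Function.Embedding.coeFn_mk, Nat.succ_eq_add_one]
      ring
    have hG : ∑ j ∈ Finset.range (n + 1), β ^ j = β * ∑ j ∈ Finset.range n, β ^ j + 1 := by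
      rw [Finset.sum_range_succ', Finset.mul_sum, pow_zero]
      congr 1
      apply Finset.sum_congr rfl
      intro j _
      ring
    rcases lt_or_ge ((T α β)^[n] x) (cc α β) with hc | hc
    · refine ⟨s.map ⟨Nat.succ, Nat.succ_injective⟩, ?_⟩
      rw [T_lo h hy.1 hc, hsum, hG, hs]
      ring
    · refine ⟨insert 0 (s.map ⟨Nat.succ, Nat.succ_injective⟩), ?_⟩
      have h00 : (0 : ℕ) ∉ s.map ⟨Nat.succ, Nat.succ_injective⟩ := by
        simp
      rw [T_hi h hc hy.2, Finset.sum_insert h00, hsum, hG, hs]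
      ring

theorem exc_countable : {p : ℝ × ℝ | Par p.1 p.2 ∧ Exc p.1 p.2}.Countable := by
  have hU : (⋃ (q : ℕ) (s : Finset ℕ), {p : ℝ × ℝ | 1 < p.2 ∧ 1 ≤ q ∧ p.2 ^ q = 2 ∧
      p.1 * (p.2 ^ q + ∑ j ∈ Finset.range q, p.2 ^ j - 1) = ∑ j ∈ s, p.2 ^ j}).Countable := by
    apply Set.countable_iUnion
    intro q
    apply Set.countable_iUnion
    intro s
    apply Set.Subsingleton.countable
    rintro ⟨a, b⟩ ⟨h1, h2, h3, h4⟩ ⟨a', b'⟩ ⟨h1', _, h3', h4'⟩
    simp only at h1 h2 h3 h4 h1' h3' h4'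
    have hbb : b = b' := by
      refine (pow_left_inj₀ (by linarith) (by linarith) (by omega : q ≠ 0)).1 ?_
      rw [h3, h3']
    subst hbb
    have hpos : 0 < b ^ q + ∑ j ∈ Finset.range q, b ^ j - 1 := by
      rw [h3]
      have : 0 ≤ ∑ j ∈ Finset.range q, b ^ j :=
        Finset.sum_nonneg (fun j _ => by positivity)
      linarith
    have : a = a' := by
      apply mul_right_cancel₀ hpos.ne'
      rw [h4, h4']
    rw [this]
  refine hU.mono ?_
  rintro ⟨a, b⟩ ⟨hp, q, hq1, hq2, hq3⟩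
  simp only at hp hq2 hq3
  have hb := hp.b1
  have ha0 := hp.a0
  have hab := hp.ab
  obtain ⟨s, hs⟩ := iter_form hp q a hp.a0 (by linarith)
  simp only [Set.mem_iUnion]
  refine ⟨q, s, hb, hq1, hq2, ?_⟩
  simp only
  rw [hq3] at hs
  linear_combination -hs

end Pool.Agent.V11105.BT
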