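import Mathlib

/-!
Besicovitch cylindrical transformations with Hölder continuous functions.
-/

open Filter Set Topology
open scoped NNReal

namespace Pool.Agent.V11105.Bes

noncomputable section

/-- The cylindrical transformation `(x,y) ↦ (x + α, y + φ(x))` of `(ℝ/ℤ) × ℝ`, as a bijection. -/
def cyl (α : ℝ) (φ : UnitAddCircle → ℝ) : Equiv.Perm (UnitAddCircle × ℝ) where
  toFun p := (p.1 + (α : UnitAddCircle), p.2 + φ p.1)
  invFun p := (p.1 - (α : UnitAddCircle), p.2 - φ (p.1 - (α : UnitAddCircle)))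
  left_inv p := by simp
  right_inv p := by simp

/-- The (two-sided) orbit of a point under the cylindrical transformation. -/
def orbit (α : ℝ) (φ : UnitAddCircle → ℝ) (p : UnitAddCircle × ℝ) : Set (UnitAddCircle × ℝ) :=
  Set.range fun n : ℤ => ((cyl α φ) ^ n) p

/-- The cylindrical transformation is Besicovitch: some orbit is dense in `(ℝ/ℤ) × ℝ` and some
orbit has no accumulation point in `(ℝ/ℤ) × ℝ`. -/
structure IsBesicovitch (α : ℝ) (φ : UnitAddCircle → ℝ) : Prop where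
  exists_dense_orbit : ∃ p, Dense (orbit α φ p)
  exists_discrete_orbit : ∃ p, ∀ z, ¬ AccPt z (𝓟 (orbit α φ p))

/-! ### Cocycle -/

variable {α : ℝ} {φ : UnitAddCircle → ℝ}

/-- Birkhoff sums. -/
def S (α : ℝ) (φ : UnitAddCircle → ℝ) (n : ℤ) (x : UnitAddCircle) : ℝ := (((cyl α φ) ^ n) (x, 0)).2

lemma cyl_apply (x : UnitAddCircle) (y : ℝ) : cyl α φ (x, y) = (x + α, y + φ x) := rfl

lemma cyl_symm_apply (x : UnitAddCircle) (y : ℝ) :
    (cyl α φ)⁻¹ (x, y) = (x - α, y - φ (x - α)) := rfl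

lemma cyl_zpow_aux (n : ℤ) : ∀ (x : UnitAddCircle) (y : ℝ),
    ((cyl α φ) ^ n) (x, y) = (x + n • (α : UnitAddCircle), y + S α φ n x) := by
  induction n using Int.induction_on with
  | zero => intro x y; simp [S]
  | succ n ih =>
    intro x y
    have h : ∀ y, ((cyl α φ) ^ ((n : ℤ) + 1)) (x, y) = cyl α φ (((cyl α φ) ^ (n : ℤ)) (x, y)) := by
      intro y; rw [zpow_add_one, ← (Commute.self_zpow (cyl α φ) n).eq]; rfl
    have hS : S α φ ((n : ℤ) + 1) x = S α φ n x + φ (x + (n : ℤ) • (α : UnitAddCircle)) := by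
      have h0 := h 0
      rw [ih x 0, cyl_apply] at h0
      unfold S at *
      rw [h0]; simp
    rw [h y, ih x y, cyl_apply, hS, add_smul, one_smul]
    ext <;> simp [add_assoc]
  | pred n ih =>
    intro x y
    have h : ∀ y, ((cyl α φ) ^ (-(n : ℤ) - 1)) (x, y)
        = (cyl α φ)⁻¹ (((cyl α φ) ^ (-(n : ℤ))) (x, y)) := by
      intro y; rw [zpow_sub_one, ← ((Commute.self_zpow (cyl α φ) (-(n : ℤ))).inv_left).eq]; rfl
    have hS : S α φ (-(n : ℤ) - 1) x = S α φ (-n) x
        - φ (x + (-(n : ℤ)) • (α : UnitAddCircle) - α) := by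
      have h0 := h 0
      rw [ih x 0, cyl_symm_apply] at h0
      unfold S at *
      rw [h0]; simp
    rw [h y, ih x y, cyl_symm_apply, hS, sub_smul, one_smul]
    ext
    · simp [add_sub_assoc]
    · simp [add_sub_assoc]

lemma S_zero (x : UnitAddCircle) : S α φ 0 x = 0 := by simp [S]

lemma S_one (x : UnitAddCircle) : S α φ 1 x = φ x := by simp [S, cyl_apply]

lemma S_add (m n : ℤ) (x : UnitAddCircle) :
    S α φ (m + n) x = S α φ n x + S α φ m (x + n • (α : UnitAddCircle)) := by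
  have h : ((cyl α φ) ^ (m + n)) (x, 0) = ((cyl α φ) ^ m) (((cyl α φ) ^ n) (x, 0)) := by
    rw [zpow_add]; rfl
  have h1 := congrArg Prod.snd h
  rw [cyl_zpow_aux n, cyl_zpow_aux m, cyl_zpow_aux (m + n)] at h1
  simpa using h1

lemma S_neg (n : ℤ) : S α φ n (-(n • (α : UnitAddCircle))) = - S α φ (-n) 0 := by
  have h := S_add (α := α) (φ := φ) n (-n) 0
  rw [add_neg_cancel, S_zero] at h
  simp only [zero_add, neg_smul] at h
  linarith

lemma continuous_cyl_zpow (hφ : Continuous φ) (n : ℤ) : Continuous (fun p => ((cyl α φ) ^ n) p) := by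
  have h1 : Continuous (fun p => (cyl α φ) p) := by
    show Continuous (fun p : UnitAddCircle × ℝ => (p.1 + (α : UnitAddCircle), p.2 + φ p.1))
    fun_prop
  have h2 : Continuous (fun p => (cyl α φ)⁻¹ p) := by
    show Continuous (fun p : UnitAddCircle × ℝ =>
      (p.1 - (α : UnitAddCircle), p.2 - φ (p.1 - (α : UnitAddCircle))))
    fun_prop
  induction n using Int.induction_on with
  | zero =>
    have : (fun p : UnitAddCircle × ℝ => ((cyl α φ) ^ (0 : ℤ)) p) = id := by
      ext p <;> simp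
    rw [this]; exact continuous_id
  | succ n ih =>
    simp only [zpow_add_one]
    exact ih.comp h1
  | pred n ih =>
    simp only [zpow_sub_one]
    exact ih.comp h2

lemma continuous_S (hφ : Continuous φ) (n : ℤ) : Continuous (S α φ n) := by
  have h : Continuous (fun x : UnitAddCircle => (((cyl α φ) ^ n) (x, (0 : ℝ))).2) :=
    continuous_snd.comp ((continuous_cyl_zpow hφ n).comp (continuous_id.prodMk continuous_const))
  exact h

/-- Transitivity on open sets. -/
lemma transitive_open (hφ : Continuous φ) (hα : Irrational α)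
    (hS : Tendsto (fun n : ℤ => S α φ n 0) cofinite atTop)
    (q : ℕ → ℤ) (δ : ℕ → ℝ) (hq : Tendsto (fun j => q j) atTop cofinite)
    (hq' : Tendsto (fun j => - q j) atTop cofinite)
    (hδ : Tendsto δ atTop (𝓝 0)) (hqδ : ∀ j, (q j) • (α : UnitAddCircle) = (δ j : ℝ))
    {U V : Set (UnitAddCircle × ℝ)} (hU : IsOpen U) (hUn : U.Nonempty) (hV : IsOpen V)
    (hVn : V.Nonempty) : ∃ m : ℤ, ∃ p ∈ U, ((cyl α φ) ^ m) p ∈ V := by
  obtain ⟨⟨x1, y1⟩, h1⟩ := hUn
  obtain ⟨⟨x2, y2⟩, h2⟩ := hVn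
  have hdense : DenseRange (fun n : ℤ => n • (α : UnitAddCircle)) := by
    rw [AddCircle.denseRange_zsmul_coe_iff]
    simpa using hα
  obtain ⟨l, hl⟩ : ∃ l : ℤ, (l • (α : UnitAddCircle), y1) ∈ U := by
    have := hdense.exists_mem_open (s := (fun x => (x, y1)) ⁻¹' U) (hU.preimage (by fun_prop))
      ⟨x1, h1⟩
    exact this
  obtain ⟨k, hk⟩ : ∃ k : ℤ, (k • (α : UnitAddCircle), y2) ∈ V := by
    have := hdense.exists_mem_open (s := (fun x => (x, y2)) ⁻¹' V) (hV.preimage (by fun_prop))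
      ⟨x2, h2⟩
    exact this
  set s0 := S α φ (k - l) (l • (α : UnitAddCircle)) with hs0
  set s := y2 - y1 - s0 with hs
  have hcS := fun n => continuous_S (α := α) hφ n
  -- the intermediate value argument
  have hex : ∀ᶠ j in atTop, ∃ t ∈ Icc (0 : ℝ) 1, S α φ (q j) ((-(t * δ j) : ℝ) : UnitAddCircle) = s := by
    have e1 := (hS.comp hq).eventually (eventually_ge_atTop s)
    have e2 := (hS.comp hq').eventually (eventually_ge_atTop (-s))
    filter_upwards [e1, e2] with j h1 h2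
    simp only [Function.comp] at h1 h2
    have hc : ContinuousOn (fun t : ℝ => S α φ (q j) ((-(t * δ j) : ℝ) : UnitAddCircle)) (Icc 0 1) := by
      apply Continuous.continuousOn
      apply (hcS (q j)).comp
      exact (AddCircle.continuous_mk' (1 : ℝ)).comp (by fun_prop)
    have hiv := intermediate_value_Icc' (zero_le_one) hc
    have hs1 : s ∈ Icc (S α φ (q j) ((-(1 * δ j) : ℝ) : UnitAddCircle))
        (S α φ (q j) ((-(0 * δ j) : ℝ) : UnitAddCircle)) := by
      constructor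
      · have : ((-(1 * δ j) : ℝ) : UnitAddCircle) = -((q j) • (α : UnitAddCircle)) := by
          rw [hqδ]; simp
        rw [this, S_neg]
        linarith
      · simpa using h1
    obtain ⟨t, ht, hts⟩ := hiv hs1
    exact ⟨t, ht, hts⟩
  -- choose
  choose! t ht using fun j => (Classical.em (∃ t ∈ Icc (0 : ℝ) 1,
    S α φ (q j) ((-(t * δ j) : ℝ) : UnitAddCircle) = s)).elim
      (fun h => (⟨h.choose, fun _ => h.choose_spec⟩ : ∃ t : ℝ, (∃ t ∈ Icc (0 : ℝ) 1,
    S α φ (q j) ((-(t * δ j) : ℝ) : UnitAddCircle) = s) → t ∈ Icc (0 : ℝ) 1 ∧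
    S α φ (q j) ((-(t * δ j) : ℝ) : UnitAddCircle) = s))
      (fun h => ⟨0, fun h' => absurd h' h⟩)
  set z : ℕ → UnitAddCircle := fun j => ((-(t j * δ j) : ℝ) : UnitAddCircle) with hz
  have hzlim : Tendsto z atTop (𝓝 0) := by
    have h0 : Tendsto (fun j => -(t j * δ j)) atTop (𝓝 0) := by
      apply squeeze_zero_norm' _ (by simpa using hδ.norm)
      filter_upwards [hex] with j hj
      have := (ht j hj).1
      rw [norm_neg, norm_mul, Real.norm_eq_abs (t j), abs_of_nonneg this.1]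
      exact mul_le_of_le_one_left (norm_nonneg _) this.2
    have h : Tendsto z atTop (𝓝 ((0 : ℝ) : UnitAddCircle)) :=
      ((AddCircle.continuous_mk' (1 : ℝ)).tendsto 0).comp h0
    exact h
  have hδlim : Tendsto (fun j => ((δ j : ℝ) : UnitAddCircle)) atTop (𝓝 0) := by
    have h : Tendsto (fun j => ((δ j : ℝ) : UnitAddCircle)) atTop (𝓝 ((0 : ℝ) : UnitAddCircle)) :=
      ((AddCircle.continuous_mk' (1 : ℝ)).tendsto 0).comp hδ
    exact h
  have hzδ : Tendsto (fun j => z j + ((δ j : ℝ) : UnitAddCircle)) atTop (𝓝 0) := by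
    simpa using hzlim.add hδlim
  -- the points
  have hp : Tendsto (fun j => ((l • (α : UnitAddCircle) + z j, y1) : UnitAddCircle × ℝ)) atTop
      (𝓝 (l • (α : UnitAddCircle), y1)) := by
    apply Tendsto.prodMk_nhds _ tendsto_const_nhds
    simpa using (tendsto_const_nhds (x := l • (α : UnitAddCircle))).add hzlim
  have hq2 : Tendsto (fun j => ((k • (α : UnitAddCircle) + (z j + ((δ j : ℝ) : UnitAddCircle)),
      y1 + (s + S α φ l (z j + ((δ j : ℝ) : UnitAddCircle)) - S α φ l (z j)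
      + S α φ (k - l) (l • (α : UnitAddCircle) + (z j + ((δ j : ℝ) : UnitAddCircle)))))
        : UnitAddCircle × ℝ)) atTop (𝓝 (k • (α : UnitAddCircle), y2)) := by
    apply Tendsto.prodMk_nhds
    · simpa using (tendsto_const_nhds (x := k • (α : UnitAddCircle))).add hzδ
    · have l1 : Tendsto (fun j => S α φ l (z j + ((δ j : ℝ) : UnitAddCircle))) atTop
          (𝓝 (S α φ l 0)) := ((hcS l).tendsto 0).comp hzδ
      have l2 : Tendsto (fun j => S α φ l (z j)) atTop (𝓝 (S α φ l 0)) :=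
        ((hcS l).tendsto 0).comp hzlim
      have l3 : Tendsto (fun j => S α φ (k - l) (l • (α : UnitAddCircle)
          + (z j + ((δ j : ℝ) : UnitAddCircle)))) atTop (𝓝 s0) := by
        apply ((hcS (k - l)).tendsto _).comp
        simpa using (tendsto_const_nhds (x := l • (α : UnitAddCircle))).add hzδ
      have := (((tendsto_const_nhds (x := s)).add l1).sub l2).add l3
      have h5 := (tendsto_const_nhds (x := y1)).add this
      convert h5 using 2
      rw [hs]; ring
  have ev1 := hp.eventually (hU.mem_nhds hl)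
  have ev2 := hq2.eventually (hV.mem_nhds hk)
  obtain ⟨j, hj, hj1, hj2⟩ := (hex.and (ev1.and ev2)).exists
  refine ⟨(k - l) + q j, _, hj1, ?_⟩
  rw [cyl_zpow_aux]
  have hSj : S α φ (q j) (z j) = s := (ht j hj).2
  have hSl : S α φ (q j) (l • (α : UnitAddCircle) + z j)
      = s + S α φ l (z j + ((δ j : ℝ) : UnitAddCircle)) - S α φ l (z j) := by
    have a1 := S_add (α := α) (φ := φ) (q j) l (z j)
    have a2 := S_add (α := α) (φ := φ) l (q j) (z j)
    rw [add_comm l (q j), a1, hSj, hqδ] at a2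
    rw [add_comm (l • (α : UnitAddCircle)) (z j)]
    linarith
  have e1 : l • (α : UnitAddCircle) + z j + (k - l + q j) • (α : UnitAddCircle)
      = k • (α : UnitAddCircle) + (z j + ((δ j : ℝ) : UnitAddCircle)) := by
    simp only [add_smul, sub_smul, hqδ]
    abel
  have e2 : S α φ (k - l + q j) (l • (α : UnitAddCircle) + z j)
      = s + S α φ l (z j + ((δ j : ℝ) : UnitAddCircle)) - S α φ l (z j)
        + S α φ (k - l) (l • (α : UnitAddCircle) + (z j + ((δ j : ℝ) : UnitAddCircle))) := by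
    rw [S_add, hSl, hqδ]
    rw [show l • (α : UnitAddCircle) + z j + ((δ j : ℝ) : UnitAddCircle)
      = l • (α : UnitAddCircle) + (z j + ((δ j : ℝ) : UnitAddCircle)) by abel]
  rw [e1, e2]
  exact hj2

/-- A discrete orbit over `0` with Birkhoff sums tending to `+∞` in both directions. -/
theorem isBesicovitch_of (hφ : Continuous φ) (hα : Irrational α)
    (hS : Tendsto (fun n : ℤ => S α φ n 0) cofinite atTop)
    (q : ℕ → ℤ) (δ : ℕ → ℝ) (hq : Tendsto (fun j => q j) atTop cofinite)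
    (hq' : Tendsto (fun j => - q j) atTop cofinite)
    (hδ : Tendsto δ atTop (𝓝 0)) (hqδ : ∀ j, (q j) • (α : UnitAddCircle) = (δ j : ℝ)) :
    IsBesicovitch α φ := by
  constructor
  · -- dense orbit
    set B := TopologicalSpace.countableBasis (UnitAddCircle × ℝ) with hB
    have hBc : B.Countable := TopologicalSpace.countable_countableBasis _
    have hBb := TopologicalSpace.isBasis_countableBasis (UnitAddCircle × ℝ)
    set W : Set (UnitAddCircle × ℝ) → Set (UnitAddCircle × ℝ) :=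
      fun V => ⋃ m : ℤ, (fun p => ((cyl α φ) ^ m) p) ⁻¹' V with hW
    have hd : Dense (⋂ V ∈ B \ {∅}, W V) := by
      apply dense_biInter_of_isOpen
      · intro V hV
        exact isOpen_iUnion fun m => (hBb.isOpen hV.1).preimage (continuous_cyl_zpow hφ m)
      · exact hBc.mono sdiff_subset
      · intro V hV
        rw [dense_iff_inter_open]
        intro U hU hUn
        have hVn : V.Nonempty := nonempty_iff_ne_empty.2 hV.2
        obtain ⟨m, p, hp, hpV⟩ := transitive_open hφ hα hS q δ hq hq' hδ hqδ hU hUn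
          (hBb.isOpen hV.1) hVn
        exact ⟨p, hp, mem_iUnion.2 ⟨m, hpV⟩⟩
    obtain ⟨p, hp⟩ := hd.nonempty
    refine ⟨p, ?_⟩
    rw [hBb.dense_iff]
    intro V hV hVn
    have := mem_iInter₂.1 hp V ⟨hV, hVn.ne_empty⟩
    obtain ⟨m, hm⟩ := mem_iUnion.1 this
    exact ⟨_, hm, ⟨m, rfl⟩⟩
  · refine ⟨(0, 0), ?_⟩
    intro z hz
    have hN : {p : UnitAddCircle × ℝ | p.2 < z.2 + 1} ∈ 𝓝 z := by
      apply (isOpen_lt continuous_snd continuous_const).mem_nhds
      simp
    have hinf := Set.Infinite.of_accPt (hz.nhds_inter hN)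
    apply hinf
    have hfin : {n : ℤ | ¬ (z.2 + 1 ≤ S α φ n 0)}.Finite := by
      have := hS.eventually (eventually_ge_atTop (z.2 + 1))
      exact this
    apply (hfin.image (fun n : ℤ => ((cyl α φ) ^ n) ((0 : UnitAddCircle), (0 : ℝ)))).subset
    rintro p ⟨hp1, n, rfl⟩
    refine ⟨n, ?_, rfl⟩
    simp only [mem_ofPred_eq, not_le] at hp1 ⊢
    exact hp1

/-! ### The concrete function -/

/-- the character `x ↦ exp(2πix)` -/
def E (x : UnitAddCircle) : ℂ := (AddCircle.toCircle x : ℂ)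

lemma E_add (x y : UnitAddCircle) : E (x + y) = E x * E y := by
  unfold E; rw [AddCircle.toCircle_add]; rfl

lemma E_norm (x : UnitAddCircle) : ‖E x‖ = 1 := Circle.norm_coe _

lemma E_coe (t : ℝ) : E (t : UnitAddCircle) = Complex.exp (Complex.I * ((2 * Real.pi * t : ℝ))) := by
  unfold E
  have := fourier_coe_apply (T := (1 : ℝ)) (n := 1) (x := t)
  rw [fourier_one] at this
  rw [this]
  congr 1
  push_cast
  ring

lemma continuous_E : Continuous E := by
  unfold E
  exact continuous_subtype_val.comp AddCircle.continuous_toCircle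

lemma E_sub_one_coe (t : ℝ) : ‖E (t : UnitAddCircle) - 1‖ ≤ 2 * Real.pi * |t| := by
  rw [E_coe]
  refine (Real.norm_exp_I_mul_ofReal_sub_one_le (x := 2 * Real.pi * t)).trans ?_
  rw [Real.norm_eq_abs, abs_mul, abs_of_pos Real.two_pi_pos]

lemma exists_rep (x : UnitAddCircle) : ∃ t : ℝ, (t : UnitAddCircle) = x ∧ |t| = ‖x‖ := by
  induction x using QuotientAddGroup.induction_on with
  | H s =>
    refine ⟨s - round s, ?_, ?_⟩
    · have : ((s - (round s : ℝ) : ℝ) : UnitAddCircle) = (s : UnitAddCircle) - ((round s : ℝ) : UnitAddCircle) := rfl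
      rw [this]
      have h0 : ((round s : ℝ) : UnitAddCircle) = 0 := by
        rw [AddCircle.coe_eq_zero_iff]
        exact ⟨round s, by simp⟩
      rw [h0, sub_zero]
    · exact (UnitAddCircle.norm_eq).symm

lemma E_sub_one (k : ℕ) (x : UnitAddCircle) : ‖E (k • x) - 1‖ ≤ 2 * Real.pi * (k * ‖x‖) := by
  obtain ⟨t, rfl, ht⟩ := exists_rep x
  rw [← ht]
  have : k • (t : UnitAddCircle) = ((k * t : ℝ) : UnitAddCircle) := by
    rw [← nsmul_eq_mul]; rfl
  rw [this]
  refine (E_sub_one_coe _).trans ?_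
  rw [abs_mul, Nat.abs_cast]

/-- the golden ratio as rotation number -/
def α0 : ℝ := Real.goldenRatio

/-- `δ_n = -ψ^n`, the small displacement of the rotation by `fib n` -/
def dl (n : ℕ) : ℝ := -(Real.goldenConj) ^ n

/-- `r = |ψ| < 1` -/
def r : ℝ := -Real.goldenConj

lemma r_pos : 0 < r := by unfold r; linarith [Real.goldenConj_neg]

lemma r_lt_one : r < 1 := by unfold r; linarith [Real.neg_one_lt_goldenConj]

lemma r_gt : 1 / 3 < r := by
  unfold r Real.goldenConj
  have : (2 : ℝ) < √5 := by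
    rw [Real.lt_sqrt (by norm_num)]; norm_num
  linarith

lemma abs_dl (n : ℕ) : |dl n| = r ^ n := by
  unfold dl r
  rw [abs_neg, abs_pow, abs_of_neg Real.goldenConj_neg]

lemma fib_smul (n : ℕ) : (Nat.fib n) • (α0 : UnitAddCircle) = ((dl n : ℝ) : UnitAddCircle) := by
  have h := Real.fib_succ_sub_goldenRatio_mul_fib n
  have h1 : (Nat.fib n : ℝ) * α0 = dl n + (Nat.fib (n + 1) : ℝ) := by
    unfold α0 dl; linarith
  have h2 : (Nat.fib n) • (α0 : UnitAddCircle) = (((Nat.fib n : ℝ) * α0 : ℝ) : UnitAddCircle) := by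
    rw [← nsmul_eq_mul]; rfl
  have h0 : ((Nat.fib (n + 1) : ℝ) : UnitAddCircle) = 0 := by
    rw [AddCircle.coe_eq_zero_iff]
    exact ⟨Nat.fib (n + 1), by simp⟩
  rw [h2, h1]
  have : ((dl n + (Nat.fib (n + 1) : ℝ) : ℝ) : UnitAddCircle)
    = ((dl n : ℝ) : UnitAddCircle) + ((Nat.fib (n + 1) : ℝ) : UnitAddCircle) := rfl
  rw [this, h0, add_zero]

lemma fib_smul_zsmul (n : ℕ) (m : ℤ) : (Nat.fib n) • (m • (α0 : UnitAddCircle))
    = ((m * dl n : ℝ) : UnitAddCircle) := by
  rw [smul_comm, fib_smul, ← zsmul_eq_mul]; rfl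

lemma fib_le (n : ℕ) : (Nat.fib n : ℝ) * r ^ n ≤ 1 := by
  have h : ∀ n, (Nat.fib n : ℝ) ≤ Real.goldenRatio ^ n := by
    intro n
    induction n using Nat.twoStepInduction with
    | zero => simp
    | one => simpa using Real.one_lt_goldenRatio.le
    | more n h1 h2 =>
      rw [Nat.fib_add_two]
      push_cast
      have := Real.goldenRatio_pow_sub_goldenRatio_pow n
      linarith
  have h2 : Real.goldenRatio * r = 1 := by
    unfold r
    have := Real.goldenRatio_mul_goldenConj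
    linarith
  calc (Nat.fib n : ℝ) * r ^ n ≤ Real.goldenRatio ^ n * r ^ n := by
        apply mul_le_mul_of_nonneg_right (h n) (pow_nonneg r_pos.le _)
    _ = 1 := by rw [← mul_pow, h2, one_pow]

/-- the `n`-th term of the difference `G_n(x) - G_n(x + m α)` -/
def term (n : ℕ) (m : ℤ) (x : UnitAddCircle) : ℝ :=
  (n : ℝ) * ((E (Nat.fib n • x)).re - (E (Nat.fib n • (x + m • (α0 : UnitAddCircle)))).re)

lemma norm_one_sub_E (n : ℕ) (m : ℤ) :
    ‖1 - E (Nat.fib n • (m • (α0 : UnitAddCircle)))‖ ≤ 2 * Real.pi * (|(m : ℝ)| * r ^ n) := by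
  rw [norm_sub_rev, fib_smul_zsmul]
  refine (E_sub_one_coe _).trans ?_
  rw [abs_mul, abs_dl]

lemma term_eq (n : ℕ) (m : ℤ) (x : UnitAddCircle) :
    term n m x = (n : ℝ) * (E (Nat.fib n • x) *
      (1 - E (Nat.fib n • (m • (α0 : UnitAddCircle))))).re := by
  unfold term
  rw [smul_add, E_add, mul_sub (E _), mul_one, Complex.sub_re]

lemma term_abs_le (n : ℕ) (m : ℤ) (x : UnitAddCircle) :
    |term n m x| ≤ 2 * Real.pi * |(m : ℝ)| * ((n : ℝ) * r ^ n) := by
  rw [term_eq, abs_mul, Nat.abs_cast]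
  have h1 : |(E (Nat.fib n • x) * (1 - E (Nat.fib n • (m • (α0 : UnitAddCircle))))).re|
      ≤ 2 * Real.pi * (|(m : ℝ)| * r ^ n) := by
    refine (Complex.abs_re_le_norm _).trans ?_
    rw [norm_mul, E_norm, one_mul]
    exact norm_one_sub_E n m
  calc (n : ℝ) * _ ≤ n * (2 * Real.pi * (|(m : ℝ)| * r ^ n)) := by gcongr
    _ = _ := by ring

lemma summable_nr : Summable (fun n : ℕ => (n : ℝ) * r ^ n) := by
  have := summable_pow_mul_geometric_of_norm_lt_one (R := ℝ) 1 (r := r)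
    (by rw [Real.norm_eq_abs, abs_of_pos r_pos]; exact r_lt_one)
  simpa using this

lemma summable_term (m : ℤ) (x : UnitAddCircle) : Summable (fun n => term n m x) := by
  apply Summable.of_norm_bounded (summable_nr.mul_left (2 * Real.pi * |(m : ℝ)|))
  intro n
  exact term_abs_le n m x

/-- The function. -/
def φ0 (x : UnitAddCircle) : ℝ := ∑' n, term n 1 x

lemma S_eq (m : ℤ) : ∀ x, S α0 φ0 m x = ∑' n, term n m x := by
  have hstep : ∀ (m : ℤ) (x : UnitAddCircle), ∑' n, term n (m + 1) x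
      = ∑' n, term n m x + φ0 (x + m • (α0 : UnitAddCircle)) := by
    intro m x
    unfold φ0
    rw [← (summable_term m x).tsum_add (summable_term 1 _)]
    congr 1
    ext n
    unfold term
    rw [add_smul, one_smul, add_assoc]
    ring
  induction m using Int.induction_on with
  | zero => intro x; simp [S_zero, term]
  | succ m ih =>
    intro x
    rw [hstep, ← ih, add_comm (m : ℤ) 1, S_add, S_one]
  | pred m ih =>
    intro x
    have h1 := hstep (-(m : ℤ) - 1) x
    have h2 := S_add (α := α0) (φ := φ0) 1 (-(m : ℤ) - 1) x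
    rw [S_one] at h2
    rw [sub_add_cancel] at h1
    rw [show (1 : ℤ) + (-(m : ℤ) - 1) = -(m : ℤ) by ring, ih] at h2
    linarith

lemma E_zero : E 0 = 1 := by
  have := E_coe 0
  simpa using this

lemma term_zero (n : ℕ) (m : ℤ) :
    term n m 0 = n * (1 - Real.cos (2 * Real.pi * (m * dl n))) := by
  unfold term
  rw [zero_add, smul_zero, E_zero, fib_smul_zsmul, E_coe, mul_comm Complex.I,
    Complex.exp_ofReal_mul_I_re, Complex.one_re]

lemma term_zero_nonneg (n : ℕ) (m : ℤ) : 0 ≤ term n m 0 := by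
  rw [term_zero]
  have := Real.cos_le_one (2 * Real.pi * (m * dl n))
  have h0 : (0 : ℝ) ≤ n := Nat.cast_nonneg n
  nlinarith

lemma exists_good (m : ℤ) (hm : m ≠ 0) : ∃ N : ℕ, |(m : ℝ)| * r ^ N ≤ 3 / 4 ∧
    (N : ℝ) ≤ S α0 φ0 m 0 := by
  have hm1 : (1 : ℝ) ≤ |(m : ℝ)| := by
    have := Int.one_le_abs hm
    exact_mod_cast this
  have hex : ∃ N : ℕ, |(m : ℝ)| * r ^ N ≤ 3 / 4 := by
    have h := (tendsto_pow_atTop_nhds_zero_of_lt_one r_pos.le r_lt_one).const_mul |(m : ℝ)|
    rw [mul_zero] at h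
    have := h.eventually (ge_mem_nhds (show (0 : ℝ) < 3 / 4 by norm_num))
    exact this.exists
  classical
  set N := Nat.find hex with hN
  have h1 : |(m : ℝ)| * r ^ N ≤ 3 / 4 := Nat.find_spec hex
  have h2 : 1 / 4 ≤ |(m : ℝ)| * r ^ N := by
    have hN0 : N ≠ 0 := by
      intro h0
      rw [h0] at h1
      norm_num at h1
      linarith
    obtain ⟨k, hk⟩ := Nat.exists_eq_succ_of_ne_zero hN0
    have h3 := Nat.find_min hex (m := k) (by omega)
    push Not at h3
    rw [hk, pow_succ]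
    have := r_gt
    have := r_pos
    nlinarith
  refine ⟨N, h1, ?_⟩
  have hcos : Real.cos (2 * Real.pi * (m * dl N)) ≤ 0 := by
    rw [← Real.cos_abs, abs_mul, abs_of_pos Real.two_pi_pos, abs_mul, abs_dl]
    have hpi := Real.pi_pos
    apply Real.cos_nonpos_of_pi_div_two_le_of_le
    · nlinarith
    · nlinarith
  rw [S_eq]
  calc (N : ℝ) ≤ term N m 0 := by
        rw [term_zero]
        have h0 : (0 : ℝ) ≤ N := Nat.cast_nonneg N
        nlinarith
    _ ≤ ∑' n, term n m 0 := (summable_term m 0).le_tsum N (fun n _ => term_zero_nonneg n m)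

lemma tendsto_S : Tendsto (fun m : ℤ => S α0 φ0 m 0) cofinite atTop := by
  rw [tendsto_atTop]
  intro K
  rw [eventually_cofinite]
  set L : ℕ := ⌈K⌉₊ with hL
  set B : ℤ := ⌈(r⁻¹) ^ L⌉ with hB
  apply (Set.finite_Icc (-B) B).subset
  intro m hm
  rw [mem_Icc, ← abs_le]
  by_cases hm0 : m = 0
  · rw [hm0, abs_zero]
    apply Int.ceil_nonneg
    have := r_pos
    positivity
  obtain ⟨N, h1, h2⟩ := exists_good m hm0
  have hm' : ¬ K ≤ S α0 φ0 m 0 := hm
  have hNK : (N : ℝ) < K := by linarith [not_le.1 hm']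
  have hNL : N ≤ L := by
    have : (N : ℝ) ≤ L := hNK.le.trans (Nat.le_ceil K)
    exact_mod_cast this
  have hr := r_pos
  have h3 : |(m : ℝ)| ≤ (r⁻¹) ^ N := by
    rw [inv_pow, ← one_div, le_div_iff₀ (pow_pos hr N)]
    linarith
  have h4 : (r⁻¹) ^ N ≤ (r⁻¹) ^ L :=
    pow_le_pow_right₀ ((one_le_inv₀ hr).2 r_lt_one.le) hNL
  have h5 : ((|m| : ℤ) : ℝ) ≤ B := by
    push_cast
    exact (h3.trans h4).trans (Int.le_ceil _)
  exact_mod_cast h5

lemma E_sub_one_holder (k : ℕ) (z : UnitAddCircle) (γ : ℝ) (h0 : 0 ≤ γ) (h1 : γ ≤ 1) :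
    ‖E (k • z) - 1‖ ≤ 2 * Real.pi * ((k : ℝ) * ‖z‖) ^ γ := by
  have hpi := Real.pi_gt_three
  have hk : 0 ≤ (k : ℝ) * ‖z‖ := by positivity
  rcases le_or_gt 1 ((k : ℝ) * ‖z‖) with h | h
  · have h2 : ‖E (k • z) - 1‖ ≤ 2 := by
      refine (norm_sub_le _ _).trans ?_
      rw [E_norm, norm_one]; norm_num
    have h3 : 1 ≤ ((k : ℝ) * ‖z‖) ^ γ := Real.one_le_rpow h h0
    nlinarith
  · refine (E_sub_one k z).trans ?_
    apply mul_le_mul_of_nonneg_left _ (by positivity)
    calc (k : ℝ) * ‖z‖ = ((k : ℝ) * ‖z‖) ^ (1 : ℝ) := (Real.rpow_one _).symm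
      _ ≤ ((k : ℝ) * ‖z‖) ^ γ := Real.rpow_le_rpow_of_exponent_ge' hk h.le h0 h1

lemma term_sub_le (n : ℕ) (x y : UnitAddCircle) (γ : ℝ) (h0 : 0 ≤ γ) (h1 : γ ≤ 1) :
    |term n 1 x - term n 1 y|
      ≤ (4 * Real.pi ^ 2) * ((n : ℝ) * (r ^ (1 - γ)) ^ n) * ‖x - y‖ ^ γ := by
  have hr := r_pos
  have e1 : term n 1 x - term n 1 y = (n : ℝ) * ((E (Nat.fib n • x) - E (Nat.fib n • y)) *
      (1 - E (Nat.fib n • ((1 : ℤ) • (α0 : UnitAddCircle))))).re := by
    rw [term_eq, term_eq, ← mul_sub, ← Complex.sub_re, sub_mul]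
  have e2 : ‖E (Nat.fib n • x) - E (Nat.fib n • y)‖ = ‖E (Nat.fib n • (x - y)) - 1‖ := by
    have : E (Nat.fib n • x) = E (Nat.fib n • (x - y)) * E (Nat.fib n • y) := by
      rw [← E_add, ← smul_add]; simp
    rw [this, ← sub_one_mul, norm_mul, E_norm, mul_one]
  have e3 : |((E (Nat.fib n • x) - E (Nat.fib n • y)) *
      (1 - E (Nat.fib n • ((1 : ℤ) • (α0 : UnitAddCircle))))).re|
      ≤ (2 * Real.pi * ((Nat.fib n : ℝ) * ‖x - y‖) ^ γ) * (2 * Real.pi * r ^ n) := by
    refine (Complex.abs_re_le_norm _).trans ?_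
    rw [norm_mul, e2]
    have a1 := E_sub_one_holder (Nat.fib n) (x - y) γ h0 h1
    have a2 := norm_one_sub_E n 1
    simp only [Int.cast_one, abs_one, one_mul] at a2
    exact mul_le_mul a1 a2 (norm_nonneg _) (by positivity)
  have e4 : (Nat.fib n : ℝ) ^ γ * r ^ n ≤ (r ^ (1 - γ)) ^ n := by
    have b1 : (Nat.fib n : ℝ) ≤ (r ^ n)⁻¹ := by
      rw [← one_div, le_div_iff₀ (pow_pos hr n)]
      exact fib_le n
    have b2 : (Nat.fib n : ℝ) ^ γ ≤ ((r ^ n)⁻¹) ^ γ :=
      Real.rpow_le_rpow (Nat.cast_nonneg _) b1 h0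
    calc (Nat.fib n : ℝ) ^ γ * r ^ n ≤ ((r ^ n)⁻¹) ^ γ * r ^ n := by gcongr
      _ = (r ^ n) ^ (-γ) * (r ^ n) ^ (1 : ℝ) := by
          rw [Real.rpow_one, Real.rpow_neg (pow_nonneg hr.le n), Real.inv_rpow (pow_nonneg hr.le n)]
      _ = (r ^ n) ^ (1 - γ) := by
          rw [← Real.rpow_add (pow_pos hr n)]; congr 1; ring
      _ = (r ^ (1 - γ)) ^ n := by
          rw [← Real.rpow_natCast, ← Real.rpow_natCast, ← Real.rpow_mul hr.le, ← Real.rpow_mul hr.le,
            mul_comm]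
  rw [e1, abs_mul, Nat.abs_cast]
  calc (n : ℝ) * _ ≤ n * ((2 * Real.pi * ((Nat.fib n : ℝ) * ‖x - y‖) ^ γ) * (2 * Real.pi * r ^ n)) := by
        gcongr
    _ = (4 * Real.pi ^ 2) * (n * ((Nat.fib n : ℝ) ^ γ * r ^ n)) * ‖x - y‖ ^ γ := by
        rw [Real.mul_rpow (Nat.cast_nonneg _) (norm_nonneg _)]; ring
    _ ≤ _ := by gcongr

lemma φ0_holder (γ : ℝ≥0) (hγ : γ < 1) : ∃ C : ℝ≥0, HolderWith C γ φ0 := by
  have hγ' : (γ : ℝ) < 1 := by exact_mod_cast hγ
  have hr := r_pos
  set ρ : ℝ := r ^ (1 - (γ : ℝ)) with hρ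
  have hρ0 : 0 < ρ := Real.rpow_pos_of_pos hr _
  have hρ1 : ρ < 1 := Real.rpow_lt_one hr.le r_lt_one (by linarith)
  have hsum : Summable (fun n : ℕ => (4 * Real.pi ^ 2) * ((n : ℝ) * ρ ^ n)) := by
    have := summable_pow_mul_geometric_of_norm_lt_one (R := ℝ) 1 (r := ρ)
      (by rw [Real.norm_eq_abs, abs_of_pos hρ0]; exact hρ1)
    simp only [pow_one] at this
    exact this.mul_left _
  set C : ℝ := ∑' n : ℕ, (4 * Real.pi ^ 2) * ((n : ℝ) * ρ ^ n) with hC
  have hC0 : 0 ≤ C := tsum_nonneg fun n => by positivity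
  refine ⟨C.toNNReal, ?_⟩
  intro x y
  have key : |φ0 x - φ0 y| ≤ C * ‖x - y‖ ^ (γ : ℝ) := by
    unfold φ0
    rw [← (summable_term 1 x).tsum_sub (summable_term 1 y), ← Real.norm_eq_abs]
    rw [hC, ← tsum_mul_right]
    apply tsum_of_norm_bounded (hsum.mul_right _).hasSum
    intro n
    exact term_sub_le n x y γ γ.2 hγ'.le
  rw [edist_dist, edist_dist, dist_eq_norm, dist_eq_norm, Real.norm_eq_abs,
    ENNReal.ofReal_rpow_of_nonneg (norm_nonneg _) γ.coe_nonneg]
  have : ((C.toNNReal : ℝ≥0) : ENNReal) = ENNReal.ofReal C := rfl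
  rw [this, ← ENNReal.ofReal_mul hC0]
  exact ENNReal.ofReal_le_ofReal key

lemma tendsto_fib : Tendsto (fun j : ℕ => (Nat.fib j : ℤ)) atTop atTop := by
  apply tendsto_natCast_atTop_atTop.comp
  apply tendsto_atTop_mono' atTop _ tendsto_id
  filter_upwards [eventually_ge_atTop 5] with j hj
  exact Nat.le_fib_self hj

theorem main : Irrational α0 ∧ Continuous φ0 ∧
    (∀ γ : ℝ≥0, γ < 1 → ∃ C : ℝ≥0, HolderWith C γ φ0) ∧ IsBesicovitch α0 φ0 := by
  have hc : Continuous φ0 := by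
    obtain ⟨C, hC⟩ := φ0_holder (1 / 2) (by
      rw [← NNReal.coe_lt_coe]; norm_num)
    exact hC.continuous (by positivity)
  refine ⟨Real.goldenRatio_irrational, hc, φ0_holder, ?_⟩
  refine isBesicovitch_of hc Real.goldenRatio_irrational tendsto_S (fun j => (Nat.fib j : ℤ)) dl
    ?_ ?_ ?_ ?_
  · exact tendsto_fib.mono_right (by simp [Int.cofinite_eq])
  · exact (tendsto_neg_atTop_atBot.comp tendsto_fib).mono_right (by simp [Int.cofinite_eq])
  · rw [tendsto_zero_iff_norm_tendsto_zero]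
    simp only [Real.norm_eq_abs, abs_dl]
    exact tendsto_pow_atTop_nhds_zero_of_lt_one r_pos.le r_lt_one
  · intro j
    rw [natCast_zsmul]
    exact fib_smul j

end

end Pool.Agent.V11105.Bes
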