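import Mathlib

/-!
Stationary generalized Bratteli diagrams: definitions.
-/

open MeasureTheory Filter Set Topology ENNReal

namespace Pool.Agent.V11105.Bratteli

noncomputable section

variable {V : Type*}

/-- An edge between two consecutive levels of the stationary diagram with incidence matrix `F`:
it goes from the vertex `src` of one level to the vertex `rng` of the next one, and `idx` numbers
the `F rng src` edges from `src` to `rng`. -/
structure Edge (F : V → V → ℕ) where
  src : V
  rng : V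
  idx : Fin (F rng src)

/-- `F` is the incidence matrix of a (stationary) generalized Bratteli diagram: every vertex meets
only finitely many edges, emits at least one edge and receives at least one edge. -/
structure IsDiagram (F : V → V → ℕ) : Prop where
  finite_out : ∀ w, {v | F v w ≠ 0}.Finite
  finite_in : ∀ v, {w | F v w ≠ 0}.Finite
  emits : ∀ w, ∃ v, F v w ≠ 0
  receives : ∀ v, ∃ w, F v w ≠ 0

/-- The path space: infinite paths `x_0, x_1, …` with `r(x_i) = s(x_{i+1})`. -/
def PathSpace (F : V → V → ℕ) : Type _ := {x : ℕ → Edge F // ∀ i, (x i).rng = (x (i + 1)).src}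

/-- Finite paths with `n + 1` edges, starting in level `0`. -/
structure FinPath (F : V → V → ℕ) (n : ℕ) where
  edge : Fin (n + 1) → Edge F
  comp : ∀ i : Fin n, (edge i.castSucc).rng = (edge i.succ).src

/-- The vertex of level `n + 1` at which a finite path with `n + 1` edges ends. -/
def FinPath.endpoint {F : V → V → ℕ} {n : ℕ} (p : FinPath F n) : V := (p.edge (Fin.last n)).rng

/-- The cylinder set of a finite path: the infinite paths beginning with it. -/
def cylinder {F : V → V → ℕ} {n : ℕ} (p : FinPath F n) : Set (PathSpace F) :=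
  {x | ∀ i : Fin (n + 1), x.1 i = p.edge i}

/-- The σ-algebra generated by the cylinder sets. -/
instance (F : V → V → ℕ) : MeasurableSpace (PathSpace F) :=
  MeasurableSpace.generateFrom {C | ∃ (n : ℕ) (p : FinPath F n), C = cylinder p}

/-- Tail invariance: cylinder sets of finite paths ending at the same vertex (of the same level)
have the same measure. -/
def TailInvariant {F : V → V → ℕ} (μ : Measure (PathSpace F)) : Prop :=
  ∀ (n : ℕ) (p q : FinPath F n), p.endpoint = q.endpoint → μ (cylinder p) = μ (cylinder q)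

/-- Powers of the matrix `F` (with values in `[0,∞]`). -/
def mpow [DecidableEq V] (F : V → V → ℕ) : ℕ → V → V → ℝ≥0∞
  | 0, i, j => if i = j then 1 else 0
  | n + 1, i, j => ∑' k, (F i k : ℝ≥0∞) * mpow F n k j

/-- `F` is irreducible and aperiodic: for all `i, j` some `(F^n)_{ij} > 0`, and the greatest common
divisor of the `n` with `(F^n)_{ii} > 0` is `1`. -/
structure IsAperiodicIrreducible [DecidableEq V] (F : V → V → ℕ) : Prop where
  irreducible : ∀ i j, ∃ n, 0 < mpow F n i j
  aperiodic : ∀ i, ∀ d : ℕ, (∀ n, 0 < mpow F n i i → d ∣ n) → d = 1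

/-- The Perron eigenvalue `lim ((F^n)_{ij})^{1/n}` is infinite. -/
def PerronInfinite [DecidableEq V] (F : V → V → ℕ) : Prop :=
  ∀ i j, Tendsto (fun n : ℕ => (mpow F n i j) ^ (1 / (n : ℝ))) atTop (𝓝 ∞)

/-! ### Basic facts -/

lemma measurableSet_cylinder {F : V → V → ℕ} {n : ℕ} (p : FinPath F n) :
    MeasurableSet (cylinder p) :=
  MeasurableSpace.measurableSet_generateFrom ⟨n, p, rfl⟩

section mpow

variable [DecidableEq V] {F : V → V → ℕ}

lemma mpow_succ_ge (n : ℕ) (i k j : V) : (F i k : ℝ≥0∞) * mpow F n k j ≤ mpow F (n + 1) i j := by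
  show _ ≤ ∑' k, (F i k : ℝ≥0∞) * mpow F n k j
  exact ENNReal.le_tsum k

lemma mpow_add (m n : ℕ) (i k j : V) : mpow F m i k * mpow F n k j ≤ mpow F (m + n) i j := by
  induction m generalizing i with
  | zero =>
    by_cases h : i = k
    · subst h; simp [mpow]
    · simp [mpow, h]
  | succ m ih =>
    rw [show m + 1 + n = (m + n) + 1 by ring]
    show (∑' l, (F i l : ℝ≥0∞) * mpow F m l k) * mpow F n k j
      ≤ ∑' l, (F i l : ℝ≥0∞) * mpow F (m + n) l j
    rw [← ENNReal.tsum_mul_right]
    apply ENNReal.tsum_le_tsum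
    intro l
    rw [mul_assoc]
    gcongr
    exact ih l

lemma mpow_one (i j : V) : mpow F 1 i j = F i j := by
  show ∑' k, (F i k : ℝ≥0∞) * mpow F 0 k j = _
  rw [tsum_eq_single j]
  · simp [mpow]
  · intro k hk
    simp [mpow, hk]

lemma mpow_loop (n : ℕ) (k : V) : ((F k k : ℝ≥0∞)) ^ n ≤ mpow F n k k := by
  induction n with
  | zero => simp [mpow]
  | succ n ih =>
    rw [pow_succ']
    refine le_trans ?_ (mpow_succ_ge n k k k)
    gcongr

/-- positivity of powers is transitive -/
lemma mpow_pos_trans {m n : ℕ} {i k j : V} (h1 : 0 < mpow F m i k) (h2 : 0 < mpow F n k j) :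
    0 < mpow F (m + n) i j :=
  lt_of_lt_of_le (ENNReal.mul_pos h1.ne' h2.ne') (mpow_add m n i k j)

/-- Criterion for an infinite Perron eigenvalue: arbitrarily heavy loops, and entries of powers that
are at least one when positive. -/
lemma perronInfinite_of (h : ∀ K : ℕ, ∃ k, K ≤ F k k)
    (hirr : ∀ i j, ∃ n, 0 < mpow F n i j) (hint : ∀ n i j, 0 < mpow F n i j → 1 ≤ mpow F n i j) :
    PerronInfinite F := by
  intro i j
  rw [ENNReal.tendsto_nhds_top_iff_nat]
  intro K
  obtain ⟨k, hk⟩ := h ((K + 1) ^ 2)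
  obtain ⟨m1, h1⟩ := hirr i k
  obtain ⟨m2, h2⟩ := hirr k j
  filter_upwards [eventually_ge_atTop (2 * (m1 + m2) + 1)] with n hn
  obtain ⟨l, rfl⟩ : ∃ l, n = m1 + (l + m2) := ⟨n - m1 - m2, by omega⟩
  have hl : m1 + (l + m2) ≤ 2 * l := by omega
  have hge : ((K : ℝ≥0∞) + 1) ^ (m1 + (l + m2)) ≤ mpow F (m1 + (l + m2)) i j := by
    calc ((K : ℝ≥0∞) + 1) ^ (m1 + (l + m2)) ≤ ((K : ℝ≥0∞) + 1) ^ (2 * l) :=
          pow_le_pow_right₀ (by simp) hl
      _ = ((((K + 1) ^ 2 : ℕ)) : ℝ≥0∞) ^ l := by push_cast; rw [pow_mul]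
      _ ≤ ((F k k : ℝ≥0∞)) ^ l := by gcongr
      _ ≤ mpow F l k k := mpow_loop l k
      _ = 1 * (mpow F l k k * 1) := by ring
      _ ≤ mpow F m1 i k * (mpow F l k k * mpow F m2 k j) := by
          gcongr
          · exact hint _ _ _ h1
          · exact hint _ _ _ h2
      _ ≤ mpow F m1 i k * mpow F (l + m2) k j := by
          gcongr; exact mpow_add _ _ _ _ _
      _ ≤ _ := mpow_add _ _ _ _ _
  have hn0 : (0 : ℝ) < ((m1 + (l + m2) : ℕ) : ℝ) := by
    have : 0 < m1 + (l + m2) := by omega
    exact_mod_cast this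
  calc (K : ℝ≥0∞) < K + 1 := by
        exact_mod_cast Nat.lt_succ_self K
    _ = (((K : ℝ≥0∞) + 1) ^ (m1 + (l + m2))) ^ (1 / (((m1 + (l + m2) : ℕ)) : ℝ)) := by
        rw [← ENNReal.rpow_natCast, ← ENNReal.rpow_mul, mul_one_div_cancel hn0.ne',
          ENNReal.rpow_one]
    _ ≤ _ := ENNReal.rpow_le_rpow hge (by positivity)

lemma mpow_int (n : ℕ) : ∀ i j, 0 < mpow F n i j → 1 ≤ mpow F n i j := by
  induction n with
  | zero =>
    intro i j h
    by_cases hij : i = j
    · simp [mpow, hij]
    · simp [mpow, hij] at h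
  | succ n ih =>
    intro i j h
    have h' : (∑' k, (F i k : ℝ≥0∞) * mpow F n k j) ≠ 0 := h.ne'
    rw [ne_eq, ENNReal.tsum_eq_zero, not_forall] at h'
    obtain ⟨k, hk⟩ := h'
    have hk1 : F i k ≠ 0 := by
      intro h0; apply hk; simp [h0]
    have hk2 : mpow F n k j ≠ 0 := by
      intro h0; apply hk; simp [h0]
    calc (1 : ℝ≥0∞) = 1 * 1 := by ring
      _ ≤ (F i k : ℝ≥0∞) * mpow F n k j := by
          gcongr
          · exact_mod_cast Nat.one_le_iff_ne_zero.2 hk1
          · exact ih k j (pos_iff_ne_zero.2 hk2)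
      _ ≤ _ := mpow_succ_ge n i k j

end mpow

end

end Pool.Agent.V11105.Bratteli
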