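import Pool.Agent.V11105.BratteliOne

/-!
Stationary generalized Bratteli diagrams: the line with heavy return loops.
-/

open MeasureTheory Filter Set Topology ENNReal

namespace Pool.Agent.V11105.Bratteli

noncomputable section

/-- Vertices: a bi-infinite line and a sequence of side vertices. -/
abbrev W : Type := ℤ ⊕ ℕ

/-- The incidence matrix of the diagram: `line F v w` edges from `w` to `v`. -/
def line : W → W → ℕ
  | .inl j, .inl i => if j = i + 1 then 1 else 0
  | .inr k, .inl i => if i = (k : ℤ) then 1 else 0
  | .inr l, .inr k => if l = k then k + 1 else 0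
  | .inl j, .inr k => if j = -(k : ℤ) then 1 else 0

lemma line_isDiagram : IsDiagram line where
  finite_out := by
    rintro (i | k)
    · refine Set.Finite.subset (Set.toFinite {.inl (i + 1), .inr i.toNat}) ?_
      rintro (j | l) h
      · simp only [line, Set.mem_ofPred_eq] at h
        split_ifs at h with h1
        · simp [h1]
        · simp at h
      · simp only [line, Set.mem_ofPred_eq] at h
        split_ifs at h with h1
        · simp [h1]
        · simp at h
    · refine Set.Finite.subset (Set.toFinite {.inl (-(k : ℤ)), .inr k}) ?_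
      rintro (j | l) h
      · simp only [line, Set.mem_ofPred_eq] at h
        split_ifs at h with h1
        · simp [h1]
        · simp at h
      · simp only [line, Set.mem_ofPred_eq] at h
        split_ifs at h with h1
        · simp [h1]
        · simp at h
  finite_in := by
    rintro (j | l)
    · refine Set.Finite.subset (Set.toFinite {.inl (j - 1), .inr (-j).toNat}) ?_
      rintro (i | k) h
      · simp only [line, Set.mem_ofPred_eq] at h
        split_ifs at h with h1
        · simp [h1]
        · simp at h
      · simp only [line, Set.mem_ofPred_eq] at h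
        split_ifs at h with h1
        · simp [h1]
        · simp at h
    · refine Set.Finite.subset (Set.toFinite {.inl (l : ℤ), .inr l}) ?_
      rintro (i | k) h
      · simp only [line, Set.mem_ofPred_eq] at h
        split_ifs at h with h1
        · simp [h1]
        · simp at h
      · simp only [line, Set.mem_ofPred_eq] at h
        split_ifs at h with h1
        · simp [h1]
        · simp at h
  emits := by
    rintro (i | k)
    · exact ⟨.inl (i + 1), by simp [line]⟩
    · exact ⟨.inr k, by simp [line]⟩
  receives := by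
    rintro (j | l)
    · exact ⟨.inl (j - 1), by simp [line]⟩
    · exact ⟨.inr l, by simp [line]⟩

lemma dbl_isDiagram {V : Type*} {F : V → V → ℕ} (h : IsDiagram F) : IsDiagram (dbl F) where
  finite_out w := by
    have := h.finite_out w
    simpa [dbl] using this
  finite_in v := by
    have := h.finite_in v
    simpa [dbl] using this
  emits w := by
    obtain ⟨v, hv⟩ := h.emits w
    exact ⟨v, by simpa [dbl] using hv⟩
  receives v := by
    obtain ⟨w, hw⟩ := h.receives v
    exact ⟨w, by simpa [dbl] using hw⟩

/-- one can go from `w` to `v` -/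
def Reach (w v : W) : Prop := ∃ n, 0 < mpow (dbl line) n v w

lemma Reach.trans {a b c : W} (h1 : Reach a b) (h2 : Reach b c) : Reach a c := by
  obtain ⟨m, hm⟩ := h1
  obtain ⟨n, hn⟩ := h2
  exact ⟨n + m, mpow_pos_trans hn hm⟩

lemma Reach.refl (a : W) : Reach a a := ⟨0, by simp [mpow]⟩

lemma Reach.edge {w v : W} (h : line v w ≠ 0) : Reach w v := by
  refine ⟨1, ?_⟩
  rw [mpow_one]
  simpa [dbl, pos_iff_ne_zero] using h

lemma Reach.line_add (i : ℤ) (n : ℕ) : Reach (.inl i) (.inl (i + n)) := by
  induction n with
  | zero => simpa using Reach.refl _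
  | succ n ih =>
    refine ih.trans (Reach.edge ?_)
    simp [line, add_assoc]

lemma Reach.line_le {i j : ℤ} (h : i ≤ j) : Reach (.inl i) (.inl j) := by
  have := Reach.line_add i (j - i).toNat
  rwa [show i + ((j - i).toNat : ℤ) = j by omega] at this

lemma Reach.line (i j : ℤ) : Reach (.inl i) (.inl j) := by
  obtain ⟨k, hk1, hk2⟩ : ∃ k : ℕ, i ≤ k ∧ -(k : ℤ) ≤ j := ⟨(max i (-j)).toNat, by omega, by omega⟩
  refine (Reach.line_le hk1).trans (Reach.trans (b := .inr k) (Reach.edge (by simp [Bratteli.line])) ?_)
  exact Reach.trans (b := .inl (-(k : ℤ))) (Reach.edge (by simp [Bratteli.line])) (Reach.line_le hk2)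

lemma Reach.all (w v : W) : Reach w v := by
  have h1 : ∃ i : ℤ, Reach w (.inl i) := by
    rcases w with i | k
    · exact ⟨i, Reach.refl _⟩
    · exact ⟨-(k : ℤ), Reach.edge (by simp [Bratteli.line])⟩
  have h2 : ∃ j : ℤ, Reach (.inl j) v := by
    rcases v with j | l
    · exact ⟨j, Reach.refl _⟩
    · exact ⟨(l : ℤ), Reach.edge (by simp [Bratteli.line])⟩
  obtain ⟨i, hi⟩ := h1
  obtain ⟨j, hj⟩ := h2
  exact hi.trans ((Reach.line i j).trans hj)

lemma line_irr : IsAperiodicIrreducible (dbl line) where
  irreducible i j := Reach.all j i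
  aperiodic i d hd := by
    obtain ⟨n1, h1⟩ := Reach.all i (.inr 0)
    obtain ⟨n2, h2⟩ := Reach.all (.inr 0) i
    have h3 : 0 < mpow (dbl line) 1 (.inr 0) (.inr 0) := by
      rw [mpow_one]; simp [line]
    have h4 := hd _ (mpow_pos_trans h2 h1)
    have h5 := hd _ (mpow_pos_trans h2 (mpow_pos_trans h3 h1))
    have h6 : d ∣ 1 := by
      have h7 : n2 + (1 + n1) = (n2 + n1) + 1 := by ring
      rw [h7] at h5
      exact (Nat.dvd_add_right h4).1 h5
    exact Nat.dvd_one.1 h6

lemma line_perron : PerronInfinite (dbl line) := by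
  apply perronInfinite_of
  · intro K
    refine ⟨.inr K, ?_⟩
    show K ≤ (if K = K then K + 1 else 0) * 2
    simp only [if_true]
    omega
  · intro i j
    exact line_irr.irreducible i j
  · exact mpow_int

/-! ### Paths that eventually stay on the line -/

/-- Paths that are, at all late times `t`, at the vertex `j + t` of the line. -/
def OnLine (j : ℤ) : Set (PathSpace line) := {x | ∀ᶠ t : ℕ in atTop, (x.1 t).src = .inl (j + t)}

lemma edge_ne_zero {V : Type*} {F : V → V → ℕ} (e : Edge F) : F e.rng e.src ≠ 0 := by
  intro h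
  have := e.idx.2
  omega

lemma src_of_rng {e : Edge line} {i : ℤ} (hi : 0 < i) (h : e.rng = .inl i) :
    e.src = .inl (i - 1) := by
  have h1 := edge_ne_zero e
  rw [h] at h1
  rcases hs : e.src with k | k
  · rw [hs] at h1
    simp only [line] at h1
    split_ifs at h1 with h2
    · congr 1; omega
    · simp at h1
  · rw [hs] at h1
    simp only [line] at h1
    split_ifs at h1 with h2
    · omega
    · simp at h1

lemma onLine_of_le {j : ℤ} {x : PathSpace line} (hx : x ∈ OnLine j) :
    ∀ t : ℕ, 0 ≤ j + t → (x.1 t).src = .inl (j + t) := by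
  obtain ⟨T, hT⟩ := eventually_atTop.1 hx
  have key : ∀ n : ℕ, ∀ t : ℕ, T ≤ t + n → 0 ≤ j + t → (x.1 t).src = .inl (j + t) := by
    intro n
    induction n with
    | zero => intro t ht _; exact hT t ht
    | succ n ih =>
      intro t ht hj
      have h1 := ih (t + 1) (by omega) (by push_cast; omega)
      have h2 : (x.1 t).rng = .inl (j + (t + 1 : ℕ)) := by rw [x.2 t, h1]
      have h3 := src_of_rng (by push_cast; omega) h2
      rw [h3]
      congr 1
      push_cast
      omega
  intro t ht
  exact key T t (by omega) ht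

lemma finite_edges_rng {V : Type*} {F : V → V → ℕ} (hF : IsDiagram F) {S : Set V}
    (hS : S.Finite) : {e : Edge F | e.rng ∈ S}.Finite := by
  have : {e : Edge F | e.rng ∈ S} ⊆ ⋃ v ∈ S, ⋃ w ∈ {w | F v w ≠ 0},
      Set.range (fun i : Fin (F v w) => (⟨w, v, i⟩ : Edge F)) := by
    rintro ⟨s, r, i⟩ h
    simp only [Set.mem_iUnion]
    refine ⟨r, h, s, ?_, i, rfl⟩
    exact edge_ne_zero ⟨s, r, i⟩
  refine Set.Finite.subset ?_ this
  refine hS.biUnion fun v _ => (hF.finite_in v).biUnion fun w _ => Set.finite_range _

lemma onLine_finite_coord (j : ℤ) (t : ℕ) : ((fun x : PathSpace line => x.1 t) '' OnLine j).Finite := by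
  have key : ∀ n : ℕ, ∀ t : ℕ, 0 ≤ j + (t + n : ℕ) →
      ((fun x : PathSpace line => (x.1 t).src) '' OnLine j).Finite := by
    intro n
    induction n with
    | zero =>
      intro t ht
      refine Set.Finite.subset (Set.finite_singleton (Sum.inl (j + t))) ?_
      rintro _ ⟨x, hx, rfl⟩
      exact onLine_of_le hx t (by simpa using ht)
    | succ n ih =>
      intro t ht
      have h1 := ih (t + 1) (by rwa [show t + 1 + n = t + (n + 1) by ring])
      have h2 := finite_edges_rng line_isDiagram h1
      refine (h2.image (fun e => e.src)).subset ?_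
      rintro _ ⟨x, hx, rfl⟩
      refine ⟨x.1 t, ?_, rfl⟩
      exact ⟨x, hx, (x.2 t).symm⟩
  have h1 := key (-j).toNat (t + 1) (by push_cast; omega)
  refine (finite_edges_rng line_isDiagram h1).subset ?_
  rintro _ ⟨x, hx, rfl⟩
  exact ⟨x, hx, (x.2 t).symm⟩

lemma edge_ext_line {e f : Edge line} {i : ℤ} (h1 : e.src = .inl i) (h2 : e.rng = .inl (i + 1))
    (h3 : f.src = .inl i) (h4 : f.rng = .inl (i + 1)) : e = f := by
  obtain ⟨s, r, a⟩ := e
  obtain ⟨s', r', b⟩ := f
  subst h1 h2 h3 h4
  congr 1
  have : Subsingleton (Fin (line (.inl (i + 1)) (.inl i))) := by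
    have h : line (.inl (i + 1)) (.inl i) = 1 := by simp [line]
    rw [h]; infer_instance
  exact Subsingleton.elim _ _

lemma onLine_finite (j : ℤ) : (OnLine j).Finite := by
  set n := (-j).toNat with hn
  let g : PathSpace line → (Fin n → Edge line) := fun x i => x.1 i
  have hinj : Set.InjOn g (OnLine j) := by
    intro x hx y hy hxy
    apply Subtype.ext
    funext t
    by_cases ht : t < n
    · exact congrFun hxy ⟨t, ht⟩
    · have h0 : 0 ≤ j + (t : ℤ) := by omega
      have h1 : 0 ≤ j + ((t + 1 : ℕ) : ℤ) := by push_cast; omega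
      refine edge_ext_line (i := j + t) (onLine_of_le hx t h0) ?_ (onLine_of_le hy t h0) ?_
      · rw [x.2 t, onLine_of_le hx (t + 1) h1]; congr 1; push_cast; ring
      · rw [y.2 t, onLine_of_le hy (t + 1) h1]; congr 1; push_cast; ring
  have hfin : (g '' OnLine j).Finite := by
    refine (Set.Finite.pi (fun i : Fin n => onLine_finite_coord j i)).subset ?_
    rintro _ ⟨x, hx, rfl⟩ i _
    exact ⟨x, hx, rfl⟩
  exact Set.Finite.of_finite_image hfin hinj

end

end Pool.Agent.V11105.Bratteli
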