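import Pool.Agent.V11105.BratteliLine

/-!
Stationary generalized Bratteli diagrams: the tail-invariant probability measure on the line with
heavy return loops.
-/

open MeasureTheory Filter Set Topology ENNReal

namespace Pool.Agent.V11105.Bratteli

noncomputable section

/-- The path that starts with the finite path `q` and continues like `x`. -/
def splice {V : Type*} {F : V → V → ℕ} {n : ℕ} (q : FinPath F n) (x : PathSpace F)
    (h : q.endpoint = (x.1 (n + 1)).src) : PathSpace F :=
  ⟨fun t => if ht : t < n + 1 then q.edge ⟨t, ht⟩ else x.1 t, by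
    intro t
    by_cases h1 : t < n
    · have h2 : t < n + 1 := by omega
      have h3 : t + 1 < n + 1 := by omega
      simp only [h2, h3, dif_pos]
      exact q.comp ⟨t, h1⟩
    · by_cases h2 : t = n
      · subst h2
        simp only [lt_add_iff_pos_right, zero_lt_one, dif_pos, lt_self_iff_false, dif_neg,
          not_false_eq_true]
        exact h
      · have h3 : ¬ t < n + 1 := by omega
        have h4 : ¬ t + 1 < n + 1 := by omega
        simp only [h3, h4, dif_neg, not_false_eq_true]
        exact x.2 t⟩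

lemma splice_mem {V : Type*} {F : V → V → ℕ} {n : ℕ} (q : FinPath F n) (x : PathSpace F)
    (h : q.endpoint = (x.1 (n + 1)).src) : splice q x h ∈ cylinder q := by
  intro i
  show (if ht : (i : ℕ) < n + 1 then q.edge ⟨i, ht⟩ else x.1 i) = q.edge i
  simp [i.2]

lemma splice_tail {V : Type*} {F : V → V → ℕ} {n : ℕ} (q : FinPath F n) (x : PathSpace F)
    (h : q.endpoint = (x.1 (n + 1)).src) {t : ℕ} (ht : n < t) : (splice q x h).1 t = x.1 t := by
  show (if ht : t < n + 1 then q.edge ⟨t, ht⟩ else x.1 t) = x.1 t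
  have : ¬ t < n + 1 := by omega
  simp [this]

/-- The weight of the paths with lag `j`. -/
def wt (j : ℤ) : ℝ≥0∞ := (2⁻¹) ^ (Encodable.encode j + 1) * (((OnLine j).ncard : ℝ≥0∞) + 1)⁻¹

lemma wt_pos (j : ℤ) : 0 < wt j := by
  unfold wt
  apply ENNReal.mul_pos
  · exact (ENNReal.pow_pos (by simp) _).ne'
  · simp

/-- The unnormalized measure. -/
def mu0 : Measure (PathSpace line) :=
  Measure.sum fun y : (Σ j : ℤ, OnLine j) => wt y.1 • Measure.dirac (y.2 : PathSpace line)

lemma mu0_apply {A : Set (PathSpace line)} (hA : MeasurableSet A) :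
    mu0 A = ∑' y : (Σ j : ℤ, OnLine j), ({y : (Σ j : ℤ, OnLine j) | (y.2 : PathSpace line) ∈ A}).indicator (fun y => wt y.1) y := by
  rw [mu0, Measure.sum_apply _ hA]
  congr 1
  funext y
  rw [Measure.smul_apply, Measure.dirac_apply' _ hA, smul_eq_mul]
  by_cases h : (y.2 : PathSpace line) ∈ A
  · rw [Set.indicator_of_mem h, Set.indicator_of_mem (by exact h)]
    simp
  · rw [Set.indicator_of_notMem h, Set.indicator_of_notMem (by exact h)]
    simp

lemma mu0_univ_le : mu0 univ ≤ 1 := by
  rw [mu0_apply MeasurableSet.univ]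
  have h1 : ∀ j : ℤ, ∑' _ : OnLine j, wt j ≤ (2⁻¹) ^ (Encodable.encode j + 1) := by
    intro j
    have : Finite (OnLine j) := (onLine_finite j).to_subtype
    have : Fintype (OnLine j) := Fintype.ofFinite _
    rw [tsum_fintype, Finset.sum_const, Finset.card_univ, nsmul_eq_mul]
    have hc : (OnLine j).ncard = Fintype.card (OnLine j) := by
      rw [← Nat.card_eq_fintype_card]; rfl
    rw [wt, hc]
    calc (Fintype.card (OnLine j) : ℝ≥0∞) * ((2⁻¹) ^ (Encodable.encode j + 1) *
          ((Fintype.card (OnLine j) : ℝ≥0∞) + 1)⁻¹)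
        = (2⁻¹) ^ (Encodable.encode j + 1) * ((Fintype.card (OnLine j) : ℝ≥0∞) *
          ((Fintype.card (OnLine j) : ℝ≥0∞) + 1)⁻¹) := by ring
      _ ≤ (2⁻¹) ^ (Encodable.encode j + 1) * 1 := by
          gcongr
          rw [← div_eq_mul_inv]
          apply ENNReal.div_le_of_le_mul
          simp
      _ = _ := mul_one _
  calc ∑' y : (Σ j : ℤ, OnLine j), ({y : (Σ j : ℤ, OnLine j) |
        (y.2 : PathSpace line) ∈ (univ : Set (PathSpace line))}).indicator (fun y => wt y.1) y
      ≤ ∑' y : (Σ j : ℤ, OnLine j), wt y.1 := by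
        apply ENNReal.tsum_le_tsum
        intro y
        exact Set.indicator_le_self' (fun _ _ => zero_le) y
    _ = ∑' j : ℤ, ∑' _ : OnLine j, wt j := ENNReal.tsum_sigma' _
    _ ≤ ∑' j : ℤ, (2⁻¹) ^ (Encodable.encode j + 1) := ENNReal.tsum_le_tsum h1
    _ ≤ ∑' n : ℕ, (2⁻¹ : ℝ≥0∞) ^ (n + 1) :=
        ENNReal.tsum_comp_le_tsum_of_injective Encodable.encode_injective
          (fun n : ℕ => (2⁻¹ : ℝ≥0∞) ^ (n + 1))
    _ = 1 := by
        rw [ENNReal.tsum_geometric_add_one]
        rw [ENNReal.one_sub_inv_two, inv_inv]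
        exact ENNReal.inv_mul_cancel (by simp) (by simp)

lemma mu0_cylinder_le {n : ℕ} (p q : FinPath line n) (h : p.endpoint = q.endpoint) :
    mu0 (cylinder p) ≤ mu0 (cylinder q) := by
  rw [mu0_apply (measurableSet_cylinder p), mu0_apply (measurableSet_cylinder q),
    ← tsum_subtype, ← tsum_subtype]
  have hsrc : ∀ x : PathSpace line, x ∈ cylinder p → q.endpoint = (x.1 (n + 1)).src := by
    intro x hx
    rw [← h, ← x.2 n]
    show (p.edge (Fin.last n)).rng = _
    rw [← hx (Fin.last n)]
    rfl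
  let g : ({y : (Σ j : ℤ, OnLine j) | (y.2 : PathSpace line) ∈ cylinder p}) →
      ({y : (Σ j : ℤ, OnLine j) | (y.2 : PathSpace line) ∈ cylinder q}) := fun y =>
    ⟨⟨y.1.1, ⟨splice q y.1.2 (hsrc _ y.2), by
      have h1 := y.1.2.2
      show ∀ᶠ t : ℕ in atTop, _
      filter_upwards [h1, eventually_gt_atTop n] with t ht hn
      rw [splice_tail _ _ _ hn, ht]⟩⟩, splice_mem _ _ (hsrc _ y.2)⟩
  have hg : Function.Injective g := by
    rintro ⟨⟨j, ⟨x, hx⟩⟩, hxp⟩ ⟨⟨j', ⟨x', hx'⟩⟩, hxp'⟩ hgg
    simp only [g, Subtype.mk.injEq, Sigma.mk.injEq] at hgg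
    obtain ⟨rfl, hgg⟩ := hgg
    simp only [heq_eq_eq, Subtype.mk.injEq] at hgg
    have hxx : x = x' := by
      apply Subtype.ext
      funext t
      by_cases ht : n < t
      · have this : (splice q x (hsrc _ hxp)).1 t = (splice q x' (hsrc _ hxp')).1 t :=
          congrArg (fun z : PathSpace line => z.1 t) hgg
        rwa [splice_tail _ _ _ ht, splice_tail _ _ _ ht] at this
      · have h1 := hxp ⟨t, by omega⟩
        have h2 := hxp' ⟨t, by omega⟩
        exact h1.trans h2.symm
    subst hxx
    rfl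
  exact ENNReal.tsum_comp_le_tsum_of_injective hg
    (fun y : ({y : (Σ j : ℤ, OnLine j) | (y.2 : PathSpace line) ∈ cylinder q}) => wt y.1.1)

/-- The edge of the line at `i`. -/
def lineEdge (i : ℤ) : Edge line := ⟨.inl i, .inl (i + 1), ⟨0, by simp [line]⟩⟩

/-- The return edge from the side vertex `k`. -/
def backEdge (k : ℕ) : Edge line := ⟨.inr k, .inl (-(k : ℤ)), ⟨0, by simp [line]⟩⟩

lemma exists_append {V : Type*} {F : V → V → ℕ} {n : ℕ} (p : FinPath F n) (s : ℕ → Edge F)
    (hs : ∀ m, (s m).rng = (s (m + 1)).src) (h : p.endpoint = (s 0).src) :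
    ∃ x ∈ cylinder p, ∀ m, x.1 (n + 1 + m) = s m := by
  refine ⟨⟨fun t => if ht : t < n + 1 then p.edge ⟨t, ht⟩ else s (t - (n + 1)), ?_⟩, ?_, ?_⟩
  · intro t
    by_cases h1 : t < n
    · have h2 : t < n + 1 := by omega
      have h3 : t + 1 < n + 1 := by omega
      simp only [h2, h3, dif_pos]
      exact p.comp ⟨t, h1⟩
    · by_cases h2 : t = n
      · subst h2
        simp only [lt_add_iff_pos_right, zero_lt_one, dif_pos, lt_self_iff_false, dif_neg,
          not_false_eq_true, Nat.sub_self]
        exact h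
      · have h3 : ¬ t < n + 1 := by omega
        have h4 : ¬ t + 1 < n + 1 := by omega
        simp only [h3, h4, dif_neg, not_false_eq_true]
        rw [hs]
        congr 2
        omega
  · intro i
    show (if ht : (i : ℕ) < n + 1 then p.edge ⟨i, ht⟩ else s (i - (n + 1))) = p.edge i
    simp [i.2]
  · intro m
    show (if ht : n + 1 + m < n + 1 then p.edge ⟨n + 1 + m, ht⟩ else s (n + 1 + m - (n + 1))) = s m
    have h3 : ¬ n + 1 + m < n + 1 := by omega
    simp only [h3, dif_neg, not_false_eq_true]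
    congr 1
    omega

lemma exists_onLine {n : ℕ} (p : FinPath line n) : ∃ x ∈ cylinder p, ∃ j, x ∈ OnLine j := by
  rcases hv : p.endpoint with i | k
  · obtain ⟨x, hx, hxs⟩ := exists_append p (fun m => lineEdge (i + m))
      (fun m => by simp only [lineEdge]; congr 1; push_cast; ring) (by rw [hv]; simp [lineEdge])
    refine ⟨x, hx, i - (n + 1), ?_⟩
    show ∀ᶠ t : ℕ in atTop, _
    filter_upwards [eventually_ge_atTop (n + 1)] with t ht
    obtain ⟨m, rfl⟩ := Nat.exists_eq_add_of_le ht
    rw [hxs m]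
    simp only [lineEdge]
    congr 1
    push_cast
    ring
  · obtain ⟨x, hx, hxs⟩ := exists_append p
      (fun m => if m = 0 then backEdge k else lineEdge (-(k : ℤ) + (m - 1 : ℤ)))
      (fun m => by
        by_cases hm : m = 0
        · subst hm; simp [lineEdge, backEdge]
        · simp only [hm, if_false, lineEdge, Nat.succ_ne_zero]; congr 1; push_cast; ring)
      (by rw [hv]; simp [backEdge])
    refine ⟨x, hx, -(k : ℤ) - (n + 2), ?_⟩
    show ∀ᶠ t : ℕ in atTop, _
    filter_upwards [eventually_ge_atTop (n + 2)] with t ht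
    obtain ⟨m, rfl⟩ := Nat.exists_eq_add_of_le ht
    have := hxs (1 + m)
    rw [← add_assoc] at this
    rw [this]
    have h1 : ¬ (1 + m = 0) := by omega
    simp only [h1, if_false, lineEdge]
    congr 1
    push_cast
    ring

lemma mu0_cylinder_pos {n : ℕ} (p : FinPath line n) : 0 < mu0 (cylinder p) := by
  obtain ⟨x, hx, j, hj⟩ := exists_onLine p
  rw [mu0_apply (measurableSet_cylinder p)]
  calc 0 < wt j := wt_pos j
    _ = ({y : (Σ j : ℤ, OnLine j) | (y.2 : PathSpace line) ∈ cylinder p}).indicator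
        (fun y => wt y.1) ⟨j, ⟨x, hj⟩⟩ := by
        rw [Set.indicator_of_mem]
        exact hx
    _ ≤ _ := ENNReal.le_tsum _

/-- A finite path. -/
lemma mu0_univ_pos : 0 < mu0 univ := by
  let p : FinPath line 0 := ⟨fun _ => lineEdge 0, fun i => i.elim0⟩
  exact (mu0_cylinder_pos p).trans_le (measure_mono (subset_univ _))

/-- The normalized measure. -/
def mu1 : Measure (PathSpace line) := (mu0 univ)⁻¹ • mu0

instance : IsProbabilityMeasure mu1 := by
  constructor
  rw [mu1, Measure.smul_apply, smul_eq_mul]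
  exact ENNReal.inv_mul_cancel mu0_univ_pos.ne' (mu0_univ_le.trans_lt one_lt_top).ne

lemma mu1_tail : TailInvariant mu1 := by
  intro n p q h
  simp only [mu1, Measure.smul_apply]
  congr 1
  exact le_antisymm (mu0_cylinder_le p q h) (mu0_cylinder_le q p h.symm)

lemma mu1_pos {n : ℕ} (p : FinPath line n) : 0 < mu1 (cylinder p) := by
  rw [mu1, Measure.smul_apply, smul_eq_mul]
  apply ENNReal.mul_pos
  · simpa using (mu0_univ_le.trans_lt one_lt_top).ne
  · exact (mu0_cylinder_pos p).ne'

/-- A stationary generalized Bratteli diagram with aperiodic irreducible incidence matrix and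
infinite Perron eigenvalue that carries a non-atomic tail-invariant probability measure which is
positive on all cylinder sets. -/
theorem exists_infinite_perron_finite_measure :
    ∃ (V : Type) (_ : DecidableEq V) (F : V → V → ℕ), Countable V ∧ Infinite V ∧
      IsDiagram F ∧ IsAperiodicIrreducible F ∧ PerronInfinite F ∧
      ∃ μ : Measure (PathSpace F), IsProbabilityMeasure μ ∧ TailInvariant μ ∧
        (∀ (n : ℕ) (p : FinPath F n), 0 < μ (cylinder p)) ∧ ∀ x : PathSpace F, μ {x} = 0 := by
  refine ⟨W, inferInstance, dbl line, inferInstance, inferInstance,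
    dbl_isDiagram line_isDiagram, line_irr, line_perron, dblMeasure mu1, dblMeasure_prob mu1,
    ?_, ?_, dblMeasure_singleton mu1⟩
  · intro n p q h
    rw [dblMeasure_cylinder, dblMeasure_cylinder]
    congr 1
    exact mu1_tail n _ _ (by simpa [baseFin_endpoint] using h)
  · intro n p
    rw [dblMeasure_cylinder]
    apply ENNReal.mul_pos (mu1_pos _).ne'
    exact (ENNReal.pow_pos (by simp) _).ne'

end

end Pool.Agent.V11105.Bratteli
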