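import Pool.Agent.V11105.Bratteli

/-!
Stationary generalized Bratteli diagrams: a diagram with infinite Perron eigenvalue carrying
a tail-invariant probability measure.
-/

open MeasureTheory Filter Set Topology ENNReal

namespace Pool.Agent.V11105.Bratteli

noncomputable section

variable {V : Type*}

/-! ### Doubling every edge makes a measure non-atomic -/

section doubling

variable {F : V → V → ℕ}

/-- The incidence matrix with every edge doubled. -/
abbrev dbl (F : V → V → ℕ) : V → V → ℕ := fun v w => F v w * 2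

/-- The edge of the doubled diagram given by an edge and a bit. -/
def liftEdge (e : Edge F) (b : Fin 2) : Edge (dbl F) :=
  ⟨e.src, e.rng, finProdFinEquiv (e.idx, b)⟩

/-- The underlying edge of an edge of the doubled diagram. -/
def baseEdge (e : Edge (dbl F)) : Edge F := ⟨e.src, e.rng, (finProdFinEquiv.symm e.idx).1⟩

/-- The bit of an edge of the doubled diagram. -/
def bitEdge (e : Edge (dbl F)) : Fin 2 := (finProdFinEquiv.symm e.idx).2

lemma baseEdge_liftEdge (e : Edge F) (b : Fin 2) : baseEdge (liftEdge e b) = e := by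
  obtain ⟨s, r, i⟩ := e
  show (⟨s, r, (finProdFinEquiv.symm (finProdFinEquiv (i, b))).1⟩ : Edge F) = ⟨s, r, i⟩
  rw [Equiv.symm_apply_apply]

lemma bitEdge_liftEdge (e : Edge F) (b : Fin 2) : bitEdge (liftEdge e b) = b := by
  obtain ⟨s, r, i⟩ := e
  show (finProdFinEquiv.symm (finProdFinEquiv (i, b))).2 = b
  rw [Equiv.symm_apply_apply]

lemma liftEdge_base (f : Edge (dbl F)) : liftEdge (baseEdge f) (bitEdge f) = f := by
  obtain ⟨s, r, i⟩ := f
  show (⟨s, r, finProdFinEquiv (finProdFinEquiv.symm i)⟩ : Edge (dbl F)) = ⟨s, r, i⟩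
  rw [Equiv.apply_symm_apply]

lemma liftEdge_eq_iff (e : Edge F) (b : Fin 2) (f : Edge (dbl F)) :
    liftEdge e b = f ↔ e = baseEdge f ∧ b = bitEdge f := by
  constructor
  · rintro rfl
    exact ⟨(baseEdge_liftEdge e b).symm, (bitEdge_liftEdge e b).symm⟩
  · rintro ⟨rfl, rfl⟩
    exact liftEdge_base f

/-- The path of the doubled diagram given by a path and a sequence of bits. -/
def liftPath (z : PathSpace F × (ℕ → Fin 2)) : PathSpace (dbl F) :=
  ⟨fun i => liftEdge (z.1.1 i) (z.2 i), fun i => z.1.2 i⟩

/-- The underlying finite path. -/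
def baseFin {n : ℕ} (p : FinPath (dbl F) n) : FinPath F n :=
  ⟨fun i => baseEdge (p.edge i), fun i => p.comp i⟩

lemma baseFin_endpoint {n : ℕ} (p : FinPath (dbl F) n) : (baseFin p).endpoint = p.endpoint := rfl

lemma liftPath_preimage {n : ℕ} (p : FinPath (dbl F) n) :
    liftPath ⁻¹' (cylinder p)
      = cylinder (baseFin p) ×ˢ {b : ℕ → Fin 2 | ∀ i : Fin (n + 1), b i = bitEdge (p.edge i)} := by
  ext ⟨x, b⟩
  show (∀ i : Fin (n + 1), liftEdge (x.1 i) (b i) = p.edge i) ↔
    (∀ i : Fin (n + 1), x.1 i = baseEdge (p.edge i)) ∧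
      (∀ i : Fin (n + 1), b i = bitEdge (p.edge i))
  simp only [liftEdge_eq_iff]
  exact forall_and

lemma measurableSet_bits {n : ℕ} (c : Fin (n + 1) → Fin 2) :
    MeasurableSet {b : ℕ → Fin 2 | ∀ i : Fin (n + 1), b i = c i} := by
  have : {b : ℕ → Fin 2 | ∀ i : Fin (n + 1), b i = c i}
      = ⋂ i : Fin (n + 1), (fun b : ℕ → Fin 2 => b i) ⁻¹' {c i} := by
    ext b; simp
  rw [this]
  exact MeasurableSet.iInter fun i => (measurable_pi_apply _) (measurableSet_singleton _)

lemma measurable_liftPath : Measurable (liftPath (F := F)) := by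
  apply measurable_generateFrom
  rintro _ ⟨n, p, rfl⟩
  rw [liftPath_preimage]
  exact (measurableSet_cylinder _).prod (measurableSet_bits _)

/-- Fair coin. -/
def coin : Measure (Fin 2) := (PMF.uniformOfFintype (Fin 2)).toMeasure

instance : IsProbabilityMeasure coin := by unfold coin; infer_instance

lemma coin_singleton (b : Fin 2) : coin {b} = 2⁻¹ := by
  unfold coin
  rw [PMF.toMeasure_apply_singleton _ _ (measurableSet_singleton _)]
  simp

/-- Sequences of fair coin tosses. -/
def coins : Measure (ℕ → Fin 2) := Measure.infinitePi fun _ => coin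

instance : IsProbabilityMeasure coins := by unfold coins; infer_instance

lemma coins_bits {n : ℕ} (c : Fin (n + 1) → Fin 2) :
    coins {b : ℕ → Fin 2 | ∀ i : Fin (n + 1), b i = c i} = (2⁻¹) ^ (n + 1) := by
  have h1 : {b : ℕ → Fin 2 | ∀ i : Fin (n + 1), b i = c i}
      = Set.pi (Finset.range (n + 1)) (fun i => if h : i < n + 1 then {c ⟨i, h⟩} else univ) := by
    ext b
    constructor
    · intro hb i hi
      have hi' : i < n + 1 := by simpa using hi
      simp only [hi', dif_pos]
      exact hb ⟨i, hi'⟩
    · intro hb i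
      have := hb i (by simpa using i.2)
      simpa [i.2] using this
  rw [h1, coins, Measure.infinitePi_pi]
  · rw [Finset.prod_congr rfl (g := fun _ => (2⁻¹ : ℝ≥0∞))]
    · simp
    · intro i hi
      have hi' : i < n + 1 := by simpa using hi
      simp only [hi', dif_pos]
      exact coin_singleton _
  · intro i hi
    have hi' : i < n + 1 := by simpa using hi
    simp only [hi', dif_pos]
    exact measurableSet_singleton _

/-- The measure on the paths of the doubled diagram: an underlying path together with fair coin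
tosses. -/
def dblMeasure (μ : Measure (PathSpace F)) : Measure (PathSpace (dbl F)) :=
  (μ.prod coins).map liftPath

lemma dblMeasure_cylinder (μ : Measure (PathSpace F)) [SFinite μ] {n : ℕ}
    (p : FinPath (dbl F) n) :
    dblMeasure μ (cylinder p) = μ (cylinder (baseFin p)) * (2⁻¹) ^ (n + 1) := by
  rw [dblMeasure, Measure.map_apply measurable_liftPath (measurableSet_cylinder p),
    liftPath_preimage, Measure.prod_prod, coins_bits]

lemma dblMeasure_prob (μ : Measure (PathSpace F)) [IsProbabilityMeasure μ] :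
    IsProbabilityMeasure (dblMeasure μ) := by
  unfold dblMeasure
  exact Measure.isProbabilityMeasure_map measurable_liftPath.aemeasurable

lemma dblMeasure_singleton (μ : Measure (PathSpace F)) [IsProbabilityMeasure μ]
    (x : PathSpace (dbl F)) : dblMeasure μ {x} = 0 := by
  have h : ∀ n : ℕ, dblMeasure μ {x} ≤ (2⁻¹) ^ (n + 1) := by
    intro n
    let p : FinPath (dbl F) n := ⟨fun i => x.1 i, fun i => x.2 i⟩
    calc dblMeasure μ {x} ≤ dblMeasure μ (cylinder p) := by
          apply measure_mono
          rintro _ rfl i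
          rfl
      _ = μ (cylinder (baseFin p)) * (2⁻¹) ^ (n + 1) := dblMeasure_cylinder μ p
      _ ≤ 1 * (2⁻¹) ^ (n + 1) := by gcongr; exact prob_le_one
      _ = _ := one_mul _
  have h2 : Tendsto (fun n : ℕ => ((2⁻¹ : ℝ≥0∞)) ^ (n + 1)) atTop (𝓝 0) :=
    (ENNReal.tendsto_pow_atTop_nhds_zero_of_lt_one (by norm_num)).comp (tendsto_add_atTop_nat 1)
  exact le_antisymm (ge_of_tendsto' h2 h) zero_le

end doubling

end

end Pool.Agent.V11105.Bratteli
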