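import Pool.Agent.V11105.Bratteli

/-!
Stationary generalized Bratteli diagrams: the tridiagonal matrix with diagonal `i + 1` has no
nonzero tail-invariant measure that is finite on cylinders.
-/

open MeasureTheory Filter Set Topology ENNReal

namespace Pool.Agent.V11105.Bratteli

noncomputable section

/-! ### Space-time harmonic functions from tail-invariant measures -/

section general

variable {V : Type*} {F : V → V → ℕ}

instance [Countable V] : Countable (Edge F) := by
  have : Function.Injective (fun e : Edge F => (⟨e.src, e.rng, e.idx⟩ :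
      Σ (w : V) (v : V), Fin (F v w))) := by
    rintro ⟨s, r, i⟩ ⟨s', r', i'⟩ h
    simp only [Sigma.mk.injEq] at h
    obtain ⟨rfl, h⟩ := h
    simp only [heq_eq_eq, Sigma.mk.injEq] at h
    obtain ⟨rfl, h⟩ := h
    simp only [heq_eq_eq] at h
    subst h
    rfl
  exact this.countable

/-- Extension of a finite path by one edge. -/
def FinPath.snoc {n : ℕ} (p : FinPath F n) (e : Edge F) (h : p.endpoint = e.src) :
    FinPath F (n + 1) where
  edge := Fin.snoc (α := fun _ => Edge F) p.edge e
  comp := by
    intro i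
    refine Fin.lastCases ?_ (fun i => ?_) i
    · rw [Fin.succ_last, Fin.snoc_last, Fin.snoc_castSucc]
      exact h
    · rw [Fin.snoc_castSucc, ← Fin.castSucc_succ, Fin.snoc_castSucc]
      exact p.comp i

lemma FinPath.snoc_endpoint {n : ℕ} (p : FinPath F n) (e : Edge F) (h : p.endpoint = e.src) :
    (p.snoc e h).endpoint = e.rng := by
  show ((Fin.snoc (α := fun _ => Edge F) p.edge e) (Fin.last (n + 1))).rng = e.rng
  rw [Fin.snoc_last]

lemma snoc_edge_castSucc {n : ℕ} (p : FinPath F n) (e : Edge F) (h : p.endpoint = e.src)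
    (i : Fin (n + 1)) : (p.snoc e h).edge i.castSucc = p.edge i := by
  show (Fin.snoc (α := fun _ => Edge F) p.edge e) i.castSucc = p.edge i
  rw [Fin.snoc_castSucc]

lemma snoc_edge_last {n : ℕ} (p : FinPath F n) (e : Edge F) (h : p.endpoint = e.src) :
    (p.snoc e h).edge (Fin.last (n + 1)) = e := by
  show (Fin.snoc (α := fun _ => Edge F) p.edge e) (Fin.last (n + 1)) = e
  rw [Fin.snoc_last]

lemma mem_cylinder_snoc {n : ℕ} (p : FinPath F n) (e : Edge F) (h : p.endpoint = e.src)
    (x : PathSpace F) : x ∈ cylinder (p.snoc e h) ↔ x ∈ cylinder p ∧ x.1 (n + 1) = e := by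
  constructor
  · intro hx
    constructor
    · intro i
      have := hx i.castSucc
      rw [snoc_edge_castSucc] at this
      exact this
    · have := hx (Fin.last (n + 1))
      rw [snoc_edge_last] at this
      exact this
  · rintro ⟨h1, h2⟩ i
    refine Fin.lastCases ?_ (fun i => ?_) i
    · rw [snoc_edge_last]
      exact h2
    · rw [snoc_edge_castSucc]
      exact h1 i

lemma cylinder_src {n : ℕ} {p : FinPath F n} {x : PathSpace F} (hx : x ∈ cylinder p) :
    p.endpoint = (x.1 (n + 1)).src := by
  rw [← x.2 n]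
  show (p.edge (Fin.last n)).rng = _
  rw [← hx (Fin.last n)]
  rfl

/-- The measure of a cylinder is the sum of the measures of its one-step extensions. -/
lemma cylinder_sum [Countable V] (μ : Measure (PathSpace F)) {n : ℕ} (p : FinPath F n) :
    μ (cylinder p) = ∑' e : (Σ v : V, Fin (F v p.endpoint)),
      μ (cylinder (p.snoc ⟨p.endpoint, e.1, e.2⟩ rfl)) := by
  have hU : cylinder p = ⋃ e : (Σ v : V, Fin (F v p.endpoint)),
      cylinder (p.snoc ⟨p.endpoint, e.1, e.2⟩ rfl) := by
    ext x
    simp only [mem_iUnion, mem_cylinder_snoc]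
    constructor
    · intro hx
      have h1 := cylinder_src hx
      rcases hxe : x.1 (n + 1) with ⟨s, r, i⟩
      rw [hxe] at h1
      simp only at h1
      subst h1
      exact ⟨⟨r, i⟩, hx, rfl⟩
    · rintro ⟨e, hx, _⟩
      exact hx
  conv_lhs => rw [hU]
  rw [measure_iUnion]
  · intro e f hef
    rw [Function.onFun, Set.disjoint_left]
    intro x hx hx'
    rw [mem_cylinder_snoc] at hx hx'
    apply hef
    have := hx.2.symm.trans hx'.2
    rw [Edge.mk.injEq] at this
    obtain ⟨_, h2, h3⟩ := this
    exact Sigma.ext h2 h3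
  · intro e
    exact measurableSet_cylinder _

end general

/-! ### The tridiagonal matrix -/

/-- The tridiagonal matrix of Q2; the index `i` stands for the vertex `i + 1`. -/
def tri (i j : ℕ) : ℕ := if i = j then i + 2 else if i = j + 1 ∨ j = i + 1 then 1 else 0

/-- the action of the matrix on functions -/
def T (y : ℕ → ℝ) : ℕ → ℝ
  | 0 => 2 * y 0 + y 1
  | v + 1 => y v + ((v : ℝ) + 3) * y (v + 1) + y (v + 2)

/-- ratio order -/
def RO (y x : ℕ → ℝ) : Prop := ∀ u v, u ≤ v → y u * x v ≤ y v * x u

lemma RO.T {y x : ℕ → ℝ} (h : RO y x) : RO (T y) (T x) := by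
  intro u v huv
  rcases Nat.eq_or_lt_of_le huv with rfl | huv
  · exact le_rfl
  rcases u with _ | u
  · rcases v with _ | _ | v
    · omega
    · simp only [Bratteli.T]
      have h1 := h 0 1 (by omega)
      have h2 := h 0 2 (by omega)
      have h3 := h 1 2 (by omega)
      push_cast
      nlinarith
    · simp only [Bratteli.T]
      have h1 := h 0 (v + 1) (by omega)
      have h2 := h 0 (v + 2) (by omega)
      have h3 := h 0 (v + 3) (by omega)
      have h4 := h 1 (v + 1) (by omega)
      have h5 := h 1 (v + 2) (by omega)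
      have h6 := h 1 (v + 3) (by omega)
      have hv : (0 : ℝ) ≤ (v : ℝ) := by positivity
      have m1 := mul_le_mul_of_nonneg_left h2 (show (0 : ℝ) ≤ (v : ℝ) + 4 by linarith)
      have m2 := mul_le_mul_of_nonneg_left h5 (show (0 : ℝ) ≤ (v : ℝ) + 4 by linarith)
      push_cast
      nlinarith
  · rcases v with _ | v
    · omega
    rcases Nat.eq_or_lt_of_le huv with huv' | huv'
    · obtain rfl : v = u + 1 := by omega
      simp only [Bratteli.T]
      have d01 := h u (u + 1) (by omega)
      have d02 := h u (u + 2) (by omega)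
      have d03 := h u (u + 3) (by omega)
      have d12 := h (u + 1) (u + 2) (by omega)
      have d13 := h (u + 1) (u + 3) (by omega)
      have d23 := h (u + 2) (u + 3) (by omega)
      have hu : (0 : ℝ) ≤ (u : ℝ) := by positivity
      have e1 := mul_le_mul_of_nonneg_left d02 (show (0 : ℝ) ≤ (u : ℝ) + 4 by linarith)
      have e2 := mul_le_mul_of_nonneg_left d12
        (show (0 : ℝ) ≤ ((u : ℝ) + 3) * ((u : ℝ) + 4) - 1 by nlinarith)
      have e3 := mul_le_mul_of_nonneg_left d13 (show (0 : ℝ) ≤ (u : ℝ) + 3 by linarith)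
      push_cast
      nlinarith
    · simp only [Bratteli.T]
      have c1 := h u v (by omega)
      have c2 := h u (v + 1) (by omega)
      have c3 := h u (v + 2) (by omega)
      have c4 := h (u + 1) v (by omega)
      have c5 := h (u + 1) (v + 1) (by omega)
      have c6 := h (u + 1) (v + 2) (by omega)
      have c7 := h (u + 2) v (by omega)
      have c8 := h (u + 2) (v + 1) (by omega)
      have c9 := h (u + 2) (v + 2) (by omega)
      have hu : (0 : ℝ) ≤ (u : ℝ) + 3 := by positivity
      have hv : (0 : ℝ) ≤ (v : ℝ) + 3 := by positivity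
      have m2 := mul_le_mul_of_nonneg_left c2 hv
      have m4 := mul_le_mul_of_nonneg_left c4 hu
      have m5 := mul_le_mul_of_nonneg_left c5 (mul_nonneg hu hv)
      have m6 := mul_le_mul_of_nonneg_left c6 hu
      have m8 := mul_le_mul_of_nonneg_left c8 hv
      nlinarith

/-- number of paths of length `N` from the first vertex -/
def a : ℕ → ℕ → ℝ
  | 0, v => if v = 0 then 1 else 0
  | N + 1, v => T (a N) v

lemma T_nonneg {y : ℕ → ℝ} (hy : ∀ v, 0 ≤ y v) (v : ℕ) : 0 ≤ T y v := by
  rcases v with _ | v
  · have := hy 0; have := hy 1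
    simp only [T]; positivity
  · have := hy v; have := hy (v + 1); have := hy (v + 2)
    simp only [T]; positivity

lemma a_nonneg (N v : ℕ) : 0 ≤ a N v := by
  induction N generalizing v with
  | zero => simp only [a]; split_ifs <;> norm_num
  | succ N ih => exact T_nonneg ih v

lemma RO_a {h : ℕ → ℕ → ℝ} (h0 : ∀ n v, 0 ≤ h n v) (hh : ∀ n v, h n v = T (h (n + 1)) v)
    (N : ℕ) : ∀ n, RO (h n) (a N) := by
  induction N with
  | zero =>
    intro n u v huv
    simp only [a]
    by_cases hv : v = 0
    · obtain rfl : u = 0 := by omega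
      subst hv; exact le_rfl
    · simp only [hv, if_false, mul_zero]
      have := h0 n v
      split_ifs <;> simp [this]
  | succ N ih =>
    intro n
    have h1 : h n = T (h (n + 1)) := funext (hh n)
    have h2 : a (N + 1) = T (a N) := rfl
    rw [h1, h2]
    exact (ih (n + 1)).T

lemma a_up (i : ℕ) : 1 ≤ a i i := by
  induction i with
  | zero => simp [a]
  | succ i ih =>
    show 1 ≤ T (a i) (i + 1)
    simp only [T]
    have h1 := a_nonneg i (i + 1)
    have h2 := a_nonneg i (i + 2)
    have h3 : 0 ≤ ((i : ℝ) + 3) * a i (i + 1) := by positivity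
    linarith

lemma a_stay (i m : ℕ) : ((i : ℝ) + 2) ^ m ≤ a (i + m) i := by
  induction m with
  | zero => simpa using a_up i
  | succ m ih =>
    rw [← add_assoc]
    show _ ≤ T (a (i + m)) i
    have hge : ((i : ℝ) + 2) * a (i + m) i ≤ T (a (i + m)) i := by
      rcases i with _ | i
      · simp only [T]
        have := a_nonneg (0 + m) 1
        push_cast
        linarith
      · simp only [T]
        have h1 := a_nonneg (i + 1 + m) i
        have h2 := a_nonneg (i + 1 + m) (i + 2)
        push_cast
        nlinarith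
    calc ((i : ℝ) + 2) ^ (m + 1) = ((i : ℝ) + 2) * ((i : ℝ) + 2) ^ m := by ring
      _ ≤ ((i : ℝ) + 2) * a (i + m) i := by gcongr
      _ ≤ _ := hge

lemma a_down (i m j : ℕ) (hj : j ≤ i) : ((i : ℝ) + 2) ^ m ≤ a (i + m + j) (i - j) := by
  induction j with
  | zero => simpa using a_stay i m
  | succ j ih =>
    have h1 := ih (by omega)
    rw [← add_assoc]
    show _ ≤ T (a (i + m + j)) (i - (j + 1))
    obtain ⟨l, hl⟩ : ∃ l, i - (j + 1) = l := ⟨_, rfl⟩
    have hl' : i - j = l + 1 := by omega
    rw [hl]
    rw [hl'] at h1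
    rcases l with _ | l
    · simp only [T]
      have := a_nonneg (i + m + j) 0
      simp only [zero_add] at h1
      linarith
    · simp only [T]
      have h2 := a_nonneg (i + m + j) l
      have h3 := a_nonneg (i + m + j) (l + 1)
      have h4 : 0 ≤ ((l : ℝ) + 3) * a (i + m + j) (l + 1) := by positivity
      have h5 : a (i + m + j) (l + 1 + 1) = a (i + m + j) (l + 2) := rfl
      linarith

lemma a_zero_ge (i m : ℕ) : ((i : ℝ) + 2) ^ m ≤ a (2 * i + m) 0 := by
  have := a_down i m i le_rfl
  rwa [Nat.sub_self, show i + m + i = 2 * i + m by ring] at this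

lemma sum_T_le {x : ℕ → ℝ} (hx : ∀ v, 0 ≤ x v) (w : ℕ) {C : ℝ} (hC0 : 0 ≤ C)
    (hC : x (w + 1) ≤ C * x w) :
    ∑ v ∈ Finset.range (w + 1), T x v ≤ ((w : ℝ) + 4 + C) * ∑ v ∈ Finset.range (w + 1), x v := by
  have h1 : ∀ v ∈ Finset.range (w + 1),
      T x v ≤ (if v = 0 then 0 else x (v - 1)) + ((w : ℝ) + 2) * x v + x (v + 1) := by
    intro v hv
    have hv' : v ≤ w := by simpa [Nat.lt_succ_iff] using hv
    have hv'' : (v : ℝ) ≤ w := by exact_mod_cast hv'
    rcases v with _ | v
    · simp only [T, if_true]
      have := hx 0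
      have hw : (0 : ℝ) ≤ w := by positivity
      nlinarith
    · simp only [T, Nat.succ_ne_zero, if_false, Nat.add_sub_cancel]
      have := hx (v + 1)
      push_cast at hv''
      nlinarith
  refine (Finset.sum_le_sum h1).trans ?_
  rw [Finset.sum_add_distrib, Finset.sum_add_distrib, ← Finset.mul_sum]
  have h2 : ∑ v ∈ Finset.range (w + 1), (if v = 0 then 0 else x (v - 1))
      ≤ ∑ v ∈ Finset.range (w + 1), x v := by
    rw [Finset.sum_range_succ']
    simp only [Nat.succ_ne_zero, if_false, Nat.add_sub_cancel, if_true, add_zero]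
    rw [Finset.sum_range_succ]
    have := hx w
    linarith
  have h3 : ∑ v ∈ Finset.range (w + 1), x (v + 1)
      ≤ (1 + C) * ∑ v ∈ Finset.range (w + 1), x v := by
    rw [Finset.sum_range_succ]
    have h4 : ∑ v ∈ Finset.range w, x (v + 1) ≤ ∑ v ∈ Finset.range (w + 1), x v := by
      rw [Finset.sum_range_succ']
      have := hx 0
      linarith
    have h5 : x w ≤ ∑ v ∈ Finset.range (w + 1), x v :=
      Finset.single_le_sum (fun i _ => hx i) (by simp)
    have := mul_le_mul_of_nonneg_left h5 hC0
    linarith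
  linarith

/-- No nonzero nonnegative space-time harmonic function. -/
lemma harmonic_zero {h : ℕ → ℕ → ℝ} (h0 : ∀ n v, 0 ≤ h n v)
    (hh : ∀ n v, h n v = T (h (n + 1)) v) (n w : ℕ) : h n w = 0 := by
  by_contra hne
  have hpos : 0 < h n w := lt_of_le_of_ne (h0 n w) (Ne.symm hne)
  set C := h n (w + 1) / h n w with hC
  have hC0 : 0 ≤ C := div_nonneg (h0 _ _) hpos.le
  have hCa : ∀ N, a N (w + 1) ≤ C * a N w := by
    intro N
    have := RO_a h0 hh N n w (w + 1) (by omega)
    rw [hC, div_mul_eq_mul_div, le_div_iff₀ hpos]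
    linarith
  set B : ℝ := (w : ℝ) + 4 + C with hB
  have hB0 : 0 < B := by positivity
  have hG : ∀ N, ∑ v ∈ Finset.range (w + 1), a N v ≤ B ^ N := by
    intro N
    induction N with
    | zero =>
      simp only [a, pow_zero]
      rw [Finset.sum_ite_eq' (Finset.range (w + 1)) 0 (fun _ => (1 : ℝ))]
      split_ifs <;> norm_num
    | succ N ih =>
      calc ∑ v ∈ Finset.range (w + 1), a (N + 1) v
          = ∑ v ∈ Finset.range (w + 1), T (a N) v := rfl
        _ ≤ B * ∑ v ∈ Finset.range (w + 1), a N v := sum_T_le (a_nonneg N) w hC0 (hCa N)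
        _ ≤ B * B ^ N := by gcongr
        _ = B ^ (N + 1) := by ring
  obtain ⟨i, hi⟩ := exists_nat_gt B
  have hlt : 1 < ((i : ℝ) + 2) / B := by
    rw [one_lt_div hB0]; linarith
  obtain ⟨m, hm⟩ := pow_unbounded_of_one_lt (B ^ (2 * i)) hlt
  have h1 := a_zero_ge i m
  have h2 : a (2 * i + m) 0 ≤ B ^ (2 * i + m) :=
    (Finset.single_le_sum (f := fun v => a (2 * i + m) v) (fun v _ => a_nonneg _ v)
      (by simp)).trans (hG _)
  have h3 : (((i : ℝ) + 2) / B) ^ m ≤ B ^ (2 * i) := by
    rw [div_pow, div_le_iff₀ (by positivity), ← pow_add]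
    exact h1.trans h2
  linarith

/-! ### Conclusion -/

lemma tri_self (v : ℕ) : tri v v = v + 2 := by simp [tri]

/-- The path that stays at `v`. -/
def stay (n v : ℕ) : FinPath tri n :=
  ⟨fun _ => ⟨v, v, ⟨0, by rw [tri_self]; omega⟩⟩, fun _ => rfl⟩

lemma stay_endpoint (n v : ℕ) : (stay n v).endpoint = v := rfl

lemma measure_recursion {μ : Measure (PathSpace tri)} (hμ : TailInvariant μ) (n w : ℕ) :
    μ (cylinder (stay n w)) = ∑' v, (tri v w : ℝ≥0∞) * μ (cylinder (stay (n + 1) v)) := by
  rw [cylinder_sum, ENNReal.tsum_sigma']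
  congr 1
  funext v
  have : ∀ i : Fin (tri v (stay n w).endpoint),
      μ (cylinder ((stay n w).snoc ⟨(stay n w).endpoint, v, i⟩ rfl))
        = μ (cylinder (stay (n + 1) v)) := by
    intro i
    apply hμ
    rw [FinPath.snoc_endpoint]
    rfl
  simp only [this]
  rw [tsum_fintype, Finset.sum_const, Finset.card_univ, Fintype.card_fin, nsmul_eq_mul]
  rfl

lemma measure_zero {μ : Measure (PathSpace tri)} (hμ : TailInvariant μ)
    (hfin : ∀ (n : ℕ) (p : FinPath tri n), μ (cylinder p) ≠ ∞) : μ = 0 := by
  set h : ℕ → ℕ → ℝ := fun n v => (μ (cylinder (stay n v))).toReal with hh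
  have h0 : ∀ n v, 0 ≤ h n v := fun n v => ENNReal.toReal_nonneg
  have hrec : ∀ n v, h n v = T (h (n + 1)) v := by
    intro n v
    have h1 := measure_recursion hμ n v
    rcases v with _ | v
    · rw [tsum_eq_sum (s := {0, 1})] at h1
      · simp only [hh, T]
        rw [h1, Finset.sum_pair (by norm_num), ENNReal.toReal_add, ENNReal.toReal_mul,
          ENNReal.toReal_mul]
        · simp [tri]
        · exact ENNReal.mul_ne_top (by simp) (hfin _ _)
        · exact ENNReal.mul_ne_top (by simp) (hfin _ _)
      · intro u hu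
        have : tri u 0 = 0 := by
          simp only [Finset.mem_insert, Finset.mem_singleton, not_or] at hu
          simp only [tri]
          rw [if_neg hu.1, if_neg (by omega)]
        simp [this]
    · rw [tsum_eq_sum (s := {v, v + 1, v + 2})] at h1
      · simp only [hh, T]
        rw [h1, Finset.sum_insert (by simp), Finset.sum_pair (by simp), ENNReal.toReal_add,
          ENNReal.toReal_add, ENNReal.toReal_mul, ENNReal.toReal_mul, ENNReal.toReal_mul]
        · have e1 : tri v (v + 1) = 1 := by simp [tri]
          have e2 : tri (v + 1) (v + 1) = v + 3 := by simp [tri]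
          have e3 : tri (v + 2) (v + 1) = 1 := by simp [tri]
          rw [e1, e2, e3]
          push_cast
          simp only [ENNReal.toReal_one, one_mul]
          rw [show ((v : ℝ≥0∞) + 3).toReal = (v : ℝ) + 3 by
            rw [ENNReal.toReal_add (by simp) (by simp)]; simp]
          ring
        · exact ENNReal.mul_ne_top (by simp) (hfin _ _)
        · exact ENNReal.mul_ne_top (by simp) (hfin _ _)
        · exact ENNReal.mul_ne_top (by simp) (hfin _ _)
        · exact ENNReal.add_ne_top.2 ⟨ENNReal.mul_ne_top (by simp) (hfin _ _),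
            ENNReal.mul_ne_top (by simp) (hfin _ _)⟩
      · intro u hu
        have : tri u (v + 1) = 0 := by
          simp only [Finset.mem_insert, Finset.mem_singleton, not_or] at hu
          simp only [tri]
          rw [if_neg (by omega), if_neg (by omega)]
        simp [this]
  have hz : ∀ (n : ℕ) (p : FinPath tri n), μ (cylinder p) = 0 := by
    intro n p
    have h1 := harmonic_zero h0 hrec n p.endpoint
    rw [hμ n p (stay n p.endpoint) rfl]
    rcases (ENNReal.toReal_eq_zero_iff _).1 h1 with h2 | h2
    · exact h2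
    · exact absurd h2 (hfin _ _)
  rw [← Measure.measure_univ_eq_zero]
  have hU : (univ : Set (PathSpace tri)) = ⋃ e : Edge tri,
      cylinder (n := 0) ⟨fun _ => e, fun i => i.elim0⟩ := by
    ext x
    simp only [mem_univ, mem_iUnion, true_iff]
    refine ⟨x.1 0, fun i => ?_⟩
    have : i = 0 := Fin.ext (by omega)
    subst this
    rfl
  rw [hU]
  exact measure_iUnion_null fun e => hz _ _

/-- Negative answer: no tail-invariant probability measure on the stationary diagram of `tri` is
positive on all cylinder sets; more generally every tail-invariant measure that is finite on the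
cylinder sets vanishes. -/
theorem tri_no_measure :
    (∀ μ : Measure (PathSpace tri), TailInvariant μ →
      (∀ (n : ℕ) (p : FinPath tri n), μ (cylinder p) ≠ ∞) → μ = 0) ∧
    ¬ ∃ μ : Measure (PathSpace tri), IsProbabilityMeasure μ ∧ TailInvariant μ ∧
      ∀ (n : ℕ) (p : FinPath tri n), 0 < μ (cylinder p) := by
  refine ⟨fun μ h1 h2 => measure_zero h1 h2, ?_⟩
  rintro ⟨μ, hprob, htail, _⟩
  have h0 := measure_zero htail fun n p => measure_ne_top μ _
  have h1 : μ univ = 1 := measure_univ
  rw [h0] at h1
  simp at h1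

end

end Pool.Agent.V11105.Bratteli
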