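import Mathlib

open Matrix ComplexOrder
open scoped Kronecker Matrix.Norms.L2Operator MatrixOrder

namespace Pool.Agent.V11105.CLP


/-- The 6x6 matrix M(X), complex linear in the 2x2 matrix X. -/
noncomputable def MM (X : Matrix (Fin 2) (Fin 2) ℂ) : Matrix (Fin 6) (Fin 6) ℂ :=
  !![5 * X 0 0, 2 * X 0 1, 0, 3 * X 1 0, -(3 * X 0 0), -(3 * X 0 1);
     2 * X 1 0, 11 * X 0 0 + 2 * X 1 1, 5 * X 0 1, 0, 3 * X 1 0, -(3 * X 1 1);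
     0, 5 * X 1 0, 3 * X 0 0 + 5 * X 1 1, 0, 0, 3 * X 1 0;
     3 * X 0 1, 0, 0, 5 * X 0 0 + 3 * X 1 1, 5 * X 0 1, 0;
     -(3 * X 0 0), 3 * X 0 1, 0, 5 * X 1 0, 2 * X 0 0 + 11 * X 1 1, 2 * X 0 1;
     -(3 * X 1 0), -(3 * X 1 1), 3 * X 0 1, 0, 2 * X 1 0, 5 * X 1 1]

lemma MM_add (X Y : Matrix (Fin 2) (Fin 2) ℂ) : MM (X + Y) = MM X + MM Y := by
  ext i j
  fin_cases i <;> fin_cases j <;> simp [MM] <;> ring

lemma MM_smul (c : ℂ) (X : Matrix (Fin 2) (Fin 2) ℂ) : MM (c • X) = c • MM X := by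
  ext i j
  fin_cases i <;> fin_cases j <;> simp [MM] <;> ring

lemma MM_herm {X : Matrix (Fin 2) (Fin 2) ℂ} (hX : X.IsHermitian) : (MM X).IsHermitian := by
  have h00 : star (X 0 0) = X 0 0 := hX.apply 0 0
  have h01 : star (X 0 1) = X 1 0 := hX.apply 1 0
  have h10 : star (X 1 0) = X 0 1 := hX.apply 0 1
  have h11 : star (X 1 1) = X 1 1 := hX.apply 1 1
  simp only [Complex.star_def] at h00 h01 h10 h11
  ext i j
  fin_cases i <;> fin_cases j <;>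
    simp [MM, Matrix.conjTranspose_apply, h00, h01, h10, h11]

/-- the quadratic form, written out with complex conjugates. -/
lemma form_expand (X : Matrix (Fin 2) (Fin 2) ℂ) (ξ : Fin 6 → ℂ) :
    star ξ ⬝ᵥ (MM X *ᵥ ξ) =
      (starRingEnd ℂ (ξ 0)) * (5 * X 0 0 * ξ 0 + 2 * X 0 1 * ξ 1 + 3 * X 1 0 * ξ 3
        - 3 * X 0 0 * ξ 4 - 3 * X 0 1 * ξ 5)
      + (starRingEnd ℂ (ξ 1)) * (2 * X 1 0 * ξ 0 + (11 * X 0 0 + 2 * X 1 1) * ξ 1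
        + 5 * X 0 1 * ξ 2 + 3 * X 1 0 * ξ 4 - 3 * X 1 1 * ξ 5)
      + (starRingEnd ℂ (ξ 2)) * (5 * X 1 0 * ξ 1 + (3 * X 0 0 + 5 * X 1 1) * ξ 2
        + 3 * X 1 0 * ξ 5)
      + (starRingEnd ℂ (ξ 3)) * (3 * X 0 1 * ξ 0 + (5 * X 0 0 + 3 * X 1 1) * ξ 3
        + 5 * X 0 1 * ξ 4)
      + (starRingEnd ℂ (ξ 4)) * (-3 * X 0 0 * ξ 0 + 3 * X 0 1 * ξ 1 + 5 * X 1 0 * ξ 3
        + (2 * X 0 0 + 11 * X 1 1) * ξ 4 + 2 * X 0 1 * ξ 5)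
      + (starRingEnd ℂ (ξ 5)) * (-3 * X 1 0 * ξ 0 - 3 * X 1 1 * ξ 1 + 3 * X 0 1 * ξ 2
        + 2 * X 1 0 * ξ 4 + 5 * X 1 1 * ξ 5) := by
  simp only [dotProduct, Matrix.mulVec, Fin.sum_univ_succ, Fin.sum_univ_zero, MM, Pi.star_apply,
    Complex.star_def]
  simp [Fin.succ]
  ring


/-- purely algebraic identity in independent variables (conjugates are capital letters) -/
lemma key (p q P Q x0 x1 x2 x3 x4 x5 X0 X1 X2 X3 X4 X5 : ℂ) :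
    (p * P + q * Q)^2 * (
      X0 * (5 * (p*P) * x0 + 2 * (p*Q) * x1 + 3 * (q*P) * x3 - 3 * (p*P) * x4 - 3 * (p*Q) * x5)
      + X1 * (2 * (q*P) * x0 + (11 * (p*P) + 2 * (q*Q)) * x1
        + 5 * (p*Q) * x2 + 3 * (q*P) * x4 - 3 * (q*Q) * x5)
      + X2 * (5 * (q*P) * x1 + (3 * (p*P) + 5 * (q*Q)) * x2 + 3 * (q*P) * x5)
      + X3 * (3 * (p*Q) * x0 + (5 * (p*P) + 3 * (q*Q)) * x3 + 5 * (p*Q) * x4)
      + X4 * (-3 * (p*P) * x0 + 3 * (p*Q) * x1 + 5 * (q*P) * x3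
        + (2 * (p*P) + 11 * (q*Q)) * x4 + 2 * (p*Q) * x5)
      + X5 * (-3 * (q*P) * x0 - 3 * (q*Q) * x1 + 3 * (p*Q) * x2
        + 2 * (q*P) * x4 + 5 * (q*Q) * x5))
    = (p * P + q * Q)^2 * (1/10) * (
        (P*x0+Q*x1) * (p*X0+q*X1) + (P*x1+Q*x2) * (p*X1+q*X2) + (P*x3+Q*x4)*(p*X3+q*X4)
        + (P*x4+Q*x5)*(p*X4+q*X5)
        + (p*x0+q*x3)*(P*X0+Q*X3) + 2 * ((p*x1+q*x4)*(P*X1+Q*X4)) + (p*x2+q*x5)*(P*X2+Q*X5))
      + 24/5 * (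
        ((P*((P*x0+Q*x1)*p+(P*x3+Q*x4)*q)+Q*((P*x1+Q*x2)*p+(P*x4+Q*x5)*q))
          - 5/8 * (q*Q*(P*x0+Q*x1) - q*P*(P*x3+Q*x4) - p*Q*(P*x1+Q*x2) + p*P*(P*x4+Q*x5))) *
        ((p*((p*X0+q*X1)*P+(p*X3+q*X4)*Q)+q*((p*X1+q*X2)*P+(p*X4+q*X5)*Q))
          - 5/8 * (Q*q*(p*X0+q*X1) - Q*p*(p*X3+q*X4) - P*q*(p*X1+q*X2) + P*p*(p*X4+q*X5))))
      + 1/40 * ((q*Q*(P*x0+Q*x1) - q*P*(P*x3+Q*x4) - p*Q*(P*x1+Q*x2) + p*P*(P*x4+Q*x5)) *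
          (Q*q*(p*X0+q*X1) - Q*p*(p*X3+q*X4) - P*q*(p*X1+q*X2) + P*p*(p*X4+q*X5)))
      + 49/10 * ((P*(-((P*x0+Q*x1)*Q)+(P*x3+Q*x4)*P)+Q*(-((P*x1+Q*x2)*Q)+(P*x4+Q*x5)*P)) *
          (p*(-((p*X0+q*X1)*q)+(p*X3+q*X4)*p)+q*(-((p*X1+q*X2)*q)+(p*X4+q*X5)*p)))
      + 107/10 * ((-q*((P*x0+Q*x1)*p+(P*x3+Q*x4)*q)+p*((P*x1+Q*x2)*p+(P*x4+Q*x5)*q)) *
          (-Q*((p*X0+q*X1)*P+(p*X3+q*X4)*Q)+P*((p*X1+q*X2)*P+(p*X4+q*X5)*Q)))
      + 29/10 * ((q^2*(p*x0+q*x3)-2*p*q*(p*x1+q*x4)+p^2*(p*x2+q*x5)) *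
          (Q^2*(P*X0+Q*X3)-2*P*Q*(P*X1+Q*X4)+P^2*(P*X2+Q*X5))) := by
  ring

lemma eig {n : ℕ} (A : Matrix (Fin (n+1)) (Fin (n+1)) ℂ) (hA : A.IsHermitian) :
    ∃ (l : ℝ) (v : Fin (n+1) → ℂ), v ≠ 0 ∧ A *ᵥ v = (l : ℂ) • v ∧ |l| = ‖A‖ := by
  have hsa : IsSelfAdjoint A := hA
  obtain ⟨k, hk, hk2⟩ := spectrum.exists_nnnorm_eq_spectralRadius A
  rw [hsa.spectralRadius_eq_nnnorm] at hk2
  have hk3 : ‖k‖ = ‖A‖ := by
    have : ‖k‖₊ = ‖A‖₊ := by exact_mod_cast hk2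
    exact congrArg NNReal.toReal this
  have hre : k = (k.re : ℂ) := hsa.mem_spectrum_eq_re hk
  have hnu : ¬ IsUnit ((algebraMap ℂ (Matrix (Fin (n+1)) (Fin (n+1)) ℂ)) k - A) := hk
  rw [Matrix.isUnit_iff_isUnit_det, isUnit_iff_ne_zero, not_not] at hnu
  obtain ⟨v, hv, hv2⟩ := Matrix.exists_mulVec_eq_zero_iff.mpr hnu
  refine ⟨k.re, v, hv, ?_, ?_⟩
  · rw [Matrix.sub_mulVec, Algebra.algebraMap_eq_smul_one, Matrix.smul_mulVec, Matrix.one_mulVec,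
      sub_eq_zero] at hv2
    rw [← hre]; exact hv2.symm
  · rw [← hk3, hre]
    simp

/-- bound for an eigenvalue -/
lemma eig_le {n : ℕ} (A : Matrix (Fin n) (Fin n) ℂ) (l : ℝ) (v : Fin n → ℂ) (hv : v ≠ 0)
    (h : A *ᵥ v = (l : ℂ) • v) : |l| ≤ ‖A‖ := by
  have h1 := Matrix.l2_opNorm_mulVec A (WithLp.toLp 2 v)
  have h2 : ((EuclideanSpace.equiv (Fin n) ℂ).symm (A *ᵥ (WithLp.toLp 2 v).ofLp) :
      EuclideanSpace ℂ (Fin n)) = (l : ℂ) • (WithLp.toLp 2 v) := by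
    simp only [h]
    rfl
  rw [h2, norm_smul] at h1
  have h3 : 0 < ‖(WithLp.toLp 2 v : EuclideanSpace ℂ (Fin n))‖ := by
    rw [norm_pos_iff]
    intro h0
    apply hv
    have := congrArg WithLp.ofLp h0
    simpa using this
  have h4 := le_of_mul_le_mul_right h1 h3
  simpa using h4

/-- order bound: a hermitian matrix of norm at most r lies between -r and r. -/
lemma psd_sub {n : ℕ} (A : Matrix (Fin n) (Fin n) ℂ) (hA : A.IsHermitian) :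
    ((‖A‖ : ℂ) • (1 : Matrix (Fin n) (Fin n) ℂ) - A).PosSemidef := by
  have h := IsSelfAdjoint.le_algebraMap_norm_self (show IsSelfAdjoint A from hA)
  rw [Matrix.le_iff] at h
  rw [Algebra.algebraMap_eq_smul_one] at h
  have e : (‖A‖ : ℂ) • (1 : Matrix (Fin n) (Fin n) ℂ) = (‖A‖ : ℝ) • 1 := by
    ext i j
    simp
  rw [e]
  exact h

lemma sum5 (a b c d e : ℂ) : 0 ≤ 24/5 * Complex.normSq a + 1/40 * Complex.normSq b
    + 49/10 * Complex.normSq c + 107/10 * Complex.normSq d + 29/10 * Complex.normSq e := by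
  have h1 := Complex.normSq_nonneg a
  have h2 := Complex.normSq_nonneg b
  have h3 := Complex.normSq_nonneg c
  have h4 := Complex.normSq_nonneg d
  have h5 := Complex.normSq_nonneg e
  linarith

/-- the real number controlled by `key`. -/
lemma form_real (p q : ℂ) (ξ : Fin 6 → ℂ) :
    ∃ R S : ℝ, 0 ≤ S ∧ ((Complex.normSq p + Complex.normSq q : ℝ) : ℂ)^2 *
      (star ξ ⬝ᵥ (MM (Matrix.of ![![p * starRingEnd ℂ p, p * starRingEnd ℂ q],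
        ![q * starRingEnd ℂ p, q * starRingEnd ℂ q]]) *ᵥ ξ)) = (R : ℂ) ∧
      R = (Complex.normSq p + Complex.normSq q)^2 * (1/10) * (
        Complex.normSq (starRingEnd ℂ p * ξ 0 + starRingEnd ℂ q * ξ 1)
        + Complex.normSq (starRingEnd ℂ p * ξ 1 + starRingEnd ℂ q * ξ 2)
        + Complex.normSq (starRingEnd ℂ p * ξ 3 + starRingEnd ℂ q * ξ 4)
        + Complex.normSq (starRingEnd ℂ p * ξ 4 + starRingEnd ℂ q * ξ 5)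
        + Complex.normSq (p * ξ 0 + q * ξ 3) + 2 * Complex.normSq (p * ξ 1 + q * ξ 4)
        + Complex.normSq (p * ξ 2 + q * ξ 5)) + S := by
  set P := starRingEnd ℂ p with hP
  set Q := starRingEnd ℂ q with hQ
  refine ⟨_, 24/5 * Complex.normSq
        ((P*((P*ξ 0+Q*ξ 1)*p+(P*ξ 3+Q*ξ 4)*q)+Q*((P*ξ 1+Q*ξ 2)*p+(P*ξ 4+Q*ξ 5)*q))
          - 5/8 * (q*Q*(P*ξ 0+Q*ξ 1) - q*P*(P*ξ 3+Q*ξ 4) - p*Q*(P*ξ 1+Q*ξ 2) + p*P*(P*ξ 4+Q*ξ 5)))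
      + 1/40 * Complex.normSq
        (q*Q*(P*ξ 0+Q*ξ 1) - q*P*(P*ξ 3+Q*ξ 4) - p*Q*(P*ξ 1+Q*ξ 2) + p*P*(P*ξ 4+Q*ξ 5))
      + 49/10 * Complex.normSq
        (P*(-((P*ξ 0+Q*ξ 1)*Q)+(P*ξ 3+Q*ξ 4)*P)+Q*(-((P*ξ 1+Q*ξ 2)*Q)+(P*ξ 4+Q*ξ 5)*P))
      + 107/10 * Complex.normSq
        (-q*((P*ξ 0+Q*ξ 1)*p+(P*ξ 3+Q*ξ 4)*q)+p*((P*ξ 1+Q*ξ 2)*p+(P*ξ 4+Q*ξ 5)*q))
      + 29/10 * Complex.normSq
        (q^2*(p*ξ 0+q*ξ 3)-2*p*q*(p*ξ 1+q*ξ 4)+p^2*(p*ξ 2+q*ξ 5)), ?_, ?_, rfl⟩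
  · exact sum5 _ _ _ _ _
  · rw [form_expand]
    have e := key p q P Q (ξ 0) (ξ 1) (ξ 2) (ξ 3) (ξ 4) (ξ 5)
      (starRingEnd ℂ (ξ 0)) (starRingEnd ℂ (ξ 1)) (starRingEnd ℂ (ξ 2))
      (starRingEnd ℂ (ξ 3)) (starRingEnd ℂ (ξ 4)) (starRingEnd ℂ (ξ 5))
    have hPc : starRingEnd ℂ P = p := Complex.conj_conj p
    have hQc : starRingEnd ℂ Q = q := Complex.conj_conj q
    have h2 : starRingEnd ℂ (2 : ℂ) = 2 := Complex.conj_ofNat 2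
    have h58 : starRingEnd ℂ (5/8 : ℂ) = 5/8 := by
      rw [map_div₀, Complex.conj_ofNat, Complex.conj_ofNat]
    have hN : ((Complex.normSq p + Complex.normSq q : ℝ) : ℂ) = p * P + q * Q := by
      rw [hP, hQ, Complex.mul_conj, Complex.mul_conj]; push_cast; rfl
    rw [hN]
    have c00 : (Matrix.of ![![p * P, p * Q], ![q * P, q * Q]] : Matrix (Fin 2) (Fin 2) ℂ) 0 0
      = p * P := rfl
    have c01 : (Matrix.of ![![p * P, p * Q], ![q * P, q * Q]] : Matrix (Fin 2) (Fin 2) ℂ) 0 1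
      = p * Q := rfl
    have c10 : (Matrix.of ![![p * P, p * Q], ![q * P, q * Q]] : Matrix (Fin 2) (Fin 2) ℂ) 1 0
      = q * P := rfl
    have c11 : (Matrix.of ![![p * P, p * Q], ![q * P, q * Q]] : Matrix (Fin 2) (Fin 2) ℂ) 1 1
      = q * Q := rfl
    rw [c00, c01, c10, c11, e]
    have key2 : ∀ z : ℂ, ((Complex.normSq z : ℝ) : ℂ) = z * starRingEnd ℂ z := fun z =>
      (Complex.mul_conj z).symm
    push_cast
    simp only [key2, map_add, map_sub, map_mul, map_neg, map_pow, hPc, hQc, h58, h2, ← hP, ← hQ]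
    ring

/-- rank-one matrix `h h*` in coordinates. -/
noncomputable def R1 (p q : ℂ) : Matrix (Fin 2) (Fin 2) ℂ :=
  Matrix.of ![![p * starRingEnd ℂ p, p * starRingEnd ℂ q],
        ![q * starRingEnd ℂ p, q * starRingEnd ℂ q]]

lemma form_nonneg (p q : ℂ) (ξ : Fin 6 → ℂ) : 0 ≤ star ξ ⬝ᵥ (MM (R1 p q) *ᵥ ξ) := by
  by_cases hN : Complex.normSq p + Complex.normSq q = 0
  · have h1 := Complex.normSq_nonneg p
    have h2 := Complex.normSq_nonneg q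
    have hp : p = 0 := by
      rw [← Complex.normSq_eq_zero]; linarith
    have hq : q = 0 := by
      rw [← Complex.normSq_eq_zero]; linarith
    have : R1 p q = (0 : ℂ) • (1 : Matrix (Fin 2) (Fin 2) ℂ) := by
      rw [hp, hq]
      ext i j
      fin_cases i <;> fin_cases j <;> simp [R1]
    rw [this, MM_smul]
    simp
  · obtain ⟨R, S, hS, hE, hR⟩ := form_real p q ξ
    have hN2 : 0 < (Complex.normSq p + Complex.normSq q)^2 := by positivity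
    have hRn : 0 ≤ R := by
      rw [hR]
      have g1 := Complex.normSq_nonneg (starRingEnd ℂ p * ξ 0 + starRingEnd ℂ q * ξ 1)
      have g2 := Complex.normSq_nonneg (starRingEnd ℂ p * ξ 1 + starRingEnd ℂ q * ξ 2)
      have g3 := Complex.normSq_nonneg (starRingEnd ℂ p * ξ 3 + starRingEnd ℂ q * ξ 4)
      have g4 := Complex.normSq_nonneg (starRingEnd ℂ p * ξ 4 + starRingEnd ℂ q * ξ 5)
      have g5 := Complex.normSq_nonneg (p * ξ 0 + q * ξ 3)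
      have g6 := Complex.normSq_nonneg (p * ξ 1 + q * ξ 4)
      have g7 := Complex.normSq_nonneg (p * ξ 2 + q * ξ 5)
      positivity
    have hE2 : star ξ ⬝ᵥ (MM (R1 p q) *ᵥ ξ) =
        ((R / (Complex.normSq p + Complex.normSq q)^2 : ℝ) : ℂ) := by
      have hne : (((Complex.normSq p + Complex.normSq q : ℝ) : ℂ)^2) ≠ 0 := by
        have : ((Complex.normSq p + Complex.normSq q : ℝ) : ℂ) ≠ 0 := by exact_mod_cast hN
        exact pow_ne_zero 2 this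
      have hE' : ((Complex.normSq p + Complex.normSq q : ℝ) : ℂ)^2 *
          (star ξ ⬝ᵥ (MM (R1 p q) *ᵥ ξ)) = (R : ℂ) := hE
      rw [eq_comm, Complex.ofReal_div, div_eq_iff (by exact_mod_cast hN2.ne'), ← hE']
      push_cast
      ring
    rw [hE2]
    exact_mod_cast div_nonneg hRn hN2.le

/-- the kernel of the form at `h h*`, `h = (p,q) ≠ 0`. -/
lemma form_zero (p q : ℂ) (hN : Complex.normSq p + Complex.normSq q ≠ 0) (ξ : Fin 6 → ℂ)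
    (h0 : star ξ ⬝ᵥ (MM (R1 p q) *ᵥ ξ) = 0) :
    starRingEnd ℂ p * ξ 0 + starRingEnd ℂ q * ξ 1 = 0 ∧
    starRingEnd ℂ p * ξ 1 + starRingEnd ℂ q * ξ 2 = 0 ∧
    starRingEnd ℂ p * ξ 3 + starRingEnd ℂ q * ξ 4 = 0 ∧
    starRingEnd ℂ p * ξ 4 + starRingEnd ℂ q * ξ 5 = 0 ∧
    p * ξ 0 + q * ξ 3 = 0 ∧ p * ξ 1 + q * ξ 4 = 0 ∧ p * ξ 2 + q * ξ 5 = 0 := by
  obtain ⟨R, S, hS, hE, hR⟩ := form_real p q ξ
  have hN2 : 0 < (Complex.normSq p + Complex.normSq q)^2 := by positivity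
  have hE' : ((Complex.normSq p + Complex.normSq q : ℝ) : ℂ)^2 *
          (star ξ ⬝ᵥ (MM (R1 p q) *ᵥ ξ)) = (R : ℂ) := hE
  rw [h0, mul_zero] at hE'
  have hR0 : R = 0 := by exact_mod_cast hE'.symm
  rw [hR0] at hR
  have g1 := Complex.normSq_nonneg (starRingEnd ℂ p * ξ 0 + starRingEnd ℂ q * ξ 1)
  have g2 := Complex.normSq_nonneg (starRingEnd ℂ p * ξ 1 + starRingEnd ℂ q * ξ 2)
  have g3 := Complex.normSq_nonneg (starRingEnd ℂ p * ξ 3 + starRingEnd ℂ q * ξ 4)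
  have g4 := Complex.normSq_nonneg (starRingEnd ℂ p * ξ 4 + starRingEnd ℂ q * ξ 5)
  have g5 := Complex.normSq_nonneg (p * ξ 0 + q * ξ 3)
  have g6 := Complex.normSq_nonneg (p * ξ 1 + q * ξ 4)
  have g7 := Complex.normSq_nonneg (p * ξ 2 + q * ξ 5)
  set T := Complex.normSq (starRingEnd ℂ p * ξ 0 + starRingEnd ℂ q * ξ 1)
        + Complex.normSq (starRingEnd ℂ p * ξ 1 + starRingEnd ℂ q * ξ 2)
        + Complex.normSq (starRingEnd ℂ p * ξ 3 + starRingEnd ℂ q * ξ 4)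
        + Complex.normSq (starRingEnd ℂ p * ξ 4 + starRingEnd ℂ q * ξ 5)
        + Complex.normSq (p * ξ 0 + q * ξ 3) + 2 * Complex.normSq (p * ξ 1 + q * ξ 4)
        + Complex.normSq (p * ξ 2 + q * ξ 5) with hT
  have hTn : 0 ≤ T := by rw [hT]; positivity
  have hT0 : T = 0 := by
    by_contra hc
    have : 0 < T := lt_of_le_of_ne hTn (Ne.symm hc)
    have h2 : 0 < (Complex.normSq p + Complex.normSq q)^2 * (1/10) * T := by positivity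
    linarith
  rw [hT] at hT0
  refine ⟨?_, ?_, ?_, ?_, ?_, ?_, ?_⟩ <;> rw [← Complex.normSq_eq_zero] <;> linarith

/-- positivity of the linear map `MM`. -/
lemma MM_pos {X : Matrix (Fin 2) (Fin 2) ℂ} (hX : X.PosSemidef) : (MM X).PosSemidef := by
  obtain ⟨B, hB⟩ := CStarAlgebra.nonneg_iff_eq_star_mul_self.mp hX.nonneg
  have hdec : X = R1 (starRingEnd ℂ (B 0 0)) (starRingEnd ℂ (B 0 1)) +
      R1 (starRingEnd ℂ (B 1 0)) (starRingEnd ℂ (B 1 1)) := by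
    rw [hB]
    ext i j
    fin_cases i <;> fin_cases j <;>
      simp [R1, Matrix.mul_apply, Fin.sum_univ_two, Matrix.star_apply]
  refine Matrix.PosSemidef.of_dotProduct_mulVec_nonneg (MM_herm hX.1) (fun ξ => ?_)
  rw [hdec, MM_add, Matrix.add_mulVec, dotProduct_add]
  exact add_nonneg (form_nonneg _ _ _) (form_nonneg _ _ _)

lemma MM_one_pos (ξ : Fin 6 → ℂ) (h0 : star ξ ⬝ᵥ (MM 1 *ᵥ ξ) = 0) : ξ = 0 := by
  have h1 : (1 : Matrix (Fin 2) (Fin 2) ℂ) = R1 1 0 + R1 0 1 := by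
    ext i j
    fin_cases i <;> fin_cases j <;> simp [R1]
  rw [h1, MM_add, Matrix.add_mulVec, dotProduct_add] at h0
  have ha := form_nonneg 1 0 ξ
  have hb := form_nonneg 0 1 ξ
  have ha0 : star ξ ⬝ᵥ (MM (R1 1 0) *ᵥ ξ) = 0 := by
    have := (add_eq_zero_iff_of_nonneg ha hb).mp h0
    exact this.1
  have hb0 : star ξ ⬝ᵥ (MM (R1 0 1) *ᵥ ξ) = 0 := by
    have := (add_eq_zero_iff_of_nonneg ha hb).mp h0
    exact this.2
  obtain ⟨a1, a2, a3, a4, a5, a6, a7⟩ := form_zero 1 0 (by simp) ξ ha0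
  obtain ⟨b1, b2, b3, b4, b5, b6, b7⟩ := form_zero 0 1 (by simp) ξ hb0
  simp at a1 a2 a3 a4 a5 a6 a7 b1 b2 b3 b4 b5 b6 b7
  ext i
  fin_cases i <;> simp [*]

/-- there is an invertible `B` with `MM 1 = B* B`. -/
lemma exists_B : ∃ B : Matrix (Fin 6) (Fin 6) ℂ, IsUnit B.det ∧ MM 1 = Bᴴ * B := by
  obtain ⟨B, hB⟩ := CStarAlgebra.nonneg_iff_eq_star_mul_self.mp
    (MM_pos Matrix.PosSemidef.one).nonneg
  refine ⟨B, ?_, hB⟩
  rw [isUnit_iff_ne_zero]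
  intro hd
  obtain ⟨v, hv, hv2⟩ := Matrix.exists_mulVec_eq_zero_iff.mpr hd
  apply hv
  apply MM_one_pos
  rw [hB, ← Matrix.mulVec_mulVec, hv2]
  simp

end Pool.Agent.V11105.CLP
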