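import Pool.Agent.V11105.CLPa

open Matrix ComplexOrder
open scoped Kronecker Matrix.Norms.L2Operator MatrixOrder

namespace Pool.Agent.V11105.CLP

/-- hermitian matrices -/
abbrev Herm (n : ℕ) : Type := selfAdjoint (Matrix (Fin n) (Fin n) ℂ)

def IsUnital {n k : ℕ} (Φ : Herm n →ₗ[ℝ] Herm k) : Prop := Φ 1 = 1

def IsPos {n k : ℕ} (Φ : Herm n →ₗ[ℝ] Herm k) : Prop :=
  ∀ X : Herm n, (X : Matrix (Fin n) (Fin n) ℂ).PosSemidef →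
    (Φ X : Matrix (Fin k) (Fin k) ℂ).PosSemidef

def IsIsom {n k : ℕ} (Φ : Herm n →ₗ[ℝ] Herm k) : Prop :=
  ∀ X : Herm n, ‖(Φ X : Matrix (Fin k) (Fin k) ℂ)‖ = ‖(X : Matrix (Fin n) (Fin n) ℂ)‖

/-- `(X ⊗ I_α) ⊕ (Xᵗ ⊗ I_β) ⊕ Y`. -/
def bigSum {n ζ : ℕ} (α β : ℕ) (X : Matrix (Fin n) (Fin n) ℂ) (Y : Matrix (Fin ζ) (Fin ζ) ℂ) :
    Matrix ((Fin n × Fin α) ⊕ ((Fin n × Fin β) ⊕ Fin ζ))
      ((Fin n × Fin α) ⊕ ((Fin n × Fin β) ⊕ Fin ζ)) ℂ :=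
  Matrix.fromBlocks (X ⊗ₖ (1 : Matrix (Fin α) (Fin α) ℂ)) 0 0
    (Matrix.fromBlocks (Xᵀ ⊗ₖ (1 : Matrix (Fin β) (Fin β) ℂ)) 0 0 Y)

/-- `(h ⊗ h₁) ⊕ (h̄ ⊗ h₂) ⊕ 0`. -/
def bigVec {n : ℕ} {α β : ℕ} (ζ : ℕ) (h : Fin n → ℂ) (h₁ : Fin α → ℂ) (h₂ : Fin β → ℂ) :
    ((Fin n × Fin α) ⊕ ((Fin n × Fin β) ⊕ Fin ζ)) → ℂ :=
  Sum.elim (fun p => h p.1 * h₁ p.2) (Sum.elim (fun p => star (h p.1) * h₂ p.2) (fun _ => 0))

/-- generalized CLP isometry -/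
def IsGenCLP {n k : ℕ} (Φ : Herm n →ₗ[ℝ] Herm k) : Prop :=
  ∃ (α β ζ : ℕ) (f : Herm n →ₗ[ℝ] Herm ζ)
    (V : Matrix ((Fin n × Fin α) ⊕ ((Fin n × Fin β) ⊕ Fin ζ)) (Fin k) ℂ),
    IsUnital f ∧ IsPos f ∧ Vᴴ * V = 1 ∧
    (∀ h : Fin n → ℂ, h ≠ 0 → ∃ (h₁ : Fin α → ℂ) (h₂ : Fin β → ℂ),
      bigVec ζ h h₁ h₂ ≠ 0 ∧ bigVec ζ h h₁ h₂ ∈ Set.range (fun v => V *ᵥ v)) ∧
    ∀ X : Herm n, (Φ X : Matrix (Fin k) (Fin k) ℂ) =
      Vᴴ * bigSum α β (X : Matrix (Fin n) (Fin n) ℂ) (f X : Matrix (Fin ζ) (Fin ζ) ℂ) * V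

/-- the conjugated map -/
noncomputable def Phi (B : Matrix (Fin 6) (Fin 6) ℂ) : Herm 2 →ₗ[ℝ] Herm 6 where
  toFun X := ⟨(B⁻¹)ᴴ * MM X * B⁻¹, by
    have h := MM_herm (X := (X : Matrix (Fin 2) (Fin 2) ℂ)) X.2
    show star ((B⁻¹)ᴴ * MM X * B⁻¹) = _
    rw [Matrix.star_eq_conjTranspose, Matrix.conjTranspose_mul, Matrix.conjTranspose_mul,
      Matrix.conjTranspose_conjTranspose, h.eq, Matrix.mul_assoc]⟩
  map_add' X Y := by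
    apply Subtype.ext
    simp only [AddSubgroup.coe_add, MM_add, Matrix.mul_add, Matrix.add_mul]
  map_smul' c X := by
    apply Subtype.ext
    have : ((c • X : Herm 2) : Matrix (Fin 2) (Fin 2) ℂ) = (c : ℂ) • (X : Matrix (Fin 2) (Fin 2) ℂ) := by
      ext i j
      simp
    simp only [this, MM_smul, RingHom.id_apply]
    ext i j
    simp

lemma Phi_unital (B : Matrix (Fin 6) (Fin 6) ℂ) (hB : IsUnit B.det) (hB2 : MM 1 = Bᴴ * B) :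
    IsUnital (Phi B) := by
  apply Subtype.ext
  show (B⁻¹)ᴴ * MM ((1 : Herm 2) : Matrix (Fin 2) (Fin 2) ℂ) * B⁻¹ = 1
  have : ((1 : Herm 2) : Matrix (Fin 2) (Fin 2) ℂ) = 1 := rfl
  rw [this, hB2, Matrix.mul_assoc, Matrix.mul_assoc, Matrix.mul_nonsing_inv B hB, Matrix.mul_one,
    ← Matrix.conjTranspose_mul, Matrix.mul_nonsing_inv B hB, Matrix.conjTranspose_one]

lemma Phi_pos (B : Matrix (Fin 6) (Fin 6) ℂ) : IsPos (Phi B) := fun X hX =>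
  (MM_pos hX).conjTranspose_mul_mul_same (B⁻¹)

/-- the vector `h ⊗ h ⊗ h̄`. -/
noncomputable def ww (h : Fin 2 → ℂ) : Fin 6 → ℂ :=
  ![h 0 * h 0 * starRingEnd ℂ (h 0), h 0 * h 1 * starRingEnd ℂ (h 0),
    h 1 * h 1 * starRingEnd ℂ (h 0), h 0 * h 0 * starRingEnd ℂ (h 1),
    h 0 * h 1 * starRingEnd ℂ (h 1), h 1 * h 1 * starRingEnd ℂ (h 1)]

lemma ww_ne {h : Fin 2 → ℂ} (hh : h ≠ 0) : ww h ≠ 0 := by
  intro h0
  apply hh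
  have e0 : h 0 * h 0 * starRingEnd ℂ (h 0) = 0 := congrFun h0 0
  have e5 : h 1 * h 1 * starRingEnd ℂ (h 1) = 0 := congrFun h0 5
  ext i
  fin_cases i
  · simpa using e0
  · simpa using e5

/-- if `Y` is hermitian and kills `h`, then `MM Y` kills `ww h`. -/
lemma MM_ww {Y : Matrix (Fin 2) (Fin 2) ℂ} (hY : Y.IsHermitian) {h : Fin 2 → ℂ}
    (hk : Y *ᵥ h = 0) : MM Y *ᵥ ww h = 0 := by
  have h00 : starRingEnd ℂ (Y 0 0) = Y 0 0 := hY.apply 0 0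
  have h01 : starRingEnd ℂ (Y 0 1) = Y 1 0 := hY.apply 1 0
  have h10 : starRingEnd ℂ (Y 1 0) = Y 0 1 := hY.apply 0 1
  have h11 : starRingEnd ℂ (Y 1 1) = Y 1 1 := hY.apply 1 1
  have r1 : Y 0 0 * h 0 + Y 0 1 * h 1 = 0 := by
    have := congrFun hk 0
    simpa [Matrix.mulVec, dotProduct, Fin.sum_univ_two] using this
  have r2 : Y 1 0 * h 0 + Y 1 1 * h 1 = 0 := by
    have := congrFun hk 1
    simpa [Matrix.mulVec, dotProduct, Fin.sum_univ_two] using this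
  have r3 : Y 0 0 * starRingEnd ℂ (h 0) + Y 1 0 * starRingEnd ℂ (h 1) = 0 := by
    have := congrArg (starRingEnd ℂ) r1
    simpa [h00, h01] using this
  have r4 : Y 0 1 * starRingEnd ℂ (h 0) + Y 1 1 * starRingEnd ℂ (h 1) = 0 := by
    have := congrArg (starRingEnd ℂ) r2
    simpa [h10, h11] using this
  set x := Y 0 0
  set y := Y 0 1
  set z := Y 1 0
  set w := Y 1 1
  set p := h 0
  set q := h 1
  set P := starRingEnd ℂ p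
  set Q := starRingEnd ℂ q
  have c0 : 5*x*(p*p*P) + 2*y*(p*q*P) + 3*z*(p*p*Q) - 3*x*(p*q*Q) - 3*y*(q*q*Q) = 0 := by
    linear_combination (2*p*P - 3*q*Q) * r1 + 3*p*p * r3
  have c1 : 2*z*(p*p*P) + (11*x+2*w)*(p*q*P) + 5*y*(q*q*P) + 3*z*(p*q*Q) - 3*w*(q*q*Q) = 0 := by
    linear_combination (2*p*P - 3*q*Q) * r2 + 5*q*P * r1 + 6*p*q * r3
  have c2 : 5*z*(p*q*P) + (3*x+5*w)*(q*q*P) + 3*z*(q*q*Q) = 0 := by
    linear_combination 5*q*P * r2 + 3*q*q * r3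
  have c3 : 3*y*(p*p*P) + (5*x+3*w)*(p*p*Q) + 5*y*(p*q*Q) = 0 := by
    linear_combination 3*p*p * r4 + 5*p*Q * r1
  have c4 : -3*x*(p*p*P) + 3*y*(p*q*P) + 5*z*(p*p*Q) + (2*x+11*w)*(p*q*Q) + 2*y*(q*q*Q) = 0 := by
    linear_combination (2*q*Q - 3*p*P) * r1 + 5*p*Q * r2 + 6*p*q * r4
  have c5 : -3*z*(p*p*P) - 3*w*(p*q*P) + 3*y*(q*q*P) + 2*z*(p*q*Q) + 5*w*(q*q*Q) = 0 := by
    linear_combination (2*q*Q - 3*p*P) * r2 + 3*q*q * r4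
  ext i
  fin_cases i
  · simp [MM, ww, Matrix.mulVec, dotProduct, Fin.sum_univ_succ]
    linear_combination c0
  · simp [MM, ww, Matrix.mulVec, dotProduct, Fin.sum_univ_succ]
    linear_combination c1
  · simp [MM, ww, Matrix.mulVec, dotProduct, Fin.sum_univ_succ]
    linear_combination c2
  · simp [MM, ww, Matrix.mulVec, dotProduct, Fin.sum_univ_succ]
    linear_combination c3
  · simp [MM, ww, Matrix.mulVec, dotProduct, Fin.sum_univ_succ]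
    linear_combination c4
  · simp [MM, ww, Matrix.mulVec, dotProduct, Fin.sum_univ_succ]
    linear_combination c5

end Pool.Agent.V11105.CLP
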