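import Pool.Agent.V11105.CLPb

open Matrix ComplexOrder
open scoped Kronecker Matrix.Norms.L2Operator MatrixOrder

namespace Pool.Agent.V11105.CLP

lemma contract {n k : ℕ} (Φ : Herm n →ₗ[ℝ] Herm (k+1)) (hu : IsUnital Φ) (hp : IsPos Φ)
    (X : Herm n) :
    ‖(Φ X : Matrix (Fin (k+1)) (Fin (k+1)) ℂ)‖ ≤ ‖(X : Matrix (Fin n) (Fin n) ℂ)‖ := by
  obtain ⟨l, v, hv, hv2, hl⟩ := eig (Φ X : Matrix (Fin (k+1)) (Fin (k+1)) ℂ) (Φ X).2
  rw [← hl]
  have hvv : 0 < star v ⬝ᵥ v := by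
    have h1 : 0 ≤ star v ⬝ᵥ v := dotProduct_star_self_nonneg v
    refine lt_of_le_of_ne h1 (fun h => hv ?_)
    exact dotProduct_star_self_eq_zero.mp h.symm
  have main : ∀ (Z : Herm n) (m : ℝ), (Φ Z : Matrix (Fin (k+1)) (Fin (k+1)) ℂ) *ᵥ v = (m : ℂ) • v →
      m ≤ ‖(Z : Matrix (Fin n) (Fin n) ℂ)‖ := by
    intro Z m hm
    set r := ‖(Z : Matrix (Fin n) (Fin n) ℂ)‖ with hr
    have h1 : (((r • (1 : Herm n) - Z : Herm n)) : Matrix (Fin n) (Fin n) ℂ).PosSemidef := by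
      have := psd_sub (Z : Matrix (Fin n) (Fin n) ℂ) Z.2
      convert this using 1
      ext i j
      simp [← hr]
    have h2 := hp _ h1
    have h3 := h2.dotProduct_mulVec_nonneg v
    have h4 : ((Φ (r • (1 : Herm n) - Z) : Herm (k+1)) : Matrix (Fin (k+1)) (Fin (k+1)) ℂ)
        = (r : ℂ) • 1 - (Φ Z : Matrix (Fin (k+1)) (Fin (k+1)) ℂ) := by
      rw [map_sub, map_smul, hu]
      ext i j
      simp
    rw [h4, Matrix.sub_mulVec, hm, Matrix.smul_mulVec, Matrix.one_mulVec, ← sub_smul,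
      dotProduct_smul, smul_eq_mul] at h3
    by_contra hc
    push Not at hc
    have h5 : ((r : ℂ) - m) < 0 := by
      have : r - m < 0 := by linarith
      exact_mod_cast this
    have h6 : ((r : ℂ) - m) * (star v ⬝ᵥ v) < 0 := mul_neg_of_neg_of_pos h5 hvv
    exact absurd h3 (not_le_of_gt h6)
  rw [abs_le]
  constructor
  · have h7 := main (-X) (-l) (by
      rw [map_neg]
      have : ((-(Φ X) : Herm (k+1)) : Matrix (Fin (k+1)) (Fin (k+1)) ℂ)
        = -((Φ X : Herm (k+1)) : Matrix (Fin (k+1)) (Fin (k+1)) ℂ) := rfl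
      rw [this, Matrix.neg_mulVec, hv2]
      push_cast
      rw [neg_smul])
    have h8 : ‖((-X : Herm n) : Matrix (Fin n) (Fin n) ℂ)‖ = ‖(X : Matrix (Fin n) (Fin n) ℂ)‖ := by
      have : ((-X : Herm n) : Matrix (Fin n) (Fin n) ℂ) = -(X : Matrix (Fin n) (Fin n) ℂ) := rfl
      rw [this, norm_neg]
    rw [h8] at h7
    linarith
  · exact main X l hv2

lemma Phi_isom (B : Matrix (Fin 6) (Fin 6) ℂ) (hB : IsUnit B.det) (hB2 : MM 1 = Bᴴ * B) :
    IsIsom (Phi B) := by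
  intro X
  apply le_antisymm
  · exact contract (Phi B) (Phi_unital B hB hB2) (Phi_pos B) X
  · obtain ⟨l, h, hh, hh2, hl⟩ := eig (X : Matrix (Fin 2) (Fin 2) ℂ) X.2
    rw [← hl]
    apply eig_le _ l (B *ᵥ ww h)
    · intro h0
      apply ww_ne hh
      have : B⁻¹ *ᵥ (B *ᵥ ww h) = 0 := by rw [h0, Matrix.mulVec_zero]
      rwa [Matrix.mulVec_mulVec, Matrix.nonsing_inv_mul B hB, Matrix.one_mulVec] at this
    · have hY : ((X : Matrix (Fin 2) (Fin 2) ℂ) + (-(l : ℂ)) • (1 : Matrix (Fin 2) (Fin 2) ℂ)).IsHermitian := by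
        have h1 : (X : Matrix (Fin 2) (Fin 2) ℂ).IsHermitian := X.2
        refine h1.add ?_
        show ((-(l : ℂ)) • (1 : Matrix (Fin 2) (Fin 2) ℂ))ᴴ = _
        rw [Matrix.conjTranspose_smul, Matrix.conjTranspose_one]
        congr 1
        simp
      have hk : ((X : Matrix (Fin 2) (Fin 2) ℂ) + (-(l : ℂ)) • (1 : Matrix (Fin 2) (Fin 2) ℂ)) *ᵥ h
          = 0 := by
        rw [Matrix.add_mulVec, hh2, Matrix.smul_mulVec, Matrix.one_mulVec, neg_smul, add_neg_cancel]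
      have h3 := MM_ww hY hk
      rw [MM_add, MM_smul, Matrix.add_mulVec, Matrix.smul_mulVec, neg_smul, ← sub_eq_add_neg,
        sub_eq_zero] at h3
      show ((B⁻¹)ᴴ * MM X * B⁻¹) *ᵥ (B *ᵥ ww h) = _
      rw [Matrix.mulVec_mulVec, Matrix.mul_assoc, Matrix.nonsing_inv_mul B hB, Matrix.mul_one,
        ← Matrix.mulVec_mulVec, h3, hB2, Matrix.mulVec_smul, Matrix.mulVec_mulVec,
        ← Matrix.mul_assoc, ← Matrix.conjTranspose_mul, Matrix.mul_nonsing_inv B hB,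
        Matrix.conjTranspose_one, Matrix.one_mul]

end Pool.Agent.V11105.CLP
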