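import Pool.Agent.V11105.CLPc

open Matrix ComplexOrder
open scoped Kronecker Matrix.Norms.L2Operator MatrixOrder

namespace Pool.Agent.V11105.CLP

variable {α β ζ : ℕ}

lemma bigSum_bigVec (X : Matrix (Fin 2) (Fin 2) ℂ) (Y : Matrix (Fin ζ) (Fin ζ) ℂ)
    (h : Fin 2 → ℂ) (h₁ : Fin α → ℂ) (h₂ : Fin β → ℂ) :
    bigSum α β X Y *ᵥ bigVec ζ h h₁ h₂ =
      Sum.elim (fun p => (X *ᵥ h) p.1 * h₁ p.2)
        (Sum.elim (fun p => (Xᵀ *ᵥ star h) p.1 * h₂ p.2) (fun _ => 0)) := by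
  funext r
  rcases r with ⟨i, s⟩ | ⟨i, s⟩ | r
  · simp [bigSum, bigVec, Matrix.mulVec, dotProduct, Fintype.sum_sum_type, Fintype.sum_prod_type,
      Matrix.kroneckerMap_apply, Matrix.one_apply, Fin.sum_univ_two]
    ring
  · simp [bigSum, bigVec, Matrix.mulVec, dotProduct, Fintype.sum_sum_type, Fintype.sum_prod_type,
      Matrix.kroneckerMap_apply, Matrix.one_apply, Fin.sum_univ_two]
    ring
  · simp [bigSum, bigVec, Matrix.mulVec, dotProduct, Fintype.sum_sum_type, Fintype.sum_prod_type]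

lemma bigSum_kill (X : Matrix (Fin 2) (Fin 2) ℂ) (hX : X.IsHermitian)
    (Y : Matrix (Fin ζ) (Fin ζ) ℂ)
    (h : Fin 2 → ℂ) (h₁ : Fin α → ℂ) (h₂ : Fin β → ℂ) (hk : X *ᵥ h = 0) :
    bigSum α β X Y *ᵥ bigVec ζ h h₁ h₂ = 0 := by
  have hk2 : Xᵀ *ᵥ star h = 0 := by
    have : Xᵀ *ᵥ star h = star (Xᴴ *ᵥ h) := by
      ext i
      fin_cases i <;>
        simp [Matrix.mulVec, dotProduct, Fin.sum_univ_two, Matrix.conjTranspose_apply]
    rw [this, hX.eq, hk, star_zero]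
  rw [bigSum_bigVec, hk, hk2]
  funext r
  rcases r with ⟨i, s⟩ | ⟨i, s⟩ | r <;> simp

/-- from the seven linear equations to proportionality with `ww h`. -/
lemma prop_ww (h : Fin 2 → ℂ) (hh : h ≠ 0) (ξ : Fin 6 → ℂ) (hξ : ξ ≠ 0)
    (e : -h 1 * ξ 0 + h 0 * ξ 1 = 0 ∧ -h 1 * ξ 1 + h 0 * ξ 2 = 0 ∧
      -h 1 * ξ 3 + h 0 * ξ 4 = 0 ∧ -h 1 * ξ 4 + h 0 * ξ 5 = 0 ∧
      -starRingEnd ℂ (h 1) * ξ 0 + starRingEnd ℂ (h 0) * ξ 3 = 0 ∧
      -starRingEnd ℂ (h 1) * ξ 1 + starRingEnd ℂ (h 0) * ξ 4 = 0 ∧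
      -starRingEnd ℂ (h 1) * ξ 2 + starRingEnd ℂ (h 0) * ξ 5 = 0) :
    ∃ c : ℂ, ww h = c • ξ := by
  obtain ⟨e1, e2, e3, e4, e5, e6, e7⟩ := e
  by_cases h0 : h 0 = 0
  · have h1 : h 1 ≠ 0 := by
      intro h1
      apply hh
      ext i
      fin_cases i
      · exact h0
      · exact h1
    have h1c : starRingEnd ℂ (h 1) ≠ 0 := by
      intro hc
      apply h1
      have := congrArg (starRingEnd ℂ) hc
      simpa using this
    rw [h0] at e1 e2 e3 e4 e5 e6 e7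
    simp only [zero_mul, add_zero, map_zero, neg_mul, neg_eq_zero, mul_eq_zero] at e1 e2 e3 e4 e5 e6 e7
    have x0 : ξ 0 = 0 := e1.resolve_left h1
    have x1 : ξ 1 = 0 := e2.resolve_left h1
    have x3 : ξ 3 = 0 := e3.resolve_left h1
    have x4 : ξ 4 = 0 := e4.resolve_left h1
    have x2 : ξ 2 = 0 := e7.resolve_left h1c
    have x5 : ξ 5 ≠ 0 := by
      intro x5
      apply hξ
      ext i
      fin_cases i
      · exact x0
      · exact x1
      · exact x2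
      · exact x3
      · exact x4
      · exact x5
    refine ⟨h 1 * h 1 * starRingEnd ℂ (h 1) / ξ 5, ?_⟩
    ext i
    fin_cases i <;> simp [ww, h0, x0, x1, x2, x3, x4]
    field_simp
  · have h0c : starRingEnd ℂ (h 0) ≠ 0 := by
      intro hc
      apply h0
      have := congrArg (starRingEnd ℂ) hc
      simpa using this
    set p := h 0 with hp
    set q := h 1 with hq
    set P := starRingEnd ℂ p with hP
    set Q := starRingEnd ℂ q with hQ
    have x1 : ξ 1 = q * ξ 0 / p := by field_simp; linear_combination e1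
    have x2 : ξ 2 = q * q * ξ 0 / (p * p) := by
      field_simp
      rw [x1] at e2
      field_simp at e2
      linear_combination e2
    have x3 : ξ 3 = Q * ξ 0 / P := by field_simp; linear_combination e5
    have x4 : ξ 4 = q * Q * ξ 0 / (p * P) := by
      rw [x3] at e3
      field_simp
      field_simp at e3
      linear_combination e3
    have x5 : ξ 5 = q * q * Q * ξ 0 / (p * p * P) := by
      rw [x4] at e4
      field_simp
      field_simp at e4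
      linear_combination e4
    have x0 : ξ 0 ≠ 0 := by
      intro x0
      apply hξ
      rw [x0] at x1 x2 x3 x4 x5
      ext i
      fin_cases i
      · exact x0
      · simpa using x1
      · simpa using x2
      · simpa using x3
      · simpa using x4
      · simpa using x5
    refine ⟨p * p * P / ξ 0, ?_⟩
    ext i
    fin_cases i
    · simp [ww, ← hp, ← hq, ← hP, ← hQ]; field_simp
    · simp [ww, x1, ← hp, ← hq, ← hP, ← hQ]; field_simp
    · simp [ww, x2, ← hp, ← hq, ← hP, ← hQ]; field_simp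
    · simp [ww, x3, ← hp, ← hq, ← hP, ← hQ]; field_simp
    · simp [ww, x4, ← hp, ← hq, ← hP, ← hQ]; field_simp
    · simp [ww, x5, ← hp, ← hq, ← hP, ← hQ]; field_simp

/-- Main analysis of a presentation as a generalized CLP map. -/
lemma col_form {B : Matrix (Fin 6) (Fin 6) ℂ} (hB : IsUnit B.det)
    (f : Herm 2 →ₗ[ℝ] Herm ζ)
    (V : Matrix ((Fin 2 × Fin α) ⊕ ((Fin 2 × Fin β) ⊕ Fin ζ)) (Fin 6) ℂ)
    (hV : ∀ h : Fin 2 → ℂ, h ≠ 0 → ∃ (h₁ : Fin α → ℂ) (h₂ : Fin β → ℂ),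
      bigVec ζ h h₁ h₂ ≠ 0 ∧ bigVec ζ h h₁ h₂ ∈ Set.range (fun v => V *ᵥ v))
    (hM : ∀ X : Herm 2, MM (X : Matrix (Fin 2) (Fin 2) ℂ) =
      (V * B)ᴴ * bigSum α β (X : Matrix (Fin 2) (Fin 2) ℂ) (f X : Matrix (Fin ζ) (Fin ζ) ℂ)
        * (V * B))
    (h : Fin 2 → ℂ) (hh : h ≠ 0) :
    ∃ (h₁ : Fin α → ℂ) (h₂ : Fin β → ℂ), (V * B) *ᵥ ww h = bigVec ζ h h₁ h₂ := by
  obtain ⟨h₁, h₂, hne, v, hv⟩ := hV h hh
  simp only at hv
  set ξ := B⁻¹ *ᵥ v with hξ
  have hL : (V * B) *ᵥ ξ = bigVec ζ h h₁ h₂ := by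
    rw [hξ, ← Matrix.mulVec_mulVec, Matrix.mulVec_mulVec v B, Matrix.mul_nonsing_inv B hB,
      Matrix.one_mulVec, hv]
  have hξ0 : ξ ≠ 0 := by
    intro h0
    apply hne
    rw [← hL, h0, Matrix.mulVec_zero]
  -- the test matrix
  have hYh : (R1 (-starRingEnd ℂ (h 1)) (starRingEnd ℂ (h 0))).IsHermitian := by
    ext i j
    fin_cases i <;> fin_cases j <;> simp [R1, Matrix.conjTranspose_apply, mul_comm]
  have hYk : R1 (-starRingEnd ℂ (h 1)) (starRingEnd ℂ (h 0)) *ᵥ h = 0 := by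
    ext i
    fin_cases i <;> simp [R1, Matrix.mulVec, dotProduct, Fin.sum_univ_two] <;> ring
  have hform : star ξ ⬝ᵥ (MM (R1 (-starRingEnd ℂ (h 1)) (starRingEnd ℂ (h 0))) *ᵥ ξ) = 0 := by
    have h1 := hM ⟨R1 (-starRingEnd ℂ (h 1)) (starRingEnd ℂ (h 0)), hYh⟩
    simp only at h1
    rw [h1, ← Matrix.mulVec_mulVec, ← Matrix.mulVec_mulVec, hL, bigSum_kill _ hYh _ _ _ _ hYk,
      Matrix.mulVec_zero, dotProduct_zero]
  have hN : Complex.normSq (-starRingEnd ℂ (h 1)) + Complex.normSq (starRingEnd ℂ (h 0)) ≠ 0 := by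
    rw [Complex.normSq_neg, Complex.normSq_conj, Complex.normSq_conj]
    intro hc
    have g1 := Complex.normSq_nonneg (h 0)
    have g2 := Complex.normSq_nonneg (h 1)
    have g3 : Complex.normSq (h 0) = 0 := by linarith
    have g4 : Complex.normSq (h 1) = 0 := by linarith
    apply hh
    ext i
    fin_cases i
    · exact Complex.normSq_eq_zero.mp g3
    · exact Complex.normSq_eq_zero.mp g4
  obtain ⟨a1, a2, a3, a4, a5, a6, a7⟩ := form_zero _ _ hN ξ hform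
  simp only [map_neg, Complex.conj_conj] at a1 a2 a3 a4 a5 a6 a7
  obtain ⟨c, hc⟩ := prop_ww h hh ξ hξ0 ⟨a1, a2, a3, a4, a5, a6, a7⟩
  refine ⟨c • h₁, c • h₂, ?_⟩
  rw [hc, Matrix.mulVec_smul, hL]
  funext r
  rcases r with ⟨i, s⟩ | ⟨i, s⟩ | r
  · simp [bigVec]; ring
  · simp [bigVec]; ring
  · simp [bigVec]

/-- coefficient extraction -/
lemma coeffs (u0 u1 u2 u3 u4 u5 z0 z1 z2 z3 z4 z5 : ℂ)
    (H : ∀ t : ℂ, u0 + u1 * t + u2 * (t*t) + u3 * starRingEnd ℂ t + u4 * (t * starRingEnd ℂ t)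
      + u5 * (t*t*starRingEnd ℂ t)
      = t * (z0 + z1 * t + z2 * (t*t) + z3 * starRingEnd ℂ t + z4 * (t * starRingEnd ℂ t)
      + z5 * (t*t*starRingEnd ℂ t))) : u1 = z0 ∧ u5 = z4 := by
  have a1 := H 1
  have a2 := H Complex.I
  have a3 := H (-1)
  have a4 := H (-Complex.I)
  have b1 := H 2
  have b2 := H (2 * Complex.I)
  have b3 := H (-2)
  have b4 := H (-(2 * Complex.I))
  simp only [map_one, map_neg, map_mul, Complex.conj_I, Complex.conj_ofNat] at a1 a2 a3 a4 b1 b2 b3 b4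
  have hI : Complex.I * Complex.I = -1 := Complex.I_mul_I
  have hI2 : Complex.I ^ 2 = -1 := Complex.I_sq
  have hI3 : Complex.I ^ 3 = -Complex.I := by rw [pow_succ, hI2]; ring
  have hI4 : Complex.I ^ 4 = 1 := by rw [pow_succ, hI3]; linear_combination -hI
  have hI5 : Complex.I ^ 5 = Complex.I := by rw [pow_succ, hI4]; ring
  have k1 : (u1 - z0) + (u5 - z4) = 0 := by
    ring_nf at a1 a2 a3 a4
    simp only [hI2, hI3, hI4, hI5] at a1 a2 a3 a4
    linear_combination (a1 - Complex.I * a2 - a3 + Complex.I * a4) / 4 + ((u1 - z0) + (u5 - z4)) * hI2 / 2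
      + (z2 - u3) / 2 * hI2
  have k2 : 2 * (u1 - z0) + 8 * (u5 - z4) = 0 := by
    ring_nf at b1 b2 b3 b4
    simp only [hI2, hI3, hI4, hI5] at b1 b2 b3 b4
    linear_combination (b1 - Complex.I * b2 - b3 + Complex.I * b4) / 4 + (2*(u1 - z0) + 8*(u5 - z4)) * hI2 / 2
      + (8 * z2 - 2 * u3) / 2 * hI2
  constructor
  · linear_combination (8 * k1 - k2) / 6
  · linear_combination (k2 - 2 * k1) / 6

end Pool.Agent.V11105.CLP
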