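import Mathlib

set_option autoImplicit false

namespace Pool.Agent.V11105.CQ

open Finset MeasureTheory

/-- sample points -/
noncomputable def tp (N : ℕ) (a : ℝ) (l : ℕ) : ℝ := 2 * Real.pi * ((l : ℝ) + a) / N

noncomputable def AA (N : ℕ) (a : ℝ) (k : ℤ) (d : ℕ) : ℂ :=
  ∑ l ∈ range N, Complex.exp (Complex.I * k * (tp N a l : ℂ)) * (Complex.sin (tp N a l : ℂ)) ^ d

noncomputable def BB (k : ℤ) (d : ℕ) : ℂ :=
  ∫ t in (-(Real.pi / 2))..(-(Real.pi / 2) + 2 * Real.pi),
    Complex.exp (Complex.I * k * (t : ℂ)) * (Complex.sin (t : ℂ)) ^ d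

theorem sin_exp (k : ℤ) (d : ℕ) (t : ℂ) :
    Complex.exp (Complex.I * k * t) * (Complex.sin t) ^ (d + 1) =
      (Complex.exp (Complex.I * (k - 1 : ℤ) * t) * (Complex.sin t) ^ d
        - Complex.exp (Complex.I * (k + 1 : ℤ) * t) * (Complex.sin t) ^ d) * (Complex.I / 2) := by
  have e1 : Complex.exp (Complex.I * (k - 1 : ℤ) * t)
      = Complex.exp (Complex.I * k * t) * Complex.exp (-t * Complex.I) := by
    rw [← Complex.exp_add]; congr 1; push_cast; ring
  have e2 : Complex.exp (Complex.I * (k + 1 : ℤ) * t)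
      = Complex.exp (Complex.I * k * t) * Complex.exp (t * Complex.I) := by
    rw [← Complex.exp_add]; congr 1; push_cast; ring
  have e3 : Complex.sin t = (Complex.exp (-t * Complex.I) - Complex.exp (t * Complex.I))
      * Complex.I / 2 := rfl
  rw [pow_succ, e1, e2]
  nth_rewrite 2 [e3]
  ring

theorem AA_succ (N : ℕ) (a : ℝ) (k : ℤ) (d : ℕ) :
    AA N a k (d + 1) = (AA N a (k - 1) d - AA N a (k + 1) d) * (Complex.I / 2) := by
  unfold AA
  rw [← Finset.sum_sub_distrib, Finset.sum_mul]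
  apply Finset.sum_congr rfl
  intro l _
  exact sin_exp k d _

theorem BB_int (k : ℤ) (d : ℕ) (a b : ℝ) :
    IntervalIntegrable (fun t : ℝ => Complex.exp (Complex.I * k * (t : ℂ))
      * (Complex.sin (t : ℂ)) ^ d) volume a b := by
  apply Continuous.intervalIntegrable
  fun_prop

theorem BB_succ (k : ℤ) (d : ℕ) :
    BB k (d + 1) = (BB (k - 1) d - BB (k + 1) d) * (Complex.I / 2) := by
  unfold BB
  rw [← intervalIntegral.integral_sub (BB_int _ _ _ _) (BB_int _ _ _ _),
    ← intervalIntegral.integral_mul_const]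
  apply intervalIntegral.integral_congr
  intro t _
  exact sin_exp k d _

theorem AA_zero (N : ℕ) (a : ℝ) : AA N a 0 0 = N := by
  unfold AA
  simp

theorem BB_zero : BB 0 0 = 2 * Real.pi := by
  unfold BB
  simp

theorem AA_ne (N : ℕ) (hN : 0 < N) (a : ℝ) (k : ℤ) (hk : k ≠ 0) (hkN : |k| < N) :
    AA N a k 0 = 0 := by
  have hNC : (N : ℂ) ≠ 0 := by exact_mod_cast hN.ne'
  set ζ : ℂ := Complex.exp (Complex.I * k * (2 * Real.pi / N)) with hζ
  have h1 : ∀ l ∈ range N, Complex.exp (Complex.I * k * (tp N a l : ℂ))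
      * (Complex.sin (tp N a l : ℂ)) ^ 0
      = Complex.exp (Complex.I * k * (2 * Real.pi * a / N)) * ζ ^ l := by
    intro l _
    rw [pow_zero, mul_one, hζ, ← Complex.exp_nat_mul, ← Complex.exp_add]
    congr 1
    unfold tp
    push_cast
    field_simp
    ring
  unfold AA
  rw [Finset.sum_congr rfl h1, ← Finset.mul_sum]
  have h2 : ζ ^ N = 1 := by
    rw [hζ, ← Complex.exp_nat_mul, Complex.exp_eq_one_iff]
    refine ⟨k, ?_⟩
    field_simp
  have h3 : ζ ≠ 1 := by
    rw [hζ]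
    intro h
    rw [Complex.exp_eq_one_iff] at h
    obtain ⟨n, hn⟩ := h
    have hpi : (Real.pi : ℂ) ≠ 0 := by exact_mod_cast Real.pi_ne_zero
    have h4 : (k : ℂ) = n * N := by
      field_simp at hn
      linear_combination hn
    have h5 : k = n * N := by exact_mod_cast h4
    rcases eq_or_ne n 0 with h6 | h6
    · rw [h6, zero_mul] at h5
      exact hk h5
    · have h7 : (1 : ℤ) ≤ |n| := Int.one_le_abs h6
      rw [h5, abs_mul, Nat.abs_cast] at hkN
      have : (0 : ℤ) < N := by exact_mod_cast hN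
      nlinarith
  have h4 := geom_sum_mul ζ N
  rw [h2, sub_self] at h4
  rcases mul_eq_zero.1 h4 with h5 | h5
  · rw [h5, mul_zero]
  · exact absurd (sub_eq_zero.1 h5) h3

theorem BB_ne (k : ℤ) (hk : k ≠ 0) : BB k 0 = 0 := by
  unfold BB
  have hc : Complex.I * (k : ℂ) ≠ 0 := mul_ne_zero Complex.I_ne_zero (by exact_mod_cast hk)
  simp only [pow_zero, mul_one]
  rw [integral_exp_mul_complex hc]
  have : Complex.exp (Complex.I * k * ((-(Real.pi / 2) + 2 * Real.pi : ℝ) : ℂ))
      = Complex.exp (Complex.I * k * ((-(Real.pi / 2) : ℝ) : ℂ)) := by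
    have e : Complex.I * k * ((-(Real.pi / 2) + 2 * Real.pi : ℝ) : ℂ)
        = Complex.I * k * ((-(Real.pi / 2) : ℝ) : ℂ) + k * (2 * Real.pi * Complex.I) := by
      push_cast; ring
    rw [e, Complex.exp_add, Complex.exp_int_mul_two_pi_mul_I, mul_one]
  rw [this, sub_self, zero_div]

theorem AB (N : ℕ) (hN : 0 < N) (a : ℝ) (d : ℕ) :
    ∀ k : ℤ, |k| + d < N → AA N a k d = (N / (2 * Real.pi) : ℂ) * BB k d := by
  induction d with
  | zero =>
    intro k hk
    have hpi : (Real.pi : ℂ) ≠ 0 := by exact_mod_cast Real.pi_ne_zero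
    rcases eq_or_ne k 0 with h | h
    · subst h
      rw [AA_zero, BB_zero]
      field_simp
    · rw [AA_ne N hN a k h (by simpa using hk), BB_ne k h, mul_zero]
  | succ d ih =>
    intro k hk
    have h1 : |k - 1| ≤ |k| + 1 := by
      have := abs_sub k 1
      simpa using this
    have h2 : |k + 1| ≤ |k| + 1 := by
      have := abs_add_le k 1
      simpa using this
    push_cast at hk
    rw [AA_succ, BB_succ, ih (k - 1) (by linarith), ih (k + 1) (by linarith)]
    ring

/-- equally spaced points integrate powers of the sine exactly -/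
theorem sin_pow_exact (N : ℕ) (a : ℝ) (d : ℕ) (hd : d < N) :
    ∑ l ∈ range N, Real.sin (tp N a l) ^ d
      = (N / (2 * Real.pi)) * ∫ t in (-(Real.pi / 2))..(-(Real.pi / 2) + 2 * Real.pi),
          Real.sin t ^ d := by
  have h := AB N (by omega) a d 0 (by simpa using hd)
  unfold AA BB at h
  simp only [Int.cast_zero, mul_zero, zero_mul, Complex.exp_zero, one_mul] at h
  have e1 : (∑ l ∈ range N, Complex.sin (tp N a l : ℂ) ^ d)
      = ((∑ l ∈ range N, Real.sin (tp N a l) ^ d : ℝ) : ℂ) := by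
    push_cast
    rfl
  have e2 : (∫ t in (-(Real.pi / 2))..(-(Real.pi / 2) + 2 * Real.pi), Complex.sin (t : ℂ) ^ d)
      = ((∫ t in (-(Real.pi / 2))..(-(Real.pi / 2) + 2 * Real.pi), Real.sin t ^ d : ℝ) : ℂ) := by
    rw [← intervalIntegral.integral_ofReal]
    apply intervalIntegral.integral_congr
    intro t _
    push_cast
    rfl
  rw [e1, e2] at h
  exact_mod_cast h

/-- the mean over the circle -/
noncomputable def cm (g : ℝ → ℝ) : ℝ :=
  ∫ t in (-(Real.pi / 2))..(-(Real.pi / 2) + 2 * Real.pi), g (Real.sin t)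

theorem poly_exact (N : ℕ) (a : ℝ) (Q : Polynomial ℝ) (hd : Q.natDegree < N) :
    ∑ l ∈ range N, Q.eval (Real.sin (tp N a l))
      = (N / (2 * Real.pi)) * ∫ t in (-(Real.pi / 2))..(-(Real.pi / 2) + 2 * Real.pi),
          Q.eval (Real.sin t) := by
  simp only [Polynomial.eval_eq_sum_range]
  rw [Finset.sum_comm, intervalIntegral.integral_finsetSum, Finset.mul_sum]
  · apply Finset.sum_congr rfl
    intro i hi
    rw [mem_range] at hi
    rw [← Finset.mul_sum, sin_pow_exact N a i (by omega), intervalIntegral.integral_const_mul]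
    ring
  · intro i _
    apply Continuous.intervalIntegrable
    fun_prop

/-- power sums -/
def PS (n : ℕ) (w : Fin n → ℝ) (i : Fin n) : ℝ := ∑ l, w l ^ (i.val + 1)

/-- derivative of the power sums -/
noncomputable def PSd (n : ℕ) (w : Fin n → ℝ) : (Fin n → ℝ) →L[ℝ] (Fin n → ℝ) :=
  ContinuousLinearMap.pi fun i : Fin n =>
    ∑ l : Fin n, (((i.val + 1 : ℕ) : ℝ) * w l ^ i.val) •
      (ContinuousLinearMap.proj l : (Fin n → ℝ) →L[ℝ] ℝ)

theorem PS_deriv (n : ℕ) (w : Fin n → ℝ) : HasStrictFDerivAt (PS n) (PSd n w) w := by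
  rw [hasStrictFDerivAt_pi']
  intro i
  have h : HasStrictFDerivAt (fun w : Fin n → ℝ => ∑ l, w l ^ (i.val + 1))
      (∑ l : Fin n, (((i.val + 1 : ℕ) : ℝ) * w l ^ i.val) •
      (ContinuousLinearMap.proj l : (Fin n → ℝ) →L[ℝ] ℝ)) w := by
    apply HasStrictFDerivAt.fun_sum
    intro l _
    have h1 : HasStrictFDerivAt (fun w : Fin n → ℝ => w l)
      (ContinuousLinearMap.proj l : (Fin n → ℝ) →L[ℝ] ℝ) w :=
      (ContinuousLinearMap.proj l : (Fin n → ℝ) →L[ℝ] ℝ).hasStrictFDerivAt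
    have h2 := h1.pow (i.val + 1)
    simpa using h2
  exact h

theorem PSd_surj (n : ℕ) (w : Fin n → ℝ) (hw : Function.Injective w) :
    (PSd n w : (Fin n → ℝ) →ₗ[ℝ] (Fin n → ℝ)).range = ⊤ := by
  rw [LinearMap.range_eq_top, ← LinearMap.injective_iff_surjective, ← LinearMap.ker_eq_bot,
    LinearMap.ker_eq_bot']
  intro δ hδ
  apply Matrix.eq_zero_of_forall_pow_sum_mul_pow_eq_zero hw
  intro i
  have h := congrFun hδ i
  simp only [PSd, ContinuousLinearMap.coe_coe, ContinuousLinearMap.coe_pi',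
    _root_.sum_apply, _root_.smul_apply,
    ContinuousLinearMap.proj_apply, smul_eq_mul, Pi.zero_apply] at h
  have h2 : (((i.val + 1 : ℕ) : ℝ)) * ∑ j, δ j * w j ^ i.val = 0 := by
    rw [← h, Finset.mul_sum]
    apply Finset.sum_congr rfl
    intro j _
    ring
  rcases mul_eq_zero.1 h2 with h3 | h3
  · exfalso
    have : ((i.val + 1 : ℕ) : ℝ) ≠ 0 := by positivity
    exact this h3
  · exact h3

/-- local solvability of the power sum equations -/
theorem PS_open (n : ℕ) (w : Fin n → ℝ) (hw : Function.Injective w)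
    (h01 : ∀ l, 0 < w l ∧ w l < 1) :
    ∃ r : ℝ, 0 < r ∧ ∀ y : Fin n → ℝ, (∀ i, |y i - PS n w i| < r) →
      ∃ w' : Fin n → ℝ, (∀ l, 0 < w' l ∧ w' l < 1) ∧ ∀ i, PS n w' i = y i := by
  have h1 := (PS_deriv n w).map_nhds_eq_of_surj (PSd_surj n w hw)
  have h2 : {w' : Fin n → ℝ | ∀ l, 0 < w' l ∧ w' l < 1} ∈ nhds w := by
    have : {w' : Fin n → ℝ | ∀ l, 0 < w' l ∧ w' l < 1}
        = Set.pi Set.univ (fun _ => Set.Ioo (0 : ℝ) 1) := by
      ext w'; simp
    rw [this]
    exact set_pi_mem_nhds Set.finite_univ (fun l _ => Ioo_mem_nhds (h01 l).1 (h01 l).2)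
  have h3 : PS n '' {w' : Fin n → ℝ | ∀ l, 0 < w' l ∧ w' l < 1} ∈ nhds (PS n w) := by
    rw [← h1]
    exact Filter.image_mem_map h2
  rw [Metric.mem_nhds_iff] at h3
  obtain ⟨r, hr, hb⟩ := h3
  refine ⟨r, hr, fun y hy => ?_⟩
  have h4 : y ∈ Metric.ball (PS n w) r := by
    rw [Metric.mem_ball, dist_pi_lt_iff hr]
    intro i
    rw [Real.dist_eq]
    exact hy i
  obtain ⟨w', hw', he⟩ := hb h4
  exact ⟨w', hw', fun i => congrFun he i⟩

end Pool.Agent.V11105.CQ
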