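import Pool.Agent.V11105.CQa

set_option autoImplicit false

namespace Pool.Agent.V11105.CQ

open Finset MeasureTheory

theorem circle_half (g : ℝ → ℝ) (hg : Continuous g) :
    ∫ t in (-(Real.pi / 2))..(-(Real.pi / 2) + 2 * Real.pi), g (Real.sin t)
      = 2 * ∫ t in (-(Real.pi / 2))..(Real.pi / 2), g (Real.sin t) := by
  have hc : Continuous fun t => g (Real.sin t) := hg.comp Real.continuous_sin
  rw [← intervalIntegral.integral_add_adjacent_intervals (b := Real.pi / 2)
    (hc.intervalIntegrable _ _) (hc.intervalIntegrable _ _)]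
  have h1 := intervalIntegral.integral_comp_sub_left (a := Real.pi / 2)
    (b := -(Real.pi / 2) + 2 * Real.pi) (fun t => g (Real.sin t)) Real.pi
  simp only [Real.sin_pi_sub] at h1
  rw [h1]
  have e1 : Real.pi - (-(Real.pi / 2) + 2 * Real.pi) = -(Real.pi / 2) := by ring
  have e2 : Real.pi - Real.pi / 2 = Real.pi / 2 := by ring
  rw [e1, e2]
  ring

/-- halving the sum over the sample points -/
theorem half_sum (N : ℕ) :
    ∃ b : ℝ, 0 < b ∧ b ≤ 1 ∧ (∀ l : ℕ, l < N / 2 → 2 * ((l : ℝ) + b) < N) ∧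
      ∀ (g : ℝ → ℝ), (∀ x, g (-x) = g x) → g 0 = 0 → ∃ a : ℝ,
      2 * ∑ l ∈ range (N / 2), g (Real.sin (tp N b l)) = ∑ l ∈ range N, g (Real.sin (tp N a l)) := by
  rcases Nat.even_or_odd' N with ⟨M, hM | hM⟩
  · refine ⟨1 / 2, by norm_num, by norm_num, ?_, fun g heven h0 => ⟨1 / 2, ?_⟩⟩
    · intro l hl
      have : l + 1 ≤ M := by omega
      have h2 : ((l : ℝ) + 1) ≤ M := by exact_mod_cast this
      rw [hM]; push_cast; linarith
    · have e : N / 2 = M := by omega
      rw [e]
      conv_rhs => rw [hM, two_mul, Finset.sum_range_add]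
      rw [two_mul]
      congr 1
      · rw [hM, two_mul]
      apply Finset.sum_congr rfl
      intro l hl
      rw [mem_range] at hl
      have hMp : (M : ℝ) ≠ 0 := by
        have : 0 < M := by omega
        positivity
      have : tp (M + M) (1 / 2) (M + l) = tp N (1 / 2) l + Real.pi := by
        unfold tp
        rw [hM]
        push_cast
        field_simp
        ring
      rw [this, Real.sin_add_pi, heven]
  · refine ⟨1, by norm_num, le_rfl, ?_, fun g heven h0 => ⟨0, ?_⟩⟩
    · intro l hl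
      have : l + 1 ≤ M := by omega
      have h2 : ((l : ℝ) + 1) ≤ M := by exact_mod_cast this
      rw [hM]; push_cast; linarith
    · have e : N / 2 = M := by omega
      rw [e]
      conv_rhs => rw [hM, Finset.sum_range_succ', two_mul, Finset.sum_range_add]
      have e0 : g (Real.sin (tp (2 * M + 1) 0 0)) = 0 := by
        unfold tp
        simp [h0]
      rw [← two_mul, e0, add_zero, two_mul]
      congr 1
      · apply Finset.sum_congr rfl
        intro l _
        congr 2
        unfold tp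
        rw [hM]
        push_cast
        ring
      · rw [← Finset.sum_range_reflect]
        apply Finset.sum_congr rfl
        intro l hl
        rw [mem_range] at hl
        have hMp : ((2 * M + 1 : ℕ) : ℝ) ≠ 0 := by positivity
        have hcast : ((M - 1 - l : ℕ) : ℝ) = (M : ℝ) - 1 - l := by
          rw [Nat.cast_sub (by omega), Nat.cast_sub (by omega)]
          simp
        have : tp N 1 (M - 1 - l) = 2 * Real.pi - tp (2 * M + 1) 0 (M + l + 1) := by
          unfold tp
          rw [hM, hcast]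
          push_cast at hMp ⊢
          field_simp
          ring
        rw [this, Real.sin_two_pi_sub, heven]

/-- target is solvable by symmetric nodes -/
def Good (n N : ℕ) (μ : ℕ → ℝ) : Prop :=
  ∃ v : ℕ → ℝ, (∀ l < N / 2, 0 < v l ∧ v l < 1) ∧
    ∀ i, 1 ≤ i → i ≤ n → 2 * ∑ l ∈ range (N / 2), v l ^ i = N * μ i

/-- even moments -/
noncomputable def mom (f : ℝ → ℝ) (i : ℕ) : ℝ :=
  (1 / Real.pi) * ∫ t in (-(Real.pi / 2))..(Real.pi / 2), f (Real.sin t) ^ (2 * i)

theorem trunc_nodes (P : Polynomial ℝ) (hodd : ∀ x, P.eval (-x) = -P.eval x)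
    (hmono : StrictMonoOn (fun x => P.eval x) (Set.Icc 0 1)) (h1 : P.eval 1 < 1)
    (n N : ℕ) (hN : 4 * n < N) (hd : 2 * n * P.natDegree < N) :
    ∃ v : ℕ → ℝ, (∀ l < N / 2, 0 < v l ∧ v l < 1) ∧
      (∀ l l', l < l' → l' < n → v l < v l') ∧
      ∀ i, 1 ≤ i → i ≤ n → 2 * ∑ l ∈ range (N / 2), v l ^ i
        = N * mom (fun x => P.eval x) i := by
  have hP0 : P.eval 0 = 0 := by
    have := hodd 0
    rw [neg_zero] at this
    linarith
  obtain ⟨b, hb0, hb1, hb, hg⟩ := half_sum N
  have hNpos : (0 : ℝ) < N := by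
    have : 0 < N := by omega
    exact_mod_cast this
  have hpi := Real.pi_pos
  have htp0 : ∀ l : ℕ, 0 < tp N b l := by
    intro l
    unfold tp
    positivity
  have htp1 : ∀ l : ℕ, l < N / 2 → tp N b l < Real.pi := by
    intro l hl
    have := hb l hl
    unfold tp
    rw [div_lt_iff₀ hNpos]
    nlinarith
  have hsin : ∀ l : ℕ, l < N / 2 → 0 < Real.sin (tp N b l) ∧ Real.sin (tp N b l) ≤ 1 :=
    fun l hl => ⟨Real.sin_pos_of_pos_of_lt_pi (htp0 l) (htp1 l hl), Real.sin_le_one _⟩
  have hPs : ∀ x : ℝ, 0 < x → x ≤ 1 → 0 < P.eval x ∧ P.eval x < 1 := by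
    intro x hx0 hx1
    constructor
    · have := hmono (Set.mem_Icc.2 ⟨le_rfl, zero_le_one⟩) (Set.mem_Icc.2 ⟨hx0.le, hx1⟩) hx0
      simp only [hP0] at this
      exact this
    · have := hmono.monotoneOn (Set.mem_Icc.2 ⟨hx0.le, hx1⟩)
        (Set.mem_Icc.2 ⟨zero_le_one, le_rfl⟩) hx1
      linarith
  refine ⟨fun l => P.eval (Real.sin (tp N b l)) ^ 2, ?_, ?_, ?_⟩
  · intro l hl
    obtain ⟨a1, a2⟩ := hsin l hl
    obtain ⟨a3, a4⟩ := hPs _ a1 a2
    constructor
    · positivity
    · nlinarith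
  · intro l l' hll hl'
    have hq : ∀ k : ℕ, k < n → tp N b k < Real.pi / 2 := by
      intro k hk
      have h2 : (k : ℝ) + 1 ≤ n := by exact_mod_cast hk
      have h3 : (4 : ℝ) * n < N := by exact_mod_cast hN
      unfold tp
      rw [div_lt_iff₀ hNpos]
      nlinarith
    have hlt : tp N b l < tp N b l' := by
      unfold tp
      have : (l : ℝ) < l' := by exact_mod_cast hll
      apply div_lt_div_of_pos_right _ hNpos
      nlinarith
    have hs : Real.sin (tp N b l) < Real.sin (tp N b l') := by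
      apply Real.sin_lt_sin_of_lt_of_le_pi_div_two _ (hq l' hl').le hlt
      have := htp0 l
      linarith
    have hl0 : 0 < Real.sin (tp N b l) := by
      apply Real.sin_pos_of_pos_of_lt_pi (htp0 l)
      have := hq l (by omega)
      linarith
    have hs1 := Real.sin_le_one (tp N b l')
    have hP := hmono (Set.mem_Icc.2 ⟨hl0.le, by linarith⟩) (Set.mem_Icc.2 ⟨by linarith, hs1⟩) hs
    simp only at hP
    have hPp := (hPs _ hl0 (by linarith)).1
    simp only
    nlinarith
  · intro i hi hin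
    obtain ⟨a, ha⟩ := hg (fun x => (P.eval x ^ 2) ^ i) (by
      intro x
      simp only [hodd, neg_sq]) (by
      simp only [hP0]
      rw [zero_pow two_ne_zero, zero_pow (by omega)])
    rw [ha]
    have h2 := poly_exact N a ((P ^ 2) ^ i) (by
      refine lt_of_le_of_lt (Polynomial.natDegree_pow_le.trans
        (Nat.mul_le_mul_left i Polynomial.natDegree_pow_le)) ?_
      refine lt_of_le_of_lt ?_ hd
      calc i * (2 * P.natDegree) ≤ n * (2 * P.natDegree) := Nat.mul_le_mul_right _ hin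
        _ = 2 * n * P.natDegree := by ring)
    simp only [Polynomial.eval_pow] at h2
    rw [h2, circle_half (fun x => (P.eval x ^ 2) ^ i) (by fun_prop)]
    unfold mom
    simp only [pow_mul]
    field_simp

/-- tolerance for one `N` -/
theorem tol_one (n N : ℕ) (hn : n ≤ N / 2) (v : ℕ → ℝ) (h01 : ∀ l < N / 2, 0 < v l ∧ v l < 1)
    (hinj : ∀ l l', l < l' → l' < n → v l < v l') :
    ∃ r : ℝ, 0 < r ∧ ∀ y : ℕ → ℝ, (∀ i, 1 ≤ i → i ≤ n → |y i - ∑ l ∈ range (N / 2), v l ^ i| < r) →
      ∃ v' : ℕ → ℝ, (∀ l < N / 2, 0 < v' l ∧ v' l < 1) ∧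
        ∀ i, 1 ≤ i → i ≤ n → ∑ l ∈ range (N / 2), v' l ^ i = y i := by
  obtain ⟨M, hM⟩ : ∃ M, N / 2 = n + M := ⟨N / 2 - n, by omega⟩
  rw [hM] at h01 ⊢
  obtain ⟨r, hr, hopen⟩ := PS_open n (fun l => v l.val) (by
    intro a b hab
    simp only at hab
    rcases Nat.lt_trichotomy a.val b.val with h | h | h
    · have := hinj _ _ h b.2; linarith
    · exact Fin.ext h
    · have := hinj _ _ h a.2; linarith) (fun l => h01 l.val (by omega))
  refine ⟨r, hr, fun y hy => ?_⟩
  obtain ⟨w, hw1, hw2⟩ := hopen (fun i => y (i.val + 1) - ∑ l ∈ range M, v (n + l) ^ (i.val + 1)) (by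
    intro i
    have h := hy (i.val + 1) (by omega) (by omega)
    rw [Finset.sum_range_add] at h
    unfold PS
    rw [Finset.sum_range] at h
    rw [show y (i.val + 1) - ∑ l ∈ range M, v (n + l) ^ (i.val + 1) - ∑ l : Fin n, v l.val ^ (i.val + 1)
      = y (i.val + 1) - (∑ l : Fin n, v l.val ^ (i.val + 1)
        + ∑ l ∈ range M, v (n + l) ^ (i.val + 1)) by ring]
    exact h)
  refine ⟨fun l => if h : l < n then w ⟨l, h⟩ else v l, ?_, ?_⟩
  · intro l hl
    simp only
    split_ifs with h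
    · exact hw1 _
    · exact h01 l hl
  · intro i hi hin
    rw [Finset.sum_range_add, Finset.sum_range]
    have h := hw2 ⟨i - 1, by omega⟩
    unfold PS at h
    simp only at h
    have e : i - 1 + 1 = i := by omega
    rw [e] at h
    have h3 : ∀ l : Fin n, (if h : l.val < n then w ⟨l.val, h⟩ else v l.val) ^ i = w l ^ i := by
      intro l
      rw [dif_pos l.2]
    have h4 : ∀ l ∈ range M, (if h : n + l < n then w ⟨n + l, h⟩ else v (n + l)) ^ i
        = v (n + l) ^ i := by
      intro l _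
      rw [dif_neg (by omega)]
    rw [Finset.sum_congr rfl (fun l _ => h3 l), Finset.sum_congr rfl h4, h]
    ring

theorem tol_N (P : Polynomial ℝ) (hodd : ∀ x, P.eval (-x) = -P.eval x)
    (hmono : StrictMonoOn (fun x => P.eval x) (Set.Icc 0 1)) (h1 : P.eval 1 < 1)
    (n N : ℕ) (hN : 4 * n < N) (hd : 2 * n * P.natDegree < N) :
    ∀ᶠ δ in nhdsWithin (0 : ℝ) (Set.Ioi 0), ∀ μ : ℕ → ℝ,
      (∀ i, 1 ≤ i → i ≤ n → |μ i - mom (fun x => P.eval x) i| ≤ δ) → Good n N μ := by
  obtain ⟨v, hv1, hv2, hv3⟩ := trunc_nodes P hodd hmono h1 n N hN hd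
  obtain ⟨r, hr, hopen⟩ := tol_one n N (by omega) v hv1 hv2
  have hNpos : (0 : ℝ) < N := by
    have : 0 < N := by omega
    exact_mod_cast this
  have hlt : Set.Ioo (0 : ℝ) (2 * r / N) ∈ nhdsWithin (0 : ℝ) (Set.Ioi 0) :=
    Ioo_mem_nhdsGT (by positivity)
  filter_upwards [hlt] with δ hδ μ hμ
  obtain ⟨v', h1', h2'⟩ := hopen (fun i => N * μ i / 2) (by
    intro i hi hin
    have h3 := hv3 i hi hin
    have h4 : ∑ l ∈ range (N / 2), v l ^ i = N * mom (fun x => P.eval x) i / 2 := by linarith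
    rw [h4]
    have h5 := hμ i hi hin
    have e : (N : ℝ) * μ i / 2 - N * mom (fun x => P.eval x) i / 2
        = (N / 2) * (μ i - mom (fun x => P.eval x) i) := by ring
    rw [e, abs_mul, abs_of_pos (by positivity)]
    have h6 := hδ.2
    rw [lt_div_iff₀ hNpos] at h6
    have h7 : (N : ℝ) / 2 * |μ i - mom (fun x => P.eval x) i| ≤ N / 2 * δ :=
      mul_le_mul_of_nonneg_left h5 (by positivity)
    linarith)
  refine ⟨v', h1', fun i hi hin => ?_⟩
  rw [h2' i hi hin]
  ring

theorem tol_all (P : Polynomial ℝ) (hodd : ∀ x, P.eval (-x) = -P.eval x)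
    (hmono : StrictMonoOn (fun x => P.eval x) (Set.Icc 0 1)) (h1 : P.eval 1 < 1)
    (n N₀ : ℕ) (hN : 4 * n < N₀) (hd : 2 * n * P.natDegree < N₀) :
    ∀ᶠ δ in nhdsWithin (0 : ℝ) (Set.Ioi 0), ∀ N ∈ Finset.Ico N₀ (2 * N₀), ∀ μ : ℕ → ℝ,
      (∀ i, 1 ≤ i → i ≤ n → |μ i - mom (fun x => P.eval x) i| ≤ δ) → Good n N μ := by
  rw [Finset.eventually_all]
  intro N hNN
  rw [Finset.mem_Ico] at hNN
  exact tol_N P hodd hmono h1 n N (by omega) (by omega)

end Pool.Agent.V11105.CQ
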