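import Pool.Agent.V11105.CQb

set_option autoImplicit false

namespace Pool.Agent.V11105.CQ

open Finset MeasureTheory

/-- hypotheses on the truncated polynomial -/
def HP (P : Polynomial ℝ) : Prop :=
  (∀ x, P.eval (-x) = -P.eval x) ∧ StrictMonoOn (fun x => P.eval x) (Set.Icc 0 1) ∧ P.eval 1 < 1

theorem HP.zero {P : Polynomial ℝ} (h : HP P) : P.eval 0 = 0 := by
  have := h.1 0
  rw [neg_zero] at this
  linarith

theorem HP.one_pos {P : Polynomial ℝ} (h : HP P) : 0 < P.eval 1 := by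
  have := h.2.1 (Set.mem_Icc.2 ⟨le_rfl, zero_le_one⟩) (Set.mem_Icc.2 ⟨zero_le_one, le_rfl⟩)
    zero_lt_one
  simp only [h.zero] at this
  exact this

theorem HP.bd {P : Polynomial ℝ} (h : HP P) (x : ℝ) (hx : |x| ≤ 1) :
    |P.eval x| ≤ P.eval 1 := by
  have key : ∀ y, 0 ≤ y → y ≤ 1 → 0 ≤ P.eval y ∧ P.eval y ≤ P.eval 1 := by
    intro y h0 h1
    constructor
    · have := h.2.1.monotoneOn (Set.mem_Icc.2 ⟨le_rfl, zero_le_one⟩) (Set.mem_Icc.2 ⟨h0, h1⟩) h0
      simpa only [h.zero] using this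
    · exact h.2.1.monotoneOn (Set.mem_Icc.2 ⟨h0, h1⟩) (Set.mem_Icc.2 ⟨zero_le_one, le_rfl⟩) h1
  rw [abs_le] at hx
  rcases le_total 0 x with h0 | h0
  · obtain ⟨a, b⟩ := key x h0 hx.2
    rw [abs_of_nonneg a]; exact b
  · obtain ⟨a, b⟩ := key (-x) (by linarith) (by linarith)
    rw [h.1] at a b
    rw [abs_of_nonpos (by linarith)]; exact b

theorem sin_pow_tendsto :
    Filter.Tendsto (fun g : ℕ => ∫ t in (-(Real.pi / 2))..(Real.pi / 2), |Real.sin t| ^ g)
      Filter.atTop (nhds 0) := by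
  have hpi := Real.pi_pos
  have h := intervalIntegral.tendsto_integral_filter_of_dominated_convergence
    (μ := volume) (a := -(Real.pi / 2)) (b := Real.pi / 2) (l := Filter.atTop)
    (F := fun (g : ℕ) t => |Real.sin t| ^ g) (f := fun _ => (0 : ℝ)) (fun _ => (1 : ℝ))
    (Filter.Eventually.of_forall fun g => by
      apply Continuous.aestronglyMeasurable
      fun_prop)
    (Filter.Eventually.of_forall fun g => Filter.Eventually.of_forall fun t _ => by
      rw [norm_pow, Real.norm_eq_abs, abs_abs]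
      exact pow_le_one₀ (abs_nonneg _) (Real.abs_sin_le_one t))
    (by simp)
    (by
      have h1 : ∀ᵐ t : ℝ, t ≠ Real.pi / 2 := by
        rw [ae_iff]
        simp
      filter_upwards [h1] with t ht hmem
      rw [Set.uIoc_of_le (by linarith), Set.mem_Ioc] at hmem
      apply tendsto_pow_atTop_nhds_zero_of_lt_one (abs_nonneg _)
      have hcos : 0 < Real.cos t :=
        Real.cos_pos_of_mem_Ioo ⟨hmem.1, lt_of_le_of_ne hmem.2 ht⟩
      rw [← sq_lt_one_iff_abs_lt_one]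
      have := Real.sin_sq_add_cos_sq t
      nlinarith)
  simpa using h

theorem stage (k : ℕ) (P : Polynomial ℝ) (hP : HP P) :
    ∃ n N₀ g : ℕ, k ≤ n ∧ 0 < n ∧ 0 < N₀ ∧
      (N₀ : ℝ) * (4 * (k + 1)) * (P.eval 1) ^ (2 * n) ≤ 1 ∧
      ∀ F : ℝ → ℝ, (Continuous fun t => F (Real.sin t)) → (∀ x, |x| ≤ 1 → |F x| ≤ 1) →
        (∀ x, |x| ≤ 1 → |F x - P.eval x| ≤ |x| ^ g) →
        (∀ N ∈ Finset.Ico N₀ (2 * N₀), Good n N (mom F)) ∧
          mom F n ≤ 2 * (P.eval 1) ^ (2 * n) := by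
  have hpi := Real.pi_pos
  have hs0 := hP.one_pos
  have hs1 := hP.2.2
  set s := P.eval 1 with hs
  obtain ⟨n, hn1, hn2⟩ : ∃ n : ℕ, max k 1 ≤ n ∧
      (((4 * n + 2 * n * P.natDegree + 1 : ℕ) : ℝ)) * (4 * (k + 1)) * s ^ (2 * n) ≤ 1 := by
    have h1 := tendsto_self_mul_const_pow_of_lt_one (r := s ^ 2) (by positivity)
      (by nlinarith)
    have hA : (0 : ℝ) < 1 / ((5 + 2 * P.natDegree) * (4 * (k + 1))) := by positivity
    have h2 := (h1.eventually_lt_const hA).and (Filter.eventually_ge_atTop (max k 1))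
    obtain ⟨n, hn, hn'⟩ := h2.exists
    refine ⟨n, hn', ?_⟩
    have hn1 : (1 : ℝ) ≤ n := by
      have : 1 ≤ n := le_trans (le_max_right _ _) hn'
      exact_mod_cast this
    rw [lt_div_iff₀ (by positivity)] at hn
    have e : s ^ (2 * n) = (s ^ 2) ^ n := by rw [pow_mul]
    rw [e]
    push_cast
    have hp : 0 ≤ (s ^ 2) ^ n := by positivity
    have h3 : ((4 : ℝ) * n + 2 * n * P.natDegree + 1) ≤ n * (5 + 2 * P.natDegree) := by nlinarith
    calc ((4 : ℝ) * n + 2 * n * P.natDegree + 1) * (4 * (k + 1)) * (s ^ 2) ^ n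
        ≤ (n * (5 + 2 * P.natDegree)) * (4 * (k + 1)) * (s ^ 2) ^ n := by
          apply mul_le_mul_of_nonneg_right _ hp
          apply mul_le_mul_of_nonneg_right h3
          positivity
      _ = n * (s ^ 2) ^ n * ((5 + 2 * P.natDegree) * (4 * (k + 1))) := by ring
      _ ≤ 1 := hn.le
  set N₀ := 4 * n + 2 * n * P.natDegree + 1 with hN₀
  have hnk : k ≤ n := le_trans (le_max_left _ _) hn1
  have hnpos : 0 < n := lt_of_lt_of_le zero_lt_one (le_trans (le_max_right _ _) hn1)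
  have h3 := tol_all P hP.1 hP.2.1 hP.2.2 n N₀ (by
    have := Nat.zero_le (2 * n * P.natDegree)
    omega) (by omega)
  have h4 : Set.Ioo (0 : ℝ) (s ^ (2 * n)) ∈ nhdsWithin (0 : ℝ) (Set.Ioi 0) :=
    Ioo_mem_nhdsGT (by positivity)
  obtain ⟨δ, hδ1, hδ2⟩ := (h3.and h4).exists
  have h5 : ∃ g : ℕ, (∫ t in (-(Real.pi / 2))..(Real.pi / 2), |Real.sin t| ^ g)
      < δ * Real.pi / (2 * n) := by
    have hpos : 0 < δ * Real.pi / (2 * n) := by
      have := hδ2.1
      positivity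
    exact (sin_pow_tendsto.eventually_lt_const hpos).exists
  obtain ⟨g, hg⟩ := h5
  refine ⟨n, N₀, g, hnk, hnpos, by omega, hn2, ?_⟩
  intro F hFc hF1 hFP
  have hdiff : ∀ i, 1 ≤ i → i ≤ n → |mom F i - mom (fun x => P.eval x) i| ≤ δ := by
    intro i hi hin
    unfold mom
    have hi1 : IntervalIntegrable (fun t => F (Real.sin t) ^ (2 * i)) volume
        (-(Real.pi / 2)) (Real.pi / 2) := (hFc.pow _).intervalIntegrable _ _
    have hi2 : IntervalIntegrable (fun t => P.eval (Real.sin t) ^ (2 * i)) volume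
        (-(Real.pi / 2)) (Real.pi / 2) := by
      apply Continuous.intervalIntegrable
      fun_prop
    rw [← mul_sub, ← intervalIntegral.integral_sub hi1 hi2, abs_mul,
      abs_of_pos (by positivity : (0 : ℝ) < 1 / Real.pi)]
    have hb : ‖∫ t in (-(Real.pi / 2))..(Real.pi / 2),
        (F (Real.sin t) ^ (2 * i) - P.eval (Real.sin t) ^ (2 * i))‖
        ≤ ∫ t in (-(Real.pi / 2))..(Real.pi / 2), (2 * n) * |Real.sin t| ^ g := by
      apply intervalIntegral.norm_integral_le_of_norm_le (by linarith)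
      · apply Filter.Eventually.of_forall
        intro t _
        have hst := Real.abs_sin_le_one t
        rw [Real.norm_eq_abs]
        have a1 := abs_pow_sub_pow_le (F (Real.sin t)) (P.eval (Real.sin t)) (2 * i)
        have a2 : max |F (Real.sin t)| |P.eval (Real.sin t)| ≤ 1 :=
          max_le (hF1 _ hst) ((hP.bd _ hst).trans hs1.le)
        have a3 : max |F (Real.sin t)| |P.eval (Real.sin t)| ^ (2 * i - 1) ≤ 1 :=
          pow_le_one₀ (le_max_of_le_left (abs_nonneg _)) a2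
        have a4 := hFP _ hst
        have a5 : (((2 * i : ℕ)) : ℝ) ≤ 2 * n := by
          push_cast
          have : (i : ℝ) ≤ n := by exact_mod_cast hin
          linarith
        calc |F (Real.sin t) ^ (2 * i) - P.eval (Real.sin t) ^ (2 * i)|
            ≤ |F (Real.sin t) - P.eval (Real.sin t)| * ((2 * i : ℕ) : ℝ)
              * max |F (Real.sin t)| |P.eval (Real.sin t)| ^ (2 * i - 1) := a1
          _ ≤ |Real.sin t| ^ g * (2 * n) * 1 := by
              apply mul_le_mul _ a3 (by positivity) (by positivity)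
              exact mul_le_mul a4 a5 (by positivity) (by positivity)
          _ = (2 * n) * |Real.sin t| ^ g := by ring
      · apply Continuous.intervalIntegrable
        fun_prop
    rw [intervalIntegral.integral_const_mul, Real.norm_eq_abs] at hb
    have hnn : (0 : ℝ) < 2 * n := by positivity
    rw [lt_div_iff₀ hnn] at hg
    have : |∫ t in (-(Real.pi / 2))..(Real.pi / 2),
        (F (Real.sin t) ^ (2 * i) - P.eval (Real.sin t) ^ (2 * i))| ≤ δ * Real.pi := by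
      linarith
    rw [one_div, inv_mul_le_iff₀ hpi]
    linarith
  refine ⟨fun N hN => hδ1 N hN (mom F) hdiff, ?_⟩
  have h6 := hdiff n hnpos le_rfl
  rw [abs_le] at h6
  have h7 : mom (fun x => P.eval x) n ≤ s ^ (2 * n) := by
    unfold mom
    have : ∫ t in (-(Real.pi / 2))..(Real.pi / 2), P.eval (Real.sin t) ^ (2 * n)
        ≤ ∫ t in (-(Real.pi / 2))..(Real.pi / 2), s ^ (2 * n) := by
      apply intervalIntegral.integral_mono_on (by linarith)
      · apply Continuous.intervalIntegrable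
        fun_prop
      · simp
      · intro t _
        have := hP.bd _ (Real.abs_sin_le_one t)
        rw [pow_mul, pow_mul]
        apply pow_le_pow_left₀ (by positivity)
        rw [← sq_abs]
        exact pow_le_pow_left₀ (abs_nonneg _) this 2
    rw [intervalIntegral.integral_const, smul_eq_mul] at this
    rw [one_div, inv_mul_le_iff₀ hpi]
    linarith
  have h8 := hδ2.2
  linarith

/-- partial sums -/
noncomputable def Pk (e : ℕ → ℕ) (k : ℕ) : Polynomial ℝ :=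
  ∑ j ∈ range (k + 1), Polynomial.C ((1 / 2) / 2 ^ j : ℝ) * Polynomial.X ^ (2 * e j + 1)

theorem Pk_eval (e : ℕ → ℕ) (k : ℕ) (x : ℝ) :
    (Pk e k).eval x = ∑ j ∈ range (k + 1), ((1 / 2) / 2 ^ j : ℝ) * x ^ (2 * e j + 1) := by
  unfold Pk
  rw [Polynomial.eval_finsetSum]
  simp

theorem Pk_HP (e : ℕ → ℕ) (k : ℕ) : HP (Pk e k) := by
  refine ⟨?_, ?_, ?_⟩
  · intro x
    rw [Pk_eval, Pk_eval, ← Finset.sum_neg_distrib]
    apply Finset.sum_congr rfl
    intro j _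
    rw [Odd.neg_pow ⟨e j, rfl⟩]
    ring
  · intro x hx y hy hxy
    simp only [Pk_eval]
    apply Finset.sum_lt_sum_of_nonempty ⟨0, by simp⟩
    intro j _
    apply mul_lt_mul_of_pos_left _ (by positivity)
    exact pow_lt_pow_left₀ hxy hx.1 (by omega)
  · rw [Pk_eval]
    simp only [one_pow, mul_one]
    have : ∑ j ∈ range (k + 1), ((1 / 2) / 2 ^ j : ℝ) = 1 - 1 / 2 ^ (k + 1) := by
      induction k with
      | zero => norm_num
      | succ k ih =>
        rw [Finset.sum_range_succ, ih]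
        field_simp
        ring
    rw [this]
    have : (0 : ℝ) < 1 / 2 ^ (k + 1) := by positivity
    linarith

/-- the property obtained at stage `k` -/
def Stg (k : ℕ) (P : Polynomial ℝ) (g : ℕ) : Prop :=
  ∃ n N₀ : ℕ, k ≤ n ∧ 0 < n ∧ 0 < N₀ ∧
      (N₀ : ℝ) * (4 * (k + 1)) * (P.eval 1) ^ (2 * n) ≤ 1 ∧
      ∀ F : ℝ → ℝ, (Continuous fun t => F (Real.sin t)) → (∀ x, |x| ≤ 1 → |F x| ≤ 1) →
        (∀ x, |x| ≤ 1 → |F x - P.eval x| ≤ |x| ^ g) →
        (∀ N ∈ Finset.Ico N₀ (2 * N₀), Good n N (mom F)) ∧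
          mom F n ≤ 2 * (P.eval 1) ^ (2 * n)

theorem exists_e : ∃ e : ℕ → ℕ, e 0 = 0 ∧ Monotone e ∧
    ∀ k, ∃ g, g ≤ e (k + 1) ∧ Stg k (Pk e k) g := by
  have h : ∀ (k : ℕ) (P : Polynomial ℝ), ∃ g, HP P → Stg k P g := by
    intro k P
    by_cases hP : HP P
    · obtain ⟨n, N₀, g, h1⟩ := stage k P hP
      exact ⟨g, fun _ => ⟨n, N₀, h1⟩⟩
    · exact ⟨0, fun h => absurd h hP⟩
  choose G hG using h
  let st : ℕ → Polynomial ℝ × ℕ := fun k => Nat.rec
    (Polynomial.C ((1 / 2) / 2 ^ 0 : ℝ) * Polynomial.X ^ (2 * 0 + 1), 0)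
    (fun k s => (s.1 + Polynomial.C ((1 / 2) / 2 ^ (k + 1) : ℝ)
      * Polynomial.X ^ (2 * (s.2 + G k s.1) + 1), s.2 + G k s.1)) k
  have hst : ∀ k, st (k + 1) = ((st k).1 + Polynomial.C ((1 / 2) / 2 ^ (k + 1) : ℝ)
      * Polynomial.X ^ (2 * ((st k).2 + G k (st k).1) + 1), (st k).2 + G k (st k).1) :=
    fun k => rfl
  let e : ℕ → ℕ := fun k => (st k).2
  have he : ∀ k, e (k + 1) = e k + G k (st k).1 := by
    intro k
    simp only [e, hst]
  have hP : ∀ k, (st k).1 = Pk e k := by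
    intro k
    induction k with
    | zero =>
      unfold Pk
      simp [st, e]
    | succ k ih =>
      unfold Pk
      rw [Finset.sum_range_succ]
      unfold Pk at ih
      rw [← ih, he, hst]
  refine ⟨e, rfl, monotone_nat_of_le_succ fun k => by rw [he]; omega, fun k => ?_⟩
  refine ⟨G k (Pk e k), ?_, hG k _ (Pk_HP e k)⟩
  rw [he, hP]
  omega

/-- the limit function -/
noncomputable def FF (e : ℕ → ℕ) (x : ℝ) : ℝ := ∑' j : ℕ, ((1 / 2) / 2 ^ j : ℝ) * x ^ (2 * e j + 1)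

theorem geo (a : ℝ) : HasSum (fun j : ℕ => ((1 / 2) / 2 ^ j : ℝ) * a) a := by
  have h := hasSum_geometric_two' a
  have e : (fun n : ℕ => a / 2 / 2 ^ n) = fun j : ℕ => ((1 / 2) / 2 ^ j : ℝ) * a := by
    funext j; ring
  rw [e] at h
  exact h

theorem term_le (m : ℕ) (e : ℕ) (hme : m ≤ e) (j : ℕ) (x : ℝ) (hx : |x| ≤ 1) :
    ‖((1 / 2) / 2 ^ j : ℝ) * x ^ e‖ ≤ ((1 / 2) / 2 ^ j : ℝ) * |x| ^ m := by
  rw [norm_mul, norm_pow, Real.norm_eq_abs, Real.norm_eq_abs,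
    abs_of_nonneg (by positivity : (0 : ℝ) ≤ (1 / 2) / 2 ^ j)]
  apply mul_le_mul_of_nonneg_left _ (by positivity)
  exact pow_le_pow_of_le_one (abs_nonneg _) hx hme

theorem FF_summable (e : ℕ → ℕ) (x : ℝ) (hx : |x| ≤ 1) :
    Summable fun j : ℕ => ((1 / 2) / 2 ^ j : ℝ) * x ^ (2 * e j + 1) :=
  Summable.of_norm_bounded (geo (|x| ^ 0)).summable
    (fun j => term_le 0 _ (Nat.zero_le _) j x hx)

theorem FF_abs (e : ℕ → ℕ) (x : ℝ) (hx : |x| ≤ 1) : |FF e x| ≤ |x| := by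
  have h := tsum_of_norm_bounded (geo (|x| ^ 1))
    (fun j => term_le 1 (2 * e j + 1) (by omega) j x hx)
  rw [pow_one, Real.norm_eq_abs] at h
  exact h

theorem FF_one (e : ℕ → ℕ) : FF e 1 = 1 := by
  unfold FF
  simp only [one_pow]
  exact (geo 1).tsum_eq

theorem FF_neg (e : ℕ → ℕ) (x : ℝ) : FF e (-x) = -FF e x := by
  unfold FF
  rw [← tsum_neg]
  apply tsum_congr
  intro j
  rw [Odd.neg_pow ⟨e j, rfl⟩]
  ring

theorem FF_cont (e : ℕ → ℕ) : Continuous fun t => FF e (Real.sin t) := by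
  unfold FF
  apply continuous_tsum (u := fun j : ℕ => ((1 / 2) / 2 ^ j : ℝ) * 1)
  · intro j
    fun_prop
  · exact (geo 1).summable
  · intro j t
    have := term_le 0 (2 * e j + 1) (Nat.zero_le _) j _ (Real.abs_sin_le_one t)
    rw [pow_zero] at this
    exact this

theorem FF_sub (e : ℕ → ℕ) (he : Monotone e) (k g : ℕ) (hg : g ≤ e (k + 1)) (x : ℝ)
    (hx : |x| ≤ 1) : |FF e x - (Pk e k).eval x| ≤ |x| ^ g := by
  rw [Pk_eval]
  unfold FF
  have h := (FF_summable e x hx).sum_add_tsum_nat_add (k + 1)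
  have e1 : (∑' j : ℕ, ((1 / 2) / 2 ^ j : ℝ) * x ^ (2 * e j + 1))
      - ∑ j ∈ range (k + 1), ((1 / 2) / 2 ^ j : ℝ) * x ^ (2 * e j + 1)
      = ∑' j : ℕ, ((1 / 2) / 2 ^ (j + (k + 1)) : ℝ) * x ^ (2 * e (j + (k + 1)) + 1) := by
    rw [← h]; ring
  rw [e1]
  have h2 := tsum_of_norm_bounded (f := fun j : ℕ => ((1 / 2) / 2 ^ (j + (k + 1)) : ℝ)
      * x ^ (2 * e (j + (k + 1)) + 1)) (geo (|x| ^ g)) (fun j => by
    have a1 : g ≤ 2 * e (j + (k + 1)) + 1 := by
      have := he (show k + 1 ≤ j + (k + 1) by omega)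
      omega
    refine (term_le g _ a1 _ x hx).trans ?_
    apply mul_le_mul_of_nonneg_right _ (by positivity)
    apply div_le_div_of_nonneg_left (by norm_num) (by positivity)
    exact pow_le_pow_right₀ (by norm_num) (by omega))
  rw [Real.norm_eq_abs] at h2
  exact h2

/-- derivative of the limit function -/
noncomputable def FF' (e : ℕ → ℕ) (x : ℝ) : ℝ :=
  ∑' j : ℕ, ((1 / 2) / 2 ^ j : ℝ) * (((2 * e j + 1 : ℕ) : ℝ) * x ^ (2 * e j))

theorem bern (m : ℕ) (ρ : ℝ) (h0 : 0 ≤ ρ) (h1 : ρ < 1) : ((m + 1 : ℕ) : ℝ) * ρ ^ m ≤ (1 - ρ)⁻¹ := by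
  have a1 : ((m + 1 : ℕ) : ℝ) * ρ ^ m ≤ ∑ i ∈ range (m + 1), ρ ^ i := by
    have := Finset.card_nsmul_le_sum (range (m + 1)) (fun i => ρ ^ i) (ρ ^ m) (by
      intro i hi
      rw [mem_range] at hi
      exact pow_le_pow_of_le_one h0 h1.le (by omega))
    rw [card_range, nsmul_eq_mul] at this
    exact this
  have a2 : ∑ i ∈ range (m + 1), ρ ^ i ≤ ∑' i : ℕ, ρ ^ i :=
    (summable_geometric_of_lt_one h0 h1).sum_le_tsum _ (fun i _ => by positivity)
  rw [tsum_geometric_of_lt_one h0 h1] at a2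
  linarith

theorem FF'_bound (e : ℕ → ℕ) (ρ : ℝ) (h1 : ρ < 1) (j : ℕ) (x : ℝ) (hx : |x| ≤ ρ) :
    ‖((1 / 2) / 2 ^ j : ℝ) * (((2 * e j + 1 : ℕ) : ℝ) * x ^ (2 * e j))‖
      ≤ ((1 / 2) / 2 ^ j : ℝ) * (1 - ρ)⁻¹ := by
  have h0 : 0 ≤ ρ := le_trans (abs_nonneg _) hx
  rw [norm_mul, Real.norm_eq_abs, abs_of_nonneg (by positivity : (0 : ℝ) ≤ (1 / 2) / 2 ^ j)]
  apply mul_le_mul_of_nonneg_left _ (by positivity)
  rw [norm_mul, norm_pow, Real.norm_eq_abs, Real.norm_eq_abs,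
    abs_of_nonneg (by positivity : (0 : ℝ) ≤ ((2 * e j + 1 : ℕ) : ℝ))]
  refine le_trans ?_ (bern (2 * e j) ρ h0 h1)
  apply mul_le_mul_of_nonneg_left _ (by positivity)
  exact pow_le_pow_left₀ (abs_nonneg _) hx _

theorem FF_deriv (e : ℕ → ℕ) (x : ℝ) (hx : |x| < 1) : HasDerivAt (FF e) (FF' e x) x := by
  obtain ⟨ρ, hρ1, hρ2⟩ := exists_between hx
  have hρ0 : 0 < ρ := lt_of_le_of_lt (abs_nonneg _) hρ1
  unfold FF FF'
  apply hasDerivAt_tsum_of_isPreconnected (u := fun j : ℕ => ((1 / 2) / 2 ^ j : ℝ) * (1 - ρ)⁻¹)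
    (t := Set.Ioo (-ρ) ρ) (y₀ := (0 : ℝ))
    (g := fun (j : ℕ) (x : ℝ) => ((1 / 2) / 2 ^ j : ℝ) * x ^ (2 * e j + 1))
    (g' := fun (j : ℕ) (x : ℝ) => ((1 / 2) / 2 ^ j : ℝ) * (((2 * e j + 1 : ℕ) : ℝ) * x ^ (2 * e j)))
  · exact (geo _).summable
  · exact isOpen_Ioo
  · exact isPreconnected_Ioo
  · intro j y _
    have h := (hasDerivAt_pow (2 * e j + 1) y).const_mul ((1 / 2) / 2 ^ j : ℝ)
    simpa using h
  · intro j y hy
    apply FF'_bound e ρ hρ2 j y
    rw [abs_le]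
    exact ⟨hy.1.le, hy.2.le⟩
  · exact ⟨by linarith, hρ0⟩
  · exact FF_summable e 0 (by simp)
  · rw [abs_lt] at hρ1
    exact ⟨hρ1.1, hρ1.2⟩

theorem FF'_pos (e : ℕ → ℕ) (he : e 0 = 0) (x : ℝ) (hx : |x| < 1) : 0 < FF' e x := by
  obtain ⟨ρ, hρ1, hρ2⟩ := exists_between hx
  have hsum : Summable fun j : ℕ => ((1 / 2) / 2 ^ j : ℝ)
      * (((2 * e j + 1 : ℕ) : ℝ) * x ^ (2 * e j)) :=
    Summable.of_norm_bounded (geo (1 - ρ)⁻¹).summable (fun j => FF'_bound e ρ hρ2 j x hρ1.le)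
  unfold FF'
  apply hsum.tsum_pos (i := 0)
  · intro j
    have : 0 ≤ x ^ (2 * e j) := by
      rw [pow_mul]; positivity
    positivity
  · rw [he]
    norm_num

end Pool.Agent.V11105.CQ
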