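import Pool.Agent.V11105.CQc

set_option autoImplicit false

namespace Pool.Agent.V11105.CQ

open Finset MeasureTheory

/-- trigonometric polynomials of degree at most `n` -/
def IsTrig (n : ℕ) (p : ℝ → ℝ) : Prop :=
  ∃ a b : ℕ → ℝ, ∀ θ : ℝ, p θ = ∑ j ∈ range (n + 1),
    (a j * Real.cos (j * θ) + b j * Real.sin (j * θ))

/-- equal weight quadrature of degree `n` with `N` nodes -/
def HasQuad (W : ℝ → ℝ) (n N : ℕ) : Prop :=
  ∃ (x : Fin N → ℝ) (lam : ℝ), Monotone x ∧ ∀ p, IsTrig n p →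
    ∫ θ in (-Real.pi)..Real.pi, p θ * W θ = lam * ∑ i, p (x i)

section

variable (e : ℕ → ℕ)

/-- the change of variables -/
noncomputable def Th (t : ℝ) : ℝ := 2 * Real.arcsin (FF e (Real.sin t))

theorem Th_cont : Continuous (Th e) :=
  continuous_const.mul (Real.continuous_arcsin.comp (FF_cont e))

theorem Th_neg (t : ℝ) : Th e (-t) = -Th e t := by
  unfold Th
  rw [Real.sin_neg, FF_neg, Real.arcsin_neg]
  ring

theorem sin_lt {t : ℝ} (ht : t ∈ Set.Ioo (-(Real.pi / 2)) (Real.pi / 2)) : |Real.sin t| < 1 := by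
  have hcos : 0 < Real.cos t := Real.cos_pos_of_mem_Ioo ht
  rw [← sq_lt_one_iff_abs_lt_one]
  have := Real.sin_sq_add_cos_sq t
  nlinarith

theorem FF_lt {t : ℝ} (ht : t ∈ Set.Ioo (-(Real.pi / 2)) (Real.pi / 2)) :
    |FF e (Real.sin t)| < 1 :=
  lt_of_le_of_lt (FF_abs e _ (sin_lt ht).le) (sin_lt ht)

theorem Th_half (t : ℝ) : Real.sin (Th e t / 2) = FF e (Real.sin t) := by
  unfold Th
  rw [mul_div_cancel_left₀ _ two_ne_zero]
  have h := abs_le.1 ((FF_abs e _ (Real.abs_sin_le_one t)).trans (Real.abs_sin_le_one t))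
  exact Real.sin_arcsin h.1 h.2

theorem Th_deriv (he : e 0 = 0) {t : ℝ} (ht : t ∈ Set.Ioo (-(Real.pi / 2)) (Real.pi / 2)) :
    HasDerivAt (Th e) (deriv (Th e) t) t ∧ 0 < deriv (Th e) t := by
  have h1 := sin_lt ht
  have h2 := FF_lt e ht
  have h3 := FF_deriv e _ h1
  have h4 := h3.comp t (Real.hasDerivAt_sin t)
  have h2' := abs_lt.1 h2
  have h5 := (Real.hasDerivAt_arcsin (x := FF e (Real.sin t)) (by linarith) (by linarith)).comp t h4
  have h6 := h5.const_mul 2
  have h7 : HasDerivAt (Th e) _ t := h6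
  refine ⟨h7.differentiableAt.hasDerivAt, ?_⟩
  rw [h7.deriv]
  have h8 := FF'_pos e he _ h1
  have h9 : 0 < Real.cos t := Real.cos_pos_of_mem_Ioo ht
  have h10 : 0 < 1 - FF e (Real.sin t) ^ 2 := by
    rw [← sq_lt_one_iff_abs_lt_one] at h2
    linarith
  have h11 := Real.sqrt_pos.2 h10
  positivity

theorem Th_strictMono (he : e 0 = 0) :
    StrictMonoOn (Th e) (Set.Ioo (-(Real.pi / 2)) (Real.pi / 2)) := by
  apply strictMonoOn_of_deriv_pos (convex_Ioo _ _) (Th_cont e).continuousOn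
  intro t ht
  rw [interior_Ioo] at ht
  exact (Th_deriv e he ht).2

theorem Th_image : Th e '' Set.Ioo (-(Real.pi / 2)) (Real.pi / 2)
    = Set.Ioo (-Real.pi) Real.pi := by
  apply Set.Subset.antisymm
  · rintro _ ⟨t, ht, rfl⟩
    have h2 := abs_lt.1 (FF_lt e ht)
    unfold Th
    have a1 := Real.arcsin_lt_pi_div_two.2 h2.2
    have a2 := Real.neg_pi_div_two_lt_arcsin.2 h2.1
    constructor <;> linarith
  · have h := intermediate_value_Ioo (a := -(Real.pi / 2)) (b := Real.pi / 2)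
      (by linarith [Real.pi_pos]) (Th_cont e).continuousOn
    have e1 : Th e (Real.pi / 2) = Real.pi := by
      unfold Th
      rw [Real.sin_pi_div_two, FF_one, Real.arcsin_one]
      ring
    have e2 : Th e (-(Real.pi / 2)) = -Real.pi := by
      rw [Th_neg, e1]
    rw [e1, e2] at h
    exact h

/-- density on the base interval -/
noncomputable def W0 : ℝ → ℝ :=
  Function.extend (fun t : Set.Ioo (-(Real.pi / 2)) (Real.pi / 2) => Th e t.1)
    (fun t => (deriv (Th e) t.1)⁻¹) (fun _ => 1)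

theorem Th_inj (he : e 0 = 0) : Function.Injective
    (fun t : Set.Ioo (-(Real.pi / 2)) (Real.pi / 2) => Th e t.1) := by
  intro a b hab
  exact Subtype.ext ((Th_strictMono e he).injOn a.2 b.2 hab)

theorem W0_meas (he : e 0 = 0) : Measurable (W0 e) := by
  have : PolishSpace (Set.Ioo (-(Real.pi / 2)) (Real.pi / 2)) := isOpen_Ioo.polishSpace
  apply MeasurableEmbedding.measurable_extend
  · exact Continuous.measurableEmbedding ((Th_cont e).comp continuous_subtype_val) (Th_inj e he)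
  · exact ((measurable_deriv (Th e)).comp measurable_subtype_coe).inv
  · exact measurable_const

theorem W0_eq (he : e 0 = 0) {t : ℝ} (ht : t ∈ Set.Ioo (-(Real.pi / 2)) (Real.pi / 2)) :
    W0 e (Th e t) = (deriv (Th e) t)⁻¹ :=
  (Th_inj e he).extend_apply _ _ (⟨t, ht⟩ : Set.Ioo (-(Real.pi / 2)) (Real.pi / 2))

theorem W0_pos (he : e 0 = 0) (θ : ℝ) : 0 < W0 e θ := by
  by_cases h : ∃ t : Set.Ioo (-(Real.pi / 2)) (Real.pi / 2), Th e t.1 = θ
  · obtain ⟨t, rfl⟩ := h
    rw [W0_eq e he t.2]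
    exact inv_pos.2 (Th_deriv e he t.2).2
  · unfold W0
    rw [Function.extend_apply' _ _ _ h]
    exact one_pos

/-- the weight -/
noncomputable def WW (θ : ℝ) : ℝ :=
  W0 e (θ - 2 * Real.pi * ⌊(θ + Real.pi) / (2 * Real.pi)⌋)

theorem WW_pos (he : e 0 = 0) (θ : ℝ) : 0 < WW e θ := W0_pos e he _

theorem WW_meas (he : e 0 = 0) : Measurable (WW e) := by
  unfold WW
  apply (W0_meas e he).comp
  apply measurable_id.sub
  apply measurable_const.mul
  exact (measurable_from_top (f := fun n : ℤ => (n : ℝ))).comp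
    (((measurable_id.add_const _).div_const _).floor)

theorem WW_per (θ : ℝ) : WW e (θ + 2 * Real.pi) = WW e θ := by
  unfold WW
  have hpi := Real.pi_pos
  have h1 : (θ + 2 * Real.pi + Real.pi) / (2 * Real.pi) = (θ + Real.pi) / (2 * Real.pi) + 1 := by
    field_simp
    ring
  rw [h1, Int.floor_add_one]
  congr 1
  push_cast
  ring

theorem WW_eq {θ : ℝ} (hθ : θ ∈ Set.Ioo (-Real.pi) Real.pi) : WW e θ = W0 e θ := by
  unfold WW
  have hpi := Real.pi_pos
  have h1 : ⌊(θ + Real.pi) / (2 * Real.pi)⌋ = 0 := by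
    rw [Int.floor_eq_zero_iff, Set.mem_Ico]
    constructor
    · apply div_nonneg <;> linarith [hθ.1]
    · rw [div_lt_one (by positivity)]
      linarith [hθ.2]
  rw [h1]
  simp

theorem WW_integral (he : e 0 = 0) (g : ℝ → ℝ) :
    ∫ θ in (-Real.pi)..Real.pi, g θ * WW e θ
      = ∫ t in (-(Real.pi / 2))..(Real.pi / 2), g (Th e t) := by
  have hpi := Real.pi_pos
  rw [intervalIntegral.integral_of_le (by linarith), intervalIntegral.integral_of_le (by linarith),
    integral_Ioc_eq_integral_Ioo, integral_Ioc_eq_integral_Ioo, ← Th_image e]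
  rw [integral_image_eq_integral_abs_deriv_smul measurableSet_Ioo
    (fun t ht => (Th_deriv e he ht).1.hasDerivWithinAt) (Th_strictMono e he).injOn]
  apply setIntegral_congr_fun measurableSet_Ioo
  intro t ht
  have hmem : Th e t ∈ Set.Ioo (-Real.pi) Real.pi := by
    rw [← Th_image e]
    exact ⟨t, ht, rfl⟩
  have h := (Th_deriv e he ht).2
  simp only [smul_eq_mul]
  rw [WW_eq e hmem, W0_eq e he ht, abs_of_pos h]
  field_simp

theorem WW_integrable (he : e 0 = 0) (g : ℝ → ℝ) (hg : Continuous g) :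
    IntervalIntegrable (fun θ => g θ * WW e θ) volume (-Real.pi) Real.pi := by
  have hpi := Real.pi_pos
  rw [intervalIntegrable_iff_integrableOn_Ioo_of_le (by linarith), ← Th_image e]
  rw [integrableOn_image_iff_integrableOn_abs_deriv_smul measurableSet_Ioo
    (fun t ht => (Th_deriv e he ht).1.hasDerivWithinAt) (Th_strictMono e he).injOn]
  have h1 : IntegrableOn (fun t => g (Th e t)) (Set.Ioo (-(Real.pi / 2)) (Real.pi / 2)) := by
    have : Continuous fun t => g (Th e t) := hg.comp (Th_cont e)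
    exact (this.integrableOn_Icc (a := -(Real.pi / 2)) (b := Real.pi / 2)).mono_set
      Set.Ioo_subset_Icc_self
  apply h1.congr_fun _ measurableSet_Ioo
  intro t ht
  have hmem : Th e t ∈ Set.Ioo (-Real.pi) Real.pi := by
    rw [← Th_image e]
    exact ⟨t, ht, rfl⟩
  have h := (Th_deriv e he ht).2
  simp only [smul_eq_mul]
  rw [WW_eq e hmem, W0_eq e he ht, abs_of_pos h]
  field_simp

end

/-- cosines as polynomials in `sin (θ/2) ^ 2` -/
theorem cos_poly (j : ℕ) : (∃ C : Polynomial ℝ, C.natDegree ≤ j ∧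
      ∀ θ : ℝ, Real.cos (j * θ) = C.eval (Real.sin (θ / 2) ^ 2)) ∧
    (∃ C : Polynomial ℝ, C.natDegree ≤ j + 1 ∧
      ∀ θ : ℝ, Real.cos ((j + 1 : ℕ) * θ) = C.eval (Real.sin (θ / 2) ^ 2)) := by
  have hc1 : ∀ θ : ℝ, Real.cos θ = 1 - 2 * Real.sin (θ / 2) ^ 2 := by
    intro θ
    have h := Real.cos_two_mul (θ / 2)
    rw [mul_div_cancel₀ θ two_ne_zero] at h
    have h2 := Real.sin_sq_add_cos_sq (θ / 2)
    linarith
  induction j with
  | zero =>
    refine ⟨⟨1, by simp, by intro θ; simp⟩,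
      ⟨1 - Polynomial.C 2 * Polynomial.X, ?_, ?_⟩⟩
    · compute_degree
    · intro θ
      simp [hc1 θ]
  | succ j ih =>
    obtain ⟨⟨C, hC1, hC2⟩, ⟨D, hD1, hD2⟩⟩ := ih
    refine ⟨⟨D, hD1, hD2⟩, ⟨Polynomial.C 2 * (1 - Polynomial.C 2 * Polynomial.X) * D - C, ?_, ?_⟩⟩
    · refine (Polynomial.natDegree_sub_le _ _).trans (max_le ?_ (by omega))
      refine Polynomial.natDegree_mul_le.trans ?_
      have : (Polynomial.C (2 : ℝ) * (1 - Polynomial.C 2 * Polynomial.X)).natDegree ≤ 1 := by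
        compute_degree
      omega
    · intro θ
      have h1 := hC2 θ
      have h2 := hD2 θ
      have h3 : Real.cos ((j + 1 + 1 : ℕ) * θ) = 2 * Real.cos θ * Real.cos ((j + 1 : ℕ) * θ)
          - Real.cos (j * θ) := by
        have e1 : ((j + 1 + 1 : ℕ) : ℝ) * θ = ((j + 1 : ℕ) : ℝ) * θ + θ := by push_cast; ring
        have e2 : (j : ℝ) * θ = ((j + 1 : ℕ) : ℝ) * θ - θ := by push_cast; ring
        rw [e1, e2, Real.cos_add, Real.cos_sub]
        ring
      rw [h3, h1, h2, hc1 θ]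
      simp

end Pool.Agent.V11105.CQ
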