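import Pool.Agent.V11105.CQd

set_option autoImplicit false

namespace Pool.Agent.V11105.CQ

open Finset MeasureTheory

/-- symmetrisation of a trigonometric polynomial -/
theorem trig_sym (n : ℕ) (p : ℝ → ℝ) (hp : IsTrig n p) :
    ∃ C : Polynomial ℝ, C.natDegree ≤ n ∧
      ∀ θ : ℝ, p θ + p (-θ) = 2 * C.eval (Real.sin (θ / 2) ^ 2) := by
  obtain ⟨a, b, h⟩ := hp
  choose Cp hC1 hC2 using fun j => (cos_poly j).1
  refine ⟨∑ j ∈ range (n + 1), Polynomial.C (a j) * Cp j, ?_, ?_⟩
  · apply Polynomial.natDegree_sum_le_of_forall_le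
    intro j hj
    rw [mem_range] at hj
    exact (Polynomial.natDegree_C_mul_le _ _).trans ((hC1 j).trans (by omega))
  · intro θ
    rw [h, h, ← Finset.sum_add_distrib, Polynomial.eval_finsetSum, Finset.mul_sum]
    apply Finset.sum_congr rfl
    intro j _
    rw [Polynomial.eval_mul, Polynomial.eval_C, ← hC2 j θ, mul_neg, Real.cos_neg, Real.sin_neg]
    ring

theorem trig_cont (n : ℕ) (p : ℝ → ℝ) (hp : IsTrig n p) : Continuous p := by
  obtain ⟨a, b, h⟩ := hp
  have : p = fun θ : ℝ => ∑ j ∈ range (n + 1),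
      (a j * Real.cos (j * θ) + b j * Real.sin (j * θ)) := funext h
  rw [this]
  fun_prop

theorem trig_integral (e : ℕ → ℕ) (n : ℕ) (p : ℝ → ℝ) (hp : IsTrig n p) (C : Polynomial ℝ)
    (hC : ∀ θ : ℝ, p θ + p (-θ) = 2 * C.eval (Real.sin (θ / 2) ^ 2)) :
    ∫ t in (-(Real.pi / 2))..(Real.pi / 2), p (Th e t)
      = ∫ t in (-(Real.pi / 2))..(Real.pi / 2), C.eval (FF e (Real.sin t) ^ 2) := by
  have hc : Continuous fun t => p (Th e t) := (trig_cont n p hp).comp (Th_cont e)
  have hc' : Continuous fun t => p (Th e (-t)) := hc.comp continuous_neg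
  have h1 : ∫ t in (-(Real.pi / 2))..(Real.pi / 2), p (Th e (-t))
      = ∫ t in (-(Real.pi / 2))..(Real.pi / 2), p (Th e t) := by
    have := intervalIntegral.integral_comp_neg (a := -(Real.pi / 2)) (b := Real.pi / 2)
      (fun t => p (Th e t))
    rw [neg_neg] at this
    exact this
  have h2 : (∫ t in (-(Real.pi / 2))..(Real.pi / 2), p (Th e t))
      + ∫ t in (-(Real.pi / 2))..(Real.pi / 2), p (Th e (-t))
      = ∫ t in (-(Real.pi / 2))..(Real.pi / 2), 2 * C.eval (FF e (Real.sin t) ^ 2) := by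
    rw [← intervalIntegral.integral_add (hc.intervalIntegrable _ _) (hc'.intervalIntegrable _ _)]
    apply intervalIntegral.integral_congr
    intro t _
    simp only
    rw [Th_neg, hC, Th_half]
  rw [h1, intervalIntegral.integral_const_mul] at h2
  linarith

/-- exact quadrature for polynomials in `v` -/
theorem good_poly (e : ℕ → ℕ) (n N : ℕ) (v : ℕ → ℝ)
    (hv : ∀ i, 1 ≤ i → i ≤ n → 2 * ∑ l ∈ range (N / 2), v l ^ i = N * mom (FF e) i)
    (C : Polynomial ℝ) (hC : C.natDegree ≤ n) :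
    2 * ∑ l ∈ range (N / 2), C.eval (v l) + (N % 2 : ℕ) * C.eval 0
      = N / Real.pi * ∫ t in (-(Real.pi / 2))..(Real.pi / 2), C.eval (FF e (Real.sin t) ^ 2) := by
  have hpi := Real.pi_pos
  have hexp : ∀ x : ℝ, C.eval x = ∑ i ∈ range (n + 1), C.coeff i * x ^ i := fun x =>
    Polynomial.eval_eq_sum_range' (by omega) x
  simp only [hexp]
  rw [Finset.sum_comm, intervalIntegral.integral_finsetSum]
  · rw [Finset.mul_sum, Finset.mul_sum, Finset.mul_sum, ← Finset.sum_add_distrib]
    apply Finset.sum_congr rfl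
    intro i hi
    rw [mem_range] at hi
    rw [← Finset.mul_sum, intervalIntegral.integral_const_mul]
    have hm : (∫ t in (-(Real.pi / 2))..(Real.pi / 2), (FF e (Real.sin t) ^ 2) ^ i)
        = Real.pi * mom (FF e) i := by
      unfold mom
      simp only [pow_mul]
      field_simp
    rw [hm]
    rcases Nat.eq_zero_or_pos i with h | h
    · subst h
      have hm0 : mom (FF e) 0 = 1 := by
        unfold mom
        simp
      rw [hm0]
      have hN : ((N / 2 : ℕ) : ℝ) * 2 + ((N % 2 : ℕ) : ℝ) = N := by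
        have : N / 2 * 2 + N % 2 = N := by omega
        exact_mod_cast this
      simp only [pow_zero, Finset.sum_const, card_range, nsmul_eq_mul, mul_one]
      field_simp
      rw [← hN]
      ring
    · have h1 := hv i h (by omega)
      rw [zero_pow (by omega)]
      field_simp
      linear_combination C.coeff i * h1
  · intro i _
    apply Continuous.intervalIntegrable
    exact continuous_const.mul (((FF_cont e).pow 2).pow i)

/-- quadrature sums, in normalised form -/
def QS (e : ℕ → ℕ) (n N : ℕ) : Prop :=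
  ∃ x : Fin N → ℝ, ∀ p, IsTrig n p →
    ∑ i, p (x i) = N / Real.pi * ∫ t in (-(Real.pi / 2))..(Real.pi / 2), p (Th e t)

theorem QS_of_good (e : ℕ → ℕ) (n N : ℕ) (h : Good n N (mom (FF e))) : QS e n N := by
  obtain ⟨v, hv1, hv2⟩ := h
  set M := N / 2 with hM
  let X : ℕ → ℝ := fun j => if j < M then 2 * Real.arcsin (Real.sqrt (v j))
    else if j < 2 * M then -(2 * Real.arcsin (Real.sqrt (v (j - M)))) else 0
  refine ⟨fun i => X i.val, fun p hp => ?_⟩
  obtain ⟨C, hC1, hC2⟩ := trig_sym n p hp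
  rw [trig_integral e n p hp C hC2, ← good_poly e n N v hv2 C hC1]
  rw [← Finset.sum_range (fun j => p (X j))]
  have hN : N = M + M + N % 2 := by omega
  have hr : ∑ j ∈ range N, p (X j) = ∑ j ∈ range M, p (X j) + ∑ j ∈ range M, p (X (M + j))
      + ∑ j ∈ range (N % 2), p (X (M + M + j)) := by
    conv_lhs => rw [hN]
    rw [Finset.sum_range_add, Finset.sum_range_add]
  rw [hr, ← Finset.sum_add_distrib]
  have h1 : ∀ j ∈ range M, p (X j) + p (X (M + j)) = 2 * C.eval (v j) := by
    intro j hj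
    rw [mem_range] at hj
    have e1 : X j = 2 * Real.arcsin (Real.sqrt (v j)) := by
      simp only [X, if_pos hj]
    have e2 : X (M + j) = -(2 * Real.arcsin (Real.sqrt (v j))) := by
      simp only [X]
      rw [if_neg (by omega), if_pos (by omega), Nat.add_sub_cancel_left]
    rw [e1, e2, hC2]
    have hvj := hv1 j hj
    have e3 : Real.sin (2 * Real.arcsin (Real.sqrt (v j)) / 2) ^ 2 = v j := by
      rw [mul_div_cancel_left₀ _ two_ne_zero, Real.sin_arcsin, Real.sq_sqrt hvj.1.le]
      · have := Real.sqrt_nonneg (v j)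
        linarith
      · rw [Real.sqrt_le_one]
        exact hvj.2.le
    rw [e3]
  rw [Finset.sum_congr rfl h1, ← Finset.mul_sum]
  congr 1
  have h2 : ∀ j ∈ range (N % 2), p (X (M + M + j)) = C.eval 0 := by
    intro j _
    have e1 : X (M + M + j) = 0 := by
      simp only [X]
      rw [if_neg (by omega), if_neg (by omega)]
    rw [e1]
    have := hC2 0
    rw [neg_zero, zero_div, Real.sin_zero, zero_pow two_ne_zero] at this
    linarith
  rw [Finset.sum_congr rfl h2, Finset.sum_const, card_range, nsmul_eq_mul]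

theorem QS_add (e : ℕ → ℕ) (n N₁ N₂ : ℕ) (h1 : QS e n N₁) (h2 : QS e n N₂) :
    QS e n (N₁ + N₂) := by
  obtain ⟨x, hx⟩ := h1
  obtain ⟨y, hy⟩ := h2
  refine ⟨Fin.append x y, fun p hp => ?_⟩
  rw [Fin.sum_univ_add]
  simp only [Fin.append_left, Fin.append_right]
  rw [hx p hp, hy p hp]
  push_cast
  ring

theorem QS_all (e : ℕ → ℕ) (n N₀ : ℕ) (hN₀ : 0 < N₀)
    (h : ∀ N ∈ Finset.Ico N₀ (2 * N₀), Good n N (mom (FF e))) : ∀ N, N₀ ≤ N → QS e n N := by
  intro N
  induction N using Nat.strong_induction_on with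
  | _ N ih =>
    intro hN
    rcases Nat.lt_or_ge N (2 * N₀) with h1 | h1
    · exact QS_of_good e n N (h N (Finset.mem_Ico.2 ⟨hN, h1⟩))
    · have h2 := ih (N - N₀) (by omega) (by omega)
      have h3 := QS_of_good e n N₀ (h N₀ (Finset.mem_Ico.2 ⟨le_rfl, by omega⟩))
      have h4 := QS_add e n (N - N₀) N₀ h2 h3
      have e1 : N - N₀ + N₀ = N := by omega
      rwa [e1] at h4

theorem HasQuad_of_QS (e : ℕ → ℕ) (he : e 0 = 0) (n N : ℕ) (hN : 0 < N) (h : QS e n N) :
    HasQuad (WW e) n N := by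
  obtain ⟨x, hx⟩ := h
  refine ⟨x ∘ Tuple.sort x, Real.pi / N, Tuple.monotone_sort x, fun p hp => ?_⟩
  rw [WW_integral e he]
  have h1 : ∑ i, p ((x ∘ Tuple.sort x) i) = ∑ i, p (x i) :=
    Equiv.sum_comp (Tuple.sort x) (fun i => p (x i))
  rw [h1, hx p hp]
  have hpi := Real.pi_pos
  have : (0 : ℝ) < N := by exact_mod_cast hN
  field_simp

/-- the least `M` such that all `N ≥ M` admit a quadrature -/
noncomputable def Nbar (W : ℝ → ℝ) (n : ℕ) : ℕ := sInf {M | ∀ N ≥ M, HasQuad W n N}

/-- the ratios in Kane's quantity -/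
def kaneRatios (W : ℝ → ℝ) (n : ℕ) : Set ℝ :=
  {r | ∃ p : ℝ → ℝ, IsTrig n p ∧ (∀ θ, 0 ≤ p θ) ∧ (∃ θ, p θ ≠ 0) ∧
    r = (∫ θ in (-Real.pi)..Real.pi, |deriv p θ|) / ∫ θ in (-Real.pi)..Real.pi, p θ * W θ}

/-- Kane's quantity -/
noncomputable def kane (W : ℝ → ℝ) (n : ℕ) : ℤ :=
  ⌊(∫ θ in (-Real.pi)..Real.pi, W θ) / 2 * sSup (kaneRatios W n)⌋ + 1

theorem isTrig_add (n : ℕ) (p q : ℝ → ℝ) (hp : IsTrig n p) (hq : IsTrig n q) :
    IsTrig n (fun θ => p θ + q θ) := by
  obtain ⟨a, b, h⟩ := hp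
  obtain ⟨a', b', h'⟩ := hq
  refine ⟨fun j => a j + a' j, fun j => b j + b' j, fun θ => ?_⟩
  simp only
  rw [h, h', ← Finset.sum_add_distrib]
  apply Finset.sum_congr rfl
  intro j _
  ring

theorem isTrig_smul (n : ℕ) (c : ℝ) (p : ℝ → ℝ) (hp : IsTrig n p) :
    IsTrig n (fun θ => c * p θ) := by
  obtain ⟨a, b, h⟩ := hp
  refine ⟨fun j => c * a j, fun j => c * b j, fun θ => ?_⟩
  simp only
  rw [h, Finset.mul_sum]
  apply Finset.sum_congr rfl
  intro j _
  ring

theorem isTrig_cos (n k : ℕ) (hk : k ≤ n) : IsTrig n (fun θ => Real.cos (k * θ)) := by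
  refine ⟨fun j => if j = k then 1 else 0, fun _ => 0, fun θ => ?_⟩
  rw [Finset.sum_eq_single k]
  · simp
  · intro j _ hj
    simp [hj]
  · intro h
    exact absurd (mem_range.2 (by omega)) h

theorem isTrig_sin (n k : ℕ) (hk : k ≤ n) : IsTrig n (fun θ => Real.sin (k * θ)) := by
  refine ⟨fun _ => 0, fun j => if j = k then 1 else 0, fun θ => ?_⟩
  rw [Finset.sum_eq_single k]
  · simp
  · intro j _ hj
    simp [hj]
  · intro h
    exact absurd (mem_range.2 (by omega)) h

theorem isTrig_sum (n : ℕ) (s : Finset ℕ) (f : ℕ → ℝ → ℝ) (hf : ∀ j ∈ s, IsTrig n (f j)) :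
    IsTrig n (fun θ => ∑ j ∈ s, f j θ) := by
  classical
  induction s using Finset.induction_on with
  | empty => exact ⟨fun _ => 0, fun _ => 0, fun θ => by simp⟩
  | insert a s ha ih =>
    have h1 := isTrig_add n _ _ (hf a (Finset.mem_insert_self _ _))
      (ih fun j hj => hf j (Finset.mem_insert_of_mem hj))
    have : (fun θ => ∑ j ∈ insert a s, f j θ) = fun θ => f a θ + ∑ j ∈ s, f j θ := by
      funext θ
      rw [Finset.sum_insert ha]
    rw [this]
    exact h1

theorem isTrig_mul_cos (n : ℕ) (p : ℝ → ℝ) (hp : IsTrig n p) :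
    IsTrig (n + 1) (fun θ => p θ * Real.cos θ) := by
  obtain ⟨a, b, h⟩ := hp
  have e1 : (fun θ => p θ * Real.cos θ) = fun θ : ℝ => ∑ j ∈ range (n + 1),
      (a j * (Real.cos (j * θ) * Real.cos θ) + b j * (Real.sin (j * θ) * Real.cos θ)) := by
    funext θ
    rw [h, Finset.sum_mul]
    apply Finset.sum_congr rfl
    intro j _
    ring
  rw [e1]
  apply isTrig_sum
  intro j hj
  rw [mem_range] at hj
  apply isTrig_add
  · apply isTrig_smul
    rcases Nat.eq_zero_or_pos j with h0 | h0
    · subst h0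
      have := isTrig_cos (n + 1) 1 (by omega)
      simpa using this
    · have e2 : (fun θ : ℝ => Real.cos (j * θ) * Real.cos θ) = fun θ =>
          (1 / 2) * (Real.cos ((j + 1 : ℕ) * θ) + Real.cos ((j - 1 : ℕ) * θ)) := by
        funext θ
        have a1 : ((j + 1 : ℕ) : ℝ) * θ = j * θ + θ := by push_cast; ring
        have a2 : ((j - 1 : ℕ) : ℝ) * θ = j * θ - θ := by
          rw [Nat.cast_sub h0]; push_cast; ring
        rw [a1, a2, Real.cos_add, Real.cos_sub]
        ring
      rw [e2]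
      exact isTrig_smul _ _ _ (isTrig_add _ _ _ (isTrig_cos _ _ (by omega))
        (isTrig_cos _ _ (by omega)))
  · apply isTrig_smul
    rcases Nat.eq_zero_or_pos j with h0 | h0
    · subst h0
      have := isTrig_sin (n + 1) 0 (by omega)
      simpa using this
    · have e2 : (fun θ : ℝ => Real.sin (j * θ) * Real.cos θ) = fun θ =>
          (1 / 2) * (Real.sin ((j + 1 : ℕ) * θ) + Real.sin ((j - 1 : ℕ) * θ)) := by
        funext θ
        have a1 : ((j + 1 : ℕ) : ℝ) * θ = j * θ + θ := by push_cast; ring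
        have a2 : ((j - 1 : ℕ) : ℝ) * θ = j * θ - θ := by
          rw [Nat.cast_sub h0]; push_cast; ring
        rw [a1, a2, Real.sin_add, Real.sin_sub]
        ring
      rw [e2]
      exact isTrig_smul _ _ _ (isTrig_add _ _ _ (isTrig_sin _ _ (by omega))
        (isTrig_sin _ _ (by omega)))

theorem isTrig_mono (n : ℕ) (p : ℝ → ℝ) (hp : IsTrig n p) : IsTrig (n + 1) p := by
  obtain ⟨a, b, h⟩ := hp
  have e1 : p = fun θ : ℝ => ∑ j ∈ range (n + 1),
      (a j * Real.cos (j * θ) + b j * Real.sin (j * θ)) := funext h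
  rw [e1]
  apply isTrig_sum
  intro j hj
  rw [mem_range] at hj
  exact isTrig_add _ _ _ (isTrig_smul _ _ _ (isTrig_cos _ _ (by omega)))
    (isTrig_smul _ _ _ (isTrig_sin _ _ (by omega)))

theorem isTrig_test (n : ℕ) : IsTrig n (fun θ => (Real.sin (θ / 2) ^ 2) ^ n) := by
  induction n with
  | zero =>
    have := isTrig_cos 0 0 le_rfl
    simpa using this
  | succ n ih =>
    have hc1 : ∀ θ : ℝ, Real.sin (θ / 2) ^ 2 = 1 / 2 - 1 / 2 * Real.cos θ := by
      intro θ
      have h := Real.cos_two_mul (θ / 2)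
      rw [mul_div_cancel₀ θ two_ne_zero] at h
      have h2 := Real.sin_sq_add_cos_sq (θ / 2)
      linarith
    have e1 : (fun θ : ℝ => (Real.sin (θ / 2) ^ 2) ^ (n + 1)) = fun θ =>
        (1 / 2) * (Real.sin (θ / 2) ^ 2) ^ n
          + (-(1 / 2)) * ((Real.sin (θ / 2) ^ 2) ^ n * Real.cos θ) := by
      funext θ
      rw [pow_succ]
      nth_rewrite 2 [hc1 θ]
      ring
    rw [e1]
    exact isTrig_add _ _ _ (isTrig_smul _ _ _ (isTrig_mono _ _ ih))
      (isTrig_smul _ _ _ (isTrig_mul_cos _ _ ih))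

/-- lower bound for one of Kane's ratios -/
theorem ratio_bound (e : ℕ → ℕ) (he : e 0 = 0) (n : ℕ) (hn : 0 < n) (B : ℝ)
    (hm : mom (FF e) n ≤ B) :
    ∃ r ∈ kaneRatios (WW e) n, 1 / (Real.pi * B) ≤ r := by
  have hpi := Real.pi_pos
  set p : ℝ → ℝ := fun θ => (Real.sin (θ / 2) ^ 2) ^ n with hp
  have hder : ∀ θ, HasDerivAt p (deriv p θ) θ := by
    intro θ
    have : Differentiable ℝ p := by
      rw [hp]
      fun_prop
    exact (this θ).hasDerivAt
  have hdc : Continuous (deriv p) := by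
    have : ContDiff ℝ 1 p := by
      rw [hp]
      fun_prop
    exact this.continuous_deriv le_rfl
  have hint : ∫ θ in (-Real.pi)..Real.pi, p θ * WW e θ = Real.pi * mom (FF e) n := by
    rw [WW_integral e he]
    unfold mom
    simp only [hp, Th_half, ← pow_mul]
    field_simp
  have hdpos : 0 < ∫ θ in (-Real.pi)..Real.pi, p θ * WW e θ := by
    rw [intervalIntegral.integral_pos_iff_support_of_nonneg_ae']
    · refine ⟨by linarith, ?_⟩
      have hsub : Set.Ioo 0 Real.pi ⊆ Function.support (fun θ => p θ * WW e θ)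
          ∩ Set.Ioc (-Real.pi) Real.pi := by
        intro θ hθ
        constructor
        · rw [Function.mem_support]
          have h1 : 0 < Real.sin (θ / 2) :=
            Real.sin_pos_of_pos_of_lt_pi (by linarith [hθ.1]) (by linarith [hθ.2])
          have h2 := WW_pos e he θ
          simp only [hp]
          positivity
        · exact ⟨by linarith [hθ.1], hθ.2.le⟩
      refine lt_of_lt_of_le ?_ (measure_mono hsub)
      rw [Real.volume_Ioo]
      simpa using hpi
    · apply Filter.Eventually.of_forall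
      intro θ
      have h2 := WW_pos e he θ
      simp only [hp, Pi.zero_apply]
      positivity
    · apply WW_integrable e he
      rw [hp]
      fun_prop
  refine ⟨_, ⟨p, isTrig_test n, fun θ => ?_, ⟨Real.pi, ?_⟩, rfl⟩, ?_⟩
  · simp only [hp]
    positivity
  · simp [hp]
  · have h1 : 1 ≤ ∫ θ in (-Real.pi)..Real.pi, |deriv p θ| := by
      rw [← intervalIntegral.integral_add_adjacent_intervals (b := 0)
        (hdc.abs.intervalIntegrable _ _) (hdc.abs.intervalIntegrable _ _)]
      have h2 : 0 ≤ ∫ θ in (-Real.pi)..0, |deriv p θ| :=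
        intervalIntegral.integral_nonneg (by linarith) (fun θ _ => abs_nonneg _)
      have h3 : ∫ θ in (0 : ℝ)..Real.pi, deriv p θ = p Real.pi - p 0 :=
        intervalIntegral.integral_eq_sub_of_hasDerivAt (fun θ _ => hder θ)
          (hdc.intervalIntegrable _ _)
      have h4 : p Real.pi - p 0 = 1 := by
        simp only [hp]
        rw [Real.sin_pi_div_two, zero_div, Real.sin_zero, zero_pow two_ne_zero, zero_pow hn.ne']
        norm_num
      have h5 : ∫ θ in (0 : ℝ)..Real.pi, deriv p θ ≤ ∫ θ in (0 : ℝ)..Real.pi, |deriv p θ| :=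
        intervalIntegral.integral_mono_on hpi.le (hdc.intervalIntegrable _ _)
          (hdc.abs.intervalIntegrable _ _) (fun θ _ => le_abs_self _)
      linarith
    rw [hint] at hdpos ⊢
    apply div_le_div₀ (by linarith) h1 hdpos
    exact mul_le_mul_of_nonneg_left hm hpi.le

end Pool.Agent.V11105.CQ
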