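import Pool.Agent.V11105.CQe

set_option autoImplicit false

namespace Pool.Agent.V11105.CQ

open Finset MeasureTheory

/-- coefficient space -/
abbrev Co (n : ℕ) : Type := (Fin (n + 1) → ℝ) × (Fin (n + 1) → ℝ)

/-- the trigonometric polynomial with given coefficients -/
noncomputable def pf (n : ℕ) (x : Co n) (θ : ℝ) : ℝ :=
  ∑ j : Fin (n + 1), (x.1 j * Real.cos ((j.val : ℝ) * θ) + x.2 j * Real.sin ((j.val : ℝ) * θ))

theorem pf_add (n : ℕ) (x y : Co n) (θ : ℝ) : pf n (x + y) θ = pf n x θ + pf n y θ := by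
  unfold pf
  rw [← Finset.sum_add_distrib]
  apply Finset.sum_congr rfl
  intro j _
  simp only [Prod.fst_add, Prod.snd_add, Pi.add_apply]
  ring

theorem pf_smul (n : ℕ) (c : ℝ) (x : Co n) (θ : ℝ) : pf n (c • x) θ = c * pf n x θ := by
  unfold pf
  rw [Finset.mul_sum]
  apply Finset.sum_congr rfl
  intro j _
  simp only [Prod.smul_fst, Prod.smul_snd, Pi.smul_apply, smul_eq_mul]
  ring

theorem pf_sub (n : ℕ) (x y : Co n) (θ : ℝ) : pf n (x - y) θ = pf n x θ - pf n y θ := by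
  have h := pf_add n (x - y) y θ
  rw [sub_add_cancel] at h
  linarith

theorem pf_trig (n : ℕ) (p : ℝ → ℝ) (hp : IsTrig n p) : ∃ x : Co n, ∀ θ, p θ = pf n x θ := by
  obtain ⟨a, b, h⟩ := hp
  refine ⟨(fun j => a j.val, fun j => b j.val), fun θ => ?_⟩
  rw [h, Finset.sum_range]
  rfl

theorem pf_cont (n : ℕ) (x : Co n) : Continuous (pf n x) := by
  unfold pf
  fun_prop

theorem co_le (n : ℕ) (x : Co n) (j : Fin (n + 1)) : |x.1 j| ≤ ‖x‖ ∧ |x.2 j| ≤ ‖x‖ := by
  constructor
  · rw [← Real.norm_eq_abs]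
    exact (norm_le_pi_norm x.1 j).trans (norm_fst_le x)
  · rw [← Real.norm_eq_abs]
    exact (norm_le_pi_norm x.2 j).trans (norm_snd_le x)

theorem pf_le (n : ℕ) (x : Co n) (θ : ℝ) : |pf n x θ| ≤ (2 * (n + 1)) * ‖x‖ := by
  unfold pf
  calc |∑ j : Fin (n + 1), (x.1 j * Real.cos ((j.val : ℝ) * θ)
        + x.2 j * Real.sin ((j.val : ℝ) * θ))|
      ≤ ∑ j : Fin (n + 1), |x.1 j * Real.cos ((j.val : ℝ) * θ)
        + x.2 j * Real.sin ((j.val : ℝ) * θ)| := Finset.abs_sum_le_sum_abs _ _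
    _ ≤ ∑ _j : Fin (n + 1), (‖x‖ + ‖x‖) := by
        apply Finset.sum_le_sum
        intro j _
        obtain ⟨h1, h2⟩ := co_le n x j
        refine (abs_add_le _ _).trans (add_le_add ?_ ?_)
        · rw [abs_mul]
          calc |x.1 j| * |Real.cos ((j.val : ℝ) * θ)| ≤ ‖x‖ * 1 :=
                mul_le_mul h1 (Real.abs_cos_le_one _) (abs_nonneg _) (norm_nonneg _)
            _ = ‖x‖ := mul_one _
        · rw [abs_mul]
          calc |x.2 j| * |Real.sin ((j.val : ℝ) * θ)| ≤ ‖x‖ * 1 :=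
                mul_le_mul h2 (Real.abs_sin_le_one _) (abs_nonneg _) (norm_nonneg _)
            _ = ‖x‖ := mul_one _
    _ = (2 * (n + 1)) * ‖x‖ := by
        simp
        ring

theorem pf_deriv (n : ℕ) (x : Co n) (θ : ℝ) :
    HasDerivAt (pf n x) (∑ j : Fin (n + 1), (x.1 j * (-Real.sin ((j.val : ℝ) * θ) * (j.val : ℝ))
      + x.2 j * (Real.cos ((j.val : ℝ) * θ) * (j.val : ℝ)))) θ := by
  unfold pf
  apply HasDerivAt.fun_sum
  intro j _
  have h0 : HasDerivAt (fun θ : ℝ => (j.val : ℝ) * θ) (j.val : ℝ) θ := by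
    simpa using (hasDerivAt_id θ).const_mul (j.val : ℝ)
  exact (h0.cos.const_mul (x.1 j)).add (h0.sin.const_mul (x.2 j))

theorem pf_deriv_le (n : ℕ) (x : Co n) (θ : ℝ) :
    |deriv (pf n x) θ| ≤ (2 * (n + 1) * (n + 1)) * ‖x‖ := by
  rw [(pf_deriv n x θ).deriv]
  calc |∑ j : Fin (n + 1), (x.1 j * (-Real.sin ((j.val : ℝ) * θ) * (j.val : ℝ))
      + x.2 j * (Real.cos ((j.val : ℝ) * θ) * (j.val : ℝ)))|
      ≤ ∑ j : Fin (n + 1), |x.1 j * (-Real.sin ((j.val : ℝ) * θ) * (j.val : ℝ))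
      + x.2 j * (Real.cos ((j.val : ℝ) * θ) * (j.val : ℝ))| := Finset.abs_sum_le_sum_abs _ _
    _ ≤ ∑ _j : Fin (n + 1), (‖x‖ * (n + 1) + ‖x‖ * (n + 1)) := by
        apply Finset.sum_le_sum
        intro j _
        obtain ⟨h1, h2⟩ := co_le n x j
        have hj : |(j.val : ℝ)| ≤ n + 1 := by
          rw [abs_of_nonneg (by positivity)]
          have : (j.val : ℝ) < ((n + 1 : ℕ) : ℝ) := by exact_mod_cast j.2
          push_cast at this
          linarith
        refine (abs_add_le _ _).trans (add_le_add ?_ ?_)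
        · rw [abs_mul, abs_mul, abs_neg]
          apply mul_le_mul h1 _ (by positivity) (norm_nonneg _)
          calc |Real.sin ((j.val : ℝ) * θ)| * |(j.val : ℝ)| ≤ 1 * (n + 1) :=
                mul_le_mul (Real.abs_sin_le_one _) hj (abs_nonneg _) zero_le_one
            _ = n + 1 := one_mul _
        · rw [abs_mul, abs_mul]
          apply mul_le_mul h2 _ (by positivity) (norm_nonneg _)
          calc |Real.cos ((j.val : ℝ) * θ)| * |(j.val : ℝ)| ≤ 1 * (n + 1) :=
                mul_le_mul (Real.abs_cos_le_one _) hj (abs_nonneg _) zero_le_one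
            _ = n + 1 := one_mul _
    _ = (2 * (n + 1) * (n + 1)) * ‖x‖ := by
        simp
        ring

theorem pf_per (n : ℕ) (x : Co n) : Function.Periodic (pf n x) (2 * Real.pi) := by
  intro θ
  unfold pf
  apply Finset.sum_congr rfl
  intro j _
  have e1 : (j.val : ℝ) * (θ + 2 * Real.pi) = (j.val : ℝ) * θ + (j.val : ℝ) * (2 * Real.pi) := by
    ring
  rw [e1, Real.cos_add_nat_mul_two_pi, Real.sin_add_nat_mul_two_pi]

/-- the functional `∫ |p| W` -/
noncomputable def ff (e : ℕ → ℕ) (n : ℕ) (x : Co n) : ℝ :=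
  ∫ t in (-(Real.pi / 2))..(Real.pi / 2), |pf n x (Th e t)|

theorem ff_int (e : ℕ → ℕ) (n : ℕ) (x : Co n) (a b : ℝ) :
    IntervalIntegrable (fun t => |pf n x (Th e t)|) volume a b :=
  ((pf_cont n x).comp (Th_cont e)).abs.intervalIntegrable _ _

theorem ff_cont (e : ℕ → ℕ) (n : ℕ) : Continuous (ff e n) := by
  have hpi := Real.pi_pos
  have h : ∀ x y : Co n, ff e n x - ff e n y ≤ (Real.pi * (2 * (n + 1))) * dist x y := by
    intro x y
    unfold ff
    rw [← intervalIntegral.integral_sub (ff_int e n x _ _) (ff_int e n y _ _)]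
    calc ∫ t in (-(Real.pi / 2))..(Real.pi / 2), (|pf n x (Th e t)| - |pf n y (Th e t)|)
        ≤ ∫ _t in (-(Real.pi / 2))..(Real.pi / 2), (2 * (n + 1)) * dist x y := by
          apply intervalIntegral.integral_mono_on (by linarith)
            ((ff_int e n x _ _).sub (ff_int e n y _ _)) (by simp)
          intro t _
          have h1 := abs_sub_abs_le_abs_sub (pf n x (Th e t)) (pf n y (Th e t))
          rw [← pf_sub] at h1
          rw [dist_eq_norm]
          exact h1.trans (pf_le n (x - y) _)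
      _ = (Real.pi * (2 * (n + 1))) * dist x y := by
          rw [intervalIntegral.integral_const, smul_eq_mul]
          ring
  apply (LipschitzWith.of_dist_le' (K := Real.pi * (2 * (n + 1))) _).continuous
  intro x y
  rw [Real.dist_eq, abs_le]
  constructor
  · have := h y x
    rw [dist_comm] at this
    linarith
  · exact h x y

theorem ff_smul (e : ℕ → ℕ) (n : ℕ) (c : ℝ) (x : Co n) : ff e n (c • x) = |c| * ff e n x := by
  unfold ff
  rw [← intervalIntegral.integral_const_mul]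
  apply intervalIntegral.integral_congr
  intro t _
  simp only
  rw [pf_smul, abs_mul]

theorem ff_pos (e : ℕ → ℕ) (n : ℕ) (x : Co n) (h : ∃ θ, pf n x θ ≠ 0) : 0 < ff e n x := by
  have hpi := Real.pi_pos
  obtain ⟨θ, hθ⟩ := h
  obtain ⟨y, hy1, hy2⟩ := (pf_per n x).exists_mem_Ioc (by positivity) θ (-Real.pi)
  rw [hy2] at hθ
  have e1 : Th e (Real.pi / 2) = Real.pi := by
    unfold Th
    rw [Real.sin_pi_div_two, FF_one, Real.arcsin_one]
    ring
  have e2 : Th e (-(Real.pi / 2)) = -Real.pi := by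
    rw [Th_neg, e1]
  have hI := intermediate_value_Icc (a := -(Real.pi / 2)) (b := Real.pi / 2)
    (by linarith) (Th_cont e).continuousOn
  rw [e1, e2] at hI
  obtain ⟨t, ht1, ht2⟩ := hI (show y ∈ Set.Icc (-Real.pi) Real.pi from
    ⟨hy1.1.le, by linarith [hy1.2]⟩)
  unfold ff
  apply intervalIntegral.integral_pos (by linarith)
  · exact ((pf_cont n x).comp (Th_cont e)).abs.continuousOn
  · intro t _
    exact abs_nonneg _
  · exact ⟨t, ht1, by rw [ht2]; exact abs_pos.2 hθ⟩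

theorem kane_bdd (e : ℕ → ℕ) (he : e 0 = 0) (n : ℕ) : BddAbove (kaneRatios (WW e) n) := by
  have hpi := Real.pi_pos
  let Z : Submodule ℝ (Co n) :=
    { carrier := {x | ∀ θ, pf n x θ = 0}
      add_mem' := by
        intro x y hx hy θ
        rw [pf_add, hx θ, hy θ, add_zero]
      zero_mem' := by
        intro θ
        simp [pf]
      smul_mem' := by
        intro c x hx θ
        rw [pf_smul, hx θ, mul_zero] }
  obtain ⟨Y, hY⟩ := Submodule.exists_isCompl Z
  have hmin : ∃ δ : ℝ, 0 < δ ∧ ∀ x : Y, ‖x‖ = 1 → δ ≤ ff e n x.1 := by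
    have hcomp : IsCompact (Metric.sphere (0 : Y) 1) := isCompact_sphere _ _
    by_cases hne : (Metric.sphere (0 : Y) 1).Nonempty
    · obtain ⟨x₀, hx₀, hmin⟩ := hcomp.exists_isMinOn hne
        ((ff_cont e n).comp continuous_subtype_val).continuousOn
      refine ⟨ff e n x₀.1, ?_, fun x hx => ?_⟩
      · apply ff_pos
        by_contra hcon
        push Not at hcon
        have hZ : x₀.1 ∈ Z := hcon
        have h0 : x₀.1 ∈ (⊥ : Submodule ℝ (Co n)) := by
          rw [← hY.disjoint.eq_bot]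
          exact ⟨hZ, x₀.2⟩
        rw [Submodule.mem_bot] at h0
        rw [mem_sphere_zero_iff_norm] at hx₀
        have : x₀ = 0 := Subtype.ext h0
        rw [this, norm_zero] at hx₀
        exact zero_ne_one hx₀
      · exact hmin (mem_sphere_zero_iff_norm.2 hx)
    · refine ⟨1, one_pos, fun x hx => ?_⟩
      exact absurd ⟨x, mem_sphere_zero_iff_norm.2 hx⟩ hne
  obtain ⟨δ, hδ, hmin⟩ := hmin
  have hscale : ∀ x : Y, δ * ‖x‖ ≤ ff e n x.1 := by
    intro x
    rcases eq_or_ne x 0 with h | h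
    · rw [h, norm_zero, mul_zero]
      unfold ff
      exact intervalIntegral.integral_nonneg (by linarith) (fun t _ => abs_nonneg _)
    · have hn : 0 < ‖x‖ := norm_pos_iff.2 h
      have h1 := hmin ((‖x‖⁻¹ : ℝ) • x) (by
        rw [norm_smul, norm_inv, norm_norm, inv_mul_cancel₀ hn.ne'])
      have e1 : (((‖x‖⁻¹ : ℝ) • x : Y) : Co n) = (‖x‖⁻¹ : ℝ) • (x : Co n) := rfl
      rw [e1, ff_smul, abs_of_pos (inv_pos.2 hn)] at h1
      rw [le_inv_mul_iff₀ hn] at h1
      linarith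
  refine ⟨(2 * Real.pi * (2 * (n + 1) * (n + 1))) / δ, ?_⟩
  rintro r ⟨p, hp, hp0, ⟨θ₀, hθ₀⟩, rfl⟩
  obtain ⟨x, hx⟩ := pf_trig n p hp
  have hxtop : x ∈ Z ⊔ Y := by
    rw [hY.codisjoint.eq_top]
    exact Submodule.mem_top
  obtain ⟨z, hz, y, hy, hzy⟩ := Submodule.mem_sup.1 hxtop
  have hpy : ∀ θ, p θ = pf n y θ := by
    intro θ
    rw [hx, ← hzy, pf_add, hz θ, zero_add]
  have hpeq : p = pf n y := funext hpy
  have hpos : 0 < ff e n y := ff_pos e n y ⟨θ₀, by rw [← hpy]; exact hθ₀⟩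
  have hint : ∫ θ in (-Real.pi)..Real.pi, p θ * WW e θ = ff e n y := by
    rw [WW_integral e he]
    unfold ff
    apply intervalIntegral.integral_congr
    intro t _
    simp only
    rw [← hpy, abs_of_nonneg (hp0 _)]
  rw [hint, div_le_div_iff₀ hpos hδ]
  have hd : ∫ θ in (-Real.pi)..Real.pi, |deriv p θ|
      ≤ (2 * Real.pi) * ((2 * (n + 1) * (n + 1)) * ‖y‖) := by
    have hb : ‖∫ θ in (-Real.pi)..Real.pi, |deriv p θ|‖
        ≤ ((2 * (n + 1) * (n + 1)) * ‖y‖) * |Real.pi - (-Real.pi)| := by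
      apply intervalIntegral.norm_integral_le_of_norm_le_const
      intro θ _
      rw [Real.norm_eq_abs, abs_abs, hpeq]
      exact pf_deriv_le n y θ
    have h2 := (le_abs_self _).trans hb
    have e3 : |Real.pi - (-Real.pi)| = 2 * Real.pi := by
      rw [abs_of_pos (by linarith)]
      ring
    rw [e3] at h2
    linarith
  have hsc := hscale ⟨y, hy⟩
  have hsc' : δ * ‖y‖ ≤ ff e n y := hsc
  calc (∫ θ in (-Real.pi)..Real.pi, |deriv p θ|) * δ
      ≤ ((2 * Real.pi) * ((2 * (n + 1) * (n + 1)) * ‖y‖)) * δ :=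
        mul_le_mul_of_nonneg_right hd hδ.le
    _ = (2 * Real.pi * (2 * (n + 1) * (n + 1))) * (δ * ‖y‖) := by ring
    _ ≤ (2 * Real.pi * (2 * (n + 1) * (n + 1))) * ff e n y :=
        mul_le_mul_of_nonneg_left hsc' (by positivity)

/-- periodic weight functions -/
def IsWeight (W : ℝ → ℝ) : Prop :=
  Measurable W ∧ (∀ θ, 0 ≤ W θ) ∧ (∀ θ, W (θ + 2 * Real.pi) = W θ) ∧
    IntervalIntegrable W volume (-Real.pi) Real.pi ∧ 0 < ∫ θ in (-Real.pi)..Real.pi, W θ

theorem main : ∃ W : ℝ → ℝ, IsWeight W ∧ (∀ θ, W θ ≠ 0) ∧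
    (∀ n, BddAbove (kaneRatios W n)) ∧
    ∀ c : ℝ, 0 < c → ∀ n₀ : ℕ, ∃ n : ℕ, n₀ ≤ n ∧ (∀ N ≥ Nbar W n, HasQuad W n N) ∧
      (Nbar W n : ℝ) < c * kane W n := by
  obtain ⟨e, he0, hemono, hstage⟩ := exists_e
  have hpi := Real.pi_pos
  have hWint : ∫ θ in (-Real.pi)..Real.pi, WW e θ = Real.pi := by
    have h := WW_integral e he0 (fun _ => 1)
    simp only [one_mul, intervalIntegral.integral_const, smul_eq_mul, mul_one] at h
    rw [h]; ring
  refine ⟨WW e, ⟨WW_meas e he0, fun θ => (WW_pos e he0 θ).le, WW_per e, ?_, ?_⟩,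
    fun θ => (WW_pos e he0 θ).ne', fun n => kane_bdd e he0 n, ?_⟩
  · have := WW_integrable e he0 (fun _ => 1) continuous_const
    simpa using this
  · rw [hWint]; exact hpi
  · intro c hc n₀
    obtain ⟨k₁, hk₁⟩ := exists_nat_gt (1 / c)
    set k := max k₁ n₀ with hk
    obtain ⟨g, hg, n, N₀, hkn, hn0, hN₀, hbound, hF⟩ := hstage k
    obtain ⟨hgood, hmom⟩ := hF (FF e) (FF_cont e)
      (fun x hx => (FF_abs e x hx).trans hx) (fun x hx => FF_sub e hemono k g hg x hx)
    have hquad : ∀ N ≥ N₀, HasQuad (WW e) n N := fun N hN =>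
      HasQuad_of_QS e he0 n N (by omega) (QS_all e n N₀ hN₀ hgood N hN)
    have hmem : N₀ ∈ {M | ∀ N ≥ M, HasQuad (WW e) n N} := hquad
    refine ⟨n, le_trans (le_max_right _ _) hkn, ?_, ?_⟩
    · exact Nat.sInf_mem ⟨N₀, hmem⟩
    · have h1 : Nbar (WW e) n ≤ N₀ := Nat.sInf_le hmem
      have h1' : (Nbar (WW e) n : ℝ) ≤ N₀ := by exact_mod_cast h1
      have hs := (Pk_HP e k).one_pos
      obtain ⟨r, hr1, hr2⟩ := ratio_bound e he0 n hn0 (2 * (Pk e k).eval 1 ^ (2 * n)) hmom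
      have h2 : r ≤ sSup (kaneRatios (WW e) n) := le_csSup (kane_bdd e he0 n) hr1
      set q := (Pk e k).eval 1 ^ (2 * n) with hq
      have hqpos : 0 < q := by positivity
      have h3 : 1 / (4 * q) ≤ (∫ θ in (-Real.pi)..Real.pi, WW e θ) / 2
          * sSup (kaneRatios (WW e) n) := by
        rw [hWint]
        calc 1 / (4 * q) = Real.pi / 2 * (1 / (Real.pi * (2 * q))) := by
              field_simp
              norm_num
          _ ≤ Real.pi / 2 * sSup (kaneRatios (WW e) n) :=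
              mul_le_mul_of_nonneg_left (hr2.trans h2) (by positivity)
      have h4 : 1 / (4 * q) < (kane (WW e) n : ℝ) := by
        unfold kane
        push_cast
        exact lt_of_le_of_lt h3 (Int.lt_floor_add_one _)
      have h5 : (N₀ : ℝ) ≤ (1 / (k + 1)) * (1 / (4 * q)) := by
        rw [div_mul_div_comm, one_mul, le_div_iff₀ (by positivity)]
        calc (N₀ : ℝ) * ((k + 1) * (4 * q)) = N₀ * (4 * (k + 1)) * q := by ring
          _ ≤ 1 := hbound
      have h6 : (1 : ℝ) / (k + 1) < c := by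
        have h7 : (k₁ : ℝ) ≤ k := by exact_mod_cast le_max_left _ _
        rw [div_lt_iff₀ (by positivity)]
        rw [div_lt_iff₀ hc] at hk₁
        nlinarith
      have h8 : (0 : ℝ) < 1 / (4 * q) := by positivity
      calc (Nbar (WW e) n : ℝ) ≤ N₀ := h1'
        _ ≤ (1 / (k + 1)) * (1 / (4 * q)) := h5
        _ < c * (1 / (4 * q)) := mul_lt_mul_of_pos_right h6 h8
        _ ≤ c * kane (WW e) n := mul_le_mul_of_nonneg_left h4.le hc.le

end Pool.Agent.V11105.CQ
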