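import Mathlib

/-!
Köthe coechelon spaces, backward shift, nuclearity: definitions and basic facts.
-/

open Filter Set Topology

namespace Pool.Agent.V11105.Coechelon

noncomputable section

/-- An exponent `p ∈ {0} ∪ [1, ∞)` and a decreasing sequence `v` of strictly positive weights for
which the backward shift is continuous. The index `j` stands for `j + 1`. -/
structure Data where
  p : ℝ
  v : ℕ → ℕ → ℝ
  hp : p = 0 ∨ 1 ≤ p
  pos : ∀ m j, 0 < v m j
  anti : ∀ m j, v (m + 1) j ≤ v m j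
  shift : ∀ m, ∃ n ≥ m, ∃ C > 0, ∀ j, v n j ≤ C * v m (j + 1)

variable {𝕂 : Type} [NormedField 𝕂]

/-- Membership of `x` in `ℓ_p(a)` (in `c_0(a)` if `p = 0`). -/
def StepMem (p : ℝ) (a : ℕ → ℝ) (x : ℕ → 𝕂) : Prop :=
  if p = 0 then Tendsto (fun j => ‖x j‖ * a j) atTop (𝓝 0) else Summable fun j => (‖x j‖ * a j) ^ p

/-- The norm of `x` in `ℓ_p(a)` (in `c_0(a)` if `p = 0`). -/
def stepNorm (p : ℝ) (a : ℕ → ℝ) (x : ℕ → 𝕂) : ℝ :=
  if p = 0 then ⨆ j, ‖x j‖ * a j else (∑' j, (‖x j‖ * a j) ^ p) ^ (1 / p)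

/-! ### Basic facts on the steps -/

section basic

variable {p : ℝ} {a b : ℕ → ℝ} {x y : ℕ → 𝕂}

lemma stepMem_zero_iff : StepMem 0 a x ↔ Tendsto (fun j => ‖x j‖ * a j) atTop (𝓝 0) := by
  simp [StepMem]

lemma stepMem_pos_iff (hp : 1 ≤ p) : StepMem p a x ↔ Summable fun j => (‖x j‖ * a j) ^ p := by
  have : p ≠ 0 := by linarith
  simp [StepMem, this]

lemma stepNorm_zero_eq : stepNorm 0 a x = ⨆ j, ‖x j‖ * a j := by
  simp [stepNorm]

lemma stepNorm_pos_eq (hp : 1 ≤ p) : stepNorm p a x = (∑' j, (‖x j‖ * a j) ^ p) ^ (1 / p) := by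
  have : p ≠ 0 := by linarith
  simp [stepNorm, this]

lemma bddAbove_of_tendsto {f : ℕ → ℝ} (h : Tendsto f atTop (𝓝 0)) : BddAbove (range f) :=
  h.bddAbove_range

lemma StepMem.mono (hp : p = 0 ∨ 1 ≤ p) (ha : ∀ j, 0 ≤ a j) {C : ℝ} (hC : 0 ≤ C)
    (hab : ∀ j, ‖x j‖ * a j ≤ C * (‖y j‖ * b j)) (hy : StepMem p b y) : StepMem p a x := by
  rcases hp with rfl | hp
  · rw [stepMem_zero_iff] at hy ⊢
    have h2 := hy.const_mul C
    rw [mul_zero] at h2
    exact squeeze_zero (fun j => mul_nonneg (norm_nonneg _) (ha j)) hab h2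
  · rw [stepMem_pos_iff hp] at hy ⊢
    have h2 := hy.mul_left (C ^ p)
    refine Summable.of_nonneg_of_le (fun j => Real.rpow_nonneg
      (mul_nonneg (norm_nonneg _) (ha j)) _) (fun j => ?_) h2
    have h3 : 0 ≤ ‖y j‖ * b j ∨ C = 0 := by
      by_contra hcon
      simp only [not_or, not_le] at hcon
      have h4 := mul_nonneg (norm_nonneg (x j)) (ha j)
      have h5 := hab j
      have h6 : 0 < C := lt_of_le_of_ne hC (Ne.symm hcon.2)
      nlinarith [mul_neg_of_pos_of_neg h6 hcon.1]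
    rcases h3 with h3 | h3
    · rw [← Real.mul_rpow hC h3]
      exact Real.rpow_le_rpow (mul_nonneg (norm_nonneg _) (ha j)) (hab j) (by linarith)
    · have h4 : ‖x j‖ * a j = 0 := by
        apply le_antisymm _ (mul_nonneg (norm_nonneg _) (ha j))
        have := hab j
        rwa [h3, zero_mul] at this
      rw [h4, h3, Real.zero_rpow (by linarith), zero_mul]

lemma coord_le (hp : p = 0 ∨ 1 ≤ p) (ha : ∀ j, 0 ≤ a j) (hx : StepMem p a x) (j : ℕ) :
    ‖x j‖ * a j ≤ stepNorm p a x := by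
  rcases hp with rfl | hp
  · rw [stepMem_zero_iff] at hx
    rw [stepNorm_zero_eq]
    exact le_ciSup hx.bddAbove_range j
  · rw [stepMem_pos_iff hp] at hx
    rw [stepNorm_pos_eq hp]
    have h0 : ∀ j, 0 ≤ ‖x j‖ * a j := fun j => mul_nonneg (norm_nonneg _) (ha j)
    calc ‖x j‖ * a j = ((‖x j‖ * a j) ^ p) ^ (1 / p) := by
          rw [← Real.rpow_mul (h0 j), mul_one_div_cancel (by linarith), Real.rpow_one]
      _ ≤ (∑' j, (‖x j‖ * a j) ^ p) ^ (1 / p) := by
          apply Real.rpow_le_rpow (Real.rpow_nonneg (h0 j) _) _ (by positivity)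
          exact hx.le_tsum j (fun i _ => Real.rpow_nonneg (h0 i) _)

lemma stepNorm_nonneg (hp : p = 0 ∨ 1 ≤ p) (ha : ∀ j, 0 ≤ a j) (hx : StepMem p a x) :
    0 ≤ stepNorm p a x :=
  (mul_nonneg (norm_nonneg _) (ha 0)).trans (coord_le hp ha hx 0)

lemma stepNorm_mono (hp : p = 0 ∨ 1 ≤ p) (ha : ∀ j, 0 ≤ a j) (hab : ∀ j, a j ≤ b j)
    (hx : StepMem p b x) : stepNorm p a x ≤ stepNorm p b x := by
  have hb : ∀ j, 0 ≤ b j := fun j => (ha j).trans (hab j)
  have hxa : StepMem p a x := hx.mono hp ha zero_le_one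
    (fun j => by rw [one_mul]; exact mul_le_mul_of_nonneg_left (hab j) (norm_nonneg _))
  rcases hp with rfl | hp
  · rw [stepMem_zero_iff] at hx hxa
    rw [stepNorm_zero_eq, stepNorm_zero_eq]
    exact ciSup_mono hx.bddAbove_range
      (fun j => mul_le_mul_of_nonneg_left (hab j) (norm_nonneg _))
  · rw [stepMem_pos_iff hp] at hx hxa
    rw [stepNorm_pos_eq hp, stepNorm_pos_eq hp]
    apply Real.rpow_le_rpow _ _ (by positivity)
    · exact tsum_nonneg fun j => Real.rpow_nonneg (mul_nonneg (norm_nonneg _) (ha j)) _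
    · apply Summable.tsum_le_tsum _ hxa hx
      intro j
      exact Real.rpow_le_rpow (mul_nonneg (norm_nonneg _) (ha j))
        (mul_le_mul_of_nonneg_left (hab j) (norm_nonneg _)) (by linarith)

lemma StepMem.add (hp : p = 0 ∨ 1 ≤ p) (ha : ∀ j, 0 ≤ a j) (hx : StepMem p a x)
    (hy : StepMem p a y) : StepMem p a (x + y) := by
  rcases hp with rfl | hp
  · rw [stepMem_zero_iff] at hx hy ⊢
    have h := hx.add hy
    rw [add_zero] at h
    refine squeeze_zero (fun j => mul_nonneg (norm_nonneg _) (ha j)) (fun j => ?_) h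
    rw [← add_mul]
    exact mul_le_mul_of_nonneg_right (norm_add_le _ _) (ha j)
  · rw [stepMem_pos_iff hp] at hx hy ⊢
    have h := (hx.add hy).mul_left ((2 : ℝ) ^ p)
    refine Summable.of_nonneg_of_le (fun j => Real.rpow_nonneg
      (mul_nonneg (norm_nonneg _) (ha j)) _) (fun j => ?_) h
    have hx0 : 0 ≤ ‖x j‖ * a j := mul_nonneg (norm_nonneg _) (ha j)
    have hy0 : 0 ≤ ‖y j‖ * a j := mul_nonneg (norm_nonneg _) (ha j)
    have h1 : ‖(x + y) j‖ * a j ≤ 2 * max (‖x j‖ * a j) (‖y j‖ * a j) := by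
      have h2 : ‖(x + y) j‖ * a j ≤ ‖x j‖ * a j + ‖y j‖ * a j := by
        rw [← add_mul]
        exact mul_le_mul_of_nonneg_right (norm_add_le _ _) (ha j)
      have h3 := le_max_left (‖x j‖ * a j) (‖y j‖ * a j)
      have h4 := le_max_right (‖x j‖ * a j) (‖y j‖ * a j)
      linarith
    calc (‖(x + y) j‖ * a j) ^ p ≤ (2 * max (‖x j‖ * a j) (‖y j‖ * a j)) ^ p :=
          Real.rpow_le_rpow (mul_nonneg (norm_nonneg _) (ha j)) h1 (by linarith)
      _ = 2 ^ p * (max (‖x j‖ * a j) (‖y j‖ * a j)) ^ p :=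
          Real.mul_rpow (by norm_num) (hx0.trans (le_max_left _ _))
      _ ≤ 2 ^ p * ((‖x j‖ * a j) ^ p + (‖y j‖ * a j) ^ p) := by
          apply mul_le_mul_of_nonneg_left _ (by positivity)
          have e1 := Real.rpow_nonneg hx0 p
          have e2 := Real.rpow_nonneg hy0 p
          rcases le_total (‖x j‖ * a j) (‖y j‖ * a j) with h | h
          · rw [max_eq_right h]; linarith
          · rw [max_eq_left h]; linarith

lemma StepMem.smul (hp : p = 0 ∨ 1 ≤ p) (ha : ∀ j, 0 ≤ a j) (c : 𝕂) (hx : StepMem p a x) :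
    StepMem p a (c • x) := by
  refine hx.mono hp ha (norm_nonneg c) (fun j => ?_)
  simp [mul_assoc]

lemma StepMem.zero (hp : p = 0 ∨ 1 ≤ p) : StepMem p a (0 : ℕ → 𝕂) := by
  rcases hp with rfl | hp
  · rw [stepMem_zero_iff]; simp
  · rw [stepMem_pos_iff hp]
    have : (fun j => (‖(0 : ℕ → 𝕂) j‖ * a j) ^ p) = fun _ => 0 := by
      funext j; simp [Real.zero_rpow (show p ≠ 0 by linarith)]
    rw [this]; exact summable_zero

/-- the `ℓ_1` norm dominates all the norms -/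
lemma of_summable (hp : p = 0 ∨ 1 ≤ p) (ha : ∀ j, 0 ≤ a j)
    (hx : Summable fun j => ‖x j‖ * a j) :
    StepMem p a x ∧ stepNorm p a x ≤ ∑' j, ‖x j‖ * a j := by
  have h0 : ∀ j, 0 ≤ ‖x j‖ * a j := fun j => mul_nonneg (norm_nonneg _) (ha j)
  set T : ℝ := ∑' j, ‖x j‖ * a j with hT
  have hT0 : 0 ≤ T := tsum_nonneg h0
  have hle : ∀ j, ‖x j‖ * a j ≤ T := fun j => hx.le_tsum j (fun i _ => h0 i)
  rcases hp with rfl | hp
  · rw [stepMem_zero_iff, stepNorm_zero_eq]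
    exact ⟨hx.tendsto_atTop_zero, ciSup_le hle⟩
  · rw [stepMem_pos_iff hp, stepNorm_pos_eq hp]
    have h1 : ∀ j, (‖x j‖ * a j) ^ p ≤ T ^ (p - 1) * (‖x j‖ * a j) := by
      intro j
      rcases (h0 j).eq_or_lt with h | h
      · rw [← h, Real.zero_rpow (by linarith), mul_zero]
      · calc (‖x j‖ * a j) ^ p = (‖x j‖ * a j) ^ (p - 1) * (‖x j‖ * a j) := by
              rw [Real.rpow_sub_one h.ne', div_mul_cancel₀ _ h.ne']
          _ ≤ _ := by
              apply mul_le_mul_of_nonneg_right _ (h0 j)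
              exact Real.rpow_le_rpow (h0 j) (hle j) (by linarith)
    have hs : Summable fun j => (‖x j‖ * a j) ^ p :=
      Summable.of_nonneg_of_le (fun j => Real.rpow_nonneg (h0 j) _) h1 (hx.mul_left _)
    refine ⟨hs, ?_⟩
    have h2 : ∑' j, (‖x j‖ * a j) ^ p ≤ T ^ p := by
      calc ∑' j, (‖x j‖ * a j) ^ p ≤ ∑' j, T ^ (p - 1) * (‖x j‖ * a j) :=
            Summable.tsum_le_tsum h1 hs (hx.mul_left _)
        _ = T ^ (p - 1) * T := by rw [tsum_mul_left]
        _ ≤ T ^ p := by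
            rcases hT0.eq_or_lt with h | h
            · rw [← h, mul_zero, Real.zero_rpow (by linarith)]
            · rw [Real.rpow_sub_one h.ne', div_mul_cancel₀ _ h.ne']
    calc (∑' j, (‖x j‖ * a j) ^ p) ^ (1 / p) ≤ (T ^ p) ^ (1 / p) := by
          apply Real.rpow_le_rpow _ h2 (by positivity)
          exact tsum_nonneg fun j => Real.rpow_nonneg (h0 j) _
      _ = T := by rw [← Real.rpow_mul hT0, mul_one_div_cancel (by linarith), Real.rpow_one]

end basic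

/-! ### The space -/

namespace Data

variable (D : Data)

lemma nonneg (m j : ℕ) : 0 ≤ D.v m j := (D.pos m j).le

lemma anti_le {m n : ℕ} (h : m ≤ n) (j : ℕ) : D.v n j ≤ D.v m j := by
  induction n, h using Nat.le_induction with
  | base => exact le_rfl
  | succ n _ ih => exact (D.anti n j).trans ih

lemma stepMem_mono {m n : ℕ} (h : m ≤ n) {x : ℕ → 𝕂} (hx : StepMem D.p (D.v m) x) :
    StepMem D.p (D.v n) x :=
  hx.mono D.hp (D.nonneg n) zero_le_one (fun j => by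
    rw [one_mul]; exact mul_le_mul_of_nonneg_left (D.anti_le h j) (norm_nonneg _))

variable (𝕂) in
/-- The vector space underlying the Köthe coechelon space `k_p(V)`. -/
def space : Submodule 𝕂 (ℕ → 𝕂) where
  carrier := {x | ∃ m, StepMem D.p (D.v m) x}
  zero_mem' := ⟨0, StepMem.zero D.hp⟩
  add_mem' := by
    rintro x y ⟨m, hm⟩ ⟨n, hn⟩
    exact ⟨max m n, (D.stepMem_mono (le_max_left m n) hm).add D.hp (D.nonneg _)
      (D.stepMem_mono (le_max_right m n) hn)⟩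
  smul_mem' := by
    rintro c x ⟨m, hm⟩
    exact ⟨m, hm.smul D.hp (D.nonneg _) c⟩

lemma mem_space {x : ℕ → 𝕂} : x ∈ D.space 𝕂 ↔ ∃ m, StepMem D.p (D.v m) x := Iff.rfl

lemma shift_mem {x : ℕ → 𝕂} (hx : x ∈ D.space 𝕂) : (fun j => x (j + 1)) ∈ D.space 𝕂 := by
  obtain ⟨m, hm⟩ := hx
  obtain ⟨n, _, C, hC, hn⟩ := D.shift m
  refine ⟨n, ?_⟩
  have h1 : StepMem D.p (fun j => D.v m (j + 1)) (fun j => x (j + 1)) := by
    rcases D.hp with hp | hp
    · rw [hp, stepMem_zero_iff] at hm ⊢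
      exact hm.comp (tendsto_add_atTop_nat 1)
    · rw [stepMem_pos_iff hp] at hm ⊢
      exact (summable_nat_add_iff 1).2 hm
  refine h1.mono D.hp (D.nonneg n) hC.le (fun j => ?_)
  calc ‖x (j + 1)‖ * D.v n j ≤ ‖x (j + 1)‖ * (C * D.v m (j + 1)) :=
        mul_le_mul_of_nonneg_left (hn j) (norm_nonneg _)
    _ = C * (‖x (j + 1)‖ * D.v m (j + 1)) := by ring

variable (𝕂) in
/-- The Köthe coechelon space `k_p(V)` as a vector space. -/
def E : Type := D.space 𝕂

instance : AddCommGroup (D.E 𝕂) := Submodule.addCommGroup (D.space 𝕂)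

instance : Module 𝕂 (D.E 𝕂) := Submodule.module (D.space 𝕂)

/-- The sequence underlying an element of `k_p(V)`. -/
def seq (x : D.E 𝕂) : ℕ → 𝕂 := x.1

variable (𝕂) in
/-- The backward shift on `k_p(V)`. -/
def B (x : D.E 𝕂) : D.E 𝕂 := ⟨fun j => D.seq x (j + 1), D.shift_mem x.2⟩

variable (𝕂) in
/-- Seminorms on `k_p(V)`. -/
abbrev Semi : Type := Seminorm 𝕂 (D.E 𝕂)

/-- Continuity of a seminorm on `k_p(V)` for the locally convex inductive limit topology: its
restriction to every step is continuous. -/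
def Cont (q : D.Semi 𝕂) : Prop :=
  ∀ m, ∃ C : ℝ, ∀ x : D.E 𝕂, StepMem D.p (D.v m) (D.seq x) →
    q x ≤ C * stepNorm D.p (D.v m) (D.seq x)

variable (𝕂) in
/-- `U` is open for the locally convex inductive limit topology: it contains, around each of its
points, a ball of a continuous seminorm. -/
def OpenSet (U : Set (D.E 𝕂)) : Prop :=
  ∀ x ∈ U, ∃ q : D.Semi 𝕂, D.Cont q ∧ ∀ y, q (y - x) < 1 → y ∈ U

lemma OpenSet.univ : D.OpenSet 𝕂 univ := fun x _ =>
  ⟨0, fun m => ⟨0, fun x _ => by simp⟩, fun y _ => mem_univ y⟩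

lemma OpenSet.inter {U W : Set (D.E 𝕂)} (hU : D.OpenSet 𝕂 U) (hW : D.OpenSet 𝕂 W) :
    D.OpenSet 𝕂 (U ∩ W) := by
  intro x hx
  obtain ⟨q1, hq1, h1⟩ := hU x hx.1
  obtain ⟨q2, hq2, h2⟩ := hW x hx.2
  refine ⟨q1 + q2, ?_, ?_⟩
  · intro m
    obtain ⟨C1, hC1⟩ := hq1 m
    obtain ⟨C2, hC2⟩ := hq2 m
    refine ⟨C1 + C2, fun x hx => ?_⟩
    rw [add_mul]
    exact add_le_add (hC1 x hx) (hC2 x hx)
  · intro y hy
    have e : (q1 + q2) (y - x) = q1 (y - x) + q2 (y - x) := rfl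
    rw [e] at hy
    have p1 := apply_nonneg q1 (y - x)
    have p2 := apply_nonneg q2 (y - x)
    exact ⟨h1 y (by linarith), h2 y (by linarith)⟩

lemma OpenSet.sUnion {s : Set (Set (D.E 𝕂))} (h : ∀ U ∈ s, D.OpenSet 𝕂 U) :
    D.OpenSet 𝕂 (⋃₀ s) := by
  intro x hx
  obtain ⟨U, hU, hxU⟩ := hx
  obtain ⟨q, hq, h1⟩ := h U hU x hxU
  exact ⟨q, hq, fun y hy => ⟨U, hU, h1 y hy⟩⟩

variable (𝕂) in
/-- The locally convex inductive limit topology of the steps. -/
@[instance_reducible]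
def topo : TopologicalSpace (D.E 𝕂) where
  IsOpen := D.OpenSet 𝕂
  isOpen_univ := OpenSet.univ D
  isOpen_inter _ _ := OpenSet.inter D
  isOpen_sUnion _ := OpenSet.sUnion D

/-- Syndetic subsets of `{1, 2, …}`. -/
def Syndetic (A : Set ℕ) : Prop := ∃ q : ℕ, ∀ n ≥ 1, ∃ k ∈ A, n ≤ k ∧ k ≤ n + q

variable (𝕂) in
/-- The backward shift is topologically ergodic on `k_p(V)`. -/
def TopErgodic : Prop :=
  ∀ U W : Set (D.E 𝕂), IsOpen[D.topo 𝕂] U → IsOpen[D.topo 𝕂] W → U.Nonempty → W.Nonempty →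
    Syndetic {n | 1 ≤ n ∧ (((D.B 𝕂)^[n] '' U) ∩ W).Nonempty}

variable (𝕂) in
/-- The backward shift is sequentially hypercyclic on `k_p(V)`: every point is the limit of a
sequence from one orbit. -/
def SeqHypercyclic : Prop :=
  ∃ x : D.E 𝕂, ∀ y : D.E 𝕂, ∃ s : ℕ → ℕ,
    Tendsto (fun k => (D.B 𝕂)^[s k] x) atTop (@nhds _ (D.topo 𝕂) y)

/-- The linear map `j` from `k_p(V)` to the Banach space `F` is nuclear with respect to the
seminorm `Q`. -/
def NuclearMap {F : Type} [NormedAddCommGroup F] [NormedSpace 𝕂 F] (Q : D.Semi 𝕂)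
    (j : D.E 𝕂 →ₗ[𝕂] F) : Prop :=
  ∃ (c : ℕ → 𝕂) (f : ℕ → (D.E 𝕂 →ₗ[𝕂] 𝕂)) (b : ℕ → F), (Summable fun n => ‖c n‖) ∧
    (∀ n x, ‖f n x‖ ≤ Q x) ∧ (∀ n, ‖b n‖ ≤ 1) ∧ ∀ x, HasSum (fun n => (c n * f n x) • b n) (j x)

/-- `j` is the canonical map to the completion `F` of `k_p(V)` for the seminorm `P`. -/
def IsCompletionMap {F : Type} [NormedAddCommGroup F] [NormedSpace 𝕂 F] (P : D.Semi 𝕂)
    (j : D.E 𝕂 →ₗ[𝕂] F) : Prop :=
  CompleteSpace F ∧ (∀ x, ‖j x‖ = P x) ∧ DenseRange j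

variable (𝕂) in
/-- Nuclearity of `k_p(V)`: for every continuous seminorm `P` the canonical map from the space to
the Banach space `F` associated with `P` is nuclear with respect to some continuous seminorm. -/
def Nuclear : Prop :=
  ∀ P : D.Semi 𝕂, D.Cont P → ∃ Q : D.Semi 𝕂, D.Cont Q ∧
    ∃ (F : Type) (_ : NormedAddCommGroup F) (_ : NormedSpace 𝕂 F) (j : D.E 𝕂 →ₗ[𝕂] F),
      D.IsCompletionMap P j ∧ D.NuclearMap Q j

end Data

end

end Pool.Agent.V11105.Coechelon
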