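import Pool.Agent.V11105.CoechelonThree

/-!
Köthe coechelon spaces: a weight tending to zero gives a sequentially dense orbit.
-/

open Filter Set Topology

namespace Pool.Agent.V11105.Coechelon

noncomputable section

variable {𝕂 : Type} [RCLike 𝕂]

/-- The finitely supported vectors with coordinates in a countable dense set. -/
def vec (l : List ℕ) (j : ℕ) : 𝕂 :=
  if h : j < l.length then TopologicalSpace.denseSeq 𝕂 (l[j]) else 0

lemma vec_eq_zero {l : List ℕ} {j : ℕ} (h : l.length ≤ j) : (vec l j : 𝕂) = 0 := by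
  simp [vec, not_lt.2 h]

/-- Approximation of finitely many coordinates. -/
lemma exists_vec (y : ℕ → 𝕂) (L : ℕ) {δ : ℝ} (hδ : 0 < δ) :
    ∃ l : List ℕ, l.length = L ∧ ∀ j < L, ‖(vec l j : 𝕂) - y j‖ < δ := by
  have h1 : ∀ j, ∃ n, dist (y j) (TopologicalSpace.denseSeq 𝕂 n) < δ := fun j =>
    (TopologicalSpace.denseRange_denseSeq 𝕂).exists_dist_lt (y j) hδ
  choose n hn using h1
  refine ⟨List.ofFn (fun i : Fin L => n i), by simp, fun j hj => ?_⟩
  have h2 : (vec (List.ofFn (fun i : Fin L => n i)) j : 𝕂) = TopologicalSpace.denseSeq 𝕂 (n j) := by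
    simp [vec, hj]
  rw [h2, ← dist_eq_norm, dist_comm]
  exact hn j

/-- An enumeration of all lists in which every list occurs infinitely often. -/
def enumL (k : ℕ) : List ℕ := (Encodable.decode (α := List ℕ) (Nat.unpair k).1).getD []

lemma exists_enumL (l : List ℕ) (N : ℕ) : ∃ k ≥ N, enumL k = l := by
  refine ⟨Nat.pair (Encodable.encode l) N, Nat.right_le_pair _ _, ?_⟩
  simp [enumL]

namespace Data

variable (D : Data)

section construct

variable {D} {M : ℕ} (hv : Tendsto (D.v M) atTop (𝓝 0))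

include hv in
lemma exists_T (K : ℝ) (k : ℕ) : ∃ T : ℕ, ∀ j ≥ T, K * D.v M j ≤ (1 / 2) ^ k := by
  have h1 := hv.const_mul K
  rw [mul_zero] at h1
  have h2 := (h1.eventually (gt_mem_nhds (show (0 : ℝ) < (1 / 2) ^ k by positivity)))
  obtain ⟨T, hT⟩ := eventually_atTop.1 h2
  exact ⟨T, fun j hj => (hT j hj).le⟩

/-- The `ℓ_1` norm of the coordinates of the `k`-th vector. -/
def mass (𝕂 : Type) [RCLike 𝕂] (k : ℕ) : ℝ :=
  ∑ j ∈ Finset.range (enumL k).length, ‖(vec (enumL k) j : 𝕂)‖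

/-- A threshold. -/
def thr (𝕂 : Type) [RCLike 𝕂] (k : ℕ) : ℕ := (exists_T hv (mass 𝕂 k) k).choose

lemma thr_spec (k : ℕ) {j : ℕ} (hj : thr hv 𝕂 k ≤ j) :
    mass 𝕂 k * D.v M j ≤ (1 / 2) ^ k := (exists_T hv (mass 𝕂 k) k).choose_spec j hj

/-- The positions of the blocks. -/
def ns (𝕂 : Type) [RCLike 𝕂] : ℕ → ℕ
  | 0 => thr hv 𝕂 0
  | k + 1 => ns 𝕂 k + (enumL k).length + thr hv 𝕂 (k + 1) + 1

lemma ns_lt {k l : ℕ} (h : k < l) :
    ns hv 𝕂 k + (enumL k).length + thr hv 𝕂 l + 1 ≤ ns hv 𝕂 l := by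
  induction l, h using Nat.le_induction with
  | base => exact le_rfl
  | succ l _ ih =>
    have : ns hv 𝕂 (l + 1) = ns hv 𝕂 l + (enumL l).length + thr hv 𝕂 (l + 1) + 1 := rfl
    omega

lemma le_ns (k : ℕ) : k ≤ ns hv 𝕂 k := by
  induction k with
  | zero => exact Nat.zero_le _
  | succ k ih =>
    have := ns_lt (𝕂 := 𝕂) hv (Nat.lt_add_one k)
    omega

lemma thr_le_ns (k : ℕ) : thr hv 𝕂 k ≤ ns hv 𝕂 k := by
  rcases k with _ | k
  · exact le_rfl
  · have := ns_lt (𝕂 := 𝕂) hv (Nat.lt_add_one k)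
    omega

/-- the blocks shifted -/
def blk (𝕂 : Type) [RCLike 𝕂] (s l j : ℕ) : 𝕂 :=
  if ns hv 𝕂 l ≤ j + s then vec (enumL l) (j + s - ns hv 𝕂 l) else 0

/-- The hypercyclic vector, as a sequence. -/
def xs (𝕂 : Type) [RCLike 𝕂] (j : ℕ) : 𝕂 := ∑ l ∈ Finset.range (j + 1), blk hv 𝕂 0 l j

lemma blk_eq_zero_of_lt {s l j : ℕ} (h : j + s < l) : blk hv 𝕂 s l j = 0 := by
  have := le_ns (𝕂 := 𝕂) hv l
  rw [blk, if_neg (by omega)]

lemma xs_shift (s j : ℕ) (N : ℕ) (hN : j + s < N) :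
    xs hv 𝕂 (j + s) = ∑ l ∈ Finset.range N, blk hv 𝕂 s l j := by
  have h1 : ∀ l, blk hv 𝕂 0 l (j + s) = blk hv 𝕂 s l j := fun l => rfl
  simp only [xs, h1]
  apply Finset.sum_subset
  · intro l hl
    rw [Finset.mem_range] at hl ⊢
    omega
  · intro l _ hl
    rw [Finset.mem_range, not_lt] at hl
    exact blk_eq_zero_of_lt hv (by omega)

/-- The weighted `ℓ_1` norm of a far away block. -/
lemma blk_sum (s l : ℕ) (hs : s + thr hv 𝕂 l ≤ ns hv 𝕂 l) :
    ∑' j, ENNReal.ofReal (‖blk hv 𝕂 s l j‖ * D.v M j) ≤ ENNReal.ofReal ((1 / 2) ^ l) := by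
  obtain ⟨d, hd⟩ := Nat.exists_eq_add_of_le (show s ≤ ns hv 𝕂 l by omega)
  have hd2 : thr hv 𝕂 l ≤ d := by omega
  set F : Finset ℕ := (Finset.range (enumL l).length).image (fun i => i + d) with hF
  have hz : ∀ j ∉ F, ENNReal.ofReal (‖blk hv 𝕂 s l j‖ * D.v M j) = 0 := by
    intro j hj
    have : blk hv 𝕂 s l j = 0 := by
      rw [blk]
      split_ifs with h
      · apply vec_eq_zero
        by_contra hc
        apply hj
        rw [hF, Finset.mem_image]
        refine ⟨j + s - ns hv 𝕂 l, Finset.mem_range.2 (by omega), by omega⟩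
      · rfl
    simp [this]
  rw [tsum_eq_sum hz, hF, Finset.sum_image (fun a _ b _ h => by simpa using h)]
  have h1 : ∀ i, blk hv 𝕂 s l (i + d) = (vec (enumL l) i : 𝕂) := by
    intro i
    rw [blk, if_pos (by omega)]
    congr 1
    omega
  simp only [h1]
  rw [← ENNReal.ofReal_sum_of_nonneg (fun i _ => mul_nonneg (norm_nonneg _) (D.nonneg _ _))]
  apply ENNReal.ofReal_le_ofReal
  have hm0 : 0 ≤ mass 𝕂 l := Finset.sum_nonneg fun i _ => norm_nonneg _
  rcases hm0.eq_or_lt with hm | hm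
  · have h2 : ∀ i ∈ Finset.range (enumL l).length, ‖(vec (enumL l) i : 𝕂)‖ = 0 := by
      have := (Finset.sum_eq_zero_iff_of_nonneg
        (fun i (_ : i ∈ Finset.range (enumL l).length) =>
          norm_nonneg (vec (enumL l) i : 𝕂))).1 hm.symm
      exact this
    rw [Finset.sum_eq_zero (fun i hi => by rw [h2 i hi, zero_mul])]
    positivity
  · calc ∑ i ∈ Finset.range (enumL l).length, ‖(vec (enumL l) i : 𝕂)‖ * D.v M (i + d)
        ≤ ∑ i ∈ Finset.range (enumL l).length,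
            ‖(vec (enumL l) i : 𝕂)‖ * ((1 / 2) ^ l / mass 𝕂 l) := by
          apply Finset.sum_le_sum
          intro i _
          apply mul_le_mul_of_nonneg_left _ (norm_nonneg _)
          rw [le_div_iff₀ hm, mul_comm]
          exact thr_spec hv l (by omega)
      _ = mass 𝕂 l * ((1 / 2) ^ l / mass 𝕂 l) := by rw [← Finset.sum_mul]; rfl
      _ = (1 / 2) ^ l := by field_simp

/-- The tail after the `k`-th block. -/
lemma tail_sum (k : ℕ) :
    ∑' j, ENNReal.ofReal (‖xs hv 𝕂 (j + ns hv 𝕂 k) - vec (enumL k) j‖ * D.v M j)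
      ≤ ENNReal.ofReal ((1 / 2) ^ k) := by
  set s := ns hv 𝕂 k with hs
  have h1 : ∀ j, ENNReal.ofReal (‖xs hv 𝕂 (j + s) - vec (enumL k) j‖ * D.v M j)
      ≤ ∑' i, ENNReal.ofReal (‖blk hv 𝕂 s (k + 1 + i) j‖ * D.v M j) := by
    intro j
    have h2 : xs hv 𝕂 (j + s) = ∑ l ∈ Finset.range (k + 1 + (j + s + 1)), blk hv 𝕂 s l j :=
      xs_shift hv s j _ (by omega)
    rw [Finset.sum_range_add, Finset.sum_range_succ] at h2
    have h3 : ∑ l ∈ Finset.range k, blk hv 𝕂 s l j = 0 := by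
      apply Finset.sum_eq_zero
      intro l hl
      have := ns_lt (𝕂 := 𝕂) hv (Finset.mem_range.1 hl)
      rw [blk]
      split_ifs
      · exact vec_eq_zero (by omega)
      · rfl
    have h4 : blk hv 𝕂 s k j = vec (enumL k) j := by
      rw [blk, if_pos (by omega)]
      congr 1
      omega
    rw [h3, h4, zero_add] at h2
    rw [h2, add_sub_cancel_left]
    calc ENNReal.ofReal (‖∑ i ∈ Finset.range (j + s + 1), blk hv 𝕂 s (k + 1 + i) j‖ * D.v M j)
        ≤ ENNReal.ofReal (∑ i ∈ Finset.range (j + s + 1),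
            ‖blk hv 𝕂 s (k + 1 + i) j‖ * D.v M j) := by
          apply ENNReal.ofReal_le_ofReal
          rw [← Finset.sum_mul]
          exact mul_le_mul_of_nonneg_right (norm_sum_le _ _) (D.nonneg _ _)
      _ = ∑ i ∈ Finset.range (j + s + 1),
            ENNReal.ofReal (‖blk hv 𝕂 s (k + 1 + i) j‖ * D.v M j) :=
          ENNReal.ofReal_sum_of_nonneg (fun i _ => mul_nonneg (norm_nonneg _) (D.nonneg _ _))
      _ ≤ _ := ENNReal.sum_le_tsum _
  calc ∑' j, ENNReal.ofReal (‖xs hv 𝕂 (j + s) - vec (enumL k) j‖ * D.v M j)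
      ≤ ∑' j, ∑' i, ENNReal.ofReal (‖blk hv 𝕂 s (k + 1 + i) j‖ * D.v M j) :=
        ENNReal.tsum_le_tsum h1
    _ = ∑' i, ∑' j, ENNReal.ofReal (‖blk hv 𝕂 s (k + 1 + i) j‖ * D.v M j) :=
        ENNReal.tsum_comm
    _ ≤ ∑' i : ℕ, ENNReal.ofReal ((1 / 2) ^ (k + 1 + i)) := by
        apply ENNReal.tsum_le_tsum
        intro i
        apply blk_sum
        have := ns_lt (𝕂 := 𝕂) hv (show k < k + 1 + i by omega)
        omega
    _ = ENNReal.ofReal ((1 / 2) ^ k) := by
        have e1 : ∀ i : ℕ, ((1 : ℝ) / 2) ^ (k + 1 + i) = (1 / 2) ^ (k + 1) * (1 / 2) ^ i :=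
          fun i => pow_add _ _ _
        simp only [e1]
        rw [← ENNReal.ofReal_tsum_of_nonneg (fun i => by positivity)
          ((summable_geometric_of_lt_one (by norm_num) (by norm_num)).mul_left _), tsum_mul_left,
          tsum_geometric_of_lt_one (by norm_num) (by norm_num)]
        congr 1
        rw [pow_succ]; ring

end construct

/-- Small `ℓ_1` norm in extended sense gives membership and small norm. -/
lemma of_ofReal_tsum {m : ℕ} {u : ℕ → 𝕂} {ε : ℝ} (hε : 0 ≤ ε)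
    (h : ∑' j, ENNReal.ofReal (‖u j‖ * D.v m j) ≤ ENNReal.ofReal ε) :
    StepMem D.p (D.v m) u ∧ stepNorm D.p (D.v m) u ≤ ε := by
  have h0 : ∀ j, 0 ≤ ‖u j‖ * D.v m j := fun j => mul_nonneg (norm_nonneg _) (D.nonneg _ _)
  have hs : Summable fun j => ‖u j‖ * D.v m j := by
    have h1 : ∑' j, ENNReal.ofReal (‖u j‖ * D.v m j) ≠ ⊤ :=
      ne_top_of_le_ne_top ENNReal.ofReal_ne_top h
    have h2 := ENNReal.summable_toReal h1
    refine h2.congr fun j => ?_
    rw [ENNReal.toReal_ofReal (h0 j)]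
  have h3 : ∑' j, ‖u j‖ * D.v m j ≤ ε := by
    rw [← ENNReal.ofReal_tsum_of_nonneg h0 hs] at h
    exact (ENNReal.ofReal_le_ofReal_iff hε).1 h
  obtain ⟨h4, h5⟩ := of_summable D.hp (D.nonneg m) hs
  exact ⟨h4, h5.trans h3⟩

/-- Truncations converge. -/
lemma trunc_tendsto {m : ℕ} {y : ℕ → 𝕂} (hy : StepMem D.p (D.v m) y) :
    (∀ L, StepMem D.p (D.v m) (fun j => if j < L then 0 else y j)) ∧
    Tendsto (fun L => stepNorm D.p (D.v m) (fun j => if j < L then 0 else y j)) atTop (𝓝 0) := by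
  have hmem : ∀ L, StepMem D.p (D.v m) (fun j => if j < L then 0 else y j) := by
    intro L
    refine hy.mono D.hp (D.nonneg m) zero_le_one (fun j => ?_)
    rw [one_mul]
    apply mul_le_mul_of_nonneg_right _ (D.nonneg _ _)
    split_ifs
    · simp
    · exact le_rfl
  refine ⟨hmem, ?_⟩
  rcases D.hp with hp | hp
  · rw [hp] at hy ⊢
    rw [stepMem_zero_iff] at hy
    simp only [stepNorm_zero_eq]
    rw [Metric.tendsto_atTop]
    intro ε hε
    obtain ⟨N, hN⟩ := eventually_atTop.1 (hy.eventually (gt_mem_nhds (half_pos hε)))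
    refine ⟨N, fun L hL => ?_⟩
    have h0 : 0 ≤ ⨆ j, ‖(if j < L then 0 else y j : 𝕂)‖ * D.v m j :=
      Real.iSup_nonneg fun j => mul_nonneg (norm_nonneg _) (D.nonneg _ _)
    rw [Real.dist_eq, sub_zero, abs_of_nonneg h0]
    refine lt_of_le_of_lt (ciSup_le fun j => ?_) (half_lt_self hε)
    split_ifs with hj
    · rw [norm_zero, zero_mul]; exact (half_pos hε).le
    · exact (hN j (by omega)).le
  · rw [stepMem_pos_iff hp] at hy
    simp only [stepNorm_pos_eq hp]
    have h1 : Tendsto (fun L => ∑' j, (‖(if j < L then 0 else y j : 𝕂)‖ * D.v m j) ^ D.p)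
        atTop (𝓝 0) := by
      have h2 := tendsto_sum_nat_add (fun j => (‖y j‖ * D.v m j) ^ D.p)
      refine h2.congr fun L => ?_
      have hsum : Summable fun j => (‖(if j < L then 0 else y j : 𝕂)‖ * D.v m j) ^ D.p := by
        have := hmem L
        rwa [stepMem_pos_iff hp] at this
      rw [← hsum.sum_add_tsum_nat_add L]
      have e1 : ∑ j ∈ Finset.range L, (‖(if j < L then 0 else y j : 𝕂)‖ * D.v m j) ^ D.p = 0 := by
        apply Finset.sum_eq_zero
        intro j hj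
        rw [if_pos (Finset.mem_range.1 hj), norm_zero, zero_mul, Real.zero_rpow (by linarith)]
      rw [e1, zero_add]
      congr 1
      funext j
      rw [if_neg (by omega)]
    have h3 := h1.rpow_const (p := 1 / D.p) (Or.inr (by positivity))
    rwa [Real.zero_rpow (by positivity)] at h3

/-- Sequential hypercyclicity from a weight tending to zero. -/
lemma seqHypercyclic_of_tendsto {M : ℕ} (hv : Tendsto (D.v M) atTop (𝓝 0)) :
    D.SeqHypercyclic 𝕂 := by
  -- the vector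
  have hx : xs hv 𝕂 ∈ D.space 𝕂 := by
    refine ⟨M, (D.of_ofReal_tsum (ε := 2) (by norm_num) ?_).1⟩
    have h1 : ∀ j, ENNReal.ofReal (‖xs hv 𝕂 j‖ * D.v M j)
        ≤ ∑' i, ENNReal.ofReal (‖blk hv 𝕂 0 i j‖ * D.v M j) := by
      intro j
      calc ENNReal.ofReal (‖xs hv 𝕂 j‖ * D.v M j)
          ≤ ENNReal.ofReal (∑ i ∈ Finset.range (j + 1), ‖blk hv 𝕂 0 i j‖ * D.v M j) := by
            apply ENNReal.ofReal_le_ofReal
            rw [← Finset.sum_mul]
            exact mul_le_mul_of_nonneg_right (norm_sum_le _ _) (D.nonneg _ _)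
        _ = ∑ i ∈ Finset.range (j + 1), ENNReal.ofReal (‖blk hv 𝕂 0 i j‖ * D.v M j) :=
            ENNReal.ofReal_sum_of_nonneg (fun i _ => mul_nonneg (norm_nonneg _) (D.nonneg _ _))
        _ ≤ _ := ENNReal.sum_le_tsum _
    calc ∑' j, ENNReal.ofReal (‖xs hv 𝕂 j‖ * D.v M j)
        ≤ ∑' j, ∑' i, ENNReal.ofReal (‖blk hv 𝕂 0 i j‖ * D.v M j) := ENNReal.tsum_le_tsum h1
      _ = ∑' i, ∑' j, ENNReal.ofReal (‖blk hv 𝕂 0 i j‖ * D.v M j) := ENNReal.tsum_comm
      _ ≤ ∑' i : ℕ, ENNReal.ofReal ((1 / 2) ^ i) := by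
          apply ENNReal.tsum_le_tsum
          intro i
          apply blk_sum
          have := thr_le_ns (𝕂 := 𝕂) hv i
          omega
      _ = ENNReal.ofReal 2 := by
          rw [← ENNReal.ofReal_tsum_of_nonneg (fun i => by positivity)
            (summable_geometric_of_lt_one (by norm_num) (by norm_num)),
            tsum_geometric_of_lt_one (by norm_num) (by norm_num)]
          congr 1
          norm_num
  refine ⟨⟨xs hv 𝕂, hx⟩, fun y => ?_⟩
  obtain ⟨m', hm'⟩ := y.2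
  set m := max m' M with hm
  have hy : StepMem D.p (D.v m) y.1 := D.stepMem_mono (le_max_left _ _) hm'
  have hMm : ∀ j, D.v m j ≤ D.v M j := D.anti_le (le_max_right _ _)
  obtain ⟨htmem, htr⟩ := D.trunc_tendsto hy
  -- approximations
  set δ : ℕ → ℝ := fun i => 1 / (((i : ℝ) + 1) * (1 + ∑ j ∈ Finset.range i, D.v m j)) with hδ
  have hsum0 : ∀ i, 0 ≤ ∑ j ∈ Finset.range i, D.v m j :=
    fun i => Finset.sum_nonneg fun j _ => D.nonneg _ _
  have hδ0 : ∀ i, 0 < δ i := fun i => by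
    have := hsum0 i
    simp only [hδ]; positivity
  choose l hl1 hl2 using fun i => exists_vec y.1 i (hδ0 i)
  choose k hk1 hk2 using fun i => exists_enumL (l i) i
  refine ⟨fun i => ns hv 𝕂 (k i), ?_⟩
  let := D.topo 𝕂
  refine tendsto_nhds.2 ?_
  intro U hU hyU
  obtain ⟨q, hq, hball⟩ := hU y hyU
  obtain ⟨C', hC'⟩ := hq m
  set C := |C'| with hC
  have hC0 : 0 ≤ C := abs_nonneg _
  have hCQ : ∀ x : D.E 𝕂, StepMem D.p (D.v m) x.1 → q x ≤ C * stepNorm D.p (D.v m) x.1 := by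
    intro x hx
    exact (hC' x hx).trans (mul_le_mul_of_nonneg_right (le_abs_self _)
      (stepNorm_nonneg D.hp (D.nonneg m) hx))
  -- the bound
  have hbound : ∀ i, q ((D.B 𝕂)^[ns hv 𝕂 (k i)] ⟨xs hv 𝕂, hx⟩ - y)
      ≤ C * (1 / 2) ^ i + C * (1 / ((i : ℝ) + 1))
        + C * stepNorm D.p (D.v m) (fun j => if j < i then 0 else y.1 j) := by
    intro i
    -- first piece
    have a1 : StepMem D.p (D.v m) (fun j => xs hv 𝕂 (j + ns hv 𝕂 (k i)) - vec (l i) j) ∧
        stepNorm D.p (D.v m) (fun j => xs hv 𝕂 (j + ns hv 𝕂 (k i)) - vec (l i) j)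
          ≤ (1 / 2) ^ i := by
      apply D.of_ofReal_tsum (by positivity)
      calc ∑' j, ENNReal.ofReal (‖xs hv 𝕂 (j + ns hv 𝕂 (k i)) - vec (l i) j‖ * D.v m j)
          ≤ ∑' j, ENNReal.ofReal
              (‖xs hv 𝕂 (j + ns hv 𝕂 (k i)) - vec (enumL (k i)) j‖ * D.v M j) := by
            apply ENNReal.tsum_le_tsum
            intro j
            rw [hk2]
            exact ENNReal.ofReal_le_ofReal (mul_le_mul_of_nonneg_left (hMm j) (norm_nonneg _))
        _ ≤ ENNReal.ofReal ((1 / 2) ^ (k i)) := tail_sum hv (k i)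
        _ ≤ ENNReal.ofReal ((1 / 2) ^ i) := by
            apply ENNReal.ofReal_le_ofReal
            exact pow_le_pow_of_le_one (by norm_num) (by norm_num) (hk1 i)
    -- second piece
    have a2 : StepMem D.p (D.v m) (fun j => vec (l i) j - (if j < i then y.1 j else 0)) ∧
        stepNorm D.p (D.v m) (fun j => vec (l i) j - (if j < i then y.1 j else 0))
          ≤ 1 / ((i : ℝ) + 1) := by
      apply D.of_ofReal_tsum (by positivity)
      rw [tsum_eq_sum (s := Finset.range i)]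
      · rw [← ENNReal.ofReal_sum_of_nonneg
          (fun j _ => mul_nonneg (norm_nonneg _) (D.nonneg _ _))]
        apply ENNReal.ofReal_le_ofReal
        calc ∑ j ∈ Finset.range i, ‖vec (l i) j - (if j < i then y.1 j else 0)‖ * D.v m j
            ≤ ∑ j ∈ Finset.range i, δ i * D.v m j := by
              apply Finset.sum_le_sum
              intro j hj
              rw [if_pos (Finset.mem_range.1 hj)]
              exact mul_le_mul_of_nonneg_right (hl2 i j (Finset.mem_range.1 hj)).le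
                (D.nonneg _ _)
          _ = δ i * ∑ j ∈ Finset.range i, D.v m j := by rw [← Finset.mul_sum]
          _ ≤ δ i * (1 + ∑ j ∈ Finset.range i, D.v m j) :=
              mul_le_mul_of_nonneg_left (by linarith) (hδ0 i).le
          _ = 1 / ((i : ℝ) + 1) := by
              have := hsum0 i
              simp only [hδ]
              field_simp
      · intro j hj
        rw [Finset.mem_range, not_lt] at hj
        rw [if_neg (by omega), vec_eq_zero (by rw [hl1]; exact hj)]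
        simp
    -- third piece
    have a3 := htmem i
    let u1 : D.E 𝕂 := ⟨_, m, a1.1⟩
    let u2 : D.E 𝕂 := ⟨_, m, a2.1⟩
    let u3 : D.E 𝕂 := ⟨_, m, a3⟩
    have hdec : (D.B 𝕂)^[ns hv 𝕂 (k i)] ⟨xs hv 𝕂, hx⟩ - y = u1 + u2 - u3 := by
      apply Subtype.ext
      funext j
      have e1 : ((D.B 𝕂)^[ns hv 𝕂 (k i)] ⟨xs hv 𝕂, hx⟩).1 j = xs hv 𝕂 (j + ns hv 𝕂 (k i)) :=
        D.B_iterate _ _ _
      show ((D.B 𝕂)^[ns hv 𝕂 (k i)] ⟨xs hv 𝕂, hx⟩).1 j - y.1 j
        = ((xs hv 𝕂 (j + ns hv 𝕂 (k i)) - vec (l i) j)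
          + (vec (l i) j - (if j < i then y.1 j else 0))) - (if j < i then 0 else y.1 j)
      rw [e1]
      split_ifs <;> ring
    rw [hdec]
    calc q (u1 + u2 - u3) ≤ q (u1 + u2) + q u3 := map_sub_le_add q _ _
      _ ≤ q u1 + q u2 + q u3 := by
          have := map_add_le_add q u1 u2
          linarith
      _ ≤ _ := by
          have b1 := (hCQ u1 a1.1).trans (mul_le_mul_of_nonneg_left a1.2 hC0)
          have b2 := (hCQ u2 a2.1).trans (mul_le_mul_of_nonneg_left a2.2 hC0)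
          have b3 := hCQ u3 a3
          linarith
  have hlim : Tendsto (fun i : ℕ => C * (1 / 2) ^ i + C * (1 / ((i : ℝ) + 1))
        + C * stepNorm D.p (D.v m) (fun j => if j < i then 0 else y.1 j)) atTop (𝓝 0) := by
    have l1 : Tendsto (fun i : ℕ => C * ((1 : ℝ) / 2) ^ i) atTop (𝓝 (C * 0)) :=
      (tendsto_pow_atTop_nhds_zero_of_lt_one (by norm_num) (by norm_num)).const_mul C
    have l2 : Tendsto (fun i : ℕ => C * (1 / ((i : ℝ) + 1))) atTop (𝓝 (C * 0)) :=
      tendsto_one_div_add_atTop_nhds_zero_nat.const_mul C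
    have l3 := htr.const_mul C
    have := (l1.add l2).add l3
    simpa using this
  filter_upwards [hlim.eventually (gt_mem_nhds one_pos)] with i hi
  exact hball _ ((hbound i).trans_lt hi)

/-- Nuclear and topologically ergodic implies sequentially hypercyclic. -/
theorem main (hnuc : D.Nuclear 𝕂) (herg : D.TopErgodic 𝕂) : D.SeqHypercyclic 𝕂 := by
  obtain ⟨n, A, hA⟩ := D.exists_bounded herg
  obtain ⟨M, _, hM⟩ := D.ratio_tendsto hnuc n
  have hv : Tendsto (D.v M) atTop (𝓝 0) := by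
    have h1 := hM.mul_const A
    rw [zero_mul] at h1
    refine squeeze_zero (fun j => D.nonneg _ _) (fun j => ?_) h1
    calc D.v M j = D.v M j / D.v n j * D.v n j := by
          rw [div_mul_cancel₀ _ (D.pos n j).ne']
      _ ≤ _ := mul_le_mul_of_nonneg_left (hA j) (div_nonneg (D.nonneg _ _) (D.nonneg _ _))
  exact D.seqHypercyclic_of_tendsto hv

end Data

end

end Pool.Agent.V11105.Coechelon
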