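import Pool.Agent.V11105.CoechelonTwo

/-!
Köthe coechelon spaces: nuclearity forces quotients of weights to tend to zero.
-/

open Filter Set Topology

namespace Pool.Agent.V11105.Coechelon

noncomputable section

variable {𝕂 : Type} [RCLike 𝕂]

namespace Data

variable (D : Data)

/-- Domination of a continuous seminorm by a summable family of functionals. -/
lemma nuclear_dom (h : D.Nuclear 𝕂) {P : Seminorm 𝕂 (D.E 𝕂)} (hP : D.Cont P) :
    ∃ Q : Seminorm 𝕂 (D.E 𝕂), D.Cont Q ∧ ∃ (c : ℕ → ℝ) (f : ℕ → (D.E 𝕂 →ₗ[𝕂] 𝕂)),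
      (∀ n, 0 ≤ c n) ∧ Summable c ∧ (∀ n x, ‖f n x‖ ≤ Q x) ∧
      ∀ x, P x ≤ ∑' n, c n * ‖f n x‖ := by
  obtain ⟨Q, hQ, F, i1, i2, j, ⟨_, hj, _⟩, c, f, b, hc, hf, hb, hsum⟩ := h P hP
  refine ⟨Q, hQ, fun n => ‖c n‖, f, fun n => norm_nonneg _, hc, hf, fun x => ?_⟩
  have hs : Summable fun n => ‖c n‖ * ‖f n x‖ :=
    Summable.of_nonneg_of_le (fun n => mul_nonneg (norm_nonneg _) (norm_nonneg _))
      (fun n => mul_le_mul_of_nonneg_left (hf n x) (norm_nonneg _)) (hc.mul_right (Q x))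
  rw [← hj x, ← (hsum x).tsum_eq]
  have hle : ∀ n, ‖(c n * f n x) • b n‖ ≤ ‖c n‖ * ‖f n x‖ := by
    intro n
    rw [norm_smul, norm_mul]
    calc ‖c n‖ * ‖f n x‖ * ‖b n‖ ≤ ‖c n‖ * ‖f n x‖ * 1 :=
          mul_le_mul_of_nonneg_left (hb n) (mul_nonneg (norm_nonneg _) (norm_nonneg _))
      _ = _ := mul_one _
  have hs2 : Summable fun n => ‖(c n * f n x) • b n‖ :=
    Summable.of_nonneg_of_le (fun n => norm_nonneg _) hle hs
  exact (norm_tsum_le_tsum_norm hs2).trans (Summable.tsum_le_tsum hle hs2 hs)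

/-- Finitely supported vectors. -/
def fin (F : Finset ℕ) (g : ℕ → 𝕂) : D.E 𝕂 :=
  ⟨fun i => if i ∈ F then g i else 0, ⟨0, (of_summable D.hp (D.nonneg 0)
    (summable_of_ne_finset_zero (s := F) (fun j hj => by simp [hj]))).1⟩⟩

lemma fin_apply (F : Finset ℕ) (g : ℕ → 𝕂) (i : ℕ) :
    (D.fin F g).1 i = if i ∈ F then g i else 0 := rfl

lemma fin_summable (F : Finset ℕ) (g : ℕ → 𝕂) (a : ℕ → ℝ) :
    Summable fun j => ‖(D.fin F g).1 j‖ * a j :=
  summable_of_ne_finset_zero (s := F) (fun j hj => by simp [fin_apply, hj])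

lemma fin_tsum (F : Finset ℕ) (g : ℕ → 𝕂) (a : ℕ → ℝ) :
    ∑' j, ‖(D.fin F g).1 j‖ * a j = ∑ j ∈ F, ‖g j‖ * a j := by
  rw [tsum_eq_sum (s := F) (fun j hj => by simp [fin_apply, hj])]
  apply Finset.sum_congr rfl
  intro j hj
  rw [fin_apply, if_pos hj]

lemma fin_stepMem (F : Finset ℕ) (g : ℕ → 𝕂) (m : ℕ) : StepMem D.p (D.v m) (D.fin F g).1 :=
  (of_summable D.hp (D.nonneg m) (D.fin_summable F g _)).1

/-- Coordinates as linear functionals. -/
def ev (i : ℕ) : D.E 𝕂 →ₗ[𝕂] 𝕂 where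
  toFun x := x.1 i
  map_add' _ _ := rfl
  map_smul' _ _ := rfl

lemma fin_eq_sum (F : Finset ℕ) (g : ℕ → 𝕂) :
    D.fin F g = ∑ j ∈ F, g j • D.fin {j} (fun _ => (1 : 𝕂)) := by
  apply Subtype.ext
  funext i
  show D.ev i (D.fin F g) = D.ev i (∑ j ∈ F, g j • D.fin {j} (fun _ => (1 : 𝕂)))
  rw [map_sum]
  have : ∀ j ∈ F, D.ev i (g j • D.fin {j} (fun _ => (1 : 𝕂)))
      = if i = j then g i else 0 := by
    intro j _
    show g j * (if i ∈ ({j} : Finset ℕ) then (1 : 𝕂) else 0) = _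
    by_cases hij : i = j
    · subst hij; simp
    · simp [hij]
  rw [Finset.sum_congr rfl this, Finset.sum_ite_eq]
  rfl

/-- norm of a vector with coordinates at most `1 / v m j` on a finite set -/
lemma fin_norm_le (m : ℕ) (F : Finset ℕ) (g : ℕ → 𝕂) (hg : ∀ j ∈ F, ‖g j‖ * D.v m j ≤ 1) :
    stepNorm D.p (D.v m) (D.fin F g).1 ≤ if D.p = 0 then 1 else (F.card : ℝ) ^ (1 / D.p) := by
  have h1 : ∀ j, ‖(D.fin F g).1 j‖ * D.v m j ≤ if j ∈ F then 1 else 0 := by
    intro j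
    rw [fin_apply]
    by_cases hj : j ∈ F
    · simp only [hj, if_true]; exact hg j hj
    · simp [hj]
  have h0 : ∀ j, 0 ≤ ‖(D.fin F g).1 j‖ * D.v m j :=
    fun j => mul_nonneg (norm_nonneg _) (D.nonneg _ _)
  rcases D.hp with hp | hp
  · rw [hp, stepNorm_zero_eq, if_pos rfl]
    apply ciSup_le
    intro j
    refine (h1 j).trans ?_
    split_ifs <;> norm_num
  · have hp0 : D.p ≠ 0 := by linarith
    rw [stepNorm_pos_eq hp, if_neg hp0]
    apply Real.rpow_le_rpow (tsum_nonneg fun j => Real.rpow_nonneg (h0 j) _) _ (by positivity)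
    rw [tsum_eq_sum (s := F)]
    · calc ∑ j ∈ F, (‖(D.fin F g).1 j‖ * D.v m j) ^ D.p ≤ ∑ _j ∈ F, (1 : ℝ) := by
            apply Finset.sum_le_sum
            intro j hj
            apply Real.rpow_le_one (h0 j) _ (by linarith)
            have := h1 j
            rwa [if_pos hj] at this
        _ = F.card := by simp
    · intro j hj
      rw [fin_apply, if_neg hj]
      simp [Real.zero_rpow hp0]

lemma key_ne_one (h : D.Nuclear 𝕂) (hp1 : D.p ≠ 1) :
    ∃ κ > 0, ∀ m, ∀ w, D.Dominated w → ∃ K : ℝ, ∀ (F : Finset ℕ) (ε : ℝ), 0 ≤ ε →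
      (∀ j ∈ F, ε * D.v m j ≤ w j) → ε * (F.card : ℝ) ^ (κ : ℝ) ≤ K := by
  set κ : ℝ := if D.p = 0 then 1 else 1 - 1 / D.p with hκ
  have hκ0 : 0 < κ := by
    rw [hκ]
    split_ifs with h0
    · norm_num
    · have h1 : 1 < D.p := by
        rcases D.hp with h2 | h2
        · exact absurd h2 h0
        · exact lt_of_le_of_ne h2 (Ne.symm hp1)
      have : 1 / D.p < 1 := by rw [div_lt_one (by linarith)]; exact h1
      linarith
  refine ⟨κ, hκ0, fun m w hw => ?_⟩
  obtain ⟨Q, hQ, c, f, hc0, hc, hf, hdom⟩ := D.nuclear_dom h (supSemi_cont (𝕂 := 𝕂) hw)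
  obtain ⟨C', hC'⟩ := hQ m
  set C := |C'| with hC
  have hCQ : ∀ x : D.E 𝕂, StepMem D.p (D.v m) x.1 → Q x ≤ C * stepNorm D.p (D.v m) x.1 := by
    intro x hx
    exact (hC' x hx).trans (mul_le_mul_of_nonneg_right (le_abs_self _)
      (stepNorm_nonneg D.hp (D.nonneg m) hx))
  set Λ := ∑' n, c n with hΛ
  have hΛ0 : 0 ≤ Λ := tsum_nonneg hc0
  refine ⟨Λ * C, fun F ε hε hF => ?_⟩
  rcases F.eq_empty_or_nonempty with rfl | hne
  · rw [Finset.card_empty, Nat.cast_zero, Real.zero_rpow hκ0.ne', mul_zero]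
    exact mul_nonneg hΛ0 (abs_nonneg _)
  set R : ℝ := if D.p = 0 then 1 else (F.card : ℝ) ^ (1 / D.p) with hR
  have hcard : (0 : ℝ) < F.card := by exact_mod_cast hne.card_pos
  have hR0 : 0 < R := by
    rw [hR]; split_ifs
    · norm_num
    · exact Real.rpow_pos_of_pos hcard _
  -- the basis vectors
  let u : ℕ → D.E 𝕂 := fun j => D.fin {j} (fun i => ((D.v m i)⁻¹ : ℝ))
  have hs : ∀ x : D.E 𝕂, Summable fun n => c n * ‖f n x‖ := fun x =>
    Summable.of_nonneg_of_le (fun n => mul_nonneg (hc0 n) (norm_nonneg _))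
      (fun n => mul_le_mul_of_nonneg_left (hf n x) (hc0 n)) (hc.mul_right (Q x))
  -- lower bound
  have h1 : ∀ j ∈ F, ε ≤ ∑' n, c n * ‖f n (u j)‖ := by
    intro j hj
    refine le_trans ?_ (hdom (u j))
    refine le_trans ?_ (supSemi_coord hw (u j) j)
    rw [fin_apply, if_pos (Finset.mem_singleton_self j), RCLike.norm_ofReal,
      abs_of_pos (inv_pos.2 (D.pos m j))]
    have := hF j hj
    calc ε = (D.v m j)⁻¹ * (ε * D.v m j) := by
          field_simp [(D.pos m j).ne']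
      _ ≤ _ := mul_le_mul_of_nonneg_left this (inv_pos.2 (D.pos m j)).le
  -- upper bound
  have h2 : ∀ n, ∑ j ∈ F, ‖f n (u j)‖ ≤ C * R := by
    intro n
    let θ : ℕ → 𝕂 := fun j => (starRingEnd 𝕂) (f n (u j)) * ((‖f n (u j)‖⁻¹ : ℝ) : 𝕂)
    have hθ : ∀ j, θ j * f n (u j) = (‖f n (u j)‖ : ℝ) := by
      intro j
      by_cases hz : f n (u j) = 0
      · simp [θ, hz]
      · have hz' : ‖f n (u j)‖ ≠ 0 := by simpa using hz
        calc θ j * f n (u j) = ((starRingEnd 𝕂) (f n (u j)) * f n (u j))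
              * ((‖f n (u j)‖⁻¹ : ℝ) : 𝕂) := by simp only [θ]; ring
          _ = ((‖f n (u j)‖ ^ 2 : ℝ) : 𝕂) * ((‖f n (u j)‖⁻¹ : ℝ) : 𝕂) := by
              rw [RCLike.conj_mul]; push_cast; ring
          _ = _ := by
              rw [← RCLike.ofReal_mul]
              congr 1
              field_simp
    have hθ1 : ∀ j, ‖θ j‖ ≤ 1 := by
      intro j
      simp only [θ]
      rw [norm_mul, RCLike.norm_conj, RCLike.norm_ofReal, abs_of_nonneg (inv_nonneg.2 (norm_nonneg _))]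
      by_cases hz : ‖f n (u j)‖ = 0
      · rw [hz]; simp
      · rw [mul_inv_cancel₀ hz]
    let x : D.E 𝕂 := D.fin F (fun j => θ j * ((D.v m j)⁻¹ : ℝ))
    have hx : x = ∑ j ∈ F, θ j • u j := by
      rw [show x = D.fin F (fun j => θ j * ((D.v m j)⁻¹ : ℝ)) from rfl, fin_eq_sum]
      apply Finset.sum_congr rfl
      intro j _
      rw [mul_smul]
      congr 1
      show _ = D.fin {j} (fun i => (((D.v m i)⁻¹ : ℝ) : 𝕂))
      rw [D.fin_eq_sum {j} (fun i => (((D.v m i)⁻¹ : ℝ) : 𝕂)), Finset.sum_singleton]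
    have hfx : f n x = ((∑ j ∈ F, ‖f n (u j)‖ : ℝ) : 𝕂) := by
      rw [hx, map_sum]
      push_cast
      apply Finset.sum_congr rfl
      intro j _
      rw [map_smul, smul_eq_mul, hθ]
    have h3 : ∑ j ∈ F, ‖f n (u j)‖ = ‖f n x‖ := by
      rw [hfx, RCLike.norm_ofReal, abs_of_nonneg (Finset.sum_nonneg fun j _ => norm_nonneg _)]
    rw [h3]
    calc ‖f n x‖ ≤ Q x := hf n x
      _ ≤ C * stepNorm D.p (D.v m) x.1 := hCQ x (D.fin_stepMem _ _ m)
      _ ≤ C * R := by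
          apply mul_le_mul_of_nonneg_left _ (abs_nonneg _)
          apply D.fin_norm_le
          intro j _
          rw [norm_mul, RCLike.norm_ofReal, abs_of_pos (inv_pos.2 (D.pos m j)), mul_assoc,
            inv_mul_cancel₀ (D.pos m j).ne', mul_one]
          exact hθ1 j
  have h3 : (F.card : ℝ) * ε ≤ Λ * (C * R) := by
    calc (F.card : ℝ) * ε = ∑ _j ∈ F, ε := by simp
      _ ≤ ∑ j ∈ F, ∑' n, c n * ‖f n (u j)‖ := Finset.sum_le_sum h1
      _ = ∑' n, ∑ j ∈ F, c n * ‖f n (u j)‖ := by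
          rw [Summable.tsum_finsetSum fun j _ => hs (u j)]
      _ ≤ ∑' n, c n * (C * R) := by
          apply Summable.tsum_le_tsum _ (summable_sum fun j _ => hs (u j)) (hc.mul_right _)
          intro n
          rw [← Finset.mul_sum]
          exact mul_le_mul_of_nonneg_left (h2 n) (hc0 n)
      _ = Λ * (C * R) := tsum_mul_right
  have h4 : (F.card : ℝ) ^ κ * R = F.card := by
    rw [hκ, hR]
    split_ifs with h0
    · rw [Real.rpow_one, mul_one]
    · rw [← Real.rpow_add hcard]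
      simp
  have h5 : ε * (F.card : ℝ) ^ κ * R ≤ Λ * C * R := by
    calc ε * (F.card : ℝ) ^ κ * R = (F.card : ℝ) * ε := by rw [mul_assoc, h4]; ring
      _ ≤ Λ * (C * R) := h3
      _ = Λ * C * R := by ring
  exact le_of_mul_le_mul_right h5 hR0

lemma key_one (h : D.Nuclear 𝕂) (hp1 : D.p = 1) :
    ∃ κ > 0, ∀ m, ∀ w, D.Dominated w → ∃ K : ℝ, ∀ (F : Finset ℕ) (ε : ℝ), 0 ≤ ε →
      (∀ j ∈ F, ε * D.v m j ≤ w j) → ε * (F.card : ℝ) ^ (κ : ℝ) ≤ K := by
  refine ⟨1 / 2, by norm_num, fun m w hw => ?_⟩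
  obtain ⟨Q, hQ, c, f, hc0, hc, hf, hdom⟩ := D.nuclear_dom h (sumSemi_cont (𝕂 := 𝕂) hw hp1)
  obtain ⟨C', hC'⟩ := hQ m
  set C := |C'| with hC
  have hC0 : 0 ≤ C := abs_nonneg _
  have hCQ : ∀ x : D.E 𝕂, StepMem D.p (D.v m) x.1 → Q x ≤ C * stepNorm D.p (D.v m) x.1 := by
    intro x hx
    exact (hC' x hx).trans (mul_le_mul_of_nonneg_right (le_abs_self _)
      (stepNorm_nonneg D.hp (D.nonneg m) hx))
  set Λ := ∑' n, c n with hΛ
  have hΛ0 : 0 ≤ Λ := tsum_nonneg hc0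
  refine ⟨Λ * (1 + C ^ 2) / 2, fun F ε hε hF => ?_⟩
  rcases F.eq_empty_or_nonempty with rfl | hne
  · rw [Finset.card_empty, Nat.cast_zero, Real.zero_rpow (by norm_num), mul_zero]
    positivity
  have hcard : (0 : ℝ) < F.card := by exact_mod_cast hne.card_pos
  let u : ℕ → D.E 𝕂 := fun j => D.fin {j} (fun i => ((D.v m i)⁻¹ : ℝ))
  set Φ : D.E 𝕂 → ℝ := fun x => ∑' n, c n * ‖f n x‖ ^ 2 with hΦ
  have hs : ∀ x : D.E 𝕂, Summable fun n => c n * ‖f n x‖ := fun x =>
    Summable.of_nonneg_of_le (fun n => mul_nonneg (hc0 n) (norm_nonneg _))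
      (fun n => mul_le_mul_of_nonneg_left (hf n x) (hc0 n)) (hc.mul_right (Q x))
  have hs2 : ∀ x : D.E 𝕂, Summable fun n => c n * ‖f n x‖ ^ 2 := fun x =>
    Summable.of_nonneg_of_le (fun n => mul_nonneg (hc0 n) (sq_nonneg _))
      (fun n => mul_le_mul_of_nonneg_left (pow_le_pow_left₀ (norm_nonneg _) (hf n x) 2) (hc0 n))
      (hc.mul_right (Q x ^ 2))
  have hpar : ∀ x y : D.E 𝕂, Φ (x + y) + Φ (x - y) = 2 * Φ x + 2 * Φ y := by
    intro x y
    simp only [hΦ]
    rw [← (hs2 _).tsum_add (hs2 _), ← tsum_mul_left, ← tsum_mul_left,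
      ← ((hs2 x).mul_left 2).tsum_add ((hs2 y).mul_left 2)]
    congr 1
    funext n
    rw [map_add, map_sub]
    have := parallelogram_law_with_norm 𝕂 (f n x) (f n y)
    have h2 : ‖f n x + f n y‖ ^ 2 + ‖f n x - f n y‖ ^ 2 = 2 * (‖f n x‖ ^ 2 + ‖f n y‖ ^ 2) := by
      nlinarith
    rw [← mul_add, h2]
    ring
  have hu : ∀ j, Φ (u j) ≤ Λ * C ^ 2 := by
    intro j
    have h1 : ∀ n, ‖f n (u j)‖ ≤ C := by
      intro n
      calc ‖f n (u j)‖ ≤ Q (u j) := hf n _
        _ ≤ C * stepNorm D.p (D.v m) (u j).1 := hCQ _ (D.fin_stepMem _ _ m)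
        _ ≤ C * (if D.p = 0 then 1 else ((({j} : Finset ℕ)).card : ℝ) ^ (1 / D.p)) := by
            apply mul_le_mul_of_nonneg_left _ hC0
            apply D.fin_norm_le
            intro i _
            rw [RCLike.norm_ofReal, abs_of_pos (inv_pos.2 (D.pos m i)),
              inv_mul_cancel₀ (D.pos m i).ne']
        _ = C := by simp
    calc Φ (u j) ≤ ∑' n, c n * C ^ 2 := by
          apply Summable.tsum_le_tsum _ (hs2 _) (hc.mul_right _)
          intro n
          exact mul_le_mul_of_nonneg_left (pow_le_pow_left₀ (norm_nonneg _) (h1 n) 2) (hc0 n)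
      _ = Λ * C ^ 2 := tsum_mul_right
  -- choice of signs
  have hsign : ∀ F : Finset ℕ, ∃ θ : ℕ → 𝕂, (∀ j, ‖θ j‖ = 1) ∧
      Φ (∑ j ∈ F, θ j • u j) ≤ F.card * (Λ * C ^ 2) := by
    intro F
    induction F using Finset.induction_on with
    | empty => exact ⟨fun _ => 1, by simp, by simp [hΦ]⟩
    | insert a F ha ih =>
      obtain ⟨θ, hθ, hle⟩ := ih
      set x := ∑ j ∈ F, θ j • u j with hx
      have hp := hpar x (u a)
      have h1 : Φ (x + u a) ≤ Φ x + Φ (u a) ∨ Φ (x - u a) ≤ Φ x + Φ (u a) := by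
        by_contra hcon
        simp only [not_or, not_le] at hcon
        linarith [hcon.1, hcon.2]
      have h2 : ∀ s : 𝕂, ∑ j ∈ insert a F, (Function.update θ a s) j • u j = x + s • u a := by
        intro s
        rw [Finset.sum_insert ha, Function.update_self, add_comm, hx]
        congr 1
        apply Finset.sum_congr rfl
        intro j hj
        rw [Function.update_of_ne (by rintro rfl; exact ha hj)]
      have h3 : Φ x + Φ (u a) ≤ ((insert a F).card : ℝ) * (Λ * C ^ 2) := by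
        rw [Finset.card_insert_of_notMem ha]
        push_cast
        have := hu a
        linarith
      have hup : ∀ s : 𝕂, ‖s‖ = 1 → ∀ j, ‖Function.update θ a s j‖ = 1 := by
        intro s hs j
        by_cases hja : j = a
        · subst hja; simpa using hs
        · rw [Function.update_of_ne hja]; exact hθ j
      rcases h1 with h1 | h1
      · refine ⟨Function.update θ a 1, hup 1 (by simp), ?_⟩
        rw [h2, one_smul]
        exact h1.trans h3
      · refine ⟨Function.update θ a (-1), hup (-1) (by simp), ?_⟩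
        have e3 : x + (-1 : 𝕂) • u a = x - u a := by
          apply Subtype.ext
          funext i
          show x.1 i + (-1 : 𝕂) * (u a).1 i = x.1 i - (u a).1 i
          ring
        rw [h2, e3]
        exact h1.trans h3
  obtain ⟨θ, hθ, hΦx⟩ := hsign F
  set x := ∑ j ∈ F, θ j • u j with hx
  have hx' : x = D.fin F (fun j => θ j * ((D.v m j)⁻¹ : ℝ)) := by
    rw [hx, fin_eq_sum]
    apply Finset.sum_congr rfl
    intro j _
    rw [mul_smul]
    congr 1
    show D.fin {j} (fun i => (((D.v m i)⁻¹ : ℝ) : 𝕂)) = _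
    rw [D.fin_eq_sum {j} (fun i => (((D.v m i)⁻¹ : ℝ) : 𝕂)), Finset.sum_singleton]
  have hlow : ε * F.card ≤ sumSemi hw hp1 x := by
    rw [sumSemi_apply, hx', fin_tsum]
    calc ε * F.card = ∑ _j ∈ F, ε := by simp [mul_comm]
      _ ≤ _ := by
        apply Finset.sum_le_sum
        intro j hj
        rw [norm_mul, hθ, one_mul, RCLike.norm_ofReal, abs_of_pos (inv_pos.2 (D.pos m j))]
        have := hF j hj
        calc ε = (D.v m j)⁻¹ * (ε * D.v m j) := by
              field_simp [(D.pos m j).ne']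
          _ ≤ _ := mul_le_mul_of_nonneg_left this (inv_pos.2 (D.pos m j)).le
  set t : ℝ := (F.card : ℝ) ^ (1 / 2 : ℝ) with ht
  have ht0 : 0 < t := Real.rpow_pos_of_pos hcard _
  have htt : t * t = F.card := by
    rw [ht, ← Real.rpow_add hcard]; norm_num
  have hup : sumSemi hw hp1 x ≤ (Λ * t + Φ x / t) / 2 := by
    calc sumSemi hw hp1 x ≤ ∑' n, c n * ‖f n x‖ := hdom x
      _ ≤ ∑' n, (c n * t / 2 + c n * ‖f n x‖ ^ 2 / (2 * t)) := by
          apply Summable.tsum_le_tsum _ (hs x)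
            (((hc.mul_right t).div_const 2).add ((hs2 x).div_const (2 * t)))
          intro n
          have h1 : ‖f n x‖ ≤ t / 2 + ‖f n x‖ ^ 2 / (2 * t) := by
            rw [div_add_div _ _ (by norm_num) (by positivity), le_div_iff₀ (by positivity)]
            nlinarith [sq_nonneg (‖f n x‖ - t)]
          calc c n * ‖f n x‖ ≤ c n * (t / 2 + ‖f n x‖ ^ 2 / (2 * t)) :=
                mul_le_mul_of_nonneg_left h1 (hc0 n)
            _ = _ := by ring
      _ = (Λ * t + Φ x / t) / 2 := by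
          rw [((hc.mul_right t).div_const 2).tsum_add ((hs2 x).div_const (2 * t)),
            tsum_div_const, tsum_div_const, tsum_mul_right]
          have e2 : ∑' n, c n * ‖f n x‖ ^ 2 = Φ x := rfl
          rw [e2, ← hΛ]
          field_simp
  have hfin : ε * t * t ≤ Λ * (1 + C ^ 2) / 2 * t := by
    have h1 : Φ x / t ≤ Λ * C ^ 2 * t := by
      rw [div_le_iff₀ ht0]
      calc Φ x ≤ F.card * (Λ * C ^ 2) := hΦx
        _ = Λ * C ^ 2 * t * t := by rw [← htt]; ring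
    calc ε * t * t = ε * F.card := by rw [mul_assoc, htt]
      _ ≤ _ := hlow
      _ ≤ _ := hup
      _ ≤ (Λ * t + Λ * C ^ 2 * t) / 2 := by linarith
      _ = _ := by ring
  exact le_of_mul_le_mul_right hfin ht0

lemma key' (h : D.Nuclear 𝕂) :
    ∃ κ > 0, ∀ m, ∀ w, D.Dominated w → ∃ K : ℝ, ∀ (F : Finset ℕ) (ε : ℝ), 0 ≤ ε →
      (∀ j ∈ F, ε * D.v m j ≤ w j) → ε * (F.card : ℝ) ^ (κ : ℝ) ≤ K := by
  by_cases hp : D.p = 1
  · exact D.key_one h hp
  · exact D.key_ne_one h hp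

/-- Nuclearity forces quotients of weights to tend to zero. -/
lemma ratio_tendsto (h : D.Nuclear 𝕂) (m : ℕ) :
    ∃ n ≥ m, Tendsto (fun j => D.v n j / D.v m j) atTop (𝓝 0) := by
  by_contra hcon
  simp only [not_exists, not_and] at hcon
  obtain ⟨κ, hκ, hkey⟩ := D.key' h
  have hratio : ∀ i, ∃ ε : ℝ, 0 < ε ∧ ε ≤ 1 ∧ {j | ε * D.v m j ≤ D.v (m + i) j}.Infinite := by
    intro i
    have h1 := hcon (m + i) (by omega)
    rw [Metric.tendsto_atTop] at h1
    simp only [not_forall, not_exists] at h1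
    obtain ⟨ε, hε, h1⟩ := h1
    refine ⟨min ε 1, lt_min hε one_pos, min_le_right _ _, ?_⟩
    rw [← Nat.frequently_atTop_iff_infinite, Filter.frequently_atTop]
    intro N
    obtain ⟨j, hj, hj2⟩ := h1 N
    refine ⟨j, hj, ?_⟩
    rw [Real.dist_eq, sub_zero, abs_of_nonneg (div_nonneg (D.nonneg _ _) (D.nonneg _ _)),
      not_lt, le_div_iff₀ (D.pos m j)] at hj2
    calc min ε 1 * D.v m j ≤ ε * D.v m j :=
          mul_le_mul_of_nonneg_right (min_le_left _ _) (D.nonneg _ _)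
      _ ≤ _ := hj2
  choose ε hε hε1 hinf using hratio
  have hN : ∀ i : ℕ, ∃ N : ℕ, (i : ℝ) ≤ ε i * (N : ℝ) ^ κ := by
    intro i
    have h1 : Tendsto (fun N : ℕ => ε i * (N : ℝ) ^ κ) atTop atTop :=
      ((tendsto_rpow_atTop hκ).comp tendsto_natCast_atTop_atTop).const_mul_atTop (hε i)
    exact (h1.eventually_ge_atTop (i : ℝ)).exists
  choose N hN using hN
  have hF : ∀ i, ∃ F : Finset ℕ, (F : Set ℕ) ⊆ {j | ε i * D.v m j ≤ D.v (m + i) j} ∧
      F.card = N i := fun i => (hinf i).exists_subset_card_eq (N i)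
  choose F hF hFc using hF
  set α : ℕ → ℝ := fun i => 1 + ∑ k ∈ Finset.range i, ∑ j ∈ F k, D.v m j * (D.v (m + i) j)⁻¹
    with hα
  have hpos : ∀ i j, 0 ≤ D.v m j * (D.v (m + i) j)⁻¹ :=
    fun i j => mul_nonneg (D.nonneg _ _) (inv_nonneg.2 (D.nonneg _ _))
  have hterm : ∀ i, 0 ≤ ∑ k ∈ Finset.range i, ∑ j ∈ F k, D.v m j * (D.v (m + i) j)⁻¹ :=
    fun i => Finset.sum_nonneg fun k _ => Finset.sum_nonneg fun j _ => hpos i j
  have hα1 : ∀ i, 1 ≤ α i := fun i => by
    have := hterm i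
    simp only [hα]; linarith
  have hα0 : ∀ i, 0 ≤ α i := fun i => zero_le_one.trans (hα1 i)
  have hw := D.infW_dominated m hα0
  have hge : ∀ k, ∀ j ∈ F k, ε k * D.v m j ≤ D.infW m α j := by
    intro k j hj
    apply D.le_infW
    intro i
    rcases Nat.lt_or_ge k i with hki | hki
    · have h1 : D.v m j * (D.v (m + i) j)⁻¹ ≤ α i := by
        have h2 : D.v m j * (D.v (m + i) j)⁻¹ ≤ ∑ j ∈ F k, D.v m j * (D.v (m + i) j)⁻¹ :=
          Finset.single_le_sum (f := fun j => D.v m j * (D.v (m + i) j)⁻¹)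
            (fun j _ => hpos i j) hj
        have h3 : ∑ j ∈ F k, D.v m j * (D.v (m + i) j)⁻¹
            ≤ ∑ k ∈ Finset.range i, ∑ j ∈ F k, D.v m j * (D.v (m + i) j)⁻¹ :=
          Finset.single_le_sum
            (f := fun k => ∑ j ∈ F k, D.v m j * (D.v (m + i) j)⁻¹)
            (fun k _ => Finset.sum_nonneg fun j _ => hpos i j)
            (Finset.mem_range.2 hki)
        simp only [hα]
        linarith
      calc ε k * D.v m j ≤ 1 * D.v m j := mul_le_mul_of_nonneg_right (hε1 k) (D.nonneg _ _)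
        _ = (D.v m j * (D.v (m + i) j)⁻¹) * D.v (m + i) j := by
            rw [mul_assoc, inv_mul_cancel₀ (D.pos _ j).ne']; ring
        _ ≤ α i * D.v (m + i) j := mul_le_mul_of_nonneg_right h1 (D.nonneg _ _)
    · have h1 : ε k * D.v m j ≤ D.v (m + i) j := by
        have h2 : ε k * D.v m j ≤ D.v (m + k) j := hF k hj
        exact h2.trans (D.anti_le (by omega) j)
      calc ε k * D.v m j ≤ D.v (m + i) j := h1
        _ = 1 * D.v (m + i) j := (one_mul _).symm
        _ ≤ _ := mul_le_mul_of_nonneg_right (hα1 i) (D.nonneg _ _)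
  obtain ⟨K, hK⟩ := hkey m _ hw
  obtain ⟨i, hi⟩ := exists_nat_gt K
  have h1 := hK (F i) (ε i) (hε i).le (hge i)
  rw [hFc] at h1
  have h2 := hN i
  linarith

end Data

end

end Pool.Agent.V11105.Coechelon
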