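import Pool.Agent.V11105.Coechelon

/-!
Köthe coechelon spaces: weighted seminorms; topological ergodicity gives a bounded weight.
-/

open Filter Set Topology

namespace Pool.Agent.V11105.Coechelon

noncomputable section

variable {𝕂 : Type} [RCLike 𝕂]

namespace Data

variable (D : Data)

/-- Weights dominated by multiples of all `v m`. -/
def Dominated (w : ℕ → ℝ) : Prop := (∀ j, 0 ≤ w j) ∧ ∀ k, ∃ C : ℝ, 0 ≤ C ∧ ∀ j, w j ≤ C * D.v k j

variable {D} in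
lemma Dominated.stepMem {w : ℕ → ℝ} (hw : D.Dominated w) {k : ℕ} {x : ℕ → 𝕂}
    (hx : StepMem D.p (D.v k) x) : StepMem D.p w x := by
  obtain ⟨C, hC, h⟩ := hw.2 k
  exact hx.mono D.hp hw.1 hC (fun j => by
    calc ‖x j‖ * w j ≤ ‖x j‖ * (C * D.v k j) := mul_le_mul_of_nonneg_left (h j) (norm_nonneg _)
      _ = _ := by ring)

variable {D} in
lemma Dominated.bdd {w : ℕ → ℝ} (hw : D.Dominated w) (x : D.E 𝕂) :
    BddAbove (range fun j => ‖x.1 j‖ * w j) := by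
  obtain ⟨m, hm⟩ := x.2
  refine ⟨stepNorm D.p w x.1, ?_⟩
  rintro _ ⟨j, rfl⟩
  exact coord_le D.hp hw.1 (hw.stepMem hm) j

variable {D} in
/-- The weighted supremum seminorm. -/
def supSemi {w : ℕ → ℝ} (hw : D.Dominated w) : Seminorm 𝕂 (D.E 𝕂) :=
  Seminorm.of (fun x => ⨆ j, ‖x.1 j‖ * w j)
    (by
      intro x y
      apply ciSup_le
      intro j
      calc ‖(x + y).1 j‖ * w j ≤ (‖x.1 j‖ + ‖y.1 j‖) * w j :=
            mul_le_mul_of_nonneg_right (norm_add_le _ _) (hw.1 j)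
        _ = ‖x.1 j‖ * w j + ‖y.1 j‖ * w j := by ring
        _ ≤ _ := add_le_add (le_ciSup (hw.bdd x) j) (le_ciSup (hw.bdd y) j))
    (by
      intro c x
      rw [Real.mul_iSup_of_nonneg (norm_nonneg c)]
      congr 1
      funext j
      show ‖c * x.1 j‖ * w j = _
      rw [norm_mul]; ring)

variable {D} in
lemma supSemi_apply {w : ℕ → ℝ} (hw : D.Dominated w) (x : D.E 𝕂) :
    supSemi hw x = ⨆ j, ‖x.1 j‖ * w j := rfl

variable {D} in
lemma supSemi_coord {w : ℕ → ℝ} (hw : D.Dominated w) (x : D.E 𝕂) (j : ℕ) :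
    ‖x.1 j‖ * w j ≤ supSemi hw x := le_ciSup (hw.bdd x) j

variable {D} in
lemma supSemi_cont {w : ℕ → ℝ} (hw : D.Dominated w) : D.Cont (𝕂 := 𝕂) (supSemi hw) := by
  intro m
  obtain ⟨C, hC, h⟩ := hw.2 m
  refine ⟨C, fun x hx => ?_⟩
  apply ciSup_le
  intro j
  calc ‖x.1 j‖ * w j ≤ ‖x.1 j‖ * (C * D.v m j) :=
        mul_le_mul_of_nonneg_left (h j) (norm_nonneg _)
    _ = C * (‖x.1 j‖ * D.v m j) := by ring
    _ ≤ _ := mul_le_mul_of_nonneg_left (coord_le D.hp (D.nonneg m) hx j) hC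

variable {D} in
lemma Dominated.summable {w : ℕ → ℝ} (hw : D.Dominated w) (hp : D.p = 1) (x : D.E 𝕂) :
    Summable fun j => ‖x.1 j‖ * w j := by
  obtain ⟨m, hm⟩ := x.2
  have := hw.stepMem hm
  rw [hp, stepMem_pos_iff le_rfl] at this
  simpa using this

variable {D} in
/-- The weighted sum seminorm in case `p = 1`. -/
def sumSemi {w : ℕ → ℝ} (hw : D.Dominated w) (hp : D.p = 1) : Seminorm 𝕂 (D.E 𝕂) :=
  Seminorm.of (fun x => ∑' j, ‖x.1 j‖ * w j)
    (by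
      intro x y
      rw [← (hw.summable hp x).tsum_add (hw.summable hp y)]
      apply Summable.tsum_le_tsum _ (hw.summable hp (x + y))
        ((hw.summable hp x).add (hw.summable hp y))
      intro j
      calc ‖(x + y).1 j‖ * w j ≤ (‖x.1 j‖ + ‖y.1 j‖) * w j :=
            mul_le_mul_of_nonneg_right (norm_add_le _ _) (hw.1 j)
        _ = ‖x.1 j‖ * w j + ‖y.1 j‖ * w j := by ring)
    (by
      intro c x
      rw [← tsum_mul_left]
      congr 1
      funext j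
      show ‖c * x.1 j‖ * w j = _
      rw [norm_mul]; ring)

variable {D} in
lemma sumSemi_apply {w : ℕ → ℝ} (hw : D.Dominated w) (hp : D.p = 1) (x : D.E 𝕂) :
    sumSemi hw hp x = ∑' j, ‖x.1 j‖ * w j := rfl

variable {D} in
lemma sumSemi_cont {w : ℕ → ℝ} (hw : D.Dominated w) (hp : D.p = 1) :
    D.Cont (𝕂 := 𝕂) (sumSemi hw hp) := by
  intro m
  obtain ⟨C, hC, h⟩ := hw.2 m
  refine ⟨C, fun x hx => ?_⟩
  have hx' : Summable fun j => ‖x.1 j‖ * D.v m j := by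
    rw [hp, stepMem_pos_iff le_rfl] at hx
    simp only [Real.rpow_one] at hx
    exact hx
  rw [hp, stepNorm_pos_eq le_rfl]
  simp only [Real.rpow_one, div_one]
  rw [sumSemi_apply, ← tsum_mul_left]
  apply Summable.tsum_le_tsum _ (hw.summable hp x) (hx'.mul_left C)
  intro j
  calc ‖x.1 j‖ * w j ≤ ‖x.1 j‖ * (C * D.v m j) :=
        mul_le_mul_of_nonneg_left (h j) (norm_nonneg _)
    _ = C * (‖x.1 j‖ * D.v m j) := by ring

/-- The infimum of multiples of the weights `v (m + i)`. -/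
def infW (m : ℕ) (α : ℕ → ℝ) (j : ℕ) : ℝ := ⨅ i, α i * D.v (m + i) j

lemma infW_bdd (m : ℕ) {α : ℕ → ℝ} (hα : ∀ i, 0 ≤ α i) (j : ℕ) :
    BddBelow (range fun i => α i * D.v (m + i) j) :=
  ⟨0, by rintro _ ⟨i, rfl⟩; exact mul_nonneg (hα i) (D.nonneg _ _)⟩

lemma infW_dominated (m : ℕ) {α : ℕ → ℝ} (hα : ∀ i, 0 ≤ α i) : D.Dominated (D.infW m α) := by
  refine ⟨fun j => le_ciInf fun i => mul_nonneg (hα i) (D.nonneg _ _), fun k => ⟨α k, hα k, ?_⟩⟩
  intro j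
  calc D.infW m α j ≤ α k * D.v (m + k) j := ciInf_le (D.infW_bdd m hα j) k
    _ ≤ α k * D.v k j := mul_le_mul_of_nonneg_left (D.anti_le (by omega) j) (hα k)

lemma le_infW (m : ℕ) {α : ℕ → ℝ} {j : ℕ} {c : ℝ} (h : ∀ i, c ≤ α i * D.v (m + i) j) :
    c ≤ D.infW m α j := le_ciInf h

/-! ### Topological ergodicity gives syndetic sets -/

lemma isOpen_ball {q : Seminorm 𝕂 (D.E 𝕂)} (hq : D.Cont q) (z : D.E 𝕂) :
    IsOpen[D.topo 𝕂] {x | q (x - z) < 1} := by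
  intro x hx
  have hx' : q (x - z) < 1 := hx
  set δ : ℝ := 1 - q (x - z) with hδ
  have hδ0 : 0 < δ := by linarith
  let r : NNReal := ⟨δ⁻¹, (inv_pos.2 hδ0).le⟩
  refine ⟨r • q, ?_, ?_⟩
  · intro m
    obtain ⟨C, hC⟩ := hq m
    refine ⟨δ⁻¹ * C, fun y hy => ?_⟩
    show δ⁻¹ * q y ≤ _
    rw [mul_assoc]
    exact mul_le_mul_of_nonneg_left (hC y hy) (inv_pos.2 hδ0).le
  · intro y hy
    have hy' : δ⁻¹ * q (y - x) < 1 := hy
    have h1 : q (y - x) < δ := by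
      rw [inv_mul_lt_iff₀ hδ0] at hy'
      linarith
    show q (y - z) < 1
    calc q (y - z) = q ((y - x) + (x - z)) := by congr 1; abel
      _ ≤ q (y - x) + q (x - z) := map_add_le_add q _ _
      _ < 1 := by linarith

lemma B_iterate (n : ℕ) (x : D.E 𝕂) (j : ℕ) : (((D.B 𝕂)^[n]) x).1 j = x.1 (j + n) := by
  induction n generalizing x with
  | zero => rfl
  | succ n ih =>
    rw [Function.iterate_succ_apply, ih]
    show x.1 (j + n + 1) = x.1 (j + (n + 1))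
    rfl

lemma exists_syndetic (h : D.TopErgodic 𝕂) : ∃ m, Syndetic {j | D.v m j < 1} := by
  by_contra hcon
  rw [not_exists] at hcon
  -- blocks
  have hblock : ∀ m : ℕ, ∃ n ≥ 1, ∀ k, n ≤ k → k ≤ n + m → 1 ≤ D.v m k := by
    intro m
    by_contra hc
    simp only [not_exists, not_and, not_forall] at hc
    apply hcon m
    refine ⟨m, fun n hn => ?_⟩
    obtain ⟨k, hk1, hk2, hk3⟩ := hc n hn
    exact ⟨k, not_le.1 hk3, hk1, hk2⟩
  choose n hn1 hn using hblock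
  set α : ℕ → ℝ := fun i => 1 + ∑ m ∈ Finset.range i, ∑ k ∈ Finset.Icc (n m) (n m + m),
    (D.v i k)⁻¹ with hα
  have hterm : ∀ i, 0 ≤ ∑ m ∈ Finset.range i, ∑ k ∈ Finset.Icc (n m) (n m + m), (D.v i k)⁻¹ :=
    fun i => Finset.sum_nonneg fun m _ => Finset.sum_nonneg fun k _ => inv_nonneg.2 (D.nonneg _ _)
  have hα1 : ∀ i, 1 ≤ α i := fun i => by
    have := hterm i
    simp only [hα]; linarith
  have hα0 : ∀ i, 0 ≤ α i := fun i => zero_le_one.trans (hα1 i)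
  have hw := D.infW_dominated 0 hα0
  have hge : ∀ m k, n m ≤ k → k ≤ n m + m → 1 ≤ D.infW 0 α k := by
    intro m k hk1 hk2
    apply D.le_infW
    intro i
    rw [zero_add]
    rcases Nat.lt_or_ge m i with hmi | hmi
    · have h1 : (D.v i k)⁻¹ ≤ α i := by
        have h2 : (D.v i k)⁻¹ ≤ ∑ k ∈ Finset.Icc (n m) (n m + m), (D.v i k)⁻¹ :=
          Finset.single_le_sum (f := fun k => (D.v i k)⁻¹)
            (fun k _ => inv_nonneg.2 (D.nonneg _ _)) (Finset.mem_Icc.2 ⟨hk1, hk2⟩)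
        have h3 : ∑ k ∈ Finset.Icc (n m) (n m + m), (D.v i k)⁻¹
            ≤ ∑ m ∈ Finset.range i, ∑ k ∈ Finset.Icc (n m) (n m + m), (D.v i k)⁻¹ :=
          Finset.single_le_sum
            (f := fun m => ∑ k ∈ Finset.Icc (n m) (n m + m), (D.v i k)⁻¹)
            (fun m _ => Finset.sum_nonneg fun k _ => inv_nonneg.2 (D.nonneg _ _))
            (Finset.mem_range.2 hmi)
        simp only [hα]
        linarith
      calc (1 : ℝ) = (D.v i k)⁻¹ * D.v i k := (inv_mul_cancel₀ (D.pos i k).ne').symm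
        _ ≤ α i * D.v i k := mul_le_mul_of_nonneg_right h1 (D.nonneg _ _)
    · have h1 : 1 ≤ D.v i k := (hn m k hk1 hk2).trans (D.anti_le hmi k)
      calc (1 : ℝ) = 1 * 1 := (one_mul 1).symm
        _ ≤ α i * D.v i k := mul_le_mul (hα1 i) h1 zero_le_one (hα0 i)
  -- the open sets
  let qw : Seminorm 𝕂 (D.E 𝕂) := supSemi hw
  have hqw : D.Cont qw := supSemi_cont hw
  -- the first coordinate
  have hw0 : D.Dominated (fun j => if j = 0 then (1 : ℝ) else 0) := by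
    refine ⟨fun j => by positivity, fun k => ⟨(D.v k 0)⁻¹, inv_nonneg.2 (D.nonneg _ _), ?_⟩⟩
    intro j
    by_cases hj : j = 0
    · subst hj
      simp only [if_true]
      rw [inv_mul_cancel₀ (D.pos k 0).ne']
    · simp only [hj, if_false]
      exact mul_nonneg (inv_nonneg.2 (D.nonneg _ _)) (D.nonneg _ _)
  let q0 : Seminorm 𝕂 (D.E 𝕂) := supSemi hw0
  have hq0 : D.Cont q0 := supSemi_cont hw0
  have hmem : (fun j => if j = 0 then (2 : 𝕂) else 0) ∈ D.space 𝕂 := by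
    refine ⟨0, (of_summable D.hp (D.nonneg 0) ?_).1⟩
    apply summable_of_ne_finset_zero (s := {0})
    intro j hj
    simp only [Finset.mem_singleton] at hj
    simp [hj]
  let z : D.E 𝕂 := ⟨_, hmem⟩
  obtain ⟨Q, hQ⟩ := h {x | qw (x - 0) < 1} {x | q0 (x - z) < 1} (D.isOpen_ball hqw 0)
    (D.isOpen_ball hq0 z) ⟨0, by simp⟩ ⟨z, by simp⟩
  obtain ⟨k, ⟨_, ⟨y, ⟨x, hx, rfl⟩, hy⟩⟩, hk1, hk2⟩ := hQ (n Q) (hn1 Q)
  have h1 : qw x < 1 := by simpa using hx
  have h2 : q0 ((D.B 𝕂)^[k] x - z) < 1 := hy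
  have h3 : ‖((D.B 𝕂)^[k] x - z).1 0‖ * (if (0 : ℕ) = 0 then (1 : ℝ) else 0)
      ≤ q0 ((D.B 𝕂)^[k] x - z) := supSemi_coord hw0 _ 0
  have h4 : ((D.B 𝕂)^[k] x - z).1 0 = x.1 k - 2 := by
    show ((D.B 𝕂)^[k] x).1 0 - z.1 0 = _
    rw [B_iterate, zero_add]
    rfl
  rw [h4] at h3
  simp only [if_true, mul_one] at h3
  have h5 : ‖x.1 k - 2‖ < 1 := h3.trans_lt h2
  have h6 : 1 < ‖x.1 k‖ := by
    have h7 : ‖(2 : 𝕂)‖ ≤ ‖x.1 k‖ + ‖x.1 k - 2‖ := by
      calc ‖(2 : 𝕂)‖ = ‖x.1 k - (x.1 k - 2)‖ := by congr 1; ring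
        _ ≤ _ := norm_sub_le _ _
    rw [RCLike.norm_ofNat] at h7
    linarith
  have h8 : ‖x.1 k‖ * D.infW 0 α k ≤ qw x := supSemi_coord hw x k
  have h9 : 1 ≤ D.infW 0 α k := hge Q k hk1 hk2
  nlinarith

/-- Iterated continuity estimate for the backward shift. -/
lemma shift_iter (m i : ℕ) : ∃ n ≥ m, ∃ C > 0, ∀ j, D.v n j ≤ C * D.v m (j + i) := by
  induction i with
  | zero => exact ⟨m, le_rfl, 1, one_pos, fun j => by simp⟩
  | succ i ih =>
    obtain ⟨n, hn, C, hC, h⟩ := ih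
    obtain ⟨n', hn', C', hC', h'⟩ := D.shift n
    refine ⟨n', hn.trans hn', C' * C, mul_pos hC' hC, fun j => ?_⟩
    calc D.v n' j ≤ C' * D.v n (j + 1) := h' j
      _ ≤ C' * (C * D.v m (j + 1 + i)) := mul_le_mul_of_nonneg_left (h (j + 1)) hC'.le
      _ = C' * C * D.v m (j + (i + 1)) := by
          rw [show j + 1 + i = j + (i + 1) by ring]; ring

lemma exists_bounded (h : D.TopErgodic 𝕂) : ∃ n, ∃ A : ℝ, ∀ j, D.v n j ≤ A := by
  obtain ⟨m, Q, hQ⟩ := D.exists_syndetic h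
  choose n hn C hC hnC using D.shift_iter m
  set N := (Finset.range (Q + 1)).sup n with hN
  set A : ℝ := D.v N 0 + ∑ i ∈ Finset.range (Q + 1), C i with hA
  refine ⟨N, A, fun j => ?_⟩
  have hsum : 0 ≤ ∑ i ∈ Finset.range (Q + 1), C i := Finset.sum_nonneg fun i _ => (hC i).le
  rcases Nat.eq_zero_or_pos j with rfl | hj
  · linarith
  · obtain ⟨k, hk, hk1, hk2⟩ := hQ j hj
    obtain ⟨i, rfl⟩ := Nat.exists_eq_add_of_le hk1
    have hi : i ∈ Finset.range (Q + 1) := Finset.mem_range.2 (by omega)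
    calc D.v N j ≤ D.v (n i) j := D.anti_le (Finset.le_sup hi) j
      _ ≤ C i * D.v m (j + i) := hnC i j
      _ ≤ C i * 1 := mul_le_mul_of_nonneg_left (le_of_lt hk) (hC i).le
      _ = C i := mul_one _
      _ ≤ ∑ i ∈ Finset.range (Q + 1), C i :=
          Finset.single_le_sum (f := C) (fun i _ => (hC i).le) hi
      _ ≤ A := by have := D.nonneg N 0; linarith

end Data

end

end Pool.Agent.V11105.Coechelon
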