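import Mathlib

open Matrix Polynomial

namespace Pool.Agent.V11105.Cosp

variable {n : ℕ}

/-- cast an integer matrix to the rationals -/
noncomputable abbrev cq {m k : Type*} (A : Matrix m k ℤ) : Matrix m k ℚ := A.map (Int.castRingHom ℚ)

/-- rational vector with integer entries -/
def IsInt (v : Fin n → ℚ) : Prop := ∀ i, ∃ z : ℤ, v i = z

/-- the walk matrix of an integer matrix -/
def walk (A : Matrix (Fin n) (Fin n) ℤ) : Matrix (Fin n) (Fin n) ℤ :=
  Matrix.of fun i j => (A ^ (j : ℕ) *ᵥ (fun _ => 1)) i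

/-- the pairing of `v` with `A^i e`. -/
noncomputable def s (A : Matrix (Fin n) (Fin n) ℤ) (v : Fin n → ℚ) (i : ℕ) : ℚ :=
  v ⬝ᵥ ((cq A) ^ i *ᵥ (fun _ => 1))

lemma IsInt.add {u v : Fin n → ℚ} (hu : IsInt u) (hv : IsInt v) : IsInt (u + v) := by
  intro i
  obtain ⟨a, ha⟩ := hu i
  obtain ⟨b, hb⟩ := hv i
  exact ⟨a + b, by simp [ha, hb]⟩

lemma IsInt.sub {u v : Fin n → ℚ} (hu : IsInt u) (hv : IsInt v) : IsInt (u - v) := by
  intro i
  obtain ⟨a, ha⟩ := hu i
  obtain ⟨b, hb⟩ := hv i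
  exact ⟨a - b, by simp [ha, hb]⟩

lemma IsInt.smul {v : Fin n → ℚ} (m : ℤ) (hv : IsInt v) : IsInt ((m : ℚ) • v) := by
  intro i
  obtain ⟨b, hb⟩ := hv i
  exact ⟨m * b, by simp [hb]⟩

lemma isInt_sum {ι : Type*} (S : Finset ι) (f : ι → ℚ) (h : ∀ i ∈ S, ∃ z : ℤ, f i = z) :
    ∃ z : ℤ, ∑ i ∈ S, f i = z := by
  classical
  induction S using Finset.induction_on with
  | empty => exact ⟨0, by simp⟩
  | insert a S ha ih =>
    obtain ⟨z, hz⟩ := ih (fun i hi => h i (Finset.mem_insert_of_mem hi))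
    obtain ⟨y, hy⟩ := h a (Finset.mem_insert_self a S)
    exact ⟨y + z, by rw [Finset.sum_insert ha, hz, hy]; push_cast; ring⟩

lemma IsInt.mulVec {v : Fin n → ℚ} (M : Matrix (Fin n) (Fin n) ℤ) (hv : IsInt v) :
    IsInt (cq M *ᵥ v) := by
  intro i
  simp only [Matrix.mulVec, dotProduct]
  apply isInt_sum
  intro j _
  obtain ⟨b, hb⟩ := hv j
  exact ⟨M i j * b, by simp [hb]⟩

lemma cq_mul {m k l : Type*} [Fintype k] (A : Matrix m k ℤ) (B : Matrix k l ℤ) :
    cq (A * B) = cq A * cq B := Matrix.map_mul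

lemma cq_pow (A : Matrix (Fin n) (Fin n) ℤ) (k : ℕ) : cq (A ^ k) = (cq A) ^ k := by
  induction k with
  | zero => simp [cq]
  | succ k ih => rw [pow_succ, pow_succ, cq_mul, ih]

lemma cq_pow_apply (A : Matrix (Fin n) (Fin n) ℤ) (k : ℕ) (a b : Fin n) :
    ((cq A) ^ k) a b = (((A ^ k) a b : ℤ) : ℚ) := by
  rw [← cq_pow]
  rfl

/-- Cayley-Hamilton in the form needed. -/
lemma pow_rec (A : Matrix (Fin n) (Fin n) ℤ) :
    ∃ c : ℕ → ℤ, ∀ j, (cq A) ^ (n + j) = ∑ k ∈ Finset.range n, ((c k : ℤ) : ℚ) • (cq A) ^ (k + j) := by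
  refine ⟨fun k => -A.charpoly.coeff k, fun j => ?_⟩
  have h := Matrix.aeval_self_charpoly A
  have hd : A.charpoly.natDegree = n := by
    rw [Matrix.charpoly_natDegree_eq_dim]; simp
  have hm : A.charpoly.coeff n = 1 := by
    have := A.charpoly_monic
    rw [Polynomial.Monic, Polynomial.leadingCoeff, hd] at this
    exact this
  rw [Polynomial.aeval_eq_sum_range, hd, Finset.sum_range_succ, hm, one_smul] at h
  have h2 : A ^ n = - ∑ k ∈ Finset.range n, A.charpoly.coeff k • A ^ k := by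
    rw [eq_neg_iff_add_eq_zero, add_comm]; exact h
  have h3 : A ^ (n + j) = - ∑ k ∈ Finset.range n, A.charpoly.coeff k • A ^ (k + j) := by
    rw [pow_add, h2, neg_mul, Finset.sum_mul]
    congr 1
    refine Finset.sum_congr rfl (fun k _ => ?_)
    rw [smul_mul_assoc, ← pow_add]
  ext a b
  rw [cq_pow_apply, h3, Matrix.sum_apply]
  simp only [Matrix.neg_apply, Matrix.sum_apply, Matrix.smul_apply, smul_eq_mul, cq_pow_apply]
  push_cast
  rw [← Finset.sum_neg_distrib]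
  exact Finset.sum_congr rfl (fun k _ => by ring)

/-- integrality of all pairings from the first `n`. -/
lemma s_all (A : Matrix (Fin n) (Fin n) ℤ) (v : Fin n → ℚ)
    (h : ∀ i < n, ∃ z : ℤ, s A v i = z) : ∀ i, ∃ z : ℤ, s A v i = z := by
  obtain ⟨c, hc⟩ := pow_rec A
  intro i
  induction i using Nat.strong_induction_on with
  | _ i ih =>
    by_cases hi : i < n
    · exact h i hi
    · obtain ⟨j, rfl⟩ := Nat.exists_eq_add_of_le (not_lt.mp hi)
      unfold s
      rw [hc j, Matrix.sum_mulVec, dotProduct_sum]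
      apply isInt_sum
      intro k hk
      rw [Finset.mem_range] at hk
      obtain ⟨z, hz⟩ := ih (k + j) (by omega)
      refine ⟨c k * z, ?_⟩
      rw [Matrix.smul_mulVec, dotProduct_smul, smul_eq_mul]
      have : v ⬝ᵥ ((cq A) ^ (k + j) *ᵥ (fun _ => 1)) = z := hz
      rw [this]
      push_cast
      rfl

/-- The lattice `K*`. -/
def Kst (A : Matrix (Fin n) (Fin n) ℤ) (v : Fin n → ℚ) : Prop := ∀ i : ℕ, ∃ z : ℤ, s A v i = z

lemma cq_symm {A : Matrix (Fin n) (Fin n) ℤ} (hA : A.IsSymm) : (cq A).IsSymm := by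
  unfold Matrix.IsSymm
  rw [cq, ← Matrix.transpose_map, hA.eq]

lemma aeval_symm {A : Matrix (Fin n) (Fin n) ℤ} (hA : A.IsSymm) (f : ℤ[X]) :
    (aeval (cq A) f)ᵀ = aeval (cq A) f := by
  induction f using Polynomial.induction_on' with
  | add p q hp hq => rw [map_add, Matrix.transpose_add, hp, hq]
  | monomial k a =>
    rw [Polynomial.aeval_monomial, Matrix.transpose_mul, Matrix.transpose_pow, (cq_symm hA).eq,
      Algebra.algebraMap_eq_smul_one, Matrix.transpose_smul, Matrix.transpose_one,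
      mul_smul_comm, smul_mul_assoc, mul_one, one_mul]

lemma dot_aeval {A : Matrix (Fin n) (Fin n) ℤ} (hA : A.IsSymm) (f : ℤ[X]) (u v : Fin n → ℚ) :
    (aeval (cq A) f *ᵥ u) ⬝ᵥ v = u ⬝ᵥ (aeval (cq A) f *ᵥ v) := by
  rw [Matrix.dotProduct_mulVec, ← Matrix.mulVec_transpose, aeval_symm hA]

lemma aeval_cq (A : Matrix (Fin n) (Fin n) ℤ) (f : ℤ[X]) :
    aeval (cq A) f = cq (aeval A f) := by
  induction f using Polynomial.induction_on' with
  | add p q hp hq =>
    rw [map_add, map_add, hp, hq]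
    simp [cq, Matrix.map_add]
  | monomial k a =>
    rw [Polynomial.aeval_monomial, Polynomial.aeval_monomial, cq_mul, cq_pow]
    congr 1
    rw [Algebra.algebraMap_eq_smul_one, Algebra.algebraMap_eq_smul_one]
    ext i j
    by_cases h : i = j
    · subst h
      rw [Matrix.smul_apply]
      show _ = (((a • (1 : Matrix (Fin n) (Fin n) ℤ)) i i : ℤ) : ℚ)
      rw [Matrix.smul_apply]
      simp
    · rw [Matrix.smul_apply]
      show _ = (((a • (1 : Matrix (Fin n) (Fin n) ℤ)) i j : ℤ) : ℚ)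
      rw [Matrix.smul_apply, Matrix.one_apply_ne h, Matrix.one_apply_ne h]
      simp

lemma s_pow {A : Matrix (Fin n) (Fin n) ℤ} (hA : A.IsSymm) (v : Fin n → ℚ) (m i : ℕ) :
    s A ((cq A) ^ m *ᵥ v) i = s A v (m + i) := by
  unfold s
  have h := dot_aeval hA (X ^ m : ℤ[X]) v ((cq A) ^ i *ᵥ (fun _ => 1))
  rw [map_pow, aeval_X] at h
  rw [h, Matrix.mulVec_mulVec, ← pow_add]

lemma s_add (A : Matrix (Fin n) (Fin n) ℤ) (u v : Fin n → ℚ) (i : ℕ) :
    s A (u + v) i = s A u i + s A v i := by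
  unfold s; rw [add_dotProduct]

lemma s_smul (A : Matrix (Fin n) (Fin n) ℤ) (c : ℚ) (v : Fin n → ℚ) (i : ℕ) :
    s A (c • v) i = c * s A v i := by
  unfold s; rw [smul_dotProduct, smul_eq_mul]

/-- `K*` is stable under integer polynomials in `A`. -/
lemma Kst_aeval {A : Matrix (Fin n) (Fin n) ℤ} (hA : A.IsSymm) {v : Fin n → ℚ} (hv : Kst A v)
    (f : ℤ[X]) : Kst A (aeval (cq A) f *ᵥ v) := by
  induction f using Polynomial.induction_on' with
  | add p q hp hq =>
    intro i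
    obtain ⟨a, ha⟩ := hp i
    obtain ⟨b, hb⟩ := hq i
    exact ⟨a + b, by rw [map_add, Matrix.add_mulVec, s_add, ha, hb]; push_cast; rfl⟩
  | monomial k a =>
    intro i
    obtain ⟨b, hb⟩ := hv (k + i)
    refine ⟨a * b, ?_⟩
    have : (aeval (cq A) (monomial k a)) = (a : ℚ) • (cq A) ^ k := by
      rw [Polynomial.aeval_monomial, Algebra.algebraMap_eq_smul_one, smul_mul_assoc, one_mul]
      ext i j
      simp
    rw [this, Matrix.smul_mulVec, s_smul, s_pow hA, hb]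
    push_cast
    rfl

lemma Kst_of_isInt {A : Matrix (Fin n) (Fin n) ℤ} {v : Fin n → ℚ} (hv : IsInt v) : Kst A v := by
  intro i
  unfold s
  simp only [dotProduct]
  apply isInt_sum
  intro j _
  obtain ⟨b, hb⟩ := hv j
  have h1 : IsInt ((cq A) ^ i *ᵥ (fun _ => (1 : ℚ))) := by
    rw [← cq_pow]
    exact IsInt.mulVec _ (fun _ => ⟨1, by simp⟩)
  obtain ⟨c, hc⟩ := h1 j
  exact ⟨b * c, by rw [hb, hc]; push_cast; rfl⟩

/-- pairing with the walk matrix -/
lemma walk_mulVec (A : Matrix (Fin n) (Fin n) ℤ) (v : Fin n → ℚ) (j : Fin n) :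
    ((cq (walk A))ᵀ *ᵥ v) j = s A v j := by
  unfold s
  rw [dotProduct_comm]
  simp only [Matrix.mulVec, Matrix.transpose_apply]
  have : ∀ i, cq (walk A) i j = ((cq A) ^ (j : ℕ) *ᵥ fun _ => (1 : ℚ)) i := by
    intro i
    rw [← cq_pow]
    simp [cq, walk, Matrix.mulVec, dotProduct]
  simp only [dotProduct]
  refine Finset.sum_congr rfl (fun i _ => ?_)
  rw [this i]

end Pool.Agent.V11105.Cosp
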