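import Pool.Agent.V11105.CospA

open Matrix Polynomial

namespace Pool.Agent.V11105.Cosp

variable {n : ℕ}

lemma cq_det_ne {A : Matrix (Fin n) (Fin n) ℤ} (h : A.det ≠ 0) : (cq A).det ≠ 0 := by
  have : (cq A).det = ((A.det : ℤ) : ℚ) := by
    have := (Int.castRingHom ℚ).map_det A
    simpa [cq] using this.symm
  rw [this]
  exact_mod_cast h

lemma Kst_of_walk {A : Matrix (Fin n) (Fin n) ℤ} {v : Fin n → ℚ}
    (h : IsInt ((cq (walk A))ᵀ *ᵥ v)) : Kst A v := by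
  apply s_all
  intro i hi
  obtain ⟨z, hz⟩ := h ⟨i, hi⟩
  rw [walk_mulVec] at hz
  exact ⟨z, hz⟩

lemma walk_of_Kst {A : Matrix (Fin n) (Fin n) ℤ} {v : Fin n → ℚ}
    (h : Kst A v) : IsInt ((cq (walk A))ᵀ *ᵥ v) := by
  intro i
  rw [walk_mulVec]
  exact h i

lemma exists_g {m : ℕ} {A : Matrix (Fin (m+1)) (Fin (m+1)) ℤ} (hW : (walk A).det ≠ 0) :
    ∃ g : Fin (m+1) → ℚ, Kst A g ∧ (∀ j < m, s A g j = 0) ∧ s A g m = 1 := by
  have hW' : IsUnit ((cq (walk A))ᵀ).det := by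
    rw [Matrix.det_transpose]; exact (cq_det_ne hW).isUnit
  have key : (cq (walk A))ᵀ *ᵥ (((cq (walk A))ᵀ)⁻¹ *ᵥ (Pi.single (Fin.last m) 1)) =
      Pi.single (Fin.last m) 1 := by
    rw [Matrix.mulVec_mulVec, Matrix.mul_nonsing_inv _ hW', Matrix.one_mulVec]
  refine ⟨((cq (walk A))ᵀ)⁻¹ *ᵥ (Pi.single (Fin.last m) 1), ?_, ?_, ?_⟩
  · apply Kst_of_walk
    rw [key]
    intro i
    by_cases h : i = Fin.last m
    · exact ⟨1, by rw [h]; simp⟩
    · exact ⟨0, by simp [h]⟩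
  · intro j hj
    have := congrFun key ⟨j, by omega⟩
    rw [walk_mulVec] at this
    have h2 : s A (((cq (walk A))ᵀ)⁻¹ *ᵥ (Pi.single (Fin.last m) 1)) j =
      (Pi.single (Fin.last m) (1:ℚ) : Fin (m+1) → ℚ) ⟨j, by omega⟩ := this
    rw [h2]
    have hne : (⟨j, by omega⟩ : Fin (m+1)) ≠ Fin.last m := by
      intro h
      have := congrArg Fin.val h
      simp at this
      omega
    simp [hne]
  · have := congrFun key (Fin.last m)
    rw [walk_mulVec] at this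
    have h2 : s A (((cq (walk A))ᵀ)⁻¹ *ᵥ (Pi.single (Fin.last m) 1)) m =
      (Pi.single (Fin.last m) (1:ℚ) : Fin (m+1) → ℚ) (Fin.last m) := this
    rw [h2]
    simp

/-- every vector of `K*` is an integer polynomial in `A` applied to `g`. -/
lemma gen {m : ℕ} {A : Matrix (Fin (m+1)) (Fin (m+1)) ℤ} (hA : A.IsSymm)
    (hW : (walk A).det ≠ 0) {g : Fin (m+1) → ℚ} (hg : Kst A g)
    (hg0 : ∀ j < m, s A g j = 0) (hg1 : s A g m = 1) :
    ∀ v : Fin (m+1) → ℚ, Kst A v → ∃ f : ℤ[X], v = aeval (cq A) f *ᵥ g := by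
  have main : ∀ r : ℕ, r ≤ m + 1 → ∀ v : Fin (m+1) → ℚ, Kst A v →
      (∀ j < m + 1 - r, s A v j = 0) → ∃ f : ℤ[X], v = aeval (cq A) f *ᵥ g := by
    intro r
    induction r with
    | zero =>
      intro _ v _ hz
      have hW' : IsUnit ((cq (walk A))ᵀ).det := by
        rw [Matrix.det_transpose]; exact (cq_det_ne hW).isUnit
      have h0 : (cq (walk A))ᵀ *ᵥ v = 0 := by
        ext j
        rw [walk_mulVec]
        exact hz j (by have := j.2; omega)
      have hv : v = 0 := by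
        have : ((cq (walk A))ᵀ)⁻¹ *ᵥ ((cq (walk A))ᵀ *ᵥ v) = 0 := by rw [h0, Matrix.mulVec_zero]
        rwa [Matrix.mulVec_mulVec, Matrix.nonsing_inv_mul _ hW', Matrix.one_mulVec] at this
      exact ⟨0, by rw [hv, map_zero, Matrix.zero_mulVec]⟩
    | succ r ih =>
      intro hr v hv hz
      obtain ⟨z, hzz⟩ := hv (m - r)
      have hmono : aeval (cq A) (C z * X ^ r : ℤ[X]) *ᵥ g = (z : ℚ) • ((cq A) ^ r *ᵥ g) := by
        rw [map_mul, map_pow, aeval_X, aeval_C, Algebra.algebraMap_eq_smul_one, smul_mul_assoc,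
          one_mul, Matrix.smul_mulVec]
        ext i
        simp
      have hK : Kst A (v - aeval (cq A) (C z * X ^ r : ℤ[X]) *ᵥ g) := by
        intro i
        obtain ⟨a, ha⟩ := hv i
        obtain ⟨b, hb⟩ := Kst_aeval hA hg (C z * X ^ r : ℤ[X]) i
        refine ⟨a - b, ?_⟩
        unfold s at ha hb ⊢
        rw [sub_dotProduct, ha, hb]
        push_cast
        rfl
      obtain ⟨f, hf⟩ := ih (by omega) _ hK (by
        intro j hj
        rw [hmono]
        have e : s A (v - (z : ℚ) • ((cq A) ^ r *ᵥ g)) j = s A v j - z * s A g (r + j) := by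
          have h1 := s_smul A (z : ℚ) ((cq A) ^ r *ᵥ g) j
          rw [s_pow hA] at h1
          unfold s at h1 ⊢
          rw [sub_dotProduct, h1]
        rw [e]
        by_cases hj2 : j < m + 1 - (r + 1)
        · rw [hz j hj2, hg0 (r + j) (by omega)]; simp
        · have hj3 : j = m - r := by omega
          have hj4 : r + (m - r) = m := by omega
          rw [hj3, hzz, hj4, hg1]; simp)
      refine ⟨f + C z * X ^ r, ?_⟩
      rw [map_add, Matrix.add_mulVec, ← hf]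
      abel
  intro v hv
  exact main (m+1) le_rfl v hv (by intro j hj; omega)

/-- data of a Smith normal form: `P * W * R = diagonal d`, `P, R` unimodular, `d` positive and
each `d i` divides `d j` for `i ≤ j`. -/
def IsSNF (W : Matrix (Fin n) (Fin n) ℤ) (d : Fin n → ℕ) : Prop :=
  (∀ i, 0 < d i) ∧ (∀ i j, i ≤ j → d i ∣ d j) ∧
  ∃ P R : Matrix (Fin n) (Fin n) ℤ, IsUnit P.det ∧ IsUnit R.det ∧
    P * W * R = Matrix.diagonal (fun i => (d i : ℤ))

lemma cq_inv {P : Matrix (Fin n) (Fin n) ℤ} (hP : IsUnit P.det) :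
    cq (P⁻¹) * cq P = 1 ∧ cq P * cq (P⁻¹) = 1 := by
  constructor
  · rw [← cq_mul, Matrix.nonsing_inv_mul _ hP]; simp [cq]
  · rw [← cq_mul, Matrix.mul_nonsing_inv _ hP]; simp [cq]

lemma cq_transpose (P : Matrix (Fin n) (Fin n) ℤ) : cq (Pᵀ) = (cq P)ᵀ := rfl

/-- coordinates on `K*`. -/
lemma Kst_iff {A : Matrix (Fin n) (Fin n) ℤ} {P R : Matrix (Fin n) (Fin n) ℤ} {d : Fin n → ℕ}
    (hd : ∀ i, 0 < d i)
    (hP : IsUnit P.det) (hR : IsUnit R.det)
    (h : P * walk A * R = Matrix.diagonal (fun i => (d i : ℤ))) (t : Fin n → ℚ) :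
    Kst A (cq Pᵀ *ᵥ t) ↔ ∀ i, ∃ z : ℤ, (d i : ℚ) * t i = z := by
  have hD : cq Rᵀ * cq (walk A)ᵀ * cq Pᵀ = Matrix.diagonal (fun i => (d i : ℚ)) := by
    have h1 := congrArg Matrix.transpose h
    rw [Matrix.transpose_mul, Matrix.transpose_mul, Matrix.diagonal_transpose] at h1
    have h2 := congrArg cq h1
    rw [cq_mul, cq_mul] at h2
    rw [Matrix.mul_assoc, h2]
    ext i j
    by_cases hij : i = j
    · subst hij; simp [cq]
    · simp [cq, hij]
  have key : cq Rᵀ *ᵥ ((cq (walk A))ᵀ *ᵥ (cq Pᵀ *ᵥ t)) = fun i => (d i : ℚ) * t i := by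
    rw [Matrix.mulVec_mulVec, Matrix.mulVec_mulVec]
    have : cq Rᵀ * (cq (walk A))ᵀ * cq Pᵀ = Matrix.diagonal (fun i => (d i : ℚ)) := hD
    rw [this]
    ext i
    rw [Matrix.mulVec_diagonal]
  constructor
  · intro hK i
    have h1 : IsInt (cq Rᵀ *ᵥ ((cq (walk A))ᵀ *ᵥ (cq Pᵀ *ᵥ t))) :=
      IsInt.mulVec _ (walk_of_Kst hK)
    rw [key] at h1
    exact h1 i
  · intro hi
    apply Kst_of_walk
    have hRt : IsUnit (Rᵀ).det := by rwa [Matrix.det_transpose]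
    have h1 : (cq (walk A))ᵀ *ᵥ (cq Pᵀ *ᵥ t) =
        cq ((Rᵀ)⁻¹) *ᵥ (cq Rᵀ *ᵥ ((cq (walk A))ᵀ *ᵥ (cq Pᵀ *ᵥ t))) := by
      rw [Matrix.mulVec_mulVec _ (cq ((Rᵀ)⁻¹)), (cq_inv hRt).1, Matrix.one_mulVec]
    rw [h1, key]
    exact IsInt.mulVec _ hi

end Pool.Agent.V11105.Cosp
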