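import Pool.Agent.V11105.CospB

open Matrix Polynomial

namespace Pool.Agent.V11105.Cosp

variable {n : ℕ}

/-- `A` acts on `w U` as a scalar. -/
lemma scalar_lemma {m : ℕ} {A : Matrix (Fin (m+2)) (Fin (m+2)) ℤ} (hA : A.IsSymm)
    {P R : Matrix (Fin (m+2)) (Fin (m+2)) ℤ} {d : Fin (m+2) → ℕ}
    (hd : ∀ i, 0 < d i) (hdd : ∀ i j, i ≤ j → d i ∣ d j)
    (hP : IsUnit P.det) (hR : IsUnit R.det)
    (h : P * walk A * R = Matrix.diagonal (fun i => (d i : ℤ))) :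
    ∃ a : ℤ, ∀ v, Kst A v →
      IsInt ((((d (Fin.last m).castSucc : ℕ) : ℤ) : ℚ) • (cq A *ᵥ v - (a : ℚ) • v)) := by
  set N : Fin (m+2) := Fin.last (m+1) with hN
  set N' : Fin (m+2) := (Fin.last m).castSucc with hN'
  have hPt : IsUnit (Pᵀ).det := by rwa [Matrix.det_transpose]
  set Y : Matrix (Fin (m+2)) (Fin (m+2)) ℤ := (Pᵀ)⁻¹ * A * Pᵀ with hY
  have hAP : cq A * cq Pᵀ = cq Pᵀ * cq Y := by
    rw [← cq_mul, ← cq_mul, hY, ← Matrix.mul_assoc, ← Matrix.mul_assoc,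
      Matrix.mul_nonsing_inv _ hPt, Matrix.one_mul]
  have hle : ∀ i : Fin (m+2), i ≠ N → i ≤ N' := by
    intro i hi
    rw [Fin.le_def]
    have h1 : i.val ≠ m + 1 := by
      intro h2
      apply hi
      ext
      simp [hN, h2]
    have h2 := i.2
    simp [hN']
    omega
  -- divisibility of column `N` of `Y`
  have hdiv : ∀ i, i ≠ N → (d N : ℤ) ∣ (d N' : ℤ) * Y i N := by
    intro i hi
    have hKu : Kst A (cq Pᵀ *ᵥ (Pi.single N (1 / (d N : ℚ)))) := by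
      rw [Kst_iff hd hP hR h]
      intro k
      by_cases hk : k = N
      · refine ⟨1, ?_⟩
        rw [hk]
        have : (d N : ℚ) ≠ 0 := by exact_mod_cast (hd N).ne'
        simp [this]
      · exact ⟨0, by simp [hk]⟩
    have hKAu := Kst_aeval hA hKu X
    rw [aeval_X, Matrix.mulVec_mulVec, hAP, ← Matrix.mulVec_mulVec] at hKAu
    rw [Kst_iff hd hP hR h] at hKAu
    obtain ⟨z, hz⟩ := hKAu i
    have h1 : (cq Y *ᵥ (Pi.single N (1 / (d N : ℚ)))) i = (Y i N : ℚ) / d N := by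
      simp [Matrix.mulVec_single, cq, div_eq_mul_inv]
    rw [h1] at hz
    have hdN : (d N : ℚ) ≠ 0 := by exact_mod_cast (hd N).ne'
    have h2 : (d i : ℚ) * Y i N = z * d N := by
      field_simp at hz
      linear_combination hz
    have h3 : (d i : ℤ) * Y i N = z * d N := by exact_mod_cast h2
    obtain ⟨c, hc⟩ := hdd i N' (hle i hi)
    refine ⟨c * z, ?_⟩
    rw [hc]
    push_cast
    linear_combination (c : ℤ) * h3
  refine ⟨Y N N, fun v hv => ?_⟩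
  set t := cq ((Pᵀ)⁻¹) *ᵥ v with ht
  have hvt : v = cq Pᵀ *ᵥ t := by
    rw [ht, Matrix.mulVec_mulVec, (cq_inv hPt).2, Matrix.one_mulVec]
  have hti : ∀ i, ∃ z : ℤ, (d i : ℚ) * t i = z := by
    rw [hvt, Kst_iff hd hP hR h] at hv
    exact hv
  have e : (((d N' : ℕ) : ℤ) : ℚ) • (cq A *ᵥ v - ((Y N N : ℤ) : ℚ) • v) =
      cq Pᵀ *ᵥ ((((d N' : ℕ) : ℤ) : ℚ) • (cq Y *ᵥ t - ((Y N N : ℤ) : ℚ) • t)) := by
    rw [Matrix.mulVec_smul, Matrix.mulVec_sub, Matrix.mulVec_smul, Matrix.mulVec_mulVec,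
      ← hAP, ← Matrix.mulVec_mulVec, ← hvt]
  rw [e]
  apply IsInt.mulVec
  intro i
  have e2 : ((((d N' : ℕ) : ℤ) : ℚ) • (cq Y *ᵥ t - ((Y N N : ℤ) : ℚ) • t)) i =
      ∑ j, ((d N' : ℚ) * ((Y i j : ℚ) - if i = j then ((Y N N : ℤ) : ℚ) else 0) * t j) := by
    simp only [Pi.smul_apply, Pi.sub_apply, smul_eq_mul, Matrix.mulVec, dotProduct]
    have : ((Y N N : ℤ) : ℚ) * t i = ∑ j, (if i = j then ((Y N N : ℤ) : ℚ) else 0) * t j := by
      simp
    rw [this, ← Finset.sum_sub_distrib, Finset.mul_sum]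
    refine Finset.sum_congr rfl (fun j _ => ?_)
    simp [cq]
    split_ifs <;> ring
  rw [e2]
  apply isInt_sum
  intro j _
  by_cases hj : j = N
  · subst hj
    by_cases hi : i = N
    · subst hi
      exact ⟨0, by simp⟩
    · obtain ⟨c, hc⟩ := hdiv i hi
      obtain ⟨z, hz⟩ := hti N
      refine ⟨c * z, ?_⟩
      rw [if_neg hi, sub_zero]
      have hc' : (d N' : ℚ) * (Y i N : ℚ) = d N * c := by exact_mod_cast hc
      rw [hc']
      push_cast
      linear_combination (c : ℚ) * hz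
  · obtain ⟨c, hc⟩ := hdd j N' (hle j hj)
    obtain ⟨z, hz⟩ := hti j
    have hc' : (d N' : ℚ) = d j * c := by exact_mod_cast hc
    refine ⟨c * z * (Y i j - if i = j then Y N N else 0), ?_⟩
    rw [hc']
    push_cast
    split_ifs with hij
    · linear_combination ((Y i j : ℚ) - Y N N) * c * hz
    · linear_combination ((Y i j : ℚ) - 0) * c * hz

/-- order of `g` modulo `ℤ^n` is `d_n`. -/
lemma order_g {m : ℕ} {A : Matrix (Fin (m+2)) (Fin (m+2)) ℤ}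
    {P R : Matrix (Fin (m+2)) (Fin (m+2)) ℤ} {d : Fin (m+2) → ℕ}
    (hd : ∀ i, 0 < d i) (hdd : ∀ i j, i ≤ j → d i ∣ d j)
    (hP : IsUnit P.det) (hR : IsUnit R.det)
    (h : P * walk A * R = Matrix.diagonal (fun i => (d i : ℤ)))
    {g : Fin (m+2) → ℚ} (hg : Kst A g)
    (hgen : ∀ v, Kst A v → ∃ f : ℤ[X], v = aeval (cq A) f *ᵥ g) (k : ℤ) :
    IsInt ((k : ℚ) • g) ↔ (d (Fin.last (m+1)) : ℤ) ∣ k := by
  set N : Fin (m+2) := Fin.last (m+1) with hN
  have hPt : IsUnit (Pᵀ).det := by rwa [Matrix.det_transpose]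
  have hdN : (d N : ℚ) ≠ 0 := by exact_mod_cast (hd N).ne'
  constructor
  · intro hk
    have hKu : Kst A (cq Pᵀ *ᵥ (Pi.single N (1 / (d N : ℚ)))) := by
      rw [Kst_iff hd hP hR h]
      intro k
      by_cases hk : k = N
      · refine ⟨1, ?_⟩
        rw [hk]
        simp [hdN]
      · exact ⟨0, by simp [hk]⟩
    obtain ⟨f, hf⟩ := hgen _ hKu
    have h1 : IsInt ((k : ℚ) • (cq Pᵀ *ᵥ (Pi.single N (1 / (d N : ℚ))))) := by
      rw [hf, ← Matrix.mulVec_smul, aeval_cq]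
      exact IsInt.mulVec _ hk
    have h2 : IsInt (cq ((Pᵀ)⁻¹) *ᵥ ((k : ℚ) • (cq Pᵀ *ᵥ (Pi.single N (1 / (d N : ℚ)))))) :=
      IsInt.mulVec _ h1
    rw [← Matrix.mulVec_smul, Matrix.mulVec_mulVec, (cq_inv hPt).1, Matrix.one_mulVec] at h2
    obtain ⟨z, hz⟩ := h2 N
    simp at hz
    refine ⟨z, ?_⟩
    have : (k : ℚ) = d N * z := by
      rw [← hz]; field_simp
    exact_mod_cast this
  · rintro ⟨c, hc⟩
    set t := cq ((Pᵀ)⁻¹) *ᵥ g with ht
    have hvt : g = cq Pᵀ *ᵥ t := by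
      rw [ht, Matrix.mulVec_mulVec, (cq_inv hPt).2, Matrix.one_mulVec]
    have hti : ∀ i, ∃ z : ℤ, (d i : ℚ) * t i = z := by
      rw [hvt, Kst_iff hd hP hR h] at hg
      exact hg
    rw [hvt, ← Matrix.mulVec_smul]
    apply IsInt.mulVec
    intro i
    obtain ⟨z, hz⟩ := hti i
    obtain ⟨b, hb⟩ := hdd i N (Fin.le_last i)
    refine ⟨b * c * z, ?_⟩
    have hk' : (k : ℚ) = d i * b * c := by
      have : k = d i * b * c := by rw [hc, hb]; push_cast; ring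
      exact_mod_cast this
    simp only [Pi.smul_apply, smul_eq_mul]
    rw [hk']
    push_cast
    linear_combination (b : ℚ) * c * hz

/-- polynomial version of the scalar lemma -/
lemma scalar_poly {m : ℕ} {A : Matrix (Fin (m+2)) (Fin (m+2)) ℤ} (hA : A.IsSymm) {w a : ℤ}
    (hs : ∀ v, Kst A v → IsInt ((w : ℚ) • (cq A *ᵥ v - (a : ℚ) • v)))
    {g : Fin (m+2) → ℚ} (hg : Kst A g) (F : ℤ[X]) :
    IsInt ((w : ℚ) • (aeval (cq A) F *ᵥ g - ((F.eval a : ℤ) : ℚ) • g)) := by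
  obtain ⟨H, hH⟩ := Polynomial.X_sub_C_dvd_sub_C_eval (a := a) (p := F)
  have h1 : aeval (cq A) F *ᵥ g - ((F.eval a : ℤ) : ℚ) • g =
      cq A *ᵥ (aeval (cq A) H *ᵥ g) - (a : ℚ) • (aeval (cq A) H *ᵥ g) := by
    have h2 := congrArg (fun q : ℤ[X] => aeval (cq A) q *ᵥ g) hH
    simp only [map_sub, map_mul, aeval_X, aeval_C, Algebra.algebraMap_eq_smul_one] at h2
    rw [Matrix.sub_mulVec, ← Matrix.mulVec_mulVec, Matrix.sub_mulVec] at h2
    have e1 : ∀ (c : ℤ) (x : Fin (m+2) → ℚ),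
        (c • (1 : Matrix (Fin (m+2)) (Fin (m+2)) ℚ)) *ᵥ x = (c : ℚ) • x := by
      intro c x
      rw [Matrix.smul_mulVec, Matrix.one_mulVec]
      ext i
      simp
    rw [e1, e1] at h2
    exact h2
  rw [h1]
  exact hs _ (Kst_aeval hA hg H)

end Pool.Agent.V11105.Cosp
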