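import Pool.Agent.V11105.CospC

open Matrix Polynomial

namespace Pool.Agent.V11105.Cosp

variable {n : ℕ}

/-- intertwining -/
lemma intertwine {A B : Matrix (Fin n) (Fin n) ℤ} {Q : Matrix (Fin n) (Fin n) ℚ}
    (hQ : Qᵀ * Q = 1) (hB : Qᵀ * cq A * Q = cq B) (f : ℤ[X]) :
    aeval (cq A) f * Q = Q * aeval (cq B) f := by
  have hQ' : Q * Qᵀ = 1 := mul_eq_one_comm.mp hQ
  have h1 : cq A * Q = Q * cq B := by
    rw [← hB, ← Matrix.mul_assoc, ← Matrix.mul_assoc, hQ', Matrix.one_mul]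
  have hp : ∀ k : ℕ, (cq A) ^ k * Q = Q * (cq B) ^ k := by
    intro k
    induction k with
    | zero => simp
    | succ k ih => rw [pow_succ, Matrix.mul_assoc, h1, ← Matrix.mul_assoc, ih, Matrix.mul_assoc, ← pow_succ]
  induction f using Polynomial.induction_on' with
  | add p q hp hq => rw [map_add, map_add, Matrix.add_mul, Matrix.mul_add, hp, hq]
  | monomial k a =>
    rw [Polynomial.aeval_monomial, Polynomial.aeval_monomial, Algebra.algebraMap_eq_smul_one,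
      smul_one_mul, smul_one_mul, Matrix.smul_mul, Matrix.mul_smul, hp]

lemma col_Kst {A B : Matrix (Fin n) (Fin n) ℤ} {Q : Matrix (Fin n) (Fin n) ℚ}
    (hQ : Qᵀ * Q = 1) (h1 : Q *ᵥ (fun _ => 1) = fun _ => 1)
    (hB : Qᵀ * cq A * Q = cq B) (j : Fin n) : Kst A (fun i => Q i j) := by
  intro i
  have h2 := intertwine hQ hB (X ^ i : ℤ[X])
  rw [map_pow, map_pow, aeval_X, aeval_X] at h2
  have h3 : s A (fun k => Q k j) i = (((cq B) ^ i) *ᵥ (fun _ => 1)) j := by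
    have h4 : (cq A) ^ i *ᵥ (fun _ => (1:ℚ)) = Q *ᵥ ((cq B) ^ i *ᵥ (fun _ => 1)) := by
      rw [Matrix.mulVec_mulVec, ← h2, ← Matrix.mulVec_mulVec, h1]
    have h5 : Qᵀ *ᵥ ((cq A) ^ i *ᵥ (fun _ => (1:ℚ))) = (cq B) ^ i *ᵥ (fun _ => 1) := by
      rw [h4, Matrix.mulVec_mulVec, hQ, Matrix.one_mulVec]
    rw [← h5]
    rfl
  rw [h3, ← cq_pow]
  exact IsInt.mulVec (B ^ i) (v := fun _ => (1:ℚ)) (fun _ => ⟨1, by simp⟩) j

lemma col_quad {A B : Matrix (Fin n) (Fin n) ℤ} {Q : Matrix (Fin n) (Fin n) ℚ}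
    (hQ : Qᵀ * Q = 1) (hB : Qᵀ * cq A * Q = cq B) (j : Fin n) (f : ℤ[X]) :
    ∃ z : ℤ, (fun i => Q i j) ⬝ᵥ (aeval (cq A) f *ᵥ (fun i => Q i j)) = z := by
  have h2 := intertwine hQ hB f
  have h3 : Qᵀ * (aeval (cq A) f * Q) = aeval (cq B) f := by
    rw [h2, ← Matrix.mul_assoc, hQ, Matrix.one_mul]
  have h4 : (fun i => Q i j) ⬝ᵥ (aeval (cq A) f *ᵥ (fun i => Q i j)) =
      (Qᵀ * (aeval (cq A) f * Q)) j j := by
    rw [Matrix.mul_apply]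
    simp only [dotProduct, Matrix.transpose_apply]
    refine Finset.sum_congr rfl (fun i _ => ?_)
    congr 1
  rw [h4, h3, aeval_cq]
  exact ⟨(aeval B f) j j, rfl⟩

lemma col_sq {A B : Matrix (Fin n) (Fin n) ℤ} (hA : A.IsSymm) {Q : Matrix (Fin n) (Fin n) ℚ}
    (hQ : Qᵀ * Q = 1) (hB : Qᵀ * cq A * Q = cq B) (j : Fin n)
    {g : Fin n → ℚ}
    (hgen : ∀ v, Kst A v → ∃ f : ℤ[X], v = aeval (cq A) f *ᵥ g)
    {f : ℤ[X]} (hf : (fun i => Q i j) = aeval (cq A) f *ᵥ g) :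
    IsInt (aeval (cq A) (f ^ 2) *ᵥ g) := by
  intro i
  have hs : IsInt (Pi.single i (1:ℚ) : Fin n → ℚ) := by
    intro k
    by_cases hk : k = i
    · exact ⟨1, by rw [hk]; simp⟩
    · exact ⟨0, by simp [hk]⟩
  obtain ⟨h, hh⟩ := hgen _ (Kst_of_isInt hs)
  obtain ⟨z, hz⟩ := col_quad hQ hB j h
  refine ⟨z, ?_⟩
  rw [← hz, hf, dot_aeval hA, Matrix.mulVec_mulVec, Matrix.mulVec_mulVec, ← map_mul, ← map_mul]
  have e1 : (aeval (cq A) (f ^ 2) *ᵥ g) i =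
      (Pi.single i (1:ℚ) : Fin n → ℚ) ⬝ᵥ (aeval (cq A) (f ^ 2) *ᵥ g) := by
    simp
  rw [e1, hh, dot_aeval hA, Matrix.mulVec_mulVec, ← map_mul]
  congr 3
  ring

/-- arithmetic for one column -/
lemma col_level {m : ℕ} {A B : Matrix (Fin (m+2)) (Fin (m+2)) ℤ} (hA : A.IsSymm)
    (hW : (walk A).det ≠ 0) {d : Fin (m+2) → ℕ} (hd : IsSNF (walk A) d)
    {Q : Matrix (Fin (m+2)) (Fin (m+2)) ℚ}
    (hQ : Qᵀ * Q = 1) (h1 : Q *ᵥ (fun _ => 1) = fun _ => 1)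
    (hB : Qᵀ * cq A * Q = cq B) (j : Fin (m+2)) :
    ∃ κ : ℕ, IsInt ((κ : ℚ) • (fun i => Q i j)) ∧
      κ ^ 2 ∣ d (Fin.last (m+1)) * d (Fin.last m).castSucc := by
  obtain ⟨hd0, hdd, P, R, hP, hR, h⟩ := hd
  obtain ⟨g, hg, hg0, hg1⟩ := exists_g hW
  have hgen := gen hA hW hg hg0 hg1
  obtain ⟨a, ha⟩ := scalar_lemma hA hd0 hdd hP hR h
  obtain ⟨f, hf⟩ := hgen _ (col_Kst hQ h1 hB j)
  have hsq := col_sq hA hQ hB j hgen hf
  set N : Fin (m+2) := Fin.last (m+1) with hN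
  set N' : Fin (m+2) := (Fin.last m).castSucc with hN'
  have hs1 := scalar_poly hA ha hg f
  have hs2 := scalar_poly hA ha hg (f ^ 2)
  set b : ℤ := f.eval a with hb
  have hwb : (d N : ℤ) ∣ (d N' : ℤ) * b ^ 2 := by
    rw [← order_g hd0 hdd hP hR h hg hgen]
    have h2 : IsInt ((((d N' : ℕ) : ℤ) : ℚ) • (aeval (cq A) (f ^ 2) *ᵥ g)) := hsq.smul _
    have h3 := h2.sub hs2
    have h4 : (((d N' : ℕ) : ℤ) : ℚ) • (aeval (cq A) (f ^ 2) *ᵥ g) -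
        (((d N' : ℕ) : ℤ) : ℚ) • (aeval (cq A) (f ^ 2) *ᵥ g - (((f ^ 2).eval a : ℤ) : ℚ) • g) =
        (((d N' : ℤ) * b ^ 2 : ℤ) : ℚ) • g := by
      rw [eval_pow, ← hb, smul_sub, sub_sub_cancel, smul_smul]
      push_cast
      rfl
    rw [h4] at h3
    exact h3
  have hwd : d N' ∣ d N := hdd N' N (Fin.le_last _)
  have hdN := hd0 N
  have hdN' := hd0 N'
  set G : ℕ := Nat.gcd (d N) (d N' * b.natAbs) with hG
  have hGpos : 0 < G := Nat.gcd_pos_of_pos_left _ hdN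
  obtain ⟨m0, hm0⟩ : G ∣ d N := Nat.gcd_dvd_left _ _
  have hwb' : d N ∣ d N' * b.natAbs ^ 2 := by
    have := Int.natAbs_dvd_natAbs.mpr hwb
    simpa [Int.natAbs_mul, Int.natAbs_pow] using this
  -- w * dN ∣ G ^ 2
  have hG2 : d N' * d N ∣ G ^ 2 := by
    rw [hG, ← Nat.pow_gcd_pow]
    apply Nat.dvd_gcd
    · rw [pow_two]
      exact Nat.mul_dvd_mul hwd dvd_rfl
    · have : (d N' * b.natAbs) ^ 2 = d N' * (d N' * b.natAbs ^ 2) := by ring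
      rw [this]
      exact Nat.mul_dvd_mul_left _ hwb'
  refine ⟨m0 * d N', ?_, ?_⟩
  · -- integrality
    obtain ⟨c, hc⟩ : (G : ℤ) ∣ (d N' : ℤ) * b := by
      have : G ∣ d N' * b.natAbs := Nat.gcd_dvd_right _ _
      have h5 : G ∣ ((d N' : ℤ) * b).natAbs := by
        rwa [Int.natAbs_mul, Int.natAbs_natCast]
      exact Int.natCast_dvd.mpr h5
    have h6 : (d N : ℤ) ∣ (m0 : ℤ) * ((d N' : ℤ) * b) := by
      refine ⟨c, ?_⟩
      rw [hc, hm0]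
      push_cast
      ring
    have h7 : IsInt ((((m0 : ℤ) * ((d N' : ℤ) * b) : ℤ) : ℚ) • g) :=
      (order_g hd0 hdd hP hR h hg hgen _).mpr h6
    have h8 := (hs1.smul (m0 : ℤ)).add h7
    have h9 : ((m0 * d N' : ℕ) : ℚ) • (fun i => Q i j) =
        ((m0 : ℤ) : ℚ) • (((d N' : ℕ) : ℤ) : ℚ) • (aeval (cq A) f *ᵥ g - ((b : ℤ) : ℚ) • g) +
        (((m0 : ℤ) * ((d N' : ℤ) * b) : ℤ) : ℚ) • g := by
      rw [hf]
      ext i
      simp only [Pi.smul_apply, Pi.add_apply, Pi.sub_apply, smul_eq_mul]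
      push_cast
      ring
    rw [h9]
    exact h8
  · -- divisibility
    obtain ⟨c, hc⟩ := hG2
    refine ⟨c, ?_⟩
    have : (G ^ 2) * (d N * d N') = G ^ 2 * ((m0 * d N') ^ 2 * c) := by
      have e1 : G ^ 2 * ((m0 * d N') ^ 2 * c) = (G * m0) ^ 2 * (d N') ^ 2 * c := by ring
      rw [e1, ← hm0, hc]
      ring
    exact Nat.eq_of_mul_eq_mul_left (by positivity) this

end Pool.Agent.V11105.Cosp
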