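import Mathlib

/-! A strong law of large numbers for bounded orthogonal random variables, and the resampling
invariance of an infinite product measure. -/

set_option autoImplicit false
open MeasureTheory Filter Topology

namespace Pool.Agent.V11105.OrthSlln

section slln

variable {Ω : Type*} [MeasurableSpace Ω] {μ : Measure Ω} [IsProbabilityMeasure μ]

lemma abs_sum_le (D : ℕ → Ω → ℝ) (C : ℝ) (hb : ∀ i ω, |D i ω| ≤ C) (s : Finset ℕ) (ω : Ω) :
    |∑ i ∈ s, D i ω| ≤ s.card * C := by
  calc |∑ i ∈ s, D i ω| ≤ ∑ i ∈ s, |D i ω| := Finset.abs_sum_le_sum_abs _ _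
    _ ≤ ∑ i ∈ s, C := Finset.sum_le_sum fun i _ => hb i ω
    _ = s.card * C := by rw [Finset.sum_const, nsmul_eq_mul]

lemma integrable_of_bdd {f : Ω → ℝ} (hf : Measurable f) {K : ℝ} (hK : ∀ ω, |f ω| ≤ K) :
    Integrable f μ :=
  Integrable.of_bound hf.aestronglyMeasurable K (Eventually.of_forall hK)

lemma second_moment (D : ℕ → Ω → ℝ) (C : ℝ) (hm : ∀ i, Measurable (D i))
    (hb : ∀ i ω, |D i ω| ≤ C) (horth : ∀ i j, i < j → ∫ ω, D i ω * D j ω ∂μ = 0) (n : ℕ) :
    ∫ ω, (∑ i ∈ Finset.range n, D i ω) ^ 2 ∂μ ≤ n * C ^ 2 := by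
  obtain ⟨ω0⟩ : Nonempty Ω := nonempty_of_isProbabilityMeasure μ
  have hC : 0 ≤ C := (abs_nonneg _).trans (hb 0 ω0)
  have hS : ∀ n, Measurable fun ω => ∑ i ∈ Finset.range n, D i ω := fun n =>
    Finset.measurable_sum _ fun i _ => hm i
  have hSb : ∀ n ω, |∑ i ∈ Finset.range n, D i ω| ≤ n * C := fun n ω => by
    have := abs_sum_le D C hb (Finset.range n) ω
    rwa [Finset.card_range] at this
  induction n with
  | zero => simp
  | succ n ih =>
    have hcross : ∫ ω, (∑ i ∈ Finset.range n, D i ω) * D n ω ∂μ = 0 := by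
      simp_rw [Finset.sum_mul]
      rw [integral_finsetSum]
      · exact Finset.sum_eq_zero fun i hi => horth i n (Finset.mem_range.1 hi)
      · intro i _
        refine integrable_of_bdd ((hm i).mul (hm n)) (K := C * C) fun ω => ?_
        rw [abs_mul]
        exact mul_le_mul (hb i ω) (hb n ω) (abs_nonneg _) hC
    have hI1 : Integrable (fun ω => (∑ i ∈ Finset.range n, D i ω) ^ 2) μ := by
      refine integrable_of_bdd ((hS n).pow_const 2) (K := (n * C) ^ 2) fun ω => ?_
      rw [abs_pow]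
      exact pow_le_pow_left₀ (abs_nonneg _) (hSb n ω) 2
    have hI2 : Integrable (fun ω => (∑ i ∈ Finset.range n, D i ω) * D n ω) μ := by
      refine integrable_of_bdd ((hS n).mul (hm n)) (K := (n * C) * C) fun ω => ?_
      rw [abs_mul]
      exact mul_le_mul (hSb n ω) (hb n ω) (abs_nonneg _) (by positivity)
    have hI3 : Integrable (fun ω => D n ω ^ 2) μ := by
      refine integrable_of_bdd ((hm n).pow_const 2) (K := C ^ 2) fun ω => ?_
      rw [abs_pow]
      exact pow_le_pow_left₀ (abs_nonneg _) (hb n ω) 2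
    have hexp : ∀ ω, (∑ i ∈ Finset.range (n + 1), D i ω) ^ 2
        = (∑ i ∈ Finset.range n, D i ω) ^ 2 + 2 * ((∑ i ∈ Finset.range n, D i ω) * D n ω)
          + D n ω ^ 2 := by
      intro ω
      rw [Finset.sum_range_succ]
      ring
    simp_rw [hexp]
    have e1 : ∫ ω, ((∑ i ∈ Finset.range n, D i ω) ^ 2
        + 2 * ((∑ i ∈ Finset.range n, D i ω) * D n ω)) + D n ω ^ 2 ∂μ
        = ∫ ω, ((∑ i ∈ Finset.range n, D i ω) ^ 2
        + 2 * ((∑ i ∈ Finset.range n, D i ω) * D n ω)) ∂μ + ∫ ω, D n ω ^ 2 ∂μ :=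
      integral_add (hI1.add (hI2.const_mul 2)) hI3
    have e2 : ∫ ω, ((∑ i ∈ Finset.range n, D i ω) ^ 2
        + 2 * ((∑ i ∈ Finset.range n, D i ω) * D n ω)) ∂μ
        = ∫ ω, (∑ i ∈ Finset.range n, D i ω) ^ 2 ∂μ
        + ∫ ω, 2 * ((∑ i ∈ Finset.range n, D i ω) * D n ω) ∂μ :=
      integral_add hI1 (hI2.const_mul 2)
    rw [e1, e2, integral_const_mul, hcross]
    have h3 : ∫ ω, D n ω ^ 2 ∂μ ≤ C ^ 2 := by
      have : ∫ ω, D n ω ^ 2 ∂μ ≤ ∫ _, C ^ 2 ∂μ := by
        refine integral_mono hI3 (integrable_const _) fun ω => ?_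
        show D n ω ^ 2 ≤ C ^ 2
        rw [← sq_abs]
        exact pow_le_pow_left₀ (abs_nonneg _) (hb n ω) 2
      simpa using this
    push_cast
    nlinarith

theorem slln (D : ℕ → Ω → ℝ) (C : ℝ) (hm : ∀ i, Measurable (D i))
    (hb : ∀ i ω, |D i ω| ≤ C) (horth : ∀ i j, i < j → ∫ ω, D i ω * D j ω ∂μ = 0) :
    ∀ᵐ ω ∂μ, Tendsto (fun n : ℕ => (∑ i ∈ Finset.range n, D i ω) / n) atTop (𝓝 0) := by
  obtain ⟨ω0⟩ : Nonempty Ω := nonempty_of_isProbabilityMeasure μ
  have hC : 0 ≤ C := (abs_nonneg _).trans (hb 0 ω0)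
  set S : ℕ → Ω → ℝ := fun n ω => ∑ i ∈ Finset.range n, D i ω with hSdef
  have hS : ∀ n, Measurable (S n) := fun n => Finset.measurable_sum _ fun i _ => hm i
  -- squares
  have hae : ∀ᵐ ω ∂μ, Tendsto (fun k : ℕ => (S (k ^ 2) ω / (k : ℝ) ^ 2) ^ 2) atTop (𝓝 0) := by
    have hsum : ∑' k : ℕ, ∫⁻ ω, ENNReal.ofReal ((S (k ^ 2) ω / (k : ℝ) ^ 2) ^ 2) ∂μ ≠ ⊤ := by
      have hle : ∀ k : ℕ, ∫⁻ ω, ENNReal.ofReal ((S (k ^ 2) ω / (k : ℝ) ^ 2) ^ 2) ∂μ
          ≤ ENNReal.ofReal (C ^ 2 * (1 / (k : ℝ) ^ 2)) := by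
        intro k
        have hint : Integrable (fun ω => (S (k ^ 2) ω / (k : ℝ) ^ 2) ^ 2) μ := by
          refine integrable_of_bdd (((hS _).div_const _).pow_const 2)
            (K := (((k ^ 2 : ℕ) : ℝ) * C / (k : ℝ) ^ 2) ^ 2) fun ω => ?_
          rw [abs_pow, abs_div, abs_of_nonneg (by positivity : (0 : ℝ) ≤ (k : ℝ) ^ 2)]
          refine pow_le_pow_left₀ (by positivity) ?_ 2
          refine div_le_div_of_nonneg_right ?_ (by positivity)
          have := abs_sum_le D C hb (Finset.range (k ^ 2)) ω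
          rwa [Finset.card_range] at this
        rw [← ofReal_integral_eq_lintegral_ofReal hint (Eventually.of_forall fun ω => sq_nonneg _)]
        refine ENNReal.ofReal_le_ofReal ?_
        have h2 := second_moment (μ := μ) D C hm hb horth (k ^ 2)
        simp_rw [div_pow]
        rw [integral_div]
        rcases Nat.eq_zero_or_pos k with hk | hk
        · subst hk
          simp
        · have hk' : (0 : ℝ) < k := by exact_mod_cast hk
          rw [div_le_iff₀ (by positivity)]
          refine h2.trans (le_of_eq ?_)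
          push_cast
          field_simp
      refine ne_top_of_le_ne_top ?_ (ENNReal.tsum_le_tsum hle)
      have hs : Summable fun k : ℕ => C ^ 2 * (1 / (k : ℝ) ^ 2) :=
        (Real.summable_one_div_nat_pow.2 (by norm_num)).mul_left _
      rw [← ENNReal.ofReal_tsum_of_nonneg (fun k => by positivity) hs]
      exact ENNReal.ofReal_ne_top
    rw [← lintegral_tsum (fun k => (((hS _).div_const _).pow_const 2).ennreal_ofReal.aemeasurable)]
      at hsum
    have h1 := ae_lt_top' (AEMeasurable.ennreal_tsum fun k =>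
      (((hS (k ^ 2)).div_const ((k : ℝ) ^ 2)).pow_const 2).ennreal_ofReal.aemeasurable) hsum
    filter_upwards [h1] with ω hω
    have h2 := ENNReal.tendsto_atTop_zero_of_tsum_ne_top hω.ne
    have h3 := (ENNReal.tendsto_toReal ENNReal.zero_ne_top).comp h2
    simp only [ENNReal.toReal_zero] at h3
    refine h3.congr fun k => ?_
    show (ENNReal.ofReal _).toReal = _
    rw [ENNReal.toReal_ofReal (sq_nonneg _)]
  filter_upwards [hae] with ω hω
  have h1 : Tendsto (fun k : ℕ => |S (k ^ 2) ω / (k : ℝ) ^ 2|) atTop (𝓝 0) := by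
    have := (Real.continuous_sqrt.tendsto 0).comp hω
    rw [Real.sqrt_zero] at this
    refine this.congr fun k => ?_
    show Real.sqrt _ = _
    rw [Real.sqrt_sq_eq_abs]
  have hsq : Tendsto (fun n : ℕ => Nat.sqrt n) atTop atTop := by
    refine tendsto_atTop.2 fun b => ?_
    filter_upwards [eventually_ge_atTop (b * b)] with n hn
    exact Nat.le_sqrt.2 hn
  have h2 : Tendsto (fun k : ℕ => |S (k ^ 2) ω / (k : ℝ) ^ 2| + 2 * C * (1 / (k : ℝ))) atTop (𝓝 0) := by
    have := h1.add ((tendsto_one_div_atTop_nhds_zero_nat (𝕜 := ℝ)).const_mul (2 * C))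
    simpa using this
  have h3 := h2.comp hsq
  refine squeeze_zero_norm' ?_ h3
  filter_upwards [eventually_ge_atTop 1] with n hn
  set k := Nat.sqrt n with hk
  have hk1 : 1 ≤ k := Nat.le_sqrt.2 (by simpa using hn)
  have hkn : k ^ 2 ≤ n := by rw [pow_two]; exact Nat.sqrt_le n
  have hkn2 : n ≤ k ^ 2 + 2 * k := by
    have h5 := Nat.sqrt_le_add n
    rw [← hk] at h5
    rw [pow_two]
    omega
  have hk0 : (0 : ℝ) < k := by exact_mod_cast hk1
  have hn0 : (0 : ℝ) < n := by exact_mod_cast hn
  have hdiff : |S n ω - S (k ^ 2) ω| ≤ 2 * k * C := by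
    have : S n ω - S (k ^ 2) ω = ∑ i ∈ Finset.Ico (k ^ 2) n, D i ω := by
      rw [Finset.sum_Ico_eq_sub _ hkn]
    rw [this]
    have h4 := abs_sum_le D C hb (Finset.Ico (k ^ 2) n) ω
    rw [Nat.card_Ico] at h4
    refine h4.trans ?_
    have : ((n - k ^ 2 : ℕ) : ℝ) ≤ 2 * k := by
      have : n - k ^ 2 ≤ 2 * k := by omega
      exact_mod_cast this
    exact mul_le_mul_of_nonneg_right this hC
  have hknR : (k : ℝ) ^ 2 ≤ n := by exact_mod_cast hkn
  have hSn : |S n ω| ≤ |S (k ^ 2) ω| + 2 * k * C := by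
    have : S n ω = S (k ^ 2) ω + (S n ω - S (k ^ 2) ω) := by ring
    rw [this]
    exact (abs_add_le _ _).trans (by linarith)
  show ‖S n ω / n‖ ≤ |S (k ^ 2) ω / (k : ℝ) ^ 2| + 2 * C * (1 / (k : ℝ))
  rw [Real.norm_eq_abs, abs_div, abs_div, abs_of_pos hn0, abs_of_pos (by positivity : (0 : ℝ) < (k : ℝ) ^ 2)]
  calc |S n ω| / n ≤ |S n ω| / (k : ℝ) ^ 2 :=
        div_le_div_of_nonneg_left (abs_nonneg _) (by positivity) hknR
    _ ≤ (|S (k ^ 2) ω| + 2 * k * C) / (k : ℝ) ^ 2 := div_le_div_of_nonneg_right hSn (by positivity)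
    _ = |S (k ^ 2) ω| / (k : ℝ) ^ 2 + 2 * C * (1 / (k : ℝ)) := by
        field_simp

end slln

section resample

variable {X : Type*} [MeasurableSpace X] (q : Measure X) [IsProbabilityMeasure q]

/-- Replacing one coordinate by an independent copy does not change the product measure. -/
lemma map_update (j : ℤ) :
    Measure.map (fun z : (ℤ → X) × X => Function.update z.1 j z.2)
      ((Measure.infinitePi fun _ : ℤ => q).prod q) = Measure.infinitePi fun _ : ℤ => q := by
  refine Measure.eq_infinitePi _ fun s t ht => ?_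
  have hmeas : Measurable fun z : (ℤ → X) × X => Function.update z.1 j z.2 := by
    refine measurable_pi_lambda _ fun i => ?_
    by_cases h : i = j
    · subst h
      simpa using measurable_snd
    · simp only [Function.update_of_ne h]
      exact (measurable_pi_apply i).comp measurable_fst
  rw [Measure.map_apply hmeas (MeasurableSet.pi s.countable_toSet fun i _ => ht i)]
  by_cases hj : j ∈ s
  · have hset : (fun z : (ℤ → X) × X => Function.update z.1 j z.2) ⁻¹' (Set.pi (s : Set ℤ) t)
        = (Set.pi ((s.erase j : Finset ℤ) : Set ℤ) t) ×ˢ t j := by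
      ext ⟨x, y⟩
      simp only [Set.mem_preimage, Set.mem_pi, Set.mem_prod, Finset.mem_coe, Finset.mem_erase]
      constructor
      · intro h
        refine ⟨fun i hi => ?_, ?_⟩
        · have := h i hi.2
          rwa [Function.update_of_ne hi.1] at this
        · have := h j hj
          rwa [Function.update_self] at this
      · rintro ⟨h1, h2⟩ i hi
        by_cases h : i = j
        · subst h
          rwa [Function.update_self]
        · rw [Function.update_of_ne h]
          exact h1 i ⟨h, hi⟩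
    rw [hset, Measure.prod_prod, Measure.infinitePi_pi _ (fun i _ => ht i), mul_comm,
      Finset.mul_prod_erase s (fun i => q (t i)) hj]
  · have hset : (fun z : (ℤ → X) × X => Function.update z.1 j z.2) ⁻¹' (Set.pi (s : Set ℤ) t)
        = (Set.pi (s : Set ℤ) t) ×ˢ Set.univ := by
      ext ⟨x, y⟩
      simp only [Set.mem_preimage, Set.mem_pi, Set.mem_prod, Finset.mem_coe, Set.mem_univ, and_true]
      have : ∀ i ∈ s, Function.update x j y i = x i := by
        intro i hi
        have : i ≠ j := fun h => hj (h ▸ hi)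
        rw [Function.update_of_ne this]
      constructor
      · intro h i hi
        have h' := h i hi
        rwa [this i hi] at h'
      · intro h i hi
        rw [this i hi]
        exact h i hi
    rw [hset, Measure.prod_prod, Measure.infinitePi_pi _ (fun i _ => ht i), measure_univ, mul_one]

/-- If `F` does not depend on the coordinate `j` and `∫ d (x i) y dq(y) = 0` for every `x`, then
`F x * d (x i) (x j)` integrates to `0`. -/
lemma integral_mul_eq_zero {i j : ℤ} (hij : i ≠ j) (F : (ℤ → X) → ℝ) (d : X → X → ℝ)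
    (hF : Measurable F) (hd : Measurable fun z : X × X => d z.1 z.2)
    {K L : ℝ} (hFb : ∀ x, |F x| ≤ K) (hdb : ∀ a b, |d a b| ≤ L)
    (hFj : ∀ x y, F (Function.update x j y) = F x)
    (hd0 : ∀ᵐ a ∂q, ∫ y, d a y ∂q = 0) :
    ∫ x, F x * d (x i) (x j) ∂(Measure.infinitePi fun _ : ℤ => q) = 0 := by
  have hmeas : Measurable fun z : (ℤ → X) × X => Function.update z.1 j z.2 := by
    refine measurable_pi_lambda _ fun i => ?_
    by_cases h : i = j
    · subst h
      simpa using measurable_snd
    · simp only [Function.update_of_ne h]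
      exact (measurable_pi_apply i).comp measurable_fst
  have hG : Measurable fun x : ℤ → X => F x * d (x i) (x j) := by
    have h := hd.comp (f := fun x : ℤ → X => (x i, x j))
      ((measurable_pi_apply i).prodMk (measurable_pi_apply j))
    exact hF.mul h
  conv_lhs => rw [← map_update q j]
  rw [integral_map hmeas.aemeasurable hG.aestronglyMeasurable]
  have h1 : ∀ z : (ℤ → X) × X, F (Function.update z.1 j z.2) *
      d (Function.update z.1 j z.2 i) (Function.update z.1 j z.2 j) = F z.1 * d (z.1 i) z.2 := by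
    intro z
    rw [hFj, Function.update_of_ne hij, Function.update_self]
  simp_rw [h1]
  have hG2 : Measurable fun z : (ℤ → X) × X => F z.1 * d (z.1 i) z.2 := by
    have h := hd.comp (f := fun z : (ℤ → X) × X => (z.1 i, z.2))
      (((measurable_pi_apply i).comp measurable_fst).prodMk measurable_snd)
    exact (hF.comp measurable_fst).mul h
  have hint : Integrable (fun z : (ℤ → X) × X => F z.1 * d (z.1 i) z.2)
      ((Measure.infinitePi fun _ : ℤ => q).prod q) := by
    refine integrable_of_bdd hG2 (K := |K| * |L|) fun z => ?_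
    rw [abs_mul]
    exact mul_le_mul ((hFb _).trans (le_abs_self _)) ((hdb _ _).trans (le_abs_self _))
      (abs_nonneg _) (abs_nonneg _)
  rw [integral_prod _ hint]
  have hae : ∀ᵐ x ∂(Measure.infinitePi fun _ : ℤ => q), ∫ y, d (x i) y ∂q = 0 := by
    have hmp := measurePreserving_eval_infinitePi (fun _ : ℤ => q) i
    exact hmp.quasiMeasurePreserving.ae hd0
  refine integral_eq_zero_of_ae ?_
  filter_upwards [hae] with x hx
  show ∫ y, F x * d (x i) y ∂q = 0
  rw [integral_const_mul, hx, mul_zero]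

end resample

end Pool.Agent.V11105.OrthSlln
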