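import Mathlib
import Pool.Agent.V11105.OrthSlln

/-! The signed counting process which changes direction whenever two consecutive coordinates of an
i.i.d. sequence agree. -/

set_option autoImplicit false
open MeasureTheory Filter Topology

namespace Pool.Agent.V11105.FlipProcess

open Classical in
/-- `-1` if the two entries agree and `1` otherwise. -/
noncomputable def tt {X : Type*} (a b : X) : ℤ := if a = b then -1 else 1

open Classical in
/-- `0` if the two entries agree and `1` otherwise. -/
noncomputable def ss {X : Type*} (a b : X) : ℤ := if a = b then 0 else 1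

/-- The current direction. -/
noncomputable def par {X : Type*} (n : ℕ) (x : ℤ → X) : ℤ :=
  ∏ k ∈ Finset.range n, tt (x (k : ℤ)) (x ((k : ℤ) + 1))

/-- The signed total. -/
noncomputable def tot {X : Type*} (n : ℕ) (x : ℤ → X) : ℤ :=
  ∑ k ∈ Finset.range n, par k x * ss (x (k : ℤ)) (x ((k : ℤ) + 1))

variable {X : Type*}

lemma par_succ (n : ℕ) (x : ℤ → X) :
    par (n + 1) x = par n x * tt (x (n : ℤ)) (x ((n : ℤ) + 1)) := by
  unfold par
  rw [Finset.prod_range_succ]

lemma tot_succ (n : ℕ) (x : ℤ → X) :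
    tot (n + 1) x = tot n x + par n x * ss (x (n : ℤ)) (x ((n : ℤ) + 1)) := by
  unfold tot
  rw [Finset.sum_range_succ]

lemma abs_tt (a b : X) : |tt a b| = 1 := by
  unfold tt
  split_ifs <;> simp

lemma abs_par (n : ℕ) (x : ℤ → X) : |par n x| = 1 := by
  unfold par
  rw [Finset.abs_prod]
  exact Finset.prod_eq_one fun k _ => abs_tt _ _

lemma par_update (n : ℕ) (x : ℤ → X) (j : ℤ) (hj : (n : ℤ) < j) (y : X) :
    par n (Function.update x j y) = par n x := by
  unfold par
  refine Finset.prod_congr rfl fun k hk => ?_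
  have hk' : (k : ℤ) < n := by exact_mod_cast Finset.mem_range.1 hk
  rw [Function.update_of_ne (by omega), Function.update_of_ne (by omega)]

variable [MeasurableSpace X] [MeasurableEq X]

lemma measurable_tt {β : Type*} [MeasurableSpace β] {f g : β → X} (hf : Measurable f)
    (hg : Measurable g) : Measurable fun z => tt (f z) (g z) := by
  classical
  unfold tt
  exact Measurable.ite (measurableSet_eq_fun hf hg) measurable_const measurable_const

lemma measurable_ss {β : Type*} [MeasurableSpace β] {f g : β → X} (hf : Measurable f)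
    (hg : Measurable g) : Measurable fun z => ss (f z) (g z) := by
  classical
  unfold ss
  exact Measurable.ite (measurableSet_eq_fun hf hg) measurable_const measurable_const

lemma measurable_par (n : ℕ) : Measurable fun x : ℤ → X => par n x := by
  unfold par
  exact Finset.measurable_prod _ fun k _ => measurable_tt (measurable_pi_apply _) (measurable_pi_apply _)

/-- Under a measure without atoms no two consecutive coordinates agree. -/
lemma ae_tot_eq (p : Measure X) [IsProbabilityMeasure p] (hp : ∀ a, p {a} = 0) :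
    ∀ᵐ x ∂(Measure.infinitePi fun _ : ℤ => p), ∀ n : ℕ, tot n x = n := by
  have h1 : ∀ k : ℕ, ∀ᵐ x ∂(Measure.infinitePi fun _ : ℤ => p), x (k : ℤ) ≠ x ((k : ℤ) + 1) := by
    intro k
    classical
    set E : Set (ℤ → X) := {x | x (k : ℤ) = x ((k : ℤ) + 1)} with hE
    have hEm : MeasurableSet E := measurableSet_eq_fun (measurable_pi_apply _) (measurable_pi_apply _)
    have hd : Measurable fun z : X × X => (if z.1 = z.2 then (1 : ℝ) else 0) :=
      Measurable.ite (measurableSet_eq_fun measurable_fst measurable_snd) measurable_const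
        measurable_const
    have h0 := OrthSlln.integral_mul_eq_zero p (i := (k : ℤ)) (j := (k : ℤ) + 1) (by omega)
      (fun _ => (1 : ℝ)) (fun a b => if a = b then (1 : ℝ) else 0) measurable_const hd
      (K := 1) (L := 1) (fun x => by simp) (fun a b => by split_ifs <;> simp)
      (fun x y => rfl) (Eventually.of_forall fun a => by
        refine integral_eq_zero_of_ae ?_
        have : ∀ᵐ y ∂p, y ≠ a := by
          rw [ae_iff]
          simpa using hp a
        filter_upwards [this] with y hy
        show (if a = y then (1 : ℝ) else 0) = 0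
        rw [if_neg (Ne.symm hy)])
    have h2 : ∫ x, E.indicator (fun _ => (1 : ℝ)) x ∂(Measure.infinitePi fun _ : ℤ => p) = 0 := by
      rw [← h0]
      refine integral_congr_ae (Eventually.of_forall fun x => ?_)
      show E.indicator (fun _ => (1 : ℝ)) x
        = 1 * (if x (k : ℤ) = x ((k : ℤ) + 1) then (1 : ℝ) else 0)
      by_cases hx : x (k : ℤ) = x ((k : ℤ) + 1)
      · rw [Set.indicator_of_mem (show x ∈ E from hx), if_pos hx, one_mul]
      · rw [Set.indicator_of_notMem (show x ∉ E from hx), if_neg hx, mul_zero]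
    rw [integral_indicator hEm, integral_const, smul_eq_mul, mul_one, measureReal_restrict_apply
      MeasurableSet.univ, Set.univ_inter, measureReal_eq_zero_iff] at h2
    rw [ae_iff]
    have : {a : ℤ → X | ¬ a (k : ℤ) ≠ a ((k : ℤ) + 1)} = E := by
      ext x
      simp [hE]
    rw [this]
    exact h2
  filter_upwards [ae_all_iff.2 h1] with x hx
  have hpar : ∀ n, par n x = 1 := by
    intro n
    unfold par
    refine Finset.prod_eq_one fun k _ => ?_
    unfold tt
    rw [if_neg (hx k)]
  intro n
  induction n with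
  | zero => simp [tot]
  | succ n ih =>
    rw [tot_succ, ih, hpar]
    unfold ss
    rw [if_neg (hx n)]
    push_cast
    ring

/-- The perturbed measure. -/
noncomputable def pert (p : Measure X) (ε : ℝ) (z : X) : Measure X :=
  ENNReal.ofReal (1 - ε) • p + ENNReal.ofReal ε • Measure.dirac z

lemma isProb_pert (p : Measure X) [IsProbabilityMeasure p] {ε : ℝ} (h0 : 0 ≤ ε) (h1 : ε ≤ 1)
    (z : X) : IsProbabilityMeasure (pert p ε z) := by
  constructor
  unfold pert
  rw [Measure.add_apply, Measure.smul_apply, Measure.smul_apply, measure_univ, measure_univ,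
    smul_eq_mul, smul_eq_mul, mul_one, mul_one, ← ENNReal.ofReal_add (by linarith) h0]
  simp

lemma integral_pert (p : Measure X) [IsProbabilityMeasure p] {ε : ℝ} (h0 : 0 ≤ ε) (h1 : ε ≤ 1)
    (z : X) (f : X → ℝ) (hf : Measurable f) {K : ℝ} (hK : ∀ a, |f a| ≤ K) :
    ∫ a, f a ∂(pert p ε z) = (1 - ε) * ∫ a, f a ∂p + ε * f z := by
  unfold pert
  have hi1 : Integrable f p := OrthSlln.integrable_of_bdd hf hK
  have hi2 : Integrable f (Measure.dirac z) := OrthSlln.integrable_of_bdd hf hK
  rw [integral_add_measure (hi1.smul_measure ENNReal.ofReal_ne_top)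
    (hi2.smul_measure ENNReal.ofReal_ne_top), integral_smul_measure, integral_smul_measure,
    integral_dirac' _ _ hf.stronglyMeasurable, ENNReal.toReal_ofReal (by linarith),
    ENNReal.toReal_ofReal h0, smul_eq_mul, smul_eq_mul]

/-- The solution of the twisted Poisson equation. -/
noncomputable def gg (ε : ℝ) (z a : X) : ℝ := by
  classical
  exact (1 - ε ^ 2) / (2 * ε ^ 2) + (if a = z then 0 else 1 / ε)

/-- The martingale increment. -/
noncomputable def dd (ε : ℝ) (z a b : X) : ℝ := (ss a b : ℝ) + (tt a b : ℝ) * gg ε z b - gg ε z a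

omit [MeasurableSpace X] [MeasurableEq X] in
lemma abs_gg {ε : ℝ} (h0 : 0 < ε) (h1 : ε ≤ 1) (z a : X) :
    |gg ε z a| ≤ (1 - ε ^ 2) / (2 * ε ^ 2) + 1 / ε := by
  classical
  have h2 : 0 ≤ (1 - ε ^ 2) / (2 * ε ^ 2) := by
    apply div_nonneg _ (by positivity)
    nlinarith
  have h3 : 0 < 1 / ε := by positivity
  unfold gg
  split_ifs
  · rw [abs_of_nonneg (by linarith)]
    linarith
  · rw [abs_of_nonneg (by linarith)]

omit [MeasurableSpace X] [MeasurableEq X] in
lemma abs_dd {ε : ℝ} (h0 : 0 < ε) (h1 : ε ≤ 1) (z a b : X) :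
    |dd ε z a b| ≤ 1 + 2 * ((1 - ε ^ 2) / (2 * ε ^ 2) + 1 / ε) := by
  have h2 : |(ss a b : ℝ)| ≤ 1 := by
    unfold ss
    split_ifs <;> simp
  have h3 : |(tt a b : ℝ)| = 1 := by
    have := abs_tt a b
    exact_mod_cast this
  have h4 : |(tt a b : ℝ) * gg ε z b| ≤ (1 - ε ^ 2) / (2 * ε ^ 2) + 1 / ε := by
    rw [abs_mul, h3, one_mul]
    exact abs_gg h0 h1 z b
  have h5 := abs_gg h0 h1 z a
  unfold dd
  rw [abs_le] at *
  constructor <;> linarith [h2.1, h2.2, h4.1, h4.2, h5.1, h5.2]

lemma measurable_gg [MeasurableSingletonClass X] (ε : ℝ) (z : X) : Measurable (gg ε z) := by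
  classical
  unfold gg
  exact measurable_const.add (Measurable.ite (measurableSet_singleton z) measurable_const
    measurable_const)

lemma measurable_dd [MeasurableSingletonClass X] (ε : ℝ) (z : X) :
    Measurable fun w : X × X => dd ε z w.1 w.2 := by
  unfold dd
  have h1 : Measurable fun w : X × X => (ss w.1 w.2 : ℝ) :=
    measurable_from_top.comp (measurable_ss measurable_fst measurable_snd)
  have h2 : Measurable fun w : X × X => (tt w.1 w.2 : ℝ) :=
    measurable_from_top.comp (measurable_tt measurable_fst measurable_snd)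
  exact (h1.add (h2.mul ((measurable_gg ε z).comp measurable_snd))).sub
    ((measurable_gg ε z).comp measurable_fst)

lemma integral_dd [MeasurableSingletonClass X] (p : Measure X) [IsProbabilityMeasure p]
    (hp : ∀ a, p {a} = 0) {ε : ℝ} (h0 : 0 < ε) (h1 : ε ≤ 1) (z a : X) :
    ∫ y, dd ε z a y ∂(pert p ε z) = 0 := by
  classical
  have hm : Measurable fun y => dd ε z a y :=
    (measurable_dd ε z).comp (measurable_const.prodMk measurable_id)
  rw [integral_pert p h0.le h1 z _ hm (abs_dd h0 h1 z a)]
  have h2 : ∫ y, dd ε z a y ∂p = 1 + ((1 - ε ^ 2) / (2 * ε ^ 2) + 1 / ε) - gg ε z a := by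
    have hne : ∀ b : X, ∀ᵐ y ∂p, y ≠ b := by
      intro b
      rw [ae_iff]
      simpa using hp b
    have : ∫ y, dd ε z a y ∂p
        = ∫ _y, (1 + ((1 - ε ^ 2) / (2 * ε ^ 2) + 1 / ε) - gg ε z a) ∂p := by
      refine integral_congr_ae ?_
      filter_upwards [hne a, hne z] with y hya hyz
      unfold dd ss tt
      rw [if_neg (Ne.symm hya), if_neg (Ne.symm hya)]
      have : gg ε z y = (1 - ε ^ 2) / (2 * ε ^ 2) + 1 / ε := by
        unfold gg
        rw [if_neg hyz]
      rw [this]
      push_cast
      ring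
    rw [this]
    simp
  rw [h2]
  have hzz : gg ε z z = (1 - ε ^ 2) / (2 * ε ^ 2) := by
    unfold gg
    rw [if_pos rfl, add_zero]
  by_cases haz : a = z
  · subst haz
    have : dd ε a a a = -2 * ((1 - ε ^ 2) / (2 * ε ^ 2)) := by
      unfold dd ss tt
      rw [if_pos rfl, if_pos rfl, hzz]
      push_cast
      ring
    rw [this, hzz]
    field_simp
    ring
  · have hga : gg ε z a = (1 - ε ^ 2) / (2 * ε ^ 2) + 1 / ε := by
      unfold gg
      rw [if_neg haz]
    have : dd ε z a z = 1 - 1 / ε := by
      unfold dd ss tt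
      rw [if_neg haz, if_neg haz, hzz, hga]
      push_cast
      ring
    rw [this, hga]
    field_simp
    ring

omit [MeasurableSpace X] [MeasurableEq X] in
lemma sum_dd (ε : ℝ) (z : X) (n : ℕ) (x : ℤ → X) :
    ∑ k ∈ Finset.range n, (par k x : ℝ) * dd ε z (x (k : ℤ)) (x ((k : ℤ) + 1))
      = (tot n x : ℝ) + (par n x : ℝ) * gg ε z (x (n : ℤ)) - gg ε z (x 0) := by
  induction n with
  | zero => simp [tot, par]
  | succ n ih =>
    rw [Finset.sum_range_succ, ih, tot_succ, par_succ]
    unfold dd
    push_cast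
    ring

theorem tot_div_tendsto_zero [MeasurableSingletonClass X] (p : Measure X) [IsProbabilityMeasure p]
    (hp : ∀ a, p {a} = 0) {ε : ℝ} (h0 : 0 < ε) (h1 : ε ≤ 1) (z : X) :
    ∀ᵐ x ∂(Measure.infinitePi fun _ : ℤ => pert p ε z),
      Tendsto (fun n : ℕ => (tot n x : ℝ) / n) atTop (𝓝 0) := by
  haveI := isProb_pert p h0.le h1 z
  set B : ℝ := (1 - ε ^ 2) / (2 * ε ^ 2) + 1 / ε with hB
  have hparR : ∀ (n : ℕ) (x : ℤ → X), |(par n x : ℝ)| = 1 := by
    intro n x
    have := abs_par n x
    exact_mod_cast this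
  set D : ℕ → (ℤ → X) → ℝ := fun k x => (par k x : ℝ) * dd ε z (x (k : ℤ)) (x ((k : ℤ) + 1)) with hD
  have hddm : ∀ k : ℕ, Measurable fun x : ℤ → X => dd ε z (x (k : ℤ)) (x ((k : ℤ) + 1)) := by
    intro k
    exact (measurable_dd ε z).comp (f := fun x : ℤ → X => (x (k : ℤ), x ((k : ℤ) + 1)))
      ((measurable_pi_apply _).prodMk (measurable_pi_apply _))
  have hparm : ∀ k : ℕ, Measurable fun x : ℤ → X => (par k x : ℝ) := fun k =>
    measurable_from_top.comp (measurable_par k)
  have hDm : ∀ k, Measurable (D k) := fun k => (hparm k).mul (hddm k)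
  have hDb : ∀ k x, |D k x| ≤ 1 + 2 * B := by
    intro k x
    show |(par k x : ℝ) * dd ε z (x (k : ℤ)) (x ((k : ℤ) + 1))| ≤ _
    rw [abs_mul, hparR, one_mul]
    exact abs_dd h0 h1 z _ _
  have horth : ∀ i j, i < j →
      ∫ x, D i x * D j x ∂(Measure.infinitePi fun _ : ℤ => pert p ε z) = 0 := by
    intro i j hij
    have h2 := OrthSlln.integral_mul_eq_zero (pert p ε z) (i := (j : ℤ)) (j := (j : ℤ) + 1)
      (by omega) (fun x => D i x * (par j x : ℝ)) (dd ε z) ((hDm i).mul (hparm j))
      (measurable_dd ε z) (K := 1 + 2 * B) (L := 1 + 2 * B)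
      (fun x => by
        rw [abs_mul, hparR, mul_one]
        exact hDb i x) (abs_dd h0 h1 z)
      (fun x y => by
        have hij' : (i : ℤ) < j := by exact_mod_cast hij
        show (par i (Function.update x ((j : ℤ) + 1) y) : ℝ)
          * dd ε z (Function.update x ((j : ℤ) + 1) y (i : ℤ))
            (Function.update x ((j : ℤ) + 1) y ((i : ℤ) + 1))
          * (par j (Function.update x ((j : ℤ) + 1) y) : ℝ)
          = (par i x : ℝ) * dd ε z (x (i : ℤ)) (x ((i : ℤ) + 1)) * (par j x : ℝ)
        rw [par_update i x _ (by omega), par_update j x _ (by omega),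
          Function.update_of_ne (by omega), Function.update_of_ne (by omega)])
      (Eventually.of_forall fun a => integral_dd p hp h0 h1 z a)
    rw [← h2]
    refine integral_congr_ae (Eventually.of_forall fun x => ?_)
    show D i x * ((par j x : ℝ) * dd ε z (x (j : ℤ)) (x ((j : ℤ) + 1)))
      = D i x * (par j x : ℝ) * dd ε z (x (j : ℤ)) (x ((j : ℤ) + 1))
    ring
  have hslln := OrthSlln.slln (μ := Measure.infinitePi fun _ : ℤ => pert p ε z) D (1 + 2 * B)
    hDm hDb horth
  filter_upwards [hslln] with x hx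
  have hrem : Tendsto (fun n : ℕ => ((par n x : ℝ) * gg ε z (x (n : ℤ)) - gg ε z (x 0)) / n)
      atTop (𝓝 0) := by
    have h3 : Tendsto (fun n : ℕ => (2 * B) * (1 / (n : ℝ))) atTop (𝓝 0) := by
      simpa using (tendsto_one_div_atTop_nhds_zero_nat (𝕜 := ℝ)).const_mul (2 * B)
    refine squeeze_zero_norm' ?_ h3
    filter_upwards [eventually_ge_atTop 1] with n hn
    have hn0 : (0 : ℝ) < n := by exact_mod_cast hn
    rw [Real.norm_eq_abs, abs_div, abs_of_pos hn0, mul_one_div]
    refine div_le_div_of_nonneg_right ?_ hn0.le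
    have h4 : |(par n x : ℝ) * gg ε z (x (n : ℤ))| ≤ B := by
      rw [abs_mul, hparR, one_mul]
      exact abs_gg h0 h1 z _
    have h5 : |gg ε z (x 0)| ≤ B := abs_gg h0 h1 z _
    rw [abs_le] at *
    constructor <;> linarith [h4.1, h4.2, h5.1, h5.2]
  have h6 := hx.sub hrem
  rw [sub_zero] at h6
  refine h6.congr fun n => ?_
  have h7 : ∑ k ∈ Finset.range n, D k x
      = (tot n x : ℝ) + (par n x : ℝ) * gg ε z (x (n : ℤ)) - gg ε z (x 0) := sum_dd ε z n x
  rw [h7]
  ring

end Pool.Agent.V11105.FlipProcess
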