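import Mathlib

/-!
Interval exchanges with flips: definitions and basic facts.
-/

open MeasureTheory Filter Set Topology

namespace Pool.Agent.V11105.Flips

noncomputable section

/-- The circle `ℝ/ℤ`. -/
abbrev S : Type := UnitAddCircle

/-- Near `x` the map `g` has the form `y ↦ y + c` or `y ↦ -y + c`. -/
def LocIso (g : S → S) (x : S) : Prop :=
  ∃ c : S, (∀ᶠ y in 𝓝 x, g y = y + c) ∨ (∀ᶠ y in 𝓝 x, g y = -y + c)

/-- Rigid motions of the circle. -/
def IsRigid (τ : S ≃ₜ S) : Prop := ∃ c : S, (∀ y, τ y = y + c) ∨ (∀ y, τ y = -y + c)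

lemma locIso_iff {g : S → S} {x : S} :
    LocIso g x ↔ ∃ τ : S ≃ₜ S, IsRigid τ ∧ ∀ᶠ y in 𝓝 x, g y = τ y := by
  constructor
  · rintro ⟨c, h | h⟩
    · exact ⟨Homeomorph.addRight c, ⟨c, Or.inl fun y => rfl⟩, h⟩
    · exact ⟨(Homeomorph.neg S).trans (Homeomorph.addRight c), ⟨c, Or.inr fun y => rfl⟩, h⟩
  · rintro ⟨τ, ⟨c, h | h⟩, hg⟩
    · exact ⟨c, Or.inl (hg.mono fun y hy => by rw [hy, h])⟩
    · exact ⟨c, Or.inr (hg.mono fun y hy => by rw [hy, h])⟩

lemma IsRigid.trans {τ σ : S ≃ₜ S} (h1 : IsRigid τ) (h2 : IsRigid σ) : IsRigid (τ.trans σ) := by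
  obtain ⟨c, h1 | h1⟩ := h1 <;> obtain ⟨d, h2 | h2⟩ := h2
  · exact ⟨c + d, Or.inl fun y => by simp [h1, h2, add_assoc]⟩
  · exact ⟨-c + d, Or.inr fun y => by simp [h1, h2]; abel⟩
  · exact ⟨c + d, Or.inr fun y => by simp [h1, h2, add_assoc]⟩
  · exact ⟨-c + d, Or.inl fun y => by simp [h1, h2]; abel⟩

lemma IsRigid.symm {τ : S ≃ₜ S} (h : IsRigid τ) : IsRigid τ.symm := by
  obtain ⟨c, h | h⟩ := h
  · refine ⟨-c, Or.inl fun y => ?_⟩
    rw [Homeomorph.symm_apply_eq, h]; abel
  · refine ⟨c, Or.inr fun y => ?_⟩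
    rw [Homeomorph.symm_apply_eq, h]; abel

lemma IsRigid.measurePreserving {τ : S ≃ₜ S} (h : IsRigid τ) :
    MeasurePreserving τ (volume : Measure S) volume := by
  obtain ⟨c, h | h⟩ := h
  · have : (τ : S → S) = fun y => y + c := funext h
    rw [this]
    exact measurePreserving_add_right volume c
  · have : (τ : S → S) = (fun y => y + c) ∘ Neg.neg := funext h
    rw [this]
    exact (measurePreserving_add_right volume c).comp (Measure.measurePreserving_neg volume)

/-- The group of piecewise isometric permutations of the circle (interval exchanges with flips):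
outside a finite set of points they are locally of the form `y ↦ ± y + c`. -/
def IEThat : Subgroup (Equiv.Perm S) where
  carrier := {g | {x | ¬ LocIso g x}.Finite}
  one_mem' := by
    have : {x : S | ¬ LocIso (1 : Equiv.Perm S) x} = ∅ := by
      ext x
      simp only [mem_ofPred_eq, mem_empty_iff_false, iff_false, not_not]
      exact ⟨0, Or.inl (Eventually.of_forall fun y => by simp)⟩
    show {x : S | ¬ LocIso (1 : Equiv.Perm S) x}.Finite
    rw [this]
    exact finite_empty
  mul_mem' := by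
    intro g h hg hh
    show {x : S | ¬ LocIso (g * h : Equiv.Perm S) x}.Finite
    have hg' : {x : S | ¬ LocIso g x}.Finite := hg
    have hh' : {x : S | ¬ LocIso h x}.Finite := hh
    refine (hh'.union (hg'.preimage h.injective.injOn)).subset ?_
    intro x hx
    by_contra hcon
    simp only [mem_union, mem_ofPred_eq, mem_preimage, not_or, not_not] at hcon
    apply hx
    obtain ⟨h1, h2⟩ := hcon
    rw [locIso_iff] at h1 h2 ⊢
    obtain ⟨τ, hτ, h1⟩ := h1
    obtain ⟨σ, hσ, h2⟩ := h2
    refine ⟨τ.trans σ, hτ.trans hσ, ?_⟩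
    have h3 : Tendsto τ (𝓝 x) (𝓝 (h x)) := by
      rw [h1.self_of_nhds]; exact τ.continuous.tendsto x
    filter_upwards [h1, h3.eventually h2] with y hy1 hy2
    simp only [Equiv.Perm.coe_mul, Function.comp, Homeomorph.trans_apply]
    rw [hy1, hy2]
  inv_mem' := by
    intro g hg
    show {x : S | ¬ LocIso (g⁻¹ : Equiv.Perm S) x}.Finite
    have hg' : {x : S | ¬ LocIso g x}.Finite := hg
    refine (hg'.image g).subset ?_
    intro x hx
    refine ⟨g⁻¹ x, ?_, by simp⟩
    intro h1
    apply hx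
    rw [locIso_iff] at h1 ⊢
    obtain ⟨τ, hτ, h1⟩ := h1
    refine ⟨τ.symm, hτ.symm, ?_⟩
    have h2 : g (g⁻¹ x) = τ (g⁻¹ x) := h1.self_of_nhds
    have h3 : x = τ (g⁻¹ x) := by rw [← h2]; simp
    have h4 : Tendsto τ.symm (𝓝 x) (𝓝 (g⁻¹ x)) := by
      have := τ.symm.continuous.tendsto x
      rwa [show τ.symm x = g⁻¹ x by rw [Homeomorph.symm_apply_eq]; exact h3] at this
    filter_upwards [h4.eventually h1] with y hy
    rw [Homeomorph.apply_symm_apply] at hy
    rw [Equiv.Perm.inv_eq_iff_eq]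
    exact hy.symm

lemma mem_IEThat {g : Equiv.Perm S} : g ∈ IEThat ↔ {x | ¬ LocIso g x}.Finite := Iff.rfl

/-- The normal subgroup of finitely supported permutations. -/
def Sfin : Subgroup IEThat where
  carrier := {g | {x | g.1 x ≠ x}.Finite}
  one_mem' := by simp
  mul_mem' := by
    intro g h hg hh
    show {x | (g * h).1 x ≠ x}.Finite
    have hg' : {x | g.1 x ≠ x}.Finite := hg
    have hh' : {x | h.1 x ≠ x}.Finite := hh
    refine (hg'.union hh').subset ?_
    intro x hx
    by_contra hcon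
    simp only [mem_union, mem_ofPred_eq, not_or, not_not] at hcon
    apply hx
    show g.1 (h.1 x) = x
    rw [hcon.2, hcon.1]
  inv_mem' := by
    intro g hg
    show {x | (g⁻¹).1 x ≠ x}.Finite
    have hg' : {x | g.1 x ≠ x}.Finite := hg
    refine hg'.subset ?_
    intro x hx h
    apply hx
    show g.1⁻¹ x = x
    rw [Equiv.Perm.inv_eq_iff_eq]
    exact h.symm

instance : Sfin.Normal := by
  constructor
  intro n hn g
  show {x | (g * n * g⁻¹).1 x ≠ x}.Finite
  have hn' : {x | n.1 x ≠ x}.Finite := hn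
  refine (hn'.image g.1).subset ?_
  intro x hx
  refine ⟨g.1⁻¹ x, ?_, by simp⟩
  intro h
  apply hx
  show g.1 (n.1 (g.1⁻¹ x)) = x
  rw [h]
  simp

/-- The group of interval exchanges with flips, up to finite sets. -/
abbrev IET : Type := IEThat ⧸ Sfin

instance : NullSingletonClass (volume : Measure S) := by
  constructor
  intro x
  have : ({x} : Set S) = Metric.closedBall x 0 := by simp
  rw [this, AddCircle.volume_closedBall]
  simp

/-- Lebesgue measurable subsets of the circle. -/
def LebMeas (B : Set S) : Prop := NullMeasurableSet B (volume : Measure S)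

/-- A permutation of the circle that is, together with its inverse, Lebesgue measurable, and
preserves Lebesgue measure. -/
structure IsLebAut (f : Equiv.Perm S) : Prop where
  meas : ∀ B : Set S, LebMeas B → LebMeas (f ⁻¹' B)
  meas_symm : ∀ B : Set S, LebMeas B → LebMeas (f.symm ⁻¹' B)
  measure_eq : ∀ B : Set S, LebMeas B → volume (f ⁻¹' B) = volume B

lemma IsLebAut.one : IsLebAut 1 := ⟨fun _ hB => hB, fun _ hB => hB, fun _ _ => rfl⟩

lemma IsLebAut.mul {g h : Equiv.Perm S} (hg : IsLebAut g) (hh : IsLebAut h) :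
    IsLebAut (g * h) := by
  have e1 : ∀ B : Set S, (g * h : Equiv.Perm S) ⁻¹' B = h ⁻¹' (g ⁻¹' B) := fun B => rfl
  have e2 : ∀ B : Set S, (g * h : Equiv.Perm S).symm ⁻¹' B = g.symm ⁻¹' (h.symm ⁻¹' B) :=
    fun B => rfl
  refine ⟨fun B hB => ?_, fun B hB => ?_, fun B hB => ?_⟩
  · rw [e1]; exact hh.meas _ (hg.meas B hB)
  · rw [e2]; exact hg.meas_symm _ (hh.meas_symm B hB)
  · rw [e1]; exact (hh.measure_eq _ (hg.meas B hB)).trans (hg.measure_eq B hB)

lemma IsLebAut.inv {g : Equiv.Perm S} (hg : IsLebAut g) : IsLebAut g⁻¹ := by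
  refine ⟨hg.meas_symm, hg.meas, fun B hB => ?_⟩
  have h1 := hg.measure_eq _ (hg.meas_symm B hB)
  have h2 : g ⁻¹' (g.symm ⁻¹' B) = B := by
    ext x
    simp
  rw [h2] at h1
  exact h1.symm

/-- The group of permutations of the circle that are, together with their inverse, Lebesgue
measurable, and preserve Lebesgue measure. -/
def Ghat : Subgroup (Equiv.Perm S) where
  carrier := {f | IsLebAut f}
  one_mem' := IsLebAut.one
  mul_mem' := fun hg hh => hg.mul hh
  inv_mem' := fun hg => hg.inv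

/-- The normal subgroup of the permutations that are the identity almost everywhere. -/
def NullSub : Subgroup Ghat where
  carrier := {f | ∀ᵐ x, f.1 x = x}
  one_mem' := by
    show ∀ᵐ x, (1 : Ghat).1 x = x
    exact Eventually.of_forall fun x => rfl
  mul_mem' := by
    intro g h hg hh
    have hg' : ∀ᵐ x, g.1 x = x := hg
    have hh' : ∀ᵐ x, h.1 x = x := hh
    show ∀ᵐ x, g.1 (h.1 x) = x
    filter_upwards [hg', hh'] with x h1 h2
    rw [h2, h1]
  inv_mem' := by
    intro g hg
    have hg' : ∀ᵐ x, g.1 x = x := hg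
    show ∀ᵐ x, g.1⁻¹ x = x
    filter_upwards [hg'] with x h1
    rw [Equiv.Perm.inv_eq_iff_eq]
    exact h1.symm

lemma ae_comp {g : Equiv.Perm S} (hg : g ∈ Ghat) {p : S → Prop} (hp : ∀ᵐ x, p x) :
    ∀ᵐ x, p (g x) := by
  have h0 : volume {x | ¬ p x} = 0 := hp
  show volume {x | ¬ p (g x)} = 0
  have h1 : {x | ¬ p (g x)} = g ⁻¹' {x | ¬ p x} := rfl
  have h2 : IsLebAut g := hg
  rw [h1, h2.measure_eq _ (NullMeasurableSet.of_null h0), h0]

instance : NullSub.Normal := by
  constructor
  intro n hn g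
  have hn' : ∀ᵐ x, n.1 x = x := hn
  show ∀ᵐ x, g.1 (n.1 (g.1⁻¹ x)) = x
  have := ae_comp (Ghat.inv_mem g.2) hn'
  filter_upwards [this] with x hx
  rw [hx]
  simp

/-- The group of measure preserving transformations up to null sets. -/
abbrev G : Type := Ghat ⧸ NullSub

end

end Pool.Agent.V11105.Flips
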