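import Pool.Agent.V11105.FlipsTwo

/-!
The action of interval exchanges with flips on punctured neighbourhood filters and the
measurable point realization.
-/

open MeasureTheory Filter Set Topology

namespace Pool.Agent.V11105.Flips

noncomputable section

/-! ### Cardinalities -/

lemma card_S : Cardinal.mk S = Cardinal.continuum := by
  rw [Cardinal.mk_congr (AddCircle.equivIoc (1 : ℝ) 0)]
  exact Cardinal.mk_Ioc_real (by norm_num)

instance : Infinite S := by
  rw [Cardinal.infinite_iff, card_S]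
  exact Cardinal.aleph0_le_continuum

/-- The finite set of bad points. -/
def bad (g : IEThat) : Finset S := (mem_IEThat.1 g.2).toFinset

lemma locIso_of_notMem {g : IEThat} {x : S} (hx : x ∉ bad g) : LocIso g.1 x := by
  by_contra h
  exact hx (by simpa [bad] using h)

lemma LocIso.continuousAt {g : S → S} {x : S} (h : LocIso g x) : ContinuousAt g x := by
  obtain ⟨τ, _, h⟩ := locIso_iff.1 h
  exact τ.continuous.continuousAt.congr (h.mono fun y hy => hy.symm)

/-- Finite amount of data and the values on a dense sequence. -/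
def code (g : IEThat) : Finset (S × S) × (ℕ → S) :=
  ((bad g).image (fun x => (x, g.1 x)), fun n => g.1 (TopologicalSpace.denseSeq S n))

lemma code_injective : Function.Injective code := by
  intro g g' h
  have h1 : (bad g).image (fun x => (x, g.1 x)) = (bad g').image (fun x => (x, g'.1 x)) :=
    congrArg Prod.fst h
  have h2 : (fun n => g.1 (TopologicalSpace.denseSeq S n))
      = fun n => g'.1 (TopologicalSpace.denseSeq S n) := congrArg Prod.snd h
  apply Subtype.ext
  apply Equiv.ext
  intro x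
  by_cases hx : x ∈ bad g
  · have : (x, g.1 x) ∈ (bad g).image (fun x => (x, g.1 x)) := Finset.mem_image_of_mem _ hx
    rw [h1, Finset.mem_image] at this
    obtain ⟨y, _, hy⟩ := this
    rw [Prod.mk.injEq] at hy
    rw [← hy.2, hy.1]
  · by_cases hx' : x ∈ bad g'
    · have : (x, g'.1 x) ∈ (bad g').image (fun x => (x, g'.1 x)) := Finset.mem_image_of_mem _ hx'
      rw [← h1, Finset.mem_image] at this
      obtain ⟨y, _, hy⟩ := this
      rw [Prod.mk.injEq] at hy
      rw [← hy.2, hy.1]
    · have c1 := (locIso_of_notMem hx).continuousAt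
      have c2 := (locIso_of_notMem hx').continuousAt
      set D : Set S := range (TopologicalSpace.denseSeq S)
      have hD : Dense D := TopologicalSpace.denseRange_denseSeq S
      have : (𝓝[D] x).NeBot := mem_closure_iff_nhdsWithin_neBot.1 (hD x)
      have t1 : Tendsto g.1 (𝓝[D] x) (𝓝 (g.1 x)) := c1.tendsto.mono_left nhdsWithin_le_nhds
      have t2 : Tendsto g'.1 (𝓝[D] x) (𝓝 (g'.1 x)) := c2.tendsto.mono_left nhdsWithin_le_nhds
      have t3 : Tendsto g.1 (𝓝[D] x) (𝓝 (g'.1 x)) := by
        refine t2.congr' ?_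
        filter_upwards [self_mem_nhdsWithin] with y hy
        obtain ⟨n, rfl⟩ := hy
        exact (congrFun h2 n).symm
      exact tendsto_nhds_unique t1 t3

lemma card_IEThat : Cardinal.mk IEThat ≤ Cardinal.continuum := by
  refine (Cardinal.mk_le_of_injective code_injective).trans ?_
  rw [Cardinal.mk_prod, Cardinal.lift_id, Cardinal.lift_id, Cardinal.mk_finset_of_infinite,
    Cardinal.mk_prod, Cardinal.lift_id, card_S, Cardinal.mk_pi]
  simp [card_S]

/-! ### The set of filters -/

/-- The images of the punctured neighbourhood filters. -/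
def P : Set (Filter S) := range fun z : IEThat × S => Filter.map z.1.1 (𝓝[≠] z.2)

lemma card_P : Cardinal.mk P ≤ Cardinal.continuum := by
  refine Cardinal.mk_range_le.trans ?_
  rw [Cardinal.mk_prod, Cardinal.lift_id, Cardinal.lift_id, card_S]
  calc Cardinal.mk IEThat * Cardinal.continuum ≤ Cardinal.continuum * Cardinal.continuum := by
        gcongr; exact card_IEThat
    _ = Cardinal.continuum := Cardinal.continuum_mul_self

lemma map_mem_P (g : IEThat) {p : Filter S} (hp : p ∈ P) : Filter.map g.1 p ∈ P := by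
  obtain ⟨⟨h, x⟩, rfl⟩ := hp
  refine ⟨(g * h, x), ?_⟩
  show Filter.map (g.1 ∘ h.1) (𝓝[≠] x) = _
  rw [← Filter.map_map]

/-- The action on filters. -/
def act : IEThat →* Equiv.Perm P where
  toFun g :=
    { toFun := fun p => ⟨Filter.map g.1 p.1, map_mem_P g p.2⟩
      invFun := fun p => ⟨Filter.map (g⁻¹ : IEThat).1 p.1, map_mem_P g⁻¹ p.2⟩
      left_inv := by
        intro p
        apply Subtype.ext
        show Filter.map (g⁻¹ : IEThat).1 (Filter.map g.1 p.1) = p.1
        rw [Filter.map_map]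
        have : ((g⁻¹ : IEThat).1 : S → S) ∘ g.1 = id := by
          funext x
          show g.1⁻¹ (g.1 x) = x
          simp
        rw [this, Filter.map_id]
      right_inv := by
        intro p
        apply Subtype.ext
        show Filter.map g.1 (Filter.map (g⁻¹ : IEThat).1 p.1) = p.1
        rw [Filter.map_map]
        have : (g.1 : S → S) ∘ ((g⁻¹ : IEThat).1) = id := by
          funext x
          show g.1 (g.1⁻¹ x) = x
          simp
        rw [this, Filter.map_id] }
  map_one' := by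
    apply Equiv.ext
    intro p
    apply Subtype.ext
    exact Filter.map_id
  map_mul' g h := by
    apply Equiv.ext
    intro p
    apply Subtype.ext
    show Filter.map (g.1 ∘ h.1) p.1 = Filter.map g.1 (Filter.map h.1 p.1)
    rw [Filter.map_map]

lemma act_coe (g : IEThat) (p : P) : ((act g p : P) : Filter S) = Filter.map g.1 p.1 := rfl

lemma act_Sfin {g : IEThat} (hg : g ∈ Sfin) : act g = 1 := by
  have hg' : {x | g.1 x ≠ x}.Finite := hg
  apply Equiv.ext
  intro p
  apply Subtype.ext
  rw [act_coe]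
  obtain ⟨p, ⟨h, x⟩, rfl⟩ := p
  show Filter.map g.1 (Filter.map h.1 (𝓝[≠] x)) = Filter.map h.1 (𝓝[≠] x)
  rw [Filter.map_map]
  apply Filter.map_congr
  have hfin : (h.1 ⁻¹' {x | g.1 x ≠ x}).Finite := hg'.preimage h.1.injective.injOn
  have hmem : (h.1 ⁻¹' {x | g.1 x ≠ x})ᶜ ∈ 𝓝[≠] x := by
    have h1 : ((h.1 ⁻¹' {x | g.1 x ≠ x}) \ {x})ᶜ ∈ 𝓝 x :=
      (hfin.subset sdiff_subset).isClosed.isOpen_compl.mem_nhds (by simp)
    filter_upwards [mem_nhdsWithin_of_mem_nhds h1, self_mem_nhdsWithin] with y hy hy2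
    intro hcon
    exact hy ⟨hcon, hy2⟩
  filter_upwards [hmem] with y hy
  by_contra hcon
  exact hy hcon

/-- The action of the quotient group. -/
def actQ : IET →* Equiv.Perm P := QuotientGroup.lift Sfin act fun _ hg => act_Sfin hg

/-- The point of the space of filters given by a point of the circle. -/
def pt (x : S) : P := ⟨𝓝[≠] x, ⟨(1, x), Filter.map_id⟩⟩

lemma neBot_punctured (x : S) : (𝓝[≠] x).NeBot := by
  by_contra h
  rw [not_neBot, ← isOpen_singleton_iff_punctured_nhds] at h
  have h1 : volume ({x} : Set S) ≠ 0 := h.measure_ne_zero volume (singleton_nonempty x)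
  exact h1 (measure_singleton x)

lemma pt_injective : Function.Injective pt := by
  intro x y h
  have h' : 𝓝[≠] x = 𝓝[≠] y := congrArg Subtype.val h
  have := neBot_punctured x
  by_contra hne
  have h1 : 𝓝[≠] x ≤ 𝓝 x := nhdsWithin_le_nhds
  have h2 : 𝓝[≠] x ≤ 𝓝 y := h' ▸ nhdsWithin_le_nhds
  have h3 := disjoint_nhds_nhds.2 hne
  have h4 := h3.mono h1 h2
  exact (this.ne (by simpa using h4))

lemma act_pt {g : IEThat} {x : S} (hx : LocIso g.1 x) : act g (pt x) = pt (g.1 x) := by
  obtain ⟨τ, _, h⟩ := locIso_iff.1 hx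
  apply Subtype.ext
  rw [act_coe]
  show Filter.map g.1 (𝓝[≠] x) = 𝓝[≠] (g.1 x)
  rw [h.self_of_nhds, ← τ.map_punctured_nhds_eq]
  exact Filter.map_congr (mem_nhdsWithin_of_mem_nhds h)

/-! ### The bijection with the circle -/

lemma exists_beta : ∃ β : P ≃ S, ∀ x ∉ R, β (pt x) = x := by
  classical
  set A : Set P := pt '' Rᶜ with hA
  have e1 : Nonempty ((Rᶜ : Set S) ≃ A) := ⟨Equiv.Set.image pt Rᶜ pt_injective⟩
  have hcard : Cardinal.mk (Aᶜ : Set P) = Cardinal.mk R := by
    apply le_antisymm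
    · rw [R_card]
      exact (Cardinal.mk_set_le _).trans card_P
    · have hsub : pt '' R ⊆ Aᶜ := by
        rintro _ ⟨x, hx, rfl⟩ ⟨y, hy, hxy⟩
        rw [pt_injective hxy] at hy
        exact hy hx
      rw [← Cardinal.mk_image_eq (s := R) pt_injective]
      exact Cardinal.mk_le_mk_of_subset hsub
  obtain ⟨e2⟩ := Cardinal.eq.1 hcard
  let e1 : (Rᶜ : Set S) ≃ A := Equiv.Set.image pt Rᶜ pt_injective
  let β : P ≃ S := (Equiv.Set.sumCompl A).symm.trans
    ((Equiv.sumCongr e1.symm e2).trans ((Equiv.sumComm _ _).trans (Equiv.Set.sumCompl R)))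
  refine ⟨β, fun x hx => ?_⟩
  have hxA : pt x ∈ A := ⟨x, hx, rfl⟩
  have h1 : (Equiv.Set.sumCompl A).symm (pt x) = Sum.inl ⟨pt x, hxA⟩ :=
    Equiv.Set.sumCompl_symm_apply_of_mem hxA
  have h2 : e1.symm ⟨pt x, hxA⟩ = ⟨x, hx⟩ := by
    rw [Equiv.symm_apply_eq]
    rfl
  show (Equiv.Set.sumCompl R) ((Equiv.sumComm _ _) ((Equiv.sumCongr e1.symm e2)
    ((Equiv.Set.sumCompl A).symm (pt x)))) = x
  rw [h1]
  show (Equiv.Set.sumCompl R) (Sum.inr (e1.symm ⟨pt x, hxA⟩)) = x
  rw [h2]
  rfl

/-- The action on the circle. -/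
def phi (β : P ≃ S) : IET →* Equiv.Perm S := (β.permCongrHom : Equiv.Perm P →* Equiv.Perm S).comp actQ

lemma phi_apply (β : P ≃ S) (g : IEThat) (x : S) :
    phi β (QuotientGroup.mk g) x = β (act g (β.symm x)) := rfl

lemma ae_notMem_R : ∀ᵐ x : S, x ∉ R := measure_eq_zero_iff_ae_notMem.1 R_null

lemma ae_notMem_bad (g : IEThat) : ∀ᵐ x : S, x ∉ bad g := by
  have h : volume ((bad g : Finset S) : Set S) = 0 := (bad g).finite_toSet.measure_zero volume
  filter_upwards [measure_eq_zero_iff_ae_notMem.1 h] with x hx hx'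
  exact hx (Finset.mem_coe.2 hx')

lemma phi_ae {β : P ≃ S} (hβ : ∀ x ∉ R, β (pt x) = x) (g : IEThat) :
    ∀ᵐ x, phi β (QuotientGroup.mk g) x = g.1 x := by
  have hm : Measure.QuasiMeasurePreserving g.1 (volume : Measure S) volume :=
    (measurePreserving_of_mem g.2).quasiMeasurePreserving
  have h3 : volume (g.1 ⁻¹' R) = 0 := hm.preimage_null R_null
  have h2 : ∀ᵐ x : S, x ∉ g.1 ⁻¹' R := measure_eq_zero_iff_ae_notMem.1 h3
  filter_upwards [ae_notMem_R, ae_notMem_bad g, h2] with x hx1 hx2 hx3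
  rw [phi_apply]
  have e1 : β.symm x = pt x := by rw [Equiv.symm_apply_eq, hβ x hx1]
  rw [e1, act_pt (locIso_of_notMem hx2), hβ _ hx3]

lemma phi_mem {β : P ≃ S} (hβ : ∀ x ∉ R, β (pt x) = x) (q : IET) : phi β q ∈ Ghat := by
  obtain ⟨g, rfl⟩ := QuotientGroup.mk_surjective q
  refine isLebAut_of_ae g.2 (phi_ae hβ g) ?_
  have h1 := phi_ae hβ g⁻¹
  filter_upwards [h1] with x hx
  have h2 : (phi β (QuotientGroup.mk g)).symm = phi β (QuotientGroup.mk g⁻¹) := by
    rw [QuotientGroup.mk_inv, map_inv]; rfl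
  rw [h2, hx]
  rfl

/-- The surjection from measure preserving permutations to classes splits over the group of
interval exchanges with flips. -/
theorem exists_splitting :
    ∃ σ : IET →* Ghat, (QuotientGroup.mk' NullSub).comp σ = iota := by
  obtain ⟨β, hβ⟩ := exists_beta
  refine ⟨(phi β).codRestrict Ghat (phi_mem hβ), ?_⟩
  apply MonoidHom.ext
  intro q
  obtain ⟨g, rfl⟩ := QuotientGroup.mk_surjective q
  show QuotientGroup.mk (⟨phi β (QuotientGroup.mk g), phi_mem hβ _⟩ : Ghat)
    = QuotientGroup.mk (Subgroup.inclusion IEThat_le g)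
  rw [QuotientGroup.eq]
  show ∀ᵐ x, (phi β (QuotientGroup.mk g))⁻¹ (g.1 x) = x
  filter_upwards [phi_ae hβ g] with x hx
  rw [Equiv.Perm.inv_eq_iff_eq, hx]

end

end Pool.Agent.V11105.Flips
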