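import Pool.Agent.V11105.Flips

/-!
Interval exchanges with flips preserve Lebesgue measure; a null set of cardinality continuum; the
action on punctured neighbourhood filters.
-/

open MeasureTheory Filter Set Topology

namespace Pool.Agent.V11105.Flips

noncomputable section

lemma measurePreserving_of_mem {g : Equiv.Perm S} (hg : g ∈ IEThat) :
    MeasurePreserving g (volume : Measure S) volume := by
  have hF : {x | ¬ LocIso g x}.Finite := hg
  set F : Set S := {x | ¬ LocIso g x} with hFdef
  have hloc : ∀ x ∈ Fᶜ, ∃ τ : S ≃ₜ S, IsRigid τ ∧ ∀ᶠ y in 𝓝 x, g y = τ y := by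
    intro x hx
    have : LocIso g x := not_not.1 hx
    exact locIso_iff.1 this
  choose! τ hτ hgτ using hloc
  set O : S → Set S := fun x => interior {y | g y = τ x y} with hO
  have hO_open : ∀ x, IsOpen (O x) := fun x => isOpen_interior
  have hO_eq : ∀ x, ∀ y ∈ O x, g y = τ x y := fun x y hy =>
    (interior_subset (s := {y | g y = τ x y}) hy : y ∈ {y | g y = τ x y})
  have hO_nhds : ∀ x ∈ Fᶜ, O x ∈ 𝓝[Fᶜ] x := by
    intro x hx
    apply mem_nhdsWithin_of_mem_nhds
    exact interior_mem_nhds.2 (hgτ x hx)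
  obtain ⟨t, htF, htc, hcov⟩ := TopologicalSpace.countable_cover_nhdsWithin hO_nhds
  -- measurability
  have hmeas : Measurable g := by
    intro B hB
    have : g ⁻¹' B = (⋃ x ∈ t, (O x ∩ (τ x) ⁻¹' B)) ∪ (F ∩ g ⁻¹' B) := by
      ext y
      simp only [mem_union, mem_iUnion, mem_inter_iff, mem_preimage]
      constructor
      · intro hy
        by_cases hyF : y ∈ F
        · exact Or.inr ⟨hyF, hy⟩
        · left
          have := hcov hyF
          simp only [mem_iUnion] at this
          obtain ⟨x, hx, hyx⟩ := this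
          exact ⟨x, hx, hyx, by rw [← hO_eq x y hyx]; exact hy⟩
      · rintro (⟨x, hx, hyx, hy⟩ | ⟨_, hy⟩)
        · rw [hO_eq x y hyx]; exact hy
        · exact hy
    rw [this]
    refine (MeasurableSet.biUnion htc fun x _ => (hO_open x).measurableSet.inter
      ((τ x).continuous.measurable hB)).union ?_
    exact (hF.subset inter_subset_left).measurableSet
  refine ⟨hmeas, ?_⟩
  have hgO : ∀ x, g '' (O x) = τ x '' (O x) := fun x => image_congr (hO_eq x)
  have hgO_meas : ∀ x, MeasurableSet (g '' (O x)) := by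
    intro x
    rw [hgO]
    exact ((τ x).isOpenMap _ (hO_open x)).measurableSet
  have hcov2 : (⋃ x ∈ t, g '' (O x)) ∪ g '' F = univ := by
    rw [eq_univ_iff_forall]
    intro z
    by_cases hz : g.symm z ∈ F
    · exact Or.inr ⟨_, hz, by simp⟩
    · left
      have := hcov hz
      simp only [mem_iUnion] at this ⊢
      obtain ⟨x, hx, hyx⟩ := this
      exact ⟨x, hx, _, hyx, by simp⟩
  have key : (volume.map g).restrict ((⋃ x ∈ t, g '' (O x)) ∪ g '' F)
      = (volume : Measure S).restrict ((⋃ x ∈ t, g '' (O x)) ∪ g '' F) := by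
    rw [Measure.restrict_union_congr]
    constructor
    · rw [Measure.restrict_biUnion_congr htc]
      intro x hx
      ext B hB
      rw [Measure.restrict_apply hB, Measure.restrict_apply hB,
        Measure.map_apply hmeas (hB.inter (hgO_meas x))]
      have h1 : g ⁻¹' (B ∩ g '' (O x)) = τ x ⁻¹' (B ∩ g '' (O x)) := by
        ext y
        simp only [mem_preimage, mem_inter_iff]
        constructor
        · rintro ⟨h2, h3⟩
          rw [g.injective.mem_set_image] at h3
          rw [← hO_eq x y h3]
          exact ⟨h2, mem_image_of_mem _ h3⟩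
        · rintro ⟨h2, h3⟩
          rw [hgO, (τ x).injective.mem_set_image] at h3
          rw [hO_eq x y h3]
          refine ⟨h2, ?_⟩
          rw [hgO]
          exact mem_image_of_mem _ h3
      rw [h1, (hτ x (htF hx)).measurePreserving.measure_preimage
        (hB.inter (hgO_meas x)).nullMeasurableSet]
    · have h1 : volume (g '' F) = 0 := (hF.image g).measure_zero _
      have h2 : (volume.map g) (g '' F) = 0 := by
        rw [Measure.map_apply hmeas (hF.image g).measurableSet,
          preimage_image_eq _ g.injective]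
        exact hF.measure_zero _
      rw [Measure.restrict_eq_zero.2 h1, Measure.restrict_eq_zero.2 h2]
  rw [hcov2, Measure.restrict_univ, Measure.restrict_univ] at key
  exact key

lemma isLebAut_of_ae {f g : Equiv.Perm S} (hg : g ∈ IEThat) (h1 : ∀ᵐ x, f x = g x)
    (h2 : ∀ᵐ x, f.symm x = g.symm x) : IsLebAut f := by
  have m1 := measurePreserving_of_mem hg
  have m2 := measurePreserving_of_mem (IEThat.inv_mem hg)
  have e1 : ∀ B : Set S, (f ⁻¹' B : Set S) =ᵐ[volume] (g ⁻¹' B : Set S) := by
    intro B
    filter_upwards [h1] with x hx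
    show B (f x) = B (g x)
    rw [hx]
  have e2 : ∀ B : Set S, (f.symm ⁻¹' B : Set S) =ᵐ[volume] (g.symm ⁻¹' B : Set S) := by
    intro B
    filter_upwards [h2] with x hx
    show B (f.symm x) = B (g.symm x)
    rw [hx]
  refine ⟨fun B hB => ?_, fun B hB => ?_, fun B hB => ?_⟩
  · have : NullMeasurableSet (g ⁻¹' B) volume :=
      NullMeasurableSet.preimage hB m1.quasiMeasurePreserving
    exact this.congr (e1 B).symm
  · have : NullMeasurableSet (g.symm ⁻¹' B) volume :=
      NullMeasurableSet.preimage hB m2.quasiMeasurePreserving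
    exact this.congr (e2 B).symm
  · rw [measure_congr (e1 B)]
    exact m1.measure_preimage hB

lemma IEThat_le : IEThat ≤ Ghat := fun _ hg =>
  isLebAut_of_ae hg (Eventually.of_forall fun _ => rfl) (Eventually.of_forall fun _ => rfl)

lemma Sfin_le : Sfin ≤ NullSub.comap (Subgroup.inclusion IEThat_le) := by
  intro g hg
  have hg' : {x | g.1 x ≠ x}.Finite := hg
  show ∀ᵐ x, g.1 x = x
  exact (hg'.measure_zero volume)

/-- The embedding of the group of interval exchanges with flips into the group of measure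
preserving transformations up to null sets. -/
def iota : IET →* G := QuotientGroup.map Sfin NullSub (Subgroup.inclusion IEThat_le) Sfin_le

/-! ### A null set of cardinality continuum -/

/-- a Cantor set -/
def K : Set ℝ := range (Cardinal.cantorFunction (1 / 4))

lemma K_eq : K = (fun x => (1 / 4 : ℝ) * x) '' K ∪ (fun x => 1 + (1 / 4 : ℝ) * x) '' K := by
  ext x
  constructor
  · rintro ⟨f, rfl⟩
    rw [Cardinal.cantorFunction_succ f (by norm_num) (by norm_num)]
    cases h : f 0
    · left
      exact ⟨_, ⟨fun n => f (n + 1), rfl⟩, by simp⟩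
    · right
      exact ⟨_, ⟨fun n => f (n + 1), rfl⟩, by simp⟩
  · rintro (⟨_, ⟨f, rfl⟩, rfl⟩ | ⟨_, ⟨f, rfl⟩, rfl⟩)
    · refine ⟨fun n => Nat.casesOn n false f, ?_⟩
      rw [Cardinal.cantorFunction_succ _ (by norm_num) (by norm_num)]
      simp
    · refine ⟨fun n => Nat.casesOn n true f, ?_⟩
      rw [Cardinal.cantorFunction_succ _ (by norm_num) (by norm_num)]
      simp

lemma K_subset : K ⊆ Icc 0 (4 / 3) := by
  rintro _ ⟨f, rfl⟩
  have hs : Summable fun n : ℕ => ((1 : ℝ) / 4) ^ n :=
    summable_geometric_of_lt_one (by norm_num) (by norm_num)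
  have h1 : ∀ n, Cardinal.cantorFunctionAux (1 / 4) f n ≤ ((1 : ℝ) / 4) ^ n := by
    intro n
    unfold Cardinal.cantorFunctionAux
    cases f n <;> simp
  have h0 : ∀ n, 0 ≤ Cardinal.cantorFunctionAux (1 / 4) f n := by
    intro n
    unfold Cardinal.cantorFunctionAux
    cases f n <;> simp
  constructor
  · exact tsum_nonneg h0
  · calc Cardinal.cantorFunction (1 / 4) f ≤ ∑' n : ℕ, ((1 : ℝ) / 4) ^ n :=
          Summable.tsum_le_tsum h1 (Summable.of_nonneg_of_le h0 h1 hs) hs
      _ = 4 / 3 := by rw [tsum_geometric_of_lt_one (by norm_num) (by norm_num)]; norm_num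

lemma K_null : volume K = 0 := by
  have h1 : volume K ≤ ENNReal.ofReal (1 / 2) * volume K := by
    calc volume K = volume ((fun x => (1 / 4 : ℝ) * x) '' K ∪ (fun x => 1 + (1 / 4 : ℝ) * x) '' K) := by
          rw [← K_eq]
      _ ≤ volume ((fun x => (1 / 4 : ℝ) * x) '' K) + volume ((fun x => 1 + (1 / 4 : ℝ) * x) '' K) :=
          measure_union_le _ _
      _ = ENNReal.ofReal (1 / 4) * volume K + ENNReal.ofReal (1 / 4) * volume K := by
          have e1 : volume ((fun x => (1 / 4 : ℝ) * x) '' K) = ENNReal.ofReal (1 / 4) * volume K := by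
            have := Measure.addHaar_image_homothety (volume : Measure ℝ) 0 (1 / 4) K
            simpa [AffineMap.homothety_apply] using this
          have e2 : (fun x => 1 + (1 / 4 : ℝ) * x) '' K
              = (fun x => 1 + x) '' ((fun x => (1 / 4 : ℝ) * x) '' K) := by
            rw [image_image]
          rw [e2, image_add_left, measure_preimage_add, e1]
      _ = ENNReal.ofReal (1 / 2) * volume K := by
          rw [← add_mul, ← ENNReal.ofReal_add (by norm_num) (by norm_num)]
          norm_num
  have hfin : volume K ≠ ⊤ := by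
    refine ((measure_mono K_subset).trans_lt ?_).ne
    rw [Real.volume_Icc]
    exact ENNReal.ofReal_lt_top
  by_contra h0
  have h2 : ENNReal.ofReal (1 / 2) * volume K < 1 * volume K := by
    rw [ENNReal.mul_lt_mul_iff_left h0 hfin]
    rw [← ENNReal.ofReal_one]
    exact (ENNReal.ofReal_lt_ofReal_iff (by norm_num)).2 (by norm_num)
  rw [one_mul] at h2
  exact absurd h1 (not_le.2 h2)

/-- The null set. -/
def R : Set S := (fun x : ℝ => ((x / 2 : ℝ) : S)) '' K

lemma half_mem {x : ℝ} (hx : x ∈ K) : x / 2 ∈ Ioc (-(1 / 4) : ℝ) (-(1 / 4) + 1) := by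
  have := K_subset hx
  constructor <;> linarith [this.1, this.2]

lemma R_null : volume R = 0 := by
  have hmp := AddCircle.measurePreserving_equivIoc (T := (1 : ℝ)) (a := -(1 / 4))
  have hR : R = (AddCircle.measurableEquivIoc (1 : ℝ) (-(1 / 4))) ⁻¹'
      (Subtype.val ⁻¹' ((fun x : ℝ => (1 / 2 : ℝ) * x) '' K)) := by
    ext z
    constructor
    · rintro ⟨x, hx, rfl⟩
      refine ⟨x, hx, ?_⟩
      show (1 / 2 : ℝ) * x = (AddCircle.equivIoc (1 : ℝ) (-(1 / 4)) ((x / 2 : ℝ) : S)).1
      rw [AddCircle.equivIoc_coe_of_mem (half_mem hx)]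
      ring
    · rintro ⟨x, hx, hxz⟩
      refine ⟨x, hx, ?_⟩
      have h1 : (1 / 2 : ℝ) * x = (AddCircle.equivIoc (1 : ℝ) (-(1 / 4)) z).1 := hxz
      have h2 := AddCircle.coe_equivIoc (p := (1 : ℝ)) (a := -(1 / 4)) (y := z)
      rw [← h1] at h2
      rw [← h2]
      show ((x / 2 : ℝ) : S) = _
      congr 1
      ring
  rw [hR]
  have h2 : volume ((AddCircle.measurableEquivIoc (1 : ℝ) (-(1 / 4))) ⁻¹'
      (Subtype.val ⁻¹' ((fun x : ℝ => (1 / 2 : ℝ) * x) '' K)))
      = (Measure.comap Subtype.val volume)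
      (Subtype.val ⁻¹' ((fun x : ℝ => (1 / 2 : ℝ) * x) '' K)) :=
    hmp.measure_preimage_equiv (f := AddCircle.measurableEquivIoc (1 : ℝ) (-(1 / 4))) _
  rw [h2, comap_subtype_coe_apply measurableSet_Ioc]
  refine measure_mono_null (image_preimage_subset _ _) ?_
  have := Measure.addHaar_image_homothety (volume : Measure ℝ) 0 (1 / 2) K
  have e1 : volume ((fun x => (1 / 2 : ℝ) * x) '' K) = ENNReal.ofReal (1 / 2) * volume K := by
    simpa [AffineMap.homothety_apply] using this
  rw [e1, K_null, mul_zero]

lemma R_card : Cardinal.mk R = Cardinal.continuum := by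
  have hinj : Function.Injective (fun f : ℕ → Bool =>
      ((Cardinal.cantorFunction (1 / 4) f / 2 : ℝ) : S)) := by
    intro f f' h
    have h1 := (AddCircle.coe_eq_coe_iff_of_mem_Ioc (half_mem ⟨f, rfl⟩) (half_mem ⟨f', rfl⟩)).1 h
    apply Cardinal.cantorFunction_injective (c := 1 / 4) (by norm_num) (by norm_num)
    linarith
  have hR : R = range (fun f : ℕ → Bool =>
      ((Cardinal.cantorFunction (1 / 4) f / 2 : ℝ) : S)) := by
    unfold R K
    rw [← range_comp]
    rfl
  rw [hR, Cardinal.mk_range_eq _ hinj]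
  simp

end

end Pool.Agent.V11105.Flips
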