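import Mathlib

set_option autoImplicit false
set_option linter.unusedSectionVars false

namespace Pool.Agent.V11105.GT

open Finset

/-- Drawn with straight segments at `p`, no two edges of `H` meet except at a shared endpoint. -/
def NoCross {V : Type*} (H : SimpleGraph V) (p : V → ℝ × ℝ) : Prop :=
  ∀ u v u' v', H.Adj u v → H.Adj u' v' → s(u, v) ≠ s(u', v') →
    ∀ z, z ∈ segment ℝ (p u) (p v) → z ∈ segment ℝ (p u') (p v') →
      ∃ w, (w = u ∨ w = v) ∧ (w = u' ∨ w = v') ∧ z = p w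

/-- A geometric drawing: distinct points, no edge segment through a further vertex. -/
def IsGeometricDrawing {V : Type*} (G : SimpleGraph V) (p : V → ℝ × ℝ) : Prop :=
  Function.Injective p ∧
    ∀ u v w, G.Adj u v → p w ∈ segment ℝ (p u) (p v) → w = u ∨ w = v

/-- The geometric thickness of `G` is at most `t`. -/
def GeometricThicknessLE {V : Type*} (G : SimpleGraph V) (t : ℕ) : Prop :=
  ∃ (p : V → ℝ × ℝ) (c : Sym2 V → Fin t), IsGeometricDrawing G p ∧
    ∀ u v u' v', G.Adj u v → G.Adj u' v' → s(u, v) ≠ s(u', v') →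
      c s(u, v) = c s(u', v') →
      ∀ z, z ∈ segment ℝ (p u) (p v) → z ∈ segment ℝ (p u') (p v') →
        ∃ w, (w = u ∨ w = v) ∧ (w = u' ∨ w = v') ∧ z = p w

theorem avoid_of_noCross {V : Type*} (H : SimpleGraph V) (p : V → ℝ × ℝ)
    (hp : Function.Injective p) (hn : NoCross H p) (hd : ∀ x, ∃ y, H.Adj x y)
    (u v w : V) (huv : H.Adj u v) (hw : p w ∈ segment ℝ (p u) (p v)) : w = u ∨ w = v := by
  obtain ⟨y, hy⟩ := hd w
  by_cases hs : s(u, v) = s(w, y)
  · have : w ∈ s(u, v) := by rw [hs]; simp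
    simpa using this
  · obtain ⟨x, hx1, hx2, hx3⟩ := hn u v w y huv hy hs (p w) hw (left_mem_segment ℝ _ _)
    have := hp hx3
    subst this
    exact hx1

theorem thickness_of_classes {W ι : Type*} [Fintype ι] [Nonempty ι] (t : ℕ)
    (hcard : Fintype.card ι = t) (cls : ι → SimpleGraph W) (G : SimpleGraph W)
    (hG : ∀ x y, G.Adj x y ↔ ∃ i, (cls i).Adj x y) (p : W → ℝ × ℝ)
    (hp : Function.Injective p) (hn : ∀ i, NoCross (cls i) p)
    (hd : ∀ i x, ∃ y, (cls i).Adj x y) : GeometricThicknessLE G t := by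
  classical
  let e : ι ≃ Fin t := Fintype.equivFinOfCardEq hcard
  let c0 : Sym2 W → ι := fun q =>
    if h : ∃ i, q ∈ (cls i).edgeSet then h.choose else Classical.arbitrary ι
  have hc0 : ∀ x y, G.Adj x y → (cls (c0 s(x, y))).Adj x y := by
    intro x y hxy
    have h : ∃ i, s(x, y) ∈ (cls i).edgeSet := by
      obtain ⟨i, hi⟩ := (hG x y).1 hxy
      exact ⟨i, by simpa using hi⟩
    have h2 := h.choose_spec
    simp only [c0, dif_pos h]
    simpa using h2
  refine ⟨p, fun q => e (c0 q), ⟨hp, ?_⟩, ?_⟩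
  · intro u v w huv hw
    exact avoid_of_noCross (cls (c0 s(u, v))) p hp (hn _) (hd _) u v w (hc0 u v huv) hw
  · intro u v u' v' huv huv' hne hc z hz hz'
    have hc' : c0 s(u, v) = c0 s(u', v') := e.injective hc
    refine hn (c0 s(u, v)) u v u' v' (hc0 u v huv) ?_ hne z hz hz'
    rw [hc']
    exact hc0 u' v' huv'

theorem exists_beta (ι : Type*) [Fintype ι] :
    ∃ β : ι → ℝ, ∀ δ : ι → ℤ, ∑ j, (δ j : ℝ) * β j = 0 → ∀ j, δ j = 0 := by
  classical
  obtain ⟨B, hB⟩ : ∃ B : ℝ, Transcendental ℤ B :=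
    ⟨_, transcendental_liouvilleNumber (m := 2) le_rfl⟩
  let e : ι ≃ Fin (Fintype.card ι) := Fintype.equivFin ι
  refine ⟨fun j => B ^ (e j : ℕ), fun δ h j => ?_⟩
  let P : Polynomial ℤ := ∑ j, Polynomial.C (δ j) * Polynomial.X ^ (e j : ℕ)
  have hP : Polynomial.aeval B P = 0 := by
    simp only [P, map_sum, map_mul, map_pow, Polynomial.aeval_X, Polynomial.aeval_C]
    simpa using h
  have hP0 : P = 0 := by
    by_contra hne
    exact hB ⟨P, hne, hP⟩
  have hc : P.coeff (e j : ℕ) = δ j := by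
    simp only [P, Polynomial.finsetSum_coeff, Polynomial.coeff_C_mul, Polynomial.coeff_X_pow]
    rw [Finset.sum_eq_single j]
    · simp
    · intro b _ hb
      have : (e j : ℕ) ≠ (e b : ℕ) := fun h => hb (e.injective (Fin.ext h.symm))
      simp [this]
    · simp
  rw [← hc, hP0]
  simp

theorem beta_row {ι : Type*} [Fintype ι] [DecidableEq ι] (β : ι → ℝ)
    (hβ : ∀ δ : ι → ℤ, ∑ j, (δ j : ℝ) * β j = 0 → ∀ j, δ j = 0) (i : ι) (δ : ι → ℤ)
    (h : ∑ j, (β j - β i) * (δ j : ℝ) = 0) : ∀ j, j ≠ i → δ j = 0 := by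
  intro j hj
  have h1 := hβ (fun j => δ j - if j = i then ∑ k, δ k else 0) (by
    have : ∑ j, ((δ j - if j = i then ∑ k, δ k else 0 : ℤ) : ℝ) * β j
        = ∑ j, (β j - β i) * (δ j : ℝ) := by
      push_cast
      simp only [sub_mul, Finset.sum_sub_distrib, ite_mul, zero_mul, Finset.sum_ite_eq',
        Finset.mem_univ, if_true]
      rw [← Finset.mul_sum]
      congr 1
      · exact Finset.sum_congr rfl fun x _ => mul_comm _ _
      · ring
    rw [this, h]) j
  simpa [hj] using h1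

theorem seg_shear (A C k : ℝ) (p q z : ℝ × ℝ)
    (h : z ∈ segment ℝ (A + p.1, C + k * p.1 + p.2) (A + q.1, C + k * q.1 + q.2)) :
    (z.1 - A, z.2 - C - k * (z.1 - A)) ∈ segment ℝ p q := by
  obtain ⟨α, β, hα, hβ, hs, rfl⟩ := h
  refine ⟨α, β, hα, hβ, hs, ?_⟩
  have hβ' : β = 1 - α := by linarith
  subst hβ'
  ext
  · simp
    ring
  · simp
    ring

theorem abs_conv (C u v α β : ℝ) (hα : 0 ≤ α) (hβ : 0 ≤ β) (h : α + β = 1)
    (hu : |u| ≤ C) (hv : |v| ≤ C) : |α * u + β * v| ≤ C := by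
  rw [abs_le] at *
  have hβ' : β = 1 - α := by linarith
  subst hβ'
  constructor <;> nlinarith

section Product

variable {ι V : Type} [Fintype ι] [DecidableEq ι] [AddCommGroup ι] [Fintype V] [DecidableEq V]

/-- the class used by coordinate `i` in the row of `x` -/
def sel (τ : V → ι) (i : ι) (x : ι → V) : ι := i - ∑ j ∈ univ.erase i, τ (x j)

theorem sel_congr (τ : V → ι) (i : ι) (x y : ι → V) (h : ∀ j, j ≠ i → x j = y j) :
    sel τ i x = sel τ i y := by
  unfold sel
  congr 1
  apply Finset.sum_congr rfl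
  intro j hj
  rw [h j (Finset.ne_of_mem_erase hj)]

theorem sel_eq_iff (τ : V → ι) (i : ι) (x : ι → V) :
    sel τ i x = τ (x i) ↔ i = ∑ j, τ (x j) := by
  unfold sel
  rw [← Finset.add_sum_erase univ (fun j => τ (x j)) (Finset.mem_univ i)]
  rw [sub_eq_iff_eq_add]

/-- edges of class `i` -/
def cls (τ : V → ι) (H : ι → SimpleGraph V) (i : ι) : SimpleGraph (ι → V) where
  Adj x y := (∀ j, j ≠ i → x j = y j) ∧ (H (sel τ i x)).Adj (x i) (y i)
  symm := by
    refine ⟨fun x y h => ⟨fun j hj => (h.1 j hj).symm, ?_⟩⟩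
    rw [← sel_congr τ i x y h.1]
    exact h.2.symm
  loopless := ⟨fun x h => (H (sel τ i x)).loopless.1 _ h.2⟩

/-- the product graph -/
def prodG (τ : V → ι) (H : ι → SimpleGraph V) : SimpleGraph (ι → V) where
  Adj x y := ∃ i, (cls τ H i).Adj x y
  symm := ⟨fun _ _ ⟨i, h⟩ => ⟨i, h.symm⟩⟩
  loopless := ⟨fun x ⟨i, h⟩ => (cls τ H i).loopless.1 x h⟩

theorem prodG_degree (τ : V → ι) (H : ι → SimpleGraph V)
    (hdeg : ∀ s v, ((H s).neighborSet v).ncard = if s = τ v then 5 else 6) (x : ι → V) :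
    ((prodG τ H).neighborSet x).ncard = 6 * Fintype.card ι - 1 := by
  classical
  have h1 : ((prodG τ H).neighborSet x) =
      ((univ : Finset ι).biUnion (fun i =>
        ((H (sel τ i x)).neighborFinset (x i)).image (Function.update x i)) : Finset (ι → V)) := by
    ext y
    simp only [SimpleGraph.mem_neighborSet, Finset.coe_biUnion, Set.mem_iUnion, Finset.coe_image,
      Set.mem_image, Finset.mem_coe, SimpleGraph.mem_neighborFinset, Finset.mem_univ]
    constructor
    · rintro ⟨i, h, h2⟩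
      refine ⟨i, trivial, y i, h2, ?_⟩
      funext j
      by_cases hj : j = i
      · subst hj; simp
      · simp [Function.update_of_ne hj, h j hj]
    · rintro ⟨i, _, w, hw, rfl⟩
      refine ⟨i, fun j hj => by simp [Function.update_of_ne hj], ?_⟩
      simpa using hw
  rw [h1, Set.ncard_coe_finset, Finset.card_biUnion]
  · have h2 : ∀ i ∈ (univ : Finset ι),
        (((H (sel τ i x)).neighborFinset (x i)).image (Function.update x i)).card
          = if i = ∑ j, τ (x j) then 5 else 6 := by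
      intro i _
      rw [Finset.card_image_of_injective _ (Function.update_injective x i)]
      have h3 := hdeg (sel τ i x) (x i)
      rw [← Set.ncard_coe_finset, SimpleGraph.coe_neighborFinset, h3]
      simp only [sel_eq_iff]
    rw [Finset.sum_congr rfl h2]
    have h4 : ∑ i : ι, (if i = ∑ j, τ (x j) then 5 else 6)
        + ∑ i : ι, (if i = ∑ j, τ (x j) then 1 else 0) = 6 * Fintype.card ι := by
      rw [← Finset.sum_add_distrib]
      have : ∀ i ∈ (univ : Finset ι), ((if i = ∑ j, τ (x j) then 5 else 6)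
        + (if i = ∑ j, τ (x j) then 1 else 0) : ℕ) = 6 := by
        intro i _
        split_ifs <;> rfl
      rw [Finset.sum_congr rfl this]
      simp [mul_comm]
    have h5 : ∑ i : ι, (if i = ∑ j, τ (x j) then 1 else 0) = 1 := by simp
    omega
  · intro i _ i' _ hii
    rw [Function.onFun, Finset.disjoint_left]
    intro y hy hy'
    simp only [Finset.mem_image, SimpleGraph.mem_neighborFinset] at hy hy'
    obtain ⟨w, hw, rfl⟩ := hy
    obtain ⟨w', hw', h⟩ := hy'
    have h3 := congrFun h i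
    rw [Function.update_of_ne hii, Function.update_self] at h3
    rw [← h3] at hw
    exact (H _).loopless.1 _ hw

/-- positions of the product graph -/
noncomputable def Phi (a b : V → ℤ) (β : ι → ℝ) (K : ℝ) (x : ι → V) : ℝ × ℝ :=
  (∑ j, (a (x j) : ℝ), ∑ j, (K * β j * a (x j) + b (x j)))

/-- row functional -/
noncomputable def Rw (a : V → ℤ) (β : ι → ℝ) (i : ι) (x : ι → V) : ℝ :=
  ∑ j, (β j - β i) * (a (x j) : ℝ)

theorem Rw_eq (a : V → ℤ) (ha : Function.Injective a) (β : ι → ℝ)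
    (hβ : ∀ δ : ι → ℤ, ∑ j, (δ j : ℝ) * β j = 0 → ∀ j, δ j = 0) (i : ι) (x y : ι → V)
    (h : Rw a β i x = Rw a β i y) : ∀ j, j ≠ i → x j = y j := by
  intro j hj
  have := beta_row β hβ i (fun j => a (x j) - a (y j)) (by
    push_cast
    simp only [mul_sub, Finset.sum_sub_distrib]
    unfold Rw at h
    linarith) j hj
  apply ha
  linarith

theorem Phi_Y (a b : V → ℤ) (β : ι → ℝ) (K : ℝ) (i : ι) (x : ι → V) :
    (Phi a b β K x).2 - K * β i * (Phi a b β K x).1
      = K * Rw a β i x + ∑ j, (b (x j) : ℝ) := by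
  simp only [Phi, Rw, Finset.mul_sum, ← Finset.sum_sub_distrib, ← Finset.sum_add_distrib]
  apply Finset.sum_congr rfl
  intro j _
  ring

theorem exists_K (a : V → ℤ) (β : ι → ℝ) (C : ℝ) :
    ∃ K : ℝ, ∀ (i : ι) (x y : ι → V), Rw a β i x ≠ Rw a β i y →
      2 * C < K * |Rw a β i x - Rw a β i y| := by
  have h : ∀ᶠ K : ℝ in Filter.atTop, ∀ (i : ι) (x y : ι → V), Rw a β i x ≠ Rw a β i y →
      2 * C < K * |Rw a β i x - Rw a β i y| := by
    rw [Filter.eventually_all]
    intro i
    rw [Filter.eventually_all]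
    intro x
    rw [Filter.eventually_all]
    intro y
    by_cases hxy : Rw a β i x = Rw a β i y
    · exact Filter.Eventually.of_forall fun K h => absurd hxy h
    · have h1 : 0 < |Rw a β i x - Rw a β i y| := abs_pos.2 (sub_ne_zero.2 hxy)
      have h2 := (Filter.tendsto_id (α := ℝ) (x := Filter.atTop)).atTop_mul_const h1
      filter_upwards [h2.eventually_gt_atTop (2 * C)] with K hK _
      exact hK
  exact h.exists

theorem exists_C (b : V → ℤ) : ∃ C : ℝ, ∀ x : ι → V, |∑ j, (b (x j) : ℝ)| ≤ C := by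
  obtain ⟨C, hC⟩ := (Set.finite_range (fun x : ι → V => |∑ j, (b (x j) : ℝ)|)).bddAbove
  exact ⟨C, fun x => hC ⟨x, rfl⟩⟩

theorem Phi_update (a b : V → ℤ) (β : ι → ℝ) (K : ℝ) (i : ι) (x : ι → V) (v : V) :
    Phi a b β K (Function.update x i v) =
      ((∑ j ∈ univ.erase i, (a (x j) : ℝ)) + (a v : ℝ),
        (∑ j ∈ univ.erase i, (K * β j * a (x j) + b (x j))) + (K * β i) * (a v : ℝ)
          + (b v : ℝ)) := by
  unfold Phi
  rw [← Finset.add_sum_erase univ _ (Finset.mem_univ i),
    ← Finset.add_sum_erase univ _ (Finset.mem_univ i)]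
  have h1 : ∀ f : V → ℝ, ∑ j ∈ univ.erase i, f (Function.update x i v j)
      = ∑ j ∈ univ.erase i, f (x j) := by
    intro f
    apply Finset.sum_congr rfl
    intro j hj
    rw [Function.update_of_ne (Finset.ne_of_mem_erase hj)]
  have h2 : ∑ j ∈ univ.erase i, (K * β j * a (Function.update x i v j)
        + b (Function.update x i v j) : ℝ)
      = ∑ j ∈ univ.erase i, (K * β j * a (x j) + b (x j) : ℝ) := by
    apply Finset.sum_congr rfl
    intro j hj
    rw [Function.update_of_ne (Finset.ne_of_mem_erase hj)]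
  rw [h1 (fun v => (a v : ℝ)), h2]
  simp only [Function.update_self]
  ext
  · simp; ring
  · simp; ring

theorem seg_Y (f : ℝ × ℝ → ℝ) (k : ℝ) (hf : ∀ z, f z = z.2 - k * z.1) (p q z : ℝ × ℝ)
    (R B1 B2 C : ℝ) (hp : f p = R + B1) (hq : f q = R + B2) (h1 : |B1| ≤ C) (h2 : |B2| ≤ C)
    (hz : z ∈ segment ℝ p q) : |f z - R| ≤ C := by
  obtain ⟨α, γ, hα, hγ, hs, rfl⟩ := hz
  have : f (α • p + γ • q) - R = α * B1 + γ * B2 := by
    have e1 : f (α • p + γ • q) = α * f p + γ * f q := by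
      simp only [hf]
      simp
      ring
    rw [e1, hp, hq]
    have : γ = 1 - α := by linarith
    subst this
    ring
  rw [this]
  exact abs_conv C B1 B2 α γ hα hγ hs h1 h2

theorem Rw_of_close (a b : V → ℤ) (β : ι → ℝ) (C K : ℝ)
    (hK : ∀ (i : ι) (x y : ι → V), Rw a β i x ≠ Rw a β i y →
      2 * C < K * |Rw a β i x - Rw a β i y|) (i : ι) (x y : ι → V) (Y : ℝ)
    (h1 : |Y - K * Rw a β i x| ≤ C) (h2 : |Y - K * Rw a β i y| ≤ C) :
    Rw a β i x = Rw a β i y := by
  by_contra hne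
  have h := hK i x y hne
  have h0 : 0 ≤ C := le_trans (abs_nonneg _) h1
  have hpos : 0 < |Rw a β i x - Rw a β i y| := abs_pos.2 (sub_ne_zero.2 hne)
  have hKp : 0 ≤ K := by
    by_contra hK0
    push Not at hK0
    nlinarith
  have : K * |Rw a β i x - Rw a β i y| ≤ 2 * C := by
    rw [← abs_of_nonneg hKp, ← abs_mul]
    have e : K * (Rw a β i x - Rw a β i y)
        = (Y - K * Rw a β i y) - (Y - K * Rw a β i x) := by ring
    rw [e]
    calc |(Y - K * Rw a β i y) - (Y - K * Rw a β i x)|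
        ≤ |Y - K * Rw a β i y| + |Y - K * Rw a β i x| := abs_sub _ _
      _ ≤ 2 * C := by linarith
  linarith

theorem Phi_inj (a b : V → ℤ) (ha : Function.Injective a) (β : ι → ℝ)
    (hβ : ∀ δ : ι → ℤ, ∑ j, (δ j : ℝ) * β j = 0 → ∀ j, δ j = 0) (C K : ℝ)
    (hC : ∀ x : ι → V, |∑ j, (b (x j) : ℝ)| ≤ C)
    (hK : ∀ (i : ι) (x y : ι → V), Rw a β i x ≠ Rw a β i y →
      2 * C < K * |Rw a β i x - Rw a β i y|) : Function.Injective (Phi a b β K) := by
  intro x y hxy
  funext i
  have hR : Rw a β i x = Rw a β i y := by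
    apply Rw_of_close a b β C K hK i x y ((Phi a b β K x).2 - K * β i * (Phi a b β K x).1)
    · rw [Phi_Y]
      simpa using hC x
    · rw [hxy, Phi_Y]
      simpa using hC y
  have hrow := Rw_eq a ha β hβ i x y hR
  have h1 : (Phi a b β K x).1 = (Phi a b β K y).1 := by rw [hxy]
  simp only [Phi] at h1
  rw [← Finset.add_sum_erase univ _ (Finset.mem_univ i),
    ← Finset.add_sum_erase univ (fun j => (a (y j) : ℝ)) (Finset.mem_univ i)] at h1
  have h2 : ∑ j ∈ univ.erase i, (a (x j) : ℝ) = ∑ j ∈ univ.erase i, (a (y j) : ℝ) := by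
    apply Finset.sum_congr rfl
    intro j hj
    rw [hrow j (Finset.ne_of_mem_erase hj)]
  rw [h2] at h1
  apply ha
  have h3 : (a (x i) : ℝ) = (a (y i) : ℝ) := by linarith
  exact_mod_cast h3

theorem cls_noCross (a b : V → ℤ) (ha : Function.Injective a) (β : ι → ℝ)
    (hβ : ∀ δ : ι → ℤ, ∑ j, (δ j : ℝ) * β j = 0 → ∀ j, δ j = 0) (C K : ℝ)
    (hC : ∀ x : ι → V, |∑ j, (b (x j) : ℝ)| ≤ C)
    (hK : ∀ (i : ι) (x y : ι → V), Rw a β i x ≠ Rw a β i y →
      2 * C < K * |Rw a β i x - Rw a β i y|)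
    (τ : V → ι) (H : ι → SimpleGraph V)
    (hH : ∀ s, NoCross (H s) (fun v => ((a v : ℝ), (b v : ℝ)))) (i : ι) :
    NoCross (cls τ H i) (Phi a b β K) := by
  intro x y x' y' hxy hxy' hne z hz hz'
  -- every vertex in the row of `x` is an update of `x`
  have hupd : ∀ w : ι → V, (∀ j, j ≠ i → x j = w j) → w = Function.update x i (w i) := by
    intro w hw
    funext j
    by_cases hj : j = i
    · subst hj; simp
    · simp [Function.update_of_ne hj, hw j hj]
  have hRxy : ∀ x y : ι → V, (∀ j, j ≠ i → x j = y j) → Rw a β i x = Rw a β i y := by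
    intro x y h
    unfold Rw
    apply Finset.sum_congr rfl
    intro j _
    by_cases hj : j = i
    · subst hj; simp
    · rw [h j hj]
  have hR : Rw a β i x = Rw a β i x' := by
    apply Rw_of_close a b β C K hK i x x' (z.2 - K * β i * z.1)
    · refine seg_Y (fun z => z.2 - K * β i * z.1) (K * β i) (fun _ => rfl) _ _ z _ _ _ C
        (Phi_Y a b β K i x) ?_ (hC x) (hC y) hz
      rw [hRxy x y hxy.1]
      exact Phi_Y a b β K i y
    · refine seg_Y (fun z => z.2 - K * β i * z.1) (K * β i) (fun _ => rfl) _ _ z _ _ _ C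
        (Phi_Y a b β K i x') ?_ (hC x') (hC y') hz'
      rw [hRxy x' y' hxy'.1]
      exact Phi_Y a b β K i y'
  have hrow := Rw_eq a ha β hβ i x x' hR
  have hx : x = Function.update x i (x i) := hupd x fun _ _ => rfl
  have hy : y = Function.update x i (y i) := hupd y hxy.1
  have hx' : x' = Function.update x i (x' i) := hupd x' hrow
  have hy' : y' = Function.update x i (y' i) :=
    hupd y' fun j hj => (hrow j hj).trans (hxy'.1 j hj)
  have hs : sel τ i x' = sel τ i x := (sel_congr τ i x x' hrow).symm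
  have hadj' := hxy'.2
  rw [hs] at hadj'
  rw [hx, hy, Phi_update, Phi_update] at hz
  rw [hx', hy', Phi_update, Phi_update] at hz'
  have hz1 := seg_shear _ _ _ ((a (x i) : ℝ), (b (x i) : ℝ)) ((a (y i) : ℝ), (b (y i) : ℝ)) z hz
  have hz2 := seg_shear _ _ _ ((a (x' i) : ℝ), (b (x' i) : ℝ))
    ((a (y' i) : ℝ), (b (y' i) : ℝ)) z hz'
  have hne2 : s(x i, y i) ≠ s(x' i, y' i) := by
    intro h
    apply hne
    rw [Sym2.eq_iff] at h ⊢
    rcases h with ⟨h1, h2⟩ | ⟨h1, h2⟩
    · left
      constructor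
      · rw [hx, hx', h1]
      · rw [hy, hy', h2]
    · right
      constructor
      · rw [hx, hy', h1]
      · rw [hy, hx', h2]
  obtain ⟨w, hw1, hw2, hw3⟩ := hH (sel τ i x) (x i) (y i) (x' i) (y' i) hxy.2 hadj' hne2 _ hz1 hz2
  refine ⟨Function.update x i w, ?_, ?_, ?_⟩
  · rcases hw1 with h | h
    · left; rw [h]; exact hx.symm
    · right; rw [h]; exact hy.symm
  · rcases hw2 with h | h
    · left; rw [h]; exact hx'.symm
    · right; rw [h]; exact hy'.symm
  · rw [Phi_update]
    rw [Prod.mk.injEq] at hw3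
    obtain ⟨h1, h2⟩ := hw3
    ext
    · simp only
      linarith
    · simp only
      have : z.1 = (∑ j ∈ univ.erase i, (a (x j) : ℝ)) + (a w : ℝ) := by linarith
      rw [this] at h2
      ring_nf at h2 ⊢
      linarith

/-- The product lemma. -/
theorem product (t : ℕ) (hcard : Fintype.card ι = t)
    (a b : V → ℤ) (ha : Function.Injective a)
    (τ : V → ι) (H : ι → SimpleGraph V)
    (hH : ∀ s, NoCross (H s) (fun v => ((a v : ℝ), (b v : ℝ))))
    (hdeg : ∀ s v, ((H s).neighborSet v).ncard = if s = τ v then 5 else 6) :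
    (∀ x, ((prodG τ H).neighborSet x).ncard = 6 * t - 1) ∧
      GeometricThicknessLE (prodG τ H) t := by
  constructor
  · intro x
    rw [prodG_degree τ H hdeg x, hcard]
  · obtain ⟨β, hβ⟩ := exists_beta ι
    obtain ⟨C, hC⟩ := exists_C (ι := ι) b
    obtain ⟨K, hK⟩ := exists_K (ι := ι) a β C
    refine thickness_of_classes t hcard (cls τ H) (prodG τ H) (fun _ _ => Iff.rfl)
      (Phi a b β K) (Phi_inj a b ha β hβ C K hC hK)
      (fun i => cls_noCross a b ha β hβ C K hC hK τ H hH i) ?_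
    intro i x
    have h1 := hdeg (sel τ i x) (x i)
    have h2 : ((H (sel τ i x)).neighborSet (x i)).Nonempty := by
      by_contra hne
      rw [Set.not_nonempty_iff_eq_empty] at hne
      rw [hne, Set.ncard_empty] at h1
      split_ifs at h1
    obtain ⟨w, hw⟩ := h2
    refine ⟨Function.update x i w, fun j hj => by simp [Function.update_of_ne hj], ?_⟩
    simpa using hw

end Product

end Pool.Agent.V11105.GT
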