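import Pool.Agent.V11105.GTa

set_option autoImplicit false
set_option linter.unusedSectionVars false

namespace Pool.Agent.V11105.GT

open Finset

/-- nested triangles: rays `(r,k)-(r,k+1)` where `ray k`, cross edges `(r,k)-(r+1,l)` where `E k l` -/
def strip (m : ℕ) (ray : ℕ → Prop) (E : ℕ → ℕ → Prop) : SimpleGraph (Fin 3 × Fin m) where
  Adj u v := (u.1 = v.1 ∧ ((v.2.val = u.2.val + 1 ∧ ray u.2.val) ∨
      (u.2.val = v.2.val + 1 ∧ ray v.2.val)))
    ∨ (v.1 = u.1 + 1 ∧ E u.2.val v.2.val) ∨ (u.1 = v.1 + 1 ∧ E v.2.val u.2.val)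
  symm := by
    refine ⟨fun u v h => ?_⟩
    rcases h with ⟨h1, h2⟩ | h | h
    · exact Or.inl ⟨h1.symm, h2.symm⟩
    · exact Or.inr (Or.inr h)
    · exact Or.inr (Or.inl h)
  loopless := by
    refine ⟨fun u h => ?_⟩
    rcases h with ⟨_, h | h⟩ | h | h
    · omega
    · omega
    · have := h.1
      revert this
      generalize u.1 = r
      revert r
      decide
    · have := h.1
      revert this
      generalize u.1 = r
      revert r
      decide

/-- directions -/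
def dx (m : ℕ) : Fin 3 → ℤ := ![1, (m : ℤ) + 1, -((m : ℤ) + 2)]
/-- directions -/
def dy : Fin 3 → ℤ := ![0, 1, -1]

/-- first coordinates -/
def ca (m : ℕ) (v : Fin 3 × Fin m) : ℤ := ((m : ℤ) - (v.2.val : ℤ)) * dx m v.1
/-- second coordinates -/
def cb (m : ℕ) (v : Fin 3 × Fin m) : ℤ := ((m : ℤ) - (v.2.val : ℤ)) * dy v.1

theorem ca_inj (m : ℕ) : Function.Injective (ca m) := by
  rintro ⟨r, k, hk⟩ ⟨r', k', hk'⟩ h
  simp only [ca] at h
  have hk1 : (k : ℤ) + 1 ≤ m := by exact_mod_cast hk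
  have hk2 : (k' : ℤ) + 1 ≤ m := by exact_mod_cast hk'
  have hk3 : (0 : ℤ) ≤ k := by positivity
  have hk4 : (0 : ℤ) ≤ k' := by positivity
  have key : r = r' ∧ (k : ℤ) = k' := by
    fin_cases r <;> fin_cases r' <;> simp [dx] at h ⊢
    · exact_mod_cast h
    · nlinarith
    · nlinarith
    · nlinarith
    · rcases h with h | h
      · exact_mod_cast h
      · omega
    · nlinarith
    · nlinarith
    · nlinarith
    · rcases h with h | h
      · exact_mod_cast h
      · omega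
  obtain ⟨h1, h2⟩ := key
  subst h1
  have h3 : k = k' := by exact_mod_cast h2
  subst h3
  rfl

/-- real directions -/
noncomputable def D (m : ℕ) (r : Fin 3) : ℝ × ℝ := ((dx m r : ℝ), (dy r : ℝ))

/-- positions -/
noncomputable def pos (m : ℕ) (v : Fin 3 × Fin m) : ℝ × ℝ := ((ca m v : ℝ), (cb m v : ℝ))

theorem pos_inj (m : ℕ) : Function.Injective (pos m) := by
  intro u v h
  simp only [pos, Prod.mk.injEq] at h
  exact ca_inj m (by exact_mod_cast h.1)

theorem pos_eq (m : ℕ) (v : Fin 3 × Fin m) :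
    pos m v = ((m : ℝ) - (v.2.val : ℝ)) • D m v.1 := by
  ext
  · simp [pos, D, ca]
  · simp [pos, D, cb]

/-- coordinate functionals -/
noncomputable def P (m : ℕ) (r : Fin 3) (z : ℝ × ℝ) : ℝ :=
  (![z.1 - ((m : ℝ) + 1) * z.2, ((m : ℝ) + 2) * z.2 - z.1, -z.2] : Fin 3 → ℝ) r

theorem P0 (m : ℕ) (r : Fin 3) (α β : ℝ) : P m r (α • D m r + β • D m (r + 1)) = α := by
  fin_cases r <;> simp [P, D, dx, dy] <;> ring

theorem P1 (m : ℕ) (r : Fin 3) (α β : ℝ) :
    P m (r + 1) (α • D m r + β • D m (r + 1)) = β - α := by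
  fin_cases r <;> simp [P, D, dx, dy] <;> ring

theorem P2 (m : ℕ) (r : Fin 3) (α β : ℝ) :
    P m (r + 2) (α • D m r + β • D m (r + 1)) = -β := by
  fin_cases r <;> simp [P, D, dx, dy] <;> ring

theorem cross_mem (m : ℕ) (u v : Fin 3 × Fin m) (h : v.1 = u.1 + 1) (z : ℝ × ℝ)
    (hz : z ∈ segment ℝ (pos m u) (pos m v)) :
    ∃ s t : ℝ, 0 ≤ s ∧ 0 ≤ t ∧ s + t = 1 ∧
      z = (s * ((m : ℝ) - (u.2.val : ℝ))) • D m u.1
        + (t * ((m : ℝ) - (v.2.val : ℝ))) • D m (u.1 + 1) := by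
  obtain ⟨s, t, hs, ht, hst, rfl⟩ := hz
  refine ⟨s, t, hs, ht, hst, ?_⟩
  rw [pos_eq, pos_eq, smul_smul, smul_smul, h]

theorem ray_mem (m : ℕ) (u v : Fin 3 × Fin m) (h : u.1 = v.1) (hk : v.2.val = u.2.val + 1)
    (z : ℝ × ℝ) (hz : z ∈ segment ℝ (pos m u) (pos m v)) :
    ∃ c : ℝ, (m : ℝ) - (u.2.val : ℝ) - 1 ≤ c ∧ c ≤ (m : ℝ) - (u.2.val : ℝ) ∧
      z = c • D m u.1 + (0 : ℝ) • D m (u.1 + 1) := by
  obtain ⟨s, t, hs, ht, hst, rfl⟩ := hz
  have hk' : (v.2.val : ℝ) = (u.2.val : ℝ) + 1 := by exact_mod_cast hk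
  refine ⟨(m : ℝ) - (u.2.val : ℝ) - t, by linarith, by linarith, ?_⟩
  rw [pos_eq, pos_eq, smul_smul, smul_smul, ← h, ← add_smul, zero_smul, add_zero, hk']
  congr 1
  have : s = 1 - t := by linarith
  subst this
  ring

theorem fin_pos (m : ℕ) (k : Fin m) : (0 : ℝ) < (m : ℝ) - (k.val : ℝ) := by
  have : (k.val : ℝ) < m := by exact_mod_cast k.2
  linarith

theorem fin_pos' (m : ℕ) (k l : Fin m) (h : l.val = k.val + 1) :
    (0 : ℝ) < (m : ℝ) - (k.val : ℝ) - 1 := by
  have h1 := fin_pos m l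
  have hk' : (l.val : ℝ) = (k.val : ℝ) + 1 := by exact_mod_cast h
  linarith

/-- a vertex on a ray edge is an endpoint -/
theorem vert_ray (m : ℕ) (u v w : Fin 3 × Fin m) (h : u.1 = v.1) (hk : v.2.val = u.2.val + 1)
    (hw : w.1 = u.1) (hz : pos m w ∈ segment ℝ (pos m u) (pos m v)) : w = u ∨ w = v := by
  obtain ⟨c, h1, h2, h3⟩ := ray_mem m u v h hk _ hz
  rw [pos_eq, hw] at h3
  have h4 := congrArg (P m u.1) h3
  rw [P0] at h4
  have h5 : P m u.1 (((m : ℝ) - (w.2.val : ℝ)) • D m u.1) = (m : ℝ) - (w.2.val : ℝ) := by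
    have := P0 m u.1 ((m : ℝ) - (w.2.val : ℝ)) 0
    rw [zero_smul, add_zero] at this
    exact this
  rw [h5] at h4
  have h6 : (w.2.val : ℝ) ≤ (u.2.val : ℝ) + 1 := by linarith
  have h7 : (u.2.val : ℝ) ≤ (w.2.val : ℝ) := by linarith
  have h6' : w.2.val ≤ u.2.val + 1 := by exact_mod_cast h6
  have h7' : u.2.val ≤ w.2.val := by exact_mod_cast h7
  rcases Nat.lt_or_ge u.2.val w.2.val with h8 | h8
  · right
    exact Prod.ext (hw.trans h) (Fin.ext (by omega))
  · left
    exact Prod.ext hw (Fin.ext (by omega))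

theorem fin3_cases (r r' : Fin 3) : r' = r ∨ r' = r + 1 ∨ r' = r + 2 := by
  revert r r'; decide

theorem fin3_a (r : Fin 3) : r + 1 + 2 = r := by revert r; decide
theorem fin3_b (r : Fin 3) : r + 2 + 1 = r := by revert r; decide
theorem fin3_c (r : Fin 3) : r + 2 + 2 = r + 1 := by revert r; decide
theorem fin3_d (r : Fin 3) : r + 1 + 1 = r + 2 := by revert r; decide

/-- ray edge against ray edge -/
theorem ray_ray (m : ℕ) (u v u' v' : Fin 3 × Fin m) (h : u.1 = v.1)
    (hk : v.2.val = u.2.val + 1) (h' : u'.1 = v'.1) (hk' : v'.2.val = u'.2.val + 1)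
    (z : ℝ × ℝ) (hz : z ∈ segment ℝ (pos m u) (pos m v))
    (hz' : z ∈ segment ℝ (pos m u') (pos m v')) :
    s(u, v) = s(u', v') ∨ ∃ w, (w = u ∨ w = v) ∧ (w = u' ∨ w = v') ∧ z = pos m w := by
  obtain ⟨c, h1, h2, h3⟩ := ray_mem m u v h hk _ hz
  obtain ⟨c', h1', h2', h3'⟩ := ray_mem m u' v' h' hk' _ hz'
  have hpos := fin_pos' m u.2 v.2 hk
  have hpos' := fin_pos' m u'.2 v'.2 hk'
  have hc : 0 < c := by linarith
  have hc' : 0 < c' := by linarith
  rcases fin3_cases u.1 u'.1 with hr | hr | hr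
  · have e1 := congrArg (P m u.1) h3
    have e2 := congrArg (P m u'.1) h3'
    rw [P0] at e1 e2
    rw [hr] at e2
    have hcc : c = c' := by rw [← e1, ← e2]
    subst hcc
    have h6 : (u'.2.val : ℝ) ≤ (u.2.val : ℝ) + 1 := by linarith
    have h7 : (u.2.val : ℝ) ≤ (u'.2.val : ℝ) + 1 := by linarith
    have h6' : u'.2.val ≤ u.2.val + 1 := by exact_mod_cast h6
    have h7' : u.2.val ≤ u'.2.val + 1 := by exact_mod_cast h7
    rcases Nat.lt_trichotomy u.2.val u'.2.val with h8 | h8 | h8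
    · right
      have h9 : u'.2.val = u.2.val + 1 := by omega
      have h9' : (u'.2.val : ℝ) = (u.2.val : ℝ) + 1 := by exact_mod_cast h9
      refine ⟨u', Or.inr (Prod.ext (hr.trans h) (Fin.ext (by omega))), Or.inl rfl, ?_⟩
      rw [h3', zero_smul, add_zero, pos_eq]
      congr 1
      linarith
    · left
      have e : u' = u := Prod.ext hr (Fin.ext (by omega))
      have e' : v' = v := Prod.ext (by rw [← h', ← h, hr]) (Fin.ext (by omega))
      rw [e, e']
    · right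
      have h9 : u.2.val = u'.2.val + 1 := by omega
      have h9' : (u.2.val : ℝ) = (u'.2.val : ℝ) + 1 := by exact_mod_cast h9
      refine ⟨u, Or.inl rfl, Or.inr (Prod.ext (hr.symm.trans h') (Fin.ext (by omega))), ?_⟩
      rw [h3, zero_smul, add_zero, pos_eq]
      congr 1
      linarith
  · exfalso
    have e1 := congrArg (P m u.1) h3
    have e2 := congrArg (P m (u'.1 + 2)) h3'
    rw [P0] at e1
    rw [P2, hr, fin3_a, e1] at e2
    linarith
  · exfalso
    have e1 := congrArg (P m (u.1 + 2)) h3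
    have e2 := congrArg (P m u'.1) h3'
    rw [P0, hr] at e2
    rw [P2] at e1
    linarith

/-- on a cross edge, vanishing second coefficient means first endpoint -/
theorem cross_end (m : ℕ) (u v : Fin 3 × Fin m) (h : v.1 = u.1 + 1) (z : ℝ × ℝ) (s t : ℝ)
    (hst : s + t = 1) (hz : z = (s * ((m : ℝ) - (u.2.val : ℝ))) • D m u.1
        + (t * ((m : ℝ) - (v.2.val : ℝ))) • D m (u.1 + 1)) :
    (t * ((m : ℝ) - (v.2.val : ℝ)) = 0 → z = pos m u) ∧
    (s * ((m : ℝ) - (u.2.val : ℝ)) = 0 → z = pos m v) := by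
  have h1 := fin_pos m u.2
  have h2 := fin_pos m v.2
  constructor
  · intro h0
    have ht : t = 0 := by
      rcases mul_eq_zero.1 h0 with h | h
      · exact h
      · linarith
    have hs : s = 1 := by linarith
    rw [hz, ht, hs, pos_eq]
    simp
  · intro h0
    have hs : s = 0 := by
      rcases mul_eq_zero.1 h0 with h | h
      · exact h
      · linarith
    have ht : t = 1 := by linarith
    rw [hz, ht, hs, pos_eq, h]
    simp

/-- ray edge against cross edge -/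
theorem ray_cross (m : ℕ) (u v u' v' : Fin 3 × Fin m) (h : u.1 = v.1)
    (hk : v.2.val = u.2.val + 1) (h' : v'.1 = u'.1 + 1)
    (z : ℝ × ℝ) (hz : z ∈ segment ℝ (pos m u) (pos m v))
    (hz' : z ∈ segment ℝ (pos m u') (pos m v')) :
    ∃ w, (w = u ∨ w = v) ∧ (w = u' ∨ w = v') ∧ z = pos m w := by
  obtain ⟨c, h1, h2, h3⟩ := ray_mem m u v h hk _ hz
  obtain ⟨s, t, hs, ht, hst, h3'⟩ := cross_mem m u' v' h' _ hz'
  have hpos := fin_pos' m u.2 v.2 hk
  have hc : 0 < c := by linarith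
  have hu' := fin_pos m u'.2
  have hv' := fin_pos m v'.2
  obtain ⟨hend1, hend2⟩ := cross_end m u' v' h' z s t hst h3'
  rcases fin3_cases u.1 u'.1 with hr | hr | hr
  · -- same start ray
    have e1 := congrArg (P m (u.1 + 2)) h3
    have e2 := congrArg (P m (u'.1 + 2)) h3'
    rw [P2] at e1 e2
    rw [hr] at e2
    have e3 : z = pos m u' := hend1 (by linarith)
    refine ⟨u', ?_, Or.inl rfl, e3⟩
    rw [e3] at hz
    exact vert_ray m u v u' h hk hr hz
  · exfalso
    have e1 := congrArg (P m u.1) h3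
    have e2 := congrArg (P m (u'.1 + 2)) h3'
    rw [P0] at e1
    rw [P2, hr, fin3_a, e1] at e2
    have : 0 ≤ t * ((m : ℝ) - (v'.2.val : ℝ)) := mul_nonneg ht hv'.le
    linarith
  · have e1 := congrArg (P m (u.1 + 2)) h3
    have e2 := congrArg (P m u'.1) h3'
    rw [P2] at e1
    rw [P0, hr] at e2
    have e3 : z = pos m v' := hend2 (by linarith)
    refine ⟨v', ?_, Or.inr rfl, e3⟩
    rw [e3] at hz
    exact vert_ray m u v v' h hk (by rw [h', hr, fin3_b]) hz

/-- cross edge against cross edge, next wedge -/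
theorem cross_cross_next (m : ℕ) (u v u' v' : Fin 3 × Fin m) (h : v.1 = u.1 + 1)
    (h' : v'.1 = u'.1 + 1) (hr : u'.1 = u.1 + 1)
    (z : ℝ × ℝ) (hz : z ∈ segment ℝ (pos m u) (pos m v))
    (hz' : z ∈ segment ℝ (pos m u') (pos m v')) :
    ∃ w, (w = u ∨ w = v) ∧ (w = u' ∨ w = v') ∧ z = pos m w := by
  obtain ⟨s, t, hs, ht, hst, h3⟩ := cross_mem m u v h _ hz
  obtain ⟨s', t', hs', ht', hst', h3'⟩ := cross_mem m u' v' h' _ hz'
  have hu := fin_pos m u.2
  have hv' := fin_pos m v'.2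
  obtain ⟨hend1, hend2⟩ := cross_end m u v h z s t hst h3
  obtain ⟨hend1', hend2'⟩ := cross_end m u' v' h' z s' t' hst' h3'
  have e1 := congrArg (P m u.1) h3
  have e2 := congrArg (P m (u'.1 + 2)) h3'
  rw [P0] at e1
  rw [P2, hr, fin3_a, e1] at e2
  have i1 : 0 ≤ s * ((m : ℝ) - (u.2.val : ℝ)) := mul_nonneg hs hu.le
  have i2 : 0 ≤ t' * ((m : ℝ) - (v'.2.val : ℝ)) := mul_nonneg ht' hv'.le
  have e3 : z = pos m v := hend2 (by linarith)
  have e4 : z = pos m u' := hend1' (by linarith)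
  have e5 : v = u' := pos_inj m (e3.symm.trans e4)
  exact ⟨v, Or.inr rfl, Or.inl e5, e3⟩

/-- cross edges in the same wedge, in chain order -/
theorem cross_cross_same (m : ℕ) (u v u' v' : Fin 3 × Fin m) (h : v.1 = u.1 + 1)
    (h' : v'.1 = u'.1 + 1) (hr : u'.1 = u.1)
    (hku : u.2.val ≤ u'.2.val) (hkv : v.2.val ≤ v'.2.val)
    (z : ℝ × ℝ) (hz : z ∈ segment ℝ (pos m u) (pos m v))
    (hz' : z ∈ segment ℝ (pos m u') (pos m v')) :
    s(u, v) = s(u', v') ∨ ∃ w, (w = u ∨ w = v) ∧ (w = u' ∨ w = v') ∧ z = pos m w := by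
  obtain ⟨s, t, hs, ht, hst, h3⟩ := cross_mem m u v h _ hz
  obtain ⟨s', t', hs', ht', hst', h3'⟩ := cross_mem m u' v' h' _ hz'
  have hu := fin_pos m u.2
  have hv := fin_pos m v.2
  have hu' := fin_pos m u'.2
  have hv' := fin_pos m v'.2
  obtain ⟨hend1, hend2⟩ := cross_end m u v h z s t hst h3
  have e1 := congrArg (P m u.1) h3
  have e2 := congrArg (P m u'.1) h3'
  rw [P0] at e1 e2
  rw [hr, e1] at e2
  have e3 := congrArg (P m (u.1 + 2)) h3
  have e4 := congrArg (P m (u'.1 + 2)) h3'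
  rw [P2] at e3 e4
  rw [hr, e3] at e4
  have e4' : t * ((m : ℝ) - (v.2.val : ℝ)) = t' * ((m : ℝ) - (v'.2.val : ℝ)) := by linarith
  have hku' : (u.2.val : ℝ) ≤ (u'.2.val : ℝ) := by exact_mod_cast hku
  have hkv' : (v.2.val : ℝ) ≤ (v'.2.val : ℝ) := by exact_mod_cast hkv
  by_cases huu : u.2.val = u'.2.val
  · have huu' : u = u' := Prod.ext hr.symm (Fin.ext huu)
    have hss : s = s' := by
      rw [← huu] at e2
      exact mul_right_cancel₀ hu.ne' e2
    by_cases hvv : v.2.val = v'.2.val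
    · left
      have : v = v' := Prod.ext (by rw [h, h', hr]) (Fin.ext hvv)
      rw [huu', this]
    · right
      refine ⟨u, Or.inl rfl, Or.inl huu', hend1 ?_⟩
      have htt : t = t' := by linarith
      rw [← htt] at e4'
      have h5 : t * ((v'.2.val : ℝ) - (v.2.val : ℝ)) = 0 := by linarith
      rcases mul_eq_zero.1 h5 with h6 | h6
      · rw [h6, zero_mul]
      · exfalso
        apply hvv
        have : (v.2.val : ℝ) = (v'.2.val : ℝ) := by linarith
        exact_mod_cast this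
  · by_cases hvv : v.2.val = v'.2.val
    · right
      have hvv' : v = v' := Prod.ext (by rw [h, h', hr]) (Fin.ext hvv)
      have htt : t = t' := by
        rw [← hvv] at e4'
        exact mul_right_cancel₀ hv.ne' e4'
      refine ⟨v, Or.inr rfl, Or.inr hvv', hend2 ?_⟩
      have hss : s = s' := by linarith
      rw [← hss] at e2
      have h5 : s * ((u'.2.val : ℝ) - (u.2.val : ℝ)) = 0 := by linarith
      rcases mul_eq_zero.1 h5 with h6 | h6
      · rw [h6, zero_mul]
      · exfalso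
        apply huu
        have : (u.2.val : ℝ) = (u'.2.val : ℝ) := by linarith
        exact_mod_cast this
    · exfalso
      have hu2 : (u.2.val : ℝ) < (u'.2.val : ℝ) := by exact_mod_cast lt_of_le_of_ne hku huu
      have hv2 : (v.2.val : ℝ) < (v'.2.val : ℝ) := by exact_mod_cast lt_of_le_of_ne hkv hvv
      have i1 : s ≤ s' := by
        by_contra hcon
        push Not at hcon
        nlinarith
      have i2 : t ≤ t' := by
        by_contra hcon
        push Not at hcon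
        nlinarith
      have hss : s = s' := by linarith
      have htt : t = t' := by linarith
      rw [← hss] at e2
      rw [← htt] at e4'
      have h5 : s * ((u'.2.val : ℝ) - (u.2.val : ℝ)) = 0 := by linarith
      have h6 : t * ((v'.2.val : ℝ) - (v.2.val : ℝ)) = 0 := by linarith
      have h7 : s = 0 := by
        rcases mul_eq_zero.1 h5 with h | h
        · exact h
        · linarith
      have h8 : t = 0 := by
        rcases mul_eq_zero.1 h6 with h | h
        · exact h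
        · linarith
      linarith

/-- canonical orientation -/
def Can (m : ℕ) (E : ℕ → ℕ → Prop) (u v : Fin 3 × Fin m) : Prop :=
  (u.1 = v.1 ∧ v.2.val = u.2.val + 1) ∨ (v.1 = u.1 + 1 ∧ E u.2.val v.2.val)

theorem can_of_adj (m : ℕ) (ray : ℕ → Prop) (E : ℕ → ℕ → Prop) (u v : Fin 3 × Fin m)
    (h : (strip m ray E).Adj u v) : Can m E u v ∨ Can m E v u := by
  rcases h with ⟨h1, h2 | h2⟩ | h | h
  · exact Or.inl (Or.inl ⟨h1, h2.1⟩)
  · exact Or.inr (Or.inl ⟨h1.symm, h2.1⟩)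
  · exact Or.inl (Or.inr h)
  · exact Or.inr (Or.inr h)

theorem can_can (m : ℕ) (E : ℕ → ℕ → Prop)
    (hE : ∀ k l k' l', E k l → E k' l' → (k ≤ k' ∧ l ≤ l') ∨ (k' ≤ k ∧ l' ≤ l))
    (u v u' v' : Fin 3 × Fin m) (h : Can m E u v) (h' : Can m E u' v')
    (z : ℝ × ℝ) (hz : z ∈ segment ℝ (pos m u) (pos m v))
    (hz' : z ∈ segment ℝ (pos m u') (pos m v')) :
    s(u, v) = s(u', v') ∨ ∃ w, (w = u ∨ w = v) ∧ (w = u' ∨ w = v') ∧ z = pos m w := by
  rcases h with ⟨h1, h2⟩ | ⟨h1, h2⟩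
  · rcases h' with ⟨h1', h2'⟩ | ⟨h1', h2'⟩
    · exact ray_ray m u v u' v' h1 h2 h1' h2' z hz hz'
    · exact Or.inr (ray_cross m u v u' v' h1 h2 h1' z hz hz')
  · rcases h' with ⟨h1', h2'⟩ | ⟨h1', h2'⟩
    · right
      obtain ⟨w, hw1, hw2, hw3⟩ := ray_cross m u' v' u v h1' h2' h1 z hz' hz
      exact ⟨w, hw2, hw1, hw3⟩
    · rcases fin3_cases u.1 u'.1 with hr | hr | hr
      · rcases hE _ _ _ _ h2 h2' with hc | hc
        · exact cross_cross_same m u v u' v' h1 h1' hr hc.1 hc.2 z hz hz'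
        · rcases cross_cross_same m u' v' u v h1' h1 hr.symm hc.1 hc.2 z hz' hz with h | h
          · exact Or.inl h.symm
          · obtain ⟨w, hw1, hw2, hw3⟩ := h
            exact Or.inr ⟨w, hw2, hw1, hw3⟩
      · exact Or.inr (cross_cross_next m u v u' v' h1 h1' hr z hz hz')
      · right
        have hr' : u.1 = u'.1 + 1 := by rw [hr, fin3_b]
        obtain ⟨w, hw1, hw2, hw3⟩ := cross_cross_next m u' v' u v h1' h1 hr' z hz' hz
        exact ⟨w, hw2, hw1, hw3⟩

theorem strip_noCross (m : ℕ) (ray : ℕ → Prop) (E : ℕ → ℕ → Prop)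
    (hE : ∀ k l k' l', E k l → E k' l' → (k ≤ k' ∧ l ≤ l') ∨ (k' ≤ k ∧ l' ≤ l)) :
    NoCross (strip m ray E) (fun v => ((ca m v : ℝ), (cb m v : ℝ))) := by
  intro u v u' v' huv huv' hne z hz hz'
  change z ∈ segment ℝ (pos m u) (pos m v) at hz
  change z ∈ segment ℝ (pos m u') (pos m v') at hz'
  change ∃ w, (w = u ∨ w = v) ∧ (w = u' ∨ w = v') ∧ z = pos m w
  rcases can_of_adj m ray E u v huv with h | h <;>
    rcases can_of_adj m ray E u' v' huv' with h' | h'
  · rcases can_can m E hE u v u' v' h h' z hz hz' with hh | hh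
    · exact absurd hh hne
    · exact hh
  · rw [segment_symm] at hz'
    rcases can_can m E hE u v v' u' h h' z hz hz' with hh | ⟨w, h1, h2, h3⟩
    · exact absurd (hh.trans Sym2.eq_swap) hne
    · exact ⟨w, h1, h2.symm, h3⟩
  · rw [segment_symm] at hz
    rcases can_can m E hE v u u' v' h h' z hz hz' with hh | ⟨w, h1, h2, h3⟩
    · exact absurd (Sym2.eq_swap.trans hh) hne
    · exact ⟨w, h1.symm, h2, h3⟩
  · rw [segment_symm] at hz hz'
    rcases can_can m E hE v u v' u' h h' z hz hz' with hh | ⟨w, h1, h2, h3⟩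
    · exact absurd ((Sym2.eq_swap.trans hh).trans Sym2.eq_swap) hne
    · exact ⟨w, h1.symm, h2.symm, h3⟩

end Pool.Agent.V11105.GT
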