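import Pool.Agent.V11105.GTb

set_option autoImplicit false
set_option linter.unusedSectionVars false

namespace Pool.Agent.V11105.GT

open Finset

open Classical in
/-- number of `j < m` with `p j` -/
noncomputable def cntR (m : ℕ) (p : ℕ → Prop) : ℕ := ((range m).filter p).card

theorem cntR_congr (m : ℕ) (p q : ℕ → Prop) (h : ∀ j, j < m → (p j ↔ q j)) :
    cntR m p = cntR m q := by
  classical
  unfold cntR
  congr 1
  ext j
  simp only [mem_filter, mem_range]
  constructor
  · rintro ⟨h1, h2⟩; exact ⟨h1, (h j h1).1 h2⟩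
  · rintro ⟨h1, h2⟩; exact ⟨h1, (h j h1).2 h2⟩

theorem cntR_Ico (m : ℕ) (p : ℕ → Prop) (a b : ℕ) (hb : b ≤ m)
    (h : ∀ j, j < m → (p j ↔ a ≤ j ∧ j < b)) : cntR m p = b - a := by
  classical
  unfold cntR
  rw [← Nat.card_Ico]
  congr 1
  ext j
  simp only [mem_filter, mem_range, mem_Ico]
  constructor
  · rintro ⟨h1, h2⟩; exact (h j h1).1 h2
  · intro h1
    exact ⟨by omega, (h j (by omega)).2 h1⟩

theorem cntR_reflect (m : ℕ) (p : ℕ → Prop) :
    cntR m (fun j => p (m - 1 - j)) = cntR m p := by
  classical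
  unfold cntR
  rw [Finset.card_filter, Finset.card_filter]
  exact Finset.sum_range_reflect (fun j => if p j then 1 else 0) m

theorem cntR_fin (m : ℕ) (p : ℕ → Prop) [DecidablePred p] :
    (∑ j : Fin m, if p j.val then 1 else 0) = cntR m p := by
  classical
  unfold cntR
  rw [Finset.card_filter, Finset.sum_range]
  apply Finset.sum_congr rfl
  intro j _
  congr

theorem sum3 (f : Fin 3 → ℕ) (r : Fin 3) : ∑ i, f i = f r + f (r + 1) + f (r + 2) := by
  fin_cases r <;> simp [Fin.sum_univ_three] <;> ring

theorem f3a (r : Fin 3) : ¬ r = r + 1 := by revert r; decide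
theorem f3b (r : Fin 3) : ¬ r = r + 1 + 1 := by revert r; decide
theorem f3c (r : Fin 3) : ¬ r = r + 2 := by revert r; decide
theorem f3d (r : Fin 3) : ¬ r + 2 = r + 1 := by revert r; decide
theorem f3e (r : Fin 3) : r = r + 2 + 1 := by revert r; decide

theorem strip_ncard (m : ℕ) (ray : ℕ → Prop) (E : ℕ → ℕ → Prop) (r : Fin 3) (k : Fin m) :
    ((strip m ray E).neighborSet (r, k)).ncard =
      cntR m (fun j => (j = k.val + 1 ∧ ray k.val) ∨ (k.val = j + 1 ∧ ray j))
        + cntR m (fun l => E k.val l) + cntR m (fun j => E j k.val) := by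
  classical
  have h1 : ((strip m ray E).neighborSet (r, k)) =
      ((univ.filter fun v : Fin 3 × Fin m => (strip m ray E).Adj (r, k) v : Finset _) :
        Set (Fin 3 × Fin m)) := by
    ext v
    simp
  rw [h1, Set.ncard_coe_finset, Finset.card_filter, Fintype.sum_prod_type, sum3 _ r]
  have a0 : ∀ j : Fin m, (strip m ray E).Adj (r, k) (r, j) ↔
      ((j.val = k.val + 1 ∧ ray k.val) ∨ (k.val = j.val + 1 ∧ ray j.val)) := by
    intro j
    have hr : ¬ r = r + 1 := f3a r
    simp [strip, hr]
  have a1 : ∀ j : Fin m, (strip m ray E).Adj (r, k) (r + 1, j) ↔ E k.val j.val := by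
    intro j
    have hr : ¬ r = r + 1 := f3a r
    have hr2 : ¬ r = r + 1 + 1 := f3b r
    simp only [strip, true_and]
    constructor
    · rintro (h | h | h)
      · exact absurd h.1 hr
      · exact h
      · exact absurd h.1 hr2
    · intro h
      exact Or.inr (Or.inl h)
  have a2 : ∀ j : Fin m, (strip m ray E).Adj (r, k) (r + 2, j) ↔ E j.val k.val := by
    intro j
    have hr : ¬ r = r + 2 := f3c r
    have hr2 : ¬ r + 2 = r + 1 := f3d r
    have hr3 : r = r + 2 + 1 := f3e r
    simp only [strip]
    constructor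
    · rintro (h | h | h)
      · exact absurd h.1 hr
      · exact absurd h.1 hr2
      · exact h.2
    · intro h
      exact Or.inr (Or.inr ⟨hr3, h⟩)
  simp only [a0, a1, a2]
  rw [← cntR_fin, ← cntR_fin, ← cntR_fin]

theorem down_closed (S : Finset ℕ) (h : ∀ a ∈ S, ∀ b < a, b ∈ S) (c : ℕ) :
    c ∈ S ↔ c < S.card := by
  have h1 : S ⊆ range S.card := by
    intro a ha
    rw [mem_range]
    have : range (a + 1) ⊆ S := by
      intro b hb
      rw [mem_range] at hb
      rcases Nat.lt_or_ge b a with h2 | h2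
      · exact h a ha b h2
      · have : b = a := by omega
        rwa [this]
    have := Finset.card_le_card this
    rw [card_range] at this
    omega
  have h2 : S = range S.card := Finset.eq_of_subset_of_card_le h1 (by simp)
  constructor
  · intro hc
    have := h1 hc
    simpa using this
  · intro hc
    rw [h2]
    simpa using hc

/-- triangular numbers -/
def tri (c : ℕ) : ℕ := c * (c + 1) / 2
/-- quarter squares -/
def qq (c : ℕ) : ℕ := c * c / 4
/-- thresholds -/
def hh (s c : ℕ) : ℕ := if c < 2 * s then qq c else tri c - s * s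

theorem tri_succ (c : ℕ) : tri (c + 1) = tri c + c + 1 := by
  unfold tri
  have : (c + 1) * (c + 1 + 1) = c * (c + 1) + 2 * (c + 1) := by ring
  rw [this]
  omega

theorem qq_succ (c : ℕ) : qq c ≤ qq (c + 1) := by
  unfold qq
  have : (c + 1) * (c + 1) = c * c + (2 * c + 1) := by ring
  rw [this]
  omega

theorem qq_succ2 (c : ℕ) : qq (c + 2) = qq c + c + 1 := by
  unfold qq
  have : (c + 2) * (c + 2) = c * c + 4 * (c + 1) := by ring
  rw [this]
  omega

theorem qq_even (s : ℕ) : qq (2 * s) = s * s := by
  unfold qq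
  have : (2 * s) * (2 * s) = 4 * (s * s) := by ring
  rw [this]
  omega

theorem qq_odd (s : ℕ) : qq (2 * s + 1) = s * s + s := by
  unfold qq
  have : (2 * s + 1) * (2 * s + 1) = 4 * (s * s + s) + 1 := by ring
  rw [this]
  omega

theorem tri_even (s : ℕ) : tri (2 * s) = s * s + (s * s + s) := by
  unfold tri
  have : 2 * s * (2 * s + 1) = 2 * (s * s + (s * s + s)) := by ring
  rw [this]
  omega

theorem tri_mono : StrictMono tri := strictMono_nat_of_lt_succ fun c => by
  rw [tri_succ]; omega

theorem sq_le_tri (s c : ℕ) (h : 2 * s ≤ c) : s * s ≤ tri c := by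
  have h1 := tri_mono.monotone h
  rw [tri_even] at h1
  omega

theorem qq_le_tri (c : ℕ) : qq c ≤ tri c := by
  unfold qq tri
  have : c * (c + 1) = c * c + c := by ring
  rw [this]
  omega

theorem hh_mono (s : ℕ) : Monotone (hh s) := by
  apply monotone_nat_of_le_succ
  intro c
  unfold hh
  rcases Nat.lt_or_ge (c + 1) (2 * s) with h | h
  · rw [if_pos h, if_pos (by omega)]
    exact qq_succ c
  · rcases Nat.lt_or_ge c (2 * s) with h2 | h2
    · rw [if_pos h2, if_neg (by omega)]
      have h3 : c + 1 = 2 * s := by omega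
      rw [h3, tri_even]
      have h4 := qq_succ c
      rw [h3, qq_even] at h4
      omega
    · rw [if_neg (by omega), if_neg (by omega), tri_succ]
      omega

theorem tele (s x n : ℕ) :
    (∑ c ∈ range n, if hh s c = x then 1 else 0)
      + (if n < 2 * s then (if qq n = x then 1 else 0) + (if qq (n + 1) = x then 1 else 0)
          else (if s * s = x then 1 else 0) + (if tri n - s * s = x then 1 else 0))
      = (∑ c ∈ range n, if hh s c + c + 1 = x then 1 else 0) + (if x = 0 then 2 else 0) := by
  induction n with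
  | zero =>
    simp only [range_zero, sum_empty, zero_add]
    have q0 : qq 0 = 0 := by decide
    have q1 : qq 1 = 0 := by decide
    have t0 : tri 0 = 0 := by decide
    rw [q0, q1, t0]
    rcases Nat.eq_zero_or_pos s with h | h
    · subst h
      by_cases hx : x = 0
      · subst hx; simp
      · simp [hx, Ne.symm hx]
    · rw [if_pos (by omega)]
      by_cases hx : x = 0
      · subst hx; simp
      · simp [hx, Ne.symm hx]
  | succ n ih =>
    rw [sum_range_succ, sum_range_succ]
    rcases Nat.lt_or_ge (n + 1) (2 * s) with h | h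
    · rw [if_pos h]
      rw [if_pos (by omega : n < 2 * s)] at ih
      have e1 : hh s n = qq n := by unfold hh; rw [if_pos (by omega)]
      have e2 : qq (n + 1 + 1) = qq n + n + 1 := qq_succ2 n
      rw [e1, e2]
      omega
    · rcases Nat.lt_or_ge n (2 * s) with h2 | h2
      · rw [if_neg (by omega : ¬ (n + 1 < 2 * s))]
        rw [if_pos h2] at ih
        have h3 : n + 1 = 2 * s := by omega
        have e1 : hh s n = qq n := by unfold hh; rw [if_pos (by omega)]
        have e2 : qq (n + 1 + 1) = qq n + n + 1 := qq_succ2 n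
        rw [h3, qq_odd] at e2
        rw [h3, qq_even] at ih
        have e3 : tri (n + 1) - s * s = qq n + n + 1 := by
          rw [h3, tri_even, ← e2]; omega
        rw [e1, e3]
        omega
      · rw [if_neg (by omega : ¬ (n + 1 < 2 * s))]
        rw [if_neg (by omega : ¬ (n < 2 * s))] at ih
        have e1 : hh s n = tri n - s * s := by unfold hh; rw [if_neg (by omega)]
        have e3 : tri (n + 1) - s * s = tri n - s * s + n + 1 := by
          have := sq_le_tri s n h2
          rw [tri_succ]
          omega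
        rw [e1, e3]
        omega

/-- number of diagonals -/
def NN (t : ℕ) : ℕ := 4 * t + 1
/-- last threshold -/
def TT (t : ℕ) : ℕ := (4 * t + 1) * (2 * t + 1)
/-- half length -/
def MM (t : ℕ) : ℕ := TT t + NN t + 5

theorem tri_NN (t : ℕ) : tri (NN t) = TT t := by
  unfold tri NN TT
  have : (4 * t + 1) * (4 * t + 1 + 1) = 2 * ((4 * t + 1) * (2 * t + 1)) := by ring
  rw [this]
  omega

/-- outer rule -/
def out (t s x c : ℕ) : Prop :=
  c ≤ NN t + 1 ∧ (2 ≤ c → hh s (c - 2) ≤ x) ∧ (c < NN t → x ≤ hh s c)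

/-- cross edges -/
def EE (t s k l : ℕ) : Prop :=
  l ≤ k ∧ k < 2 * MM t ∧ out t s (min l (2 * MM t - 1 - k)) (k - l)

theorem hh_lt (t s c : ℕ) (h : c < NN t) : hh s c < TT t := by
  have h1 : tri c < TT t := by
    rw [← tri_NN]
    exact tri_mono h
  unfold hh
  split_ifs
  · exact lt_of_le_of_lt (qq_le_tri c) h1
  · omega

theorem bulk (t s y c : ℕ) (hy : TT t ≤ y) :
    out t s y c ↔ NN t ≤ c ∧ c ≤ NN t + 1 := by
  unfold out
  constructor
  · rintro ⟨h1, _, h3⟩
    refine ⟨?_, h1⟩
    by_contra hc
    push Not at hc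
    have := h3 hc
    have := hh_lt t s c hc
    omega
  · rintro ⟨h1, h2⟩
    refine ⟨h2, fun h3 => ?_, fun h3 => absurd h3 (by omega)⟩
    have := hh_lt t s (c - 2) (by omega)
    omega

theorem EE_chain (t s : ℕ) : ∀ k l k' l', EE t s k l → EE t s k' l' →
    (k ≤ k' ∧ l ≤ l') ∨ (k' ≤ k ∧ l' ≤ l) := by
  have key : ∀ k l k' l', EE t s k l → EE t s k' l' → k < k' → l' < l → False := by
    intro k l k' l' ⟨h1, h2, h3, h4, h5⟩ ⟨h1', h2', h3', h4', h5'⟩ hk hl
    have hx : min l' (2 * MM t - 1 - k') < min l (2 * MM t - 1 - k) := by omega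
    have a1 := h4' (by omega)
    have a2 := h5 (by omega)
    have a3 := hh_mono s (show k - l ≤ k' - l' - 2 by omega)
    omega
  intro k l k' l' h h'
  by_contra hcon
  have : (k < k' ∧ l' < l) ∨ (k' < k ∧ l < l') := by omega
  rcases this with ⟨a, b⟩ | ⟨a, b⟩
  · exact key k l k' l' h h' a b
  · exact key k' l' k l h' h a b

theorem EE_symm (t s k l : ℕ) (hk : k < 2 * MM t) (hl : l < 2 * MM t) :
    EE t s k l ↔ EE t s (2 * MM t - 1 - l) (2 * MM t - 1 - k) := by
  unfold EE
  have e1 : min (2 * MM t - 1 - k) (2 * MM t - 1 - (2 * MM t - 1 - l))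
      = min l (2 * MM t - 1 - k) := by omega
  have e2 : l ≤ k → 2 * MM t - 1 - l - (2 * MM t - 1 - k) = k - l := by omega
  rw [e1]
  constructor
  · rintro ⟨h1, h2, h3⟩
    refine ⟨by omega, by omega, ?_⟩
    rw [e2 h1]; exact h3
  · rintro ⟨h1, h2, h3⟩
    have h4 : l ≤ k := by omega
    refine ⟨h4, hk, ?_⟩
    rwa [e2 h4] at h3

/-- count of thresholds below -/
def Dc (t s x : ℕ) : ℕ := ((range (NN t)).filter fun c => hh s c < x).card
/-- count of shifted thresholds below -/
def Fr (t s x : ℕ) : ℕ := ((range (NN t)).filter fun c => hh s c + c < x).card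

theorem Dc_iff (t s x c : ℕ) : (c < NN t ∧ hh s c < x) ↔ c < Dc t s x := by
  unfold Dc
  rw [← down_closed]
  · simp
  · intro a ha b hb
    simp only [mem_filter, mem_range] at ha ⊢
    have := hh_mono s hb.le
    omega

theorem Fr_iff (t s x c : ℕ) : (c < NN t ∧ hh s c + c < x) ↔ c < Fr t s x := by
  unfold Fr
  rw [← down_closed]
  · simp
  · intro a ha b hb
    simp only [mem_filter, mem_range] at ha ⊢
    have := hh_mono s hb.le
    omega

theorem Dc_le (t s x : ℕ) : Dc t s x ≤ NN t := by
  unfold Dc
  exact (Finset.card_filter_le _ _).trans (by simp)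

theorem Fr_le (t s x : ℕ) : Fr t s x ≤ NN t := by
  unfold Fr
  exact (Finset.card_filter_le _ _).trans (by simp)

theorem Fr_le' (t s x : ℕ) : Fr t s x ≤ x := by
  by_contra h
  push Not at h
  have := (Fr_iff t s x x).2 h
  omega

theorem Dc_succ (t s x : ℕ) :
    Dc t s (x + 1) = Dc t s x + ∑ c ∈ range (NN t), if hh s c = x then 1 else 0 := by
  unfold Dc
  rw [Finset.card_filter, Finset.card_filter, ← Finset.sum_add_distrib]
  apply Finset.sum_congr rfl
  intro c _
  split_ifs <;> omega

theorem Fr_succ (t s x : ℕ) :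
    Fr t s (x + 1) = Fr t s x + ∑ c ∈ range (NN t), if hh s c + c + 1 = x + 1 then 1 else 0 := by
  unfold Fr
  rw [Finset.card_filter, Finset.card_filter, ← Finset.sum_add_distrib]
  apply Finset.sum_congr rfl
  intro c _
  split_ifs <;> omega

theorem one_le (t s x : ℕ) :
    (∑ c ∈ range (NN t), if hh s c + c + 1 = x then 1 else 0) ≤ 1 := by
  rw [← Finset.card_filter, Finset.card_le_one]
  intro a ha b hb
  simp only [mem_filter, mem_range] at ha hb
  rcases Nat.lt_trichotomy a b with h | h | h
  · have := hh_mono s h.le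
    omega
  · exact h
  · have := hh_mono s h.le
    omega

theorem col_iff (t s x j : ℕ) (hx : x < MM t) (hj : j < 2 * MM t) :
    EE t s j x ↔ x + Dc t s x ≤ j ∧ j < x + Dc t s (x + 1) + 2 := by
  have hM : MM t = TT t + NN t + 5 := rfl
  have h0 : ∀ c, out t s x c ↔ Dc t s x ≤ c ∧ c < Dc t s (x + 1) + 2 := by
    intro c
    constructor
    · rintro ⟨h1, h2, h3⟩
      constructor
      · by_contra h
        push Not at h
        have := (Dc_iff t s x c).2 h
        have := h3 this.1
        omega
      · by_contra h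
        push Not at h
        have h4 := h2 (by omega)
        have h5 := (Dc_iff t s (x + 1) (c - 2)).1 ⟨by omega, by omega⟩
        omega
    · rintro ⟨h1, h2⟩
      have h3 := Dc_le t s (x + 1)
      refine ⟨by omega, fun h4 => ?_, fun h4 => ?_⟩
      · have := (Dc_iff t s (x + 1) (c - 2)).2 (by omega)
        omega
      · by_contra h5
        push Not at h5
        have := (Dc_iff t s x c).1 ⟨h4, h5⟩
        omega
  have h1 : x ≤ j → (out t s (min x (2 * MM t - 1 - j)) (j - x) ↔ out t s x (j - x)) := by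
    intro hxj
    rcases Nat.lt_or_ge (2 * MM t - 1 - j) x with h | h
    · rw [min_eq_right h.le]
      by_cases hc : j - x ≤ NN t + 1
      · rw [bulk t s _ _ (by omega), bulk t s _ _ (by omega)]
      · constructor
        · intro h; exact absurd h.1 hc
        · intro h; exact absurd h.1 hc
    · rw [min_eq_left h]
  unfold EE
  constructor
  · rintro ⟨a, b, c⟩
    have := (h0 _).1 ((h1 a).1 c)
    omega
  · rintro ⟨a, b⟩
    have hxj : x ≤ j := by omega
    exact ⟨hxj, hj, (h1 hxj).2 ((h0 _).2 (by omega))⟩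

theorem row_iff (t s k l : ℕ) (hk : k + 1 < MM t) :
    EE t s (k + 1) l ↔ l + Fr t s (k + 1) ≤ k + 1 ∧ k + 1 < l + Fr t s k + 2 := by
  have h0 : ∀ c, l + c = k + 1 → (out t s l c ↔ Fr t s (k + 1) ≤ c ∧ c < Fr t s k + 2) := by
    intro c hc
    constructor
    · rintro ⟨h1, h2, h3⟩
      constructor
      · by_contra h
        push Not at h
        have := (Fr_iff t s (k + 1) c).2 h
        have := h3 this.1
        omega
      · by_contra h
        push Not at h
        have h4 := h2 (by omega)
        have h5 := (Fr_iff t s k (c - 2)).1 ⟨by omega, by omega⟩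
        omega
    · rintro ⟨h1, h2⟩
      have h3 := Fr_le t s k
      refine ⟨by omega, fun h4 => ?_, fun h4 => ?_⟩
      · have := (Fr_iff t s k (c - 2)).2 (by omega)
        omega
      · by_contra h5
        push Not at h5
        have := (Fr_iff t s (k + 1) c).1 ⟨h4, by omega⟩
        omega
  unfold EE
  constructor
  · rintro ⟨a, b, c⟩
    rw [min_eq_left (by omega)] at c
    have := (h0 _ (by omega)).1 c
    omega
  · rintro ⟨a, b⟩
    have hxj : l ≤ k + 1 := by omega
    refine ⟨hxj, by omega, ?_⟩
    rw [min_eq_left (by omega)]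
    exact (h0 _ (by omega)).2 (by omega)

/-- row count -/
noncomputable def rowc (t s k : ℕ) : ℕ := cntR (2 * MM t) (fun l => EE t s k l)
/-- column count -/
noncomputable def colc (t s k : ℕ) : ℕ := cntR (2 * MM t) (fun j => EE t s j k)

theorem colc_eq (t s x : ℕ) (hx : x < MM t) :
    colc t s x = 2 + ∑ c ∈ range (NN t), if hh s c = x then 1 else 0 := by
  have hM : MM t = TT t + NN t + 5 := rfl
  have h1 := Dc_le t s (x + 1)
  unfold colc
  rw [cntR_Ico (2 * MM t) _ (x + Dc t s x) (x + Dc t s (x + 1) + 2) (by omega)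
    (fun j hj => col_iff t s x j hx hj), Dc_succ]
  omega

theorem rowc_zero (t s : ℕ) : rowc t s 0 = 1 := by
  have hM : MM t = TT t + NN t + 5 := rfl
  unfold rowc
  rw [cntR_Ico (2 * MM t) _ 0 1 (by omega)]
  intro l _
  unfold EE out
  constructor
  · rintro ⟨h, _⟩; omega
  · intro h
    have : l = 0 := by omega
    subst this
    refine ⟨le_rfl, by omega, by omega, fun h => by omega, fun h => by simp⟩

theorem rowc_succ (t s k : ℕ) (hk : k + 1 < MM t) :
    rowc t s (k + 1) + (∑ c ∈ range (NN t), if hh s c + c + 1 = k + 1 then 1 else 0) = 2 := by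
  have hM : MM t = TT t + NN t + 5 := rfl
  have h1 := Fr_le' t s k
  have h2 := Fr_le' t s (k + 1)
  have h3 := Fr_succ t s k
  have h4 := one_le t s (k + 1)
  unfold rowc
  rw [cntR_Ico (2 * MM t) _ (k - Fr t s k) (k + 2 - Fr t s (k + 1)) (by omega)
    (fun j hj => by
      rw [row_iff t s k j hk]
      omega)]
  omega

theorem base_count (t s x : ℕ) (hs : s < t) (hx : x < MM t) :
    rowc t s x + colc t s x + (if x = s * s then 1 else 0) + (if x = TT t - s * s then 1 else 0)
      = 4 + (if x = 0 then 1 else 0) := by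
  have h := tele s x (NN t)
  rw [if_neg (by unfold NN; omega), tri_NN] at h
  have hc := colc_eq t s x hx
  have e1 : (if s * s = x then 1 else 0) = (if x = s * s then 1 else 0) := by
    simp only [eq_comm]
  have e2 : (if TT t - s * s = x then 1 else 0) = (if x = TT t - s * s then 1 else 0) := by
    simp only [eq_comm]
  rw [e1, e2] at h
  rcases Nat.eq_zero_or_pos x with h0 | h0
  · subst h0
    rw [rowc_zero]
    have e3 : (∑ c ∈ range (NN t), if hh s c + c + 1 = 0 then 1 else 0) = 0 := by
      simp
    rw [e3, if_pos rfl] at h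
    rw [if_pos rfl]
    omega
  · obtain ⟨k, rfl⟩ : ∃ k, x = k + 1 := ⟨x - 1, by omega⟩
    have hr := rowc_succ t s k hx
    rw [if_neg (by omega : ¬ k + 1 = 0)] at h ⊢
    omega

end Pool.Agent.V11105.GT
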