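import Pool.Agent.V11105.GTc

set_option autoImplicit false
set_option linter.unusedSectionVars false

namespace Pool.Agent.V11105.GT

open Finset

/-- outer defect indices -/
def Xo (t k : ℕ) : Prop := ∃ i, i < t ∧ (k = i * i ∨ k = TT t - i * i)

/-- number of outer defects below `k` -/
def cntX (t k : ℕ) : ℕ :=
  ((range t).filter fun i => i * i < k).card + ((range t).filter fun i => TT t - i * i < k).card

/-- the ray edge at `k` is removed (outer half) -/
def Rm (t k : ℕ) : Prop := ¬ Xo t k ∧ Even (k + cntX t k)

/-- the ray edge at `k` is removed -/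
def rem (t k : ℕ) : Prop := (k < MM t ∧ Rm t k) ∨ (MM t ≤ k ∧ Rm t (2 * MM t - 2 - k))

/-- the ray edges of class `s` -/
def ray (t s k : ℕ) : Prop := s ≠ 0 ∨ ¬ rem t k

theorem TT_eq (t : ℕ) : TT t = 8 * (t * t) + 6 * t + 1 := by
  unfold TT; ring

theorem sq_lt (t i : ℕ) (h : i < t) : i * i + i < t * t + t := by nlinarith

theorem sq_le (t i : ℕ) (h : i < t) : i * i < t * t := Nat.mul_self_lt_mul_self h

theorem cntX_congr (t k : ℕ) (h : ¬ Xo t k) : cntX t (k + 1) = cntX t k := by
  unfold cntX
  congr 2
  · apply Finset.filter_congr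
    intro i hi
    rw [mem_range] at hi
    have : k ≠ i * i := fun h2 => h ⟨i, hi, Or.inl h2⟩
    omega
  · apply Finset.filter_congr
    intro i hi
    rw [mem_range] at hi
    have : k ≠ TT t - i * i := fun h2 => h ⟨i, hi, Or.inr h2⟩
    omega

theorem even_sq_add (i : ℕ) : Even (i * i + i) := by
  have : i * i + i = i * (i + 1) := by ring
  rw [this]
  exact Nat.even_mul_succ_self i

theorem card_lt (t s : ℕ) (h : s < t) : ((range t).filter fun i => i < s).card = s := by
  have : ((range t).filter fun i => i < s) = range s := by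
    ext i; simp; omega
  rw [this, card_range]

theorem card_le' (t s : ℕ) (h : s < t) : ((range t).filter fun i => i ≤ s).card = s + 1 := by
  have : ((range t).filter fun i => i ≤ s) = range (s + 1) := by
    ext i; simp; omega
  rw [this, card_range]

theorem card_gt (t s : ℕ) (h : s < t) : ((range t).filter fun i => s < i).card = t - 1 - s := by
  have : ((range t).filter fun i => s < i) = Ico (s + 1) t := by
    ext i; simp; omega
  rw [this, Nat.card_Ico]; omega

theorem card_ge (t s : ℕ) (h : s < t) : ((range t).filter fun i => s ≤ i).card = t - s := by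
  have : ((range t).filter fun i => s ≤ i) = Ico s t := by
    ext i; simp; omega
  rw [this, Nat.card_Ico]

theorem even_at (t k : ℕ) (h : Xo t k) :
    Even (k + cntX t k) ∧ Even (k + 1 + cntX t (k + 1)) := by
  obtain ⟨s, hs, h | h⟩ := h
  · have hT := TT_eq t
    have hss := sq_le t s hs
    have hE := even_sq_add s
    subst h
    have e1 : cntX t (s * s) = s := by
      unfold cntX
      rw [Finset.filter_congr (q := fun i => i < s) (fun i _ => Nat.mul_self_lt_mul_self_iff),
        card_lt t s hs, Finset.filter_false_of_mem, card_empty, add_zero]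
      intro i hi
      rw [mem_range] at hi
      have := sq_le t i hi
      omega
    have e2 : cntX t (s * s + 1) = s + 1 := by
      unfold cntX
      rw [Finset.filter_congr (q := fun i => i ≤ s) (fun i _ => by
          rw [Nat.lt_succ_iff]; exact Nat.mul_self_le_mul_self_iff),
        card_le' t s hs, Finset.filter_false_of_mem, card_empty, add_zero]
      intro i hi
      rw [mem_range] at hi
      have := sq_le t i hi
      omega
    rw [e1, e2]
    refine ⟨hE, ?_⟩
    rw [Nat.even_iff] at hE ⊢
    omega
  · have hT := TT_eq t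
    have hss := sq_le t s hs
    have hE := even_sq_add s
    subst h
    have e1 : cntX t (TT t - s * s) = t + (t - 1 - s) := by
      unfold cntX
      rw [Finset.filter_congr (s := range t) (p := fun i => TT t - i * i < TT t - s * s)
          (q := fun i => s < i) (fun i hi => by
          rw [mem_range] at hi
          have h1 := sq_le t i hi
          have h2 := Nat.mul_self_lt_mul_self_iff (m := s) (n := i)
          omega),
        card_gt t s hs, Finset.filter_true_of_mem, card_range]
      intro i hi
      rw [mem_range] at hi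
      have := sq_le t i hi
      omega
    have e2 : cntX t (TT t - s * s + 1) = t + (t - s) := by
      unfold cntX
      rw [Finset.filter_congr (s := range t) (p := fun i => TT t - i * i < TT t - s * s + 1)
          (q := fun i => s ≤ i) (fun i hi => by
          rw [mem_range] at hi
          have h1 := sq_le t i hi
          have h2 := Nat.mul_self_le_mul_self_iff (m := s) (n := i)
          omega),
        card_ge t s hs, Finset.filter_true_of_mem, card_range]
      intro i hi
      rw [mem_range] at hi
      have := sq_le t i hi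
      omega
    rw [e1, e2]
    rw [Nat.even_iff] at hE
    constructor <;> rw [Nat.even_iff] <;> omega

theorem Xo_unique (t i j k : ℕ) (hi : i < t) (hj : j < t) (h1 : k = i * i ∨ k = TT t - i * i)
    (h2 : k = j * j ∨ k = TT t - j * j) : i = j := by
  have hT := TT_eq t
  have a := sq_le t i hi
  have b := sq_le t j hj
  have key : i * i = j * j := by omega
  exact Nat.mul_self_inj.1 key

open Classical in
/-- labels -/
noncomputable def labN (t k : ℕ) : ℕ := if h : Xo t k then h.choose else 0

theorem labN_lt (t k : ℕ) (ht : 1 ≤ t) : labN t k < t := by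
  unfold labN
  split_ifs with h
  · exact h.choose_spec.1
  · omega

theorem labN_eq (t k s : ℕ) (hs : s < t) (h : k = s * s ∨ k = TT t - s * s) : labN t k = s := by
  unfold labN
  have hX : Xo t k := ⟨s, hs, h⟩
  rw [dif_pos hX]
  exact Xo_unique t _ s k hX.choose_spec.1 hs hX.choose_spec.2 h

theorem labN_spec (t k : ℕ) (h : Xo t k) :
    k = labN t k * labN t k ∨ k = TT t - labN t k * labN t k := by
  unfold labN
  rw [dif_pos h]
  exact h.choose_spec.2

theorem labN_not (t k : ℕ) (h : ¬ Xo t k) : labN t k = 0 := by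
  unfold labN
  rw [dif_neg h]

open Classical in
theorem cntR_ray (m k : ℕ) (A : Prop) (B : ℕ → Prop) :
    cntR m (fun j => (j = k + 1 ∧ A) ∨ (k = j + 1 ∧ B j)) =
      (if k + 1 < m ∧ A then 1 else 0) + (if 1 ≤ k ∧ k ≤ m ∧ B (k - 1) then 1 else 0) := by
  unfold cntR
  rw [Finset.card_filter]
  trans (∑ j ∈ range m, ((if j = k + 1 ∧ A then 1 else 0) + (if k = j + 1 ∧ B j then 1 else 0)))
  · apply Finset.sum_congr rfl
    intro j _
    by_cases h : j = k + 1 ∧ A
    · have h' : ¬ k = j + 1 := by omega
      rw [if_pos (Or.inl h), if_pos h, if_neg (fun h2 => h' h2.1)]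
    · by_cases hB : k = j + 1 ∧ B j
      · rw [if_pos (Or.inr hB), if_neg h, if_pos hB]
      · rw [if_neg (fun h2 => h2.elim h hB), if_neg h, if_neg hB]
  rw [Finset.sum_add_distrib]
  congr 1
  · by_cases h : k + 1 < m
    · rw [Finset.sum_eq_single (k + 1)]
      · simp [h]
      · intro b _ hb
        simp [hb]
      · intro h2
        exact absurd (mem_range.2 h) h2
    · rw [Finset.sum_eq_zero]
      · simp [h]
      · intro j hj
        rw [mem_range] at hj
        have : ¬ j = k + 1 := by omega
        simp [this]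
  · by_cases h : 1 ≤ k ∧ k ≤ m
    · rw [Finset.sum_eq_single (k - 1)]
      · have : k = k - 1 + 1 := by omega
        by_cases hB : B (k - 1)
        · rw [if_pos ⟨this, hB⟩, if_pos ⟨h.1, h.2, hB⟩]
        · rw [if_neg (fun h => hB h.2), if_neg (fun h => hB h.2.2)]
      · intro b _ hb
        have : ¬ k = b + 1 := by omega
        simp [this]
      · intro h2
        exact absurd (mem_range.2 (by omega)) h2
    · rw [Finset.sum_eq_zero]
      · rw [if_neg (fun h2 => h ⟨h2.1, h2.2.1⟩)]
      · intro j hj
        rw [mem_range] at hj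
        have : ¬ k = j + 1 := by omega
        simp [this]

/-- ray count -/
noncomputable def rayc (t s k : ℕ) : ℕ :=
  cntR (2 * MM t) (fun j => (j = k + 1 ∧ ray t s k) ∨ (k = j + 1 ∧ ray t s j))

theorem rem_reflect (t j : ℕ) (hj : j + 2 ≤ 2 * MM t) : rem t (2 * MM t - 2 - j) ↔ rem t j := by
  unfold rem
  rcases Nat.lt_or_ge j (MM t) with h | h
  · rcases Nat.lt_or_ge (2 * MM t - 2 - j) (MM t) with h2 | h2
    · have : 2 * MM t - 2 - j = j := by omega
      rw [this]
      constructor
      · rintro (h3 | h3)
        · exact Or.inl h3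
        · omega
      · rintro (h3 | h3)
        · exact Or.inl h3
        · omega
    · have : 2 * MM t - 2 - (2 * MM t - 2 - j) = j := by omega
      rw [this]
      constructor
      · rintro (h3 | h3)
        · omega
        · exact Or.inl ⟨h, h3.2⟩
      · rintro (h3 | h3)
        · exact Or.inr ⟨h2, h3.2⟩
        · omega
  · have h2 : 2 * MM t - 2 - j < MM t := by omega
    constructor
    · rintro (h3 | h3)
      · exact Or.inr ⟨h, h3.2⟩
      · omega
    · rintro (h3 | h3)
      · omega
      · exact Or.inl ⟨h2, h3.2⟩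

theorem ray_reflect (t s j : ℕ) (hj : j + 2 ≤ 2 * MM t) :
    ray t s (2 * MM t - 2 - j) ↔ ray t s j := by
  unfold ray
  rw [rem_reflect t j hj]

theorem rayc_reflect (t s k : ℕ) (hk : k < 2 * MM t) :
    rayc t s (2 * MM t - 1 - k) = rayc t s k := by
  classical
  unfold rayc
  rw [cntR_ray, cntR_ray, add_comm]
  congr 1
  · by_cases h : k + 1 < 2 * MM t
    · have e : 2 * MM t - 1 - k - 1 = 2 * MM t - 2 - k := by omega
      rw [e, ray_reflect t s k (by omega)]
      by_cases hr : ray t s k
      · rw [if_pos ⟨by omega, by omega, hr⟩, if_pos ⟨h, hr⟩]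
      · rw [if_neg (fun h => hr h.2.2), if_neg (fun h => hr h.2)]
    · rw [if_neg (by omega), if_neg (by omega)]
  · by_cases h : 1 ≤ k
    · have e : 2 * MM t - 1 - k = 2 * MM t - 2 - (k - 1) := by omega
      rw [e, ray_reflect t s (k - 1) (by omega)]
      by_cases hr : ray t s (k - 1)
      · rw [if_pos ⟨by omega, hr⟩, if_pos ⟨h, by omega, hr⟩]
      · rw [if_neg (fun h => hr h.2), if_neg (fun h => hr h.2.2)]
    · rw [if_neg (by omega), if_neg (by omega)]

theorem rayc_pos (t s k : ℕ) (hs : s ≠ 0) (hk : k < MM t) :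
    rayc t s k + (if k = 0 then 1 else 0) = 2 := by
  classical
  unfold rayc
  have hM : MM t = TT t + NN t + 5 := rfl
  rw [cntR_ray]
  have hr : ∀ j, ray t s j := fun j => Or.inl hs
  rw [if_pos ⟨by omega, hr k⟩]
  by_cases h : k = 0
  · rw [if_neg (by omega), if_pos h]
  · rw [if_pos ⟨by omega, by omega, hr _⟩, if_neg h]

theorem ray_zero_iff (t j : ℕ) (hj : j < MM t) : ray t 0 j ↔ ¬ Rm t j := by
  unfold ray rem
  constructor
  · rintro (h | h) h2
    · exact h rfl
    · exact h (Or.inl ⟨hj, h2⟩)
  · intro h
    right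
    rintro (h2 | h2)
    · exact h h2.2
    · omega

theorem rayc_zero_X (t k : ℕ) (hk : k < MM t) (hX : Xo t k) :
    rayc t 0 k + (if k = 0 then 1 else 0) = 2 := by
  classical
  unfold rayc
  have hM : MM t = TT t + NN t + 5 := rfl
  rw [cntR_ray]
  have hray := ray_zero_iff t
  have h1 : ¬ Rm t k := fun h => h.1 hX
  rw [if_pos ⟨by omega, (hray k hk).2 h1⟩]
  by_cases h0 : k = 0
  · rw [if_neg (by omega), if_pos h0]
  · have h2 : ray t 0 (k - 1) := by
      rw [hray (k - 1) (by omega)]
      rintro ⟨h3, h4⟩
      have h5 := cntX_congr t (k - 1) h3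
      have h6 := (even_at t k hX).1
      have e : k - 1 + 1 = k := by omega
      rw [e] at h5
      rw [← h5] at h4
      rw [Nat.even_iff] at h4 h6
      omega
    rw [if_pos ⟨by omega, by omega, h2⟩, if_neg h0]

theorem rayc_zero_N (t k : ℕ) (ht : 1 ≤ t) (hk : k < MM t) (hX : ¬ Xo t k) :
    rayc t 0 k + (if k = 0 then 1 else 0) = 1 := by
  classical
  unfold rayc
  have hM : MM t = TT t + NN t + 5 := rfl
  rw [cntR_ray]
  have hray := ray_zero_iff t
  have hX0 : Xo t 0 := ⟨0, by omega, Or.inl rfl⟩
  have h0 : k ≠ 0 := by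
    intro h; rw [h] at hX; exact hX hX0
  rw [if_neg h0]
  have e : k - 1 + 1 = k := by omega
  by_cases hE : Even (k + cntX t k)
  · have h1 : Rm t k := ⟨hX, hE⟩
    rw [if_neg (fun h => (hray k hk).1 h.2 h1)]
    have h2 : ray t 0 (k - 1) := by
      rw [hray (k - 1) (by omega)]
      rintro ⟨h3, h4⟩
      have h5 := cntX_congr t (k - 1) h3
      rw [e] at h5
      rw [← h5] at h4
      rw [Nat.even_iff] at h4 hE
      omega
    rw [if_pos ⟨by omega, by omega, h2⟩]
  · have h1 : ¬ Rm t k := fun h => hE h.2
    rw [if_pos ⟨by omega, (hray k hk).2 h1⟩]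
    have hX1 : ¬ Xo t (k - 1) := by
      intro h
      have := (even_at t (k - 1) h).2
      rw [e] at this
      exact hE this
    have h2 : ¬ ray t 0 (k - 1) := by
      rw [hray (k - 1) (by omega)]
      intro h
      apply h
      refine ⟨hX1, ?_⟩
      have h5 := cntX_congr t (k - 1) hX1
      rw [e] at h5
      rw [← h5]
      rw [Nat.even_iff] at hE ⊢
      omega
    rw [if_neg (fun h => h2 h.2.2)]

theorem deg_outer (t s k : ℕ) (hs : s < t) (hk : k < MM t) :
    rayc t s k + rowc t s k + colc t s k = if s = labN t k then 5 else 6 := by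
  classical
  have h1 := base_count t s k hs hk
  have hT := TT_eq t
  have hss := sq_le t s hs
  by_cases h0 : s = 0
  · subst h0
    by_cases hX : Xo t k
    · have h2 := rayc_zero_X t k hk hX
      by_cases hl : (0 : ℕ) = labN t k
      · rw [if_pos hl]
        have h3 := labN_spec t k hX
        rw [← hl] at h3
        rcases h3 with h3 | h3
        · have h4 : ¬ k = TT t - 0 * 0 := by omega
          split_ifs at h1 h2 <;> omega
        · have h4 : ¬ k = 0 * 0 := by omega
          split_ifs at h1 h2 <;> omega
      · rw [if_neg hl]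
        have h3 : ¬ k = 0 * 0 := fun h => hl (labN_eq t k 0 hs (Or.inl h)).symm
        have h4 : ¬ k = TT t - 0 * 0 := fun h => hl (labN_eq t k 0 hs (Or.inr h)).symm
        split_ifs at h1 h2 <;> omega
    · have h2 := rayc_zero_N t k (by omega) hk hX
      rw [if_pos (labN_not t k hX).symm]
      have h3 : ¬ k = 0 * 0 := fun h => hX ⟨0, hs, Or.inl h⟩
      have h4 : ¬ k = TT t - 0 * 0 := fun h => hX ⟨0, hs, Or.inr h⟩
      split_ifs at h1 h2 <;> omega
  · have h2 := rayc_pos t s k h0 hk
    by_cases hl : s = labN t k
    · rw [if_pos hl]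
      have hX : Xo t k := by
        by_contra hX
        exact h0 (hl.trans (labN_not t k hX))
      have h3 := labN_spec t k hX
      rw [← hl] at h3
      rcases h3 with h3 | h3
      · have h4 : ¬ k = TT t - s * s := by omega
        rw [if_pos h3, if_neg h4] at h1
        omega
      · have h4 : ¬ k = s * s := by omega
        rw [if_neg h4, if_pos h3] at h1
        omega
    · rw [if_neg hl]
      have h3 : ¬ k = s * s := fun h => hl (labN_eq t k s hs (Or.inl h)).symm
      have h4 : ¬ k = TT t - s * s := fun h => hl (labN_eq t k s hs (Or.inr h)).symm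
      rw [if_neg h3, if_neg h4] at h1
      omega

theorem rowc_reflect (t s k : ℕ) (hk : k < 2 * MM t) :
    rowc t s k = colc t s (2 * MM t - 1 - k) := by
  unfold rowc colc
  rw [← cntR_reflect (2 * MM t) (fun j => EE t s j (2 * MM t - 1 - k))]
  apply cntR_congr
  intro l hl
  exact EE_symm t s k l hk hl

theorem deg_all (t s k : ℕ) (hs : s < t) (hk : k < 2 * MM t) :
    rayc t s k + rowc t s k + colc t s k
      = if s = labN t (min k (2 * MM t - 1 - k)) then 5 else 6 := by
  rcases Nat.lt_or_ge k (MM t) with h | h
  · rw [min_eq_left (by omega)]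
    exact deg_outer t s k hs h
  · rw [min_eq_right (by omega)]
    rw [← deg_outer t s (2 * MM t - 1 - k) hs (by omega)]
    rw [rayc_reflect t s k hk, rowc_reflect t s k hk,
      rowc_reflect t s (2 * MM t - 1 - k) (by omega)]
    have e : 2 * MM t - 1 - (2 * MM t - 1 - k) = k := by omega
    rw [e]
    ring

theorem main (t : ℕ) (ht : 1 ≤ t) :
    ∃ (V : Type) (_ : Finite V) (_ : Nonempty V) (G : SimpleGraph V),
      (∀ v, (G.neighborSet v).ncard = 6 * t - 1) ∧ GeometricThicknessLE G t := by
  have : NeZero t := ⟨by omega⟩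
  have hM : MM t = TT t + NN t + 5 := rfl
  have h := product (ι := ZMod t) (V := Fin 3 × Fin (2 * MM t)) t (ZMod.card t)
    (ca (2 * MM t)) (cb (2 * MM t)) (ca_inj _)
    (fun v => ((labN t (min v.2.val (2 * MM t - 1 - v.2.val)) : ℕ) : ZMod t))
    (fun s => strip (2 * MM t) (ray t s.val) (EE t s.val))
    (fun s => strip_noCross _ _ _ (EE_chain t s.val))
    (by
      rintro s ⟨r, k⟩
      rw [strip_ncard]
      have h1 := deg_all t s.val k.val (ZMod.val_lt s) k.2
      unfold rayc rowc colc at h1
      rw [h1]
      have hlt := labN_lt t (min k.val (2 * MM t - 1 - k.val)) ht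
      have : (s.val = labN t (min k.val (2 * MM t - 1 - k.val))) ↔
          s = ((labN t (min k.val (2 * MM t - 1 - k.val)) : ℕ) : ZMod t) := by
        constructor
        · intro h
          rw [← h, ZMod.natCast_zmod_val]
        · intro h
          rw [h, ZMod.val_cast_of_lt hlt]
      simp only [this])
  have : Nonempty (Fin (2 * MM t)) := ⟨⟨0, by omega⟩⟩
  exact ⟨ZMod t → Fin 3 × Fin (2 * MM t), inferInstance, inferInstance, _, h.1, h.2⟩

end Pool.Agent.V11105.GT
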