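import Mathlib

/-!
The spectrum of the golden mean: literal definitions, the counting recursion and the bound of the
counts by the count at zero.
-/

open Filter Topology

namespace Pool.Agent.V11105.Golden

noncomputable section

/-- The golden mean. -/
def phi : ℝ := (1 + √5) / 2

/-- The spectrum of the golden mean with digits `-1, 0, 1`. -/
def spectrum : Set ℝ :=
  {x | ∃ (n : ℕ) (c : Fin n → ℤ), (∀ i, c i = -1 ∨ c i = 0 ∨ c i = 1) ∧
    x = ∑ i : Fin n, (c i : ℝ) * phi ^ (n - 1 - (i : ℕ))}

/-- The value of the difference of two digit sequences. -/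
def diffVal (n : ℕ) (a b : Fin n → Fin 2) : ℝ :=
  ∑ i : Fin n, (((a i : ℕ) : ℝ) - ((b i : ℕ) : ℝ)) * phi ^ (n - 1 - (i : ℕ))

/-- The number of pairs of digit sequences whose difference has the value `x`. -/
def count (n : ℕ) (x : ℝ) : ℕ :=
  Nat.card {p : (Fin n → Fin 2) × (Fin n → Fin 2) // diffVal n p.1 p.2 = x}

lemma phi_gt : (1.618 : ℝ) < phi := by
  unfold phi
  have h : (2.236 : ℝ) < √5 := by
    rw [Real.lt_sqrt (by norm_num)]; norm_num
  linarith

lemma phi_lt : phi < (1.6181 : ℝ) := by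
  unfold phi
  have h : √5 < (2.2362 : ℝ) := by
    rw [Real.sqrt_lt' (by norm_num)]; norm_num
  linarith

lemma phi_pos : 0 < phi := by linarith [phi_gt]

lemma phi_sq : phi ^ 2 = phi + 1 := by
  unfold phi
  have h : √5 ^ 2 = 5 := Real.sq_sqrt (by norm_num)
  nlinarith

lemma phi_irrational : Irrational phi := by
  have h : phi = Real.goldenRatio := rfl
  rw [h]
  exact Real.goldenRatio_irrational

/-! ### The recursion -/

lemma count_eq_sum (n : ℕ) (x : ℝ) :
    count n x = ∑ a : Fin n → Fin 2, ∑ b : Fin n → Fin 2, if diffVal n a b = x then 1 else 0 := by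
  classical
  rw [count, Nat.card_eq_fintype_card, Fintype.card_subtype, Finset.card_filter,
    ← Finset.univ_product_univ, Finset.sum_product]

lemma diffVal_snoc (n : ℕ) (a b : Fin n → Fin 2) (s t : Fin 2) :
    diffVal (n + 1) (Fin.snoc (α := fun _ => Fin 2) a s) (Fin.snoc (α := fun _ => Fin 2) b t)
      = phi * diffVal n a b + (((s : ℕ) : ℝ) - ((t : ℕ) : ℝ)) := by
  unfold diffVal
  rw [Fin.sum_univ_castSucc]
  congr 1
  · rw [Finset.mul_sum]
    apply Finset.sum_congr rfl
    intro i _
    rw [Fin.snoc_castSucc, Fin.snoc_castSucc]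
    have h1 : n + 1 - 1 - ((Fin.castSucc i : Fin (n + 1)) : ℕ) = (n - 1 - (i : ℕ)) + 1 := by
      have := i.2
      simp only [Fin.val_castSucc]
      omega
    rw [h1, pow_succ]
    ring
  · rw [Fin.snoc_last, Fin.snoc_last]
    simp

lemma sum_snoc (n : ℕ) (f : (Fin (n + 1) → Fin 2) → ℕ) :
    ∑ a : Fin (n + 1) → Fin 2, f a
      = ∑ a : Fin n → Fin 2, ∑ s : Fin 2, f (Fin.snoc (α := fun _ => Fin 2) a s) := by
  rw [← (Fin.snocEquiv (fun _ : Fin (n + 1) => Fin 2)).sum_comp, Fintype.sum_prod_type,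
    Finset.sum_comm]
  rfl

lemma count_succ (n : ℕ) (x : ℝ) :
    count (n + 1) x = count n ((x - 1) / phi) + 2 * count n (x / phi)
      + count n ((x + 1) / phi) := by
  simp only [count_eq_sum]
  rw [sum_snoc]
  have h1 : ∀ a : Fin n → Fin 2, ∀ s : Fin 2,
      (∑ b : Fin (n + 1) → Fin 2,
        if diffVal (n + 1) (Fin.snoc (α := fun _ => Fin 2) a s) b = x then 1 else 0)
      = ∑ b : Fin n → Fin 2, ∑ t : Fin 2,
        if diffVal n a b = (x - (((s : ℕ) : ℝ) - ((t : ℕ) : ℝ))) / phi then 1 else 0 := by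
    intro a s
    rw [sum_snoc]
    apply Finset.sum_congr rfl
    intro b _
    apply Finset.sum_congr rfl
    intro t _
    rw [diffVal_snoc]
    have h2 : (phi * diffVal n a b + (((s : ℕ) : ℝ) - ((t : ℕ) : ℝ)) = x)
        ↔ (diffVal n a b = (x - (((s : ℕ) : ℝ) - ((t : ℕ) : ℝ))) / phi) := by
      rw [eq_div_iff phi_pos.ne']
      constructor <;> intro h <;> linarith
    simp only [h2]
  simp only [h1, Fin.sum_univ_two]
  simp only [Fin.val_zero, Fin.val_one, Nat.cast_zero, Nat.cast_one, sub_zero, sub_self, zero_sub,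
    sub_neg_eq_add, Finset.sum_add_distrib]
  ring

lemma count_zero (x : ℝ) : count 0 x = if x = 0 then 1 else 0 := by
  rw [count_eq_sum]
  simp [diffVal, eq_comm]

/-! ### The count is largest at zero -/

/-- the value of one digit sequence -/
def val1 (n : ℕ) (a : Fin n → Fin 2) : ℝ := ∑ i : Fin n, ((a i : ℕ) : ℝ) * phi ^ (n - 1 - (i : ℕ))

lemma diffVal_eq (n : ℕ) (a b : Fin n → Fin 2) : diffVal n a b = val1 n a - val1 n b := by
  unfold diffVal val1
  rw [← Finset.sum_sub_distrib]
  apply Finset.sum_congr rfl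
  intro i _
  ring

lemma cs_aux {α : Type*} [Fintype α] (f : α → ℝ) (x : ℝ) :
    (∑ a : α, ∑ b : α, if f a - f b = x then (1 : ℕ) else 0)
      ≤ ∑ a : α, ∑ b : α, if f a - f b = 0 then (1 : ℕ) else 0 := by
  classical
  -- multiplicities
  set r : ℝ → ℕ := fun t => ∑ a : α, if f a = t then 1 else 0 with hr
  set I : Finset ℝ := Finset.univ.image f with hI
  have hr0 : ∀ t ∉ I, r t = 0 := by
    intro t ht
    apply Finset.sum_eq_zero
    intro a _
    rw [if_neg]
    rintro rfl
    exact ht (Finset.mem_image_of_mem _ (Finset.mem_univ a))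
  have hfib : ∀ g : ℝ → ℕ, ∑ b : α, g (f b) = ∑ t ∈ I, r t * g t := by
    intro g
    rw [← Finset.sum_fiberwise_of_maps_to (s := Finset.univ) (t := I) (g := f)
      (fun b _ => Finset.mem_image_of_mem _ (Finset.mem_univ b))]
    apply Finset.sum_congr rfl
    intro t _
    simp only [hr, Finset.sum_mul]
    rw [Finset.sum_filter]
    apply Finset.sum_congr rfl
    intro b _
    split_ifs with h
    · rw [h, one_mul]
    · rw [zero_mul]
  have h1 : ∀ y : ℝ, (∑ a : α, ∑ b : α, if f a - f b = y then (1 : ℕ) else 0)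
      = ∑ t ∈ I, r t * r (t + y) := by
    intro y
    rw [Finset.sum_comm]
    have h2 : ∀ b : α, (∑ a : α, if f a - f b = y then (1 : ℕ) else 0) = r (f b + y) := by
      intro b
      apply Finset.sum_congr rfl
      intro a _
      have : (f a - f b = y) ↔ (f a = f b + y) := by
        constructor <;> intro h <;> linarith
      simp only [this]
    simp only [h2]
    exact hfib (fun t => r (t + y))
  rw [h1, h1]
  simp only [add_zero]
  have h3 : ∑ t ∈ I, r (t + x) * r (t + x) ≤ ∑ t ∈ I, r t * r t := by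
    have h4 : ∑ t ∈ I, r (t + x) * r (t + x) = ∑ s ∈ I.image (fun t => t + x), r s * r s :=
      (Finset.sum_image (s := I) (g := fun t => t + x) (f := fun s => r s * r s)
        (fun a _ b _ h => by simpa using h)).symm
    rw [h4]
    have h5 : ∑ s ∈ I.image (fun t => t + x), r s * r s
        = ∑ s ∈ (I.image (fun t => t + x)) ∩ I, r s * r s := by
      symm
      apply Finset.sum_subset Finset.inter_subset_left
      intro s hs hs2
      have : s ∉ I := fun h => hs2 (Finset.mem_inter.2 ⟨hs, h⟩)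
      rw [hr0 s this, mul_zero]
    rw [h5]
    exact Finset.sum_le_sum_of_subset Finset.inter_subset_right
  have h6 : 2 * ∑ t ∈ I, r t * r (t + x)
      ≤ ∑ t ∈ I, r t * r t + ∑ t ∈ I, r (t + x) * r (t + x) := by
    rw [Finset.mul_sum, ← Finset.sum_add_distrib]
    apply Finset.sum_le_sum
    intro t _
    have := two_mul_le_add_sq (r t : ℤ) (r (t + x) : ℤ)
    zify
    nlinarith
  omega

lemma count_le (n : ℕ) (x : ℝ) : count n x ≤ count n 0 := by
  rw [count_eq_sum, count_eq_sum]
  simp only [diffVal_eq]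
  exact cs_aux (val1 n) x

end

end Pool.Agent.V11105.Golden
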