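import Pool.Agent.V11105.GoldenThree

/-!
The spectrum of the golden mean: the weighted points do not equidistribute modulo one.
-/

open Filter Topology MeasureTheory

namespace Pool.Agent.V11105.Golden

noncomputable section

/-- `l` is the exponential growth rate of the counts at zero and `μ` is the limit weight on the
spectrum. -/
def IsWeight (l : ℝ) (μ : ℝ → ℝ) : Prop :=
  0 < l ∧ Tendsto (fun n : ℕ => (count n 0 : ℝ) ^ (1 / (n : ℝ))) atTop (𝓝 l) ∧
    ∀ x ∈ spectrum, Tendsto (fun n : ℕ => (count n x : ℝ) / l ^ n) atTop (𝓝 (μ x))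

lemma mem_spectrum_iff {x : ℝ} : x ∈ spectrum ↔ ∃ n, count n x ≠ 0 := by
  constructor
  · rintro ⟨n, c, hc, rfl⟩
    refine ⟨n, ?_⟩
    let a : Fin n → Fin 2 := fun i => if c i = 1 then 1 else 0
    let b : Fin n → Fin 2 := fun i => if c i = -1 then 1 else 0
    have hab : diffVal n a b = ∑ i : Fin n, (c i : ℝ) * phi ^ (n - 1 - (i : ℕ)) := by
      unfold diffVal
      apply Finset.sum_congr rfl
      intro i _
      congr 1
      rcases hc i with h | h | h <;> simp [a, b, h]
    have : Nonempty {p : (Fin n → Fin 2) × (Fin n → Fin 2) //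
        diffVal n p.1 p.2 = ∑ i : Fin n, (c i : ℝ) * phi ^ (n - 1 - (i : ℕ))} := ⟨⟨(a, b), hab⟩⟩
    exact Nat.card_pos.ne'
  · rintro ⟨n, hn⟩
    have h1 : Nonempty {p : (Fin n → Fin 2) × (Fin n → Fin 2) // diffVal n p.1 p.2 = x} := by
      by_contra hcon
      rw [not_nonempty_iff] at hcon
      apply hn
      rw [count, Nat.card_of_isEmpty]
    obtain ⟨⟨⟨a, b⟩, hab⟩⟩ := h1
    refine ⟨n, fun i => ((a i : ℕ) : ℤ) - ((b i : ℕ) : ℤ), fun i => ?_, ?_⟩
    · have h1 := (a i).2
      have h2 := (b i).2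
      show ((a i : ℕ) : ℤ) - ((b i : ℕ) : ℤ) = -1 ∨ ((a i : ℕ) : ℤ) - ((b i : ℕ) : ℤ) = 0 ∨
        ((a i : ℕ) : ℤ) - ((b i : ℕ) : ℤ) = 1
      omega
    · rw [← hab]
      unfold diffVal
      apply Finset.sum_congr rfl
      intro i _
      push_cast
      ring

lemma spectrum_lattice {x : ℝ} (hx : x ∈ spectrum) : ∃ z : Z, evz z = x ∧ |cjz z| < phi ^ 2 := by
  obtain ⟨n, hn⟩ := mem_spectrum_iff.1 hx
  have h1 : ∃ p q : ℤ, ev p q = x := by
    by_contra hcon
    simp only [not_exists] at hcon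
    exact hn (count_of_not n hcon)
  obtain ⟨p, q, rfl⟩ := h1
  refine ⟨(p, q), rfl, ?_⟩
  by_contra hcon
  apply hn
  have h2 := count_ev n p q
  rw [NN_vanish (not_lt.1 hcon)] at h2
  exact_mod_cast h2

/-- The spectrum is locally finite. -/
lemma window_finite (n : ℕ) : (spectrum ∩ Set.Icc 0 (n : ℝ)).Finite := by
  refine ((box_finite 0 n).image evz).subset ?_
  rintro x ⟨hx, h0, h1⟩
  obtain ⟨z, rfl, hz⟩ := spectrum_lattice hx
  exact ⟨z, ⟨h0, h1, hz⟩, rfl⟩

/-- The total weight of the points of the spectrum in `[0, n]`. -/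
def total (μ : ℝ → ℝ) (n : ℕ) : ℝ := ∑ x ∈ (window_finite n).toFinset, μ x

/-- The normalized weighted sum of the Dirac masses at the fractional parts of the points of the
spectrum in `[0, n]`. -/
def nu (μ : ℝ → ℝ) (n : ℕ) : Measure ℝ :=
  ∑ x ∈ (window_finite n).toFinset,
    ENNReal.ofReal (μ x / total μ n) • Measure.dirac (Int.fract x)

/-! ### Existence and uniqueness of the weight -/

lemma isWeight_rate : Tendsto (fun n : ℕ => (count n 0 : ℝ) ^ (1 / (n : ℝ))) atTop (𝓝 lam) := by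
  have h1 := m_spec 0 0
  have h2 : Tendsto (fun n : ℕ => (1 / (n : ℝ))) atTop (𝓝 0) := tendsto_one_div_atTop_nhds_zero_nat
  have h3 := (h1.rpow h2 (Or.inl m_zero_pos.ne')).const_mul lam
  rw [Real.rpow_zero, mul_one] at h3
  refine h3.congr' ?_
  filter_upwards [eventually_gt_atTop 0] with n hn
  have e0 : ev 0 0 = 0 := by simp [ev]
  have e1 := count_ev n 0 0
  rw [e0] at e1
  rw [e1]
  have hl := lam_pos
  have hn' : (n : ℝ) ≠ 0 := by exact_mod_cast hn.ne'
  rw [Real.div_rpow (NN_nonneg _ _ _) (by positivity), ← Real.rpow_natCast lam n,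
    ← Real.rpow_mul hl.le, mul_one_div_cancel hn', Real.rpow_one]
  field_simp

/-- The weight as a function on the line. -/
def mu0 (x : ℝ) : ℝ := by
  classical
  exact if h : ∃ z : Z, evz z = x then mz h.choose else 0

lemma mu0_evz (z : Z) : mu0 (evz z) = mz z := by
  classical
  have h : ∃ w : Z, evz w = evz z := ⟨z, rfl⟩
  unfold mu0
  rw [dif_pos h]
  have h2 := h.choose_spec
  have h3 := ev_inj (p := h.choose.1) (q := h.choose.2) (p' := z.1) (q' := z.2) h2
  congr 1
  exact Prod.ext h3.1 h3.2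

lemma exists_isWeight : ∃ l μ, IsWeight l μ := by
  refine ⟨lam, mu0, lam_pos, isWeight_rate, fun x hx => ?_⟩
  obtain ⟨z, rfl, _⟩ := spectrum_lattice hx
  rw [mu0_evz]
  refine (m_spec z.1 z.2).congr fun n => ?_
  rw [← count_ev]
  rfl

lemma IsWeight.eq {l : ℝ} {μ : ℝ → ℝ} (h : IsWeight l μ) {z : Z} (hz : evz z ∈ spectrum) :
    μ (evz z) = mz z := by
  have hl : l = lam := tendsto_nhds_unique h.2.1 isWeight_rate
  have h1 := h.2.2 _ hz
  rw [hl] at h1
  refine tendsto_nhds_unique h1 ((m_spec z.1 z.2).congr fun n => ?_)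
  rw [← count_ev]
  rfl

lemma mz_of_not {z : Z} (hz : evz z ∉ spectrum) : mz z = 0 := by
  rw [mem_spectrum_iff] at hz
  simp only [ne_eq, not_exists, not_not] at hz
  refine tendsto_nhds_unique (m_spec z.1 z.2) ?_
  have : ∀ n, NN n z.1 z.2 = 0 := by
    intro n
    rw [← count_ev]
    exact_mod_cast hz n
  simp [this]

/-! ### The sums over `[0, n]` -/

/-- half line sums -/
def H (θ : ℝ) (T : ℝ) : ℝ :=
  ∑' z : Z, (if 0 ≤ evz z ∧ evz z ≤ T then mz z else 0) * Real.cos (2 * Real.pi * θ * evz z)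

lemma window_sum {l : ℝ} {μ : ℝ → ℝ} (h : IsWeight l μ) (n : ℕ) (θ : ℝ) :
    ∑ x ∈ (window_finite n).toFinset, μ x * Real.cos (2 * Real.pi * θ * x) = H θ n := by
  unfold H
  rw [tsum_eq_sum (s := (box_finite 0 n).toFinset)]
  · have h1 : ∑ z ∈ (box_finite 0 n).toFinset,
        (if 0 ≤ evz z ∧ evz z ≤ n then mz z else 0) * Real.cos (2 * Real.pi * θ * evz z)
        = ∑ z ∈ (box_finite 0 n).toFinset, mu0 (evz z) * Real.cos (2 * Real.pi * θ * evz z) := by
      apply Finset.sum_congr rfl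
      intro z hz
      have hz' : z ∈ box 0 n := by simpa using hz
      rw [if_pos ⟨hz'.1, hz'.2.1⟩, mu0_evz]
    have h2 : ∑ z ∈ (box_finite 0 n).toFinset, mu0 (evz z) * Real.cos (2 * Real.pi * θ * evz z)
        = ∑ x ∈ (box_finite 0 n).toFinset.image evz, mu0 x * Real.cos (2 * Real.pi * θ * x) := by
      rw [Finset.sum_image]
      intro z _ w _ hzw
      have := ev_inj hzw
      exact Prod.ext this.1 this.2
    rw [h1, h2]
    have hsub : (window_finite n).toFinset ⊆ (box_finite 0 n).toFinset.image evz := by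
      intro x hx
      have hx' : x ∈ spectrum ∩ Set.Icc 0 (n : ℝ) := by simpa using hx
      obtain ⟨z, rfl, hz⟩ := spectrum_lattice hx'.1
      rw [Finset.mem_image]
      exact ⟨z, by rw [Set.Finite.mem_toFinset]; exact ⟨hx'.2.1, hx'.2.2, hz⟩, rfl⟩
    rw [← Finset.sum_subset hsub]
    · apply Finset.sum_congr rfl
      intro x hx
      have hx' : x ∈ spectrum ∩ Set.Icc 0 (n : ℝ) := by simpa using hx
      obtain ⟨z, rfl, hz⟩ := spectrum_lattice hx'.1
      rw [h.eq hx'.1, mu0_evz]
    · intro x hx hx2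
      rw [Finset.mem_image] at hx
      obtain ⟨z, hz, rfl⟩ := hx
      have hz' : z ∈ box 0 n := by simpa using hz
      have : evz z ∉ spectrum := by
        intro hs
        apply hx2
        rw [Set.Finite.mem_toFinset]
        exact ⟨hs, hz'.1, hz'.2.1⟩
      rw [mu0_evz, mz_of_not this, zero_mul]
  · intro z hz
    split_ifs with h1
    · have : mz z = 0 := by
        apply mz_eq_zero
        intro h2
        apply hz
        rw [Set.Finite.mem_toFinset]
        exact ⟨h1.1, h1.2, h2⟩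
      rw [this, zero_mul]
    · rw [zero_mul]

lemma H_eq (θ : ℝ) {T : ℝ} (hT : 0 ≤ T) : C θ T + m 0 0 = 2 * H θ T := by
  set P : Z → ℝ := fun z => (if 0 ≤ evz z ∧ evz z ≤ T then mz z else 0) with hP
  have hsP : Summable fun z => P z * Real.cos (2 * Real.pi * θ * evz z) := by
    apply summable_of_box 0 T
    intro z hz
    simp only [hP]
    split_ifs with h1
    · have : mz z = 0 := by
        apply mz_eq_zero
        intro h2
        exact hz ⟨h1.1, h1.2, h2⟩
      rw [this, zero_mul]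
    · rw [zero_mul]
  have hev : ∀ z : Z, evz (-z) = -evz z := by
    intro z
    show ev (-z.1) (-z.2) = -ev z.1 z.2
    unfold ev
    push_cast
    ring
  have hmz : ∀ z : Z, mz (-z) = mz z := fun z => m_neg z.1 z.2
  have hneg : Summable fun z => P (-z) * Real.cos (2 * Real.pi * θ * evz z) := by
    rw [← (Equiv.neg Z).summable_iff]
    refine hsP.congr fun z => ?_
    simp only [Function.comp, Equiv.neg_apply, neg_neg, hev]
    rw [show 2 * Real.pi * θ * -evz z = -(2 * Real.pi * θ * evz z) by ring, Real.cos_neg]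
  have h1 : ∑' z : Z, P (-z) * Real.cos (2 * Real.pi * θ * evz z) = H θ T := by
    rw [← (Equiv.neg Z).tsum_eq]
    unfold H
    congr 1
    funext z
    simp only [Equiv.neg_apply, neg_neg, hev]
    rw [show 2 * Real.pi * θ * -evz z = -(2 * Real.pi * θ * evz z) by ring, Real.cos_neg]
  have h2 : C θ T + m 0 0 = ∑' z : Z, (A T z * Real.cos (2 * Real.pi * θ * evz z)
      + if z = 0 then m 0 0 else 0) := by
    rw [(C_summable T _).tsum_add, tsum_ite_eq]
    · rfl
    · exact summable_of_ne_finset_zero (s := {0}) (fun z hz => by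
        rw [if_neg (by simpa using hz)])
  have h3 : 2 * H θ T = H θ T + H θ T := two_mul _
  rw [h2, h3]
  nth_rw 1 [← h1]
  show _ = _ + ∑' z : Z, P z * Real.cos (2 * Real.pi * θ * evz z)
  rw [← hneg.tsum_add hsP]
  congr 1
  funext z
  by_cases hz : z = 0
  · subst hz
    have e0 : evz (0 : Z) = 0 := by simp [evz, ev]
    have e1 : mz (0 : Z) = m 0 0 := rfl
    simp only [hP, A, neg_zero, e0, e1, abs_zero, hT, le_refl, and_self, if_true, mul_zero,
      Real.cos_zero, mul_one]
  · rw [if_neg hz, add_zero]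
    have hne : evz z ≠ 0 := by
      intro h0
      have := ev_eq_zero h0
      exact hz (Prod.ext this.1 this.2)
    rw [← add_mul]
    congr 1
    simp only [hP, A, hev, hmz]
    rcases lt_or_gt_of_ne hne with h | h
    · have c1 : ¬ (0 ≤ evz z ∧ evz z ≤ T) := fun hc => absurd hc.1 (not_le.2 h)
      rw [if_neg c1, add_zero]
      have c2 : |evz z| ≤ T ↔ (0 ≤ -evz z ∧ -evz z ≤ T) := by
        rw [abs_of_neg h]
        constructor
        · intro hh; exact ⟨by linarith, hh⟩
        · intro hh; exact hh.2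
      simp only [c2]
    · have c1 : ¬ (0 ≤ -evz z ∧ -evz z ≤ T) := fun hc => absurd hc.1 (by linarith)
      rw [if_neg c1, zero_add]
      have c2 : |evz z| ≤ T ↔ (0 ≤ evz z ∧ evz z ≤ T) := by
        rw [abs_of_pos h]
        constructor
        · intro hh; exact ⟨by linarith, hh⟩
        · intro hh; exact hh.2
      simp only [c2]

lemma H_zero_pos {T : ℝ} (hT : 0 ≤ T) : 0 < H 0 T := by
  have h1 := H_eq 0 hT
  have h2 : 0 ≤ C 0 T := by
    rw [C_zero_eq]
    exact tsum_nonneg fun z => A_nonneg T z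
  have h3 := m_zero_pos
  linarith

lemma nu_integral {l : ℝ} {μ : ℝ → ℝ} (h : IsWeight l μ) (n : ℕ) :
    ∫ t, Real.cos (2 * Real.pi * t) ∂(nu μ n) = H 1 n / H 0 n := by
  have htot : total μ n = H 0 n := by
    rw [← window_sum h n 0]
    unfold total
    apply Finset.sum_congr rfl
    intro x _
    simp
  have hpos := H_zero_pos (T := (n : ℝ)) (Nat.cast_nonneg n)
  have hnn : ∀ x ∈ (window_finite n).toFinset, 0 ≤ μ x := by
    intro x hx
    have hx' : x ∈ spectrum ∩ Set.Icc 0 (n : ℝ) := by simpa using hx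
    obtain ⟨z, rfl, hz⟩ := spectrum_lattice hx'.1
    rw [h.eq hx'.1]
    exact m_nonneg _ _
  unfold nu
  rw [integral_finsetSum_measure]
  · rw [← window_sum h n 1, Finset.sum_div]
    apply Finset.sum_congr rfl
    intro x hx
    rw [integral_smul_measure, integral_dirac, ENNReal.toReal_ofReal
      (div_nonneg (hnn x hx) (by rw [htot]; exact hpos.le)), htot, smul_eq_mul]
    have : Real.cos (2 * Real.pi * Int.fract x) = Real.cos (2 * Real.pi * 1 * x) := by
      have e : 2 * Real.pi * Int.fract x = 2 * Real.pi * 1 * x - ⌊x⌋ * (2 * Real.pi) := by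
        rw [Int.fract]; ring
      rw [e, Real.cos_sub_int_mul_two_pi]
    rw [this]
    ring
  · intro x _
    apply Integrable.smul_measure _ ENNReal.ofReal_ne_top
    exact integrable_dirac (by simp)

/-- The weighted fractional parts of the spectrum of the golden mean do not equidistribute. -/
theorem not_equidistributed :
    (∃ l μ, IsWeight l μ) ∧ ∀ l μ, IsWeight l μ →
      ∃ f : C(ℝ, ℝ), ∃ ε : ℝ, 0 < ε ∧
        ∀ᶠ n : ℕ in atTop, ε ≤ |∫ t, f t ∂(nu μ n) - ∫ t in (0 : ℝ)..1, f t| := by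
  refine ⟨exists_isWeight, fun l μ h => ?_⟩
  obtain ⟨ε', hε', hlow⟩ := C_one_lower
  refine ⟨⟨fun t => Real.cos (2 * Real.pi * t), by fun_prop⟩, min ε' 1, lt_min hε' one_pos, ?_⟩
  have h0 : ∫ t in (0 : ℝ)..1, Real.cos (2 * Real.pi * t) = 0 := by
    have hpi : 2 * Real.pi ≠ 0 := by have := Real.pi_pos; positivity
    rw [intervalIntegral.integral_comp_mul_left (fun t => Real.cos t) hpi, integral_cos]
    simp
  have hlow' := tendsto_natCast_atTop_atTop.eventually hlow
  filter_upwards [hlow'] with n hn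
  show min ε' 1 ≤ |∫ t, Real.cos (2 * Real.pi * t) ∂(nu μ n)
    - ∫ t in (0 : ℝ)..1, Real.cos (2 * Real.pi * t)|
  rw [h0, sub_zero, nu_integral h]
  have hn0 : (0 : ℝ) ≤ n := Nat.cast_nonneg n
  have h1 := H_eq 1 hn0
  have h2 := H_eq 0 hn0
  have hpos := H_zero_pos hn0
  have hm := m_zero_pos
  have hC0 : 0 ≤ C 0 n := by
    rw [C_zero_eq]
    exact tsum_nonneg fun z => A_nonneg _ z
  refine le_trans ?_ (le_abs_self _)
  rw [le_div_iff₀ hpos]
  have h3 : min ε' 1 * C 0 n ≤ ε' * C 0 n := mul_le_mul_of_nonneg_right (min_le_left _ _) hC0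
  have h4 : min ε' 1 * m 0 0 ≤ 1 * m 0 0 := mul_le_mul_of_nonneg_right (min_le_right _ _) hm.le
  have h5 : min ε' 1 * (2 * H 0 n) ≤ 2 * H 1 n := by
    rw [← h1, ← h2, mul_add]
    linarith
  linarith

end

end Pool.Agent.V11105.Golden
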