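import Pool.Agent.V11105.GoldenTwo

/-!
The spectrum of the golden mean: sums of weights and the first Fourier coefficient.
-/

open Filter Topology

namespace Pool.Agent.V11105.Golden

noncomputable section

/-- Lattice points. -/
abbrev Z : Type := ℤ × ℤ

/-- value -/
def evz (z : Z) : ℝ := ev z.1 z.2

/-- conjugate -/
def cjz (z : Z) : ℝ := cj z.1 z.2

/-- weight -/
def mz (z : Z) : ℝ := m z.1 z.2

/-- `z ↦ φ z + c` -/
def S (c : ℤ) : Z ≃ Z where
  toFun z := (z.2 + c, z.1 + z.2)
  invFun z := (z.2 - z.1 + c, z.1 - c)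
  left_inv z := by
    ext
    · show z.1 + z.2 - (z.2 + c) + c = z.1
      ring
    · show z.2 + c - c = z.2
      ring
  right_inv z := by
    ext
    · show z.1 - c + c = z.1
      ring
    · show z.2 - z.1 + c + (z.1 - c) = z.2
      ring

lemma evz_S (c : ℤ) (z : Z) : evz (S c z) = phi * evz z + c := by
  show ev (z.2 + c) (z.1 + z.2) = phi * ev z.1 z.2 + c
  unfold ev
  push_cast
  linear_combination (-(z.2 : ℝ)) * phi_sq

lemma cjz_S (c : ℤ) (z : Z) : cjz (S c z) = (1 - phi) * cjz z + c := by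
  show cj (z.2 + c) (z.1 + z.2) = (1 - phi) * cj z.1 z.2 + c
  unfold cj
  push_cast
  linear_combination (-(z.2 : ℝ)) * phi_sq

lemma mz_rec (z : Z) : lam * mz z = mz ((S 1).symm z) + 2 * mz ((S 0).symm z)
    + mz ((S (-1)).symm z) := by
  have h := m_rec z.1 z.2
  show lam * m z.1 z.2 = m (z.2 - z.1 + 1) (z.1 - 1) + 2 * m (z.2 - z.1 + 0) (z.1 - 0)
    + m (z.2 - z.1 + -1) (z.1 - -1)
  rw [h]
  simp [sub_eq_add_neg]

/-! ### Counting lattice points -/

lemma floor_inj {z w : Z} (h1 : ⌊evz z⌋ = ⌊evz w⌋) (h2 : ⌊cjz z⌋ = ⌊cjz w⌋) : z = w := by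
  have a1 := Int.floor_le (evz z)
  have a2 := Int.lt_floor_add_one (evz z)
  have a3 := Int.floor_le (evz w)
  have a4 := Int.lt_floor_add_one (evz w)
  have b1 := Int.floor_le (cjz z)
  have b2 := Int.lt_floor_add_one (cjz z)
  have b3 := Int.floor_le (cjz w)
  have b4 := Int.lt_floor_add_one (cjz w)
  rw [h1] at a1 a2
  rw [h2] at b1 b2
  set p := z.1 - w.1 with hp
  set q := z.2 - w.2 with hq
  have e1 : ev p q = evz z - evz w := by
    simp only [ev, evz, hp, hq]; push_cast; ring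
  have e2 : cj p q = cjz z - cjz w := by
    simp only [cj, cjz, hp, hq]; push_cast; ring
  have c1 : |ev p q| < 1 := by rw [e1, abs_lt]; constructor <;> linarith
  have c2 : |cj p q| < 1 := by rw [e2, abs_lt]; constructor <;> linarith
  have c3 : |ev p q * cj p q| < 1 := by
    rw [abs_mul]
    have := abs_nonneg (ev p q); have := abs_nonneg (cj p q)
    nlinarith
  have c4 : ev p q * cj p q = ((p * p + p * q - q * q : ℤ) : ℝ) := by
    unfold ev cj
    push_cast
    linear_combination (-(q : ℝ) * q) * phi_sq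
  rw [c4] at c3
  have c5 : |p * p + p * q - q * q| < 1 := by exact_mod_cast c3
  have c6 : p * p + p * q - q * q = 0 := Int.abs_lt_one_iff.1 c5
  rw [c6] at c4
  have c7 : ev p q = 0 ∨ cj p q = 0 := by
    apply mul_eq_zero.1
    rw [c4]; simp
  have c8 : p = 0 ∧ q = 0 := by
    rcases c7 with h | h
    · exact ev_eq_zero h
    · have h' : ev (-(p + q)) q = 0 := by
        unfold ev
        unfold cj at h
        push_cast
        linarith
      have := ev_eq_zero h'
      omega
  obtain ⟨c9, c10⟩ := c8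
  ext
  · omega
  · omega

/-- Points of bounded conjugate and value in an interval. -/
def box (s t : ℝ) : Set Z := {z | s ≤ evz z ∧ evz z ≤ t ∧ |cjz z| < phi ^ 2}

lemma box_maps (s t : ℝ) : Set.MapsTo (fun z : Z => (⌊evz z⌋, ⌊cjz z⌋)) (box s t)
    ((Finset.Icc ⌊s⌋ ⌊t⌋ ×ˢ Finset.Icc (-3) 2 : Finset (ℤ × ℤ)) : Set (ℤ × ℤ)) := by
  rintro z ⟨h1, h2, h3⟩
  rw [abs_lt] at h3
  have g1 := phi_sq
  have g2 := phi_lt
  rw [Finset.mem_coe, Finset.mem_product, Finset.mem_Icc, Finset.mem_Icc]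
  refine ⟨⟨Int.floor_le_floor h1, Int.floor_le_floor h2⟩, ?_, ?_⟩
  · rw [Int.le_floor]; push_cast; linarith [h3.1]
  · have : ⌊cjz z⌋ < 3 := by rw [Int.floor_lt]; push_cast; linarith [h3.2]
    show ⌊cjz z⌋ ≤ 2
    omega

lemma box_finite (s t : ℝ) : (box s t).Finite := by
  refine Set.Finite.of_finite_image ((Finset.finite_toSet _).subset
    (Set.mapsTo_iff_image_subset.1 (box_maps s t))) ?_
  intro z _ w _ h
  simp only [Prod.mk.injEq] at h
  exact floor_inj h.1 h.2

lemma box_card {s t : ℝ} (hst : t - s ≤ 2) : ((box_finite s t).toFinset).card ≤ 24 := by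
  have h1 : ((box_finite s t).toFinset).card
      ≤ (Finset.Icc ⌊s⌋ ⌊t⌋ ×ˢ Finset.Icc (-3 : ℤ) 2 : Finset (ℤ × ℤ)).card := by
    apply Finset.card_le_card_of_injOn (fun z : Z => (⌊evz z⌋, ⌊cjz z⌋))
    · intro z hz
      exact box_maps s t (by simpa using hz)
    · intro z _ w _ h
      simp only [Prod.mk.injEq] at h
      exact floor_inj h.1 h.2
  refine h1.trans ?_
  rw [Finset.card_product, Int.card_Icc, Int.card_Icc]
  have h2 : ⌊t⌋ + 1 - ⌊s⌋ ≤ 4 := by
    have a1 := Int.floor_le t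
    have a2 := Int.lt_floor_add_one s
    have : ((⌊t⌋ - ⌊s⌋ : ℤ) : ℝ) < 4 := by push_cast; linarith
    have : ⌊t⌋ - ⌊s⌋ < 4 := by exact_mod_cast this
    omega
  have h3 : (⌊t⌋ + 1 - ⌊s⌋).toNat ≤ 4 := by omega
  have h4 : (2 + 1 - (-3 : ℤ)).toNat = 6 := by decide
  rw [h4]
  omega

/-! ### Sums -/

/-- truncated weights -/
def A (T : ℝ) (z : Z) : ℝ := if |evz z| ≤ T then mz z else 0

lemma mz_eq_zero {z : Z} (h : ¬ |cjz z| < phi ^ 2) : mz z = 0 := m_vanish (not_lt.1 h)

lemma summable_of_box {f : Z → ℝ} (s t : ℝ) (h : ∀ z ∉ box s t, f z = 0) : Summable f :=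
  summable_of_ne_finset_zero (s := (box_finite s t).toFinset)
    (fun z hz => h z (by simpa using hz))

lemma A_zero {T : ℝ} {z : Z} (h : z ∉ box (-T) T) : A T z = 0 := by
  unfold A
  split_ifs with h1
  · apply mz_eq_zero
    intro h2
    exact h ⟨(abs_le.1 h1).1, (abs_le.1 h1).2, h2⟩
  · rfl

lemma A_nonneg (T : ℝ) (z : Z) : 0 ≤ A T z := by
  unfold A
  split_ifs
  · exact m_nonneg _ _
  · exact le_rfl

/-- weighted sums of cosines -/
def C (θ T : ℝ) : ℝ := ∑' z : Z, A T z * Real.cos (2 * Real.pi * θ * evz z)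

lemma C_summable (T : ℝ) (g : Z → ℝ) : Summable fun z => A T z * g z :=
  summable_of_box (-T) T fun z hz => by rw [A_zero hz, zero_mul]

/-- shifted truncation -/
def A' (T : ℝ) (c : ℤ) (z : Z) : ℝ := if |phi * evz z + c| ≤ T then mz z else 0

lemma A'_zero {T : ℝ} {c : ℤ} {z : Z} (h : z ∉ box ((-T - c) / phi) ((T - c) / phi)) :
    A' T c z = 0 := by
  unfold A'
  split_ifs with h1
  · apply mz_eq_zero
    intro h2
    rw [abs_le] at h1
    refine h ⟨?_, ?_, h2⟩
    · rw [div_le_iff₀ phi_pos]; linarith [h1.1]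
    · rw [le_div_iff₀ phi_pos]; linarith [h1.2]
  · rfl

lemma A'_summable (T : ℝ) (c : ℤ) (g : Z → ℝ) : Summable fun z => A' T c z * g z :=
  summable_of_box _ _ fun z hz => by rw [A'_zero hz, zero_mul]

lemma A'_zero_eq (T : ℝ) (z : Z) : A' T 0 z = A (T / phi) z := by
  unfold A' A
  have : |phi * evz z + (0 : ℤ)| ≤ T ↔ |evz z| ≤ T / phi := by
    rw [Int.cast_zero, add_zero, abs_mul, abs_of_pos phi_pos, le_div_iff₀ phi_pos, mul_comm]
  simp only [this]

lemma shift_sum (T : ℝ) (c : ℤ) (g : Z → ℝ) :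
    ∑' z : Z, (if |evz z| ≤ T then mz ((S c).symm z) else 0) * g z
      = ∑' z : Z, A' T c z * g (S c z) := by
  rw [← (S c).tsum_eq]
  congr 1
  funext z
  rw [Equiv.symm_apply_apply, evz_S]
  rfl

lemma lam_sum (T : ℝ) (g : Z → ℝ) :
    lam * ∑' z : Z, A T z * g z = ∑' z : Z, A' T 1 z * g (S 1 z)
      + 2 * ∑' z : Z, A' T 0 z * g (S 0 z) + ∑' z : Z, A' T (-1) z * g (S (-1) z) := by
  rw [← shift_sum, ← shift_sum, ← shift_sum, ← tsum_mul_left, ← tsum_mul_left]
  have hs : ∀ c : ℤ, Summable fun z : Z => (if |evz z| ≤ T then mz ((S c).symm z) else 0) * g z := by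
    intro c
    have h := A'_summable T c (fun z => g (S c z))
    rw [← (S c).summable_iff]
    refine h.congr fun z => ?_
    simp only [Function.comp, Equiv.symm_apply_apply, evz_S]
    rfl
  rw [← (hs 1).tsum_add ((hs 0).mul_left 2), ← ((hs 1).add ((hs 0).mul_left 2)).tsum_add (hs (-1))]
  congr 1
  funext z
  unfold A
  have := mz_rec z
  split_ifs with h
  · linear_combination (g z) * this
  · ring

lemma A'_diff (T : ℝ) (c : ℤ) (hc : |(c : ℝ)| ≤ 1) (g : Z → ℝ) (hg : ∀ z, |g z| ≤ 1) :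
    |∑' z : Z, A' T c z * g z - ∑' z : Z, A' T 0 z * g z| ≤ 48 * m 0 0 := by
  rw [← (A'_summable T c g).tsum_sub (A'_summable T 0 g)]
  -- the window
  set F : Finset Z := (box_finite ((T - 1) / phi) ((T + 1) / phi)).toFinset
    ∪ (box_finite (-(T + 1) / phi) (-(T - 1) / phi)).toFinset with hF
  have hlen : ∀ a b : ℝ, b - a = 2 → b / phi - a / phi ≤ 2 := by
    intro a b hab
    rw [← sub_div, hab, div_le_iff₀ phi_pos]
    linarith [phi_gt]
  have hcard : (F.card : ℝ) ≤ 48 := by
    have h1 := box_card (hlen (T - 1) (T + 1) (by ring))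
    have h2 := box_card (hlen (-(T + 1)) (-(T - 1)) (by ring))
    have h3 := Finset.card_union_le (box_finite ((T - 1) / phi) ((T + 1) / phi)).toFinset
      (box_finite (-(T + 1) / phi) (-(T - 1) / phi)).toFinset
    have : F.card ≤ 48 := by rw [hF]; omega
    exact_mod_cast this
  have hz : ∀ z ∉ F, A' T c z * g z - A' T 0 z * g z = 0 := by
    intro z hz
    by_cases hcj : |cjz z| < phi ^ 2
    · have hiff : |phi * evz z + c| ≤ T ↔ |phi * evz z + (0 : ℤ)| ≤ T := by
        by_contra hne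
        apply hz
        rw [hF, Finset.mem_union, Set.Finite.mem_toFinset, Set.Finite.mem_toFinset]
        rw [abs_le] at hc
        rw [Int.cast_zero, add_zero, abs_le, abs_le] at hne
        have hpp := phi_pos
        have hor : (T - 1 ≤ phi * evz z ∧ phi * evz z ≤ T + 1) ∨
            (-(T + 1) ≤ phi * evz z ∧ phi * evz z ≤ -(T - 1)) := by
          by_contra hcon
          simp only [not_or, not_and_or, not_le] at hcon
          apply hne
          constructor
          · rintro ⟨k1, k2⟩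
            constructor
            · by_contra hk
              rcases hcon.2 with h | h <;> rcases hcon.1 with h' | h' <;> linarith
            · by_contra hk
              rcases hcon.2 with h | h <;> rcases hcon.1 with h' | h' <;> linarith
          · rintro ⟨k1, k2⟩
            constructor
            · by_contra hk
              rcases hcon.2 with h | h <;> rcases hcon.1 with h' | h' <;> linarith
            · by_contra hk
              rcases hcon.2 with h | h <;> rcases hcon.1 with h' | h' <;> linarith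
        rcases hor with h | h
        · left
          refine ⟨?_, ?_, hcj⟩
          · rw [div_le_iff₀ hpp]; linarith [h.1]
          · rw [le_div_iff₀ hpp]; linarith [h.2]
        · right
          refine ⟨?_, ?_, hcj⟩
          · rw [div_le_iff₀ hpp]; linarith [h.1]
          · rw [le_div_iff₀ hpp]; linarith [h.2]
      unfold A'
      simp only [hiff]
      ring
    · unfold A'
      rw [mz_eq_zero hcj]
      simp
  rw [tsum_eq_sum hz]
  calc |∑ z ∈ F, (A' T c z * g z - A' T 0 z * g z)|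
      ≤ ∑ z ∈ F, |A' T c z * g z - A' T 0 z * g z| := Finset.abs_sum_le_sum_abs _ _
    _ ≤ ∑ _z ∈ F, m 0 0 := by
        apply Finset.sum_le_sum
        intro z _
        rw [← sub_mul, abs_mul]
        have h1 : |A' T c z - A' T 0 z| ≤ m 0 0 := by
          have h2 := m_nonneg z.1 z.2
          have h3 := m_le z.1 z.2
          unfold A' mz
          rw [abs_le]
          split_ifs <;> constructor <;> linarith
        calc |A' T c z - A' T 0 z| * |g z| ≤ |A' T c z - A' T 0 z| * 1 :=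
              mul_le_mul_of_nonneg_left (hg z) (abs_nonneg _)
          _ ≤ _ := by rw [mul_one]; exact h1
    _ = F.card * m 0 0 := by rw [Finset.sum_const, nsmul_eq_mul]
    _ ≤ 48 * m 0 0 := mul_le_mul_of_nonneg_right hcard (m_nonneg _ _)

/-- The renormalization of the cosine sums. -/
lemma C_rec (θ T : ℝ) :
    |lam * C θ T - 4 * Real.cos (Real.pi * θ) ^ 2 * C (θ * phi) (T / phi)| ≤ 96 * m 0 0 := by
  set g : Z → ℝ := fun z => Real.cos (2 * Real.pi * θ * evz z) with hg
  have hg1 : ∀ c : ℤ, ∀ z, |g (S c z)| ≤ 1 := fun c z => Real.abs_cos_le_one _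
  have h1 := lam_sum T g
  have h2 := A'_diff T 1 (by norm_num) (fun z => g (S 1 z)) (hg1 1)
  have h3 := A'_diff T (-1) (by norm_num) (fun z => g (S (-1) z)) (hg1 (-1))
  have h4 : ∑' z : Z, A' T 0 z * g (S 1 z) + 2 * ∑' z : Z, A' T 0 z * g (S 0 z)
      + ∑' z : Z, A' T 0 z * g (S (-1) z)
      = 4 * Real.cos (Real.pi * θ) ^ 2 * C (θ * phi) (T / phi) := by
    unfold C
    rw [← tsum_mul_left, ← tsum_mul_left, ← (A'_summable T 0 (fun z => g (S 1 z))).tsum_add
      ((A'_summable T 0 (fun z => g (S 0 z))).mul_left 2),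
      ← ((A'_summable T 0 (fun z => g (S 1 z))).add
      ((A'_summable T 0 (fun z => g (S 0 z))).mul_left 2)).tsum_add
      (A'_summable T 0 (fun z => g (S (-1) z)))]
    congr 1
    funext z
    rw [A'_zero_eq]
    simp only [hg, evz_S]
    push_cast
    have e1 : 2 * Real.pi * θ * (phi * evz z + 1)
        = 2 * Real.pi * (θ * phi) * evz z + 2 * (Real.pi * θ) := by ring
    have e2 : 2 * Real.pi * θ * (phi * evz z + 0) = 2 * Real.pi * (θ * phi) * evz z := by ring
    have e3 : 2 * Real.pi * θ * (phi * evz z + -1)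
        = 2 * Real.pi * (θ * phi) * evz z - 2 * (Real.pi * θ) := by ring
    rw [e1, e2, e3, Real.cos_add, Real.cos_sub, Real.cos_two_mul (Real.pi * θ)]
    ring
  rw [← h4]
  show |lam * ∑' z : Z, A T z * g z - _| ≤ _
  rw [h1]
  rw [abs_le] at h2 h3 ⊢
  constructor <;> linarith [h2.1, h2.2, h3.1, h3.2]

/-! ### Iteration -/

/-- partial products -/
def PP (k : ℕ) : ℝ := ∏ i ∈ Finset.range k, Real.cos (Real.pi * phi ^ i) ^ 2

lemma PP_nonneg (k : ℕ) : 0 ≤ PP k := Finset.prod_nonneg fun _ _ => sq_nonneg _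

lemma PP_le_one (k : ℕ) : PP k ≤ 1 :=
  Finset.prod_le_one (fun _ _ => sq_nonneg _) (fun i _ => Real.cos_sq_le_one (Real.pi * phi ^ i))

lemma cos_ne (i : ℕ) : Real.cos (Real.pi * phi ^ i) ≠ 0 := by
  intro h
  rw [Real.cos_eq_zero_iff] at h
  obtain ⟨k, hk⟩ := h
  have h1 : 2 * phi ^ i = 2 * k + 1 := by
    have hpi := Real.pi_pos.ne'
    field_simp at hk
    linarith
  -- powers of phi lie in the lattice
  have h2 : ∀ i : ℕ, ∃ p q : ℤ, phi ^ i = ev p q := by
    intro i
    induction i with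
    | zero => exact ⟨1, 0, by simp [ev]⟩
    | succ i ih =>
      obtain ⟨p, q, h⟩ := ih
      refine ⟨q, p + q, ?_⟩
      rw [pow_succ, h]
      unfold ev
      push_cast
      linear_combination (q : ℝ) * phi_sq
  obtain ⟨p, q, hpq⟩ := h2 i
  rw [hpq] at h1
  have h3 : ev (2 * p - (2 * k + 1)) (2 * q) = 0 := by
    unfold ev at *
    push_cast
    linarith
  have := ev_eq_zero h3
  omega

lemma PP_pos (k : ℕ) : 0 < PP k :=
  Finset.prod_pos fun i _ => lt_of_le_of_ne (sq_nonneg _) (Ne.symm (pow_ne_zero 2 (cos_ne i)))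

lemma iterate_bound (k : ℕ) : ∃ E : ℝ, 0 ≤ E ∧ ∀ T,
    |C 1 T - (4 / lam) ^ k * PP k * C (phi ^ k) (T / phi ^ k)| ≤ E ∧
    |C 0 T - (4 / lam) ^ k * C 0 (T / phi ^ k)| ≤ E := by
  have hl := lam_pos
  induction k with
  | zero => exact ⟨0, le_rfl, fun T => by simp [PP]⟩
  | succ k ih =>
    obtain ⟨E, hE, h⟩ := ih
    set κ : ℝ := (4 / lam) ^ k with hκ
    have hκ0 : 0 ≤ κ := by positivity
    refine ⟨E + κ * (96 * m 0 0 / lam), by have := m_nonneg 0 0; positivity, fun T => ?_⟩
    have h1 := C_rec (phi ^ k) (T / phi ^ k)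
    have h2 := C_rec 0 (T / phi ^ k)
    have eT : T / phi ^ k / phi = T / phi ^ (k + 1) := by rw [div_div, pow_succ]
    rw [eT, ← pow_succ] at h1
    rw [eT, zero_mul, mul_zero, Real.cos_zero, one_pow, mul_one] at h2
    have hP : PP (k + 1) = PP k * Real.cos (Real.pi * phi ^ k) ^ 2 := Finset.prod_range_succ _ _
    have hPle := PP_le_one k
    have hP0 := PP_nonneg k
    constructor
    · have e1 : (4 / lam) ^ (k + 1) * PP (k + 1) * C (phi ^ (k + 1)) (T / phi ^ (k + 1))
          = κ * PP k / lam * (4 * Real.cos (Real.pi * phi ^ k) ^ 2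
            * C (phi ^ (k + 1)) (T / phi ^ (k + 1))) := by
        rw [hP, hκ, pow_succ]; field_simp
      have e2 : C 1 T - (4 / lam) ^ (k + 1) * PP (k + 1) * C (phi ^ (k + 1)) (T / phi ^ (k + 1))
          = (C 1 T - κ * PP k * C (phi ^ k) (T / phi ^ k))
            + κ * PP k / lam * (lam * C (phi ^ k) (T / phi ^ k)
              - 4 * Real.cos (Real.pi * phi ^ k) ^ 2
                * C (phi ^ (k + 1)) (T / phi ^ (k + 1))) := by
        rw [e1]; field_simp; ring
      rw [e2]
      refine (abs_add_le _ _).trans (add_le_add (h T).1 ?_)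
      rw [abs_mul, abs_of_nonneg (show 0 ≤ κ * PP k / lam by positivity)]
      calc κ * PP k / lam * |_| ≤ κ * PP k / lam * (96 * m 0 0) :=
            mul_le_mul_of_nonneg_left h1 (by positivity)
        _ = (κ * (96 * m 0 0 / lam)) * PP k := by ring
        _ ≤ (κ * (96 * m 0 0 / lam)) * 1 :=
            mul_le_mul_of_nonneg_left hPle (by have := m_nonneg 0 0; positivity)
        _ = _ := mul_one _
    · have e1 : (4 / lam) ^ (k + 1) * C 0 (T / phi ^ (k + 1))
          = κ / lam * (4 * C 0 (T / phi ^ (k + 1))) := by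
        rw [hκ, pow_succ]; field_simp
      have e2 : C 0 T - (4 / lam) ^ (k + 1) * C 0 (T / phi ^ (k + 1))
          = (C 0 T - κ * C 0 (T / phi ^ k))
            + κ / lam * (lam * C 0 (T / phi ^ k) - 4 * C 0 (T / phi ^ (k + 1))) := by
        rw [e1]; field_simp; ring
      rw [e2]
      refine (abs_add_le _ _).trans (add_le_add (h T).2 ?_)
      rw [abs_mul, abs_of_nonneg (show 0 ≤ κ / lam by positivity)]
      calc κ / lam * |_| ≤ κ / lam * (96 * m 0 0) :=
            mul_le_mul_of_nonneg_left h2 (by positivity)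
        _ = _ := by ring

/-! ### High frequency cosines are close to one -/

lemma pow_near_int (k : ℕ) : ∀ z : Z, ∃ N : ℤ, phi ^ k * evz z + (1 - phi) ^ k * cjz z = N := by
  induction k with
  | zero =>
    intro z
    refine ⟨2 * z.1 + z.2, ?_⟩
    simp only [evz, cjz, ev, cj]
    push_cast
    ring
  | succ k ih =>
    intro z
    obtain ⟨N, hN⟩ := ih (S 0 z)
    refine ⟨N, ?_⟩
    rw [evz_S, cjz_S] at hN
    rw [← hN]
    push_cast
    ring

lemma cos_high (k : ℕ) (z : Z) :
    Real.cos (2 * Real.pi * phi ^ k * evz z)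
      = Real.cos (2 * Real.pi * ((1 - phi) ^ k * cjz z)) := by
  obtain ⟨N, hN⟩ := pow_near_int k z
  have : 2 * Real.pi * phi ^ k * evz z
      = N * (2 * Real.pi) - 2 * Real.pi * ((1 - phi) ^ k * cjz z) := by
    rw [← hN]; ring
  rw [this, Real.cos_int_mul_two_pi_sub]

lemma exists_k : ∃ k : ℕ, 2 * Real.pi * ((phi - 1) ^ k * phi ^ 2) ≤ 1 := by
  have h0 : 0 ≤ phi - 1 := by linarith [phi_gt]
  have h1 : phi - 1 < 1 := by linarith [phi_lt]
  have h2 : Tendsto (fun k : ℕ => 2 * Real.pi * ((phi - 1) ^ k * phi ^ 2)) atTop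
      (𝓝 (2 * Real.pi * (0 * phi ^ 2))) :=
    ((tendsto_pow_atTop_nhds_zero_of_lt_one h0 h1).mul_const _).const_mul _
  rw [zero_mul, mul_zero] at h2
  exact ((h2.eventually (gt_mem_nhds one_pos)).exists).imp fun k hk => hk.le

lemma C_high {k : ℕ} (hk : 2 * Real.pi * ((phi - 1) ^ k * phi ^ 2) ≤ 1) (R : ℝ) :
    C 0 R / 2 ≤ C (phi ^ k) R := by
  unfold C
  rw [← tsum_div_const]
  apply Summable.tsum_le_tsum _ ((C_summable R _).div_const 2) (C_summable R _)
  intro z
  rw [mul_zero, zero_mul, Real.cos_zero, mul_one]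
  by_cases hz : z ∈ box (-R) R
  · rw [cos_high]
    have h1 : |2 * Real.pi * ((1 - phi) ^ k * cjz z)| ≤ 1 := by
      have h2 : |(1 - phi) ^ k| = (phi - 1) ^ k := by
        rw [abs_pow, abs_of_neg (by linarith [phi_gt])]; ring
      rw [abs_mul, abs_of_pos (show 0 < 2 * Real.pi by have := Real.pi_pos; positivity), abs_mul,
        h2]
      refine le_trans ?_ hk
      have h3 : 0 ≤ (phi - 1) ^ k := pow_nonneg (by linarith [phi_gt]) k
      have := Real.pi_pos
      have h4 := hz.2.2.le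
      gcongr
    have h2 := Real.one_sub_sq_div_two_le_cos (x := 2 * Real.pi * ((1 - phi) ^ k * cjz z))
    have h3 : (2 * Real.pi * ((1 - phi) ^ k * cjz z)) ^ 2 ≤ 1 := by
      rw [← sq_abs]
      exact pow_le_one₀ (abs_nonneg _) h1
    have h4 := A_nonneg R z
    nlinarith
  · rw [A_zero hz]; simp

/-! ### The total weight is infinite -/

lemma not_summable_mz : ¬ Summable mz := by
  intro h
  have h1 : lam * ∑' z : Z, mz z = 4 * ∑' z : Z, mz z := by
    have hs : ∀ c : ℤ, Summable fun z : Z => mz ((S c).symm z) := fun c =>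
      (S c).symm.summable_iff.2 h
    have ht : ∀ c : ℤ, ∑' z : Z, mz ((S c).symm z) = ∑' z : Z, mz z := fun c =>
      (S c).symm.tsum_eq mz
    rw [← tsum_mul_left]
    calc ∑' z : Z, lam * mz z = ∑' z : Z, (mz ((S 1).symm z) + 2 * mz ((S 0).symm z)
          + mz ((S (-1)).symm z)) := by
          congr 1; funext z; exact mz_rec z
      _ = (∑' z : Z, mz ((S 1).symm z) + 2 * ∑' z : Z, mz ((S 0).symm z))
          + ∑' z : Z, mz ((S (-1)).symm z) := by
          rw [((hs 1).add ((hs 0).mul_left 2)).tsum_add (hs (-1)),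
            (hs 1).tsum_add ((hs 0).mul_left 2), tsum_mul_left]
      _ = _ := by rw [ht, ht, ht]; ring
  have h2 : (4 - lam) * ∑' z : Z, mz z = 0 := by linarith
  have h3 : 0 < ∑' z : Z, mz z :=
    h.tsum_pos (fun z => m_nonneg _ _) (0, 0) m_zero_pos
  have h4 := lam_lt
  have h5 : 0 < 4 - lam := by linarith
  exact (mul_pos h5 h3).ne' h2

lemma C_zero_eq (T : ℝ) : C 0 T = ∑' z : Z, A T z := by
  unfold C
  congr 1
  funext z
  simp

lemma C_zero_tendsto : Tendsto (C 0) atTop atTop := by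
  rw [tendsto_atTop]
  intro b
  have h1 : ∃ F : Finset Z, b ≤ ∑ z ∈ F, mz z := by
    by_contra hcon
    simp only [not_exists, not_le] at hcon
    exact not_summable_mz (summable_of_sum_le (fun z => m_nonneg _ _) (fun F => (hcon F).le))
  obtain ⟨F, hF⟩ := h1
  obtain ⟨R, hR⟩ : ∃ R : ℝ, ∀ z ∈ F, |evz z| ≤ R := by
    refine ⟨∑ z ∈ F, |evz z|, fun z hz => ?_⟩
    exact Finset.single_le_sum (f := fun z => |evz z|) (fun z _ => abs_nonneg _) hz
  filter_upwards [eventually_ge_atTop R] with T hT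
  rw [C_zero_eq]
  have hs : Summable (A T) := by
    have := C_summable T (fun _ => 1)
    simpa using this
  calc b ≤ ∑ z ∈ F, mz z := hF
    _ = ∑ z ∈ F, A T z := by
        apply Finset.sum_congr rfl
        intro z hz
        unfold A
        rw [if_pos ((hR z hz).trans hT)]
    _ ≤ _ := hs.sum_le_tsum F (fun z _ => A_nonneg T z)

/-- The first cosine sums are a positive proportion of the total weight. -/
lemma C_one_lower : ∃ ε : ℝ, 0 < ε ∧ ∀ᶠ T in atTop, ε * C 0 T ≤ C 1 T := by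
  obtain ⟨k, hk⟩ := exists_k
  obtain ⟨E, hE, h⟩ := iterate_bound k
  have hP := PP_pos k
  have hP1 := PP_le_one k
  refine ⟨PP k / 4, by positivity, ?_⟩
  filter_upwards [C_zero_tendsto.eventually_ge_atTop (8 * E / PP k)] with T hT
  have h1 := (abs_le.1 (h T).1).1
  have h2 := (abs_le.1 (h T).2).2
  have h3 := C_high hk (T / phi ^ k)
  have hκ : 0 < (4 / lam) ^ k := by have := lam_pos; positivity
  have h4 : (4 / lam) ^ k * PP k * (C 0 (T / phi ^ k) / 2)
      ≤ (4 / lam) ^ k * PP k * C (phi ^ k) (T / phi ^ k) :=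
    mul_le_mul_of_nonneg_left h3 (by positivity)
  have h5 : PP k * (C 0 T - E) ≤ PP k * ((4 / lam) ^ k * C 0 (T / phi ^ k)) :=
    mul_le_mul_of_nonneg_left (by linarith) hP.le
  have h6 : 8 * E ≤ C 0 T * PP k := by rwa [div_le_iff₀ hP] at hT
  nlinarith

end

end Pool.Agent.V11105.Golden
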