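import Pool.Agent.V11105.Golden

/-!
The spectrum of the golden mean: counts on the lattice and existence of the limit weights.
-/

open Filter Topology

namespace Pool.Agent.V11105.Golden

noncomputable section

/-- Counts on `ℤ[φ]`; `(p, q)` stands for `p + q φ`. -/
def NN : ℕ → ℤ → ℤ → ℝ
  | 0, p, q => if p = 0 ∧ q = 0 then 1 else 0
  | n + 1, p, q => NN n (q - p + 1) (p - 1) + 2 * NN n (q - p) p + NN n (q - p - 1) (p + 1)

lemma NN_nonneg (n : ℕ) (p q : ℤ) : 0 ≤ NN n p q := by
  induction n generalizing p q with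
  | zero => simp only [NN]; split_ifs <;> norm_num
  | succ n ih =>
    simp only [NN]
    have h1 := ih (q - p + 1) (p - 1)
    have h2 := ih (q - p) p
    have h3 := ih (q - p - 1) (p + 1)
    linarith

lemma NN_neg (n : ℕ) (p q : ℤ) : NN n (-p) (-q) = NN n p q := by
  induction n generalizing p q with
  | zero => simp [NN]
  | succ n ih =>
    simp only [NN]
    rw [show -q - -p + 1 = -(q - p - 1) by ring, show -p - 1 = -(p + 1) by ring, ih,
      show -q - -p = -(q - p) by ring, ih,
      show -(q - p) - 1 = -(q - p + 1) by ring, show -p + 1 = -(p - 1) by ring, ih]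
    ring

/-- the value of a lattice point -/
def ev (p q : ℤ) : ℝ := p + q * phi

/-- the conjugate of a lattice point -/
def cj (p q : ℤ) : ℝ := p + q * (1 - phi)

lemma ev_eq_zero {p q : ℤ} (h : ev p q = 0) : p = 0 ∧ q = 0 := by
  by_cases hq : q = 0
  · subst hq
    simp only [ev, Int.cast_zero, zero_mul, add_zero] at h
    exact ⟨by exact_mod_cast h, rfl⟩
  · exfalso
    apply phi_irrational
    refine ⟨-p / q, ?_⟩
    have hq' : (q : ℝ) ≠ 0 := by exact_mod_cast hq
    push_cast
    rw [div_eq_iff hq']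
    unfold ev at h
    linarith

lemma ev_inj {p q p' q' : ℤ} (h : ev p q = ev p' q') : p = p' ∧ q = q' := by
  have h1 : ev (p - p') (q - q') = 0 := by
    unfold ev at *
    push_cast
    linarith
  have := ev_eq_zero h1
  omega

lemma ev_div (p q : ℤ) (c : ℤ) : (ev p q - c) / phi = ev (q - p + c) (p - c) := by
  rw [div_eq_iff phi_pos.ne']
  unfold ev
  push_cast
  have := phi_sq
  linear_combination (-(p : ℝ) + c) * this

lemma count_ev (n : ℕ) (p q : ℤ) : (count n (ev p q) : ℝ) = NN n p q := by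
  induction n generalizing p q with
  | zero =>
    rw [count_zero]
    simp only [NN]
    by_cases h : p = 0 ∧ q = 0
    · obtain ⟨rfl, rfl⟩ := h
      simp [ev]
    · rw [if_neg h, if_neg (fun h' => h (ev_eq_zero h'))]
      simp
  | succ n ih =>
    rw [count_succ]
    simp only [NN]
    have e1 := ev_div p q 1
    have e2 := ev_div p q 0
    have e3 := ev_div p q (-1)
    simp only [Int.cast_one, Int.cast_zero, Int.cast_neg, sub_zero, sub_neg_eq_add, add_zero]
      at e1 e2 e3
    push_cast
    rw [e1, e2, e3, ih, ih, ih]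
    rfl

lemma count_of_not (n : ℕ) {x : ℝ} (hx : ∀ p q : ℤ, ev p q ≠ x) : count n x = 0 := by
  induction n generalizing x with
  | zero =>
    rw [count_zero, if_neg]
    rintro rfl
    exact hx 0 0 (by simp [ev])
  | succ n ih =>
    have key : ∀ c : ℤ, ∀ p q : ℤ, ev p q ≠ (x - c) / phi := by
      intro c p q h
      rw [eq_div_iff phi_pos.ne'] at h
      apply hx (q + c) (p + q)
      have := phi_sq
      unfold ev at *
      push_cast
      linear_combination h - (q : ℝ) * this
    rw [count_succ]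
    have k1 := ih (key 1)
    have k2 := ih (key 0)
    have k3 := ih (key (-1))
    simp only [Int.cast_one, Int.cast_zero, Int.cast_neg, sub_zero, sub_neg_eq_add] at k1 k2 k3
    rw [k1, k2, k3]

/-! ### Vanishing -/

lemma NN_vanish_aux (n : ℕ) (p q : ℤ) (h : NN n p q ≠ 0) :
    |cj p q| ≤ phi ^ 2 * (1 - (phi - 1) ^ n) := by
  induction n generalizing p q with
  | zero =>
    simp only [NN] at h
    have h' : p = 0 ∧ q = 0 := by
      by_contra hc
      rw [if_neg hc] at h
      exact h rfl
    obtain ⟨rfl, rfl⟩ := h'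
    simp [cj]
  | succ n ih =>
    have key : ∀ c : ℤ, |(c : ℝ)| ≤ 1 → NN n (q - p + c) (p - c) ≠ 0 →
        |cj p q| ≤ phi ^ 2 * (1 - (phi - 1) ^ (n + 1)) := by
      intro c hc hne
      have h1 := ih _ _ hne
      have h2 : cj p q = (1 - phi) * cj (q - p + c) (p - c) + c := by
        unfold cj
        push_cast
        have := phi_sq
        linear_combination ((c : ℝ) - p) * this
      have h3 : |cj p q| ≤ (phi - 1) * |cj (q - p + c) (p - c)| + 1 := by
        rw [h2]
        calc |(1 - phi) * cj (q - p + c) (p - c) + c|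
            ≤ |(1 - phi) * cj (q - p + c) (p - c)| + |(c : ℝ)| := abs_add_le _ _
          _ = (phi - 1) * |cj (q - p + c) (p - c)| + |(c : ℝ)| := by
              rw [abs_mul, abs_of_neg (show 1 - phi < 0 by linarith [phi_gt])]
              ring
          _ ≤ _ := by linarith
      have h4 : 0 ≤ phi - 1 := by linarith [phi_gt]
      calc |cj p q| ≤ (phi - 1) * (phi ^ 2 * (1 - (phi - 1) ^ n)) + 1 :=
            h3.trans (by have := mul_le_mul_of_nonneg_left h1 h4; linarith)
        _ = phi ^ 2 * (1 - (phi - 1) ^ (n + 1)) := by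
            have := phi_sq
            rw [pow_succ]
            linear_combination (phi - 2 + 1) * this
    simp only [NN] at h
    by_cases h1 : NN n (q - p + 1) (p - 1) = 0
    · by_cases h2 : NN n (q - p) p = 0
      · have h3 : NN n (q - p + (-1)) (p - (-1)) ≠ 0 := by
          intro h3
          apply h
          have h3' : NN n (q - p - 1) (p + 1) = 0 := by
            rw [← h3]; congr 1
          rw [h1, h2, h3']
          norm_num
        exact key (-1) (by norm_num) h3
      · exact key 0 (by norm_num) (by simpa using h2)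
    · exact key 1 (by norm_num) h1

lemma NN_vanish {n : ℕ} {p q : ℤ} (h : phi ^ 2 ≤ |cj p q|) : NN n p q = 0 := by
  by_contra hne
  have h1 := NN_vanish_aux n p q hne
  have h2 : 0 < (phi - 1) ^ n := by
    have : 0 < phi - 1 := by linarith [phi_gt]
    positivity
  have h3 : 0 < phi ^ 2 := by have := phi_pos; positivity
  nlinarith

/-! ### The core recursion -/

lemma NN_a (n : ℕ) : NN (n + 1) 0 0 = 2 * NN n 0 0 + 2 * NN n (-1) 1 := by
  have h1 : NN (n + 1) 0 0 = NN n 1 (-1) + 2 * NN n 0 0 + NN n (-1) 1 := rfl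
  have h2 : NN n 1 (-1) = NN n (-1) 1 := by
    have := NN_neg n (-1) 1
    simpa using this
  rw [h1, h2]; ring

lemma NN_b (n : ℕ) : NN (n + 1) 1 0 = NN n 0 0 + 2 * NN n (-1) 1 := by
  have h1 : NN (n + 1) 1 0 = NN n 0 0 + 2 * NN n (-1) 1 + NN n (-2) 2 := rfl
  have h2 : NN n (-2) 2 = 0 := by
    apply NN_vanish
    unfold cj
    push_cast
    have := phi_sq
    have := phi_gt
    have := phi_lt
    rw [abs_of_neg (by linarith)]
    linarith
  rw [h1, h2]; ring

lemma NN_c (n : ℕ) : NN (n + 1) (-1) 1 = NN n 1 0 := by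
  have h1 : NN (n + 1) (-1) 1 = NN n 3 (-2) + 2 * NN n 2 (-1) + NN n 1 0 := rfl
  have h2 : NN n 3 (-2) = 0 := by
    apply NN_vanish
    unfold cj
    push_cast
    have := phi_sq
    have := phi_gt
    have := phi_lt
    rw [abs_of_pos (by linarith)]
    linarith
  have h3 : NN n 2 (-1) = 0 := by
    apply NN_vanish
    unfold cj
    push_cast
    have := phi_sq
    have := phi_gt
    have := phi_lt
    rw [abs_of_pos (by linarith)]
    linarith
  rw [h1, h2, h3]; ring

lemma NN_f (n : ℕ) : NN (n + 1) 0 1 = NN n 0 1 + 2 * NN n 1 0 := by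
  have h1 : NN (n + 1) 0 1 = NN n 2 (-1) + 2 * NN n 1 0 + NN n 0 1 := rfl
  have h3 : NN n 2 (-1) = 0 := by
    apply NN_vanish
    unfold cj
    push_cast
    have := phi_sq
    have := phi_gt
    have := phi_lt
    rw [abs_of_pos (by linarith)]
    linarith
  rw [h1, h3]; ring

/-- The growth rate. -/
lemma exists_lam : ∃ l : ℝ, 2.4 < l ∧ l < 2.5 ∧ l ^ 3 = 2 * l ^ 2 + 2 * l - 2 := by
  have hc : ContinuousOn (fun t : ℝ => t ^ 3 - 2 * t ^ 2 - 2 * t + 2) (Set.Icc 2.4 2.5) := by
    fun_prop
  have h := intermediate_value_Ioo (show (2.4 : ℝ) ≤ 2.5 by norm_num) hc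
  have h0 : (0 : ℝ) ∈ Set.Ioo ((fun t : ℝ => t ^ 3 - 2 * t ^ 2 - 2 * t + 2) 2.4)
      ((fun t : ℝ => t ^ 3 - 2 * t ^ 2 - 2 * t + 2) 2.5) := by
    constructor <;> norm_num
  obtain ⟨l, hl, hl0⟩ := h h0
  refine ⟨l, hl.1, hl.2, ?_⟩
  have : l ^ 3 - 2 * l ^ 2 - 2 * l + 2 = 0 := hl0
  linarith

/-- The growth rate. -/
def lam : ℝ := exists_lam.choose

lemma lam_gt : 2.4 < lam := exists_lam.choose_spec.1
lemma lam_lt : lam < 2.5 := exists_lam.choose_spec.2.1
lemma lam_cub : lam ^ 3 = 2 * lam ^ 2 + 2 * lam - 2 := exists_lam.choose_spec.2.2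
lemma lam_pos : 0 < lam := by linarith [lam_gt]

/-- good points: the defect from exact growth is exponentially smaller -/
def Good (p q : ℤ) : Prop := ∃ D : ℝ, 0 ≤ D ∧ ∀ n, |NN (n + 1) p q - lam * NN n p q| ≤ D * 1.6 ^ n

lemma good_of_rec {u : ℕ → ℝ} (h : ∀ n, u (n + 3) = 2 * u (n + 2) + 2 * u (n + 1) - 2 * u n) :
    ∃ D : ℝ, 0 ≤ D ∧ ∀ n, |u (n + 1) - lam * u n| ≤ D * 1.6 ^ n := by
  set d : ℕ → ℝ := fun n => u (n + 1) - lam * u n with hd
  refine ⟨|d 0| + |d 1|, by positivity, ?_⟩
  have hrec : ∀ n, d (n + 2) = -(lam - 2) * d (n + 1) - (lam ^ 2 - 2 * lam - 2) * d n := by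
    intro n
    simp only [hd]
    have := h n
    have := lam_cub
    linear_combination (h n) + (-(u n)) * lam_cub
  have hb1 : |-(lam - 2)| ≤ 0.5 := by
    have := lam_gt; have := lam_lt
    rw [abs_le]; constructor <;> linarith
  have hb2 : |lam ^ 2 - 2 * lam - 2| ≤ 1.04 := by
    have h1 := lam_gt; have h2 := lam_lt
    rw [abs_le]; constructor <;> nlinarith
  have key : ∀ n, |d n| ≤ (|d 0| + |d 1|) * 1.6 ^ n ∧ |d (n + 1)| ≤ (|d 0| + |d 1|) * 1.6 ^ (n + 1) := by
    intro n
    induction n with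
    | zero =>
      constructor
      · simp
      · simp only [zero_add, pow_one]
        have := abs_nonneg (d 0); have := abs_nonneg (d 1)
        linarith
    | succ n ih =>
      refine ⟨ih.2, ?_⟩
      rw [hrec]
      have h3 : |-(lam - 2) * d (n + 1) - (lam ^ 2 - 2 * lam - 2) * d n|
          ≤ 0.5 * |d (n + 1)| + 1.04 * |d n| := by
        calc |-(lam - 2) * d (n + 1) - (lam ^ 2 - 2 * lam - 2) * d n|
            ≤ |-(lam - 2) * d (n + 1)| + |(lam ^ 2 - 2 * lam - 2) * d n| := abs_sub _ _
          _ = |-(lam - 2)| * |d (n + 1)| + |lam ^ 2 - 2 * lam - 2| * |d n| := by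
              rw [abs_mul, abs_mul]
          _ ≤ _ := add_le_add (mul_le_mul_of_nonneg_right hb1 (abs_nonneg _))
              (mul_le_mul_of_nonneg_right hb2 (abs_nonneg _))
      have h4 : (0 : ℝ) ≤ (|d 0| + |d 1|) * 1.6 ^ n := by positivity
      have h5 : (1.6 : ℝ) ^ (n + 1) = 1.6 * 1.6 ^ n := by ring
      have h6 : (1.6 : ℝ) ^ (n + 1 + 1) = 2.56 * 1.6 ^ n := by ring
      rw [h6]
      rw [h5] at ih
      nlinarith [ih.1, ih.2]
  exact fun n => (key n).1

lemma good_00 : Good 0 0 := good_of_rec (u := fun n => NN n 0 0) (fun n => by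
  have a1 := NN_a (n + 2); have a2 := NN_a (n + 1); have a3 := NN_a n
  have b1 := NN_b (n + 1); have b2 := NN_b n
  have c1 := NN_c (n + 1); have c2 := NN_c n
  simp only [add_assoc, Nat.reduceAdd] at *
  linarith)

lemma good_10 : Good 1 0 := good_of_rec (u := fun n => NN n 1 0) (fun n => by
  have a1 := NN_a (n + 2); have a2 := NN_a (n + 1); have a3 := NN_a n
  have b0 := NN_b (n + 2); have b1 := NN_b (n + 1); have b2 := NN_b n
  have c1 := NN_c (n + 1); have c2 := NN_c n
  simp only [add_assoc, Nat.reduceAdd] at *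
  linarith)

lemma good_11 : Good (-1) 1 := good_of_rec (u := fun n => NN n (-1) 1) (fun n => by
  have a1 := NN_a (n + 2); have a2 := NN_a (n + 1); have a3 := NN_a n
  have b0 := NN_b (n + 2); have b1 := NN_b (n + 1); have b2 := NN_b n
  have c0 := NN_c (n + 2); have c1 := NN_c (n + 1); have c2 := NN_c n
  simp only [add_assoc, Nat.reduceAdd] at *
  linarith)

lemma good_01 : Good 0 1 := by
  obtain ⟨D, hD, h⟩ := good_10
  set d : ℕ → ℝ := fun n => NN (n + 1) 0 1 - lam * NN n 0 1 with hd
  refine ⟨|d 0| + 4 * D, by positivity, fun n => ?_⟩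
  show |d n| ≤ _
  induction n with
  | zero => simp; exact hD
  | succ n ih =>
    have h1 : d (n + 1) = d n + 2 * (NN (n + 1) 1 0 - lam * NN n 1 0) := by
      simp only [hd]
      rw [NN_f (n + 1), NN_f n]
      ring
    rw [h1]
    have h2 := h n
    have h3 : |d n + 2 * (NN (n + 1) 1 0 - lam * NN n 1 0)|
        ≤ |d n| + 2 * |NN (n + 1) 1 0 - lam * NN n 1 0| := by
      calc _ ≤ |d n| + |2 * (NN (n + 1) 1 0 - lam * NN n 1 0)| := abs_add_le _ _
        _ = _ := by rw [abs_mul, abs_of_pos (by norm_num : (0 : ℝ) < 2)]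
    have h4 : (0 : ℝ) < 1.6 ^ n := by positivity
    have h5 : (1.6 : ℝ) ^ (n + 1) = 1.6 * 1.6 ^ n := by ring
    rw [h5]
    have h6 : 0 ≤ |d 0| * 1.6 ^ n := by positivity
    have h7 : 0 ≤ D * 1.6 ^ n := by positivity
    nlinarith

lemma Good.neg {p q : ℤ} (h : Good p q) : Good (-p) (-q) := by
  obtain ⟨D, hD, h⟩ := h
  refine ⟨D, hD, fun n => ?_⟩
  rw [NN_neg, NN_neg]
  exact h n

lemma good_of_vanish {p q : ℤ} (h : ∀ n, NN n p q = 0) : Good p q :=
  ⟨0, le_rfl, fun n => by simp [h]⟩

lemma Good.step {p q : ℤ} (h1 : Good (q - p + 1) (p - 1)) (h2 : Good (q - p) p)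
    (h3 : Good (q - p - 1) (p + 1)) : Good p q := by
  obtain ⟨D1, hD1, h1⟩ := h1
  obtain ⟨D2, hD2, h2⟩ := h2
  obtain ⟨D3, hD3, h3⟩ := h3
  refine ⟨|NN 1 p q - lam * NN 0 p q| + (D1 + 2 * D2 + D3), by positivity, fun n => ?_⟩
  rcases n with _ | n
  · simp only [zero_add, pow_zero, mul_one]
    linarith
  · have e : NN (n + 1 + 1) p q - lam * NN (n + 1) p q
        = (NN (n + 1) (q - p + 1) (p - 1) - lam * NN n (q - p + 1) (p - 1))
          + 2 * (NN (n + 1) (q - p) p - lam * NN n (q - p) p)
          + (NN (n + 1) (q - p - 1) (p + 1) - lam * NN n (q - p - 1) (p + 1)) := by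
      rw [show NN (n + 1 + 1) p q = NN (n + 1) (q - p + 1) (p - 1) + 2 * NN (n + 1) (q - p) p
        + NN (n + 1) (q - p - 1) (p + 1) from rfl,
        show NN (n + 1) p q = NN n (q - p + 1) (p - 1) + 2 * NN n (q - p) p
        + NN n (q - p - 1) (p + 1) from rfl]
      ring
    rw [e]
    have t1 := h1 n
    have t2 := h2 n
    have t3 := h3 n
    have h4 : (0 : ℝ) < 1.6 ^ n := by positivity
    have h5 : (1.6 : ℝ) ^ (n + 1) = 1.6 * 1.6 ^ n := by ring
    have h6 : 0 ≤ |NN 1 p q - lam * NN 0 p q| * 1.6 ^ n := by positivity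
    have h7 : 0 ≤ D1 * 1.6 ^ n := by positivity
    have h8 : 0 ≤ D2 * 1.6 ^ n := by positivity
    have h9 : 0 ≤ D3 * 1.6 ^ n := by positivity
    rw [h5]
    rw [abs_le] at t1 t2 t3 ⊢
    constructor <;> nlinarith [t1.1, t1.2, t2.1, t2.2, t3.1, t3.2]

/-- All points of small value are good. -/
lemma good_small {p q : ℤ} (h : |ev p q| ≤ 1.9) : Good p q := by
  by_cases hv : phi ^ 2 ≤ |cj p q|
  · exact good_of_vanish fun n => NN_vanish hv
  · rw [not_le] at hv
    have g1 := phi_gt
    have g2 := phi_lt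
    have g3 := phi_sq
    rw [g3, abs_lt] at hv
    rw [abs_le] at h
    unfold ev at h
    unfold cj at hv
    have hq1 : (q : ℝ) < 3 := by nlinarith [h.1, h.2, hv.1, hv.2]
    have hq2 : (-3 : ℝ) < q := by nlinarith [h.1, h.2, hv.1, hv.2]
    have hq1' : q < 3 := by exact_mod_cast hq1
    have hq2' : -3 < q := by exact_mod_cast hq2
    have hcases : q = 0 ∨ q = 1 ∨ q = -1 ∨ q = 2 ∨ q = -2 := by omega
    rcases hcases with rfl | rfl | rfl | rfl | rfl
    · -- q = 0
      simp only [Int.cast_zero, zero_mul, add_zero] at h hv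
      have hp1 : p < 2 := by
        have : (p : ℝ) < 2 := by linarith [h.2]
        exact_mod_cast this
      have hp2 : -2 < p := by
        have : (-2 : ℝ) < p := by linarith [h.1]
        exact_mod_cast this
      have hp : p = 0 ∨ p = 1 ∨ p = -1 := by omega
      rcases hp with rfl | rfl | rfl
      · exact good_00
      · exact good_10
      · simpa using good_10.neg
    · -- q = 1
      simp only [Int.cast_one, one_mul] at h hv
      have hp1 : p < 1 := by
        have : (p : ℝ) < 1 := by linarith [h.2]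
        exact_mod_cast this
      have hp2 : -2 < p := by
        have : (-2 : ℝ) < p := by linarith [hv.1]
        exact_mod_cast this
      have hp : p = 0 ∨ p = -1 := by omega
      rcases hp with rfl | rfl
      · exact good_01
      · exact good_11
    · -- q = -1
      simp only [Int.cast_neg, Int.cast_one, neg_mul, one_mul] at h hv
      have hp1 : p < 2 := by
        have : (p : ℝ) < 2 := by linarith [hv.2]
        exact_mod_cast this
      have hp2 : -1 < p := by
        have : (-1 : ℝ) < p := by linarith [h.1]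
        exact_mod_cast this
      have hp : p = 0 ∨ p = 1 := by omega
      rcases hp with rfl | rfl
      · simpa using good_01.neg
      · simpa using good_11.neg
    · -- q = 2
      exfalso
      push_cast at h hv
      have hp1 : p < -1 := by
        have : (p : ℝ) < -1 := by linarith [h.2]
        exact_mod_cast this
      have hp2 : -2 < p := by
        have : (-2 : ℝ) < p := by linarith [hv.1]
        exact_mod_cast this
      omega
    · -- q = -2
      exfalso
      push_cast at h hv
      have hp1 : p < 2 := by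
        have : (p : ℝ) < 2 := by linarith [hv.2]
        exact_mod_cast this
      have hp2 : 1 < p := by
        have : (1 : ℝ) < p := by linarith [h.1]
        exact_mod_cast this
      omega

/-- All points are good. -/
lemma good_all (p q : ℤ) : Good p q := by
  -- radii
  have hR : ∀ k : ℕ, ∀ p q : ℤ, |ev p q| ≤ 1.9 + 0.1 * k → Good p q := by
    intro k
    induction k with
    | zero => intro p q h; exact good_small (by simpa using h)
    | succ k ih =>
      intro p q h
      have step : ∀ c : ℤ, |(c : ℝ)| ≤ 1 → Good (q - p + c) (p - c) := by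
        intro c hc
        apply ih
        rw [← ev_div, abs_div, abs_of_pos phi_pos, div_le_iff₀ phi_pos]
        push_cast at h
        have h1 : |ev p q - c| ≤ 1.9 + 0.1 * (k + 1) + 1 :=
          (abs_sub _ _).trans (by linarith)
        have h2 := phi_gt
        have hk : (0 : ℝ) ≤ k := Nat.cast_nonneg k
        nlinarith
      have s1 := step 1 (by norm_num)
      have s2 := step 0 (by norm_num)
      have s3 := step (-1) (by norm_num)
      simp only [add_zero, sub_zero, sub_neg_eq_add] at s2 s3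
      exact Good.step s1 s2 s3
  obtain ⟨k, hk⟩ := exists_nat_gt (|ev p q| * 10)
  exact hR k p q (by linarith)

lemma exists_limit (p q : ℤ) :
    ∃ L, Tendsto (fun n => NN n p q / lam ^ n) atTop (𝓝 L) := by
  obtain ⟨D, hD, h⟩ := good_all p q
  have hl := lam_pos
  have hc : CauchySeq (fun n => NN n p q / lam ^ n) := by
    apply cauchySeq_of_le_geometric (1.6 / 2.4) (D / 2.4) (by norm_num)
    intro n
    rw [dist_comm, Real.dist_eq]
    have e : NN (n + 1) p q / lam ^ (n + 1) - NN n p q / lam ^ n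
        = (NN (n + 1) p q - lam * NN n p q) / lam ^ (n + 1) := by
      field_simp
      ring
    rw [e, abs_div, abs_of_pos (show 0 < lam ^ (n + 1) by positivity)]
    calc |NN (n + 1) p q - lam * NN n p q| / lam ^ (n + 1)
        ≤ (D * 1.6 ^ n) / 2.4 ^ (n + 1) := by
          apply div_le_div₀ (by positivity) (h n) (by positivity)
          exact pow_le_pow_left₀ (by norm_num) lam_gt.le _
      _ = D / 2.4 * (1.6 / 2.4) ^ n := by
          rw [div_pow, pow_succ]
          field_simp
  exact cauchySeq_tendsto_of_complete hc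

/-- The limit weights. -/
def m (p q : ℤ) : ℝ := (exists_limit p q).choose

lemma m_spec (p q : ℤ) : Tendsto (fun n => NN n p q / lam ^ n) atTop (𝓝 (m p q)) :=
  (exists_limit p q).choose_spec

lemma m_nonneg (p q : ℤ) : 0 ≤ m p q :=
  ge_of_tendsto' (m_spec p q) fun n =>
    div_nonneg (NN_nonneg n p q) (pow_nonneg lam_pos.le n)

lemma m_neg (p q : ℤ) : m (-p) (-q) = m p q := by
  refine tendsto_nhds_unique (m_spec (-p) (-q)) ?_
  simp only [NN_neg]
  exact m_spec p q

lemma m_rec (p q : ℤ) :
    lam * m p q = m (q - p + 1) (p - 1) + 2 * m (q - p) p + m (q - p - 1) (p + 1) := by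
  have h1 := ((m_spec p q).comp (tendsto_add_atTop_nat 1)).const_mul lam
  have h2 := ((m_spec (q - p + 1) (p - 1)).add ((m_spec (q - p) p).const_mul 2)).add
    (m_spec (q - p - 1) (p + 1))
  refine tendsto_nhds_unique h1 (h2.congr fun n => ?_)
  have hl := lam_pos
  show _ = lam * (NN (n + 1) p q / lam ^ (n + 1))
  rw [show NN (n + 1) p q = NN n (q - p + 1) (p - 1) + 2 * NN n (q - p) p
        + NN n (q - p - 1) (p + 1) from rfl]
  field_simp
  ring

lemma m_le (p q : ℤ) : m p q ≤ m 0 0 := by
  refine le_of_tendsto_of_tendsto' (m_spec p q) (m_spec 0 0) fun n => ?_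
  apply div_le_div_of_nonneg_right _ (pow_nonneg lam_pos.le n)
  rw [← count_ev, ← count_ev]
  have h : ev 0 0 = 0 := by simp [ev]
  rw [h]
  exact_mod_cast count_le n _

lemma m_vanish {p q : ℤ} (h : phi ^ 2 ≤ |cj p q|) : m p q = 0 := by
  refine tendsto_nhds_unique (m_spec p q) ?_
  simp [NN_vanish h]

lemma m_zero_pos : 0 < m 0 0 := by
  -- invariant
  have hinv : ∀ n, NN n 0 0 + (lam - 2) * NN n 1 0 + lam * (lam - 2) * NN n (-1) 1 = lam ^ n := by
    intro n
    induction n with
    | zero => simp [NN]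
    | succ n ih =>
      rw [NN_a, NN_b, NN_c, pow_succ, ← ih]
      have := lam_cub
      linear_combination (-(NN n (-1) 1)) * this
  have h1 : Tendsto (fun n => NN n 0 0 / lam ^ n + (lam - 2) * (NN n 1 0 / lam ^ n)
      + lam * (lam - 2) * (NN n (-1) 1 / lam ^ n)) atTop
      (𝓝 (m 0 0 + (lam - 2) * m 1 0 + lam * (lam - 2) * m (-1) 1)) :=
    ((m_spec 0 0).add ((m_spec 1 0).const_mul _)).add ((m_spec (-1) 1).const_mul _)
  have h2 : m 0 0 + (lam - 2) * m 1 0 + lam * (lam - 2) * m (-1) 1 = 1 := by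
    refine tendsto_nhds_unique h1 ?_
    refine tendsto_const_nhds.congr fun n => ?_
    have hl : lam ^ n ≠ 0 := pow_ne_zero _ lam_pos.ne'
    have := hinv n
    field_simp
    linarith
  have h3 := m_le 1 0
  have h4 := m_le (-1) 1
  have h5 := lam_gt
  have h6 := m_nonneg 0 0
  by_contra hcon
  have h7 : m 0 0 = 0 := le_antisymm (not_lt.1 hcon) h6
  have h8 : m 1 0 = 0 := le_antisymm (h7 ▸ h3) (m_nonneg _ _)
  have h9 : m (-1) 1 = 0 := le_antisymm (h7 ▸ h4) (m_nonneg _ _)
  rw [h7, h8, h9] at h2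
  norm_num at h2

end

end Pool.Agent.V11105.Golden
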