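import Mathlib

/-!
# A countable prime space whose space of clopen sets is not regular

Helper file for `MP_150402_gt` and `MP_8267fa_gt`.
-/

namespace Pool.Agent.V11105.IsbellPrime

open Set Topology

/-- `O_Z(Y)`: the preimages of open subsets of `Z` under continuous maps `Y → Z`. -/
def OZ (Y Z : Type) [TopologicalSpace Y] [TopologicalSpace Z] : Set (Set Y) :=
  {W | ∃ f : C(Y, Z), ∃ U : Set Z, IsOpen U ∧ W = f ⁻¹' U}

/-- `H` is a `Z`-Scott open family of open subsets of `Y`. -/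
structure ZScott (Y Z : Type) [TopologicalSpace Y] [TopologicalSpace Z]
    (H : Set (Set Y)) : Prop where
  isOpen : ∀ W ∈ H, IsOpen W
  up : ∀ W V : Set Y, W ∈ H → W ∈ OZ Y Z → IsOpen V → W ⊆ V → V ∈ H
  comp : ∀ 𝓦 : Set (Set Y), 𝓦 ⊆ OZ Y Z → ⋃₀ 𝓦 ∈ H →
    ∃ F : Set (Set Y), F ⊆ 𝓦 ∧ F.Finite ∧ ⋃₀ F ∈ H

/-- The topology `t_1^Z` on `C(Y, Z)`. -/
@[instance_reducible]
def t1Z (Y Z : Type) [TopologicalSpace Y] [TopologicalSpace Z] : TopologicalSpace C(Y, Z) :=
  TopologicalSpace.generateFrom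
    {S | ∃ (H : Set (Set Y)) (U : Set Z), ZScott Y Z H ∧ IsOpen U ∧ S = {f : C(Y, Z) | f ⁻¹' U ∈ H}}

/-! ### The case `Z = Bool` -/

section Bool

variable {Y : Type} [TopologicalSpace Y]

open Classical in
/-- The indicator of a clopen set. -/
noncomputable def ind (W : Set Y) (hW : IsClopen W) : C(Y, Bool) where
  toFun := fun y => decide (y ∈ W)
  continuous_toFun := (continuous_bool_rng true).2 (by
    have h : (fun y => decide (y ∈ W)) ⁻¹' {true} = W := by
      ext y; simp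
    rw [h]; exact hW)

theorem ind_true (W : Set Y) (hW : IsClopen W) : (ind W hW) ⁻¹' {true} = W := by
  ext y; simp [ind]

theorem ind_false (W : Set Y) (hW : IsClopen W) : (ind W hW) ⁻¹' {false} = Wᶜ := by
  ext y; simp [ind]

theorem mem_OZ_iff (W : Set Y) : W ∈ OZ Y Bool ↔ IsClopen W := by
  constructor
  · rintro ⟨f, U, -, rfl⟩
    exact (isClopen_discrete U).preimage f.continuous
  · intro hW
    exact ⟨ind W hW, {true}, isOpen_discrete _, (ind_true W hW).symm⟩

theorem sUnion_OZ {F : Set (Set Y)} (hF : F.Finite) (h : F ⊆ OZ Y Bool) :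
    ⋃₀ F ∈ OZ Y Bool := by
  rw [mem_OZ_iff, sUnion_eq_biUnion]
  exact hF.isClopen_biUnion fun W hW => (mem_OZ_iff W).1 (h hW)

theorem zscott_all : ZScott Y Bool {W | IsOpen W} where
  isOpen := fun _ h => h
  up := fun _ _ _ _ h _ => h
  comp := fun _ _ _ => ⟨∅, empty_subset _, finite_empty, by simp⟩

theorem zscott_inter {H₁ H₂ : Set (Set Y)} (h₁ : ZScott Y Bool H₁) (h₂ : ZScott Y Bool H₂) :
    ZScott Y Bool (H₁ ∩ H₂) where
  isOpen := fun W h => h₁.isOpen W h.1
  up := fun W V hW hOZ hV hWV => ⟨h₁.up W V hW.1 hOZ hV hWV, h₂.up W V hW.2 hOZ hV hWV⟩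
  comp := by
    intro 𝓦 h𝓦 hU
    obtain ⟨F₁, hF₁, hf₁, hm₁⟩ := h₁.comp 𝓦 h𝓦 hU.1
    obtain ⟨F₂, hF₂, hf₂, hm₂⟩ := h₂.comp 𝓦 h𝓦 hU.2
    have hsub : F₁ ∪ F₂ ⊆ 𝓦 := union_subset hF₁ hF₂
    have hop : IsOpen (⋃₀ (F₁ ∪ F₂)) :=
      ((mem_OZ_iff _).1 (sUnion_OZ (hf₁.union hf₂) (hsub.trans h𝓦))).isOpen
    refine ⟨F₁ ∪ F₂, hsub, hf₁.union hf₂, ?_, ?_⟩
    · exact h₁.up _ _ hm₁ (sUnion_OZ hf₁ (hF₁.trans h𝓦)) hop
        (sUnion_subset_sUnion subset_union_left)
    · exact h₂.up _ _ hm₂ (sUnion_OZ hf₂ (hF₂.trans h𝓦)) hop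
        (sUnion_subset_sUnion subset_union_right)

/-- Basic neighbourhoods for `t_1^Z`, `Z = Bool`. -/
theorem basic_nhd (G : Set C(Y, Bool)) (hG : IsOpen[t1Z Y Bool] G) (g : C(Y, Bool))
    (hg : g ∈ G) : ∃ H₁ H₂ : Set (Set Y), ZScott Y Bool H₁ ∧ ZScott Y Bool H₂ ∧
      g ⁻¹' {true} ∈ H₁ ∧ g ⁻¹' {false} ∈ H₂ ∧
      ∀ f : C(Y, Bool), f ⁻¹' {true} ∈ H₁ → f ⁻¹' {false} ∈ H₂ → f ∈ G := by
  have hopT : ∀ f : C(Y, Bool), IsOpen (f ⁻¹' {true}) := fun f =>
    (isOpen_discrete _).preimage f.continuous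
  have hopF : ∀ f : C(Y, Bool), IsOpen (f ⁻¹' {false}) := fun f =>
    (isOpen_discrete _).preimage f.continuous
  change TopologicalSpace.GenerateOpen _ G at hG
  induction hG with
  | basic s hs =>
    obtain ⟨H, U, hH, -, rfl⟩ := hs
    by_cases h1 : true ∈ U <;> by_cases h2 : false ∈ U
    · have hU : U = univ := by
        ext b; cases b <;> simp [h1, h2]
      subst hU
      refine ⟨_, _, zscott_all, zscott_all, hopT g, hopF g, fun f _ _ => ?_⟩
      change (f ⁻¹' univ : Set Y) ∈ H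
      change (g ⁻¹' univ : Set Y) ∈ H at hg
      exact hg
    · have hU : U = {true} := by
        ext b; cases b <;> simp [h1, h2]
      subst hU
      exact ⟨_, _, hH, zscott_all, hg, hopF g, fun f hf _ => hf⟩
    · have hU : U = {false} := by
        ext b; cases b <;> simp [h1, h2]
      subst hU
      exact ⟨_, _, zscott_all, hH, hopT g, hg, fun f _ hf => hf⟩
    · have hU : U = ∅ := by
        ext b; cases b <;> simp [h1, h2]
      subst hU
      refine ⟨_, _, zscott_all, zscott_all, hopT g, hopF g, fun f _ _ => ?_⟩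
      simpa using hg
  | univ => exact ⟨_, _, zscott_all, zscott_all, hopT g, hopF g, fun f _ _ => mem_univ f⟩
  | inter s t _ _ ihs iht =>
    obtain ⟨H₁, H₂, h1, h2, h3, h4, h5⟩ := ihs hg.1
    obtain ⟨H₁', H₂', h1', h2', h3', h4', h5'⟩ := iht hg.2
    exact ⟨_, _, zscott_inter h1 h1', zscott_inter h2 h2', ⟨h3, h3'⟩, ⟨h4, h4'⟩,
      fun f hf hf' => ⟨h5 f hf.1 hf'.1, h5' f hf.2 hf'.2⟩⟩
  | sUnion S _ ih =>
    obtain ⟨s, hs, hgs⟩ := hg
    obtain ⟨H₁, H₂, h1, h2, h3, h4, h5⟩ := ih s hs hgs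
    exact ⟨H₁, H₂, h1, h2, h3, h4, fun f hf hf' => ⟨s, hs, h5 f hf hf'⟩⟩

end Bool

/-! ### The almost disjoint family -/

/-- The countable set of isolated points. -/
abbrev P : Type := ℕ × Finset ℕ

/-- The index set. -/
abbrev I : Type := Set (Finset P)

/-- The branch through the set of codes of `i`. -/
def D (i : I) : Set P :=
  {p | ∀ m, m ∈ p.2 ↔ m < p.1 ∧ ∃ K ∈ i, Encodable.encode K = m}

theorem D_ex (i : I) (n : ℕ) : ∃ s : Finset ℕ, (n, s) ∈ D i := by
  classical
  refine ⟨(Finset.range n).filter fun m => ∃ K ∈ i, Encodable.encode K = m, fun m => ?_⟩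
  simp

theorem D_infinite (i : I) : (D i).Infinite := by
  choose s hs using D_ex i
  refine infinite_of_injective_forall_mem (f := fun n => (n, s n)) ?_ hs
  intro a b h
  exact (Prod.ext_iff.1 h).1

theorem D_inter (i j : I) (hij : i ≠ j) : (D i ∩ D j).Finite := by
  classical
  have h1 : ∃ K : Finset P, ¬ (K ∈ i ↔ K ∈ j) := by
    by_contra hcon
    push Not at hcon
    exact hij (Set.ext hcon)
  obtain ⟨K, hK⟩ := h1
  -- all elements of the intersection have first coordinate at most `encode K`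
  have h2 : ∀ p ∈ D i ∩ D j, p.1 ≤ Encodable.encode K := by
    rintro p ⟨hp1, hp2⟩
    by_contra hlt
    push Not at hlt
    apply hK
    have e1 := hp1 (Encodable.encode K)
    have e2 := hp2 (Encodable.encode K)
    have e3 : ∀ l : I, (∃ K' ∈ l, Encodable.encode K' = Encodable.encode K) ↔ K ∈ l := by
      intro l
      constructor
      · rintro ⟨K', hK', he⟩
        rwa [← Encodable.encode_injective he]
      · intro h; exact ⟨K, h, rfl⟩
    rw [e3] at e1 e2
    constructor
    · intro h; exact (e2.1 (e1.2 ⟨hlt, h⟩)).2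
    · intro h; exact (e1.1 (e2.2 ⟨hlt, h⟩)).2
  have h3 : InjOn (Prod.fst : P → ℕ) (D i ∩ D j) := by
    rintro ⟨a, s⟩ ⟨hp, -⟩ ⟨b, t⟩ ⟨hq, -⟩ hab
    simp only at hab
    subst hab
    congr 1
    ext m
    rw [hp m, hq m]
  refine Finite.of_finite_image ((finite_Iic (Encodable.encode K)).subset ?_) h3
  rintro _ ⟨p, hp, rfl⟩
  exact h2 p hp

open Classical in
/-- The finite set removed from the branch. -/
noncomputable def L (i : I) : Finset P :=
  if h : ∃ L : Finset P, ∀ K ∈ i, ¬ ((K : Set P) ⊆ D i \ L) then h.choose else ∅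

/-- The almost disjoint family. -/
def B (i : I) : Set P := D i \ (L i : Set P)

theorem B_infinite (i : I) : (B i).Infinite := (D_infinite i).sdiff (L i).finite_toSet

theorem B_inter (i j : I) (hij : i ≠ j) : (B i ∩ B j).Finite :=
  (D_inter i j hij).subset (inter_subset_inter sdiff_subset sdiff_subset)

/-- The dichotomy: if some member of the family `i` of finite sets lies in `B i`, then
some member of `i` lies in `B i` and avoids any given finite set. -/
theorem dichotomy (i : I) (K : Finset P) (hK : K ∈ i) (hKB : (K : Set P) ⊆ B i)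
    (F : Finset P) : ∃ K' ∈ i, (K' : Set P) ⊆ B i ∧ Disjoint (K' : Set P) F := by
  by_cases h : ∃ L : Finset P, ∀ K ∈ i, ¬ ((K : Set P) ⊆ D i \ L)
  · exfalso
    have hL : L i = h.choose := by rw [L, dif_pos h]
    have := h.choose_spec K hK
    rw [← hL] at this
    exact this hKB
  · have hL : L i = ∅ := by rw [L, dif_neg h]
    push Not at h
    obtain ⟨K', hK', hsub⟩ := h F
    refine ⟨K', hK', ?_, ?_⟩
    · rw [B, hL]; simpa using hsub.trans sdiff_subset
    · exact disjoint_left.2 fun p hp hpF => (hsub hp).2 hpF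

/-- The ideal generated by the family and the finite sets. -/
def Small (A : Set P) : Prop := ∃ J : Finset I, (A \ ⋃ j ∈ J, B j).Finite

theorem Small.mono {A A' : Set P} (h : Small A) (hs : A' ⊆ A) : Small A' := by
  obtain ⟨J, hJ⟩ := h
  exact ⟨J, hJ.subset (sdiff_subset_sdiff_left hs)⟩

theorem small_of_finite {A : Set P} (h : A.Finite) : Small A := ⟨∅, h.subset sdiff_subset⟩

theorem small_B (i : I) : Small (B i) := ⟨{i}, by simp⟩

theorem Small.union {A A' : Set P} (h : Small A) (h' : Small A') : Small (A ∪ A') := by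
  classical
  obtain ⟨J, hJ⟩ := h
  obtain ⟨J', hJ'⟩ := h'
  refine ⟨J ∪ J', (hJ.union hJ').subset ?_⟩
  rintro p ⟨hp | hp, hn⟩
  · left; refine ⟨hp, fun hc => hn ?_⟩
    simp only [mem_iUnion, exists_prop] at hc ⊢
    obtain ⟨j, hj, hpj⟩ := hc
    exact ⟨j, Finset.mem_union_left _ hj, hpj⟩
  · right; refine ⟨hp, fun hc => hn ?_⟩
    simp only [mem_iUnion, exists_prop] at hc ⊢
    obtain ⟨j, hj, hpj⟩ := hc
    exact ⟨j, Finset.mem_union_right _ hj, hpj⟩

/-- A small set contains only finitely many members of the family. -/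
theorem finite_of_small {A : Set P} (h : Small A) : {i | B i ⊆ A}.Finite := by
  obtain ⟨J, hJ⟩ := h
  refine J.finite_toSet.subset fun i hi => ?_
  by_contra hiJ
  refine B_infinite i ?_
  have h1 : B i ⊆ (A \ ⋃ j ∈ J, B j) ∪ ⋃ j ∈ J, (B i ∩ B j) := by
    intro p hp
    by_cases hc : p ∈ ⋃ j ∈ J, B j
    · right
      simp only [mem_iUnion, exists_prop] at hc ⊢
      obtain ⟨j, hj, hpj⟩ := hc
      exact ⟨j, hj, hp, hpj⟩
    · left; exact ⟨hi hp, hc⟩
  refine (hJ.union ?_).subset h1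
  refine J.finite_toSet.biUnion fun j hj => B_inter i j ?_
  rintro rfl
  exact hiJ hj

/-! ### The prime space -/

/-- The underlying set of the prime space: `P` and one more point. -/
inductive X : Type
  | pt : X
  | iso : P → X

open X

/-- The topology: points of `P` are isolated, and a set containing the extra point is open
iff its complement is small. -/
instance : TopologicalSpace X where
  IsOpen W := pt ∈ W → Small {p | iso p ∉ W}
  isOpen_univ := fun _ => small_of_finite (by simp)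
  isOpen_inter := by
    intro W V hW hV h
    refine ((hW h.1).union (hV h.2)).mono ?_
    intro p hp
    by_contra hc
    simp only [mem_union, mem_ofPred_eq, not_or, not_not] at hc
    exact hp ⟨hc.1, hc.2⟩
  isOpen_sUnion := by
    rintro S hS ⟨W, hW, h⟩
    refine (hS W hW h).mono ?_
    intro p hp hc
    exact hp ⟨W, hW, hc⟩

theorem iso_inj : Function.Injective iso := fun _ _ h => by injection h

theorem iso_ne (p : P) : iso p ≠ pt := by intro h; cases h

theorem isOpen_iff (W : Set X) : IsOpen W ↔ (pt ∈ W → Small {p | iso p ∉ W}) := Iff.rfl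

theorem pt_notMem_image (A : Set P) : pt ∉ iso '' A := by
  rintro ⟨p, -, hp⟩
  exact iso_ne p hp

/-- Images of small sets are clopen. -/
theorem clopen_image {A : Set P} (h : Small A) : IsClopen (iso '' A) := by
  constructor
  · rw [← isOpen_compl_iff, isOpen_iff]
    intro _
    refine h.mono ?_
    intro p hp
    simpa [iso_inj.mem_set_image] using hp
  · rw [isOpen_iff]
    intro h'
    exact absurd h' (pt_notMem_image A)

/-- The family defining the neighbourhood of `0` which contains no closed neighbourhood. -/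
def H0 : Set (Set X) := {W | IsOpen W ∧ pt ∈ W ∧ ∀ i, ∃ p ∈ B i, iso p ∈ W}

theorem zscott_H0 : ZScott X Bool H0 where
  isOpen := fun _ h => h.1
  up := by
    intro W V hW _ hV hWV
    refine ⟨hV, hWV hW.2.1, fun i => ?_⟩
    obtain ⟨p, hp, hpW⟩ := hW.2.2 i
    exact ⟨p, hp, hWV hpW⟩
  comp := by
    classical
    intro 𝓦 h𝓦 hU
    obtain ⟨-, ⟨W0, hW0, hpt⟩, hB⟩ := hU
    have hop : ∀ W ∈ 𝓦, IsOpen W := fun W hW => ((mem_OZ_iff W).1 (h𝓦 hW)).isOpen
    have hsm : Small {p | iso p ∉ W0} := (isOpen_iff W0).1 (hop W0 hW0) hpt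
    have hfin := finite_of_small hsm
    have hch : ∀ i, ∃ W ∈ 𝓦, ∃ p ∈ B i, iso p ∈ W := by
      intro i
      obtain ⟨p, hp, W, hW, hpW⟩ := hB i
      exact ⟨W, hW, p, hp, hpW⟩
    choose w hw hw' using hch
    refine ⟨insert W0 (w '' {i | B i ⊆ {p | iso p ∉ W0}}), ?_, (hfin.image w).insert W0, ?_⟩
    · rintro W (rfl | ⟨i, -, rfl⟩)
      · exact hW0
      · exact hw i
    · refine ⟨isOpen_sUnion ?_, ⟨W0, mem_insert _ _, hpt⟩, fun i => ?_⟩
      · rintro W (rfl | ⟨i, -, rfl⟩)
        · exact hop _ hW0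
        · exact hop _ (hw i)
      · by_cases hi : B i ⊆ {p | iso p ∉ W0}
        · obtain ⟨p, hp, hpw⟩ := hw' i
          exact ⟨p, hp, w i, mem_insert_of_mem _ ⟨i, hi, rfl⟩, hpw⟩
        · rw [not_subset] at hi
          obtain ⟨p, hp, hpn⟩ := hi
          simp only [mem_ofPred_eq, not_not] at hpn
          exact ⟨p, hp, W0, mem_insert _ _, hpn⟩

/-- The main statement: `C(X, Bool)` with `t_1^Z` is not regular. -/
theorem not_regular : ¬ @RegularSpace C(X, Bool) (t1Z X Bool) := by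
  classical
  intro hreg
  let _ : TopologicalSpace C(X, Bool) := t1Z X Bool
  have _ : RegularSpace C(X, Bool) := hreg
  -- the zero map
  have hcl0 : IsClopen (∅ : Set X) := isClopen_empty
  set z : C(X, Bool) := ind ∅ hcl0 with hz
  have hzf : z ⁻¹' {false} = univ := by rw [hz, ind_false]; simp
  have hzt : z ⁻¹' {true} = ∅ := by rw [hz, ind_true]
  set O : Set C(X, Bool) := {f | f ⁻¹' {false} ∈ H0} with hO
  have hOopen : IsOpen O := TopologicalSpace.isOpen_generateFrom_of_mem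
    ⟨H0, {false}, zscott_H0, isOpen_discrete _, rfl⟩
  have hzO : z ∈ O := by
    rw [hO, mem_ofPred_eq, hzf]
    refine ⟨isOpen_univ, mem_univ _, fun i => ?_⟩
    obtain ⟨p, hp⟩ := (B_infinite i).nonempty
    exact ⟨p, hp, mem_univ _⟩
  obtain ⟨T, hT, hTc, hTO⟩ := exists_mem_nhds_isClosed_subset (hOopen.mem_nhds hzO)
  obtain ⟨G, hGT, hG, hzG⟩ := mem_nhds_iff.1 hT
  obtain ⟨H₁, H₂, hs1, hs2, hm1, hm2, hsub⟩ := basic_nhd G hG z hzG
  rw [hzt] at hm1
  rw [hzf] at hm2
  -- finite sets whose complement is not in `H₂`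
  set 𝓚 : I := {K : Finset P | (iso '' (K : Set P))ᶜ ∉ H₂} with h𝓚
  have hKin : ∀ i : I, ∃ K ∈ 𝓚, (K : Set P) ⊆ B i := by
    intro i
    have hcl := clopen_image (small_B i)
    have hnot : ind _ hcl ∉ O := by
      rw [hO, mem_ofPred_eq, ind_false]
      rintro ⟨-, -, h⟩
      obtain ⟨p, hp, hpn⟩ := h i
      exact hpn ⟨p, hp, rfl⟩
    have hTc' : ind _ hcl ∈ Tᶜ := fun h => hnot (hTO h)
    obtain ⟨H₁', H₂', hs1', hs2', hm1', hm2', hsub'⟩ :=
      basic_nhd Tᶜ hTc.isOpen_compl _ hTc'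
    rw [ind_true] at hm1'
    rw [ind_false] at hm2'
    have hsing : (fun p : P => ({iso p} : Set X)) '' B i ⊆ OZ X Bool := by
      rintro _ ⟨p, -, rfl⟩
      rw [mem_OZ_iff]
      have := clopen_image (small_of_finite (finite_singleton p))
      simpa using this
    have hun : ⋃₀ ((fun p : P => ({iso p} : Set X)) '' B i) = iso '' B i := by
      ext x; simp [eq_comm]
    obtain ⟨F, hF, hFf, hFm⟩ := hs1'.comp _ hsing (by rw [hun]; exact hm1')
    obtain ⟨K, hKB, hKf, rfl⟩ := exists_subset_image_finite_and.1 ⟨F, hF, hFf, rfl⟩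
    have hun' : ⋃₀ ((fun p : P => ({iso p} : Set X)) '' K) = iso '' K := by
      ext x; simp [eq_comm]
    rw [hun'] at hFm
    have hclK := clopen_image (small_of_finite hKf)
    have hmem : ind _ hclK ∈ Tᶜ := by
      refine hsub' _ ?_ ?_
      · rw [ind_true]; exact hFm
      · rw [ind_false]
        exact hs2'.up _ _ hm2' ((mem_OZ_iff _).2 hcl.compl) hclK.compl.isOpen
          (compl_subset_compl.2 (image_mono hKB))
    refine ⟨hKf.toFinset, ?_, by simpa using hKB⟩
    rw [h𝓚, mem_ofPred_eq, hKf.coe_toFinset]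
    intro hcon
    refine hmem (hGT (hsub _ ?_ ?_))
    · rw [ind_true]
      exact hs1.up _ _ hm1 ((mem_OZ_iff _).2 isClopen_empty) hclK.isOpen (empty_subset _)
    · rw [ind_false]; exact hcon
  obtain ⟨K, hK, hKB⟩ := hKin 𝓚
  -- cover of the whole space
  have hclB := clopen_image (small_B 𝓚)
  have hcov : ⋃₀ (insert (iso '' B 𝓚)ᶜ ((fun p : P => ({iso p} : Set X)) '' B 𝓚)) = univ := by
    ext x
    simp only [mem_sUnion, mem_univ, iff_true]
    by_cases hx : x ∈ iso '' B 𝓚
    · obtain ⟨p, hp, rfl⟩ := hx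
      exact ⟨{iso p}, mem_insert_of_mem _ ⟨p, hp, rfl⟩, rfl⟩
    · exact ⟨_, mem_insert _ _, hx⟩
  have hcovOZ : insert (iso '' B 𝓚)ᶜ ((fun p : P => ({iso p} : Set X)) '' B 𝓚) ⊆ OZ X Bool := by
    rintro W (rfl | ⟨p, -, rfl⟩)
    · exact (mem_OZ_iff _).2 hclB.compl
    · rw [mem_OZ_iff]
      have := clopen_image (small_of_finite (finite_singleton p))
      simpa using this
  obtain ⟨F, hF, hFf, hFm⟩ := hs2.comp _ hcovOZ (by rw [hcov]; exact hm2)
  have hLf : {p : P | ({iso p} : Set X) ∈ F}.Finite := by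
    refine Finite.of_finite_image (f := fun p : P => ({iso p} : Set X))
      (hFf.subset ?_) ?_
    · rintro _ ⟨p, hp, rfl⟩; exact hp
    · intro a _ b _ hab
      exact iso_inj (singleton_injective hab)
  obtain ⟨K', hK', hK'B, hdisj⟩ := dichotomy 𝓚 K hK hKB hLf.toFinset
  refine hK' (hs2.up _ _ hFm (sUnion_OZ hFf (hF.trans hcovOZ))
    (clopen_image (small_of_finite K'.finite_toSet)).compl.isOpen ?_)
  rintro x ⟨W, hW, hxW⟩ ⟨p, hp, rfl⟩
  rcases hF hW with rfl | ⟨q, hq, rfl⟩
  · exact hxW ⟨p, hK'B hp, rfl⟩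
  · have hpq : p = q := iso_inj hxW
    subst hpq
    refine disjoint_left.1 hdisj hp ?_
    simpa using hW

theorem countable_X : Countable X := by
  refine Function.Injective.countable (β := Option P)
    (f := fun x => match x with | pt => none | iso p => some p) ?_
  rintro (_ | p) (_ | q) h <;> simp_all

theorem clopen_singleton (p : P) : IsClopen ({iso p} : Set X) := by
  have := clopen_image (small_of_finite (finite_singleton p))
  simpa using this

instance : T2Space X := by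
  refine ⟨?_⟩
  rintro (_ | p) (_ | q) h
  · exact absurd rfl h
  · exact ⟨{iso q}ᶜ, {iso q}, (clopen_singleton q).compl.isOpen, (clopen_singleton q).isOpen,
      fun hc => h hc, rfl, disjoint_compl_left⟩
  · exact ⟨{iso p}, {iso p}ᶜ, (clopen_singleton p).isOpen, (clopen_singleton p).compl.isOpen,
      rfl, fun hc => h hc.symm, disjoint_compl_right⟩
  · exact ⟨{iso p}, {iso q}, (clopen_singleton p).isOpen, (clopen_singleton q).isOpen,
      rfl, rfl, disjoint_singleton.2 h⟩

end Pool.Agent.V11105.IsbellPrime
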