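import Mathlib

open MeasureTheory ProbabilityTheory

namespace Pool.Agent.V11105.Secret

/-- Linear signals killing the all-one vector are independent of the sum of independent standard
Gaussians. -/
lemma indep_of_kills {S : Type*} [Fintype S] {E : Type*} [NormedAddCommGroup E] [NormedSpace ℝ E]
    [MeasurableSpace E] [BorelSpace E] [SecondCountableTopology E] [CompleteSpace E]
    {Ω : Type*} [MeasurableSpace Ω] {P : Measure Ω} {X : S → Ω → ℝ}
    (hX : ∀ s, HasLaw (X s) (gaussianReal 0 1) P) (hI : iIndepFun X P)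
    (L : (S → ℝ) →L[ℝ] E) (hL : L (fun _ => 1) = 0) :
    IndepFun (fun ω => L (fun s => X s ω)) (fun ω => ∑ s, X s ω) P := by
  classical
  have := hI.isProbabilityMeasure
  have hG : HasGaussianLaw (fun ω => (fun s => X s ω)) P :=
    hI.hasGaussianLaw (fun s => (hX s).hasGaussianLaw)
  let sm : (S → ℝ) →L[ℝ] ℝ := ∑ s, ContinuousLinearMap.proj (R := ℝ) (φ := fun _ : S => ℝ) s
  have hsm : ∀ x, sm x = ∑ s, x s := by
    intro x
    simp [sm]
  have hXY : HasGaussianLaw (fun ω => (L (fun s => X s ω), ∑ s, X s ω)) P := by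
    have h := hG.map_fun (L.prod sm)
    simpa [hsm] using h
  apply hXY.indepFun_of_covariance_strongDual
  intro L₁ L₂
  set ℓ : (S → ℝ) →L[ℝ] ℝ := L₁.comp L with hℓ
  have hℓ1 : ℓ (fun _ => 1) = 0 := by simp [hℓ, hL]
  have hℓx : ∀ x : S → ℝ, ℓ x = ∑ s, x s * ℓ (Pi.single s 1) := by
    intro x
    have h1 := LinearMap.pi_apply_eq_sum_univ (ℓ : (S → ℝ) →ₗ[ℝ] ℝ) x
    simp only [ContinuousLinearMap.coe_coe, smul_eq_mul] at h1
    rw [h1]
    refine Finset.sum_congr rfl (fun s _ => ?_)
    congr 2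
    ext j
    by_cases hj : s = j
    · subst hj; simp
    · simp [hj, Ne.symm hj]
  have hsum : ∑ s, ℓ (Pi.single s 1) = 0 := by
    have := hℓx (fun _ => 1)
    rw [hℓ1] at this
    simpa using this.symm
  have e1 : (⇑L₁ ∘ fun ω => L (fun s => X s ω)) =
      fun ω => ∑ s, ℓ (Pi.single s 1) * X s ω := by
    ext ω
    simp only [Function.comp]
    have : L₁ (L (fun s => X s ω)) = ℓ (fun s => X s ω) := rfl
    rw [this, hℓx]
    exact Finset.sum_congr rfl (fun s _ => by ring)
  have e2 : (⇑L₂ ∘ fun ω => ∑ s, X s ω) = fun ω => ∑ s, L₂ 1 * X s ω := by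
    ext ω
    simp only [Function.comp]
    have : L₂ (∑ s, X s ω) = (∑ s, X s ω) * L₂ 1 := by
      have := L₂.map_smul (∑ s, X s ω) (1 : ℝ)
      simpa using this
    rw [this, Finset.sum_mul]
    exact Finset.sum_congr rfl (fun s _ => by ring)
  have hm : ∀ s, MemLp (X s) 2 P := fun s => (hX s).hasGaussianLaw.memLp_two
  rw [e1, e2, covariance_fun_sum_fun_sum (fun s => (hm s).const_mul _)
    (fun s => (hm s).const_mul _)]
  have hcov : ∀ s t, cov[fun ω => ℓ (Pi.single s 1) * X s ω, fun ω => L₂ 1 * X t ω; P] =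
      if s = t then ℓ (Pi.single s 1) * L₂ 1 else 0 := by
    intro s t
    rw [covariance_const_mul_left, covariance_const_mul_right]
    by_cases hst : s = t
    · subst hst
      rw [covariance_self (hX s).aemeasurable, (hX s).variance_eq, variance_id_gaussianReal]
      simp
    · have : cov[X s, X t; P] = 0 := (hI.indepFun hst).covariance_eq_zero (hm s) (hm t)
      simp only [if_neg hst]
      have h3 : cov[fun ω => X s ω, fun ω => X t ω; P] = 0 := this
      simp [h3]
  simp only [hcov, Finset.sum_ite_eq, Finset.mem_univ, if_true]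
  rw [← Finset.sum_mul, hsum, zero_mul]

end Pool.Agent.V11105.Secret
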