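import Pool.Agent.V11105.SecretA

open MeasureTheory ProbabilityTheory Relation

namespace Pool.Agent.V11105.Secret

/-- A network: a directed acyclic graph, weakly connected, with exactly one vertex `d` of
out-degree `0`. -/
structure Network (V : Type*) where
  /-- edges -/
  E : V → V → Prop
  /-- the destination -/
  d : V
  acyclic : ∀ v, ¬ TransGen E v v
  weaklyConnected : ∀ u v, ReflTransGen (fun a b => E a b ∨ E b a) u v
  d_sink : ∀ w, ¬ E d w
  d_unique : ∀ v, (∀ w, ¬ E v w) → v = d

variable {V : Type*} (N : Network V)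

/-- `v` has in-degree `0`. -/
def Network.IsSource (v : V) : Prop := ∀ u, ¬ N.E u v

/-- the type of sources. -/
abbrev Network.Src : Type _ := {v : V // N.IsSource v}

/-- the value `1{v ∈ S} X_v`. -/
noncomputable def Network.own (v : V) (x : N.Src → ℝ) : ℝ :=
  open Classical in if h : N.IsSource v then x ⟨v, h⟩ else 0

/-- A coding scheme. The signal on the edge `(v, w)` is a vector of dimension `dim v w`; `f v w`
computes it from the signals on the incoming edges of `v` and from `1{v ∈ S} X_v`; `g` is the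
decoder of the destination. -/
structure Coding where
  /-- dimension of the signal on each edge -/
  dim : V → V → ℕ
  /-- encoders -/
  f : ∀ v w : V, ((∀ u : {u // N.E u v}, Fin (dim u v) → ℝ) × ℝ) → (Fin (dim v w) → ℝ)
  /-- decoder -/
  g : (∀ u : {u // N.E u N.d}, Fin (dim u N.d) → ℝ) → ℝ

variable {N}

/-- all encoders and the decoder are measurable. -/
def Coding.Meas (c : Coding N) : Prop := (∀ v w, Measurable (c.f v w)) ∧ Measurable c.g

/-- all encoders and the decoder are linear. -/
def Coding.IsLinear (c : Coding N) : Prop :=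
  (∀ v w, IsLinearMap ℝ (c.f v w)) ∧ IsLinearMap ℝ c.g

/-- `Y` is the family of signals produced by the scheme from the source values. -/
def Coding.IsSignal (c : Coding N) (Y : ∀ v w, (N.Src → ℝ) → Fin (c.dim v w) → ℝ) : Prop :=
  ∀ v w, N.E v w → ∀ x, Y v w x = c.f v w (fun u => Y u v x, N.own v x)

/-- `s` reaches `u` by a directed path (possibly of length `0`) using no edge of `W`. -/
def Network.Reach (N : Network V) (W : V → V → Prop) (s u : V) : Prop :=
  ReflTransGen (fun a b => N.E a b ∧ ¬ W a b) s u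

/-- The secrecy closure of `W`. -/
def Network.scl (N : Network V) (W : V → V → Prop) (u v : V) : Prop :=
  W u v ∨ (N.E u v ∧ ∀ s, N.IsSource s → ¬ N.Reach W s u)

/-- Condition (C). -/
def Network.CondC (N : Network V) (W : V → V → Prop) : Prop :=
  ∀ s, N.IsSource s →
    ReflTransGen (fun a b => (N.E a b ∧ ¬ N.scl W a b) ∨ (N.E b a ∧ ¬ N.scl W b a)) s N.d

lemma wf_E [Finite V] (N : Network V) : WellFounded N.E := by
  have h : WellFounded (TransGen N.E) := by
    have : IsTrans V (TransGen N.E) := ⟨fun a b c hab hbc => hab.trans hbc⟩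
    have : Std.Irrefl (TransGen N.E) := ⟨N.acyclic⟩
    exact Finite.wellFounded_of_trans_of_irrefl _
  exact Subrelation.wf (fun h => TransGen.single h) h

lemma wf_E' [Finite V] (N : Network V) : WellFounded (fun a b => N.E b a) := by
  have h : WellFounded (fun a b => TransGen N.E b a) := by
    have : IsTrans V (fun a b => TransGen N.E b a) := ⟨fun a b c hab hbc => hbc.trans hab⟩
    have : Std.Irrefl (fun a b => TransGen N.E b a) := ⟨N.acyclic⟩
    exact Finite.wellFounded_of_trans_of_irrefl _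
  exact Subrelation.wf (fun h => TransGen.single h) h

/-- every vertex has a path to the destination. -/
lemma to_d [Finite V] (N : Network V) (v : V) : ReflTransGen N.E v N.d := by
  induction v using (wf_E' N).induction with
  | _ v ih =>
    by_cases h : ∀ w, ¬ N.E v w
    · rw [N.d_unique v h]
    · push Not at h
      obtain ⟨w, hw⟩ := h
      exact ReflTransGen.head hw (ih w hw)

/-- `x_s - x_t` is available at `v`. -/
def D (N : Network V) (W : V → V → Prop) (v : V) (s t : V) : Prop :=
  ∃ w, ReflTransGen N.E w v ∧ N.Reach W s w ∧ N.Reach W t w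

section scheme

variable (N) (W : V → V → Prop)

open Classical in
/-- the abstract signal on the edge `(v,w)`. -/
noncomputable def yy (v w : V) (x : N.Src → ℝ) : (N.Src ⊕ (N.Src × N.Src)) → ℝ
  | Sum.inl s => if W v w then 0 else if N.Reach W s v then x s else 0
  | Sum.inr (s, t) => if D N W v s t then x s - x t else 0

/-- The inputs seen at `v`. -/
abbrev Inp (v : V) := ({u // N.E u v} → (N.Src ⊕ (N.Src × N.Src)) → ℝ) × ℝ

/-- the inputs -/
noncomputable def inp (v : V) (x : N.Src → ℝ) : Inp N v :=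
  (fun u => yy N W u v x, N.own v x)

lemma val_lin (v : V) (s : N.Src) (h : N.Reach W s v) :
    ∃ φ : Inp N v →ₗ[ℝ] ℝ, ∀ x, φ (inp N W v x) = x s := by
  classical
  rcases ReflTransGen.cases_tail h with h | ⟨u, hu, huv, hW⟩
  · refine ⟨LinearMap.snd ℝ _ _, fun x => ?_⟩
    have hs : N.IsSource v := by rw [h]; exact s.2
    have : s = ⟨v, hs⟩ := by ext; exact h.symm
    simp [inp, Network.own, hs, this]
  · refine ⟨(LinearMap.proj (Sum.inl s)).comp ((LinearMap.proj
      (φ := fun _ : {u // N.E u v} => (N.Src ⊕ (N.Src × N.Src)) → ℝ) ⟨u, huv⟩).comp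
      (LinearMap.fst ℝ _ _)), fun x => ?_⟩
    have hu' : N.Reach W s u := hu
    simp [inp, yy, hW, hu']

lemma dif_lin (v : V) (s t : N.Src) (h : D N W v s t) :
    ∃ φ : Inp N v →ₗ[ℝ] ℝ, ∀ x, φ (inp N W v x) = x s - x t := by
  classical
  obtain ⟨w, hwv, hs, ht⟩ := h
  rcases ReflTransGen.cases_tail hwv with h | ⟨u, hu, huv⟩
  · subst h
    obtain ⟨φ, hφ⟩ := val_lin N W v s hs
    obtain ⟨ψ, hψ⟩ := val_lin N W v t ht
    exact ⟨φ - ψ, fun x => by simp [hφ, hψ]⟩
  · refine ⟨(LinearMap.proj (Sum.inr (s, t))).comp ((LinearMap.proj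
      (φ := fun _ : {u // N.E u v} => (N.Src ⊕ (N.Src × N.Src)) → ℝ) ⟨u, huv⟩).comp
      (LinearMap.fst ℝ _ _)), fun x => ?_⟩
    have hD : D N W u s t := ⟨w, hu, hs, ht⟩
    simp [inp, yy, hD]

/-- the encoders exist. -/
lemma enc (v w : V) : ∃ φ : Inp N v →ₗ[ℝ] ((N.Src ⊕ (N.Src × N.Src)) → ℝ),
    ∀ x, φ (inp N W v x) = yy N W v w x := by
  classical
  have h : ∀ i : N.Src ⊕ (N.Src × N.Src), ∃ φ : Inp N v →ₗ[ℝ] ℝ,
      ∀ x, φ (inp N W v x) = yy N W v w x i := by
    rintro (s | ⟨s, t⟩)
    · by_cases h1 : W v w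
      · exact ⟨0, fun x => by simp [yy, h1]⟩
      · by_cases h2 : N.Reach W s v
        · obtain ⟨φ, hφ⟩ := val_lin N W v s h2
          exact ⟨φ, fun x => by rw [hφ]; simp [yy, h1, h2]⟩
        · exact ⟨0, fun x => by simp [yy, h2]⟩
    · by_cases h1 : D N W v s t
      · obtain ⟨φ, hφ⟩ := dif_lin N W v s t h1
        exact ⟨φ, fun x => by rw [hφ]; simp [yy, h1]⟩
      · exact ⟨0, fun x => by simp [yy, h1]⟩
  choose φ hφ using h
  refine ⟨LinearMap.pi φ, fun x => ?_⟩
  ext i
  simp [hφ]

/-- the decoder can recover `x_s`. -/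
def Dec (s : N.Src) : Prop := ∃ φ : Inp N N.d →ₗ[ℝ] ℝ, ∀ x, φ (inp N W N.d x) = x s

lemma dec_all [Finite V] (hC : N.CondC W) (s : N.Src) : Dec N W s := by
  classical
  have step : ∀ a t t', ReflTransGen N.E a N.d → N.Reach W (t : N.Src) a →
      N.Reach W (t' : N.Src) a → Dec N W t' → Dec N W t := by
    intro a t t' ha h1 h2 ⟨ψ, hψ⟩
    obtain ⟨φ, hφ⟩ := dif_lin N W N.d t t' ⟨a, ha, h1, h2⟩
    exact ⟨φ + ψ, fun x => by simp [hφ, hψ]⟩
  have key : ∀ a, ReflTransGen (fun a b => (N.E a b ∧ ¬ N.scl W a b) ∨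
      (N.E b a ∧ ¬ N.scl W b a)) a N.d → ∀ t : N.Src, N.Reach W t a → Dec N W t := by
    intro a ha
    induction ha using ReflTransGen.head_induction_on with
    | refl =>
      intro t ht
      exact val_lin N W N.d t ht
    | @head a b hab _ ih =>
      intro t ht
      -- a common source reaching both `a` and `b`
      obtain ⟨t0, h1, h2⟩ : ∃ t0 : N.Src, N.Reach W t0 a ∧ N.Reach W t0 b := by
        rcases hab with ⟨hE, hn⟩ | ⟨hE, hn⟩
        · unfold Network.scl at hn
          push Not at hn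
          obtain ⟨s0, hs0, hr⟩ := hn.2 hE
          exact ⟨⟨s0, hs0⟩, hr, ReflTransGen.tail hr ⟨hE, hn.1⟩⟩
        · unfold Network.scl at hn
          push Not at hn
          obtain ⟨s0, hs0, hr⟩ := hn.2 hE
          exact ⟨⟨s0, hs0⟩, ReflTransGen.tail hr ⟨hE, hn.1⟩, hr⟩
      exact step a t t0 (to_d N a) ht h1 (ih t0 h2)
  exact key s (hC s s.2) s ReflTransGen.refl

end scheme

end Pool.Agent.V11105.Secret
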