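import Mathlib

/-!
Transfinite diameters of iterates of a set under a mixing map: definitions and a counterexample.
-/

open MeasureTheory Filter Set Topology ENNReal ProbabilityTheory

namespace Pool.Agent.V11105.TransDiam

noncomputable section

/-- `ρ_n(A)`: the supremum over all `n`-tuples of points of `A` of the geometric mean
`∏_{i<j} d(p_i,p_j)^{2/(n(n-1))}` (a number in `[0,∞]`). -/
def rhoN {S : Type*} [MetricSpace S] (n : ℕ) (A : Set S) : ℝ≥0∞ :=
  ⨆ p : {p : Fin n → S // ∀ i, p i ∈ A},
    (∏ i : Fin n, ∏ j ∈ Finset.Ioi i, edist (p.1 i) (p.1 j)) ^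
      ((2 : ℝ) / ((n : ℝ) * ((n : ℝ) - 1)))

/-- The transfinite diameter `ρ(A) = lim ρ_n(A)` (the sequence is nonincreasing for `n ≥ 2`, so that
the upper limit used here is the limit). -/
def rho {S : Type*} [MetricSpace S] (A : Set S) : ℝ≥0∞ :=
  limsup (fun n => rhoN n A) atTop

/-- The essential transfinite diameter: infimum of `ρ(B)` over measurable `B ⊆ A` with
`P(B) = P(A)`. -/
def essRho {S : Type*} [MetricSpace S] [MeasurableSpace S] (P : Measure S) (A : Set S) : ℝ≥0∞ :=
  ⨅ B : {B : Set S // B ⊆ A ∧ MeasurableSet B ∧ P B = P A}, rho B.1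

/-- The standing assumptions of the problem: `P` is a probability measure, every open ball is
measurable and has positive measure, and `ψ` is measure preserving and mixing. -/
structure IsMixingSystem {S : Type*} [MetricSpace S] [MeasurableSpace S] (P : Measure S)
    (ψ : S → S) : Prop where
  prob : IsProbabilityMeasure P
  ball_measurable : ∀ (x : S) (r : ℝ), 0 < r → MeasurableSet (Metric.ball x r)
  ball_pos : ∀ (x : S) (r : ℝ), 0 < r → 0 < P (Metric.ball x r)
  measurePreserving : MeasurePreserving ψ P P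
  mixing : ∀ A B : Set S, MeasurableSet A → MeasurableSet B →
    Tendsto (fun n => P ((ψ^[n]) ⁻¹' A ∩ B)) atTop (𝓝 (P A * P B))

/-! ### The space of sequences -/

/-- Sequences of natural numbers. -/
def Sq : Type := ℕ → ℕ

instance : MeasurableSpace Sq := inferInstanceAs (MeasurableSpace (ℕ → ℕ))

/-- exponents -/
def M (m : ℕ) : ℝ := (m : ℝ) * (2 * (m : ℝ) + 1) ^ m

lemma M_nonneg (m : ℕ) : 0 ≤ M m := by unfold M; positivity

lemma M_mono : Monotone M := by
  apply monotone_nat_of_le_succ
  intro n
  unfold M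
  push_cast
  have h1 : (2 * (n : ℝ) + 1) ^ n ≤ (2 * ((n : ℝ) + 1) + 1) ^ (n + 1) := by
    calc (2 * (n : ℝ) + 1) ^ n ≤ (2 * ((n : ℝ) + 1) + 1) ^ n := by
          gcongr; linarith
      _ ≤ (2 * ((n : ℝ) + 1) + 1) ^ (n + 1) := by
          apply pow_le_pow_right₀
          · have : (0 : ℝ) ≤ n := Nat.cast_nonneg n
            linarith
          · omega
  have h0 : (0 : ℝ) ≤ n := Nat.cast_nonneg n
  exact mul_le_mul (by linarith) h1 (by positivity) (by positivity)

lemma le_M (m : ℕ) : (m : ℝ) ≤ M m := by
  unfold M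
  have h0 : (0 : ℝ) ≤ m := Nat.cast_nonneg m
  have : (1 : ℝ) ≤ (2 * (m : ℝ) + 1) ^ m := one_le_pow₀ (by linarith)
  nlinarith

/-- the distances -/
def a (m : ℕ) : ℝ := Real.exp (-(M m))

lemma a_pos (m : ℕ) : 0 < a m := Real.exp_pos _

lemma a_anti : Antitone a := by
  intro m n h
  unfold a
  apply Real.exp_le_exp.2
  have := M_mono h
  linarith

lemma a_le_one (m : ℕ) : a m ≤ 1 := by
  unfold a
  have := M_nonneg m
  rw [Real.exp_le_one_iff]
  linarith

lemma a_tendsto : Tendsto a atTop (𝓝 0) := by
  unfold a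
  apply Real.tendsto_exp_neg_atTop_nhds_zero.comp
  apply tendsto_atTop_mono le_M
  exact tendsto_natCast_atTop_atTop

/-- first difference -/
def fd (x y : Sq) : ℕ := PiNat.firstDiff (E := fun _ => ℕ) x y

lemma fd_comm (x y : Sq) : fd x y = fd y x := PiNat.firstDiff_comm _ _

instance : MetricSpace Sq where
  dist x y := open Classical in if x = y then 0 else a (fd x y)
  dist_self x := by simp
  dist_comm x y := by
    by_cases h : x = y
    · simp [h]
    · simp [h, Ne.symm h, fd_comm x y]
  dist_triangle x y z := by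
    by_cases hxz : x = z
    · subst hxz
      simp only [if_true]
      split_ifs <;> first | positivity | (have := a_pos (fd x y); have := a_pos (fd y x); positivity)
    · by_cases hxy : x = y
      · subst hxy
        simp [hxz]
      · by_cases hyz : y = z
        · subst hyz
          simp [hxz]
        · simp only [hxz, hxy, hyz, if_false]
          have h := PiNat.min_firstDiff_le (E := fun _ => ℕ) x y z hxz
          rcases min_le_iff.1 h with h | h
          · have := a_anti h
            have := a_pos (fd y z)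
            unfold fd at *
            linarith
          · have := a_anti h
            have := a_pos (fd x y)
            unfold fd at *
            linarith
  eq_of_dist_eq_zero := by
    intro x y h
    by_contra hne
    have h' : a (fd x y) = 0 := by
      have : (open Classical in if x = y then (0 : ℝ) else a (fd x y)) = 0 := h
      simpa [hne] using this
    exact (a_pos _).ne' h'

lemma dist_def (x y : Sq) : dist x y = open Classical in if x = y then 0 else a (fd x y) := rfl

lemma dist_of_ne {x y : Sq} (h : x ≠ y) : dist x y = a (fd x y) := by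
  rw [dist_def, if_neg h]

lemma dist_le_one (x y : Sq) : dist x y ≤ 1 := by
  rw [dist_def]
  split_ifs
  · norm_num
  · exact a_le_one _

/-- If the first `m` coordinates agree the distance is at most `a m`. -/
lemma dist_le_of_agree {x y : Sq} {m : ℕ} (h : ∀ i < m, x i = y i) : dist x y ≤ a m := by
  by_cases hne : x = y
  · subst hne; simp [(a_pos m).le]
  · rw [dist_of_ne hne]
    apply a_anti
    have := (PiNat.mem_cylinder_iff_le_firstDiff (E := fun _ => ℕ) (x := x) (y := y) hne m).1 h
    exact this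

lemma agree_of_dist_lt {x y : Sq} {m : ℕ} (h : dist x y < a m) (i : ℕ) (hi : i ≤ m) :
    x i = y i := by
  by_cases hne : x = y
  · subst hne; rfl
  · rw [dist_of_ne hne] at h
    have : m < fd x y := by
      by_contra hcon
      push Not at hcon
      exact absurd (a_anti hcon) (not_le.2 h)
    exact PiNat.apply_eq_of_lt_firstDiff (lt_of_le_of_lt hi this)

/-! ### The measure -/

/-- geometric distribution on `ℕ` -/
def mu0 : Measure ℕ := Measure.sum (fun k => ((2 : ℝ≥0∞)⁻¹ ^ (k + 1)) • Measure.dirac k)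

lemma mu0_apply (s : Set ℕ) :
    mu0 s = ∑' k, (2 : ℝ≥0∞)⁻¹ ^ (k + 1) * s.indicator 1 k := by
  unfold mu0
  rw [Measure.sum_apply _ (MeasurableSet.of_discrete)]
  congr 1
  ext k
  simp

instance : IsProbabilityMeasure mu0 := by
  constructor
  rw [mu0_apply]
  simp only [indicator_univ, Pi.one_apply, mul_one]
  rw [ENNReal.tsum_geometric_add_one, ENNReal.one_sub_inv_two, inv_inv]
  exact ENNReal.inv_mul_cancel (by norm_num) (by norm_num)

lemma mu0_singleton_pos (k : ℕ) : 0 < mu0 {k} := by
  rw [mu0_apply]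
  apply lt_of_lt_of_le _ (ENNReal.le_tsum k)
  simp only [mem_singleton_iff, indicator_of_mem, Pi.one_apply, mul_one]
  exact ENNReal.pow_pos (by simp) _

lemma mu0_Ioi (m : ℕ) : mu0 (Ioi m) ≤ (2 : ℝ≥0∞)⁻¹ ^ (m + 1) := by
  rw [mu0_apply]
  have hinj : Function.Injective (fun j : ℕ => j + (m + 1)) := fun a b h => by simpa using h
  rw [← hinj.tsum_eq]
  · have : ∀ j : ℕ, (2 : ℝ≥0∞)⁻¹ ^ (j + (m + 1) + 1) * (Ioi m).indicator 1 (j + (m + 1))
        = (2 : ℝ≥0∞)⁻¹ ^ (m + 1) * (2 : ℝ≥0∞)⁻¹ ^ (j + 1) := by
      intro j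
      rw [indicator_of_mem (by simp; omega), Pi.one_apply, mul_one, ← pow_add]
      congr 1; omega
    simp only [this]
    rw [ENNReal.tsum_mul_left, ENNReal.tsum_geometric_add_one, ENNReal.one_sub_inv_two, inv_inv,
      ENNReal.inv_mul_cancel (by norm_num) (by norm_num), mul_one]
  · intro k hk
    simp only [Function.mem_support, ne_eq, mul_eq_zero, not_or, indicator_apply_eq_zero,
      mem_Ioi, Pi.one_apply, one_ne_zero, imp_false, not_not] at hk
    exact ⟨k - (m + 1), by show k - (m + 1) + (m + 1) = k; omega⟩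

/-- The product measure. -/
def P : Measure Sq := Measure.infinitePi (fun _ : ℕ => mu0)

instance : IsProbabilityMeasure P :=
  inferInstanceAs (IsProbabilityMeasure (Measure.infinitePi (fun _ : ℕ => mu0)))

/-- The shift. -/
def shift (x : Sq) : Sq := fun n => x (n + 1)

lemma shift_iter (n : ℕ) (x : Sq) (i : ℕ) : (shift^[n] x) i = x (i + n) := by
  induction n generalizing x with
  | zero => rfl
  | succ n ih =>
    rw [Function.iterate_succ_apply, ih]
    show x (i + n + 1) = x (i + (n + 1))
    rw [add_assoc]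

lemma measurable_shift : Measurable shift := by
  apply measurable_pi_lambda
  intro n
  exact measurable_pi_apply (n + 1)

lemma shift_mp : MeasurePreserving shift P P := by
  refine ⟨measurable_shift, ?_⟩
  have := Measure.map_infinitePi_infinitePi_of_inj (Ω := fun _ : ℕ => ℕ) (P := fun _ : ℕ => mu0)
    (f := fun n : ℕ => n + 1) (fun a b h => by simpa using h)
  exact this

/-- coordinate sigma-algebras -/
@[instance_reducible] def mi (i : ℕ) : MeasurableSpace Sq := MeasurableSpace.comap (fun ω : Sq => ω i) ⊤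

lemma iIndep_mi : iIndep mi P :=
  iIndepFun_infinitePi (Ω := fun _ : ℕ => ℕ) (P := fun _ : ℕ => mu0) (X := fun _ ω => ω)
    (fun _ => measurable_id)

lemma mi_le (i : ℕ) : mi i ≤ (inferInstance : MeasurableSpace Sq) := by
  unfold mi
  exact (measurable_pi_apply i).comap_le

lemma indep_cyl (s : Finset ℕ) (S' : Set (∀ _ : s, ℕ)) (A : Set Sq) (hA : MeasurableSet A) (n : ℕ)
    (hn : ∀ i ∈ s, i < n) :
    P ((shift^[n]) ⁻¹' A ∩ cylinder s S') = P A * P (cylinder s S') := by
  have hdisj : Disjoint {i : ℕ | n ≤ i} (s : Set ℕ) := by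
    rw [Set.disjoint_left]
    intro i hi hs
    exact absurd (hn i hs) (not_lt.2 hi)
  have hind := indep_iSup_of_disjoint mi_le iIndep_mi hdisj
  have h1 : MeasurableSet[⨆ i ∈ (s : Set ℕ), mi i] (cylinder s S') := by
    have hm : @Measurable _ _ (⨆ i ∈ (s : Set ℕ), mi i) _ (s.restrict (π := fun _ => ℕ)) := by
      refine @measurable_pi_lambda _ _ _ (⨆ i ∈ (s : Set ℕ), mi i) _ _ ?_
      intro i
      have : mi i ≤ ⨆ i ∈ (s : Set ℕ), mi i := le_iSup₂_of_le (i : ℕ) i.2 le_rfl
      apply Measurable.mono _ this le_rfl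
      exact comap_measurable (fun ω : Sq => ω i)
    exact hm (MeasurableSet.of_discrete)
  have h2 : MeasurableSet[⨆ i ∈ {i : ℕ | n ≤ i}, mi i] ((shift^[n]) ⁻¹' A) := by
    have hm : @Measurable _ _ (⨆ i ∈ {i : ℕ | n ≤ i}, mi i) _ (shift^[n]) := by
      refine @measurable_pi_lambda _ _ _ (⨆ i ∈ {i : ℕ | n ≤ i}, mi i) _ _ ?_
      intro i
      have : mi (i + n) ≤ ⨆ i ∈ {i : ℕ | n ≤ i}, mi i :=
        le_iSup₂_of_le (i + n) (by simp) le_rfl
      apply Measurable.mono _ this le_rfl
      have h : (fun c => (shift^[n]) c i) = fun ω : Sq => ω (i + n) := by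
        ext ω; exact shift_iter n ω i
      rw [h]
      exact comap_measurable (fun ω : Sq => ω (i + n))
    exact hm hA
  have h3 := (Indep_iff _ _ _).1 hind _ _ h2 h1
  rw [h3]
  congr 1
  exact (shift_mp.iterate n).measure_preimage hA.nullMeasurableSet

lemma shift_mixing (A B : Set Sq) (hA : MeasurableSet A) (hB : MeasurableSet B) :
    Tendsto (fun n => P ((shift^[n]) ⁻¹' A ∩ B)) atTop (𝓝 (P A * P B)) := by
  have hgen : (inferInstance : MeasurableSpace Sq)
      = MeasurableSpace.generateFrom (measurableCylinders (fun _ : ℕ => ℕ)) :=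
    generateFrom_measurableCylinders.symm
  have hpre : ∀ n, P ((shift^[n]) ⁻¹' A) = P A := fun n =>
    (shift_mp.iterate n).measure_preimage hA.nullMeasurableSet
  have hmeas : ∀ n, MeasurableSet ((shift^[n]) ⁻¹' A) := fun n =>
    (shift_mp.iterate n).measurable hA
  induction B, hB using MeasurableSpace.induction_on_inter hgen isPiSystem_measurableCylinders with
  | empty => simp
  | basic t ht =>
    obtain ⟨s, S', -, rfl⟩ := (mem_measurableCylinders t).1 ht
    apply tendsto_const_nhds.congr'
    obtain ⟨N, hN⟩ := s.exists_nat_subset_range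
    filter_upwards [eventually_ge_atTop N] with n hn
    rw [indep_cyl s S' A hA n]
    intro i hi
    exact lt_of_lt_of_le (Finset.mem_range.1 (hN hi)) hn
  | compl t ht ih =>
    have h1 : ∀ n, P ((shift^[n]) ⁻¹' A ∩ tᶜ) = P A - P ((shift^[n]) ⁻¹' A ∩ t) := by
      intro n
      rw [← hpre n, ← measure_inter_add_sdiff ((shift^[n]) ⁻¹' A) ht, ← sdiff_eq,
        ENNReal.add_sub_cancel_left (measure_ne_top _ _)]
    simp only [h1]
    have h2 : P A * P tᶜ = P A - P A * P t := by
      rw [prob_compl_eq_one_sub ht, ENNReal.mul_sub (fun _ _ => measure_ne_top _ _), mul_one]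
    rw [h2]
    exact ENNReal.Tendsto.sub tendsto_const_nhds ih (Or.inl (measure_ne_top _ _))
  | iUnion f hdisj hf ih =>
    have h1 : ∀ n, P ((shift^[n]) ⁻¹' A ∩ ⋃ i, f i) = ∑' i, P ((shift^[n]) ⁻¹' A ∩ f i) := by
      intro n
      rw [inter_iUnion, measure_iUnion]
      · intro i j hij
        exact (hdisj hij).mono inter_subset_right inter_subset_right
      · intro i; exact (hmeas n).inter (hf i)
    simp only [h1]
    rw [measure_iUnion hdisj hf, ← ENNReal.tsum_mul_left]
    simp only [← lintegral_count]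
    apply tendsto_lintegral_of_dominated_convergence (fun i => P (f i))
    · intro n; exact measurable_of_countable _
    · intro n
      exact Eventually.of_forall fun i => measure_mono inter_subset_right
    · rw [lintegral_count, ← measure_iUnion hdisj hf]
      exact measure_ne_top _ _
    · exact Eventually.of_forall fun i => ih i

/-! ### Balls -/

/-- the cylinder of sequences agreeing with `x` in the first `m` coordinates -/
def cyl (x : Sq) (m : ℕ) : Set Sq := {y | ∀ i < m, y i = x i}

lemma cyl_eq (x : Sq) (m : ℕ) :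
    cyl x m = Set.pi (Finset.range m : Set ℕ) (fun i => ({x i} : Set ℕ)) := by
  ext y
  show (∀ i < m, y i = x i) ↔ ∀ i, i ∈ (Finset.range m : Set ℕ) → y i ∈ ({x i} : Set ℕ)
  simp

lemma measurableSet_cyl (x : Sq) (m : ℕ) : MeasurableSet (cyl x m) := by
  rw [cyl_eq]
  exact MeasurableSet.pi (Finset.countable_toSet _) (fun i _ => MeasurableSet.of_discrete)

lemma P_cyl_pos (x : Sq) (m : ℕ) : 0 < P (cyl x m) := by
  rw [cyl_eq]
  have h := Measure.infinitePi_pi (fun _ : ℕ => mu0) (s := Finset.range m)
    (t := fun i => ({x i} : Set ℕ)) (fun i _ => MeasurableSet.of_discrete)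
  have h2 : P (Set.pi (Finset.range m : Set ℕ) (fun i => ({x i} : Set ℕ)))
    = ∏ i ∈ Finset.range m, mu0 {x i} := h
  rw [h2]
  exact CanonicallyOrderedAdd.prod_pos.2 fun i _ => mu0_singleton_pos _

lemma ball_eq (x : Sq) (r : ℝ) (hr : 0 < r) : ∃ m, Metric.ball x r = cyl x m := by
  have hex : ∃ m, a m < r := ((tendsto_order.1 a_tendsto).2 r hr).exists
  classical
  refine ⟨Nat.find hex, ?_⟩
  ext y
  rw [Metric.mem_ball]
  constructor
  · intro h i hi
    by_cases hne : y = x
    · rw [hne]
    · have h1 : Nat.find hex ≤ fd y x := by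
        by_contra hcon
        push Not at hcon
        have := Nat.find_min hex hcon
        rw [dist_of_ne hne] at h
        exact this h
      exact PiNat.apply_eq_of_lt_firstDiff (lt_of_lt_of_le hi h1)
  · intro h
    exact lt_of_le_of_lt (dist_le_of_agree h) (Nat.find_spec hex)

theorem isMixingSystem : IsMixingSystem P shift where
  prob := inferInstance
  ball_measurable x r hr := by
    obtain ⟨m, hm⟩ := ball_eq x r hr
    rw [hm]; exact measurableSet_cyl x m
  ball_pos x r hr := by
    obtain ⟨m, hm⟩ := ball_eq x r hr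
    rw [hm]; exact P_cyl_pos x m
  measurePreserving := shift_mp
  mixing := shift_mixing

/-! ### The set `A` -/

/-- sequences with `x_j ≤ j + 1` -/
def A : Set Sq := {x | ∀ j, x j ≤ j + 1}

lemma A_eq : Aᶜ = ⋃ j : ℕ, {x : Sq | x j ∈ Ioi (j + 1)} := by
  ext x
  simp [A]

lemma measurableSet_coord (j : ℕ) (s : Set ℕ) : MeasurableSet {x : Sq | x j ∈ s} :=
  (measurable_pi_apply (X := fun _ : ℕ => ℕ) j) (MeasurableSet.of_discrete (s := s))

lemma measurableSet_A : MeasurableSet A := by
  rw [← MeasurableSet.compl_iff, A_eq]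
  exact MeasurableSet.iUnion fun j => measurableSet_coord j _

lemma P_coord (j : ℕ) (s : Set ℕ) : P {x : Sq | x j ∈ s} = mu0 s := by
  have := (measurePreserving_eval_infinitePi (fun _ : ℕ => mu0) j).measure_preimage
    (MeasurableSet.of_discrete (s := s)).nullMeasurableSet
  exact this

lemma P_A_pos : 0 < P A := by
  have h1 : P Aᶜ ≤ 2⁻¹ := by
    rw [A_eq]
    calc P (⋃ j : ℕ, {x : Sq | x j ∈ Ioi (j + 1)}) ≤ ∑' j : ℕ, P {x : Sq | x j ∈ Ioi (j + 1)} :=
          measure_iUnion_le _
      _ ≤ ∑' j : ℕ, (2 : ℝ≥0∞)⁻¹ ^ (j + 1 + 1) := by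
          apply ENNReal.tsum_le_tsum
          intro j
          rw [P_coord]
          exact mu0_Ioi (j + 1)
      _ = 2⁻¹ := by
          simp only [pow_succ' _ (_ + 1)]
          rw [ENNReal.tsum_mul_left, ENNReal.tsum_geometric_add_one, ENNReal.one_sub_inv_two,
            inv_inv, ENNReal.inv_mul_cancel (by norm_num) (by norm_num), mul_one]
  by_contra h
  have h0 : P A = 0 := by simpa using h
  have h2 := prob_add_prob_compl (μ := P) measurableSet_A
  rw [h0, zero_add] at h2
  rw [h2] at h1
  have h3 : (1 : ℝ≥0∞) ≤ 2⁻¹ := h1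
  rw [ENNReal.one_le_inv] at h3
  norm_num at h3

lemma image_subset (n : ℕ) : (shift^[n]) '' A ⊆ {x : Sq | ∀ j, x j ≤ n + j + 1} := by
  rintro _ ⟨x, hx, rfl⟩ j
  rw [shift_iter]
  have := hx (j + n)
  omega

/-- put `k` in front of a sequence -/
def cons (k : ℕ) (x : Sq) : Sq := fun i => Nat.casesOn i k x

lemma cons_shift (x : Sq) : cons (x 0) (shift x) = x := by
  funext i
  cases i <;> rfl

lemma shift_cons (k : ℕ) (x : Sq) : shift (cons k x) = x := rfl

lemma measurable_cons (k : ℕ) : Measurable (cons k) := by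
  apply measurable_pi_lambda
  intro i
  cases i with
  | zero => exact measurable_const
  | succ i => exact measurable_pi_apply i

/-- Images of measurable sets under the shift are measurable. -/
lemma measurableSet_image (B : Set Sq) (hB : MeasurableSet B) : MeasurableSet (shift '' B) := by
  have h : shift '' B = ⋃ k : ℕ, cons k ⁻¹' B := by
    ext y
    simp only [mem_image, mem_iUnion, mem_preimage]
    constructor
    · rintro ⟨x, hx, rfl⟩
      exact ⟨x 0, by rw [cons_shift]; exact hx⟩
    · rintro ⟨k, hk⟩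
      exact ⟨_, hk, rfl⟩
  rw [h]
  exact MeasurableSet.iUnion fun k => measurable_cons k hB

/-! ### Counting pairs in the same class -/

/-- Number of pairs `i < j` in the same class. -/
def numPairs {N : ℕ} {C : Type*} [DecidableEq C] (κ : Fin N → C) : ℕ :=
  ∑ i : Fin N, ((Finset.Ioi i).filter (fun j => κ i = κ j)).card

lemma numPairs_bound {N : ℕ} {C : Type*} [DecidableEq C] [Fintype C] (κ : Fin N → C) :
    (N : ℝ) ^ 2 ≤ (Fintype.card C : ℝ) * (N + 2 * numPairs κ) := by
  have h1 : (∑ c : C, ∑ i : Fin N, (if κ i = c then (1 : ℝ) else 0)) = N := by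
    rw [Finset.sum_comm]; simp
  have h2 : (∑ c : C, (∑ i : Fin N, (if κ i = c then (1 : ℝ) else 0)) ^ 2)
      = ∑ i : Fin N, ∑ j : Fin N, (if κ i = κ j then (1 : ℝ) else 0) := by
    simp_rw [sq, Finset.sum_mul_sum]
    rw [Finset.sum_comm]
    apply Finset.sum_congr rfl; intro i _
    rw [Finset.sum_comm]
    apply Finset.sum_congr rfl; intro j _
    simp only [mul_ite, mul_one, mul_zero]
    simp [eq_comm]
  have h3 : (numPairs κ : ℝ)
      = ∑ i : Fin N, ∑ j : Fin N, (if i < j then (if κ i = κ j then (1 : ℝ) else 0) else 0) := by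
    unfold numPairs
    push_cast
    apply Finset.sum_congr rfl; intro i _
    rw [Finset.card_filter]
    push_cast
    rw [← Finset.sum_filter (fun j => i < j), Finset.filter_lt_eq_Ioi]
  have h4 : (numPairs κ : ℝ)
      = ∑ i : Fin N, ∑ j : Fin N, (if j < i then (if κ i = κ j then (1 : ℝ) else 0) else 0) := by
    rw [h3, Finset.sum_comm]
    simp [eq_comm]
  have h5 : (N : ℝ) = ∑ i : Fin N, ∑ j : Fin N, (if i = j then (1 : ℝ) else 0) := by simp
  have h6 : ∑ i : Fin N, ∑ j : Fin N, (if κ i = κ j then (1 : ℝ) else 0)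
      = N + 2 * numPairs κ := by
    have : (N : ℝ) + 2 * numPairs κ = numPairs κ + numPairs κ + N := by ring
    rw [this]
    nth_rewrite 1 [h3]
    rw [h4, h5, ← Finset.sum_add_distrib, ← Finset.sum_add_distrib]
    apply Finset.sum_congr rfl; intro i _
    rw [← Finset.sum_add_distrib, ← Finset.sum_add_distrib]
    apply Finset.sum_congr rfl; intro j _
    rcases lt_trichotomy i j with h | h | h
    · simp [h, not_lt.2 h.le, h.ne]
    · subst h; simp
    · simp [h, not_lt.2 h.le, h.ne']
  have h7 := sq_sum_le_card_mul_sum_sq (s := (Finset.univ : Finset C))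
    (f := fun c => ∑ i : Fin N, (if κ i = c then (1 : ℝ) else 0))
  rw [h1, h2, h6] at h7
  simpa using h7

lemma rhoN_le (n m N : ℕ) (hm : n ≤ m) (hN : 2 * (2 * m + 1) ^ m ≤ N) (B : Set Sq)
    (hB : B ⊆ {x : Sq | ∀ j, x j ≤ n + j + 1}) :
    rhoN N B ≤ ENNReal.ofReal (Real.exp (-((m : ℝ) / 2))) := by
  have hc1 : 1 ≤ (2 * m + 1) ^ m := Nat.one_le_pow _ _ (by omega)
  have hN2 : 2 ≤ N := by omega
  apply iSup_le
  rintro ⟨q, hq⟩
  have hq' : ∀ i j, q i j ≤ n + j + 1 := fun i => hB (hq i)
  set κ : Fin N → (Fin m → Fin (2 * m + 1)) := fun i j => ⟨q i j, by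
    have := hq' i j; have := j.2; omega⟩ with hκ
  have hagree : ∀ i j, κ i = κ j → dist (q i) (q j) ≤ a m := by
    intro i j h
    apply dist_le_of_agree
    intro k hk
    have := congrFun h ⟨k, hk⟩
    simpa [hκ] using this
  have hprod : (∏ i : Fin N, ∏ j ∈ Finset.Ioi i, edist (q i) (q j))
      ≤ ENNReal.ofReal (a m) ^ (numPairs κ) := by
    calc (∏ i : Fin N, ∏ j ∈ Finset.Ioi i, edist (q i) (q j))
        ≤ ∏ i : Fin N, ∏ j ∈ Finset.Ioi i,
            (if κ i = κ j then ENNReal.ofReal (a m) else 1) := by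
          apply Finset.prod_le_prod' ; intro i _
          apply Finset.prod_le_prod' ; intro j _
          rw [edist_dist]
          split_ifs with h
          · exact ENNReal.ofReal_le_ofReal (hagree i j h)
          · exact ENNReal.ofReal_le_one.2 (dist_le_one _ _)
      _ = ENNReal.ofReal (a m) ^ (numPairs κ) := by
          unfold numPairs
          rw [← Finset.prod_pow_eq_pow_sum]
          apply Finset.prod_congr rfl; intro i _
          rw [Finset.prod_ite]
          simp
  have hb := numPairs_bound κ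
  have hcard : Fintype.card (Fin m → Fin (2 * m + 1)) = (2 * m + 1) ^ m := by simp
  rw [hcard] at hb
  push_cast at hb
  set c : ℝ := (2 * (m : ℝ) + 1) ^ m with hc
  set T : ℝ := (numPairs κ : ℝ) with hT
  have hcpos : 0 < c := by positivity
  have hNr : (2 : ℝ) ≤ N := by exact_mod_cast hN2
  have hNc : 2 * c ≤ N := by
    have : ((2 * (2 * m + 1) ^ m : ℕ) : ℝ) ≤ N := by exact_mod_cast hN
    push_cast at this
    exact this
  set s : ℝ := (2 : ℝ) / ((N : ℝ) * ((N : ℝ) - 1)) with hs
  have hspos : 0 < s := by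
    apply div_pos (by norm_num)
    apply _root_.mul_pos (by linarith) (by linarith)
  have hkey : (m : ℝ) / 2 ≤ M m * (T * s) := by
    have hMm : M m = m * c := rfl
    have h1 : 1 / (2 * c) ≤ T * s := by
      rw [hs, mul_div_assoc', div_le_div_iff₀ (by positivity)
        (_root_.mul_pos (by linarith) (by linarith))]
      nlinarith
    rw [hMm]
    calc (m : ℝ) / 2 = m * c * (1 / (2 * c)) := by field_simp
      _ ≤ m * c * (T * s) := by
          apply mul_le_mul_of_nonneg_left h1 (by positivity)
  show (∏ i : Fin N, ∏ j ∈ Finset.Ioi i, edist (q i) (q j)) ^ s ≤ _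
  calc (∏ i : Fin N, ∏ j ∈ Finset.Ioi i, edist (q i) (q j)) ^ s
      ≤ (ENNReal.ofReal (a m) ^ (numPairs κ)) ^ s := ENNReal.rpow_le_rpow hprod hspos.le
    _ = ENNReal.ofReal (Real.exp (-(M m * (T * s)))) := by
        unfold a
        rw [← ENNReal.ofReal_pow (Real.exp_pos _).le, ENNReal.ofReal_rpow_of_pos (by positivity),
          ← Real.exp_nat_mul, ← Real.exp_mul]
        congr 2
        rw [hT]; ring
    _ ≤ ENNReal.ofReal (Real.exp (-((m : ℝ) / 2))) := by
        apply ENNReal.ofReal_le_ofReal
        apply Real.exp_le_exp.2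
        linarith

lemma rho_zero (n : ℕ) (B : Set Sq) (hB : B ⊆ {x : Sq | ∀ j, x j ≤ n + j + 1}) :
    rho B = 0 := by
  have h1 : ∀ m, n ≤ m → rho B ≤ ENNReal.ofReal (Real.exp (-((m : ℝ) / 2))) := by
    intro m hm
    unfold rho
    apply limsup_le_of_le
    · isBoundedDefault
    · filter_upwards [eventually_ge_atTop (2 * (2 * m + 1) ^ m)] with N hN
      exact rhoN_le n m N hm hN B hB
  have h2 : Tendsto (fun m : ℕ => ENNReal.ofReal (Real.exp (-((m : ℝ) / 2)))) atTop (𝓝 0) := by
    rw [← ENNReal.ofReal_zero]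
    apply ENNReal.tendsto_ofReal
    apply Real.tendsto_exp_neg_atTop_nhds_zero.comp
    exact tendsto_natCast_atTop_atTop.atTop_div_const (by norm_num)
  have h3 : rho B ≤ 0 := by
    apply ge_of_tendsto h2
    filter_upwards [eventually_ge_atTop n] with m hm
    exact h1 m hm
  exact le_antisymm h3 bot_le

/-- constant-type points at mutual distance one -/
def pt (k : ℕ) : Sq := fun _ => k

lemma rho_univ : rho (univ : Set Sq) = 1 := by
  have h1 : ∀ N, rhoN N (univ : Set Sq) = 1 := by
    intro N
    have hs : 0 ≤ (2 : ℝ) / ((N : ℝ) * ((N : ℝ) - 1)) := by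
      rcases Nat.eq_zero_or_pos N with h | h
      · subst h; simp
      · have : (1 : ℝ) ≤ N := by exact_mod_cast h
        apply div_nonneg (by norm_num)
        apply mul_nonneg (by linarith) (by linarith)
    apply le_antisymm
    · apply iSup_le
      rintro ⟨q, hq⟩
      apply ENNReal.rpow_le_one _ hs
      apply Finset.prod_le_one' ; intro i _
      apply Finset.prod_le_one' ; intro j _
      rw [edist_dist]
      exact ENNReal.ofReal_le_one.2 (dist_le_one _ _)
    · refine le_iSup_of_le ⟨fun i => pt i, fun i => mem_univ _⟩ ?_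
      have : ∀ i : Fin N, ∏ j ∈ Finset.Ioi i, edist (pt i) (pt j) = 1 := by
        intro i
        apply Finset.prod_eq_one
        intro j hj
        have hij : (i : ℕ) ≠ j := by
          have := Finset.mem_Ioi.1 hj
          exact (Fin.lt_def.1 this).ne
        have hne : pt i ≠ pt j := by
          intro h
          exact hij (congrFun h 0)
        have hfd : fd (pt i) (pt j) = 0 := by
          by_contra hcon
          have := PiNat.apply_eq_of_lt_firstDiff (E := fun _ => ℕ) (x := pt i) (y := pt j)
            (Nat.pos_of_ne_zero hcon)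
          exact hij this
        rw [edist_dist, dist_of_ne hne, hfd]
        simp [a, M]
      simp only [this, Finset.prod_const_one, ENNReal.one_rpow, le_refl]
  unfold rho
  simp only [h1]
  simp

/-- Statement of the counterexample to Q1 (with forward measurability). -/
theorem main : IsMixingSystem P shift ∧ (∀ B, MeasurableSet B → MeasurableSet (shift '' B)) ∧
    MeasurableSet A ∧ 0 < P A ∧ (∀ n, rho ((shift^[n]) '' A) = 0) ∧ rho (univ : Set Sq) = 1 :=
  ⟨isMixingSystem, measurableSet_image, measurableSet_A, P_A_pos,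
    fun n => rho_zero n _ (image_subset n), rho_univ⟩

end

end Pool.Agent.V11105.TransDiam
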